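import Pool.Agent.W_7d29a1_HS.Defs
import Pool.Agent.W_7d29a1_X.Path89

/-!
STORM Z AT ONE TILT `s` (MP_7d29a1_pr): superdiffusivity in dimension `1 + 1`. Definitions (the case `s = 0` is `W_7d29a1_Z.Defs`).

Paths of length `N` are sets `S ⊆ range N` of up steps, `pos S i` is the position at the time `i` (tilt `s`, centre of the
displacements of time `n`: `sl μ s * n`). A shear is a sequence `v : ℕ → ℤ`, `v k` is the jump of the rows at the step `k → k + 1`.
The ZONES are `[za t τ b, zb t τ b]`, `za t τ b = τ + 2 t b`, of the duration `t`, separated by gaps of the duration `t`; the shears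
are at the times `za t τ b + k`, `k ∈ I`, where the pattern `I` is contained in the core `[t / 4, 3 t / 4)`.
-/

set_option autoImplicit false

namespace Pool.Agent.W_7d29a1_HZ

open MeasureTheory ProbabilityTheory Filter Topology Finset
open Pool.Agent.W_7d29a1_F Pool.Agent.W_7d29a1_X Pool.Agent.W_7d29a1_h4g Pool.Agent.W_7d29a1_H
open Pool.Agent.W_7d29a1_HS (In wd md)
open scoped ENNReal

noncomputable section

/-! ### Shears -/

/-- The total shift of the rows between the times `a` and `i`. -/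
def sv (v : ℕ → ℤ) (a i : ℕ) : ℤ := ∑ k ∈ Ico a i, v k

/-- The sheared environment: the row `i` is shifted by the jumps `v k`, `a ≤ k < i`. -/
def shr (a : ℕ) (v : ℕ → ℤ) (η : Env) : Env := fun p => η (p.1, p.2 - sv v a p.1.toNat)

/-- The position of the path `S` of the sheared model in the frame of the environment. -/
def px (v : ℕ → ℤ) (S : Finset ℕ) (i : ℕ) : ℤ := pos S i - sv v 0 i

/-- The logarithm of the weight of the sheared model from `x` at the time `a` to `y` at the time `b`, both positions in the frame of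
the environment. -/
def fk (μ : Measure ℝ) (s : ℝ) (v : ℕ → ℤ) (η : Env) (a b : ℕ) (x y : ℤ) : ℝ :=
  Real.log (W μ s (shr a v η) ((a : ℤ), x) (b - a) (y - x + sv v a b))

/-! ### The polymer measure with fixed end point, annealed -/

/-- The Gibbs weight of the path `S` from `(0, 0)` to `(N, y)`. -/
def gp (μ : Measure ℝ) (s : ℝ) (η : Env) (N : ℕ) (y : ℤ) (S : Finset ℕ) : ℝ :=
  if pos S N = y then pth μ s η N S / W μ s η 0 N y else 0

/-- The annealed probability of the event `A` of the environment and the path. -/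
def P1 (μ : Measure ℝ) (s : ℝ) (N : ℕ) (y : ℤ) (A : Env → Finset ℕ → Prop) : ℝ≥0∞ :=
  ∑ S ∈ (range N).powerset, ((law μ).withDensity fun η => ENNReal.ofReal (gp μ s η N y S)) {η | A η S}

/-- The annealed probability of the event `A` of the environment `η`, a path `S` of the polymer in `η` and a path `S'` of the polymer in
the sheared environment `shr 0 v η`, independent given `η`. (Used with `sv v 0 N = 0`.) -/
def P2 (μ : Measure ℝ) (s : ℝ) (N : ℕ) (y : ℤ) (v : ℕ → ℤ) (A : Env → Finset ℕ → Finset ℕ → Prop) : ℝ≥0∞ :=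
  ∑ S ∈ (range N).powerset, ∑ S' ∈ (range N).powerset,
    ((law μ).withDensity fun η => ENNReal.ofReal (gp μ s η N y S * gp μ s (shr 0 v η) N y S')) {η | A η S S'}

/-! ### Zones and patterns -/

/-- The start of the zone `b`. -/
def za (t τ b : ℕ) : ℕ := τ + 2 * t * b

/-- The end of the zone `b`. -/
def zb (t τ b : ℕ) : ℕ := τ + 2 * t * b + t

/-- The shear with the amplitude `V b` at each time of the pattern `I` in the zone `b`. -/
def pat (t τ : ℕ) (I : Finset ℕ) (V : ℕ → ℤ) : ℕ → ℤ :=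
  fun k => if τ ≤ k ∧ (k - τ) % (2 * t) ∈ I then V ((k - τ) / (2 * t)) else 0

/-- The patterns: subsets of the core of `[0, t)`. -/
def Core (t : ℕ) : Finset ℕ := Ico (t / 4) (3 * t / 4)

/-- The logarithm `f_b (a)` of the weight of the zone `b` with the amplitude `a`, between the positions of `X`. -/
def fb (μ : Measure ℝ) (s : ℝ) (t τ : ℕ) (I : Finset ℕ) (η : Env) (b : ℕ) (a : ℤ) (X : ℕ → ℤ) : ℝ :=
  fk μ s (pat t τ I fun _ => a) η (za t τ b) (zb t τ b) (X (za t τ b)) (X (zb t τ b))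

/-- The second difference of `f_b` with the step `r`, at the amplitude `a`. -/
def Db (μ : Measure ℝ) (s : ℝ) (t τ : ℕ) (I : Finset ℕ) (r : ℤ) (η : Env) (b : ℕ) (a : ℤ) (X : ℕ → ℤ) : ℝ :=
  fb μ s t τ I η b (a + r) X + fb μ s t τ I η b (a - r) X - 2 * fb μ s t τ I η b a X

/-! ### Scales -/

/-- The width, at least one. -/
def wd' (μ : Measure ℝ) (s : ℝ) (n : ℕ) : ℝ := max 1 (wd μ s n)

/-- The unit, at least one. -/
def EE' (μ : Measure ℝ) (s : ℝ) (n : ℕ) : ℝ := max 1 (EE μ s n)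

/-- The response of the pattern `I` (jump `j`) at the scale `t` is at most `A` with probability at least `1 - p`: all the kernels which
start in the first quarter and end in the last quarter of `[0, t]`, displacements in the cone of half width `w`. -/
def Rsp (μ : Measure ℝ) (s : ℝ) (t : ℕ) (I : Finset ℕ) (j : ℤ) (w A p : ℝ) : Prop :=
  law μ {η | ∃ u u' : ℕ, 4 * u ≤ t ∧ 3 * t ≤ 4 * u' ∧ u' ≤ t ∧ ∃ y : ℤ, |(y : ℝ) - sl μ s * ((u' : ℝ) - u)| ≤ w ∧
    A < |fk μ s (pat t 0 I fun _ => j) η u u' 0 y - fk μ s 0 η u u' 0 y|} ≤ ENNReal.ofReal p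

/-- PROPERTY `P (sg)`: for all large `t` there is a pattern of about `t ^ (2 sg)` times whose response is at most about `t ^ sg`. -/
def PSg (μ : Measure ℝ) (s : ℝ) (sg : ℝ) : Prop :=
  ∀ ε : ℝ, 0 < ε → ∃ δ c : ℝ, 0 < δ ∧ 0 < c ∧ ∃ t₀ : ℕ, ∀ t : ℕ, t₀ ≤ t → ∃ I : Finset ℕ, I ⊆ Core t ∧
    (t : ℝ) ^ (2 * sg - ε) ≤ (I.card : ℝ) ∧ (I.card : ℝ) ≤ (t : ℝ) ^ (2 * sg) ∧
    Rsp μ s t I 1 ((t : ℝ) ^ δ * wd μ s t) ((t : ℝ) ^ (sg + ε)) (Real.exp (-(t : ℝ) ^ c))

/-! ### Near ties -/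

/-- Paths left of the line `Y` at the rows `J` (`sg = 1`; right of it if `sg = -1`). -/
def Lr (μ : Measure ℝ) (s : ℝ) (sg : ℤ) (J : Finset ℕ) (Y : ℤ) : Set Pt := {q | q.1.toNat ∈ J → sg * (q.2 - md μ s q.1.toNat) ≤ Y}

/-- Paths in the strip of the width `w` behind the line `Y` at the rows `J`. -/
def Rr (μ : Measure ℝ) (s : ℝ) (sg : ℤ) (J : Finset ℕ) (Y w : ℤ) : Set Pt :=
  {q | q.1.toNat ∈ J → Y < sg * (q.2 - md μ s q.1.toNat) ∧ sg * (q.2 - md μ s q.1.toNat) ≤ Y + w}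

/-- `S` is left of the line at the rows `J`. -/
def InL (μ : Measure ℝ) (s : ℝ) (sg : ℤ) (J : Finset ℕ) (Y : ℤ) (S : Finset ℕ) : Prop := ∀ i ∈ J, sg * (pos S i - md μ s i) ≤ Y

/-- `S` is in the strip at the rows `J`. -/
def InR (μ : Measure ℝ) (s : ℝ) (sg : ℤ) (J : Finset ℕ) (Y w : ℤ) (S : Finset ℕ) : Prop :=
  ∀ i ∈ J, Y < sg * (pos S i - md μ s i) ∧ sg * (pos S i - md μ s i) ≤ Y + w

/-- The weights of the paths from the position of `X` at the time `a` to the position at the time `b` in the region `R`. -/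
def kr (μ : Measure ℝ) (s : ℝ) (R : Set Pt) (η : Env) (a b : ℕ) (X : ℕ → ℤ) : ℝ := WR μ s R η ((a : ℤ), X a) (b - a) (X b - X a)

/-- NEAR TIE of the depth `M`: `S` is left of the line at the rows `J`, and between two points of `S`, one before `J`, one behind `J`, at
most `H` apart, the paths in the strip weigh at least `exp (- M)` times the paths left of the line. -/
def NT (μ : Measure ℝ) (s : ℝ) (N H : ℕ) (sg : ℤ) (J : Finset ℕ) (Y w : ℤ) (M : ℝ) (η : Env) (S : Finset ℕ) : Prop :=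
  InL μ s sg J Y S ∧ ∃ a b : ℕ, b ≤ N ∧ b ≤ a + H ∧ (∀ i ∈ J, a < i ∧ i < b) ∧
    Real.exp (-M) * kr μ s (Lr μ s sg J Y) η a b (pos S) ≤ kr μ s (Rr μ s sg J Y w) η a b (pos S)

/-- Near tie at the rows `J ⊆ [j₀, ..)` for a line of the grid of the mesh `g` at the distance at most `w` from `S`. -/
def NTW (μ : Measure ℝ) (s : ℝ) (N H j₀ : ℕ) (J : Finset ℕ) (g w : ℕ) (M : ℝ) (η : Env) (S : Finset ℕ) : Prop :=
  ∃ sg Y : ℤ, (sg = 1 ∨ sg = -1) ∧ (g : ℤ) ∣ Y ∧ |sg * (pos S j₀ - md μ s j₀) - Y| ≤ w ∧ NT μ s N H sg J Y w M η S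

/-- The event depends on the environment only outside the rows `J`. -/
def OffRows (J : Finset ℕ) (A : Env → Finset ℕ → Prop) : Prop :=
  ∀ (η η' : Env) (S : Finset ℕ), (∀ q : Pt, ¬ (0 ≤ q.1 ∧ q.1.toNat ∈ J) → η q = η' q) → (A η S ↔ A η' S)

/-- The event depends on the environment only at the rows `J`. -/
def OnRows (J : Finset ℕ) (A : Env → Finset ℕ → Prop) : Prop :=
  ∀ (η η' : Env) (S : Finset ℕ), (∀ q : Pt, 0 ≤ q.1 ∧ q.1.toNat ∈ J → η q = η' q) → (A η S ↔ A η' S)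

/-- Measurable events. -/
def Ms (A : Env → Finset ℕ → Prop) : Prop := ∀ S, MeasurableSet {η | A η S}

/-! ### The random amplitudes -/

/-- The values `-1, 0, 0, 1`. -/
def val (i : Fin 4) : ℤ := ![-1, 0, 0, 1] i

/-- The balanced amplitudes: the pair of zones `b₀ + 2 i`, `b₀ + 2 i + 1` has the amplitudes `r val (σ i)`, `- r val (σ i)`. -/
def amp (r : ℤ) (b₀ m : ℕ) (σ : Fin m → Fin 4) (b : ℕ) : ℤ :=
  if h : b₀ ≤ b ∧ (b - b₀) / 2 < m then (if (b - b₀) % 2 = 0 then r * val (σ ⟨(b - b₀) / 2, h.2⟩)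
    else -(r * val (σ ⟨(b - b₀) / 2, h.2⟩))) else 0

/-- The annealed probability with random balanced amplitudes in the zones `b₀, .., b₀ + 2 m - 1`. -/
def P3 (μ : Measure ℝ) (s : ℝ) (N : ℕ) (y : ℤ) (t τ : ℕ) (I : Finset ℕ) (r : ℤ) (b₀ m : ℕ)
    (A : (Fin m → Fin 4) → Env → Finset ℕ → Finset ℕ → Prop) : ℝ≥0∞ :=
  ((4 : ℝ≥0∞) ^ m)⁻¹ * ∑ σ : Fin m → Fin 4, P2 μ s N y (pat t τ I (amp r b₀ m σ)) (A σ)

/-- The sum of the responses to the amplitudes over a list of sheared pieces. -/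
def Xd (μ : Measure ℝ) (s : ℝ) (v : ℕ → ℤ) (Q : Finset (ℕ × ℕ)) (η : Env) (X : ℕ → ℤ) : ℝ :=
  ∑ q ∈ Q, (fk μ s v η q.1 q.2 (X q.1) (X q.2) - fk μ s 0 η q.1 q.2 (X q.1) (X q.2))

/-- `Q` is a list of disjoint pieces of `[a, b]` which contains all the times of shears of `[a, b)`, and the rows `J` are outside the
pieces. -/
structure Pcs (v : ℕ → ℤ) (a b : ℕ) (J : Finset ℕ) (Q : Finset (ℕ × ℕ)) : Prop where
  sub : ∀ q ∈ Q, a ≤ q.1 ∧ q.1 ≤ q.2 ∧ q.2 ≤ b
  dis : ∀ q ∈ Q, ∀ r ∈ Q, q ≠ r → q.2 ≤ r.1 ∨ r.2 ≤ q.1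
  cov : ∀ k, a ≤ k → k < b → v k ≠ 0 → ∃ q ∈ Q, q.1 ≤ k ∧ k < q.2
  out : ∀ i ∈ J, ∀ q ∈ Q, i ≤ q.1 ∨ q.2 ≤ i

end

end Pool.Agent.W_7d29a1_HZ
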