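import Pool.Agent.W_7d29a1_HZ.Defs
import Pool.Agent.W_7d29a1_Z.PthB

/-!
MP_7d29a1_pr, HZ (STORM Z at the tilt `s`): the polymer measure of `HZ/Defs` in terms of the kernels of pieces.
(Model: `W_7d29a1_Z.PthB`.) (helper76)
-/

set_option autoImplicit false

namespace Pool.Agent.W_7d29a1_HZ

open Finset Pool.Agent.W_7d29a1_F Pool.Agent.W_7d29a1_X MeasureTheory
open Pool.Agent.W_7d29a1_Z (ps pw pcs Kf Kc ps_pos pw_pth pcs_pos W_eq_Kf0 pw_nonneg Kf_nonneg pw_meas Kf_meas ic ic_pos ic_neg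
  ic_nonneg ic_le_one ic_meas)
open scoped ENNReal

noncomputable section

variable {μ : Measure ℝ} {s : ℝ}

/-- The Gibbs weight. -/
theorem gp_eq (η : Env) (N : ℕ) (y : ℤ) (S : Finset ℕ) :
    gp μ s η N y S = if pos S N = y then pw μ s 0 η 0 0 N S / Kf μ s 0 η 0 0 N y else 0 := by
  unfold gp
  rw [pw_pth, W_eq_Kf0]

theorem gp_nonneg36 (η : Env) (N : ℕ) (y : ℤ) (S : Finset ℕ) : 0 ≤ gp μ s η N y S := by
  rw [gp_eq]
  split_ifs
  · exact div_nonneg (pw_nonneg _ _ _ _ _ _) (Kf_nonneg _ _ _ _ _ _)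
  · exact le_rfl

theorem gp_meas36 (N : ℕ) (y : ℤ) (S : Finset ℕ) : Measurable fun η : Env => gp μ s η N y S := by
  simp_rw [gp_eq]
  split_ifs
  · exact (pw_meas 0 0 0 N S).div (Kf_meas 0 0 0 N y)
  · exact measurable_const

/-- The mass of a family of weights. -/
theorem sum_gp_mul (η : Env) (N : ℕ) (y : ℤ) (a : Finset ℕ → ℝ) :
    ∑ S ∈ (range N).powerset, a S * gp μ s η N y S =
      ∑ S ∈ pcs 0 0 0 N y, a S * (pw μ s 0 η 0 0 N S / Kf μ s 0 η 0 0 N y) := by
  classical
  rw [pcs_pos, sum_filter]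
  refine sum_congr rfl fun S _ => ?_
  rw [gp_eq]
  split_ifs
  · rfl
  · rw [mul_zero]

/-- The total mass is at most one. -/
theorem sum_gp_le_one (η : Env) (N : ℕ) (y : ℤ) : ∑ S ∈ (range N).powerset, gp μ s η N y S ≤ 1 := by
  have h := sum_gp_mul (μ := μ) (s := s) η N y fun _ => 1
  simp only [one_mul] at h
  rw [h, ← sum_div]
  exact div_self_le_one _

theorem gp_le_one36 (η : Env) (N : ℕ) (y : ℤ) {S : Finset ℕ} (hS : S ∈ (range N).powerset) : gp μ s η N y S ≤ 1 :=
  (single_le_sum (f := fun S => gp μ s η N y S) (fun _ _ => gp_nonneg36 _ _ _ _) hS).trans (sum_gp_le_one η N y)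

/-- Masses with weights in `[0, 1]` are in `[0, 1]`. -/
theorem sum_gp_mul_le_one (η : Env) (N : ℕ) (y : ℤ) {a : Finset ℕ → ℝ} (ha : ∀ S, a S ≤ 1) :
    ∑ S ∈ (range N).powerset, a S * gp μ s η N y S ≤ 1 :=
  (sum_le_sum fun S _ => mul_le_of_le_one_left (gp_nonneg36 η N y S) (ha S)).trans (sum_gp_le_one η N y)

theorem P1_mono36 {N : ℕ} {y : ℤ} {A B : Env → Finset ℕ → Prop} (h : ∀ η S, S ⊆ range N → A η S → B η S) : P1 μ s N y A ≤ P1 μ s N y B := by
  unfold P1
  refine sum_le_sum fun S hS => measure_mono fun η hη => h η S (mem_powerset.1 hS) hη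

theorem P1_or36 {N : ℕ} {y : ℤ} (A B : Env → Finset ℕ → Prop) :
    P1 μ s N y (fun η S => A η S ∨ B η S) ≤ P1 μ s N y A + P1 μ s N y B := by
  unfold P1
  rw [← sum_add_distrib]
  refine sum_le_sum fun S _ => ?_
  exact measure_union_le _ _

open scoped Classical in
/-- The annealed probability of a measurable event. -/
theorem P1_eq36 [IsProbabilityMeasure μ] {N : ℕ} {y : ℤ} {A : Env → Finset ℕ → Prop} (hA : Ms A) :
    P1 μ s N y A = ENNReal.ofReal (∫ η, ∑ S ∈ (range N).powerset, (if A η S then (1 : ℝ) else 0) * gp μ s η N y S ∂(law μ)) := by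
  have hm : ∀ S, Measurable fun η : Env => (if A η S then (1 : ℝ) else 0) * gp μ s η N y S := fun S =>
    (Measurable.ite (hA S) measurable_const measurable_const).mul (gp_meas36 N y S)
  have h0 : ∀ S (η : Env), 0 ≤ (if A η S then (1 : ℝ) else 0) * gp μ s η N y S := fun S η =>
    mul_nonneg (by split_ifs <;> norm_num) (gp_nonneg36 η N y S)
  rw [ofReal_integral_eq_lintegral_ofReal]
  · unfold P1
    rw [lintegral_congr fun η => ENNReal.ofReal_sum_of_nonneg fun S _ => h0 S η]
    rw [lintegral_finsetSum _ fun S _ => (hm S).ennreal_ofReal]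
    refine sum_congr rfl fun S _ => ?_
    rw [withDensity_apply _ (hA S), ← lintegral_indicator (hA S)]
    refine lintegral_congr fun η => ?_
    by_cases hη : A η S
    · rw [Set.indicator_of_mem (show η ∈ {η | A η S} from hη), if_pos hη, one_mul]
    · rw [Set.indicator_of_notMem (show η ∉ {η | A η S} from hη), if_neg hη, zero_mul, ENNReal.ofReal_zero]
  · refine Integrable.of_bound (Finset.measurable_sum _ fun S _ => hm S).aestronglyMeasurable 1 (Filter.Eventually.of_forall fun η => ?_)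
    rw [Real.norm_eq_abs, abs_of_nonneg (sum_nonneg fun S _ => h0 S η)]
    exact sum_gp_mul_le_one η N y fun S => by split_ifs <;> norm_num
  · exact Filter.Eventually.of_forall fun η => sum_nonneg fun S _ => h0 S η

/-- The annealed probability of a measurable event. -/
theorem P1_ic [IsProbabilityMeasure μ] {N : ℕ} {y : ℤ} {A : Env → Finset ℕ → Prop} (hA : Ms A) :
    P1 μ s N y A = ENNReal.ofReal (∫ η, ∑ S ∈ (range N).powerset, ic (A η S) * gp μ s η N y S ∂(law μ)) := P1_eq36 hA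

end

end Pool.Agent.W_7d29a1_HZ
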