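import Pool.Agent.W_7d29a1_HZ.Act
import Pool.Agent.W_7d29a1_HZ.Z79_Fk79
/-!
STORM Z, leaf DEPTH (CL): the Markov depth. `S` is in the strip, `S'` (the path of the sheared environment) left of the line at the rows
`J`, both meet at the times `a` and `b`, the shears of `[a, b)` are in the pieces `Q`, the rows `J` are outside the pieces: then in the
sheared environment the strip is nearly tied with the left side, up to the responses along `S` and along `S'`. (`ConeQ`: on the pieces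
both paths have displacements which are possible in both models, so that no kernel is zero.) (helper24, helper79)
-/

set_option autoImplicit false

namespace Pool.Agent.W_7d29a1_HZ

open MeasureTheory ProbabilityTheory Filter Topology Finset
open Pool.Agent.W_7d29a1_F Pool.Agent.W_7d29a1_X Pool.Agent.W_7d29a1_h4g Pool.Agent.W_7d29a1_H
open Pool.Agent.W_7d29a1_HS (In wd md)
open Pool.Agent.W_7d29a1_Z (Kc Reg WR_eq_Kc Kc_meas)
open scoped ENNReal

variable {μ : Measure ℝ} {s : ℝ}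

/-- On the pieces the displacements of `X` are possible in both models. -/
def ConeQ (v : ℕ → ℤ) (Q : Finset (ℕ × ℕ)) (X : ℕ → ℤ) : Prop :=
  ∀ q ∈ Q, |2 * (X q.2 - X q.1) - ((q.2 : ℤ) - q.1)| + 2 * |sv v q.1 q.2| ≤ (q.2 : ℤ) - q.1

/-- The bad event of the depth lemma. -/
def BadDepth (μ : Measure ℝ) (s : ℝ) (v : ℕ → ℤ) (a b : ℕ) (J : Finset ℕ) (s₀ : ℤ) (Q : Finset (ℕ × ℕ)) (sg Y w : ℤ) (lm : ℝ)
    (η : Env) (S S' : Finset ℕ) : Prop :=
  pos S a = px v S' a ∧ pos S b = px v S' b ∧ InL μ s sg J Y S' ∧ InR μ s sg J (Y - sg * s₀) w S ∧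
    ConeQ v Q (pos S) ∧ ConeQ v Q (px v S') ∧
    kr μ s (Rr μ s sg J Y w) (shr 0 v η) a b (pos S') <
      Real.exp (Xd μ s v Q η (pos S) - Xd μ s v Q η (px v S') - 3 * lm) * kr μ s (Lr μ s sg J Y) (shr 0 v η) a b (pos S')

open Pool.Agent.W_7d29a1_HZ.Z79 Pool.Agent.W_7d29a1_Z79 in
theorem coneQ_pos {v : ℕ → ℤ} {Q : Finset (ℕ × ℕ)} {X : ℕ → ℤ} (hX : ConeQ v Q X) (hQ : ∀ q ∈ Q, q.1 ≤ q.2) (h c : ℝ)
    (η : Env) : (∀ q ∈ Q, 0 < Kn h c (dv v) η q.1 (X q.1) q.2 (X q.2)) ∧ (∀ q ∈ Q, 0 < Kn h c 0 η q.1 (X q.1) q.2 (X q.2)) := by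
  constructor
  · intro q hq
    have h1 := hX q hq
    have h2 := abs_le.1 (le_refl |2 * (X q.2 - X q.1) - ((q.2 : ℤ) - q.1)|)
    have h3 := abs_le.1 (le_refl |sv v q.1 q.2|)
    refine Kn_pos_of (hQ q hq) ?_ ?_
    · rw [dv_sub v (hQ q hq)]
      omega
    · rw [dv_sub v (hQ q hq)]
      omega
  · intro q hq
    have h1 := hX q hq
    have h2 := abs_le.1 (le_refl |2 * (X q.2 - X q.1) - ((q.2 : ℤ) - q.1)|)
    have h3 := abs_nonneg (sv v q.1 q.2)
    refine Kn_pos_of (hQ q hq) ?_ ?_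
    · simp only [Pi.zero_apply]
      omega
    · simp only [Pi.zero_apply]
      omega

open Pool.Agent.W_7d29a1_HZ.Z79 Pool.Agent.W_7d29a1_Z79 in
/-- The pieces of a shear: outside them the sheared and the unsheared model agree. -/
theorem pcs_pcQ {v : ℕ → ℤ} {a b : ℕ} {J : Finset ℕ} {Q : Finset (ℕ × ℕ)} (hQ : Pcs v a b J Q) (η : Env) :
    PcQ (dv v) 0 η η a b Q := by
  refine ⟨hQ.sub, hQ.dis, fun k h1 h2 h3 => ⟨?_, fun _ => rfl⟩⟩
  have h4 : v k = 0 := by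
    by_contra hne
    obtain ⟨q, hq, h5, h6⟩ := hQ.cov k h1 h2 hne
    exact h3 q hq ⟨h5, h6⟩
  have h5 := dv_sub v (Nat.le_succ k)
  have h6 : sv v k (k + 1) = v k := by simp [sv]
  show dv v (k + 1) - dv v k = 0 - 0
  rw [h5, h6, h4]
  rfl

open Pool.Agent.W_7d29a1_HZ.Z79 Pool.Agent.W_7d29a1_Z79 in
/-- The kernels of the sheared environment between the positions of `S'`. -/
theorem kr_KJ {v : ℕ → ℤ} (η : Env) {a b : ℕ} (hab : a ≤ b) {J : Finset ℕ} (hJ : ∀ i ∈ J, a < i ∧ i < b) (C : ℕ → ℤ → Prop)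
    (R : Set Pt) (hR : ∀ (t : ℕ) (z : ℤ), (((t : ℤ), z) : Pt) ∈ R ↔ (t ∈ J → C t z)) (S' : Finset ℕ) :
    kr μ s R (shr 0 v η) a b (pos S') =
      KJ s (lam μ s) (dv v) η J (fun t z => C t (z + sv v 0 t)) a (px v S' a) b (px v S' b) := by
  have h1 := WR_KJ (μ := μ) (s := s) v η hab hJ C R hR (px v S' a) (px v S' b)
  have e1 : px v S' a + sv v 0 a = pos S' a := by
    unfold px
    ring
  have e2 : px v S' b + sv v 0 b = pos S' b := by
    unfold px
    ring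
  rw [e1, e2] at h1
  exact h1

theorem mem_Lr' (sg : ℤ) (J : Finset ℕ) (Y : ℤ) (t : ℕ) (z : ℤ) :
    (((t : ℤ), z) : Pt) ∈ Lr μ s sg J Y ↔ (t ∈ J → sg * (z - md μ s t) ≤ Y) := by
  show ((t : ℤ).toNat ∈ J → sg * (z - md μ s (t : ℤ).toNat) ≤ Y) ↔ _
  simp only [Int.toNat_natCast]

theorem mem_Rr' (sg : ℤ) (J : Finset ℕ) (Y w : ℤ) (t : ℕ) (z : ℤ) :
    (((t : ℤ), z) : Pt) ∈ Rr μ s sg J Y w ↔ (t ∈ J → Y < sg * (z - md μ s t) ∧ sg * (z - md μ s t) ≤ Y + w) := by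
  show ((t : ℤ).toNat ∈ J → Y < sg * (z - md μ s (t : ℤ).toNat) ∧ sg * (z - md μ s (t : ℤ).toNat) ≤ Y + w) ↔ _
  simp only [Int.toNat_natCast]

theorem measurable_shr79 (a : ℕ) (v : ℕ → ℤ) : Measurable (shr a v) := measurable_pi_iff.2 fun _ => measurable_pi_apply _

theorem measurable_kr79 (R : Set Pt) (a b : ℕ) (X : ℕ → ℤ) : Measurable fun η : Env => kr μ s R η a b X := by
  have h : (fun η : Env => kr μ s R η a b X) = fun η : Env =>
      Kc μ s 0 (Reg R 0 a (X a) (a + (b - a))) η a (X a) (a + (b - a)) (X a + (X b - X a)) := by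
    funext η
    exact WR_eq_Kc R η a (X a) (b - a) (X b - X a)
  rw [h]
  exact Kc_meas 0 _ a (X a) _ _

theorem measurable_Xd79 (v : ℕ → ℤ) (Q : Finset (ℕ × ℕ)) (X : ℕ → ℤ) : Measurable fun η : Env => Xd μ s v Q η X := by
  unfold Xd
  exact Finset.measurable_sum _ fun q _ => (measurable_fk v q.1 q.2 _ _).sub (measurable_fk 0 q.1 q.2 _ _)

open scoped Classical in
open Pool.Agent.W_7d29a1_HZ.Z79 Pool.Agent.W_7d29a1_Z79 in
/-- The quenched form. -/
theorem depth_quenched {N : ℕ} {y : ℤ} (v : ℕ → ℤ) {a b : ℕ} (hab : a ≤ b) (hbN : b ≤ N)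
    {J : Finset ℕ} (hJ : ∀ i ∈ J, a < i ∧ i < b) {s₀ : ℤ} (hs₀ : ∀ i ∈ J, sv v 0 i = s₀) {Q : Finset (ℕ × ℕ)}
    (hQ : Pcs v a b J Q) {sg : ℤ} (Y w : ℤ) (lm : ℝ) (η : Env) :
    ∑ S ∈ (range N).powerset, ∑ S' ∈ (range N).powerset,
      (if BadDepth μ s v a b J s₀ Q sg Y w lm η S S' then gp μ s η N y S * gp μ s (shr 0 v η) N y S' else 0) ≤ 3 * Real.exp (-lm) := by
  set Z1 := Zt s (lam μ s) (dv v) η N 0 (fun z => z = y - sv v 0 N) with hZ1
  set Z2 := Zt s (lam μ s) 0 η N 0 (fun z => z = y) with hZ2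
  have hZ1n : 0 ≤ Z1 := sum_nonneg fun _ _ => (wt_pos _ _ _ _).le
  have hZ2n : 0 ≤ Z2 := sum_nonneg fun _ _ => (wt_pos _ _ _ _).le
  have hQle : ∀ q ∈ Q, q.1 ≤ q.2 := fun q hq => (hQ.sub q hq).2.1
  have key := depthF s (lam μ s) (dv v) 0 η η N 0 0 (fun z => z = y - sv v 0 N) (fun z => z = y) Q J
    (fun t z => sg * (z + sv v 0 t - md μ s t) ≤ Y)
    (fun t z => Y < sg * (z + sv v 0 t - md μ s t) ∧ sg * (z + sv v 0 t - md μ s t) ≤ Y + w)
    hab hbN (pcs_pcQ hQ η) (fun i hi => ⟨(hJ i hi).1.le, (hJ i hi).2.le⟩) hQ.out (Real.exp_pos lm)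
    (fun q => BadDepth μ s v a b J s₀ Q sg Y w lm η q.2 q.1) ?_
  · -- from the weights to the Gibbs weights
    have e1 : ∑ S ∈ (range N).powerset, ∑ S' ∈ (range N).powerset,
        (if BadDepth μ s v a b J s₀ Q sg Y w lm η S S' then gp μ s η N y S * gp μ s (shr 0 v η) N y S' else 0) =
        (∑ q ∈ (Om N 0 (dv v) (fun z => z = y - sv v 0 N) ×ˢ Om N 0 0 (fun z => z = y)) with
          BadDepth μ s v a b J s₀ Q sg Y w lm η q.2 q.1,
          wt s (lam μ s) (dv v) η 0 0 N q.1 * wt s (lam μ s) 0 η 0 0 N q.2) / (Z1 * Z2) := by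
      rw [sum_comm, sum_filter, sum_div, sum_product]
      have hO1 : Om N 0 (dv v) (fun z => z = y - sv v 0 N) =
          (range N).powerset.filter fun S' => px v S' N = y - sv v 0 N := by
        ext S'
        rw [mem_Om, mem_filter, mem_powerset, ps_dv_px, range_eq_Ico]
      have hO2 : Om N 0 0 (fun z => z = y) = (range N).powerset.filter fun S => pos S N = y := by
        ext S
        rw [mem_Om, mem_filter, mem_powerset, ps_zero_pos, range_eq_Ico]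
      rw [hO1, hO2, sum_filter]
      refine sum_congr rfl fun S' _ => ?_
      rw [sum_filter]
      by_cases h1 : px v S' N = y - sv v 0 N
      · rw [if_pos h1]
        refine sum_congr rfl fun S _ => ?_
        by_cases h2 : pos S N = y
        · rw [if_pos h2, gp_wt, gp_wt0, if_pos h1, if_pos h2]
          split_ifs
          · rw [← hZ1, ← hZ2]
            rw [div_mul_div_comm, mul_comm Z2 Z1, mul_comm (wt s (lam μ s) 0 η 0 0 N S)]
          · rw [zero_div]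
        · rw [if_neg h2, gp_wt0 (μ := μ) (s := s) η N y S, if_neg h2, zero_mul]
          split_ifs <;> rfl
      · rw [if_neg h1]
        refine sum_eq_zero fun S _ => ?_
        rw [gp_wt (μ := μ) (s := s) v η N y S', if_neg h1, mul_zero]
        split_ifs <;> rfl
    rw [e1]
    rcases (mul_nonneg hZ1n hZ2n).eq_or_lt with h0 | h0
    · rw [← h0, div_zero]
      positivity
    · rw [div_le_iff₀ h0]
      have h2 : ∀ x : ℝ, Real.exp lm * x ≤ 3 * (Z1 * Z2) → x ≤ 3 * Real.exp (-lm) * (Z1 * Z2) := by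
        intro x hx
        have h3 := mul_le_mul_of_nonneg_left hx (Real.exp_pos (-lm)).le
        rw [← mul_assoc, ← Real.exp_add, neg_add_cancel, Real.exp_zero, one_mul] at h3
        linarith
      exact h2 _ key
  · intro q _ hq
    obtain ⟨b1, b2, b3, b4, b5, b6, b7⟩ := hq
    have p1 : ∀ t, W_7d29a1_Z79.ps (dv v) 0 0 q.1 t = px v q.1 t := fun t => ps_dv_px v q.1 t
    have p2 : ∀ t, W_7d29a1_Z79.ps 0 0 0 q.2 t = pos q.2 t := fun t => ps_zero_pos q.2 t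
    have c1 : ∀ t ∈ J, sg * (W_7d29a1_Z79.ps (dv v) 0 0 q.1 t + sv v 0 t - md μ s t) ≤ Y := by
      intro t ht
      have e1 : W_7d29a1_Z79.ps (dv v) 0 0 q.1 t + sv v 0 t = pos q.1 t := by
        rw [p1]
        unfold px
        ring
      rw [e1]
      exact b3 t ht
    have c2 : ∀ t ∈ J, Y < sg * (W_7d29a1_Z79.ps 0 0 0 q.2 t + sv v 0 t - md μ s t) ∧ sg * (W_7d29a1_Z79.ps 0 0 0 q.2 t + sv v 0 t - md μ s t) ≤ Y + w := by
      intro t ht
      rw [p2, hs₀ t ht]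
      obtain ⟨d1, d2⟩ := b4 t ht
      have e2 : sg * (pos q.2 t + s₀ - md μ s t) = sg * (pos q.2 t - md μ s t) + sg * s₀ := by ring
      rw [e2]
      constructor
      · linarith
      · linarith
    refine ⟨by rw [p1, p2, b1], by rw [p1, p2, b2], c1, c2, ?_⟩
    have hX1 := coneQ_pos b5 hQle s (lam μ s) η
    have hX2 := coneQ_pos b6 hQle s (lam μ s) η
    have hfun1 : W_7d29a1_Z79.ps (dv v) 0 0 q.1 = px v q.1 := funext p1
    have hfun2 : W_7d29a1_Z79.ps 0 0 0 q.2 = pos q.2 := funext p2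
    rw [hfun1, hfun2, ← (Xd_prod v hQle η (px v q.1) hX2.1 hX2.2).2, ← (Xd_prod v hQle η (pos q.2) hX1.1 hX1.2).1]
    rw [← kr_KJ (μ := μ) (s := s) η hab hJ (fun t z => sg * (z - md μ s t) ≤ Y) (Lr μ s sg J Y) (mem_Lr' sg J Y) q.1,
      ← kr_KJ (μ := μ) (s := s) η hab hJ (fun t z => Y < sg * (z - md μ s t) ∧ sg * (z - md μ s t) ≤ Y + w) (Rr μ s sg J Y w)
        (mem_Rr' sg J Y w) q.1]
    have h3 : Real.exp lm ^ 3 = Real.exp (3 * lm) := by
      rw [← Real.exp_nat_mul]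
      norm_num
    have h4 : Real.exp (Xd μ s v Q η (pos q.2) - Xd μ s v Q η (px v q.1) - 3 * lm) =
        Real.exp (- Xd μ s v Q η (px v q.1)) * Real.exp (Xd μ s v Q η (pos q.2)) * Real.exp (-(3 * lm)) := by
      rw [← Real.exp_add, ← Real.exp_add]
      congr 1
      ring
    rw [h4] at b7
    rw [h3]
    have h5 := mul_lt_mul_of_pos_left b7 (Real.exp_pos (3 * lm))
    refine h5.trans_le (le_of_eq ?_)
    have h6 : Real.exp (3 * lm) * Real.exp (-(3 * lm)) = 1 := by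
      rw [← Real.exp_add, add_neg_cancel, Real.exp_zero]
    calc Real.exp (3 * lm) * (Real.exp (- Xd μ s v Q η (px v q.1)) * Real.exp (Xd μ s v Q η (pos q.2)) * Real.exp (-(3 * lm)) *
          kr μ s (Lr μ s sg J Y) (shr 0 v η) a b (pos q.1))
        = (Real.exp (3 * lm) * Real.exp (-(3 * lm))) * (Real.exp (- Xd μ s v Q η (px v q.1)) *
          Real.exp (Xd μ s v Q η (pos q.2)) * kr μ s (Lr μ s sg J Y) (shr 0 v η) a b (pos q.1)) := by ring
      _ = _ := by rw [h6, one_mul]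

theorem depth [IsProbabilityMeasure μ] {N : ℕ} {y : ℤ} (h0 : 0 ≤ y) (h1 : y ≤ N) (v : ℕ → ℤ) {a b : ℕ} (hab : a ≤ b) (hbN : b ≤ N)
    {J : Finset ℕ} (hJ : ∀ i ∈ J, a < i ∧ i < b) {s₀ : ℤ} (hs₀ : ∀ i ∈ J, sv v 0 i = s₀) {Q : Finset (ℕ × ℕ)}
    (hQ : Pcs v a b J Q) {sg : ℤ} (hsg : sg = 1 ∨ sg = -1) (Y w : ℤ) {lm : ℝ} (hlm : 0 ≤ lm) :
    P2 μ s N y v (BadDepth μ s v a b J s₀ Q sg Y w lm) ≤ ENNReal.ofReal (3 * Real.exp (-lm)) := by
  have _ := h0
  have _ := h1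
  have _ := hsg
  have _ := hlm
  refine Pool.Agent.W_7d29a1_HZ.Z79.P2_quenched79 (fun S S' => ?_) fun η => depth_quenched v hab hbN hJ hs₀ hQ Y w lm η
  by_cases hc : pos S a = px v S' a ∧ pos S b = px v S' b ∧ InL μ s sg J Y S' ∧ InR μ s sg J (Y - sg * s₀) w S ∧
      ConeQ v Q (pos S) ∧ ConeQ v Q (px v S')
  · have e1 : {η | BadDepth μ s v a b J s₀ Q sg Y w lm η S S'} = {η | kr μ s (Rr μ s sg J Y w) (shr 0 v η) a b (pos S') <
        Real.exp (Xd μ s v Q η (pos S) - Xd μ s v Q η (px v S') - 3 * lm) * kr μ s (Lr μ s sg J Y) (shr 0 v η) a b (pos S')} := by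
      ext η
      constructor
      · rintro ⟨-, -, -, -, -, -, h⟩
        exact h
      · intro h
        exact ⟨hc.1, hc.2.1, hc.2.2.1, hc.2.2.2.1, hc.2.2.2.2.1, hc.2.2.2.2.2, h⟩
    rw [e1]
    have hs := measurable_shr79 0 v
    refine measurableSet_lt ((measurable_kr79 _ a b _).comp hs) (Measurable.mul ?_ ((measurable_kr79 _ a b _).comp hs))
    exact Real.measurable_exp.comp (((measurable_Xd79 v Q _).sub (measurable_Xd79 v Q _)).sub measurable_const)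
  · have e1 : {η | BadDepth μ s v a b J s₀ Q sg Y w lm η S S'} = ∅ := by
      ext η
      constructor
      · rintro ⟨h1, h2, h3, h4, h5, h6, _⟩
        exact absurd ⟨h1, h2, h3, h4, h5, h6⟩ hc
      · intro h
        exact absurd h (Set.notMem_empty _)
    rw [e1]
    exact MeasurableSet.empty

end Pool.Agent.W_7d29a1_HZ
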