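import Pool.Agent.W_7d29a1_HZ.Defs
import Pool.Agent.W_7d29a1_Z.Defs

/-!
STORM Z AT ONE TILT `s` (MP_7d29a1_pr): what does not depend on the tilt. The point to point polymer measures, the annealed
probabilities, the quotients of kernels with the same end points and the second differences are those of `W_7d29a1_Z`; the logarithms of
the kernels differ by a deterministic affine function of the displacement. (helper61, after a remark of helper22 and helper30)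
-/

set_option autoImplicit false

namespace Pool.Agent.W_7d29a1_HZ

open MeasureTheory ProbabilityTheory Filter Topology Finset
open Pool.Agent.W_7d29a1_F Pool.Agent.W_7d29a1_X
open scoped ENNReal

variable {μ : Measure ℝ} {s : ℝ}

/-! ### The definitions without a tilt are the same -/

theorem sv_eqZ (v : ℕ → ℤ) (a i : ℕ) : sv v a i = Pool.Agent.W_7d29a1_Z.sv v a i := rfl

theorem shr_eqZ (a : ℕ) (v : ℕ → ℤ) (η : Env) : shr a v η = Pool.Agent.W_7d29a1_Z.shr a v η := rfl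

theorem px_eqZ (v : ℕ → ℤ) (S : Finset ℕ) (i : ℕ) : px v S i = Pool.Agent.W_7d29a1_Z.px v S i := rfl

theorem za_eqZ (t τ b : ℕ) : za t τ b = Pool.Agent.W_7d29a1_Z.za t τ b := rfl

theorem zb_eqZ (t τ b : ℕ) : zb t τ b = Pool.Agent.W_7d29a1_Z.zb t τ b := rfl

theorem pat_eqZ (t τ : ℕ) (I : Finset ℕ) (V : ℕ → ℤ) : pat t τ I V = Pool.Agent.W_7d29a1_Z.pat t τ I V := rfl

theorem Core_eqZ (t : ℕ) : Core t = Pool.Agent.W_7d29a1_Z.Core t := rfl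

theorem val_eqZ (i : Fin 4) : val i = Pool.Agent.W_7d29a1_Z.val i := rfl

theorem amp_eqZ (r : ℤ) (b₀ m : ℕ) (σ : Fin m → Fin 4) (b : ℕ) : amp r b₀ m σ b = Pool.Agent.W_7d29a1_Z.amp r b₀ m σ b := rfl

theorem OffRows_eqZ (J : Finset ℕ) (A : Env → Finset ℕ → Prop) : OffRows J A ↔ Pool.Agent.W_7d29a1_Z.OffRows J A := Iff.rfl

theorem OnRows_eqZ (J : Finset ℕ) (A : Env → Finset ℕ → Prop) : OnRows J A ↔ Pool.Agent.W_7d29a1_Z.OnRows J A := Iff.rfl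

theorem Ms_eqZ (A : Env → Finset ℕ → Prop) : Ms A ↔ Pool.Agent.W_7d29a1_Z.Ms A := Iff.rfl

theorem Pcs_eqZ (v : ℕ → ℤ) (a b : ℕ) (J : Finset ℕ) (Q : Finset (ℕ × ℕ)) :
    Pcs v a b J Q ↔ Pool.Agent.W_7d29a1_Z.Pcs v a b J Q :=
  ⟨fun h => ⟨h.sub, h.dis, h.cov, h.out⟩, fun h => ⟨h.sub, h.dis, h.cov, h.out⟩⟩

/-! ### The polymer measures -/

theorem gp_eqZ (η : Env) (N : ℕ) (y : ℤ) (S : Finset ℕ) : gp μ s η N y S = Pool.Agent.W_7d29a1_Z.gp μ η N y S := by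
  unfold gp Pool.Agent.W_7d29a1_Z.gp
  by_cases h : pos S N = y
  · rw [if_pos h, if_pos h]
    unfold pth W WR
    rw [h, mul_div_mul_left _ _ (Real.exp_pos _).ne', mul_div_mul_left _ _ (Real.exp_pos _).ne']
  · rw [if_neg h, if_neg h]

theorem P1_eqZ (N : ℕ) (y : ℤ) (A : Env → Finset ℕ → Prop) : P1 μ s N y A = Pool.Agent.W_7d29a1_Z.P1 μ N y A := by
  unfold P1 Pool.Agent.W_7d29a1_Z.P1
  simp only [gp_eqZ]

theorem P2_eqZ (N : ℕ) (y : ℤ) (v : ℕ → ℤ) (A : Env → Finset ℕ → Finset ℕ → Prop) :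
    P2 μ s N y v A = Pool.Agent.W_7d29a1_Z.P2 μ N y v A := by
  unfold P2 Pool.Agent.W_7d29a1_Z.P2
  simp only [gp_eqZ]
  rfl

theorem P3_eqZ (N : ℕ) (y : ℤ) (t τ : ℕ) (I : Finset ℕ) (r : ℤ) (b₀ m : ℕ)
    (A : (Fin m → Fin 4) → Env → Finset ℕ → Finset ℕ → Prop) :
    P3 μ s N y t τ I r b₀ m A = Pool.Agent.W_7d29a1_Z.P3 μ N y t τ I r b₀ m A := by
  unfold P3 Pool.Agent.W_7d29a1_Z.P3
  simp only [P2_eqZ]
  rfl

/-! ### The kernels -/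

theorem WR_eqZ (R : Set Pt) (η : Env) (a : Pt) (n : ℕ) (y : ℤ) :
    WR μ s R η a n y = Real.exp (s * y - n * (lam μ s - lam μ 0)) * WR μ 0 R η a n y := by
  unfold WR
  rw [← mul_assoc, ← Real.exp_add]
  congr 2
  ring

theorem kr_eqZ (R : Set Pt) (η : Env) (a b : ℕ) (X : ℕ → ℤ) :
    kr μ s R η a b X = Real.exp (s * ((X b - X a : ℤ) : ℝ) - ((b - a : ℕ) : ℝ) * (lam μ s - lam μ 0)) *
      Pool.Agent.W_7d29a1_Z.kr μ R η a b X := by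
  unfold kr Pool.Agent.W_7d29a1_Z.kr
  exact WR_eqZ _ _ _ _ _

/-- The quotients of kernels with the same end points do not depend on the tilt. -/
theorem kr_quot (R R' : Set Pt) (η : Env) (a b : ℕ) (X : ℕ → ℤ) :
    kr μ s R η a b X / kr μ s R' η a b X = Pool.Agent.W_7d29a1_Z.kr μ R η a b X / Pool.Agent.W_7d29a1_Z.kr μ R' η a b X := by
  rw [kr_eqZ, kr_eqZ, mul_div_mul_left _ _ (Real.exp_pos _).ne']

theorem kr_le_iff (k : ℝ) (R R' : Set Pt) (η : Env) (a b : ℕ) (X : ℕ → ℤ) :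
    k * kr μ s R η a b X ≤ kr μ s R' η a b X ↔
      k * Pool.Agent.W_7d29a1_Z.kr μ R η a b X ≤ Pool.Agent.W_7d29a1_Z.kr μ R' η a b X := by
  rw [kr_eqZ, kr_eqZ]
  obtain ⟨E, hE⟩ : ∃ E : ℝ, E = Real.exp (s * ((X b - X a : ℤ) : ℝ) - ((b - a : ℕ) : ℝ) * (lam μ s - lam μ 0)) := ⟨_, rfl⟩
  have hE0 : 0 < E := hE ▸ Real.exp_pos _
  rw [← hE, show k * (E * Pool.Agent.W_7d29a1_Z.kr μ R η a b X) = E * (k * Pool.Agent.W_7d29a1_Z.kr μ R η a b X) by ring]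
  exact mul_le_mul_iff_right₀ hE0

/-- The logarithm of a positive kernel. -/
theorem fk_eqZ (v : ℕ → ℤ) (η : Env) (a b : ℕ) (x y : ℤ) (h0 : 0 ≤ y - x + sv v a b) (h1 : y - x + sv v a b ≤ ((b - a : ℕ) : ℤ)) :
    fk μ s v η a b x y = Pool.Agent.W_7d29a1_Z.fk μ v η a b x y + s * ((y - x + sv v a b : ℤ) : ℝ) -
      ((b - a : ℕ) : ℝ) * (lam μ s - lam μ 0) := by
  unfold fk Pool.Agent.W_7d29a1_Z.fk
  rw [← shr_eqZ, ← sv_eqZ]
  have hW : 0 < W μ 0 (shr a v η) ((a : ℤ), x) (b - a) (y - x + sv v a b) := W_pos _ _ h0 h1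
  have e : W μ s (shr a v η) ((a : ℤ), x) (b - a) (y - x + sv v a b) =
      Real.exp (s * ((y - x + sv v a b : ℤ) : ℝ) - ((b - a : ℕ) : ℝ) * (lam μ s - lam μ 0)) *
        W μ 0 (shr a v η) ((a : ℤ), x) (b - a) (y - x + sv v a b) := WR_eqZ _ _ _ _ _
  rw [e, Real.log_mul (Real.exp_pos _).ne' hW.ne', Real.log_exp]
  ring

/-- The response of a positive kernel. -/
theorem fk_sub_eqZ (v v' : ℕ → ℤ) (η η' : Env) (a b : ℕ) (x y : ℤ) (h0 : 0 ≤ y - x + sv v a b)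
    (h1 : y - x + sv v a b ≤ ((b - a : ℕ) : ℤ)) (h0' : 0 ≤ y - x + sv v' a b) (h1' : y - x + sv v' a b ≤ ((b - a : ℕ) : ℤ)) :
    fk μ s v η a b x y - fk μ s v' η' a b x y =
      Pool.Agent.W_7d29a1_Z.fk μ v η a b x y - Pool.Agent.W_7d29a1_Z.fk μ v' η' a b x y + s * ((sv v a b - sv v' a b : ℤ) : ℝ) := by
  rw [fk_eqZ v η a b x y h0 h1, fk_eqZ v' η' a b x y h0' h1']
  push_cast
  ring

/-- The second difference of positive kernels does not depend on the tilt. -/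
theorem Db_eqZ (t τ : ℕ) (I : Finset ℕ) (r : ℤ) (η : Env) (b : ℕ) (a : ℤ) (X : ℕ → ℤ)
    (hsv : ∀ k : ℤ, sv (pat t τ I fun _ => k) (za t τ b) (zb t τ b) = k * I.card)
    (h : ∀ k : ℤ, (k = a ∨ k = a + r ∨ k = a - r) → 0 ≤ X (zb t τ b) - X (za t τ b) + k * I.card ∧
      X (zb t τ b) - X (za t τ b) + k * I.card ≤ t) :
    Db μ s t τ I r η b a X = Pool.Agent.W_7d29a1_Z.Db μ t τ I r η b a X := by
  have hd : zb t τ b - za t τ b = t := by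
    unfold za zb
    omega
  have key : ∀ k : ℤ, (k = a ∨ k = a + r ∨ k = a - r) → fb μ s t τ I η b k X = Pool.Agent.W_7d29a1_Z.fb μ t τ I η b k X +
      s * ((X (zb t τ b) - X (za t τ b) : ℤ) : ℝ) + s * ((k : ℝ) * I.card) - (t : ℝ) * (lam μ s - lam μ 0) := by
    intro k hk
    obtain ⟨g0, g1⟩ := h k hk
    unfold fb
    rw [fk_eqZ (pat t τ I fun _ => k) η (za t τ b) (zb t τ b) (X (za t τ b)) (X (zb t τ b)) (by rw [hsv]; exact g0)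
      (by rw [hsv, hd]; exact g1), hsv, hd]
    show Pool.Agent.W_7d29a1_Z.fb μ t τ I η b k X + _ - _ = _
    push_cast
    ring
  unfold Db Pool.Agent.W_7d29a1_Z.Db
  rw [key _ (Or.inr (Or.inl rfl)), key _ (Or.inr (Or.inr rfl)), key _ (Or.inl rfl)]
  push_cast
  ring

/-- The sum of the responses. -/
theorem Xd_eqZ (v : ℕ → ℤ) (Q : Finset (ℕ × ℕ)) (η : Env) (X : ℕ → ℤ)
    (h : ∀ q ∈ Q, 0 ≤ X q.2 - X q.1 ∧ X q.2 - X q.1 ≤ ((q.2 - q.1 : ℕ) : ℤ) ∧ 0 ≤ X q.2 - X q.1 + sv v q.1 q.2 ∧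
      X q.2 - X q.1 + sv v q.1 q.2 ≤ ((q.2 - q.1 : ℕ) : ℤ)) :
    Xd μ s v Q η X = Pool.Agent.W_7d29a1_Z.Xd μ v Q η X + s * ((∑ q ∈ Q, sv v q.1 q.2 : ℤ) : ℝ) := by
  unfold Xd Pool.Agent.W_7d29a1_Z.Xd
  rw [Int.cast_sum, Finset.mul_sum, ← Finset.sum_add_distrib]
  refine Finset.sum_congr rfl fun q hq => ?_
  obtain ⟨g1, g2, g3, g4⟩ := h q hq
  have h0 : sv (0 : ℕ → ℤ) q.1 q.2 = 0 := by simp [sv]
  rw [fk_sub_eqZ v 0 η η q.1 q.2 (X q.1) (X q.2) g3 g4 (by rw [h0, add_zero]; exact g1) (by rw [h0, add_zero]; exact g2), h0, sub_zero]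

end Pool.Agent.W_7d29a1_HZ
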