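import Pool.Agent.W_7d29a1_HZ.Defs
import Pool.Agent.W_7d29a1_Z.CtrOp77
/-!
STORM Z, leaf HOEF: Hoeffding in the balanced random amplitudes, with the exact means (helper77).
-/

set_option autoImplicit false

namespace Pool.Agent.W_7d29a1_HZ

open Finset _root_.W_7d29a1_Z.CtrOp77

theorem val_eq (i : Fin 4) : val i = q4 i := by
  fin_cases i <;> rfl

theorem amp_eq (s : ℤ) (b₀ m : ℕ) (σ : Fin m → Fin 4) {b : ℕ} (h : b / 2 < m) :
    amp s b₀ m σ (b₀ + b) = sg b * s * q4 (sy σ b) := by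
  have h1 : b₀ + b - b₀ = b := by omega
  have h2 : b₀ ≤ b₀ + b ∧ (b₀ + b - b₀) / 2 < m := ⟨by omega, by rw [h1]; exact h⟩
  unfold amp sy sg
  rw [dif_pos h2, dif_pos h]
  have h3 : (⟨(b₀ + b - b₀) / 2, h2.2⟩ : Fin m) = ⟨b / 2, h⟩ := Fin.ext (by simp only [h1])
  rw [h3, h1, val_eq]
  split_ifs
  · ring
  · ring

/-- Hoeffding in the form of this file. -/
theorem hoef_gen (m : ℕ) (b₀ : ℕ) {x y : ℕ} (hxy : b₀ ≤ x ∧ x ≤ y ∧ y ≤ b₀ + 2 * m)
    (ψ : ℕ → Fin 4 → ℝ) (A : ℝ) (hψ : ∀ b, x ≤ b → b < y → ∀ w, |ψ (b - b₀) w| ≤ 2 * A)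
    (G : (Fin m → Fin 4) → ℕ → ℝ)
    (hG : ∀ σ b, x ≤ b → b < y → G σ b = ψ (b - b₀) (sy σ (b - b₀)) - avg (ψ (b - b₀)))
    {u : ℝ} (hu : 0 ≤ u) :
    ((4 : ℝ) ^ m)⁻¹ * ∑ σ : Fin m → Fin 4, (open Classical in if u * Real.sqrt ((y - x : ℕ) : ℝ) * A <
        |∑ b ∈ Ico x y, G σ b| then (1 : ℝ) else 0) ≤ 2 * Real.exp (-(u ^ 2 / 64)) := by
  classical
  obtain ⟨h1, h2, h3⟩ := hxy
  set g : Finset ℕ := Ico (x - b₀) (y - b₀) with hg
  have hcard : g.card = y - x := by rw [hg, Nat.card_Ico]; omega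
  have hsum : ∀ σ, ∑ b ∈ Ico x y, G σ b = ∑ b ∈ g, (ψ b (sy σ b) - avg (ψ b)) := by
    intro σ
    have e : Ico x y = g.image (fun b => b + b₀) := by
      rw [hg, image_add_right_Ico]
      congr 1 <;> omega
    rw [e, sum_image (fun a _ b _ h => by simpa using h)]
    refine sum_congr rfl fun b hb => ?_
    rw [hg, mem_Ico] at hb
    rw [hG σ (b + b₀) (by omega) (by omega)]
    have : b + b₀ - b₀ = b := by omega
    rw [this]
  have hcd : (Fintype.card (Fin m → Fin 4) : ℝ) = (4 : ℝ) ^ m := by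
    rw [Fintype.card_fun, Fintype.card_fin, Fintype.card_fin]
    push_cast
    rfl
  have hL : ((4 : ℝ) ^ m)⁻¹ * ∑ σ : Fin m → Fin 4, (open Classical in if u * Real.sqrt ((y - x : ℕ) : ℝ) * A <
        |∑ b ∈ Ico x y, G σ b| then (1 : ℝ) else 0)
      = avg (fun σ : Fin m → Fin 4 => ind (u * Real.sqrt ((y - x : ℕ) : ℝ) * A <
        |∑ b ∈ g, (ψ b (sy σ b) - avg (ψ b))|)) := by
    have hi : ∀ (p : Prop) (d : Decidable p), @ite ℝ p d 1 0 = ind p := by
      intro p d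
      unfold ind
      by_cases h : p <;> simp [h]
    change _ = (∑ σ : Fin m → Fin 4, ind (u * Real.sqrt ((y - x : ℕ) : ℝ) * A <
        |∑ b ∈ g, (ψ b (sy σ b) - avg (ψ b))|)) / (Fintype.card (Fin m → Fin 4) : ℝ)
    rw [hcd, div_eq_inv_mul]
    congr 1
    refine sum_congr rfl fun σ _ => ?_
    rw [hsum σ]
    exact hi _ _
  rw [hL]
  have hb2 : ∀ b ∈ g, ∀ w, |ψ b w| ≤ 2 * A := by
    intro b hb w
    rw [hg, mem_Ico] at hb
    have := hψ (b + b₀) (by omega) (by omega) w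
    have e : b + b₀ - b₀ = b := by omega
    rwa [e] at this
  have havg : ∀ b ∈ g, |avg (ψ b)| ≤ 2 * A := by
    intro b hb
    have h5 := hb2 b hb
    rw [abs_le]
    constructor
    · calc -(2 * A) = avg (fun _ : Fin 4 => -(2 * A)) := (avg_const _).symm
        _ ≤ avg (ψ b) := avg_mono fun w => (abs_le.1 (h5 w)).1
    · calc avg (ψ b) ≤ avg (fun _ : Fin 4 => 2 * A) := avg_mono fun w => (abs_le.1 (h5 w)).2
        _ = 2 * A := avg_const _
  rcases Nat.eq_zero_or_pos (y - x) with h0 | h0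
  · -- empty sum
    have hge : g = ∅ := by
      rw [← card_eq_zero, hcard, h0]
    have : ∀ σ : Fin m → Fin 4, ind (u * Real.sqrt ((y - x : ℕ) : ℝ) * A <
        |∑ b ∈ g, (ψ b (sy σ b) - avg (ψ b))|) = 0 := by
      intro σ
      rw [hge, h0]
      unfold ind
      simp
    simp only [this, avg_const]
    positivity
  · have hgne : g.Nonempty := by
      rw [← card_pos, hcard]; exact h0
    obtain ⟨b1, hb1⟩ := hgne
    have hA0 : 0 ≤ A := by
      have := (abs_nonneg _).trans (hb2 b1 hb1 0)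
      linarith
    rcases hA0.eq_or_lt with hA | hA
    · have : ∀ σ : Fin m → Fin 4, ind (u * Real.sqrt ((y - x : ℕ) : ℝ) * A <
          |∑ b ∈ g, (ψ b (sy σ b) - avg (ψ b))|) = 0 := by
        intro σ
        have e : ∑ b ∈ g, (ψ b (sy σ b) - avg (ψ b)) = 0 := by
          refine sum_eq_zero fun b hb => ?_
          have e1 := hb2 b hb (sy σ b)
          have e2 := havg b hb
          rw [← hA, mul_zero] at e1 e2
          rw [abs_nonpos_iff.1 e1, abs_nonpos_iff.1 e2, sub_zero]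
        rw [e, ← hA]
        unfold ind
        simp
      simp only [this, avg_const]
      positivity
    · have key := hoeff_pairs m g (fun b hb => by
          rw [hg, mem_Ico] at hb
          omega) ψ (4 * A) (fun b hb w => by
          have e1 := abs_le.1 (hb2 b hb w)
          have e2 := abs_le.1 (havg b hb)
          rw [abs_le]
          constructor <;> linarith [e1.1, e1.2, e2.1, e2.2])
        (u := u * Real.sqrt ((y - x : ℕ) : ℝ) * A) (by positivity)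
      refine key.trans (le_of_eq ?_)
      congr 3
      rw [hcard, mul_pow, mul_pow, Real.sq_sqrt (Nat.cast_nonneg _)]
      have hp : ((y - x : ℕ) : ℝ) ≠ 0 := by
        have : (0 : ℝ) < ((y - x : ℕ) : ℝ) := by exact_mod_cast h0
        exact this.ne'
      field_simp
      ring

theorem hoef_D {f : ℕ → ℤ → ℝ} {s : ℤ} {A : ℝ} (b₀ m : ℕ) {x y : ℕ}
    (hA : ∀ b, x ≤ b → b < y → ∀ i : ℤ, |i| ≤ 1 → |f b ((i + 1) * s) + f b ((i - 1) * s) - 2 * f b (i * s)| ≤ 2 * A)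
    (hxy : b₀ ≤ x ∧ x ≤ y ∧ y ≤ b₀ + 2 * m) {u : ℝ} (hu : 0 ≤ u) :
    ((4 : ℝ) ^ m)⁻¹ * ∑ σ : Fin m → Fin 4, (open Classical in if u * Real.sqrt ((y - x : ℕ) : ℝ) * A <
        |∑ b ∈ Ico x y, (f b (amp s b₀ m σ b + s) + f b (amp s b₀ m σ b - s) - 2 * f b (amp s b₀ m σ b) -
          (f b (2 * s) + f b (-(2 * s)) - 2 * f b 0) / 4)| then (1 : ℝ) else 0) ≤ 2 * Real.exp (-(u ^ 2 / 64)) := by
  refine hoef_gen m b₀ hxy (fun b w => D s (f (b₀ + b)) (0 + sg b * s * q4 w)) A ?_ _ ?_ hu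
  · intro b hb1 hb2 w
    have e0 : b₀ + (b - b₀) = b := by omega
    simp only [e0, zero_add]
    have h1 := hA b hb1 hb2 (sg (b - b₀) * q4 w) (by
      rw [abs_mul]
      have e1 := abs_q4 w
      rcases sg_cases (b - b₀) with h | h <;> rw [h] <;> simpa using e1)
    have e2 : (sg (b - b₀) * q4 w + 1) * s = sg (b - b₀) * s * q4 w + s := by ring
    have e3 : (sg (b - b₀) * q4 w - 1) * s = sg (b - b₀) * s * q4 w - s := by ring
    have e4 : sg (b - b₀) * q4 w * s = sg (b - b₀) * s * q4 w := by ring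
    rw [e2, e3, e4] at h1
    exact h1
  · intro σ b hb1 hb2
    have e0 : b₀ + (b - b₀) = b := by omega
    have h1 : amp s b₀ m σ b = sg (b - b₀) * s * q4 (sy σ (b - b₀)) := by
      have := amp_eq s b₀ m σ (b := b - b₀) (by omega)
      rwa [e0] at this
    rw [h1]
    have h2 := avg_D (sg_cases (b - b₀)) s (f (b₀ + (b - b₀))) 0
    rw [h2]
    simp only [e0, D, zero_add, zero_sub]

theorem hoef_f {f : ℕ → ℤ → ℝ} {s : ℤ} {A : ℝ} (b₀ m : ℕ) {x y : ℕ}
    (hA : ∀ b, x ≤ b → b < y → |f b s - f b 0| ≤ A ∧ |f b (-s) - f b 0| ≤ A)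
    (hxy : b₀ ≤ x ∧ x ≤ y ∧ y ≤ b₀ + 2 * m) {u : ℝ} (hu : 0 ≤ u) :
    ((4 : ℝ) ^ m)⁻¹ * ∑ σ : Fin m → Fin 4, (open Classical in if u * Real.sqrt ((y - x : ℕ) : ℝ) * A <
        |∑ b ∈ Ico x y, (f b (amp s b₀ m σ b) - f b 0 - (f b s + f b (-s) - 2 * f b 0) / 4)| then (1 : ℝ) else 0) ≤
      2 * Real.exp (-(u ^ 2 / 64)) := by
  refine hoef_gen m b₀ hxy (fun b w => f (b₀ + b) (0 + sg b * s * q4 w) - f (b₀ + b) 0) A ?_ _ ?_ hu
  · intro b hb1 hb2 w
    have e0 : b₀ + (b - b₀) = b := by omega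
    simp only [e0, zero_add]
    obtain ⟨h1, h2⟩ := hA b hb1 hb2
    have hA0 : 0 ≤ A := (abs_nonneg _).trans h1
    have h3 : |f b 0 - f b 0| ≤ A := by rw [sub_self, abs_zero]; exact hA0
    have h4 : q4 w = -1 ∨ q4 w = 0 ∨ q4 w = 1 := by
      unfold q4; split_ifs <;> simp
    rcases sg_cases (b - b₀) with h | h <;> rcases h4 with h5 | h5 | h5 <;> rw [h, h5] <;>
      simp only [one_mul, neg_mul, mul_neg, mul_one, mul_zero, neg_neg] <;> linarith
  · intro σ b hb1 hb2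
    have e0 : b₀ + (b - b₀) = b := by omega
    have h1 : amp s b₀ m σ b = sg (b - b₀) * s * q4 (sy σ (b - b₀)) := by
      have := amp_eq s b₀ m σ (b := b - b₀) (by omega)
      rwa [e0] at this
    rw [h1]
    have h2 := avg_f (sg_cases (b - b₀)) s (f (b₀ + (b - b₀))) 0
    rw [avg_sub, avg_const, h2]
    simp only [e0, D, zero_add, zero_sub]

end Pool.Agent.W_7d29a1_HZ
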