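import Pool.Agent.W_7d29a1_HZ.Act
import Pool.Agent.W_7d29a1_HZ.HoefD
import Pool.Agent.W_7d29a1_HZ.Z2_PatAmp2
/-!
STORM Z, leaf HOEF: Hoeffding in the balanced random amplitudes, with the exact means (`hoef_D`, `hoef_f` are in `HoefD.lean`).
-/

set_option autoImplicit false

namespace Pool.Agent.W_7d29a1_HZ

open MeasureTheory ProbabilityTheory Filter Topology Finset
open Pool.Agent.W_7d29a1_F Pool.Agent.W_7d29a1_X Pool.Agent.W_7d29a1_h4g Pool.Agent.W_7d29a1_H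
open scoped ENNReal

variable {μ : Measure ℝ}

theorem pat_amp_sum_zero {t τ N : ℕ} {I : Finset ℕ} (hI : I ⊆ Core t) (s : ℤ) (b₀ m : ℕ) (σ : Fin m → Fin 4)
    (hN : za t τ (b₀ + 2 * m) ≤ N) : sv (pat t τ I (amp s b₀ m σ)) 0 N = 0 :=
  Pool.Agent.W_7d29a1_HZ.Z2.sum_zero hI s b₀ m σ hN

/-- At the gaps behind complete pairs the total shift is zero; everywhere it is at most `|s| * I.card`. -/
theorem pat_amp_sv {t τ : ℕ} {I : Finset ℕ} (ht : 4 ≤ t) (hI : I ⊆ Core t) (s : ℤ) (b₀ m : ℕ) (σ : Fin m → Fin 4) (i : ℕ) :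
    |sv (pat t τ I (amp s b₀ m σ)) 0 i| ≤ |s| * I.card ∧
      (∀ j, zb t τ (b₀ + 2 * j + 1) - t / 4 ≤ i → i ≤ za t τ (b₀ + 2 * j + 2) + t / 4 → sv (pat t τ I (amp s b₀ m σ)) 0 i = 0) ∧
      (i ≤ za t τ b₀ + t / 4 → sv (pat t τ I (amp s b₀ m σ)) 0 i = 0) ∧
      (za t τ (b₀ + 2 * m) ≤ i → sv (pat t τ I (amp s b₀ m σ)) 0 i = 0) :=
  Pool.Agent.W_7d29a1_HZ.Z2.amp_sv ht hI s b₀ m σ i

end Pool.Agent.W_7d29a1_HZ
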