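import Pool.Agent.W_7d29a1_HZ.Tie
import Pool.Agent.W_7d29a1_HZ.PB
/-!
STORM Z, leaf TIEQ: the rate of the near ties as an abstract sequence `q`; the lattice version `q n = √(wd' n / n)`.
-/

set_option autoImplicit false

namespace Pool.Agent.W_7d29a1_HZ

open MeasureTheory ProbabilityTheory Filter Topology Finset
open Pool.Agent.W_7d29a1_F Pool.Agent.W_7d29a1_X Pool.Agent.W_7d29a1_h4g Pool.Agent.W_7d29a1_H
open Pool.Agent.W_7d29a1_HS (In wd)
open scoped ENNReal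

variable {μ : Measure ℝ} {s : ℝ}

/-- HYPOTHESIS TIE `q`: a near tie of depth `M` at a window of the length `n` has probability at most `L ^ ε M q n`, whatever is known
about the environment outside the rows `J` of the window and about the path. -/
def TIE (μ : Measure ℝ) (s : ℝ) (q : ℕ → ℝ) : Prop :=
  ∀ ε : ℝ, 0 < ε → ∃ δ c : ℝ, 0 < δ ∧ 0 < c ∧ ∃ L₀ : ℕ, ∀ L : ℕ, L₀ ≤ L → ∀ N : ℕ, L ≤ 16 * N → N ≤ L → ∀ y : ℤ, 0 ≤ y → y ≤ N →
    |(y : ℝ) - sl μ s * N| ≤ ((L : ℝ) ^ δ * wd' μ s N) →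
    ∀ (H n j₀ : ℕ) (J : Finset ℕ), (∀ i ∈ J, 1 ≤ i ∧ i < N ∧ j₀ ≤ i ∧ i ≤ j₀ + n) → j₀ ≤ N → n ≤ L → (L : ℝ) ^ ε ≤ n →
    (n : ℝ) ≤ (L : ℝ) ^ δ * J.card → ∀ g w : ℕ, 1 ≤ g → 1 ≤ w → w ≤ L →
    wd' μ s n ≤ (L : ℝ) ^ δ * g → (w : ℝ) ≤ (L : ℝ) ^ δ * wd' μ s n →
    ∀ M : ℝ, 1 ≤ M → ∀ A : Env → Finset ℕ → Prop, Ms A → OffRows J A →
    P1 μ s N y (fun η S => A η S ∧ NTW μ s N H j₀ J g w M η S) ≤
      ENNReal.ofReal ((L : ℝ) ^ ε * M * q n) * P1 μ s N y A + ENNReal.ofReal (Real.exp (-(L : ℝ) ^ c))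

/-- The properties of the rate which are used. -/
structure QOK (q : ℕ → ℝ) (K : ℝ) : Prop where
  pos : ∀ n, 1 ≤ n → 0 < q n
  one : ∀ n, 1 ≤ n → q n ≤ K
  anti : ∀ m n, 1 ≤ m → m ≤ n → q n ≤ K * q m
  low : ∀ m n, 1 ≤ m → m ≤ n → q m ≤ K * ((n : ℝ) / m) * q n

/-- The rate of the ties, lattice version. -/
noncomputable def qt (μ : Measure ℝ) (s : ℝ) (t : ℕ) : ℝ := Real.sqrt (wd' μ s t / t)

/-- The rate of the ties, second version. -/
noncomputable def qE (μ : Measure ℝ) (s : ℝ) (t : ℕ) : ℝ := (EE' μ s t)⁻¹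

theorem TIE_qt [IsProbabilityMeasure μ] {c C : ℝ} {n₀ : ℕ} (h : In μ s c C n₀) : TIE μ s (qt μ s) := by
  intro ε hε
  obtain ⟨c', hc', L₀, hL⟩ := tieW h.em h.nd (ε / 2) (by positivity)
  have hδ : 0 < ε / 8 := by positivity
  obtain ⟨L₁, hL₁⟩ := (((tendsto_rpow_atTop hδ).comp tendsto_natCast_atTop_atTop).eventually_ge_atTop 2).exists_forall_of_atTop
  refine ⟨ε / 8, c', hδ, hc', max L₀ (max L₁ 1), ?_⟩
  intro L hLL N hLN hNL y hy0 hyN _ H n j₀ J hJ hj₀ hnL hn hnJ g w hg hw hwL hwg hww M hM A hA hoff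
  have hL0 : L₀ ≤ L := (le_max_left _ _).trans hLL
  have h2 : (2 : ℝ) ≤ (L : ℝ) ^ (ε / 8) := hL₁ L ((le_max_left _ _).trans ((le_max_right _ _).trans hLL))
  have hL1 : 1 ≤ L := (le_max_right _ _).trans ((le_max_right _ _).trans hLL)
  have hLR : (1 : ℝ) ≤ L := by exact_mod_cast hL1
  set x : ℝ := (L : ℝ) ^ (ε / 8) with hx
  have hx0 : 0 < x := by linarith
  have hn0 : (0 : ℝ) < n := lt_of_lt_of_le (Real.rpow_pos_of_pos (by linarith) _) hn
  have hJc : (0 : ℝ) < J.card := by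
    by_contra hneg
    have : (J.card : ℝ) ≤ 0 := not_lt.1 hneg
    nlinarith
  have hJne : J.Nonempty := by
    rw [← Finset.card_pos]
    exact_mod_cast hJc
  refine (hL L hL0 N hNL y hy0 hyN H j₀ J hJne (fun i hi => ⟨(hJ i hi).1, (hJ i hi).2.1⟩) hj₀ g w hg hw hwL M hM A hA hoff).trans ?_
  refine add_le_add (mul_le_mul_left (ENNReal.ofReal_le_ofReal ?_) _) le_rfl
  have hw0 : 0 < wd' μ s n := lt_of_lt_of_le zero_lt_one (le_max_left _ _)
  have hg0 : (0 : ℝ) < g := by exact_mod_cast hg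
  have e1 : (w : ℝ) / g ≤ x * x := by
    rw [div_le_iff₀ hg0]
    nlinarith
  have e2 : (w : ℝ) / J.card ≤ (x * x) * (wd' μ s n / n) := by
    rw [div_le_iff₀ hJc]
    have e3 : (x * x) * (wd' μ s n / n) * J.card = (x * wd' μ s n) * ((x * J.card) / n) := by ring
    rw [e3]
    have e4 : 1 ≤ (x * J.card) / n := by rwa [one_le_div hn0]
    nlinarith [mul_pos hx0 hw0]
  have e5 : Real.sqrt ((w : ℝ) / J.card) ≤ x * qt μ s n := by
    unfold qt
    calc Real.sqrt ((w : ℝ) / J.card) ≤ Real.sqrt ((x * x) * (wd' μ s n / n)) := Real.sqrt_le_sqrt e2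
      _ = x * Real.sqrt (wd' μ s n / n) := by
        rw [Real.sqrt_mul (mul_self_nonneg x), Real.sqrt_mul_self hx0.le]
  have hq0 : 0 ≤ qt μ s n := Real.sqrt_nonneg _
  have e6 : (w : ℝ) / g + 1 ≤ x * x * x := by nlinarith [mul_pos hx0 hx0]
  have e7 : (L : ℝ) ^ ε = (L : ℝ) ^ (ε / 2) * (x * x * x * x) := by
    rw [hx, ← Real.rpow_add (by linarith), ← Real.rpow_add (by linarith), ← Real.rpow_add (by linarith),
      ← Real.rpow_add (by linarith)]
    congr 1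
    ring
  have hP : 0 < (L : ℝ) ^ (ε / 2) := Real.rpow_pos_of_pos (by linarith) _
  calc (L : ℝ) ^ (ε / 2) * M * ((w : ℝ) / g + 1) * Real.sqrt ((w : ℝ) / J.card)
      ≤ (L : ℝ) ^ (ε / 2) * M * (x * x * x) * (x * qt μ s n) := by
        apply mul_le_mul (mul_le_mul_of_nonneg_left e6 (by positivity)) e5 (Real.sqrt_nonneg _)
        positivity
    _ = (L : ℝ) ^ ε * M * qt μ s n := by rw [e7]; ring

theorem QOK_qt [IsProbabilityMeasure μ] {c C : ℝ} {n₀ : ℕ} (h : In μ s c C n₀) : ∃ K : ℝ, 1 ≤ K ∧ QOK (qt μ s) K := by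
  obtain ⟨a, K, ha, ha1, hK, hw⟩ := wd'_pow h
  have hwp : ∀ n, 0 < wd' μ s n := fun n => lt_of_lt_of_le zero_lt_one (le_max_left _ _)
  have h1 : wd' μ s 1 ≤ K * wd' μ s 1 := by nlinarith [hwp 1]
  refine ⟨K * (1 + wd' μ s 1), ?_, ?_, ?_, ?_, ?_⟩
  · nlinarith [hwp 1]
  · intro n hn
    have : (0 : ℝ) < n := by exact_mod_cast hn
    exact Real.sqrt_pos.2 (div_pos (hwp n) this)
  · intro n hn
    have hn0 : (0 : ℝ) < n := by exact_mod_cast hn
    have hn1 : (1 : ℝ) ≤ n := by exact_mod_cast hn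
    have h2 := (hw 1 n le_rfl hn).2.2
    have h3 : ((n : ℝ) / (1 : ℕ)) ^ (1 - a) ≤ n := by
      rw [Nat.cast_one, div_one]
      calc (n : ℝ) ^ (1 - a) ≤ (n : ℝ) ^ (1 : ℝ) := Real.rpow_le_rpow_of_exponent_le hn1 (by linarith)
        _ = n := Real.rpow_one _
    have h4 : wd' μ s n / n ≤ K * wd' μ s 1 := by
      rw [div_le_iff₀ hn0]
      calc wd' μ s n ≤ K * ((n : ℝ) / (1 : ℕ)) ^ (1 - a) * wd' μ s 1 := h2
        _ ≤ K * n * wd' μ s 1 := by
          have := hwp 1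
          gcongr
        _ = K * wd' μ s 1 * n := by ring
    have h5 : Real.sqrt (wd' μ s n / n) ≤ 1 + K * wd' μ s 1 := by
      rw [Real.sqrt_le_left (by nlinarith [hwp 1])]
      nlinarith [hwp 1, mul_pos (by linarith : (0 : ℝ) < K) (hwp 1)]
    unfold qt
    nlinarith [hwp 1]
  · intro m n hm hmn
    have hm0 : (0 : ℝ) < m := by exact_mod_cast hm
    have hn0 : (0 : ℝ) < n := lt_of_lt_of_le hm0 (by exact_mod_cast hmn)
    have hr : (1 : ℝ) ≤ (n : ℝ) / m := by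
      rw [one_le_div hm0]
      exact_mod_cast hmn
    have h2 := (hw m n hm hmn).2.2
    have h3 : ((n : ℝ) / m) ^ (1 - a) ≤ (n : ℝ) / m := by
      calc ((n : ℝ) / m) ^ (1 - a) ≤ ((n : ℝ) / m) ^ (1 : ℝ) := Real.rpow_le_rpow_of_exponent_le hr (by linarith)
        _ = (n : ℝ) / m := Real.rpow_one _
    have h4 : wd' μ s n / n ≤ (K * K) * (wd' μ s m / m) := by
      rw [div_le_iff₀ hn0]
      calc wd' μ s n ≤ K * ((n : ℝ) / m) ^ (1 - a) * wd' μ s m := h2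
        _ ≤ K * ((n : ℝ) / m) * wd' μ s m := by
          have := hwp m
          gcongr
        _ ≤ (K * K) * ((n : ℝ) / m) * wd' μ s m := by
          have := hwp m
          have : K ≤ K * K := by nlinarith
          gcongr
        _ = (K * K) * (wd' μ s m / m) * n := by field_simp
    have h5 : Real.sqrt (wd' μ s n / n) ≤ K * Real.sqrt (wd' μ s m / m) := by
      calc Real.sqrt (wd' μ s n / n) ≤ Real.sqrt ((K * K) * (wd' μ s m / m)) := Real.sqrt_le_sqrt h4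
        _ = K * Real.sqrt (wd' μ s m / m) := by
          rw [Real.sqrt_mul (mul_self_nonneg K), Real.sqrt_mul_self (by linarith)]
    have h6 : 0 ≤ qt μ s m := Real.sqrt_nonneg _
    calc qt μ s n ≤ K * qt μ s m := h5
      _ ≤ K * (1 + wd' μ s 1) * qt μ s m := by
        have : K ≤ K * (1 + wd' μ s 1) := by nlinarith [hwp 1, mul_pos (by linarith : (0 : ℝ) < K) (hwp 1)]
        gcongr
  · intro m n hm hmn
    have hm0 : (0 : ℝ) < m := by exact_mod_cast hm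
    have hn0 : (0 : ℝ) < n := lt_of_lt_of_le hm0 (by exact_mod_cast hmn)
    have hr : (1 : ℝ) ≤ (n : ℝ) / m := by
      rw [one_le_div hm0]
      exact_mod_cast hmn
    have h2 := (hw m n hm hmn).1
    have h4 : wd' μ s m / m ≤ ((K * (n / m)) * (K * (n / m))) * (wd' μ s n / n) := by
      have e : ((K * ((n : ℝ) / m)) * (K * (n / m))) * (wd' μ s n / n) = (K * ((n : ℝ) / m)) * (K * wd' μ s n) / m := by
        field_simp
      rw [e]
      have h7 : 1 ≤ K * ((n : ℝ) / m) := by nlinarith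
      have h8 : 0 < K * wd' μ s n := mul_pos (by linarith) (hwp n)
      gcongr
      nlinarith
    have h9 : 0 ≤ K * ((n : ℝ) / m) := by positivity
    have h5 : Real.sqrt (wd' μ s m / m) ≤ K * ((n : ℝ) / m) * Real.sqrt (wd' μ s n / n) := by
      calc Real.sqrt (wd' μ s m / m) ≤ Real.sqrt (((K * (n / m)) * (K * (n / m))) * (wd' μ s n / n)) := Real.sqrt_le_sqrt h4
        _ = K * ((n : ℝ) / m) * Real.sqrt (wd' μ s n / n) := by
          rw [Real.sqrt_mul (mul_self_nonneg _), Real.sqrt_mul_self h9]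
    have h6 : 0 ≤ qt μ s n := Real.sqrt_nonneg _
    calc qt μ s m ≤ K * ((n : ℝ) / m) * qt μ s n := h5
      _ ≤ K * (1 + wd' μ s 1) * ((n : ℝ) / m) * qt μ s n := by
        have : K ≤ K * (1 + wd' μ s 1) := by nlinarith [hwp 1, mul_pos (by linarith : (0 : ℝ) < K) (hwp 1)]
        gcongr

theorem QOK_qE [IsProbabilityMeasure μ] {c C : ℝ} {n₀ : ℕ} (h : In μ s c C n₀) : ∃ K : ℝ, 1 ≤ K ∧ QOK (qE μ s) K := by
  obtain ⟨a, K, ha, ha1, hK, hE⟩ := EE'_pow h
  have hEp : ∀ n, 0 < EE' μ s n := fun n => lt_of_lt_of_le zero_lt_one (le_max_left _ _)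
  refine ⟨K, hK, ?_, ?_, ?_, ?_⟩
  · intro n _
    exact inv_pos.2 (hEp n)
  · intro n _
    exact (inv_le_one_of_one_le₀ (le_max_left _ _)).trans hK
  · intro m n hm hmn
    have := (hE m n hm hmn).1
    unfold qE
    rw [← div_eq_mul_inv, inv_eq_one_div, div_le_div_iff₀ (hEp n) (hEp m)]
    linarith
  · intro m n hm hmn
    have h2 := (hE m n hm hmn).2.2
    have hm0 : (0 : ℝ) < m := by exact_mod_cast hm
    have hr : (1 : ℝ) ≤ (n : ℝ) / m := by
      rw [one_le_div hm0]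
      exact_mod_cast hmn
    have h3 : Real.sqrt ((n : ℝ) / m) ≤ (n : ℝ) / m := by
      rw [Real.sqrt_le_left (by linarith)]
      nlinarith
    unfold qE
    rw [← div_eq_mul_inv, inv_eq_one_div, div_le_div_iff₀ (hEp m) (hEp n)]
    have h4 : K * Real.sqrt ((n : ℝ) / m) * EE' μ s m ≤ K * ((n : ℝ) / m) * EE' μ s m := by
      have := hEp m
      gcongr
    linarith

end Pool.Agent.W_7d29a1_HZ
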