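import Pool.Agent.W_7d29a1_HZ.Z21_Env94
import Pool.Agent.W_7d29a1_HX.X40_H3

/-!
STORM Z at one tilt `s`, Lemma NS: the energy of the displacements to the right (field `en` of `Env21`). (model: helper21; helper67)
-/

set_option autoImplicit false

namespace Pool.Agent.W_7d29a1_HZ.Z21

open MeasureTheory ProbabilityTheory Filter Topology Finset
open Pool.Agent.W_7d29a1_F Pool.Agent.W_7d29a1_h4g Pool.Agent.W_7d29a1_H
open Pool.Agent.W_7d29a1_HS

variable {μ : Measure ℝ} [IsProbabilityMeasure μ] {s c C : ℝ} {n₀ : ℕ}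

/-! ### The rate function -/

theorem J_pos67 (h : In μ s c C n₀) {x : ℝ} (hx : x ≠ 0) : 0 < J μ s x := by
  obtain ⟨H, δ, hD⟩ := h.dir
  obtain ⟨j, hj, hs⟩ := hD.strict |x| (abs_pos.2 hx)
  have h1 := hs s (Set.mem_singleton s) x le_rfl
  have h2 : 0 < j * |x| := mul_pos hj (abs_pos.2 hx)
  linarith

/-- Beyond a slope the rate function grows at least linearly. -/
theorem J_lin67 (h : In μ s c C n₀) {x t : ℝ} (ht : 1 ≤ t) : t * J μ s x ≤ J μ s (t * x) := h.rf.le_mul ht x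

/-- The tilt `θ = g J (v) / v`: upper bound of the gain. -/
theorem ex_le67 (h : In μ s c C n₀) {g v : ℝ} (hg0 : 0 < g) (hg1 : g < 1) (hv : 0 < v) : ex μ s (th21 μ s g v) ≤ g * J μ s v := by
  have hJv : 0 < J μ s v := J_pos67 h hv.ne'
  obtain ⟨t, ht⟩ : ∃ t : ℝ, t = th21 μ s g v := ⟨_, rfl⟩
  rw [← ht]
  have htv : t * v = g * J μ s v := by
    rw [ht]
    unfold th21
    rw [div_mul_cancel₀ _ hv.ne']
  have ht0 : 0 < t := by
    rw [ht]
    unfold th21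
    positivity
  have hJle : J μ s v ≤ v := by
    have := J_le_abs h.em h.nd s v
    rwa [abs_of_pos hv] at this
  have ht1 : t ≤ g := by
    have h1 : t * v ≤ g * v := by
      rw [htv]
      exact mul_le_mul_of_nonneg_left hJle hg0.le
    exact le_of_mul_le_mul_right h1 hv
  by_contra hcon
  push Not at hcon
  -- the slope of the tilt `s + t`, relative to the one of `s`
  obtain ⟨u, hu⟩ : ∃ u : ℝ, u = sl μ (s + t) - sl μ s := ⟨_, rfl⟩
  have h1 := ex_le_sl h.em h.nd s t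
  rw [← hu] at h1
  have h2 : v < u := by
    rw [← htv] at hcon
    have : t * v < t * u := hcon.trans_le h1
    exact lt_of_mul_lt_mul_left this ht0.le
  have hu0 : 0 < u := hv.trans h2
  -- `J u = t u - ex t`
  have h3 : J μ s u ≤ t * u - ex μ s t := by
    refine J_le fun r _ => ?_
    have h4 := lam_tangent h.em h.nd (s + t) (s + r)
    unfold ex
    have h5 : sl μ (s + t) = u + sl μ s := by rw [hu]; ring
    rw [h5] at h4
    nlinarith
  have h5 := J_lin67 h (x := v) (t := u / v) ((one_le_div hv).2 h2.le)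
  rw [div_mul_cancel₀ _ hv.ne'] at h5
  have h6 : u / v * J μ s v ≤ t * u := by
    have := ex_nonneg h.em h.nd s t
    linarith
  have h7 : t * u = u / v * (g * J μ s v) := by
    rw [← htv]
    field_simp
  rw [h7] at h6
  have h8 : 0 < u / v := by positivity
  have h9 := le_of_mul_le_mul_left h6 h8
  nlinarith

/-- The scale of a small slope. -/
theorem scale67 (h : In μ s c C n₀) : ∃ K : ℝ, 1 ≤ K ∧ ∀ n₁ : ℕ, ∃ v₀ : ℝ, 0 < v₀ ∧ v₀ ≤ 1 ∧ ∀ v : ℝ, 0 < v → v ≤ v₀ →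
    ∃ r : ℕ, n₁ ≤ r ∧ 1 ≤ r ∧ vA 1 μ s r ≤ K * v ∧ v ≤ 2 * vA 1 μ s r ∧ EE μ s r ≤ r * J μ s v ∧ r * J μ s v ≤ 2 * EE μ s r := by
  obtain ⟨D, hD1, hD⟩ := Pool.Agent.W_7d29a1_HX.X40.d2_all h
  refine ⟨1 + D, by linarith, fun n₁ => ?_⟩
  obtain ⟨n₃, hn₃⟩ : ∃ n₃ : ℕ, n₃ = max n₁ 1 := ⟨_, rfl⟩
  have h31 : n₁ ≤ n₃ := hn₃ ▸ le_max_left _ _
  have h33 : 1 ≤ n₃ := hn₃ ▸ le_max_right _ _
  have hn30 : (0 : ℝ) < n₃ := by exact_mod_cast h33
  refine ⟨1 / (2 * n₃), by positivity, ?_, fun v hv hv0 => ?_⟩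
  · rw [div_le_one (by positivity)]
    have : (1 : ℝ) ≤ n₃ := by exact_mod_cast h33
    linarith
  have hJv : 0 < J μ s v := J_pos67 h hv.ne'
  have hJle : J μ s v ≤ v := by
    have := J_le_abs h.em h.nd s v
    rwa [abs_of_pos hv] at this
  have hEE1 : ∀ r : ℕ, 1 ≤ EE μ s r := fun r => one_le_EE r
  -- at `n₃` the energy is below the unit
  have h1 : (n₃ : ℝ) * J μ s v < EE μ s n₃ := by
    have h2 : (n₃ : ℝ) * J μ s v ≤ n₃ * (1 / (2 * n₃)) := mul_le_mul_of_nonneg_left (hJle.trans hv0) hn30.le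
    have h3 : (n₃ : ℝ) * (1 / (2 * n₃)) = 1 / 2 := by field_simp
    have := hEE1 n₃
    linarith
  -- for large times it is above
  have hex : ∃ r : ℕ, n₃ ≤ r ∧ EE μ s r ≤ r * J μ s v := by
    obtain ⟨n₄, hn₄⟩ := eventually_atTop.1 (h.tv.eventually (Iio_mem_nhds (show (0 : ℝ) < 2 * J μ s v by positivity)))
    refine ⟨max n₃ n₄, le_max_left _ _, ?_⟩
    have h2 := hn₄ _ (le_max_right n₃ n₄)
    have h3 := h.vA_ge (max n₃ n₄)
    have h4 : (0 : ℝ) < ((max n₃ n₄ : ℕ) : ℝ) := by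
      have : 1 ≤ max n₃ n₄ := h33.trans (le_max_left _ _)
      exact_mod_cast this
    have h5 : EE μ s (max n₃ n₄) / ((max n₃ n₄ : ℕ) : ℝ) ≤ J μ s v := by
      have : vA 1 μ s (max n₃ n₄) < 2 * J μ s v := h2
      linarith
    rw [div_le_iff₀ h4] at h5
    linarith
  classical
  obtain ⟨r, hr⟩ : ∃ r : ℕ, r = Nat.find hex := ⟨_, rfl⟩
  have hr1 : n₃ ≤ r ∧ EE μ s r ≤ r * J μ s v := hr ▸ Nat.find_spec hex
  have hr2 : ∀ m, m < r → ¬ (n₃ ≤ m ∧ EE μ s m ≤ m * J μ s v) := fun m hm => Nat.find_min hex (hr ▸ hm)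
  have hrn : n₃ < r := by
    refine lt_of_le_of_ne hr1.1 fun heq => ?_
    rw [← heq] at hr1
    linarith [hr1.2]
  have hr0 : (0 : ℝ) < r := by
    have : 0 < r := by omega
    exact_mod_cast this
  obtain ⟨q, hq⟩ : ∃ q : ℕ, r = q + 1 := ⟨r - 1, by omega⟩
  have h2 := hr2 q (by omega)
  rw [not_and, not_le] at h2
  have h3 := h2 (by omega)
  have h4 : (r : ℝ) * J μ s v ≤ 2 * EE μ s r := by
    have h5 : EE μ s q ≤ EE μ s r := EE_mono (by omega)
    have h6 : (r : ℝ) = q + 1 := by rw [hq]; push_cast; ring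
    rw [h6]
    have h7 := hEE1 r
    have h8 : v ≤ 1 := by
      refine hv0.trans ?_
      rw [div_le_one (by positivity)]
      have : (1 : ℝ) ≤ n₃ := by exact_mod_cast h33
      linarith
    linarith
  have hJr := h.J_vr r
  have hJl := h.J_vl r
  have hEr : EE μ s r / r ≤ J μ s v := by
    rw [div_le_iff₀ hr0]
    linarith [hr1.2]
  have hEr2 : J μ s v ≤ 2 * (EE μ s r / r) := by
    rw [← mul_div_assoc, le_div_iff₀ hr0]
    linarith
  have hEr0 : 0 < EE μ s r / r := div_pos (EE_pos _) hr0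
  have hvr : 0 < vr 1 μ s r := h.vr_pos (by omega)
  have hvl : 0 < vl 1 μ s r := h.vl_pos (by omega)
  refine ⟨r, by omega, by omega, ?_, ?_, hr1.2, h4⟩
  · -- `vA ≤ (1 + D) v`
    have a1 : vr 1 μ s r ≤ v := by
      by_contra hcon
      push Not at hcon
      have b1 := J_lin67 h (x := v) (t := vr 1 μ s r / v) ((one_le_div hv).2 hcon.le)
      rw [div_mul_cancel₀ _ hv.ne', hJr] at b1
      have b2 : 1 < vr 1 μ s r / v := (one_lt_div hv).2 hcon
      nlinarith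
    have a2 : vl 1 μ s r ≤ D * v := by
      by_contra hcon
      push Not at hcon
      have hDv : 0 < D * v := by positivity
      have b0 : 1 ≤ vl 1 μ s r / v := by
        rw [one_le_div hv]
        nlinarith
      have b1 := J_lin67 h (x := -v) (t := vl 1 μ s r / v) b0
      have e1 : vl 1 μ s r / v * -v = -vl 1 μ s r := by field_simp
      rw [e1, hJl] at b1
      have b2 := (hD (-v)).2
      rw [neg_neg] at b2
      have b3 : D < vl 1 μ s r / v := (lt_div_iff₀ hv).2 hcon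
      have hJn : 0 < J μ s (-v) := J_pos67 h (neg_ne_zero.2 hv.ne')
      have b4 : D * J μ s (-v) < vl 1 μ s r / v * J μ s (-v) := mul_lt_mul_of_pos_right b3 hJn
      linarith
    unfold vA
    linarith
  · -- `v ≤ 2 vA`
    have a3 : v ≤ 2 * vr 1 μ s r := by
      by_contra hcon
      push Not at hcon
      have b1 := J_lin67 h (x := vr 1 μ s r) (t := v / vr 1 μ s r) (by
        rw [one_le_div hvr]
        linarith)
      rw [div_mul_cancel₀ _ hvr.ne', hJr] at b1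
      have b2 : 2 < v / vr 1 μ s r := (lt_div_iff₀ hvr).2 hcon
      have b3 : 2 * (EE μ s r / r) < v / vr 1 μ s r * (EE μ s r / r) := mul_lt_mul_of_pos_right b2 hEr0
      linarith
    have := h.vr_le r
    linarith

/-- The pair (tilt, scale) is admissible. -/
theorem adm67 {g v K : ℝ} {r : ℕ} (hg0 : 0 < g) (hv : 0 < v) (hr : 1 ≤ r) (h1 : vA 1 μ s r ≤ K * v) (h2 : v ≤ 2 * vA 1 μ s r)
    (h3 : EE μ s r ≤ r * J μ s v) (h4 : r * J μ s v ≤ 2 * EE μ s r) (hK : 0 ≤ K) :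
    g / 2 * EE μ s r ≤ th21 μ s g v * wd μ s r ∧ th21 μ s g v * wd μ s r ≤ 2 * (K * g) * EE μ s r := by
  have hr0 : (0 : ℝ) < r := by exact_mod_cast hr
  have hE := EE_pos (μ := μ) (s := s) r
  have hJ : 0 < J μ s v := by
    by_contra hcon
    push Not at hcon
    have : (r : ℝ) * J μ s v ≤ 0 := mul_nonpos_of_nonneg_of_nonpos hr0.le hcon
    linarith
  have htv : th21 μ s g v * v = g * J μ s v := by
    unfold th21
    rw [div_mul_cancel₀ _ hv.ne']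
  have ht0 : 0 < th21 μ s g v := by
    unfold th21
    positivity
  unfold wd
  constructor
  · calc g / 2 * EE μ s r ≤ g / 2 * (r * J μ s v) := mul_le_mul_of_nonneg_left h3 (by positivity)
      _ = (th21 μ s g v * v) * r / 2 := by rw [htv]; ring
      _ = th21 μ s g v * (v * r) / 2 := by ring
      _ ≤ th21 μ s g v * ((2 * vA 1 μ s r) * r) / 2 := by
        have := mul_le_mul_of_nonneg_left (mul_le_mul_of_nonneg_right h2 hr0.le) ht0.le
        linarith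
      _ = _ := by ring
  · calc th21 μ s g v * (r * vA 1 μ s r) ≤ th21 μ s g v * (r * (K * v)) :=
        mul_le_mul_of_nonneg_left (mul_le_mul_of_nonneg_left h1 hr0.le) ht0.le
      _ = K * (th21 μ s g v * v * r) := by ring
      _ = K * (g * (r * J μ s v)) := by rw [htv]; ring
      _ ≤ K * (g * (2 * EE μ s r)) := mul_le_mul_of_nonneg_left (mul_le_mul_of_nonneg_left h4 hg0.le) hK
      _ = _ := by ring

/-! ### One displacement -/

/-- The continuation, in terms of the capped slope. -/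
theorem Jt_eq21 {v₀ u : ℝ} (hv₀ : 0 < v₀) (hu : 0 < u) : Jt21 μ s v₀ u = J μ s (min u v₀) * u / min u v₀ := by
  unfold Jt21
  rcases le_or_gt u v₀ with h1 | h1
  · rw [if_pos h1, min_eq_left h1, mul_div_cancel_right₀ _ hu.ne']
  · rw [if_neg (not_le.2 h1), min_eq_right h1.le]
    ring

theorem W_tilt67 (t : ℝ) (η : Env) (a : Pt) (n : ℕ) (y : ℤ) :
    W μ (s + t) η a n y = Real.exp (t * ((y : ℝ) - sl μ s * n) - n * ex μ s t) * W μ s η a n y := by
  unfold W WR ex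
  rw [← mul_assoc, ← Real.exp_add]
  congr 2
  ring

theorem W_le_V67 (t : ℝ) (η : Env) (a : Pt) (n : ℕ) (y : ℤ) : W μ t η a n y ≤ Real.exp (V μ t η a n) := by
  have h := WS_le_exp_V (μ := μ) (s := t) η a n {y}
  unfold WS at h
  rwa [Finset.sum_singleton] at h

/-- One displacement, from the luck and the luck at the tilt of a quarter of the slope. -/
theorem en_det21 (h : In μ s c C n₀) {K g b v₀ Q : ℝ} {n r : ℕ} {y : ℤ} {η : Env} (hn : 1 ≤ n) (hny : sl μ s * n < (y : ℝ)) (hyn : y ≤ n)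
    (hg : 0 < g) (hg1 : g < 1) (hK : 1 ≤ K) (hb0 : 0 < b) (hb : b * K ≤ 2 * g) (hb1 : b ≤ 1) (hv₀ : 0 < v₀) (hv₀h : v₀ ≤ 1)
    (hup : ∀ v : ℝ, 0 < v → J μ s v ≤ K * J μ s (v / 4)) (hQ : 1 ≤ Q) (hr : 1 ≤ r)
    (hrJ : r * J μ s (min (((y : ℝ) - sl μ s * n) / n) v₀ / 4) ≤ 2 * EE μ s r)
    (hV : V μ s η 0 n ≤ K / v₀ * Q * EE μ s n)
    (hT : r * Q ≤ n → |V μ (s + th21 μ s g (min (((y : ℝ) - sl μ s * n) / n) v₀ / 4)) η 0 n| ≤
      1 * (n * ex μ s (th21 μ s g (min (((y : ℝ) - sl μ s * n) / n) v₀ / 4)))) :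
    b * (n * Jt21 μ s v₀ (((y : ℝ) - sl μ s * n) / n)) - 5 * (K / v₀) * Q * EE μ s n ≤ X μ s η 0 n y := by
  have hn0 : (0 : ℝ) < n := by exact_mod_cast hn
  have hynR : (y : ℝ) ≤ n := by exact_mod_cast hyn
  have hs0 := h.sl_pos
  have hy0 : 0 ≤ y := by
    have g6 : (0 : ℝ) < y := lt_of_le_of_lt (mul_nonneg h.sl_pos.le (Nat.cast_nonneg n)) hny
    exact_mod_cast g6.le
  obtain ⟨u, hu⟩ : ∃ u : ℝ, u = ((y : ℝ) - sl μ s * n) / n := ⟨_, rfl⟩
  rw [← hu] at hrJ hT ⊢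
  have hu0 : 0 < u := by rw [hu]; exact div_pos (by linarith) hn0
  have huh : u ≤ 1 := by
    rw [hu, div_le_iff₀ hn0]
    have : 0 ≤ sl μ s * n := by positivity
    linarith
  have hnu : n * u = (y : ℝ) - sl μ s * n := by rw [hu]; field_simp
  obtain ⟨w, hw⟩ : ∃ w : ℝ, w = min u v₀ := ⟨_, rfl⟩
  have hw0 : 0 < w := by rw [hw]; exact lt_min hu0 hv₀
  have hwu : w ≤ u := hw ▸ min_le_left _ _
  have hwv : w ≤ v₀ := hw ▸ min_le_right _ _
  have hJt := Jt_eq21 (μ := μ) (s := s) hv₀ hu0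
  rw [← hw] at hrJ hT hJt
  rw [hJt]
  have hJw : 0 < J μ s w := J_pos67 h hw0.ne'
  have hJw4 : 0 < J μ s (w / 4) := J_pos67 h (by positivity)
  have hup' := hup w hw0
  have hEn := EE_pos (μ := μ) (s := s) n
  have hKv : 0 < K / v₀ := by positivity
  rcases le_or_gt ((r : ℝ) * Q) n with h1 | h1
  · -- the tilted luck
    have h2 := hT h1
    obtain ⟨θ, hθ⟩ : ∃ θ : ℝ, θ = th21 μ s g (w / 4) := ⟨_, rfl⟩
    rw [← hθ] at h2
    have hθw : θ * (w / 4) = g * J μ s (w / 4) := by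
      rw [hθ]
      unfold th21
      rw [div_mul_cancel₀ _ (by positivity)]
    have hθ0 : 0 < θ := by
      rw [hθ]
      unfold th21
      positivity
    have hLL : ex μ s θ ≤ θ * (w / 4) := by
      rw [hθw, hθ]
      exact ex_le67 h hg hg1 (by positivity)
    have h3 : V μ (s + θ) η 0 n ≤ n * ex μ s θ := by
      have := (abs_le.1 h2).2
      linarith
    -- the cost
    have h4 : Real.log (W μ s η 0 n y) = Real.log (W μ (s + θ) η 0 n y) - (θ * ((y : ℝ) - sl μ s * n) - n * ex μ s θ) := by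
      rw [W_tilt67 θ η 0 n y, Real.log_mul (Real.exp_pos _).ne' (W_pos _ _ hy0 hyn).ne', Real.log_exp]
      ring
    have h5 : Real.log (W μ (s + θ) η 0 n y) ≤ V μ (s + θ) η 0 n := by
      rw [← Real.log_exp (V μ (s + θ) η 0 n)]
      exact Real.log_le_log (W_pos _ _ hy0 hyn) (W_le_V67 _ _ _ _ _)
    have h7 : θ * (n * u) - 2 * (n * ex μ s θ) ≤ X μ s η 0 n y := by
      unfold X
      rw [h4, hnu]
      linarith
    have h8 : n * ex μ s θ ≤ n * (θ * (w / 4)) := mul_le_mul_of_nonneg_left hLL hn0.le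
    have h9 : n * (θ * (w / 4)) ≤ n * (θ * (u / 4)) :=
      mul_le_mul_of_nonneg_left (mul_le_mul_of_nonneg_left (by linarith) hθ0.le) hn0.le
    have h10 : n * θ * u / 2 ≤ X μ s η 0 n y := by
      have e1 : θ * (n * u) = n * θ * u := by ring
      have e2 : n * (θ * (u / 4)) = n * θ * u / 4 := by ring
      rw [e1] at h7
      rw [e2] at h9
      linarith
    have h11 : b * (n * (J μ s w * u / w)) ≤ n * θ * u / 2 := by
      have e3 : n * θ * u / 2 = n * (θ * (w / 4)) * (2 * u / w) := by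
        field_simp
        ring
      rw [e3, hθw]
      have h12 : b * J μ s w ≤ 2 * g * J μ s (w / 4) := by
        calc b * J μ s w ≤ b * (K * J μ s (w / 4)) := mul_le_mul_of_nonneg_left hup' hb0.le
          _ = b * K * J μ s (w / 4) := by ring
          _ ≤ 2 * g * J μ s (w / 4) := mul_le_mul_of_nonneg_right hb hJw4.le
      calc b * (n * (J μ s w * u / w)) = n * (u / w) * (b * J μ s w) := by ring
        _ ≤ n * (u / w) * (2 * g * J μ s (w / 4)) := mul_le_mul_of_nonneg_left h12 (by positivity)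
        _ = n * (g * J μ s (w / 4)) * (2 * u / w) := by ring
    have h13 : 0 ≤ 5 * (K / v₀) * Q * EE μ s n := by positivity
    linarith
  · -- the trivial case
    have h2 : n * J μ s (w / 4) ≤ 4 * Q * EE μ s n := by
      rcases le_total r n with h3 | h3
      · have h4 : EE μ s r ≤ EE μ s n := EE_mono h3
        calc (n : ℝ) * J μ s (w / 4) ≤ r * Q * J μ s (w / 4) := mul_le_mul_of_nonneg_right h1.le hJw4.le
          _ = Q * (r * J μ s (w / 4)) := by ring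
          _ ≤ Q * (2 * EE μ s n) := mul_le_mul_of_nonneg_left (hrJ.trans (by linarith)) (by linarith)
          _ ≤ 4 * Q * EE μ s n := by
            have : 0 < Q * EE μ s n := by positivity
            linarith
      · have h4 := scale_b h hn h3
        have hr0 : (0 : ℝ) < r := by exact_mod_cast hr
        have h5 : (n : ℝ) * J μ s (w / 4) * r ≤ 4 * EE μ s n * r := by
          calc (n : ℝ) * J μ s (w / 4) * r = n * (r * J μ s (w / 4)) := by ring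
            _ ≤ n * (2 * EE μ s r) := mul_le_mul_of_nonneg_left hrJ hn0.le
            _ = 2 * (n * EE μ s r) := by ring
            _ ≤ 2 * (2 * (r * EE μ s n)) := by linarith
            _ = 4 * EE μ s n * r := by ring
        have h6 := le_of_mul_le_mul_right h5 hr0
        have h7 : 1 * EE μ s n ≤ Q * EE μ s n := mul_le_mul_of_nonneg_right hQ hEn.le
        linarith
    have h3 : n * (J μ s w * u / w) ≤ K / v₀ * (n * J μ s (w / 4)) := by
      have h4 : u / w ≤ 1 / v₀ := by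
        rw [div_le_div_iff₀ hw0 hv₀, one_mul]
        rcases le_total u v₀ with h5 | h5
        · rw [hw, min_eq_left h5]
          nlinarith
        · rw [hw, min_eq_right h5]
          nlinarith
      calc n * (J μ s w * u / w) = n * (u / w) * J μ s w := by ring
        _ ≤ n * (u / w) * (K * J μ s (w / 4)) := mul_le_mul_of_nonneg_left hup' (by positivity)
        _ = (u / w) * (K * (n * J μ s (w / 4))) := by ring
        _ ≤ (1 / v₀) * (K * (n * J μ s (w / 4))) := mul_le_mul_of_nonneg_right h4 (by positivity)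
        _ = K / v₀ * (n * J μ s (w / 4)) := by ring
    have h4 : b * (n * (J μ s w * u / w)) ≤ 1 * (n * (J μ s w * u / w)) := mul_le_mul_of_nonneg_right hb1 (by positivity)
    have h5 : K / v₀ * (n * J μ s (w / 4)) ≤ K / v₀ * (4 * Q * EE μ s n) := mul_le_mul_of_nonneg_left h2 hKv.le
    have h6 : -(V μ s η 0 n) ≤ X μ s η 0 n y := by
      have h7 : W μ s η 0 n y ≤ Real.exp (V μ s η 0 n) := W_le_V67 _ _ _ _ _
      have h8 : Real.log (W μ s η 0 n y) ≤ V μ s η 0 n := by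
        rw [← Real.log_exp (V μ s η 0 n)]
        exact Real.log_le_log (W_pos _ _ hy0 hyn) h7
      unfold X
      linarith
    have h7 : K / v₀ * (4 * Q * EE μ s n) = 4 * (K / v₀) * Q * EE μ s n := by ring
    linarith

/-- One displacement from the origin. -/
theorem en_one21 (h : In μ s c C n₀) (hT : TL67 μ s c) {e : ℝ} (he : 0 < e) : ∃ b : ℝ, 0 < b ∧ ∃ v₁ : ℝ, 0 < v₁ ∧ ∀ v₀ : ℝ, 0 < v₀ →
    v₀ ≤ v₁ → ∃ A a q : ℝ, 0 < A ∧ 0 < a ∧ 0 < q ∧ ∃ L₀ : ℕ, ∀ L : ℕ, L₀ ≤ L → ∀ (n : ℕ) (y : ℤ), 1 ≤ n → n ≤ L →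
    sl μ s * n < (y : ℝ) → y ≤ n →
    (law μ).real {η | ¬ b * (n * Jt21 μ s v₀ (((y : ℝ) - sl μ s * n) / n)) - (L : ℝ) ^ e * EE μ s n ≤ X μ s η 0 n y} ≤
      A * Real.exp (-(a * (L : ℝ) ^ q)) := by
  have hc0 := h.c0
  have hc1 := h.c1
  obtain ⟨D, hD1, hD⟩ := Pool.Agent.W_7d29a1_HX.X40.d2_all h
  obtain ⟨K, hK⟩ : ∃ K : ℝ, K = D * D := ⟨_, rfl⟩
  have hK1 : 1 ≤ K := by
    rw [hK]
    nlinarith
  have hup : ∀ v : ℝ, 0 < v → J μ s v ≤ K * J μ s (v / 4) := by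
    intro v _
    have h1 := (hD (v / 2)).1
    have h2 := (hD (v / 4)).1
    rw [show 2 * (v / 2) = v by ring] at h1
    rw [show 2 * (v / 4) = v / 2 by ring] at h2
    rw [hK]
    calc J μ s v ≤ D * J μ s (v / 2) := h1
      _ ≤ D * (D * J μ s (v / 4)) := mul_le_mul_of_nonneg_left h2 (by linarith)
      _ = D * D * J μ s (v / 4) := by ring
  obtain ⟨Ka, hKa1, hsc⟩ := scale67 h
  obtain ⟨g, hg⟩ : ∃ g : ℝ, g = c / (4 * Ka) := ⟨_, rfl⟩
  have hg0 : 0 < g := by rw [hg]; positivity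
  have hgK : Ka * g = c / 4 := by
    rw [hg]
    field_simp
  have hg1 : g < 1 := by
    have : g ≤ Ka * g := le_mul_of_one_le_left hg0.le hKa1
    linarith
  obtain ⟨b, hb⟩ : ∃ b : ℝ, b = min 1 (2 * g / K) := ⟨_, rfl⟩
  have hb0 : 0 < b := by rw [hb]; positivity
  have hb1 : b ≤ 1 := hb ▸ min_le_left _ _
  have hbK : b * K ≤ 2 * g := by
    have : b ≤ 2 * g / K := hb ▸ min_le_right _ _
    rwa [le_div_iff₀ (by linarith)] at this
  obtain ⟨s₁, hs₁, n₂, L₁, hTL⟩ := hT (e / 2) 1 (g / 2) (by positivity) one_pos (by positivity)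
  obtain ⟨v₁, hv₁, hv₁h, hsc⟩ := hsc n₂
  obtain ⟨A₂, a₂, hA₂, ha₂, hlu⟩ := upper_V_exp h
  refine ⟨b, hb0, v₁, hv₁, fun v₀ hv₀ hv₀1 => ?_⟩
  have hv₀h : v₀ ≤ 1 := hv₀1.trans hv₁h
  have hKv : 1 ≤ K / v₀ := by
    rw [le_div_iff₀ hv₀]
    linarith
  have hs0 : 0 < min (e / 2) s₁ := lt_min (by positivity) hs₁
  obtain ⟨L₂, hL₂⟩ := eventually_atTop.1 (((tendsto_rpow_atTop (show 0 < e / 2 by positivity)).comp
    tendsto_natCast_atTop_atTop).eventually_ge_atTop (5 * (K / v₀)))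
  refine ⟨A₂ + 1, min a₂ 1, min (e / 2) s₁, by linarith, lt_min ha₂ one_pos, hs0, max (max L₁ L₂) 1, fun L hL n y hn hnL hny hyn => ?_⟩
  have hLL₁ : L₁ ≤ L := (le_max_left _ _).trans ((le_max_left _ _).trans hL)
  have hLL₂ : L₂ ≤ L := (le_max_right _ _).trans ((le_max_left _ _).trans hL)
  have hL1 : (1 : ℝ) ≤ L := by exact_mod_cast (le_max_right _ _).trans hL
  have hL0 : (0 : ℝ) < L := by linarith
  have hn0 : (0 : ℝ) < n := by exact_mod_cast hn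
  have hynR : (y : ℝ) ≤ n := by exact_mod_cast hyn
  have hEn := EE_pos (μ := μ) (s := s) n
  obtain ⟨Q, hQ⟩ : ∃ Q : ℝ, Q = (L : ℝ) ^ (e / 2) := ⟨_, rfl⟩
  have hQ1 : 1 ≤ Q := hQ ▸ Real.one_le_rpow hL1 (by positivity)
  have hQe : 5 * (K / v₀) * Q ≤ (L : ℝ) ^ e := by
    have h1 : 5 * (K / v₀) ≤ (L : ℝ) ^ (e / 2) := hL₂ L hLL₂
    have h2 : (L : ℝ) ^ e = (L : ℝ) ^ (e / 2) * (L : ℝ) ^ (e / 2) := by
      rw [← Real.rpow_add hL0]
      congr 1
      ring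
    rw [h2, hQ]
    exact mul_le_mul_of_nonneg_right h1 (by positivity)
  obtain ⟨u, hu⟩ : ∃ u : ℝ, u = ((y : ℝ) - sl μ s * n) / n := ⟨_, rfl⟩
  have hu0 : 0 < u := by rw [hu]; exact div_pos (by linarith) hn0
  obtain ⟨w, hw⟩ : ∃ w : ℝ, w = min u v₀ := ⟨_, rfl⟩
  have hw0 : 0 < w := by rw [hw]; exact lt_min hu0 hv₀
  have hwv : w ≤ v₀ := hw ▸ min_le_right _ _
  obtain ⟨r, hr2, hr1, hrv, hrv2, hrE, hrJ⟩ := hsc (w / 4) (by positivity) (by linarith)
  have hadm := adm67 hg0 (show 0 < w / 4 by positivity) hr1 hrv hrv2 hrE hrJ (by linarith)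
  obtain ⟨θ, hθ⟩ : ∃ θ : ℝ, θ = th21 μ s g (w / 4) := ⟨_, rfl⟩
  rw [← hθ] at hadm
  have hθ0 : 0 ≤ θ := by
    have hJ : 0 < J μ s (w / 4) := J_pos67 h (by positivity)
    rw [hθ]
    unfold th21
    positivity
  -- the two bad events
  have hcov : {η | ¬ b * (n * Jt21 μ s v₀ (((y : ℝ) - sl μ s * n) / n)) - (L : ℝ) ^ e * EE μ s n ≤ X μ s η 0 n y} ⊆
      {η | Q * EE μ s n ≤ V μ s η 0 n} ∪ {η | (r : ℝ) * Q ≤ n ∧ ¬ |V μ (s + θ) η 0 n| ≤ 1 * (n * ex μ s θ)} := by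
    intro η hη
    by_contra hcon
    apply hη
    rw [Set.mem_union, not_or, Set.mem_ofPred_eq, Set.mem_ofPred_eq, not_and, not_not, not_le] at hcon
    have h1 := en_det21 h (K := K) (g := g) (b := b) (v₀ := v₀) (Q := Q) (n := n) (r := r) (y := y) (η := η) hn hny hyn hg0 hg1 hK1
      hb0 hbK hb1 hv₀ hv₀h hup hQ1 hr1 (by rw [← hu, ← hw]; exact hrJ) (by
        refine hcon.1.le.trans (mul_le_mul_of_nonneg_right ?_ hEn.le)
        exact le_mul_of_one_le_left (by linarith) hKv) (by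
        rw [← hu, ← hw, ← hθ]
        exact hcon.2)
    have h2 := mul_le_mul_of_nonneg_right hQe hEn.le
    linarith
  have hp1 : (law μ).real {η | Q * EE μ s n ≤ V μ s η 0 n} ≤ A₂ * Real.exp (-(min a₂ 1 * (L : ℝ) ^ min (e / 2) s₁)) := by
    refine (hlu n hn Q (by linarith)).trans (mul_le_mul_of_nonneg_left (Real.exp_le_exp.2 ?_) hA₂.le)
    have h1 : (L : ℝ) ^ min (e / 2) s₁ ≤ Q := by
      rw [hQ]
      exact Real.rpow_le_rpow_of_exponent_le hL1 (min_le_left _ _)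
    have h2 : min a₂ 1 * (L : ℝ) ^ min (e / 2) s₁ ≤ a₂ * Q :=
      mul_le_mul (min_le_left _ _) h1 (by positivity) ha₂.le
    linarith
  have hp2 : (law μ).real {η | (r : ℝ) * Q ≤ n ∧ ¬ |V μ (s + θ) η 0 n| ≤ 1 * (n * ex μ s θ)} ≤
      1 * Real.exp (-(min a₂ 1 * (L : ℝ) ^ min (e / 2) s₁)) := by
    refine le_trans ?_ (le_of_eq (one_mul _).symm)
    by_cases hrn : (r : ℝ) * Q ≤ n
    · have h1 := hTL L hLL₁ r hr2 θ (by rw [abs_of_nonneg hθ0]; exact hadm.1) (by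
        rw [abs_of_nonneg hθ0]
        refine hadm.2.trans (le_of_eq ?_)
        rw [hgK]
        ring) n (by rw [← hQ]; exact hrn) hnL
      refine (measureReal_mono fun η hη => hη.2).trans (h1.trans (Real.exp_le_exp.2 ?_))
      have h2 : (L : ℝ) ^ min (e / 2) s₁ ≤ (L : ℝ) ^ s₁ := Real.rpow_le_rpow_of_exponent_le hL1 (min_le_right _ _)
      have h3 : min a₂ 1 * (L : ℝ) ^ min (e / 2) s₁ ≤ 1 * (L : ℝ) ^ s₁ :=
        mul_le_mul (min_le_right _ _) h2 (by positivity) zero_le_one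
      linarith
    · have e1 : {η : Env | (r : ℝ) * Q ≤ n ∧ ¬ |V μ (s + θ) η 0 n| ≤ 1 * (n * ex μ s θ)} = ∅ := by
        ext η
        simp only [Set.mem_ofPred_eq, Set.mem_empty_iff_false, iff_false, not_and]
        exact fun h1 => absurd h1 hrn
      rw [e1, measureReal_empty]
      exact (Real.exp_pos _).le
  refine (measureReal_mono hcov).trans ((measureReal_union_le _ _).trans ?_)
  rw [add_mul]
  exact add_le_add hp1 hp2

theorem X_start21 (a : Pt) (n : ℕ) (y : ℤ) (r : ℝ) :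
    (law μ).real {η | ¬ r ≤ X μ s η a n y} = (law μ).real {η | ¬ r ≤ X μ s η 0 n y} := by
  have hm : MeasurableSet {η : Env | ¬ r ≤ X μ s η 0 n y} :=
    (measurableSet_le measurable_const (Real.measurable_log.comp (measurable_W (μ := μ) (s := s) 0 n y)).neg).compl
  have h := real_sh (μ := μ) a hm
  have e1 : {η | sh a η ∈ {η : Env | ¬ r ≤ X μ s η 0 n y}} = {η | ¬ r ≤ X μ s η a n y} := by
    ext η
    simp only [Set.mem_ofPred_eq, X_sh, zero_add]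
  rw [← h, e1]

/-- **The energy of all the displacements to the right** (field `en` of `Env21`). -/
theorem en21P (h : In μ s c C n₀) (hT : TL67 μ s c) : ∀ e : ℝ, 0 < e → ∃ b : ℝ, 0 < b ∧ ∃ v₁ : ℝ, 0 < v₁ ∧ ∀ v₀ : ℝ, 0 < v₀ → v₀ ≤ v₁ →
    ∃ c' : ℝ, 0 < c' ∧ ∃ L₀ : ℕ, ∀ L : ℕ, L₀ ≤ L → ∀ R : ℕ, R ≤ L →
    (law μ).real {η | ¬ ∀ (t x : ℤ) (n : ℕ) (y : ℤ), 0 ≤ t → t + n ≤ R → |x| ≤ 3 * R → 1 ≤ n → sl μ s * n < (y : ℝ) → y ≤ n →
      b * (n * Jt21 μ s v₀ (((y : ℝ) - sl μ s * n) / n)) - (L : ℝ) ^ e * EE μ s n ≤ X μ s η (t, x) n y} ≤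
      Real.exp (-(L : ℝ) ^ c') := by
  intro e he
  obtain ⟨b, hb, v₁, hv₁, hone⟩ := en_one21 h hT he
  refine ⟨b, hb, v₁, hv₁, fun v₀ hv₀ hv₀1 => ?_⟩
  obtain ⟨A, a, q, hA, ha, hq, L₁, hL₁⟩ := hone v₀ hv₀ hv₀1
  obtain ⟨L₂, hL₂⟩ := eventually_atTop.1 (ev_pow94 4 (A := 6 * A) (a := a) (s := q) (c' := q / 2) (by positivity) ha (by linarith) hq)
  refine ⟨q / 2, by positivity, max (max L₁ L₂) 1, fun L hL R hR => ?_⟩
  have hLL₁ : L₁ ≤ L := (le_max_left _ _).trans ((le_max_left _ _).trans hL)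
  have hLL₂ : L₂ ≤ L := (le_max_right _ _).trans ((le_max_left _ _).trans hL)
  have hL1 : (1 : ℝ) ≤ L := by exact_mod_cast (le_max_right _ _).trans hL
  obtain ⟨I, hI⟩ : ∃ I : Finset ((ℤ × ℤ) × (ℕ × ℤ)), I = (Icc (0 : ℤ) R ×ˢ Icc (-(3 * R : ℤ)) (3 * R)) ×ˢ (Icc 1 R ×ˢ Icc (0 : ℤ) R) :=
    ⟨_, rfl⟩
  obtain ⟨B, hB⟩ : ∃ B : (ℤ × ℤ) × (ℕ × ℤ) → Set Env, B = fun q : (ℤ × ℤ) × (ℕ × ℤ) => {η : Env | (1 ≤ q.2.1 ∧ q.2.1 ≤ R ∧
      sl μ s * q.2.1 < (q.2.2 : ℝ) ∧ q.2.2 ≤ q.2.1) ∧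
      ¬ b * ((q.2.1 : ℝ) * Jt21 μ s v₀ (((q.2.2 : ℝ) - sl μ s * q.2.1) / q.2.1)) -
        (L : ℝ) ^ e * EE μ s q.2.1 ≤ X μ s η (q.1.1, q.1.2) q.2.1 q.2.2} := ⟨_, rfl⟩
  have hcov : {η | ¬ ∀ (t x : ℤ) (n : ℕ) (y : ℤ), 0 ≤ t → t + n ≤ R → |x| ≤ 3 * R → 1 ≤ n → sl μ s * n < (y : ℝ) → y ≤ n →
      b * (n * Jt21 μ s v₀ (((y : ℝ) - sl μ s * n) / n)) - (L : ℝ) ^ e * EE μ s n ≤ X μ s η (t, x) n y} ⊆ ⋃ q ∈ I, B q := by
    intro η hη
    rw [Set.mem_ofPred_eq] at hη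
    push Not at hη
    obtain ⟨t, x, n, y, h1, h2, h3, h4, h5, h6, h7⟩ := hη
    have hy0 : 0 ≤ y := by
      have g6 : (0 : ℝ) < y := lt_of_le_of_lt (mul_nonneg h.sl_pos.le (Nat.cast_nonneg n)) h5
      exact_mod_cast g6.le
    rw [Set.mem_iUnion₂]
    refine ⟨((t, x), (n, y)), ?_, ?_⟩
    · rw [abs_le] at h3
      rw [hI]
      simp only [mem_product, mem_Icc]
      omega
    · rw [hB]
      simp only [Set.mem_ofPred_eq, not_le]
      exact ⟨⟨h4, by omega, h5, h6⟩, h7⟩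
  have hBq : ∀ q' ∈ I, (law μ).real (B q') ≤ A * Real.exp (-(a * (L : ℝ) ^ q)) := by
    intro q' _
    rw [hB]
    by_cases hq' : 1 ≤ q'.2.1 ∧ q'.2.1 ≤ R ∧ sl μ s * q'.2.1 < (q'.2.2 : ℝ) ∧ q'.2.2 ≤ q'.2.1
    · obtain ⟨h1, h2, h3, h4⟩ := hq'
      have h5 := hL₁ L hLL₁ q'.2.1 q'.2.2 h1 (h2.trans hR) h3 h4
      rw [← X_start21 (μ := μ) (q'.1.1, q'.1.2)] at h5
      exact (measureReal_mono fun η hη => hη.2).trans h5
    · have e1 : {η : Env | (1 ≤ q'.2.1 ∧ q'.2.1 ≤ R ∧ sl μ s * q'.2.1 < (q'.2.2 : ℝ) ∧ q'.2.2 ≤ q'.2.1) ∧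
          ¬ b * ((q'.2.1 : ℝ) * Jt21 μ s v₀ (((q'.2.2 : ℝ) - sl μ s * q'.2.1) / q'.2.1)) -
            (L : ℝ) ^ e * EE μ s q'.2.1 ≤ X μ s η (q'.1.1, q'.1.2) q'.2.1 q'.2.2} = ∅ := by
        ext η
        simp only [Set.mem_ofPred_eq, Set.mem_empty_iff_false, iff_false]
        exact fun h1 => hq' h1.1
      show (law μ).real {η : Env | _} ≤ _
      rw [e1, measureReal_empty]
      positivity
  have hcard : (I.card : ℝ) ≤ 6 * ((L : ℝ) + 1) ^ 4 := by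
    have h1 : I.card ≤ (R + 1) * (6 * (R + 1)) * ((R + 1) * (R + 1)) := by
      have h0 : (Icc 1 R).card = R := by simp
      rw [hI, card_product, card_product, card_product, Int.card_Icc, Int.card_Icc, h0]
      refine Nat.mul_le_mul (Nat.mul_le_mul ?_ ?_) (Nat.mul_le_mul ?_ ?_) <;> omega
    have hRL : (R : ℝ) ≤ L := by exact_mod_cast hR
    have h2 : (I.card : ℝ) ≤ ((R : ℝ) + 1) * (6 * (R + 1)) * (((R : ℝ) + 1) * ((R : ℝ) + 1)) := by exact_mod_cast h1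
    refine h2.trans ?_
    have hR0 : (0 : ℝ) ≤ R := Nat.cast_nonneg _
    calc ((R : ℝ) + 1) * (6 * (R + 1)) * (((R : ℝ) + 1) * ((R : ℝ) + 1)) = 6 * ((R : ℝ) + 1) ^ 4 := by ring
      _ ≤ 6 * ((L : ℝ) + 1) ^ 4 := by gcongr
  have h5 := hL₂ L hLL₂
  have hx := (Real.exp_pos (-(L : ℝ) ^ (q / 2))).le
  calc _ ≤ (law μ).real (⋃ q ∈ I, B q) := measureReal_mono hcov (measure_ne_top _ _)
    _ ≤ ∑ q ∈ I, (law μ).real (B q) := measureReal_biUnion_finset_le _ _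
    _ ≤ ∑ _q ∈ I, A * Real.exp (-(a * (L : ℝ) ^ q)) := sum_le_sum hBq
    _ = I.card * (A * Real.exp (-(a * (L : ℝ) ^ q))) := by rw [sum_const, nsmul_eq_mul]
    _ ≤ 6 * ((L : ℝ) + 1) ^ 4 * (A * Real.exp (-(a * (L : ℝ) ^ q))) := mul_le_mul_of_nonneg_right hcard (by positivity)
    _ = ((L : ℝ) + 1) ^ 4 * (6 * A * Real.exp (-(a * (L : ℝ) ^ q))) := by ring
    _ ≤ _ := by linarith

/-- **The regular environments** at one tilt (both sides: use `h` and `h.mir`). -/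
theorem envP67 (h : In μ s c C n₀) (hT : TL67 μ s c) : EnvP21 μ s c := env_of94 h hT (en21P h hT)

end Pool.Agent.W_7d29a1_HZ.Z21
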