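import Pool.Agent.W_7d29a1_HZ.Z94_TiltB
import Pool.Agent.W_7d29a1_HS.Mom
import Pool.Agent.W_7d29a1_G.SecA3
import Pool.Agent.W_7d29a1_LE.LE

/-!
MP_7d29a1_pr, STORM Z, NS (1) = the law of large numbers at a small tilt `t`, `|t| wd r ≤ (c / 2) EE r`: (T1) the exponential
moment of the luck `V μ t` of all lengths at the unit `EE r` (cell kernels, the field `luck` of `In` at the tilts `t + t'` and
`t - t'`), (T1') the mean, (T2a) the centred log moments at smaller orders (doubling inequality). helper62, for helper94.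
-/

set_option autoImplicit false

namespace Pool.Agent.W_7d29a1_HZ.Z94

open MeasureTheory ProbabilityTheory Filter Topology
open Pool.Agent.W_7d29a1_F Pool.Agent.W_7d29a1_h4g Pool.Agent.W_7d29a1_H Pool.Agent.W_7d29a1_HS
open Pool.Agent.W_7d29a1_L (Mh T kap Bx mem_Bx exp_T le_Mh Sub_Mh)
open Pool.Agent.W_7d29a1_G20 (Bk Gk Mom Bk_dom Gk_dom Gk_iter Gk_mom le_Gk Dom sum_Bk_le)

variable {μ : Measure ℝ} [IsProbabilityMeasure μ] {s c C : ℝ} {n₀ : ℕ}

omit [IsProbabilityMeasure μ] in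
/-- The tilted luck in terms of the tilted luck at the base tilt `s`. -/
theorem T_LL (s t h : ℝ) (η : Env) (a : Pt) (n : ℕ) :
    T μ (s + t) (sl μ s) h η a n = T μ s (sl μ s) (t + h) η a n - n * ex μ s t := by
  unfold T kap ex
  rw [add_assoc]
  ring

omit [IsProbabilityMeasure μ] in
theorem V_LL (s t : ℝ) (η : Env) (a : Pt) (n : ℕ) : V μ (s + t) η a n = T μ s (sl μ s) t η a n - n * ex μ s t := by
  unfold T kap ex
  ring

theorem T_le (hEM : Pool.Agent.W_7d29a1_h47.EM μ) (hnd : Pool.Agent.W_7d29a1_h47.Nondeg μ) (s t h : ℝ) (η : Env) (a : Pt) (n : ℕ) :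
    T μ (s + t) (sl μ s) h η a n ≤ T μ s (sl μ s) (t + h) η a n := by
  rw [T_LL]
  have h1 := ex_nonneg hEM hnd s t
  have h2 : (0 : ℝ) ≤ n * ex μ s t := mul_nonneg (Nat.cast_nonneg _) h1
  linarith

theorem V_le_T (hEM : Pool.Agent.W_7d29a1_h47.EM μ) (hnd : Pool.Agent.W_7d29a1_h47.Nondeg μ) (s t : ℝ) (η : Env) (a : Pt) (n : ℕ) :
    V μ (s + t) η a n ≤ T μ s (sl μ s) t η a n := by
  rw [V_LL]
  have h1 := ex_nonneg hEM hnd s t
  have h2 : (0 : ℝ) ≤ n * ex μ s t := mul_nonneg (Nat.cast_nonneg _) h1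
  linarith

omit [IsProbabilityMeasure μ] in
/-- A part of the end points, all of them at the distance at least `r` on one side. -/
private lemma tb_part {s v h r : ℝ} (η : Env) (a : Pt) (n : ℕ) (w : ℕ) (f : ℕ → ℤ) (hf : Function.Injective f)
    (hr : ∀ l < w, h * r ≤ h * ((f l : ℝ) - v * n)) :
    ∑ l ∈ Finset.range w, W μ s η a n (f l) ≤ Real.exp (T μ s v h η a n - h * r) := by
  rw [Real.exp_sub, le_div_iff₀ (Real.exp_pos _), Finset.sum_mul, exp_T]
  have h1 : ∀ l ∈ Finset.range w, W μ s η a n (f l) * Real.exp (h * r) ≤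
      W μ s η a n (f l) * Real.exp (h * ((f l : ℝ) - v * n)) := fun l hl =>
    mul_le_mul_of_nonneg_left (Real.exp_le_exp.2 (hr l (Finset.mem_range.1 hl))) (W_nonneg _ _ _ _)
  refine (Finset.sum_le_sum h1).trans ?_
  have h2 : ∑ l ∈ Finset.range w, W μ s η a n (f l) * Real.exp (h * ((f l : ℝ) - v * n)) =
      ∑ y ∈ (Finset.range w).image f, W μ s η a n y * Real.exp (h * ((y : ℝ) - v * n)) := by
    rw [Finset.sum_image fun x _ y _ hxy => hf hxy]
  rw [h2]
  have h3 : ∑ y ∈ (Finset.range w).image f, W μ s η a n y * Real.exp (h * ((y : ℝ) - v * n)) =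
      ∑ y ∈ ((Finset.range w).image f).filter (fun y : ℤ => 0 ≤ y ∧ y ≤ n),
        W μ s η a n y * Real.exp (h * ((y : ℝ) - v * n)) := by
    rw [Finset.sum_filter_of_ne]
    intro y _ hy
    by_contra hcon
    exact hy (by rw [W_eq_zero η a hcon, zero_mul])
  rw [h3]
  refine Finset.sum_le_sum_of_subset_of_nonneg ?_ fun y _ _ => mul_nonneg (W_nonneg _ _ _ _) (Real.exp_nonneg _)
  intro y hy
  rw [Finset.mem_filter] at hy
  exact Finset.mem_Icc.2 hy.2

/-- One block: the kernel to the cell `k` against the two tilted lucks. -/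
private lemma tb_Bk (hI : In μ s c C n₀) {t h : ℝ} (hh : 0 ≤ h) {w : ℕ} (hw : 0 < w) {W' : ℝ}
    (hW : (w : ℝ) ≤ W') (n : ℕ) (k : ℤ) (η : Env) :
    Bk μ (s + t) w n (md μ s n) k η ≤
      Real.exp (max (Mh μ s (sl μ s) (t + h) W' (-1) (4 * n) η) (Mh μ s (sl μ s) (t + -h) W' (-1) (4 * n) η) -
        h * (max (|(k : ℝ)| - 1) 0 * w)) := by
  have : Nonempty (Fin w) := ⟨⟨0, hw⟩⟩
  refine ciSup_le fun i => ?_
  obtain ⟨i, hi⟩ := i
  have hv0 : (0 : ℝ) ≤ sl μ s := hI.sl_pos.le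
  have hv1 : sl μ s ≤ 1 := hI.sl_lt.le
  have hiR : (i : ℝ) + 1 ≤ w := by exact_mod_cast hi
  have hi0 : (0 : ℝ) ≤ i := Nat.cast_nonneg i
  have hT : ∀ h' : ℝ, T μ (s + t) (sl μ s) h' η (0, (i : ℤ)) n ≤ Mh μ s (sl μ s) (t + h') W' (-1) (4 * n) η := by
    intro h'
    refine (T_le hI.em hI.nd s t h' η _ n).trans ?_
    refine le_Mh (μ := μ) (s := s) (v := sl μ s) (h := t + h') (w := W') (z := -1) (n := 4 * n) η
      (q := ((0, (i : ℤ)), n)) ((mem_Bx hv0 hv1).2 ⟨by dsimp only; omega, ?_, ?_⟩)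
    · push_cast
      linarith
    · push_cast
      linarith
  have hD1 : ((md μ s n : ℤ) : ℝ) ≤ sl μ s * n := md_le n
  have hD2 : sl μ s * (n : ℝ) - 1 ≤ ((md μ s n : ℤ) : ℝ) := by
    have := lt_md (μ := μ) (s := s) n
    linarith
  have hinj : Function.Injective fun l : ℕ => md μ s n + k * w + (l : ℤ) - (i : ℕ) := by
    intro l l' hl
    simp only at hl
    omega
  have hM : ∀ h' : ℝ, (h' = h ∨ h' = -h) → Mh μ s (sl μ s) (t + h') W' (-1) (4 * n) η ≤
      max (Mh μ s (sl μ s) (t + h) W' (-1) (4 * n) η) (Mh μ s (sl μ s) (t + -h) W' (-1) (4 * n) η) := by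
    rintro h' (rfl | rfl)
    · exact le_max_left _ _
    · exact le_max_right _ _
  rcases lt_or_ge k 1 with hk | hk
  · rcases lt_or_ge k 0 with hk0 | hk0
    · -- to the left
      have hkR : (k : ℝ) ≤ -1 := by exact_mod_cast (by omega : k ≤ -1)
      have hab : max (|(k : ℝ)| - 1) 0 = -k - 1 := by
        rw [abs_of_nonpos (by linarith), max_eq_left (by linarith)]
      refine (tb_part (μ := μ) (s := s + t) (v := sl μ s) (h := -h) (r := -((-k - 1) * w)) η (0, (i : ℤ)) n w _ hinj ?_).trans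
        (Real.exp_le_exp.2 ?_)
      · intro l hl
        have hlR : (l : ℝ) + 1 ≤ w := by exact_mod_cast hl
        push_cast
        have h1 : ((md μ s n : ℤ) : ℝ) + k * w + l - i - sl μ s * n ≤ -((-k - 1) * w) := by
          have : -((-(k : ℝ) - 1) * w) = k * w + w := by ring
          rw [this]
          linarith
        have := mul_le_mul_of_nonneg_left h1 hh
        linarith
      · rw [hab]
        have h1 := (hT (-h)).trans (hM (-h) (Or.inr rfl))
        have h2 : -h * -((-(k : ℝ) - 1) * w) = h * ((-(k : ℝ) - 1) * w) := by ring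
        linarith
    · -- the same cell
      have hk1 : k = 0 := by omega
      subst hk1
      have hab : max (|((0 : ℤ) : ℝ)| - 1) 0 = 0 := by
        rw [Int.cast_zero, abs_zero, max_eq_right (by norm_num)]
      rw [hab, zero_mul ((w : ℕ) : ℝ), mul_zero h, sub_zero]
      have h0 := tb_part (μ := μ) (s := s + t) (v := sl μ s) (h := 0) (r := 0) η (0, (i : ℤ)) n w _ hinj (fun l hl => by simp)
      refine h0.trans (Real.exp_le_exp.2 ?_)
      rw [zero_mul, sub_zero]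
      -- `T` at the tilt `0` is at most the maximum of the two tilts
      have e1 : Real.exp (T μ (s + t) (sl μ s) 0 η (0, (i : ℤ)) n) ≤
          Real.exp (max (Mh μ s (sl μ s) (t + h) W' (-1) (4 * n) η) (Mh μ s (sl μ s) (t + -h) W' (-1) (4 * n) η)) := by
        have p1 : ∀ y : ℤ, W μ (s + t) η (0, (i : ℤ)) n y * Real.exp (0 * ((y : ℝ) - sl μ s * n)) ≤
            (W μ (s + t) η (0, (i : ℤ)) n y * Real.exp (h * ((y : ℝ) - sl μ s * n)) +
              W μ (s + t) η (0, (i : ℤ)) n y * Real.exp (-h * ((y : ℝ) - sl μ s * n))) / 2 := by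
          intro y
          have q1 := Real.add_one_le_exp (h * ((y : ℝ) - sl μ s * n))
          have q2 := Real.add_one_le_exp (-h * ((y : ℝ) - sl μ s * n))
          have q3 := W_nonneg (μ := μ) (s := s + t) η (0, (i : ℤ)) n y
          rw [zero_mul, Real.exp_zero]
          nlinarith
        have p2 : Real.exp (T μ (s + t) (sl μ s) 0 η (0, (i : ℤ)) n) ≤
            (Real.exp (T μ (s + t) (sl μ s) h η (0, (i : ℤ)) n) + Real.exp (T μ (s + t) (sl μ s) (-h) η (0, (i : ℤ)) n)) / 2 := by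
          rw [exp_T, exp_T, exp_T, ← Finset.sum_add_distrib, Finset.sum_div]
          exact Finset.sum_le_sum fun y _ => p1 y
        have p3 := Real.exp_le_exp.2 ((hT h).trans (hM h (Or.inl rfl)))
        have p4 := Real.exp_le_exp.2 ((hT (-h)).trans (hM (-h) (Or.inr rfl)))
        linarith
      exact Real.exp_le_exp.1 e1
  · -- to the right
    have hkR : (1 : ℝ) ≤ k := by exact_mod_cast hk
    have hab : max (|(k : ℝ)| - 1) 0 = k - 1 := by
      rw [abs_of_nonneg (by linarith), max_eq_left (by linarith)]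
    refine (tb_part (μ := μ) (s := s + t) (v := sl μ s) (h := h) (r := (k - 1) * w) η (0, (i : ℤ)) n w _ hinj ?_).trans
      (Real.exp_le_exp.2 ?_)
    · intro l hl
      have hl0 : (0 : ℝ) ≤ l := Nat.cast_nonneg l
      push_cast
      have h1 : ((k : ℝ) - 1) * w ≤ ((md μ s n : ℤ) : ℝ) + k * w + l - i - sl μ s * n := by
        have : ((k : ℝ) - 1) * w = k * w - w := by ring
        rw [this]
        linarith
      exact mul_le_mul_of_nonneg_left h1 hh
    · rw [hab]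
      have h1 := (hT h).trans (hM h (Or.inl rfl))
      linarith

/-- The moment of one block at a small tilt, at the unit of the block. -/
theorem tb_Mom (h : In μ s c C n₀) : ∃ n₁ : ℕ, n₀ ≤ n₁ ∧ 1 ≤ n₁ ∧ ∀ n, n₁ ≤ n → 4 ≤ wd μ s n ∧ 0 < ⌊wd μ s n⌋₊ ∧
    ∀ τ : ℝ, |τ| * wd μ s n ≤ c / 2 * EE μ s n →
    Mom μ (s + τ) (1 / (C * EE μ s n)) ⌊wd μ s n⌋₊ n (md μ s n) (2 * C * Real.exp (c / 2 / (2 * C)))
      (Real.exp (-(c / 2 / (6 * C)))) := by
  obtain ⟨n₂, hn₂⟩ := eventually_atTop.1 ((wd_tendsto h).eventually_ge_atTop 4)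
  refine ⟨max (max n₀ n₂) 1, (le_max_left _ _).trans (le_max_left _ _), le_max_right _ _, fun n hn => ?_⟩
  have hn0 : n₀ ≤ n := (le_max_left _ _).trans ((le_max_left _ _).trans hn)
  have hn2 : n₂ ≤ n := (le_max_right _ _).trans ((le_max_left _ _).trans hn)
  have hw4 : 4 ≤ wd μ s n := hn₂ n hn2
  have hw0 : 0 < wd μ s n := by linarith
  have hE1 : 1 ≤ EE μ s n := one_le_EE n
  have hE0 : 0 < EE μ s n := by linarith
  have hC0 : 0 < C := lt_of_lt_of_le one_pos h.C1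
  have hc0 : 0 < c / 2 := by have := h.c0; linarith
  have hCE : 0 < C * EE μ s n := mul_pos hC0 hE0
  obtain ⟨w, hwd⟩ : ∃ w : ℕ, w = ⌊wd μ s n⌋₊ := ⟨_, rfl⟩
  have hw1 : (w : ℝ) ≤ wd μ s n := by rw [hwd]; exact Nat.floor_le hw0.le
  have hw2 : wd μ s n < w + 1 := by rw [hwd]; exact Nat.lt_floor_add_one _
  have hw3 : wd μ s n / 2 ≤ w := by linarith
  have hwp : 0 < w := by
    have : (0 : ℝ) < w := by linarith
    exact_mod_cast this
  rw [← hwd]
  refine ⟨hw4, hwp, fun τ hs k => ?_⟩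
  obtain ⟨t, htd⟩ : ∃ t : ℝ, t = c / 2 * EE μ s n / wd μ s n := ⟨_, rfl⟩
  have ht0 : 0 ≤ t := by rw [htd]; positivity
  have htw : t * wd μ s n = c / 2 * EE μ s n := by rw [htd]; field_simp
  have habs1 : |τ + t| * wd μ s n ≤ c * EE μ s n := by
    have h1 : |τ + t| * wd μ s n ≤ (|τ| + |t|) * wd μ s n := mul_le_mul_of_nonneg_right (abs_add_le τ t) hw0.le
    rw [add_mul, abs_of_nonneg ht0, htw] at h1
    linarith
  have habs2 : |τ + -t| * wd μ s n ≤ c * EE μ s n := by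
    have h1 : |τ + -t| * wd μ s n ≤ (|τ| + |-t|) * wd μ s n := mul_le_mul_of_nonneg_right (abs_add_le τ (-t)) hw0.le
    rw [add_mul, abs_neg, abs_of_nonneg ht0, htw] at h1
    linarith
  obtain ⟨θ, hθd⟩ : ∃ θ : ℝ, θ = 1 / (C * EE μ s n) := ⟨_, rfl⟩
  have hθ0 : 0 < θ := by rw [hθd]; positivity
  rw [← hθd]
  obtain ⟨M1, hM1⟩ : ∃ M1 : Env → ℝ, M1 = fun η => Mh μ s (sl μ s) (τ + t) (wd μ s n) (-1) (4 * n) η := ⟨_, rfl⟩
  obtain ⟨M2, hM2⟩ : ∃ M2 : Env → ℝ, M2 = fun η => Mh μ s (sl μ s) (τ + -t) (wd μ s n) (-1) (4 * n) η := ⟨_, rfl⟩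
  have hS1 : Sub M1 := by rw [hM1]; exact Sub_Mh
  have hS2 : Sub M2 := by rw [hM2]; exact Sub_Mh
  have hI1 : Integrable (fun η => Real.exp (θ * M1 η)) (law μ) := (hS1.const_mul θ).exp_int h.em
  have hI2 : Integrable (fun η => Real.exp (θ * M2 η)) (law μ) := (hS2.const_mul θ).exp_int h.em
  have hB1 : ∫ η, Real.exp (θ * M1 η) ∂(law μ) ≤ C := by
    refine le_trans (le_of_eq ?_) (h.luck n hn0 (τ + t) (-1) habs1)
    refine integral_congr_ae (Eventually.of_forall fun η => ?_)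
    show Real.exp (θ * M1 η) = _
    rw [hM1, hθd]
    congr 1
    ring
  have hB2 : ∫ η, Real.exp (θ * M2 η) ∂(law μ) ≤ C := by
    refine le_trans (le_of_eq ?_) (h.luck n hn0 (τ + -t) (-1) habs2)
    refine integral_congr_ae (Eventually.of_forall fun η => ?_)
    show Real.exp (θ * M2 η) = _
    rw [hM2, hθd]
    congr 1
    ring
  obtain ⟨r, hr⟩ : ∃ r : ℝ, r = max (|(k : ℝ)| - 1) 0 := ⟨_, rfl⟩
  have hr0 : 0 ≤ r := by rw [hr]; exact le_max_right _ _
  have hpt : ∀ η, Bk μ (s + τ) w n (md μ s n) k η ^ θ ≤ Real.exp (-(θ * (t * (r * w)))) * (Real.exp (θ * M1 η) + Real.exp (θ * M2 η)) := by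
    intro η
    have h1 := tb_Bk (μ := μ) h (t := τ) ht0 hwp hw1 n k η
    have h2 := Real.rpow_le_rpow ((Bk_dom (μ := μ) (s := s + τ) hwp n (md μ s n) k).nonneg η) h1 hθ0.le
    refine h2.trans ?_
    rw [← Real.exp_mul, ← hr]
    have e1 : (max (Mh μ s (sl μ s) (τ + t) (wd μ s n) (-1) (4 * n) η) (Mh μ s (sl μ s) (τ + -t) (wd μ s n) (-1) (4 * n) η) -
        t * (r * w)) * θ = -(θ * (t * (r * w))) + θ * max (M1 η) (M2 η) := by
      rw [hM1, hM2]
      ring
    rw [e1, Real.exp_add]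
    refine mul_le_mul_of_nonneg_left ?_ (Real.exp_nonneg _)
    rcases le_total (M1 η) (M2 η) with h3 | h3
    · rw [max_eq_right h3]
      linarith [Real.exp_pos (θ * M1 η)]
    · rw [max_eq_left h3]
      linarith [Real.exp_pos (θ * M2 η)]
  have hint : ∫ η, Bk μ (s + τ) w n (md μ s n) k η ^ θ ∂(law μ) ≤ Real.exp (-(θ * (t * (r * w)))) * (C + C) := by
    calc ∫ η, Bk μ (s + τ) w n (md μ s n) k η ^ θ ∂(law μ)
        ≤ ∫ η, Real.exp (-(θ * (t * (r * w)))) * (Real.exp (θ * M1 η) + Real.exp (θ * M2 η)) ∂(law μ) :=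
          integral_mono ((Bk_dom (μ := μ) (s := s + τ) hwp n (md μ s n) k).rpow_int h.em hθ0.le)
            ((hI1.add hI2).const_mul _) hpt
      _ = Real.exp (-(θ * (t * (r * w)))) * ((∫ η, Real.exp (θ * M1 η) ∂(law μ)) + ∫ η, Real.exp (θ * M2 η) ∂(law μ)) := by
          rw [integral_const_mul, integral_add hI1 hI2]
      _ ≤ _ := mul_le_mul_of_nonneg_left (add_le_add hB1 hB2) (Real.exp_nonneg _)
  refine hint.trans ?_
  -- the exponent
  obtain ⟨b, hb⟩ : ∃ b : ℝ, b = c / 2 := ⟨_, rfl⟩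
  rw [← hb] at htw hc0 ⊢
  have h1 : b / (2 * C) ≤ θ * (t * w) := by
    have h2 : b * EE μ s n / 2 ≤ t * w := by
      have := mul_le_mul_of_nonneg_left hw3 ht0
      have h3 : t * (wd μ s n / 2) = t * wd μ s n / 2 := by ring
      rw [h3, htw] at this
      exact this
    have h4 := mul_le_mul_of_nonneg_left h2 hθ0.le
    refine le_trans (le_of_eq ?_) h4
    rw [hθd]
    field_simp
  have h5 : b / (2 * C) * r ≤ θ * (t * (r * w)) := by
    have := mul_le_mul_of_nonneg_right h1 hr0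
    have h6 : θ * (t * w) * r = θ * (t * (r * w)) := by ring
    linarith
  have h6 : |(k : ℝ)| - 1 ≤ r := by rw [hr]; exact le_max_left _ _
  have h7 : Real.exp (-(θ * (t * (r * w)))) ≤ Real.exp (b / (2 * C)) * Real.exp (-(b / (6 * C))) ^ (3 * k.natAbs) := by
    rw [← Real.exp_nat_mul, ← Real.exp_add]
    refine Real.exp_le_exp.2 ?_
    have hk : ((k.natAbs : ℕ) : ℝ) = |(k : ℝ)| := by
      rw [← Int.cast_natCast, Int.natCast_natAbs, Int.cast_abs]
    push_cast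
    rw [hk]
    have h8 : b / (2 * C) * (|(k : ℝ)| - 1) ≤ b / (2 * C) * r := mul_le_mul_of_nonneg_left h6 (by positivity)
    have h9 : 3 * |(k : ℝ)| * -(b / (6 * C)) = -(b / (2 * C) * |(k : ℝ)|) := by
      field_simp
      ring
    rw [h9]
    nlinarith
  have h8 : 0 ≤ C + C := by linarith
  calc Real.exp (-(θ * (t * (r * w)))) * (C + C)
      ≤ (Real.exp (b / (2 * C)) * Real.exp (-(b / (6 * C))) ^ (3 * k.natAbs)) * (C + C) :=
        mul_le_mul_of_nonneg_right h7 h8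
    _ = _ := by ring

/-- **(T1) The exponential moment of the luck at a small tilt**, all lengths, at the unit of the scale `r`. -/
theorem mom_tilt (h : In μ s c C n₀) : ∃ B : ℝ, 1 ≤ B ∧ ∃ n₁ : ℕ, n₀ ≤ n₁ ∧ 1 ≤ n₁ ∧ ∀ r, n₁ ≤ r → ∀ t : ℝ,
    |t| * wd μ s r ≤ c / 2 * EE μ s r → ∀ n : ℕ,
    ∫ η, Real.exp (1 / (C * EE μ s r) * V μ (s + t) η 0 n) ∂(law μ) ≤ B ^ (n / r + 1) := by
  obtain ⟨n₁, hn0, hn1, hM⟩ := tb_Mom h
  have hC0 : 0 < C := lt_of_lt_of_le one_pos h.C1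
  have hc0 : 0 < c / 2 := by have := h.c0; linarith
  have hρ0 : 0 ≤ Real.exp (-(c / 2 / (6 * C))) := Real.exp_nonneg _
  have hρ1 : Real.exp (-(c / 2 / (6 * C))) < 1 := by
    rw [Real.exp_lt_one_iff]
    have : 0 < c / 2 / (6 * C) := by positivity
    linarith
  have hC' : 1 ≤ 2 * C * Real.exp (c / 2 / (2 * C)) := by
    have h1 : 1 ≤ Real.exp (c / 2 / (2 * C)) := Real.one_le_exp (by positivity)
    have h2 := h.C1
    nlinarith
  obtain ⟨K, hK⟩ : ∃ K : ℝ, K = 2 * C * Real.exp (c / 2 / (2 * C)) * (2 / (1 - Real.exp (-(c / 2 / (6 * C))))) :=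
    ⟨_, rfl⟩
  have hK1 : 1 ≤ K := by
    have h1 := Pool.Agent.W_7d29a1_G20.one_le_two_div hρ0 hρ1
    rw [hK]
    nlinarith
  have hKC : 1 ≤ K * C := one_le_mul_of_one_le_of_one_le hK1 h.C1
  refine ⟨K * C, hKC, n₁, hn0, hn1, fun r hr t ht n => ?_⟩
  obtain ⟨hw4, hw, hMo'⟩ := hM r hr
  have hMo := hMo' t ht
  have hr1 : 1 ≤ r := hn1.trans hr
  have hE1 : 1 ≤ EE μ s r := one_le_EE r
  have hE0 : 0 < EE μ s r := by linarith
  have hCE : 1 ≤ C * EE μ s r := one_le_mul_of_one_le_of_one_le h.C1 hE1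
  have hθ0 : 0 < 1 / (C * EE μ s r) := by positivity
  have hθ1 : 1 / (C * EE μ s r) ≤ 1 := by
    rw [div_le_one (by linarith)]
    exact hCE
  obtain ⟨θ, hθ⟩ : ∃ θ : ℝ, θ = 1 / (C * EE μ s r) := ⟨_, rfl⟩
  rw [← hθ] at hMo hθ0 hθ1 ⊢
  obtain ⟨w, hwd⟩ : ∃ w : ℕ, w = ⌊wd μ s r⌋₊ := ⟨_, rfl⟩
  rw [← hwd] at hMo hw
  have hw1 : (w : ℝ) ≤ wd μ s r := by rw [hwd]; exact Nat.floor_le (by linarith)
  have hV0 : 0 < wd μ s r := by linarith
  -- the remainder
  obtain ⟨m, hm⟩ : ∃ m : ℕ, m = n % r := ⟨_, rfl⟩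
  have hmr : m < r := by rw [hm]; exact Nat.mod_lt _ (by omega)
  have hrem : ∫ η, Gk μ (s + t) w m η ^ θ ∂(law μ) ≤ C := by
    have hc1 := h.c0
    have h1 := h.luck r (hn0.trans hr) t (-1) (by
      refine ht.trans ?_
      have : 0 ≤ c * EE μ s r := by positivity
      linarith)
    have hSM : Sub fun η => Mh μ s (sl μ s) t (wd μ s r) (-1) (4 * r) η := Sub_Mh
    have h2 : ∀ η, Gk μ (s + t) w m η ^ θ ≤ Real.exp (θ * Mh μ s (sl μ s) t (wd μ s r) (-1) (4 * r) η) := by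
      intro η
      have : Nonempty (Fin w) := ⟨⟨0, hw⟩⟩
      have h3 : Gk μ (s + t) w m η ≤ Real.exp (Mh μ s (sl μ s) t (wd μ s r) (-1) (4 * r) η) := by
        refine ciSup_le fun i => ?_
        obtain ⟨i, hi⟩ := i
        refine Real.exp_le_exp.2 ((V_le_T h.em h.nd s t η _ m).trans ?_)
        have hiR : (i : ℝ) + 1 ≤ w := by exact_mod_cast hi
        have hi0 : (0 : ℝ) ≤ i := Nat.cast_nonneg i
        refine le_Mh (μ := μ) (s := s) (v := sl μ s) (h := t) (w := wd μ s r) (z := -1) (n := 4 * r) η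
          (q := ((0, (i : ℤ)), m)) ((mem_Bx h.sl_pos.le h.sl_lt.le).2 ⟨by dsimp only; omega, ?_, ?_⟩)
        · push_cast
          linarith
        · push_cast
          linarith
      have h4 := Real.rpow_le_rpow ((Gk_dom (μ := μ) (s := s + t) hw m).nonneg η) h3 hθ0.le
      refine h4.trans (le_of_eq ?_)
      rw [← Real.exp_mul, mul_comm]
    have h5 : ∫ η, Gk μ (s + t) w m η ^ θ ∂(law μ) ≤
        ∫ η, Real.exp (θ * Mh μ s (sl μ s) t (wd μ s r) (-1) (4 * r) η) ∂(law μ) :=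
      integral_mono ((Gk_dom (μ := μ) (s := s + t) hw m).rpow_int h.em hθ0.le) ((hSM.const_mul θ).exp_int h.em) h2
    refine h5.trans (le_trans (le_of_eq ?_) h1)
    refine integral_congr_ae (Eventually.of_forall fun η => ?_)
    show Real.exp (θ * Mh μ s (sl μ s) t (wd μ s r) (-1) (4 * r) η) = _
    rw [hθ]
    congr 1
    ring
  -- the blocks
  have hiter : ∀ M : ℕ, ∫ η, Gk μ (s + t) w (M * r + m) η ^ θ ∂(law μ) ≤ K ^ M * C := by
    intro M
    induction M with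
    | zero =>
      rw [Nat.zero_mul, Nat.zero_add, pow_zero, one_mul]
      exact hrem
    | succ M ih =>
      have e1 : (M + 1) * r + m = r + (M * r + m) := by ring
      have hL0 : (0 : ℤ) ≤ r := by positivity
      have hwz : (1 : ℤ) ≤ w := by exact_mod_cast hw
      have hd0 := h.md_nonneg r
      have hd1 := h.md_le_nat r
      have hJ1 : md μ s r ≤ (r : ℕ) * w := by nlinarith
      have hJ2 : ((r : ℕ) : ℤ) ≤ md μ s r + (r : ℕ) * w := by nlinarith
      rw [e1]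
      refine (Gk_mom (s := s + t) h.em hθ0 hθ1 hw r (M * r + m) (md μ s r) r hJ1 hJ2).trans ?_
      have h1 := sum_Bk_le (μ := μ) (s := s + t) h.em hC' hρ0 hρ1 hMo r
      rw [← hK] at h1
      have h2 : 0 ≤ ∫ η, Gk μ (s + t) w (M * r + m) η ^ θ ∂(law μ) :=
        integral_nonneg fun η => Real.rpow_nonneg ((Gk_dom (μ := μ) hw _).nonneg η) _
      calc _ ≤ K * (K ^ M * C) := mul_le_mul h1 ih h2 (by linarith)
        _ = K ^ (M + 1) * C := by ring
  have hn : n / r * r + m = n := by rw [hm]; exact Nat.div_add_mod' n r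
  have h1 := hiter (n / r)
  rw [hn] at h1
  have h2 : ∫ η, Real.exp (θ * V μ (s + t) η 0 n) ∂(law μ) ≤ ∫ η, Gk μ (s + t) w n η ^ θ ∂(law μ) := by
    refine integral_mono (((Sub_V (μ := μ) (s := s + t) 0 n).const_mul _).exp_int h.em)
      ((Gk_dom (μ := μ) (s := s + t) hw n).rpow_int h.em hθ0.le) fun η => ?_
    have h3 := le_Gk (μ := μ) (s := s + t) n η 0 hw
    have h4 := Real.rpow_le_rpow (Real.exp_nonneg _) h3 hθ0.le
    refine le_trans (le_of_eq ?_) h4
    rw [← Real.exp_mul, mul_comm]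
    rfl
  refine h2.trans (h1.trans ?_)
  have h5 : K ^ (n / r) ≤ K ^ (n / r + 1) := pow_le_pow_right₀ hK1 (Nat.le_succ _)
  have h6 : C ≤ C ^ (n / r + 1) := le_self_pow₀ h.C1 (Nat.succ_ne_zero _)
  rw [mul_pow]
  exact mul_le_mul h5 h6 hC0.le (by positivity)

/-- **(T1') The mean of the luck at a small tilt.** -/
theorem mean_tilt (h : In μ s c C n₀) : ∃ n₁ : ℕ, ∀ r, n₁ ≤ r → ∀ t : ℝ, |t| * wd μ s r ≤ c / 2 * EE μ s r → ∀ n : ℕ,
    -(3 * (((n / r : ℕ) : ℝ) + 1) * EE μ s r) ≤ ∫ η, V μ (s + t) η 0 n ∂(law μ) := by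
  refine ⟨1, fun r hr1 t ht n => ?_⟩
  have hE1 : 1 ≤ EE μ s r := one_le_EE r
  have hc0 := h.c0
  have hc1 := h.c1
  have hr0 : (0 : ℝ) < r := by exact_mod_cast hr1
  have hw0 := h.wd_pos hr1
  have ht1 : |t| * wd μ s r ≤ EE μ s r := by
    refine ht.trans ?_
    nlinarith
  have hta := t_le_one h hr1 ht
  have hL : (r : ℝ) * ex μ s t ≤ EE μ s r := ex_le_EE h hr1 (by linarith) ht1
  have hLL := ex_nonneg h.em h.nd s t
  obtain ⟨k, hk⟩ : ∃ k : ℕ, k = n / r + 1 := ⟨_, rfl⟩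
  have hkR : ((n / r : ℕ) : ℝ) + 1 = k := by rw [hk]; push_cast; ring
  have hk1 : (1 : ℝ) ≤ k := by
    rw [← hkR]
    have : (0 : ℝ) ≤ ((n / r : ℕ) : ℝ) := Nat.cast_nonneg _
    linarith
  have hnk : n ≤ k * r := by
    have := Nat.lt_div_mul_add (a := n) (b := r) (by omega)
    rw [hk, Nat.add_mul, one_mul]
    omega
  have hnkR : (n : ℝ) ≤ k * r := by exact_mod_cast hnk
  rw [hkR]
  rcases Nat.eq_zero_or_pos n with hn0 | hn0
  · subst hn0
    simp only [V_zero, integral_zero]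
    have : 0 ≤ 3 * (k : ℝ) * EE μ s r := by positivity
    linarith
  -- the mean cost of the reference displacement
  obtain ⟨z0, z1⟩ := zs_mem (μ := μ) (s := s) n
  have h1 : -e μ (s + t) n (zs μ s n) ≤ ∫ η, V μ (s + t) η 0 n ∂(law μ) := by
    have h2 : ∫ η, -X μ (s + t) η 0 n (zs μ s n) ∂(law μ) ≤ ∫ η, V μ (s + t) η 0 n ∂(law μ) :=
      integral_mono ((Sub_X 0 z0 z1).neg.integrable h.em) ((Sub_V 0 n).integrable h.em)
        fun η => neg_X_le_V (μ := μ) (s := s + t) η 0 z0 z1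
    rw [integral_neg] at h2
    exact h2
  have h2 := e_tilt_ex (μ := μ) h.em s t z0 z1
  have h3 : e μ s n (zs μ s n) ≤ k * EE μ s r - 1 := by
    have h4 := e_zs_le (μ := μ) h.em s n
    have h5 : es μ s n + 1 ≤ EE μ s (k * r) := le_EE hnk
    have h6 := EE_mul (μ := μ) h.em s r (k := k) (by rw [hk]; exact Nat.succ_le_succ (Nat.zero_le _))
    linarith
  have h4 : ex μ s t * n ≤ k * EE μ s r := by
    calc ex μ s t * n ≤ ex μ s t * (k * r) := mul_le_mul_of_nonneg_left hnkR hLL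
      _ = k * (r * ex μ s t) := by ring
      _ ≤ k * EE μ s r := mul_le_mul_of_nonneg_left hL (by linarith)
  have hwn : wd μ s n ≤ 2 * k * wd μ s r := by
    rcases le_total r n with h5 | h5
    · have h6 := wd_lower_one h hr1 h5
      have h7 : (n : ℝ) * wd μ s r ≤ k * r * wd μ s r := mul_le_mul_of_nonneg_right hnkR hw0.le
      have h8 : (r : ℝ) * wd μ s n ≤ r * (2 * k * wd μ s r) := by
        calc (r : ℝ) * wd μ s n ≤ 2 * (n * wd μ s r) := h6
          _ ≤ 2 * (k * r * wd μ s r) := by linarith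
          _ = _ := by ring
      exact le_of_mul_le_mul_left h8 hr0
    · have h6 := wd_le_two h hn0 h5
      have h7 : 1 * wd μ s r ≤ k * wd μ s r := mul_le_mul_of_nonneg_right hk1 hw0.le
      linarith
  have h5 := (zs_near h hn0).trans hwn
  have h6 : -(t * ((zs μ s n : ℝ) - sl μ s * n)) ≤ k * EE μ s r := by
    have h7 : |t * ((zs μ s n : ℝ) - sl μ s * n)| ≤ |t| * (2 * k * wd μ s r) := by
      rw [abs_mul]
      exact mul_le_mul_of_nonneg_left h5 (abs_nonneg _)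
    have h8 := neg_abs_le (t * ((zs μ s n : ℝ) - sl μ s * n))
    have h9 : |t| * (2 * k * wd μ s r) = 2 * k * (|t| * wd μ s r) := by ring
    have h10 : 2 * (k : ℝ) * (|t| * wd μ s r) ≤ 2 * k * (c / 2 * EE μ s r) := mul_le_mul_of_nonneg_left ht (by positivity)
    have h11 : 2 * (k : ℝ) * (c / 2 * EE μ s r) = c * (k * EE μ s r) := by ring
    have h12 : c * (k * EE μ s r) ≤ 1 * (k * EE μ s r) := mul_le_mul_of_nonneg_right hc1 (by positivity)
    linarith
  linarith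

/-- **(T2a) The log moments at smaller orders**: the doubling inequality iterated. -/
theorem psi_tilt (h : In μ s c C n₀) : ∃ q K : ℝ, 0 < q ∧ q < 1 ∧ 0 ≤ K ∧ ∃ n₁ : ℕ, ∀ r, n₁ ≤ r → ∀ t : ℝ,
    |t| * wd μ s r ≤ c / 2 * EE μ s r → ∀ n j : ℕ,
    Real.log (∫ η, Real.exp (1 / (C * EE μ s r * 2 ^ j) * V μ (s + t) η 0 n) ∂(law μ)) ≤
      1 / (C * EE μ s r * 2 ^ j) * ∫ η, V μ (s + t) η 0 n ∂(law μ) + K * (q / 2) ^ j * (((n / r : ℕ) : ℝ) + 1) := by
  obtain ⟨B, hB, n₁, hn0, hn1, hmom⟩ := mom_tilt h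
  obtain ⟨n₂, hmean⟩ := mean_tilt h
  obtain ⟨a, ha, hLE⟩ := Pool.Agent.W_7d29a1_LE.LE_law (μ := μ) h.em h.nd
  have hC0 : 0 < C := lt_of_lt_of_le one_pos h.C1
  have hlB : 0 ≤ Real.log B := Real.log_nonneg hB
  refine ⟨2 / (2 + a), Real.log B + 3 / C, by positivity, by rw [div_lt_one (by positivity)]; linarith,
    by positivity, max n₁ n₂, fun r hr t ht n j => ?_⟩
  have hE1 : 1 ≤ EE μ s r := one_le_EE r
  have hE0 : 0 < EE μ s r := by linarith
  have hCE : 1 ≤ C * EE μ s r := one_le_mul_of_one_le_of_one_le h.C1 hE1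
  obtain ⟨t1, ht1⟩ : ∃ t1 : ℝ, t1 = 1 / (C * EE μ s r) := ⟨_, rfl⟩
  have ht0 : 0 < t1 := by rw [ht1]; positivity
  have ht1' : t1 ≤ 1 := by
    rw [ht1, div_le_one (by linarith)]
    exact hCE
  obtain ⟨k, hk⟩ : ∃ k : ℝ, k = ((n / r : ℕ) : ℝ) + 1 := ⟨_, rfl⟩
  have hk1 : 1 ≤ k := by
    rw [hk]
    have : (0 : ℝ) ≤ ((n / r : ℕ) : ℝ) := Nat.cast_nonneg _
    linarith
  have hP : Poly (rows 0 n) fun η => WS μ (s + t) η 0 n (Finset.Icc (0 : ℤ) n) := by
    refine (poly_WS (μ := μ) (s := s + t) (0 : Pt) n (Finset.Icc (0 : ℤ) n)).mono ?_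
    intro q hq
    refine ⟨hq.1, ?_⟩
    have h2 := hq.2.1
    simpa using h2
  obtain ⟨G, hG⟩ : ∃ G : Env → ℝ, G = fun η => WS μ (s + t) η 0 n (Finset.Icc (0 : ℤ) n) := ⟨_, rfl⟩
  rw [← hG] at hP
  have hpos : ∀ η, 0 < G η := fun η => by
    rw [hG]
    show 0 < WS μ (s + t) η 0 n (Finset.Icc (0 : ℤ) n)
    rw [← exp_V]
    exact Real.exp_pos _
  have hlog : ∀ η, Real.log (G η) = V μ (s + t) η 0 n := fun η => by rw [hG]; rfl
  obtain ⟨ψ, hψ⟩ : ∃ ψ : ℝ → ℝ, ψ = Pool.Agent.W_7d29a1_LE.psi (law μ) (fun η => Real.log (G η)) := ⟨_, rfl⟩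
  have hiter : ∀ j : ℕ, (2 + a) ^ j * ψ (t1 / 2 ^ j) ≤ ψ t1 := by
    intro j
    induction j with
    | zero => simp
    | succ j ih =>
      refine le_trans ?_ ih
      have h1 := hLE (rows 0 n) G hP hpos (t1 / 2 ^ (j + 1)) (by positivity) (by
        rw [div_le_div_iff₀ (by positivity) (by norm_num), pow_succ]
        have : (1 : ℝ) ≤ 2 ^ j := one_le_pow₀ (by norm_num)
        nlinarith)
      have h2 : 2 * (t1 / 2 ^ (j + 1)) = t1 / 2 ^ j := by
        rw [pow_succ]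
        field_simp
      rw [h2, ← hψ] at h1
      have h3 := mul_le_mul_of_nonneg_left h1 (by positivity : (0 : ℝ) ≤ (2 + a) ^ j)
      refine le_trans (le_of_eq ?_) h3
      rw [pow_succ]
      ring
  have hψe : ∀ u : ℝ, 0 ≤ u → ψ u =
      Real.log (∫ η, Real.exp (u * V μ (s + t) η 0 n) ∂(law μ)) - u * ∫ η, V μ (s + t) η 0 n ∂(law μ) := by
    intro u hu
    rw [hψ, Pool.Agent.W_7d29a1_LE.psi_eq h.em hP hpos hu]
    simp_rw [hlog]
  -- the order `t1`
  have h1 : ψ t1 ≤ (Real.log B + 3 / C) * k := by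
    rw [hψe t1 ht0.le]
    have h2 := hmom r ((le_max_left _ _).trans hr) t ht n
    rw [← ht1] at h2
    have h3 : 0 < ∫ η, Real.exp (t1 * V μ (s + t) η 0 n) ∂(law μ) :=
      integral_exp_pos (((Sub_V (μ := μ) (s := s + t) 0 n).const_mul _).exp_int h.em)
    have h4 : Real.log (∫ η, Real.exp (t1 * V μ (s + t) η 0 n) ∂(law μ)) ≤ k * Real.log B := by
      refine (Real.log_le_log h3 h2).trans (le_of_eq ?_)
      rw [Real.log_pow, hk]
      push_cast
      ring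
    have h5 := hmean r ((le_max_right _ _).trans hr) t ht n
    rw [← hk] at h5
    have h6 := mul_le_mul_of_nonneg_left h5 ht0.le
    have h7 : t1 * -(3 * k * EE μ s r) = -(3 / C * k) := by
      rw [ht1]
      field_simp
    rw [h7] at h6
    nlinarith
  have h2 := hiter j
  have hpk : (0 : ℝ) < (2 + a) ^ j := by positivity
  have h3 : ψ (t1 / 2 ^ j) ≤ (Real.log B + 3 / C) * (2 / (2 + a) / 2) ^ j * k := by
    have h4 : (2 + a) ^ j * ψ (t1 / 2 ^ j) ≤ (Real.log B + 3 / C) * k := h2.trans h1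
    have h5 : (2 / (2 + a) / 2 : ℝ) = 1 / (2 + a) := by
      field_simp
    rw [h5, one_div, inv_pow]
    have h6 : (Real.log B + 3 / C) * ((2 + a) ^ j)⁻¹ * k = (Real.log B + 3 / C) * k / (2 + a) ^ j := by
      field_simp
    rw [h6, le_div_iff₀ hpk]
    linarith
  rw [hψe (t1 / 2 ^ j) (by positivity)] at h3
  have e1 : t1 / 2 ^ j = 1 / (C * EE μ s r * 2 ^ j) := by
    rw [ht1]
    field_simp
  rw [e1] at h3
  rw [← hk]
  linarith

end Pool.Agent.W_7d29a1_HZ.Z94
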