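import Pool.Agent.W_7d29a1_HS.Scale

/-!
MP_7d29a1_pr, STORM Z, Lemma NS (1), (T2b): the upper tail of the point to line luck at a tilt, from the log-Laplace bound (T2a).
(helper5)
-/

set_option autoImplicit false

namespace Pool.Agent.W_7d29a1_HZ.Z94

open MeasureTheory ProbabilityTheory Filter Topology
open Pool.Agent.W_7d29a1_F Pool.Agent.W_7d29a1_h4g Pool.Agent.W_7d29a1_H Pool.Agent.W_7d29a1_HS

variable {μ : Measure ℝ} [IsProbabilityMeasure μ] {s c C : ℝ} {n₀ : ℕ}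

/-- Markov's inequality for the exponential moment of the luck. -/
private lemma markov_V (hμ : Pool.Agent.W_7d29a1_h47.EM μ) (t θ x : ℝ) (hθ : 0 ≤ θ) (n : ℕ) :
    (law μ).real {η | x ≤ V μ (s + t) η 0 n} ≤ Real.exp (-(θ * x)) * ∫ η, Real.exp (θ * V μ (s + t) η 0 n) ∂(law μ) := by
  have hI : Integrable (fun η => Real.exp (θ * V μ (s + t) η 0 n)) (law μ) := ((Sub_V (μ := μ) (s := s + t) 0 n).const_mul θ).exp_int hμ
  have h1 := ProbabilityTheory.measure_ge_le_exp_mul_mgf (μ := law μ) (X := fun η => V μ (s + t) η 0 n) x hθ hI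
  rw [neg_mul] at h1
  exact h1

/-- The strip of positivity of the mean exponential. -/
private lemma mom_pos (hμ : Pool.Agent.W_7d29a1_h47.EM μ) (t θ : ℝ) (n : ℕ) :
    0 < ∫ η, Real.exp (θ * V μ (s + t) η 0 n) ∂(law μ) :=
  integral_exp_pos (((Sub_V (μ := μ) (s := s + t) 0 n).const_mul θ).exp_int hμ)

/-- **(T2b)**: `P(V ≥ d n LL) ≤ exp (- a n / r)`. -/
theorem upper_tilt (h : In μ s c C n₀)
    (hpsi : ∃ q K : ℝ, 0 < q ∧ q < 1 ∧ 0 ≤ K ∧ ∃ n₁ : ℕ, ∀ r, n₁ ≤ r → ∀ t : ℝ, |t| * wd μ s r ≤ c / 2 * EE μ s r → ∀ n j : ℕ,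
      Real.log (∫ η, Real.exp (1 / (C * EE μ s r * 2 ^ j) * V μ (s + t) η 0 n) ∂(law μ)) ≤
        1 / (C * EE μ s r * 2 ^ j) * ∫ η, V μ (s + t) η 0 n ∂(law μ) + K * (q / 2) ^ j * ((n / r : ℕ) + 1))
    (hLL : ∀ c1 : ℝ, 0 < c1 → ∃ κ : ℝ, 0 < κ ∧ ∃ n₁ : ℕ, ∀ r, n₁ ≤ r → ∀ t : ℝ, c1 * EE μ s r ≤ |t| * wd μ s r →
      κ * EE μ s r ≤ r * ex μ s t) :
    ∀ d c1 : ℝ, 0 < d → 0 < c1 → ∃ a : ℝ, 0 < a ∧ ∃ n₁ : ℕ, ∀ r, n₁ ≤ r → ∀ t : ℝ, c1 * EE μ s r ≤ |t| * wd μ s r →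
      |t| * wd μ s r ≤ c / 2 * EE μ s r → ∀ n, r ≤ n →
      (law μ).real {η | d * (n * ex μ s t) ≤ V μ (s + t) η 0 n} ≤ Real.exp (-(a * n / r)) := by
  obtain ⟨q, K, hq0, hq1, hK, n₁, hpsi⟩ := hpsi
  intro d c1 hd hc1
  obtain ⟨κ, hκ, n₂, hLL⟩ := hLL c1 hc1
  have hC : 0 < C := lt_of_lt_of_le one_pos h.C1
  -- the number of octaves
  have hx : 0 < d * κ / (4 * C * (K + 1)) := by positivity
  obtain ⟨j, hj⟩ := exists_pow_lt_of_lt_one hx hq1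
  have hj2 : 2 * (K * q ^ j) ≤ d * κ / (2 * C) := by
    have h1 : (K + 1) * q ^ j ≤ (K + 1) * (d * κ / (4 * C * (K + 1))) := mul_le_mul_of_nonneg_left hj.le (by linarith)
    have h2 : (K + 1) * (d * κ / (4 * C * (K + 1))) = d * κ / (2 * C) / 2 := by
      field_simp
      ring
    have h3 : 0 < q ^ j := by positivity
    nlinarith
  refine ⟨d * κ / (2 * C) / 2 ^ j, by positivity, max (max n₁ n₂) 1, fun r hr t ht1 ht2 n hn => ?_⟩
  have hr1 : 1 ≤ r := (le_max_right _ _).trans hr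
  have hr2 : n₁ ≤ r := ((le_max_left _ _).trans (le_max_left _ _)).trans hr
  have hr3 : n₂ ≤ r := ((le_max_right _ _).trans (le_max_left _ _)).trans hr
  have hr0 : (0 : ℝ) < r := by exact_mod_cast hr1
  have hE : 0 < EE μ s r := lt_of_lt_of_le one_pos (one_le_EE r)
  have hp : (0 : ℝ) < 2 ^ j := by positivity
  obtain ⟨θ, hθ⟩ : ∃ θ : ℝ, θ = 1 / (C * EE μ s r * 2 ^ j) := ⟨_, rfl⟩
  have hθ0 : 0 < θ := by rw [hθ]; positivity
  have h1 := hpsi r hr2 t ht2 n j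
  rw [← hθ] at h1
  have h2 := hLL r hr3 t ht1
  have h3 := integral_V_nonpos h.em (s + t) n
  have h4 := markov_V (μ := μ) (s := s) h.em t θ (d * (n * ex μ s t)) hθ0.le n
  have h5 := mom_pos (μ := μ) (s := s) h.em t θ n
  -- the number of blocks
  obtain ⟨m, hm⟩ : ∃ m : ℝ, m = (n : ℝ) / r := ⟨_, rfl⟩
  have hm1 : 1 ≤ m := by
    rw [hm]
    exact (one_le_div hr0).2 (by exact_mod_cast hn)
  have hm2 : (((n / r : ℕ) : ℝ) + 1) ≤ 2 * m := by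
    have h6 : ((n / r : ℕ) : ℝ) ≤ m := by
      rw [hm]
      exact Nat.cast_div_le
    linarith
  have h6 : Real.log (∫ η, Real.exp (θ * V μ (s + t) η 0 n) ∂(law μ)) ≤ K * (q / 2) ^ j * (2 * m) := by
    have h7 : θ * ∫ η, V μ (s + t) η 0 n ∂(law μ) ≤ 0 := mul_nonpos_of_nonneg_of_nonpos hθ0.le h3
    have h8 : K * (q / 2) ^ j * (((n / r : ℕ) : ℝ) + 1) ≤ K * (q / 2) ^ j * (2 * m) :=
      mul_le_mul_of_nonneg_left hm2 (by positivity)
    linarith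
  have h7 : ∫ η, Real.exp (θ * V μ (s + t) η 0 n) ∂(law μ) ≤ Real.exp (K * (q / 2) ^ j * (2 * m)) := by
    rw [← Real.log_le_iff_le_exp h5]
    exact h6
  have h8 : d * κ / C / 2 ^ j * m ≤ θ * (d * (n * ex μ s t)) := by
    have h9 : θ * (d * (n * ex μ s t)) = θ * d * m * (r * ex μ s t) := by
      rw [hm]
      field_simp
    have h10 : d * κ / C / 2 ^ j * m = θ * d * m * (κ * EE μ s r) := by
      rw [hθ]
      field_simp
    rw [h9, h10]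
    exact mul_le_mul_of_nonneg_left h2 (by positivity)
  refine (h4.trans (mul_le_mul_of_nonneg_left h7 (Real.exp_nonneg _))).trans ?_
  rw [← Real.exp_add]
  refine Real.exp_le_exp.2 ?_
  have h9 : K * (q / 2) ^ j * (2 * m) = 2 * (K * q ^ j) * (m / 2 ^ j) := by
    rw [div_pow]
    ring
  have h10 : 2 * (K * q ^ j) * (m / 2 ^ j) ≤ d * κ / (2 * C) * (m / 2 ^ j) := mul_le_mul_of_nonneg_right hj2 (by positivity)
  have h11 : d * κ / (2 * C) / 2 ^ j * n / r = d * κ / (2 * C) * (m / 2 ^ j) := by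
    rw [hm]
    ring
  have h12 : d * κ / C / 2 ^ j * m = 2 * (d * κ / (2 * C) * (m / 2 ^ j)) := by
    field_simp
  rw [h9, h11]
  rw [h12] at h8
  linarith

end Pool.Agent.W_7d29a1_HZ.Z94
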