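import Pool.Agent.W_7d29a1_HZ.Z94_TiltF
import Pool.Agent.W_7d29a1_HZ.Z94_TiltA
import Pool.Agent.W_7d29a1_HZ.Z94_TiltU5

/-!
STORM Z, Lemma NS (1): the law of large numbers at a small tilt with stretched exponential bounds (TL).
-/

set_option autoImplicit false

namespace Pool.Agent.W_7d29a1_HZ.Z94

open MeasureTheory ProbabilityTheory Filter Topology
open Pool.Agent.W_7d29a1_F Pool.Agent.W_7d29a1_h4g Pool.Agent.W_7d29a1_H Pool.Agent.W_7d29a1_HS

variable {μ : Measure ℝ} [IsProbabilityMeasure μ] {s c C : ℝ} {n₀ : ℕ}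

/-- Absorption of polynomial factors. -/
theorem ev_exp {A a s c' : ℝ} (hA : 0 ≤ A) (ha : 0 < a) (hc : c' < s) (hs : 0 < s) : ∀ᶠ L : ℕ in atTop,
    ((L : ℝ) + 1) ^ 2 * (A * Real.exp (-(a * (L : ℝ) ^ s))) ≤ 1 / 3 * Real.exp (-(L : ℝ) ^ c') := by
  have h1 : ∀ᶠ L : ℕ in atTop, (L : ℝ) ^ c' ≤ a / 4 * (L : ℝ) ^ s := by
    have h2 : Tendsto (fun L : ℕ => (L : ℝ) ^ (-(s - c'))) atTop (𝓝 0) :=
      (tendsto_rpow_neg_atTop (by linarith)).comp tendsto_natCast_atTop_atTop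
    filter_upwards [h2.eventually (Iio_mem_nhds (show (0 : ℝ) < a / 4 by positivity)), eventually_gt_atTop 0] with L hL hL0
    have hL0' : (0 : ℝ) < L := by exact_mod_cast hL0
    have e1 : (L : ℝ) ^ c' = (L : ℝ) ^ (-(s - c')) * (L : ℝ) ^ s := by
      rw [← Real.rpow_add hL0']
      congr 1
      ring
    rw [e1]
    exact mul_le_mul_of_nonneg_right (le_of_lt hL) (by positivity)
  have h3 : ∀ᶠ L : ℕ in atTop, 2 * Real.log ((L : ℝ) + 1) ≤ a / 4 * (L : ℝ) ^ s := by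
    have h4 : (fun x : ℝ => Real.log x) =o[atTop] fun x => x ^ s := isLittleO_log_rpow_atTop hs
    have h5 := (h4.comp_tendsto tendsto_natCast_atTop_atTop).bound (show (0 : ℝ) < a / 16 by positivity)
    filter_upwards [h5, eventually_ge_atTop 2] with L hL hL2
    have hL2' : (2 : ℝ) ≤ L := by exact_mod_cast hL2
    simp only [Function.comp_apply, Real.norm_eq_abs] at hL
    rw [abs_of_nonneg (Real.log_nonneg (by linarith)), abs_of_nonneg (by positivity)] at hL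
    have h6 : Real.log ((L : ℝ) + 1) ≤ 2 * Real.log L := by
      have h7 : (L : ℝ) + 1 ≤ (L : ℝ) ^ 2 := by
        have h9 := mul_le_mul_of_nonneg_right hL2' (show (0 : ℝ) ≤ L by linarith)
        rw [sq]
        linarith
      have h8 := Real.log_le_log (by linarith) h7
      rw [Real.log_pow] at h8
      push_cast at h8
      exact h8
    linarith
  have h9 : ∀ᶠ L : ℕ in atTop, Real.log (3 * (A + 1)) ≤ a / 4 * (L : ℝ) ^ s := by
    have h10 : Tendsto (fun L : ℕ => (L : ℝ) ^ s) atTop atTop := (tendsto_rpow_atTop hs).comp tendsto_natCast_atTop_atTop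
    filter_upwards [h10.eventually_ge_atTop (Real.log (3 * (A + 1)) / (a / 4))] with L hL
    rw [div_le_iff₀ (by positivity)] at hL
    linarith
  filter_upwards [h1, h3, h9] with L h1 h3 h9
  have hA1 : A ≤ 1 / 3 * Real.exp (Real.log (3 * (A + 1))) := by
    rw [Real.exp_log (by positivity)]
    linarith
  have hL : ((L : ℝ) + 1) ^ 2 = Real.exp (2 * Real.log ((L : ℝ) + 1)) := by
    rw [mul_comm, Real.exp_mul, Real.exp_log (by positivity)]
    norm_num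
  rw [hL]
  calc Real.exp (2 * Real.log ((L : ℝ) + 1)) * (A * Real.exp (-(a * (L : ℝ) ^ s)))
      ≤ Real.exp (2 * Real.log ((L : ℝ) + 1)) * (1 / 3 * Real.exp (Real.log (3 * (A + 1))) * Real.exp (-(a * (L : ℝ) ^ s))) := by
        gcongr
    _ = 1 / 3 * Real.exp (2 * Real.log ((L : ℝ) + 1) + Real.log (3 * (A + 1)) + -(a * (L : ℝ) ^ s)) := by
        rw [Real.exp_add, Real.exp_add]
        ring
    _ ≤ _ := by
        refine mul_le_mul_of_nonneg_left (Real.exp_le_exp.2 ?_) (by norm_num)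
        have : 0 ≤ a * (L : ℝ) ^ s := by positivity
        linarith

/-- **(TL)** The point to line luck at the tilt `t` of scale `r` is at most `d n LL t` in absolute value for `n ≥ r L ^ e`. -/
theorem tilt_lln (h : In μ s c C n₀) {e d c1 : ℝ} (he : 0 < e) (hd : 0 < d) (hc1 : 0 < c1) : ∃ c' : ℝ, 0 < c' ∧ ∃ n₂ L₀ : ℕ,
    ∀ L : ℕ, L₀ ≤ L → ∀ r : ℕ, n₂ ≤ r → ∀ t : ℝ, c1 * EE μ s r ≤ |t| * wd μ s r → |t| * wd μ s r ≤ c / 2 * EE μ s r → ∀ n : ℕ,
      (r : ℝ) * (L : ℝ) ^ e ≤ n → n ≤ L →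
        (law μ).real {η | ¬ |V μ (s + t) η 0 n| ≤ d * (n * ex μ s t)} ≤ Real.exp (-(L : ℝ) ^ c') := by
  obtain ⟨q, K, hq0, hq1, hK, n₁, hpsi⟩ := psi_tilt h
  have hT : PsiT μ s c C q K n₁ := hpsi
  obtain ⟨Q, A, a, γ, hQ, hA, ha, hγ, n₂, hlow⟩ := low_tilt h hq0 hq1 hK hT hd hc1
  obtain ⟨b, hb, n₃, hupp⟩ := upper_tilt h ⟨q, K, hq0, hq1, hK, n₁, hpsi⟩ (fun c1 hc1 => LL_low h hc1) d c1 hd hc1
  obtain ⟨c', hc'⟩ : ∃ c' : ℝ, c' = min (e / 8) (e * γ / 8) := ⟨_, rfl⟩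
  have hc'0 : 0 < c' := by
    rw [hc']
    positivity
  have hc1' : c' < e / 4 := lt_of_le_of_lt (hc' ▸ min_le_left _ _) (by linarith)
  have hc2' : c' < e * γ / 4 := lt_of_le_of_lt (hc' ▸ min_le_right _ _) (by
    have := mul_pos he hγ
    linarith)
  have hE1 := ev_exp (A := 1) (a := d / 4) (s := e / 4) (c' := c') zero_le_one (by positivity) hc1' (by positivity)
  have hE2 := ev_exp (A := A) (a := a) (s := e * γ / 4) (c' := c') hA.le ha hc2' (by positivity)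
  have hE3 := ev_exp (A := 1) (a := b) (s := e) (c' := c') zero_le_one hb (by linarith) he
  have hE4 : ∀ᶠ L : ℕ in atTop, (8 : ℝ) ≤ (L : ℝ) ^ (e / 4) :=
    ((tendsto_rpow_atTop (show 0 < e / 4 by positivity)).comp tendsto_natCast_atTop_atTop).eventually_ge_atTop 8
  have hE5 : ∀ᶠ L : ℕ in atTop, Q * Real.log ((L : ℝ) + 1) ≤ (L : ℝ) ^ (e / 2) := by
    have h4 : (fun x : ℝ => Real.log x) =o[atTop] fun x => x ^ (e / 2) := isLittleO_log_rpow_atTop (by positivity)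
    have h5 := (h4.comp_tendsto tendsto_natCast_atTop_atTop).bound (show (0 : ℝ) < 1 / (2 * Q) by positivity)
    filter_upwards [h5, eventually_ge_atTop 2] with L hL hL2
    have hL2' : (2 : ℝ) ≤ L := by exact_mod_cast hL2
    simp only [Function.comp_apply, Real.norm_eq_abs] at hL
    rw [abs_of_nonneg (Real.log_nonneg (by linarith)), abs_of_nonneg (by positivity)] at hL
    have h6 : Real.log ((L : ℝ) + 1) ≤ 2 * Real.log L := by
      have h7 : (L : ℝ) + 1 ≤ (L : ℝ) ^ 2 := by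
        have h9 := mul_le_mul_of_nonneg_right hL2' (show (0 : ℝ) ≤ L by linarith)
        rw [sq]
        linarith
      have h8 := Real.log_le_log (by linarith) h7
      rw [Real.log_pow] at h8
      push_cast at h8
      exact h8
    have hQ0 : 0 < Q := by linarith
    calc Q * Real.log ((L : ℝ) + 1) ≤ Q * (2 * Real.log L) := by gcongr
      _ ≤ Q * (2 * (1 / (2 * Q) * (L : ℝ) ^ (e / 2))) := by gcongr
      _ = _ := by field_simp
  obtain ⟨L₀, hL₀⟩ := eventually_atTop.1 (hE1.and (hE2.and (hE3.and (hE4.and (hE5.and (eventually_ge_atTop 1))))))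
  refine ⟨c', hc'0, max (max n₂ n₃) 1, L₀, fun L hL r hr t ht1 ht2 n hn hnL => ?_⟩
  obtain ⟨h1, h2, h3, h4, h5, hL1⟩ := hL₀ L hL
  have hr1 : 1 ≤ r := (le_max_right _ _).trans hr
  have hr2 : n₂ ≤ r := (le_max_left _ _).trans ((le_max_left _ _).trans hr)
  have hr3 : n₃ ≤ r := (le_max_right _ _).trans ((le_max_left _ _).trans hr)
  have hr0 : (0 : ℝ) < r := by exact_mod_cast hr1
  have hr1' : (1 : ℝ) ≤ r := by exact_mod_cast hr1
  have hL1' : (1 : ℝ) ≤ L := by exact_mod_cast hL1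
  have hL0 : (0 : ℝ) < L := by linarith
  have hnL' : (n : ℝ) ≤ L := by exact_mod_cast hnL
  have hLe : (1 : ℝ) ≤ (L : ℝ) ^ e := Real.one_le_rpow hL1' he.le
  have hLe2 : (1 : ℝ) ≤ (L : ℝ) ^ (e / 2) := Real.one_le_rpow hL1' (by positivity)
  have hLe4 : (1 : ℝ) ≤ (L : ℝ) ^ (e / 4) := Real.one_le_rpow hL1' (by positivity)
  have hee : (L : ℝ) ^ (e / 2) ≤ (L : ℝ) ^ e := Real.rpow_le_rpow_of_exponent_le hL1' (by linarith)
  have hsplit : (L : ℝ) ^ e = (L : ℝ) ^ (e / 2) * ((L : ℝ) ^ (e / 4) * (L : ℝ) ^ (e / 4)) := by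
    rw [← Real.rpow_add hL0, ← Real.rpow_add hL0]
    congr 1
    ring
  have hrn' : (r : ℝ) ≤ n := (le_mul_of_one_le_right hr0.le hLe).trans hn
  have hrn : r ≤ n := by exact_mod_cast hrn'
  -- the upper side
  have hU := hupp r hr3 t ht1 ht2 n hrn
  have hU2 : Real.exp (-(b * n / r)) ≤ 1 / 3 * Real.exp (-(L : ℝ) ^ c') := by
    refine le_trans ?_ h3
    have h6 : (L : ℝ) ^ e ≤ n / r := by
      rw [le_div_iff₀ hr0]
      linarith
    have h7 : Real.exp (-(b * n / r)) ≤ 1 * Real.exp (-(b * (L : ℝ) ^ e)) := by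
      rw [one_mul]
      refine Real.exp_le_exp.2 ?_
      have := mul_le_mul_of_nonneg_left h6 hb.le
      rw [mul_div_assoc]
      linarith
    refine h7.trans ?_
    have h8 : (1 : ℝ) ≤ ((L : ℝ) + 1) ^ 2 := one_le_pow₀ (by linarith)
    have h9 : 0 ≤ 1 * Real.exp (-(b * (L : ℝ) ^ e)) := by positivity
    exact le_mul_of_one_le_left h9 h8
  -- the lower side
  obtain ⟨m, hm⟩ : ∃ m : ℕ, m = ⌈(r : ℝ) * (L : ℝ) ^ (e / 2)⌉₊ := ⟨_, rfl⟩
  have hm1 : (r : ℝ) * (L : ℝ) ^ (e / 2) ≤ m := hm ▸ Nat.le_ceil _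
  have hm2 : (m : ℝ) < r * (L : ℝ) ^ (e / 2) + 1 := hm ▸ Nat.ceil_lt_add_one (by positivity)
  have hmn : m ≤ n := by
    rw [hm]
    refine Nat.ceil_le.2 ?_
    have := mul_le_mul_of_nonneg_left hee hr0.le
    linarith
  have hrL : 1 ≤ (r : ℝ) * (L : ℝ) ^ (e / 2) := one_le_mul_of_one_le_of_one_le hr1' hLe2
  have hm3 : (m : ℝ) ≤ 2 * (r * (L : ℝ) ^ (e / 2)) := by linarith
  have hm01 : (1 : ℝ) ≤ m := by linarith
  have hm0 : 1 ≤ m := by exact_mod_cast hm01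
  have hmn' : (m : ℝ) ≤ n := by exact_mod_cast hmn
  have hQm : Q * (r * Real.log (m + 1)) ≤ m := by
    have h6 : Real.log ((m : ℝ) + 1) ≤ Real.log ((L : ℝ) + 1) := Real.log_le_log (by positivity) (by linarith)
    calc Q * (r * Real.log (m + 1)) ≤ Q * (r * Real.log ((L : ℝ) + 1)) := by gcongr
      _ = r * (Q * Real.log ((L : ℝ) + 1)) := by ring
      _ ≤ r * (L : ℝ) ^ (e / 2) := by gcongr
      _ ≤ m := hm1
  have hW := hlow r hr2 t ht1 ht2 m n hQm hmn hm0 ((L : ℝ) ^ (e / 4)) h4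
  have hW2 : Real.exp (-(d * n / (2 * m * (L : ℝ) ^ (e / 4)))) ≤ 1 / 3 * Real.exp (-(L : ℝ) ^ c') := by
    refine le_trans ?_ h1
    have h6 : d / 4 * (L : ℝ) ^ (e / 4) ≤ d * n / (2 * m * (L : ℝ) ^ (e / 4)) := by
      rw [le_div_iff₀ (by positivity)]
      calc d / 4 * (L : ℝ) ^ (e / 4) * (2 * m * (L : ℝ) ^ (e / 4))
          ≤ d / 4 * (L : ℝ) ^ (e / 4) * (2 * (2 * (r * (L : ℝ) ^ (e / 2))) * (L : ℝ) ^ (e / 4)) := by gcongr
        _ = d * (r * ((L : ℝ) ^ (e / 2) * ((L : ℝ) ^ (e / 4) * (L : ℝ) ^ (e / 4)))) := by ring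
        _ = d * (r * (L : ℝ) ^ e) := by rw [← hsplit]
        _ ≤ d * n := by gcongr
    have h7 : Real.exp (-(d * n / (2 * m * (L : ℝ) ^ (e / 4)))) ≤ 1 * Real.exp (-(d / 4 * (L : ℝ) ^ (e / 4))) := by
      rw [one_mul]
      exact Real.exp_le_exp.2 (by linarith)
    refine h7.trans ?_
    have h8 : (1 : ℝ) ≤ ((L : ℝ) + 1) ^ 2 := one_le_pow₀ (by linarith)
    have h9 : 0 ≤ 1 * Real.exp (-(d / 4 * (L : ℝ) ^ (e / 4))) := by positivity
    exact le_mul_of_one_le_left h9 h8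
  have hW3 : ((n : ℝ) + 1) ^ 2 * (A * Real.exp (-(a * ((L : ℝ) ^ (e / 4)) ^ γ))) ≤ 1 / 3 * Real.exp (-(L : ℝ) ^ c') := by
    refine le_trans ?_ h2
    rw [← Real.rpow_mul hL0.le, show e / 4 * γ = e * γ / 4 by ring]
    gcongr
  have hincl : {η | ¬ |V μ (s + t) η 0 n| ≤ d * (n * ex μ s t)} ⊆
      {η | d * (n * ex μ s t) ≤ V μ (s + t) η 0 n} ∪ {η | V μ (s + t) η 0 n ≤ -(d * (n * ex μ s t))} := by
    intro η hη
    simp only [Set.mem_ofPred_eq, not_le] at hη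
    rcases lt_abs.1 hη with h6 | h6
    · exact Or.inl h6.le
    · refine Or.inr ?_
      show V μ (s + t) η 0 n ≤ -(d * (n * ex μ s t))
      linarith
  refine (measureReal_mono hincl).trans ((measureReal_union_le _ _).trans ?_)
  linarith

/-- (TL) in the form of the extended numbers. -/
theorem tilt_lln' (h : In μ s c C n₀) {e d c1 : ℝ} (he : 0 < e) (hd : 0 < d) (hc1 : 0 < c1) : ∃ c' : ℝ, 0 < c' ∧ ∃ n₂ L₀ : ℕ,
    ∀ L : ℕ, L₀ ≤ L → ∀ r : ℕ, n₂ ≤ r → ∀ t : ℝ, c1 * EE μ s r ≤ |t| * wd μ s r → |t| * wd μ s r ≤ c / 2 * EE μ s r → ∀ n : ℕ,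
      (r : ℝ) * (L : ℝ) ^ e ≤ n → n ≤ L →
        (law μ) {η | ¬ |V μ (s + t) η 0 n| ≤ d * (n * ex μ s t)} ≤ ENNReal.ofReal (Real.exp (-(L : ℝ) ^ c')) := by
  obtain ⟨c', hc', n₂, L₀, H⟩ := tilt_lln h he hd hc1
  refine ⟨c', hc', n₂, L₀, fun L hL r hr t ht1 ht2 n hn hnL => ?_⟩
  have h1 := H L hL r hr t ht1 ht2 n hn hnL
  rw [← ENNReal.ofReal_toReal (measure_ne_top (law μ) _)]
  exact ENNReal.ofReal_le_ofReal h1

end Pool.Agent.W_7d29a1_HZ.Z94
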