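import Pool.Agent.W_7d29a1_HZ.Z21_Ns
import Pool.Agent.W_7d29a1_HZ.Z21_En21
import Pool.Agent.W_7d29a1_HZ.Z94_TiltG
import Pool.Agent.W_7d29a1_Z21.Typ62
/-!
STORM Z AT ONE TILT, Lemma NS, closed: `ns21` with its inputs `EnvP21` at the tilts `s` and `- s` (`envP67`, from the tilted law of large
numbers `tilt_lln` of helper4) and `TypP21` (`typP21` of helper62, it does not depend on the tilt). (helper67)
-/

set_option autoImplicit false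

namespace Pool.Agent.W_7d29a1_HZ.Z21

open MeasureTheory ProbabilityTheory Filter Topology Finset
open Pool.Agent.W_7d29a1_F Pool.Agent.W_7d29a1_X Pool.Agent.W_7d29a1_h4g Pool.Agent.W_7d29a1_H Pool.Agent.W_7d29a1_HZ
open Pool.Agent.W_7d29a1_HS (In wd)
open scoped ENNReal

variable {μ : Measure ℝ} {s : ℝ} [IsProbabilityMeasure μ] {c C : ℝ} {n₀ : ℕ}

/-- The tilted law of large numbers. -/
theorem tl67 (h : In μ s c C n₀) : TL67 μ s c := fun _ _ _ he hd hc1 => Pool.Agent.W_7d29a1_HZ.Z94.tilt_lln h he hd hc1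

theorem ns_final21 (h : In μ s c C n₀) :
    ∀ ε : ℝ, 0 < ε → ∃ δ c' : ℝ, 0 < δ ∧ 0 < c' ∧ ∃ L₀ : ℕ, ∀ L : ℕ, L₀ ≤ L → ∀ N : ℕ, L ≤ 16 * N → N ≤ L →
    ∀ y : ℤ, 0 ≤ y → y ≤ N → |(y : ℝ) - sl μ s * N| ≤ ((L : ℝ) ^ δ * wd' μ s N) →
    P1 μ s N y (fun _ S => ¬ ∀ i n : ℕ, 1 ≤ n → i + n ≤ N →
      |((pos S (i + n) - pos S i : ℤ) : ℝ) - sl μ s * n| ≤ ((L : ℝ) ^ ε * wd' μ s n)) ≤
      ENNReal.ofReal (Real.exp (-(L : ℝ) ^ c')) :=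
  ns21 h (envP67 h (tl67 h)) (envP67 h.mir (tl67 h.mir)) Pool.Agent.W_7d29a1_Z21.typP21

end Pool.Agent.W_7d29a1_HZ.Z21
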