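import Pool.Agent.W_7d29a1_HZ.PB
import Pool.Agent.W_7d29a1_HZ.Z21_NsFinal
/-!
STORM Z, leaf NS: no steep places. With overwhelming probability all the increments of the point to point path are of the order of the
width. (helper21, with helper94 and helper62; the proof is `W_7d29a1_Z21/NsFinal.lean`; at every tilt: `HZ/Z21_NsFinal.lean`)
-/

set_option autoImplicit false

namespace Pool.Agent.W_7d29a1_HZ

open MeasureTheory ProbabilityTheory Filter Topology Finset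
open Pool.Agent.W_7d29a1_F Pool.Agent.W_7d29a1_X Pool.Agent.W_7d29a1_h4g Pool.Agent.W_7d29a1_H
open Pool.Agent.W_7d29a1_HS (In wd)
open scoped ENNReal

variable {μ : Measure ℝ} {s : ℝ} [IsProbabilityMeasure μ] {c C : ℝ} {n₀ : ℕ}

/-- All the increments of the path `S` of length `N` are at most `L ^ ε wd' n`. -/
def NSp (μ : Measure ℝ) (s : ℝ) (L N : ℕ) (ε : ℝ) (S : Finset ℕ) : Prop :=
  ∀ i n : ℕ, 1 ≤ n → i + n ≤ N → |((pos S (i + n) - pos S i : ℤ) : ℝ) - sl μ s * n| ≤ ((L : ℝ) ^ ε * wd' μ s n)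

theorem ns (h : In μ s c C n₀) : ∀ ε : ℝ, 0 < ε → ∃ δ c' : ℝ, 0 < δ ∧ 0 < c' ∧ ∃ L₀ : ℕ, ∀ L : ℕ, L₀ ≤ L →
    ∀ N : ℕ, L ≤ 16 * N → N ≤ L →
    ∀ y : ℤ, 0 ≤ y → y ≤ N → |(y : ℝ) - sl μ s * N| ≤ ((L : ℝ) ^ δ * wd' μ s N) →
    P1 μ s N y (fun _ S => ¬ NSp μ s L N ε S) ≤ ENNReal.ofReal (Real.exp (-(L : ℝ) ^ c')) :=
  Pool.Agent.W_7d29a1_HZ.Z21.ns_final21 h

end Pool.Agent.W_7d29a1_HZ
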