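import Pool.Agent.W_7d29a1_HZ.OneS

/-!
STORM Z AT ONE TILT, helper86 (port: helper51): the near ties at the places and their count with the near tie as a PARAMETER `NX W H M` (`W = (e, j₀, J)` a window
of `Wd`, `H` the largest duration of the brackets, `M` the depth); `NX = NTp` gives `Z/OneS.lean`. (After helper49's CountZ and
helper72's OneS; for the second storey, where the near tie is one of a class of competitors.)
-/

set_option autoImplicit false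

namespace Pool.Agent.W_7d29a1_HZ.Z86.GX

open MeasureTheory ProbabilityTheory Filter Topology Finset
open Pool.Agent.W_7d29a1_F Pool.Agent.W_7d29a1_X Pool.Agent.W_7d29a1_h4g Pool.Agent.W_7d29a1_H
open Pool.Agent.W_7d29a1_HZ Pool.Agent.W_7d29a1_Z.Asm72 Pool.Agent.W_7d29a1_HZ.Z86
open Pool.Agent.W_7d29a1_HZ.Z49 (Adm adm_univ adm_inter Hj Hj_le)
open Pool.Agent.W_7d29a1_Z86 (st)
open scoped ENNReal

variable {μ : Measure ℝ} {s : ℝ}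

/-- Windows `(e, j₀, J)`. -/
abbrev WT := ℕ × ℕ × Finset ℕ

/-- Near tie relations. -/
abbrev NRel := WT → ℕ → ℝ → Env → Finset ℕ → Prop

/-- The properties of a near tie relation which are used. -/
structure NOk (NX : NRel) : Prop where
  ms : ∀ W H M, Ms (NX W H M)
  off : ∀ (W : WT) (H : ℕ) (M : ℝ) (J' : Finset ℕ), W.2.2.Nonempty → (∀ i ∈ W.2.2, ∀ j ∈ J', i + 2 * H ≤ j ∨ j + 2 * H ≤ i) →
    OffRows J' (NX W H M)

/-- The plain near tie. -/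
theorem nok_NTp (N : ℕ) : NOk (fun W H M => Pool.Agent.W_7d29a1_HZ.Z49.NTp μ s N H M W) where
  ms _ H M := NTW_ms N H _ _ _ _ M
  off _ _ _ _ hne hsep := NTW_off hne hsep

/-- A near tie at one of the windows of the list. -/
def NPX (NX : NRel) (H : ℕ) (M : ℝ) (Ws : Finset WT) : Set (Env × Finset ℕ) := {z | ∃ p ∈ Ws, NX p H M z.1 z.2}

theorem NPX_eq (NX : NRel) (H : ℕ) (M : ℝ) (Ws : Finset WT) : NPX NX H M Ws = ⋃ p ∈ Ws, {z | NX p H M z.1 z.2} := by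
  ext z
  simp only [NPX, Set.mem_ofPred_eq, Set.mem_iUnion, exists_prop]

theorem adm_NPX {NX : NRel} (hN : NOk NX) {H : ℕ} {M : ℝ} {W W' : Finset WT} (hne : ∀ q ∈ W', q.2.2.Nonempty)
    (hsep : ∀ p ∈ W, ∀ q ∈ W', ∀ i ∈ q.2.2, ∀ j ∈ p.2.2, i + 2 * H ≤ j ∨ j + 2 * H ≤ i) :
    NPX NX H M W' ∈ Adm W := by
  refine ⟨fun S => ?_, fun p hp η η' S h => ?_⟩
  · have : {η : Env | (η, S) ∈ NPX NX H M W'} = ⋃ q ∈ W', {η : Env | NX q H M η S} := by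
      ext η
      simp only [NPX, Set.mem_ofPred_eq, Set.mem_iUnion, exists_prop]
    rw [this]
    exact Finset.measurableSet_biUnion W' fun q _ => hN.ms q H M S
  · simp only [NPX, Set.mem_ofPred_eq]
    constructor
    · rintro ⟨q, hq, h1⟩
      exact ⟨q, hq, (hN.off q H M p.2.2 (hne q hq) (hsep p hp q hq) η η' S h).1 h1⟩
    · rintro ⟨q, hq, h1⟩
      exact ⟨q, hq, (hN.off q H M p.2.2 (hne q hq) (hsep p hp q hq) η η' S h).2 h1⟩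

/-- The tie at a place. -/
theorem tie_placeX [IsProbabilityMeasure μ] {NX : NRel} {N H X : ℕ} {y : ℤ} {M ρ δ : ℝ} (hδ : 0 ≤ δ) (hρ : 0 ≤ ρ)
    {W : Finset WT} (hX : W.card ≤ X)
    (hT : ∀ p ∈ W, ∀ A : Env → Finset ℕ → Prop, Ms A → OffRows p.2.2 A →
      P1 μ s N y (fun η S => A η S ∧ NX p H M η S) ≤ ENNReal.ofReal ρ * P1 μ s N y A + ENNReal.ofReal δ)
    {A : Set (Env × Finset ℕ)} (hA : A ∈ Adm W) :
    (sp1 μ s N y).pr (A ∩ NPX NX H M W) ≤ (X * ρ) * (sp1 μ s N y).pr A + X * δ := by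
  have h1 : (sp1 μ s N y).pr (A ∩ NPX NX H M W) ≤ ∑ p ∈ W, (sp1 μ s N y).pr (A ∩ {z | NX p H M z.1 z.2}) := by
    rw [NPX_eq, Set.inter_iUnion₂]
    exact (sp1 μ s N y).biUnion _ _
  have h2 : ∀ p ∈ W, (sp1 μ s N y).pr (A ∩ {z | NX p H M z.1 z.2}) ≤ ρ * (sp1 μ s N y).pr A + δ := by
    intro p hp
    have h3 := hT p hp (fun η S => (η, S) ∈ A) hA.1 (hA.2 p hp)
    have hfin : P1 μ s N y (fun η S => (η, S) ∈ A) ≠ ⊤ :=
      ne_top_of_le_ne_top ENNReal.one_ne_top (Pool.Agent.W_7d29a1_HZ.Z86.P1_le_one N y _)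
    have h4 : (P1 μ s N y (fun η S => (η, S) ∈ A ∩ {z | NX p H M z.1 z.2})).toReal ≤
        (ENNReal.ofReal ρ * P1 μ s N y (fun η S => (η, S) ∈ A) + ENNReal.ofReal δ).toReal := by
      apply ENNReal.toReal_mono
      · exact ENNReal.add_ne_top.2 ⟨ENNReal.mul_ne_top ENNReal.ofReal_ne_top hfin, ENNReal.ofReal_ne_top⟩
      · exact h3
    refine h4.trans (le_of_eq ?_)
    rw [ENNReal.toReal_add (ENNReal.mul_ne_top ENNReal.ofReal_ne_top hfin) ENNReal.ofReal_ne_top,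
      ENNReal.toReal_mul, ENNReal.toReal_ofReal hρ, ENNReal.toReal_ofReal hδ]
    rfl
  have h0 := (sp1 μ s N y).nonneg A
  calc (sp1 μ s N y).pr (A ∩ NPX NX H M W) ≤ ∑ p ∈ W, (ρ * (sp1 μ s N y).pr A + δ) :=
        h1.trans (Finset.sum_le_sum h2)
    _ = W.card * (ρ * (sp1 μ s N y).pr A + δ) := by rw [Finset.sum_const, nsmul_eq_mul]
    _ ≤ X * (ρ * (sp1 μ s N y).pr A + δ) := by
        have : (W.card : ℝ) ≤ X := by exact_mod_cast hX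
        gcongr
    _ = (X * ρ) * (sp1 μ s N y).pr A + X * δ := by ring

/-- Near tie at the junction `b`: one of the windows of the list, with all rows at distance at most `Hd` from the start of the
zone `b`, is nearly tied. -/
def NTbX (NX : NRel) (N t τ k₀ : ℕ) (n1 : ℕ → ℕ) (e0 E H Hd : ℕ) (M : ℝ) (b : ℕ) : Set (Env × Finset ℕ) :=
  {q | ∃ W ∈ Wd N t τ k₀ n1 e0 E b, (∀ i ∈ W.2.2, za t τ b ≤ i + Hd ∧ i ≤ za t τ b + Hd) ∧ NX W H M q.1 q.2}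

/-- The tie lemma in the form of an input: all windows of the lists are nearly tied with a probability at most `r M`, given
any event which does not depend on their rows. -/
def TieInX (μ : Measure ℝ) (s : ℝ) (NX : NRel) (N : ℕ) (y : ℤ) (t τ k₀ : ℕ) (n1 : ℕ → ℕ) (e0 E : ℕ) (r p : ℝ) : Prop :=
  ∀ b : ℕ, ∀ W ∈ Wd N t τ k₀ n1 e0 E b, ∀ H : ℕ, ∀ M : ℝ, 1 ≤ M → ∀ F : Env → Finset ℕ → Prop, Ms F →
    OffRows W.2.2 F → P1 μ s N y (fun η S => F η S ∧ NX W H M η S) ≤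
      ENNReal.ofReal (r * M) * P1 μ s N y F + ENNReal.ofReal p

/-- The windows of `NTbX`. -/
def WHdX (N t τ k₀ : ℕ) (n1 : ℕ → ℕ) (e0 E Hd b : ℕ) : Finset WT :=
  (Wd N t τ k₀ n1 e0 E b).filter fun p => ∀ i ∈ p.2.2, za t τ b ≤ i + Hd ∧ i ≤ za t τ b + Hd

theorem NTbX_eq (NX : NRel) (N t τ k₀ : ℕ) (n1 : ℕ → ℕ) (e0 E H Hd : ℕ) (M : ℝ) (b : ℕ) :
    NTbX NX N t τ k₀ n1 e0 E H Hd M b = NPX NX H M (WHdX N t τ k₀ n1 e0 E Hd b) := by
  ext q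
  simp only [NTbX, WHdX, NPX, Finset.mem_filter, Set.mem_ofPred_eq, and_assoc]

theorem ntb_tieAX [IsProbabilityMeasure μ] {NX : NRel} {N : ℕ} {y : ℤ} {t τ k₀ : ℕ} {n1 : ℕ → ℕ} {e0 E : ℕ}
    {r p : ℝ} (hr : 0 ≤ r) (hp : 0 ≤ p) (hT : TieInX μ s NX N y t τ k₀ n1 e0 E r p) {b X : ℕ}
    (hX : (Wd N t τ k₀ n1 e0 E b).card ≤ X) (H Hd : ℕ) {M : ℝ} (hM : 1 ≤ M) {F : Set (Env × Finset ℕ)}
    (hF : F ∈ Adm (WHdX N t τ k₀ n1 e0 E Hd b)) :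
    (sp1 μ s N y).pr (F ∩ NTbX NX N t τ k₀ n1 e0 E H Hd M b) ≤ X * (r * M) * (sp1 μ s N y).pr F + X * p := by
  rw [NTbX_eq]
  exact tie_placeX hp (by positivity) ((Finset.card_filter_le _ _).trans hX)
    (fun q hq A hA hoffA => hT b q (Finset.mem_filter.1 hq).1 H M hM A hA hoffA) hF

/-- One place: union over the windows. -/
theorem ntb_tieX [IsProbabilityMeasure μ] {NX : NRel} {N : ℕ} {y : ℤ} {t τ k₀ : ℕ} {n1 : ℕ → ℕ} {e0 E : ℕ}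
    {r p : ℝ} (hr : 0 ≤ r) (hp : 0 ≤ p) (hT : TieInX μ s NX N y t τ k₀ n1 e0 E r p) {b X : ℕ}
    (hX : (Wd N t τ k₀ n1 e0 E b).card ≤ X) (H Hd : ℕ) {M : ℝ} (hM : 1 ≤ M) {F : Set (Env × Finset ℕ)}
    (hF : Ms fun η S => (η, S) ∈ F)
    (hoff : ∀ W ∈ Wd N t τ k₀ n1 e0 E b, (∀ i ∈ W.2.2, za t τ b ≤ i + Hd ∧ i ≤ za t τ b + Hd) →
      OffRows W.2.2 fun η S => (η, S) ∈ F) :
    (sp1 μ s N y).pr (F ∩ NTbX NX N t τ k₀ n1 e0 E H Hd M b) ≤ X * (r * M) * (sp1 μ s N y).pr F + X * p :=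
  ntb_tieAX hr hp hT hX H Hd hM ⟨hF, fun q hq => hoff q (Finset.mem_filter.1 hq).1 (Finset.mem_filter.1 hq).2⟩

/-- Field `hcount`: the number of nearly tied places `k₀ + u st`, `u < U`. -/
theorem count_placesX [IsProbabilityMeasure μ] {NX : NRel} (hN : NOk NX) {N : ℕ} {y : ℤ} {t τ k₀ : ℕ} {n1 : ℕ → ℕ}
    {e0 E : ℕ} {r p : ℝ} (hr : 0 ≤ r) (hp : 0 ≤ p) (hT : TieInX μ s NX N y t τ k₀ n1 e0 E r p) {X : ℕ}
    (hX : ∀ b, (Wd N t τ k₀ n1 e0 E b).card ≤ X) (j U N₀ : ℕ) (hN₀ : 1 ≤ N₀) {M Λ : ℝ} (hM : 1 ≤ M) (hΛ : 1 ≤ Λ) :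
    (sp1 μ s N y).pr {q | 4 * (N₀ : ℝ) * (10 : ℕ) * (X * (r * M) * Λ * U + 1) < (Set.ncard {u | u < U ∧
        q ∈ NTbX NX N t τ k₀ n1 e0 E (2 * t * (2 ^ (j + 1) + 1)) (2 * t * (2 ^ (j + 1) + 1)) M
          (k₀ + u * st j)} : ℝ)} ≤
      (10 : ℕ) * (2 * ((U : ℝ) + 1) * ((1 / Λ) ^ N₀ + (U : ℝ) ^ N₀ * (N₀ * (X * p)))) := by
  have hsep : ∀ u u' : ℕ, (u + 2 * 10 ≤ u' ∨ u' + 2 * 10 ≤ u) →
      ∀ p ∈ WHdX N t τ k₀ n1 e0 E (2 * t * (2 ^ (j + 1) + 1)) (k₀ + u * st j),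
      ∀ q ∈ WHdX N t τ k₀ n1 e0 E (2 * t * (2 ^ (j + 1) + 1)) (k₀ + u' * st j),
      ∀ i ∈ q.2.2, ∀ i' ∈ p.2.2, i + 2 * (2 * t * (2 ^ (j + 1) + 1)) ≤ i' ∨ i' + 2 * (2 * t * (2 ^ (j + 1) + 1)) ≤ i := by
    intro u u' h p hp q hq i hi i' hi'
    have h1 := (Finset.mem_filter.1 hp).2 i' hi'
    have h2 := (Finset.mem_filter.1 hq).2 i hi
    have h3 : 2 * t * (2 ^ (j + 1) + 1) ≤ 10 * (t * st j) := Hj_le t j
    have e1 : ∀ w : ℕ, za t τ (k₀ + w * st j) = τ + 2 * (t * k₀) + 2 * (w * (t * st j)) := by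
      intro w; unfold za; ring
    rw [e1] at h1 h2
    generalize t * st j = x at *
    generalize 2 * t * (2 ^ (j + 1) + 1) = Hh at *
    rcases h with h | h
    · right
      obtain ⟨d, rfl⟩ : ∃ d, u' = u + 20 + d := ⟨u' - (u + 20), by omega⟩
      have h4 : (u + 20 + d) * x = u * x + 20 * x + d * x := by ring
      rw [h4] at h2
      have := Nat.zero_le (d * x)
      omega
    · left
      obtain ⟨d, rfl⟩ : ∃ d, u = u' + 20 + d := ⟨u - (u' + 20), by omega⟩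
      have h4 : (u' + 20 + d) * x = u' * x + 20 * x + d * x := by ring
      rw [h4] at h1
      have := Nat.zero_le (d * x)
      omega
  refine Pool.Agent.W_7d29a1_Z.Num72.countR (sp1 μ s N y) (fun u => NTbX NX N t τ k₀ n1 e0 E (2 * t * (2 ^ (j + 1) + 1))
    (2 * t * (2 ^ (j + 1) + 1)) M (k₀ + u * st j)) U N₀ 10 hN₀ (by norm_num)
    (fun u => Adm (WHdX N t τ k₀ n1 e0 E (2 * t * (2 ^ (j + 1) + 1)) (k₀ + u * st j)))
    (fun u _ => adm_univ _) (fun u _ A B hA hB => adm_inter _ A B hA hB)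
    (fun u _ u' _ h => ?_) (by positivity) (by positivity) hΛ
    (fun u _ A hA => ntb_tieAX hr hp hT (hX _) _ _ hM hA)
  rw [NTbX_eq]
  refine adm_NPX hN (fun q hq => ?_) (hsep u u' h)
  exact ⟨_, (mem_Wd.1 (Finset.mem_filter.1 hq).1).2.2.2.1⟩

end Pool.Agent.W_7d29a1_HZ.Z86.GX
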