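import Pool.Agent.W_7d29a1_HZ.OneS
import Pool.Agent.W_7d29a1_HZ.Depth

/-!
STORM Z AT ONE TILT: a bad junction of a cluster is a near tie (4.2 and 4.3 of the text), deterministic part. (helper72; port:
helper93)
-/

set_option autoImplicit false

namespace Pool.Agent.W_7d29a1_HZ.R72

open MeasureTheory ProbabilityTheory Filter Topology Finset
open Pool.Agent.W_7d29a1_F Pool.Agent.W_7d29a1_X Pool.Agent.W_7d29a1_h4g Pool.Agent.W_7d29a1_H
open Pool.Agent.W_7d29a1_HS (md)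
open Pool.Agent.W_7d29a1_HZ.Z86 (phi sp1 sp2 Wd Meet BadJ)
open Pool.Agent.W_7d29a1_Z86 (Runs)
open Pool.Agent.W_7d29a1_Z.Asm72
open _root_.W_7d29a1_Z.CtrOp77 (D)
open scoped ENNReal

variable {μ : Measure ℝ} {s : ℝ}

/-! ### The amplitudes -/

/-- The properties of the amplitudes which are used. -/
structure VOK (t τ N k₀ k₁ r : ℕ) (I : Finset ℕ) (V : ℕ → ℤ) : Prop where
  bd : ∀ b, |V b| ≤ r
  z0 : ∀ b, b < k₀ ∨ k₁ ≤ b → V b = 0
  svN : sv (pat t τ I V) 0 N = 0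
  svb : ∀ i, |sv (pat t τ I V) 0 i| ≤ r * I.card
  gap : ∀ k, k₀ ≤ k → (k + k₀) % 2 = 1 → ∀ i, zb t τ k ≤ i → i ≤ za t τ (k + 1) → sv (pat t τ I V) 0 i = 0

theorem za_mono' {t τ b b' : ℕ} (h : b ≤ b') : za t τ b ≤ za t τ b' := by
  unfold za
  have := Nat.mul_le_mul_left (2 * t) h
  omega

theorem amp_bd (r : ℕ) (b₀ m : ℕ) (σ : Fin m → Fin 4) (b : ℕ) : |amp r b₀ m σ b| ≤ r := by
  have hv : ∀ i : Fin 4, |(r : ℤ) * val i| ≤ r := by
    intro i
    rw [abs_mul, Nat.abs_cast]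
    have : |val i| ≤ 1 := by
      unfold val
      fin_cases i <;> simp
    calc (r : ℤ) * |val i| ≤ r * 1 := mul_le_mul_of_nonneg_left this (by positivity)
      _ = r := mul_one _
  unfold amp
  split_ifs with h1 h2
  · exact hv _
  · rw [abs_neg]
    exact hv _
  · simp

theorem amp_z0 (r : ℤ) (b₀ m : ℕ) (σ : Fin m → Fin 4) {b : ℕ} (h : b < b₀ ∨ b₀ + 2 * m ≤ b) : amp r b₀ m σ b = 0 := by
  unfold amp
  rw [dif_neg]
  rintro ⟨h1, h2⟩
  omega

theorem amp_ok {t τ N k₀ k₁ r : ℕ} {I : Finset ℕ} (ht : 4 ≤ t) (hI : I ⊆ Core t) (hk : k₀ ≤ k₁) (hN : za t τ k₁ ≤ N)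
    (σ : Fin ((k₁ - k₀) / 2) → Fin 4) : VOK t τ N k₀ k₁ r I (amp r k₀ ((k₁ - k₀) / 2) σ) := by
  refine ⟨amp_bd r k₀ _ σ, fun b hb => amp_z0 r k₀ _ σ (by omega), ?_, ?_, ?_⟩
  · exact pat_amp_sum_zero hI r k₀ _ σ (le_trans (za_mono' (by omega)) hN)
  · intro i
    have h := (pat_amp_sv (τ := τ) ht hI r k₀ _ σ i).1
    rwa [Nat.abs_cast] at h
  · intro k hk1 hk2 i hi1 hi2
    have h := (pat_amp_sv (τ := τ) ht hI r k₀ _ σ i).2.1 ((k - k₀) / 2)
    have e1 : k₀ + 2 * ((k - k₀) / 2) + 1 = k := by omega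
    have e2 : k₀ + 2 * ((k - k₀) / 2) + 2 = k + 1 := by omega
    rw [e1, e2] at h
    exact h (by omega) (by omega)

/-! ### The shift inside a zone and `ConeQ` -/

theorem sv_in_zone {t τ b x x' : ℕ} {I : Finset ℕ} (V : ℕ → ℤ) (h1 : za t τ b ≤ x) (h3 : x' ≤ zb t τ b) :
    |sv (pat t τ I V) x x'| ≤ |V b| * I.card := by
  classical
  refine (A12.abs_sv_le _ _ _).trans ?_
  have h4 : ∀ k ∈ Ico x x', |pat t τ I V k| = if k - za t τ b ∈ I then |V b| else 0 := by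
    intro k hk
    rw [mem_Ico] at hk
    rw [zb_eq] at h3
    have h5 := A12.pat_zone t τ I V b (k - za t τ b) (by omega)
    rw [show za t τ b + (k - za t τ b) = k by omega] at h5
    rw [h5]
    split_ifs <;> simp
  rw [Finset.sum_congr rfl h4, ← Finset.sum_filter, Finset.sum_const, nsmul_eq_mul, mul_comm]
  refine mul_le_mul_of_nonneg_left ?_ (abs_nonneg _)
  have h5 : ((Ico x x').filter fun k => k - za t τ b ∈ I).card ≤ I.card := by
    refine Finset.card_le_card_of_injOn (fun k => k - za t τ b) ?_ ?_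
    · intro k hk
      exact (mem_filter.1 hk).2
    · intro k hk k' hk' he
      have a1 := mem_Ico.1 (mem_filter.1 hk).1
      have a2 := mem_Ico.1 (mem_filter.1 hk').1
      simp only at he
      omega
  exact_mod_cast h5

/-- The pieces of a bracket are in the cone for both paths. -/
theorem coneQ_Qp {L N t τ l r m : ℕ} {I : Finset ℕ} {w : ℝ} {V : ℕ → ℤ} {lo hi : ℕ → ℕ}
    (hrN : ∀ b, l ≤ b → b < r → zb t τ b ≤ N) (hp : ∀ b, l ≤ b → b < r → Pce t (lo b) (hi b))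
    (hV : ∀ b, |V b| ≤ m) (hw : 2 * w + 4 * (m * I.card) ≤ min (sl μ s) (1 - sl μ s) * t) {S S' : Finset ℕ}
    (hX : Tame μ s L N t w (pos S)) (hX' : Tame μ s L N t w (pos S')) :
    ConeQ (pat t τ I V) (Qp t τ l r lo hi) (pos S) ∧ ConeQ (pat t τ I V) (Qp t τ l r lo hi) (px (pat t τ I V) S') := by
  have hsI : (0 : ℝ) ≤ (m : ℝ) * I.card := by positivity
  have key : ∀ X : ℕ → ℤ, Tame μ s L N t w X → ∀ b, l ≤ b → b < r →
      ∃ n : ℝ, n = ((za t τ b + hi b : ℕ) : ℝ) - (za t τ b + lo b : ℕ) ∧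
        2 * (((X (za t τ b + hi b) : ℤ) : ℝ) - X (za t τ b + lo b)) + 4 * (m * I.card) ≤ 2 * n ∧
        4 * (m * I.card) ≤ 2 * (((X (za t τ b + hi b) : ℤ) : ℝ) - X (za t τ b + lo b)) ∧
        |((sv (pat t τ I V) (za t τ b + lo b) (za t τ b + hi b) : ℤ) : ℝ)| ≤ m * I.card := by
    intro X hX b h1 h2
    have hN := hrN b h1 h2
    have hpb := hp b h1 h2
    have hle := hpb.le
    obtain ⟨p1, p2, p3⟩ := hpb
    rw [zb_eq] at hN
    have k1 := hX.2 (za t τ b + lo b) (za t τ b + hi b) (by omega) (by omega) (by omega)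
    obtain ⟨n, hn⟩ : ∃ n : ℝ, n = ((za t τ b + hi b : ℕ) : ℝ) - (za t τ b + lo b : ℕ) := ⟨_, rfl⟩
    obtain ⟨d, hd⟩ : ∃ d : ℝ, d = min (sl μ s) (1 - sl μ s) := ⟨_, rfl⟩
    have hd1 : d ≤ sl μ s := hd ▸ min_le_left _ _
    have hd2 : d ≤ 1 - sl μ s := hd ▸ min_le_right _ _
    have hn1 : (t : ℝ) ≤ 2 * n := by
      have h5 : t ≤ 2 * (hi b - lo b) := by omega
      have h6 : (t : ℝ) ≤ 2 * ((hi b : ℝ) - lo b) := by
        rw [← Nat.cast_sub hle]
        exact_mod_cast h5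
      rw [hn]
      push_cast
      linarith
    have hn2 : n ≤ t := by
      have h5 : hi b - lo b ≤ t := by omega
      have h6 : (hi b : ℝ) - lo b ≤ t := by
        rw [← Nat.cast_sub hle]
        exact_mod_cast h5
      rw [hn]
      push_cast
      linarith
    rw [← hn] at k1
    rw [← hd] at hw
    have hw0 : 0 ≤ w := (abs_nonneg _).trans k1
    have k2 := abs_le.1 k1
    -- the two margins
    have hdn : w + 2 * (m * I.card) ≤ d * n := by
      rcases Nat.eq_zero_or_pos t with h | h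
      · have ht0 : (t : ℝ) = 0 := by exact_mod_cast h
        rw [ht0, mul_zero] at hw
        rw [ht0] at hn1 hn2
        have hn0 : n = 0 := by linarith
        rw [hn0, mul_zero]
        linarith
      · have ht0 : (0 : ℝ) < t := by exact_mod_cast h
        have hd0 : 0 ≤ d := by
          by_contra hc
          have := mul_neg_of_neg_of_pos (not_le.1 hc) ht0
          linarith
        have := mul_le_mul_of_nonneg_left hn1 hd0
        linarith
    have hn0 : 0 ≤ n := by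
      have : (0 : ℝ) ≤ t := Nat.cast_nonneg t
      linarith
    have e1 : d * n ≤ sl μ s * n := mul_le_mul_of_nonneg_right hd1 hn0
    have e2 : d * n ≤ (1 - sl μ s) * n := mul_le_mul_of_nonneg_right hd2 hn0
    refine ⟨n, hn, by linarith [k2.2], by linarith [k2.1], ?_⟩
    rw [← Int.cast_abs]
    have h3 := sv_in_zone (t := t) (τ := τ) (b := b) (I := I) V (x := za t τ b + lo b) (x' := za t τ b + hi b)
      (by omega) (by rw [zb_eq]; omega)
    have h4 : |V b| * (I.card : ℤ) ≤ m * I.card := mul_le_mul_of_nonneg_right (hV b) (by positivity)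
    exact_mod_cast h3.trans h4
  constructor
  · intro q hq
    obtain ⟨b, hb, rfl⟩ := mem_image.1 hq
    have hb1 := mem_Ico.1 hb
    obtain ⟨n, hn, k1, k2, k3⟩ := key (pos S) hX b hb1.1 hb1.2
    have : (((|2 * (pos S (za t τ b + hi b) - pos S (za t τ b + lo b)) -
        (((za t τ b + hi b : ℕ) : ℤ) - (za t τ b + lo b : ℕ))| +
        2 * |sv (pat t τ I V) (za t τ b + lo b) (za t τ b + hi b)| : ℤ)) : ℝ) ≤
        ((((za t τ b + hi b : ℕ) : ℤ) - (za t τ b + lo b : ℕ) : ℤ) : ℝ) := by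
      push_cast at hn k1 k2 k3 ⊢
      rw [← hn]
      have h7 : |2 * ((pos S (za t τ b + hi b) : ℝ) - pos S (za t τ b + lo b)) - n| ≤ n - 4 * (m * I.card) := by
        rw [abs_le]
        constructor <;> linarith
      linarith
    exact_mod_cast this
  · intro q hq
    obtain ⟨b, hb, rfl⟩ := mem_image.1 hq
    have hb1 := mem_Ico.1 hb
    obtain ⟨n, hn, k1, k2, k3⟩ := key (pos S') hX' b hb1.1 hb1.2
    have hpb := hp b hb1.1 hb1.2
    have e1 : sv (pat t τ I V) 0 (za t τ b + hi b) - sv (pat t τ I V) 0 (za t τ b + lo b) =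
        sv (pat t τ I V) (za t τ b + lo b) (za t τ b + hi b) := by
      rw [sv_split (pat t τ I V) (Nat.zero_le (za t τ b + lo b)) (show za t τ b + lo b ≤ za t τ b + hi b by
        have := hpb.le
        omega)]
      ring
    have : (((|2 * (px (pat t τ I V) S' (za t τ b + hi b) - px (pat t τ I V) S' (za t τ b + lo b)) -
        (((za t τ b + hi b : ℕ) : ℤ) - (za t τ b + lo b : ℕ))| +
        2 * |sv (pat t τ I V) (za t τ b + lo b) (za t τ b + hi b)| : ℤ)) : ℝ) ≤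
        ((((za t τ b + hi b : ℕ) : ℤ) - (za t τ b + lo b : ℕ) : ℤ) : ℝ) := by
      have e2 : 2 * (px (pat t τ I V) S' (za t τ b + hi b) - px (pat t τ I V) S' (za t τ b + lo b)) -
          (((za t τ b + hi b : ℕ) : ℤ) - (za t τ b + lo b : ℕ)) =
          (2 * (pos S' (za t τ b + hi b) - pos S' (za t τ b + lo b)) -
          (((za t τ b + hi b : ℕ) : ℤ) - (za t τ b + lo b : ℕ))) -
          2 * sv (pat t τ I V) (za t τ b + lo b) (za t τ b + hi b) := by
        unfold px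
        rw [← e1]
        ring
      rw [e2]
      push_cast at hn k1 k2 k3 ⊢
      rw [← hn]
      have h7 : |2 * ((pos S' (za t τ b + hi b) : ℝ) - pos S' (za t τ b + lo b)) - n| ≤ n - 4 * (m * I.card) := by
        rw [abs_le]
        constructor <;> linarith
      have h8 := abs_sub (2 * ((pos S' (za t τ b + hi b) : ℝ) - pos S' (za t τ b + lo b)) - n)
        (2 * ((sv (pat t τ I V) (za t τ b + lo b) (za t τ b + hi b) : ℤ) : ℝ))
      rw [abs_mul 2 _, abs_of_pos (by norm_num : (0 : ℝ) < 2)] at h8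
      linarith
    exact_mod_cast this

/-! ### The near tie -/

/-- The separation events of a pair of paths: what the deterministic lemma `brk` needs. -/
structure SepOK (N t τ k₀ k₁ e0 E : ℕ) (v : ℕ → ℤ) (S S' : Finset ℕ) : Prop where
  /-- no fresh tube in a buffer -/
  fr : ∀ b β : ℕ, k₀ ≤ b → b ≤ k₁ → (β = zb t τ (b - 1) - t / 4 ∨ β = za t τ b) → β + t / 4 ≤ N →
    (∀ i, β ≤ i → i ≤ β + t / 4 → ¬ Meet v S S' i) → 
      ∃ i, β ≤ i ∧ i ≤ β + t / 4 ∧ 2 ^ (e0 + 1) ≤ |pos S i - px v S' i|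
  /-- the distance is bounded -/
  far : ∀ i : ℕ, i ≤ N → |pos S i - px v S' i| < 2 ^ (E + 2)

/-- The increments are bounded at all scales. -/
def FlatP (μ : Measure ℝ) (s : ℝ) (N e0 E : ℕ) (n1 : ℕ → ℕ) (S : Finset ℕ) : Prop :=
  ∀ e, e0 ≤ e → e ≤ E → ∀ i j : ℕ, i ≤ j → j ≤ N → j ≤ i + n1 e →
    32 * |(pos S j - md μ s j) - (pos S i - md μ s i)| ≤ 2 ^ e

/-- The bad events of the depth, for all brackets and windows. -/
def BadD (μ : Measure ℝ) (s : ℝ) (N t τ k₀ k₁ e0 E : ℕ) (n1 : ℕ → ℕ) (I : Finset ℕ) (V : ℕ → ℤ) (lm : ℝ) :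
    Set (Env × Finset ℕ × Finset ℕ) :=
  {θ | ∃ l r b a b' : ℕ, k₀ ≤ l ∧ l < r ∧ r ≤ k₁ ∧ k₀ ≤ b ∧ b ≤ k₁ ∧ a ≤ b' ∧ b' ≤ N ∧ ∃ W ∈ Wd N t τ k₀ n1 e0 E b,
    ∃ sg Y s₀ : ℤ, (sg = 1 ∨ sg = -1) ∧ |sg * (pos θ.2.2 W.2.1 - md μ s W.2.1) - Y| ≤ ((2 ^ (W.1 + 3) : ℕ) : ℤ) ∧
      (∀ i ∈ W.2.2, a < i ∧ i < b') ∧ (∀ i ∈ W.2.2, sv (pat t τ I V) 0 i = s₀) ∧
      Pcs (pat t τ I V) a b' W.2.2 (Qp t τ l r (qlo t τ W.2.2 l a) (qhi t τ W.2.2 r b')) ∧
      BadDepth μ s (pat t τ I V) a b' W.2.2 s₀ (Qp t τ l r (qlo t τ W.2.2 l a) (qhi t τ W.2.2 r b')) sg Y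
        ((2 ^ (W.1 + 3) : ℕ) : ℤ) lm θ.1 θ.2.1 θ.2.2}

/-- **4.2 + 4.3.** A bad junction of a cluster is nearly tied for the pair (sheared environment, `S'`). -/
theorem near_tie {L N t τ B k₀ k₁ K r e0 E : ℕ} {n1 : ℕ → ℕ} {I : Finset ℕ} {V : ℕ → ℤ} {w A h lm Del : ℝ} {η : Env}
    {S S' : Finset ℕ} (ht : 16 ≤ t) (hI : I ⊆ Core t) (hk : k₀ < k₁) (hk1 : k₁ ≤ B) (hkN : za t τ k₁ ≤ N)
    (hV : VOK t τ N k₀ k₁ r I V) (hs : r ≤ K) (hA : 0 ≤ A) (hR : RA μ s L t τ B I w A K η)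
    (hR' : RA μ s L t τ B I w A K (shr 0 (pat t τ I V) η)) (hX : Tame μ s L N t w (pos S)) (hX' : Tame μ s L N t w (pos S'))
    (hw : 2 * w + 4 * (r * I.card) ≤ min (sl μ s) (1 - sl μ s) * t) (hsep : SepOK N t τ k₀ k₁ e0 E (pat t τ I V) S S')
    (hn1 : ∀ e, e0 ≤ e → e ≤ E → 1 ≤ n1 e) (hF : FlatP μ s N e0 E n1 S) (hF' : FlatP μ s N e0 E n1 S')
    (hD : 64 * (r * I.card) ≤ 2 ^ e0) (hyS : pos S N = pos S' N) {p : ℕ × ℕ}
    (hp : p ∈ Runs (BadJ t τ k₀ k₁ (pat t τ I V) S S') k₀ k₁) {b : ℕ} (hb1 : p.1 ≤ b) (hb2 : b ≤ p.2)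
    (hb : BadJ t τ k₀ k₁ (pat t τ I V) S S' b)
    (hBD : (η, S, S') ∉ BadD μ s N t τ k₀ k₁ e0 E n1 I V lm)
    (hH : |∑ b ∈ Ico p.1 p.2, (fb μ s t τ I η b (V b) (pos S) - fb μ s t τ I η b 0 (pos S) -
      Db μ s t τ I r η b 0 (pos S) / 4)| ≤ h * √((p.2 - p.1 : ℕ) : ℝ) * (r * A))
    (hH' : |∑ b ∈ Ico p.1 p.2, (fb μ s t τ I (shr 0 (pat t τ I V) η) b (-V b) (pos S') -
      fb μ s t τ I (shr 0 (pat t τ I V) η) b 0 (pos S') - Db μ s t τ I r (shr 0 (pat t τ I V) η) b 0 (pos S') / 4)| ≤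
      h * √((p.2 - p.1 : ℕ) : ℝ) * (r * A))
    (hDel : |∑ b ∈ Ico p.1 p.2, Db μ s t τ I r η b 0 (pos S)| ≤ Del)
    (hDel' : |∑ b ∈ Ico p.1 p.2, Db μ s t τ I r (shr 0 (pat t τ I V) η) b 0 (pos S')| ≤ Del) :
    ∃ a b' : ℕ, (za t τ p.1 ≤ a ∨ p.1 = k₀) ∧ (b' ≤ zb t τ (p.2 - 1) ∨ p.2 = k₁) ∧ b' ≤ N ∧
      ∃ W ∈ Wd N t τ k₀ n1 e0 E b, (∀ i ∈ W.2.2, a < i ∧ i < b') ∧ ∀ H M, b' ≤ a + H →
        2 * (Del / 4 + h * √((p.2 - p.1 : ℕ) : ℝ) * (r * A) + 6 * (r * A)) + 3 * lm ≤ M →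
        NTW μ s N H W.2.1 W.2.2 (2 ^ W.1) (2 ^ (W.1 + 3)) M (shr 0 (pat t τ I V) η) S' := by
  set v := pat t τ I V with hv
  have hpm := Pool.Agent.W_7d29a1_Z86.mem_Runs.1 hp
  obtain ⟨p1, p2, p3, -, -, -, -⟩ := hpm
  have h0m : Meet v S S' 0 := by
    unfold Meet px
    rw [pos_zero, pos_zero, sv_self, sub_zero]
  have hNm : Meet v S S' N := by
    unfold Meet px
    rw [hV.svN, sub_zero, hyS]
  have hzk : zb t τ (k₁ - 1) ≤ za t τ k₁ := by
    have := za_lt (t := t) (τ := τ) (show k₁ - 1 < k₁ by omega)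
    rw [zb_eq]
    omega
  obtain ⟨a, b', ha, hb', hb'N, hap, hbp, hβs⟩ := Pool.Agent.W_7d29a1_HZ.Z86.bracket (by omega) h0m hNm
    (hzk.trans hkN) hp
  obtain ⟨β, hβ, haβ, hβb, hno⟩ := hβs b hb1 hb2 hb
  have hbk0 : k₀ ≤ b := p1.trans hb1
  have hbk1 : b ≤ k₁ := hb2.trans p2
  have hfr := hsep.fr b β hbk0 hbk1 hβ (hβb.trans hb'N) hno
  obtain ⟨W, hW, sg, Y, s₀, hsg, hY, hYd, hL, hRr, hab, hs₀⟩ := Pool.Agent.W_7d29a1_HZ.Z86.brk (n1 := n1) (E := E) ht hI hbk0 hβ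
    ha hb' haβ hβb hb'N hfr hsep.far hn1 hF hF' (fun i _ => by
      have h1 := hV.svb i
      have h2 : 64 * |sv (pat t τ I V) 0 i| ≤ 64 * (r * I.card : ℤ) := by linarith
      exact h2.trans (by exact_mod_cast hD)) hV.gap
  have hWm := Pool.Agent.W_7d29a1_HZ.Z86.mem_Wd.1 hW
  have hplace := Pool.Agent.W_7d29a1_HZ.Z86.Wd0_place hWm.2.2.1
  -- the rows of the window against the zones
  have hJc : ∀ i ∈ W.2.2, ∀ c, i ≤ za t τ c + t / 4 ∨ zb t τ c ≤ i + t / 4 := by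
    intro i hi c
    rcases hplace with h1 | h1 | h1
    · have h2 := h1 i hi
      rcases Nat.lt_trichotomy c (b - 1) with h3 | h3 | h3
      · have := za_lt (t := t) (τ := τ) h3
        rw [zb_eq] at h2
        right
        rw [zb_eq]
        omega
      · right
        rw [h3]
        omega
      · have := za_lt (t := t) (τ := τ) h3
        rw [zb_eq] at h2
        left
        omega
    · have h2 := h1 i hi
      rcases Nat.lt_trichotomy c b with h3 | h3 | h3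
      · have := za_lt (t := t) (τ := τ) h3
        right
        rw [zb_eq]
        omega
      · left
        rw [h3]
        omega
      · have := za_lt (t := t) (τ := τ) h3
        left
        omega
    · rcases h1 i hi c with h2 | h2
      · left
        omega
      · right
        omega
  obtain ⟨bJ, hbJ⟩ : ∃ bJ, ∀ i ∈ W.2.2, ∀ c, za t τ c < i → i < zb t τ c → c = bJ := by
    rcases hplace with h1 | h1 | h1
    · refine ⟨b - 1, fun i hi c h3 h4 => ?_⟩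
      have h2 := h1 i hi
      rcases Nat.lt_trichotomy c (b - 1) with h5 | h5 | h5
      · have := za_lt (t := t) (τ := τ) h5
        rw [zb_eq] at h2 h4
        omega
      · exact h5
      · have := za_lt (t := t) (τ := τ) h5
        rw [zb_eq] at h2
        omega
    · refine ⟨b, fun i hi c h3 h4 => ?_⟩
      have h2 := h1 i hi
      rcases Nat.lt_trichotomy c b with h5 | h5 | h5
      · have := za_lt (t := t) (τ := τ) h5
        rw [zb_eq] at h4
        omega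
      · exact h5
      · have := za_lt (t := t) (τ := τ) h5
        omega
    · refine ⟨0, fun i hi c h3 h4 => ?_⟩
      rcases h1 i hi c with h2 | h2 <;> omega
  -- the pieces
  have ha' : a ≤ za t τ p.1 + t / 4 := by
    rcases hap with h1 | h1
    · exact h1.2
    · rw [h1.1]
      omega
  have hb'' : zb t τ (p.2 - 1) ≤ b' + t / 4 := by
    rcases hbp with h1 | h1
    · omega
    · rw [h1.1, h1.2]
      have := hzk.trans hkN
      omega
  obtain ⟨hP, hQ⟩ := pcs_bracket (V := V) (J := W.2.2) hI p3 ha' hb''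
    (by
      rcases hap with h1 | h1
      · exact Or.inl h1.1
      · right
        intro c hc
        exact hV.z0 c (Or.inl (by omega)))
    (by
      rcases hbp with h1 | h1
      · exact Or.inl h1.2
      · right
        intro c hc
        exact hV.z0 c (Or.inr (by omega))) hJc
  have hrN : ∀ c, p.1 ≤ c → c < p.2 → zb t τ c ≤ N := by
    intro c _ hc
    have h1 : za t τ c ≤ za t τ (k₁ - 1) := za_mono' (by omega)
    rw [zb_eq] at hzk ⊢
    omega
  obtain ⟨hc1, hc2⟩ := coneQ_Qp hrN hP hV.bd hw hX hX'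
  -- the sizes
  have hz1 := depth_size (h := h) (by omega) hA hR (p2.trans hk1) hrN hX hV.bd hs hP hbJ hH
  have hV' : ∀ c, |(-V) c| ≤ (r : ℤ) := fun c => by
    rw [Pi.neg_apply, abs_neg]
    exact hV.bd c
  have hz2 := depth_size (h := h) (V := -V) (by omega) hA hR' (p2.trans hk1) hrN hX' hV' hs hP hbJ hH'
  have hneg : pat t τ I (-V) = -pat t τ I V := by
    funext k
    unfold pat
    simp only [Pi.neg_apply]
    split_ifs <;> simp
  have hback := A12.Xd_back (μ := μ) (s := s) (pat t τ I V) (Qp t τ p.1 p.2 (qlo t τ W.2.2 p.1 a) (qhi t τ W.2.2 p.2 b'))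
    (fun q hq => (hQ.sub q hq).2.1) η S'
  rw [hneg, hback, abs_neg] at hz2
  refine ⟨a, b', ?_, ?_, hb'N, W, hW, hab, fun H M hH1 hM => ⟨sg, Y, hsg, hY, hYd, hL, a, b', hb'N, hH1, hab, ?_⟩⟩
  · rcases hap with h1 | h1
    · exact Or.inl h1.1
    · exact Or.inr h1.2
  · rcases hbp with h1 | h1
    · exact Or.inl h1.2
    · exact Or.inr h1.2
  -- the depth
  by_contra hcon
  rw [not_le] at hcon
  refine hBD ⟨p.1, p.2, b, a, b', p1, p3, p2, hbk0, hbk1, by omega, hb'N, W, hW, sg, Y, s₀, hsg, hYd, hab, hs₀, hQ,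
    ha, hb', hL, hRr, hc1, hc2, hcon.trans_le ?_⟩
  refine mul_le_mul_of_nonneg_right (Real.exp_le_exp.2 ?_) (WR_nonneg _ _ _ _ _)
  have h8 := abs_le.1 hz1
  have h9 := abs_le.1 hz2
  linarith [h8.1, h9.2]

end Pool.Agent.W_7d29a1_HZ.R72
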