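import Pool.Agent.W_7d29a1_HZ.ZE_NTX
import Pool.Agent.W_7d29a1_HZ.Z86_OneDX

/-!
STORM Z, SECOND STOREY, at the tilt `s` (MP_7d29a1_pr): the production of near ties of the class outside a small set, in the form `hPX` of
`Z86.OneZX`. The set is the union of the bad events of the depth (`BadDX`) and of the irregular paths (`not TVp`). (helper15)
-/

set_option autoImplicit false

namespace Pool.Agent.W_7d29a1_HZ.ZE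

open MeasureTheory ProbabilityTheory Filter Topology Finset
open Pool.Agent.W_7d29a1_F Pool.Agent.W_7d29a1_X Pool.Agent.W_7d29a1_h4g Pool.Agent.W_7d29a1_H Pool.Agent.W_7d29a1_HZ
open Pool.Agent.W_7d29a1_HZ.Z86 (phi sp1 sp2 Wd Meet BadJ RegT hp0_86)
open Pool.Agent.W_7d29a1_Z86 (Runs)
open Pool.Agent.W_7d29a1_HZ.Z86.GX (WT NRel NOk NJ)
open Pool.Agent.W_7d29a1_Z.Asm72
open Pool.Agent.W_7d29a1_HZ.R72
open scoped ENNReal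

variable {μ : Measure ℝ} {s : ℝ}

/-- Outside of `BadS`, of `BadDX` and of the irregular paths the bad junctions of the clusters are near ties of the class. -/
theorem nj_of_badX {L N t τ B k₀ k₁ K sa e0 E : ℕ} {n1 : ℕ → ℕ} {I : Finset ℕ} {V : ℕ → ℤ} {w A h lm : ℝ} {y : ℤ}
    {θ : Env × Finset ℕ × Finset ℕ} {pr : Par} (hpr : POk μ s t n1 e0 E pr) (ht : 16 ≤ t) (hI : I ⊆ Core t) (hk : k₀ < k₁)
    (hk1 : k₁ ≤ B) (hkN : za t τ k₁ ≤ N) (hV : VOK t τ N k₀ k₁ sa I V) (hs : sa ≤ K) (hA : 0 ≤ A)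
    (hw : 2 * w + 4 * (sa * I.card) ≤ min (sl μ s) (1 - sl μ s) * t) (hn1 : ∀ e, e0 ≤ e → e ≤ E → 1 ≤ n1 e) (hD : 64 * (sa * I.card) ≤ 2 ^ e0)
    (hθ : θ ∉ BadS μ s L N y t τ B k₀ k₁ K sa e0 E n1 I w A h lm V)
    (hBD : θ ∉ BadDX μ s N t τ k₀ k₁ e0 E n1 pr I V lm) (hTV : TVp μ s N pr θ.2.1) :
    NJ μ s (NXE μ s N y pr) N t τ k₀ k₁ sa e0 E n1 I A h lm V θ := by
  obtain ⟨c1, c2, c3, c4, c5, c6, -, c8, c9⟩ := badS_not hθ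
  intro p hp b hb1 hb2 hb Del hDel hDel'
  have hpm := Pool.Agent.W_7d29a1_Z86.mem_Runs.1 hp
  obtain ⟨p1, p2, p3, -, -, -, -⟩ := hpm
  exact near_tieX y hpr hTV ht hI hk hk1 hkN hV hs hA c2 c3 c4.1 c5.1 hw c6 hn1 c4.2 c5.2 hD
    (c1.2.2.1.trans c1.2.2.2.symm) hp hb1 hb2 hb hBD (c8 p.1 p.2 ⟨p1, p3, p2⟩) (c9 p.1 p.2 ⟨p1, p3, p2⟩) hDel hDel'

/-- The additional bad set of the second storey. -/
def BadPX (μ : Measure ℝ) (s : ℝ) (N t τ k₀ k₁ e0 E : ℕ) (n1 : ℕ → ℕ) (pr : Par) (I : Finset ℕ) (V : ℕ → ℤ) (lm : ℝ) :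
    Set (Env × Finset ℕ × Finset ℕ) :=
  {θ | ¬ TVp μ s N pr θ.2.1} ∪ BadDX μ s N t τ k₀ k₁ e0 E n1 pr I V lm

/-- Irregular paths are as rare as irregular scales plus irregular paths with regular scales. -/
theorem P1_tvp {L N : ℕ} {y : ℤ} {ε p1 p2 : ℝ} {pr : Par} (hp1 : 0 ≤ p1) (hp2 : 0 ≤ p2)
    (h1 : P1 μ s N y (fun _ S => ¬ NSp μ s L N ε S) ≤ ENNReal.ofReal p1)
    (h2 : P1 μ s N y (fun _ S => NSp μ s L N ε S ∧ ¬ TVp μ s N pr S) ≤ ENNReal.ofReal p2) :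
    P1 μ s N y (fun _ S => ¬ TVp μ s N pr S) ≤ ENNReal.ofReal (p1 + p2) := by
  rw [ENNReal.ofReal_add hp1 hp2]
  refine le_trans ?_ ((P1_or _ _).trans (add_le_add h1 h2))
  refine P1_mono' fun η S _ _ h3 => ?_
  by_cases h4 : NSp μ s L N ε S
  · exact Or.inr ⟨h4, h3⟩
  · exact Or.inl h4

/-- The price of `BadPX`. -/
theorem badPX_pr [IsProbabilityMeasure μ] {N t τ k₀ k₁ e0 E : ℕ} {n1 : ℕ → ℕ} {pr : Par} {I : Finset ℕ} {V : ℕ → ℤ}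
    {lm p r : ℝ} {y : ℤ} (h0 : 0 ≤ y) (h1 : y ≤ N) (hp : 0 ≤ p)
    (hTV : P1 μ s N y (fun _ S => ¬ TVp μ s N pr S) ≤ ENNReal.ofReal p)
    (hBD : (sp2 μ s h0 h1 (pat t τ I V)).pr (BadDX μ s N t τ k₀ k₁ e0 E n1 pr I V lm) ≤ r) :
    (sp2 μ s h0 h1 (pat t τ I V)).pr (BadPX μ s N t τ k₀ k₁ e0 E n1 pr I V lm) ≤ p + r := by
  refine ((sp2 μ s h0 h1 (pat t τ I V)).union _ _).trans (add_le_add ?_ hBD)
  refine le_trans (le_of_eq (hp0_86 h0 h1 (pat t τ I V) {q | ¬ TVp μ s N pr q.2})) ?_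
  exact ENNReal.toReal_le_of_le_ofReal hp hTV

/-- **The witness of `hPX`** (`Z86.OneZX`, `Z86.InnAX`) for one `V`. -/
theorem hPX_of [IsProbabilityMeasure μ] {L N t τ B k₀ k₁ K sa e0 E X : ℕ} {n1 : ℕ → ℕ} {I : Finset ℕ} {V : ℕ → ℤ}
    {w A h lm p : ℝ} {y : ℤ} {pr : Par} (h0 : 0 ≤ y) (h1 : y ≤ N) (hpr : POk μ s t n1 e0 E pr) (ht : 16 ≤ t)
    (hI : I ⊆ Core t) (hk : k₀ < k₁) (hk1 : k₁ ≤ B) (hkN : za t τ k₁ ≤ N) (hV : VOK t τ N k₀ k₁ sa I V) (hs : sa ≤ K)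
    (hA : 0 ≤ A) (hw : 2 * w + 4 * (sa * I.card) ≤ min (sl μ s) (1 - sl μ s) * t) (hn1 : ∀ e, e0 ≤ e → e ≤ E → 1 ≤ n1 e)
    (hD : 64 * (sa * I.card) ≤ 2 ^ e0) (hp : 0 ≤ p)
    (hTV : P1 μ s N y (fun _ S => ¬ TVp μ s N pr S) ≤ ENNReal.ofReal p)
    (hBD : (sp2 μ s h0 h1 (pat t τ I V)).pr (BadDX μ s N t τ k₀ k₁ e0 E n1 pr I V lm) ≤
      (10 * ((L : ℝ) + 1)) ^ 6 * X * Real.exp (-lm)) :
    ∃ Bd : Set (Env × Finset ℕ × Finset ℕ),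
      (sp2 μ s h0 h1 (pat t τ I V)).pr Bd ≤ p + (10 * ((L : ℝ) + 1)) ^ 6 * X * Real.exp (-lm) ∧
      ∀ θ : Env × Finset ℕ × Finset ℕ, θ ∉ BadS μ s L N y t τ B k₀ k₁ K sa e0 E n1 I w A h lm V → θ ∉ Bd →
        NJ μ s (NXE μ s N y pr) N t τ k₀ k₁ sa e0 E n1 I A h lm V θ := by
  refine ⟨BadPX μ s N t τ k₀ k₁ e0 E n1 pr I V lm, badPX_pr h0 h1 hp hTV hBD, fun θ hθ hθ' => ?_⟩
  have h2 : θ ∉ BadDX μ s N t τ k₀ k₁ e0 E n1 pr I V lm := fun h3 => hθ' (Or.inr h3)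
  have h3 : TVp μ s N pr θ.2.1 := by
    by_contra h4
    exact hθ' (Or.inl h4)
  exact nj_of_badX hpr ht hI hk hk1 hkN hV hs hA hw hn1 hD hθ h2 h3

end Pool.Agent.W_7d29a1_HZ.ZE
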