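import Pool.Agent.W_7d29a1_HZ.ZE_PriceE
import Pool.Agent.W_7d29a1_HZ.ZE_TieE
import Pool.Agent.W_7d29a1_HZ.Z86_Num86
import Pool.Agent.W_7d29a1_HZ.PB
import Pool.Agent.W_7d29a1_HZ.NS

/-!
STORM Z AT ONE TILT `s`, SECOND STOREY: the parameters of the classes and the price `L ^ ε / EE' t` of the near ties `NXE` at the windows of the lists
`Wd`, for all the numbers `Nm`. (helper36)
-/

set_option autoImplicit false

namespace Pool.Agent.W_7d29a1_HZ.ZE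

open MeasureTheory ProbabilityTheory Filter Topology Finset
open Pool.Agent.W_7d29a1_F Pool.Agent.W_7d29a1_X Pool.Agent.W_7d29a1_h4g Pool.Agent.W_7d29a1_H Pool.Agent.W_7d29a1_HZ
open Pool.Agent.W_7d29a1_HS (In wd md)
open Pool.Agent.W_7d29a1_HZ.Z86 (Wd mem_Wd Nm ev_const exists_pow wd'_one_le)
open Pool.Agent.W_7d29a1_HZ.Z86.GX (WT NRel NOk TieInX)
open Pool.Agent.W_7d29a1_Z17 (num_exp)
open Pool.Agent.W_7d29a1_ZE (Win Br cAnd mid Ce al mem_JJ J_sub_JJ node_JJ)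
open scoped ENNReal

noncomputable section

variable {μ : Measure ℝ} {s : ℝ}

/-- The scales of the classes. -/
theorem exists_scales {e₁ e' θ : ℝ} (he₁ : 0 < e₁) (_he' : 0 < e') (h1 : e' + 3 * e₁ < θ) :
    ∃ L₀ : ℕ, ∀ L t : ℕ, L₀ ≤ L → (L : ℝ) ^ θ ≤ t → ∃ a i₀ i₁ : ℕ, i₀ ≤ i₁ ∧ i₁ ≤ a ∧ (2 : ℝ) ^ a ≤ t * (L : ℝ) ^ (-e') ∧
      (t : ℝ) ≤ 2 * (L : ℝ) ^ e' * 2 ^ a ∧ ((2 * L : ℕ) : ℝ) ^ e₁ ≤ 2 ^ i₀ ∧ (2 : ℝ) ^ i₀ ≤ 2 * ((2 * L : ℕ) : ℝ) ^ e₁ ∧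
      ((2 * L : ℕ) : ℝ) ^ e₁ ≤ 2 ^ (a - i₁) ∧ (2 : ℝ) ^ (a - i₁) ≤ 2 * ((2 * L : ℕ) : ℝ) ^ e₁ := by
  obtain ⟨L₁, hL₁⟩ := ev_const (8 * (2 : ℝ) ^ (2 * e₁)) (show 0 < e₁ by positivity)
  refine ⟨L₁ + 1, fun L t hL ht => ?_⟩
  have hL1 : (1 : ℝ) ≤ L := by exact_mod_cast (show 1 ≤ L by omega)
  have hLp : (0 : ℝ) < L := by linarith
  have hΛ : ((2 * L : ℕ) : ℝ) ^ e₁ = (2 : ℝ) ^ e₁ * (L : ℝ) ^ e₁ := by
    push_cast
    rw [Real.mul_rpow (by norm_num) hLp.le]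
  obtain ⟨x, hx⟩ : ∃ x : ℝ, x = ((2 * L : ℕ) : ℝ) ^ e₁ := ⟨_, rfl⟩
  have hx1 : 1 ≤ x := by
    rw [hx]
    refine Real.one_le_rpow ?_ he₁.le
    push_cast
    linarith
  rw [← hx]
  have hz : 8 * (x * x) ≤ (L : ℝ) ^ (3 * e₁) := by
    have e1 : x * x = (2 : ℝ) ^ (2 * e₁) * (L : ℝ) ^ (2 * e₁) := by
      rw [hx, hΛ, two_mul e₁, Real.rpow_add (by norm_num), Real.rpow_add hLp]
      ring
    rw [e1]
    have h2 := hL₁ L (by omega)
    calc 8 * ((2 : ℝ) ^ (2 * e₁) * (L : ℝ) ^ (2 * e₁)) = 8 * (2 : ℝ) ^ (2 * e₁) * (L : ℝ) ^ (2 * e₁) := by ring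
      _ ≤ (L : ℝ) ^ e₁ * (L : ℝ) ^ (2 * e₁) := mul_le_mul_of_nonneg_right h2 (by positivity)
      _ = (L : ℝ) ^ (3 * e₁) := by
        rw [← Real.rpow_add hLp]
        congr 1
        ring
  have htp : (0 : ℝ) < t := lt_of_lt_of_le (Real.rpow_pos_of_pos hLp _) ht
  -- the exponent of the intervals
  have hy : (L : ℝ) ^ (3 * e₁) ≤ t * (L : ℝ) ^ (-e') := by
    calc (L : ℝ) ^ (3 * e₁) ≤ (L : ℝ) ^ (θ + -e') := Real.rpow_le_rpow_of_exponent_le hL1 (by linarith)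
      _ = (L : ℝ) ^ θ * (L : ℝ) ^ (-e') := Real.rpow_add hLp _ _
      _ ≤ t * (L : ℝ) ^ (-e') := mul_le_mul_of_nonneg_right ht (Real.rpow_nonneg hLp.le _)
  have hxx : 1 ≤ x * x := one_le_mul_of_one_le_of_one_le hx1 hx1
  obtain ⟨a, ha1, ha2⟩ := exists_pow (show (1 : ℝ) ≤ t * (L : ℝ) ^ (-e') by linarith)
  obtain ⟨j, hj1, hj2⟩ := exists_pow hx1
  have hja : (2 : ℝ) ^ (j + 1) * 2 ^ (j + 1) ≤ 2 ^ a := by
    have h2 : (2 : ℝ) ^ (j + 1) ≤ 2 * x := by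
      rw [pow_succ]
      linarith
    have h3 : (2 : ℝ) ^ (j + 1) * 2 ^ (j + 1) ≤ (2 * x) * (2 * x) := mul_le_mul h2 h2 (by positivity) (by positivity)
    have h4 : (2 : ℝ) ^ (a + 1) = 2 * 2 ^ a := by ring
    rw [h4] at ha2
    nlinarith
  have hja' : 2 * (j + 1) ≤ a := by
    have h2 : (2 : ℝ) ^ (2 * (j + 1)) ≤ 2 ^ a := by
      rw [two_mul, pow_add]
      exact hja
    have h3 : 2 ^ (2 * (j + 1)) ≤ 2 ^ a := by exact_mod_cast h2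
    exact (Nat.pow_le_pow_iff_right (by norm_num)).1 h3
  refine ⟨a, j + 1, a - (j + 1), by omega, by omega, ha1, ?_, hj2.le, ?_, ?_, ?_⟩
  · have h2 : (L : ℝ) ^ (-e') * (L : ℝ) ^ e' = 1 := by
      rw [← Real.rpow_add hLp, neg_add_cancel, Real.rpow_zero]
    have h3 : (t : ℝ) = t * (L : ℝ) ^ (-e') * (L : ℝ) ^ e' := by
      rw [mul_assoc, h2, mul_one]
    have h4 : (2 : ℝ) ^ (a + 1) = 2 * 2 ^ a := by ring
    rw [h4] at ha2
    calc (t : ℝ) = t * (L : ℝ) ^ (-e') * (L : ℝ) ^ e' := h3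
      _ ≤ 2 * 2 ^ a * (L : ℝ) ^ e' := mul_le_mul_of_nonneg_right ha2.le (Real.rpow_nonneg hLp.le _)
      _ = _ := by ring
  · rw [pow_succ]
    linarith
  · rw [show a - (a - (j + 1)) = j + 1 by omega]
    exact hj2.le
  · rw [show a - (a - (j + 1)) = j + 1 by omega, pow_succ]
    linarith

/-- **The parameters of the classes, the price of the near ties and the regularity of the ordinary path.** -/
theorem numX [IsProbabilityMeasure μ] {c C : ℝ} {n₀ : ℕ} (h : In μ s c C n₀) (hT : ∀ C : ℝ, 0 < C → TieEC μ s C)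
    {ε θ : ℝ} (hε : 0 < ε) (hθ : 0 < θ) :
    ∃ ε₃ ε₅ c' : ℝ, 0 < ε₃ ∧ 0 < ε₅ ∧ 0 < c' ∧ ∃ L₀ : ℕ, ∀ L : ℕ, L₀ ≤ L → ∀ N t : ℕ, N ≤ L → (L : ℝ) ^ θ ≤ t → t ≤ N →
      ∀ y : ℤ, 0 ≤ y → y ≤ N → ∃ p : Par,
        P1 μ s N y (fun _ S => NSp μ s L N ε₅ S ∧ ¬ TVp μ s N p S) ≤ ENNReal.ofReal (Real.exp (-(L : ℝ) ^ c')) ∧
        ∀ (ε₂ ε₄ : ℝ) (n1 : ℕ → ℕ) (e0 E : ℕ), ε₂ ≤ ε₃ → ε₄ ≤ ε₃ → Nm μ s L N t ε₂ ε₄ n1 e0 E →
          POk μ s t n1 e0 E p ∧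
          ∀ τ k₀, TieInX μ s (NXE μ s N y p) N y t τ k₀ n1 e0 E ((L : ℝ) ^ ε / EE' μ s t) (Real.exp (-(L : ℝ) ^ c')) := by
  obtain ⟨aw, Kw, haw0, haw1, hKw, hw⟩ := wd'_pow h
  obtain ⟨aE, KE, haE0, haE1, hKE, hE⟩ := EE'_pow h
  obtain ⟨Ct, hCt, htv⟩ := tvE h
  obtain ⟨εT, hεT⟩ : ∃ εT : ℝ, εT = min (ε / 8) (θ / 8) := ⟨_, rfl⟩
  have hεT0 : 0 < εT := by rw [hεT]; exact lt_min (by positivity) (by positivity)
  have hεT1 : εT ≤ ε / 8 := by rw [hεT]; exact min_le_left _ _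
  have hεT2 : εT ≤ θ / 8 := by rw [hεT]; exact min_le_right _ _
  obtain ⟨e₁, he₁, he₁ε, e₀, he₀, hTe⟩ := hT Ct hCt εT hεT0
  obtain ⟨e, hee⟩ : ∃ e : ℝ, e = min (min (e₀ / 2) (aw * e₁ / 8)) (min (ε / 8) (θ / 8)) := ⟨_, rfl⟩
  have he0 : 0 < e := by rw [hee]; positivity
  have hee₀ : e < e₀ := by
    have : e ≤ e₀ / 2 := by rw [hee]; exact (min_le_left _ _).trans (min_le_left _ _)
    linarith
  have heaw : e ≤ aw * e₁ / 8 := by rw [hee]; exact (min_le_left _ _).trans (min_le_right _ _)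
  have heε : e ≤ ε / 8 := by rw [hee]; exact (min_le_right _ _).trans (min_le_left _ _)
  have heθ : e ≤ θ / 8 := by rw [hee]; exact (min_le_right _ _).trans (min_le_right _ _)
  obtain ⟨cT, hcT, LT, hTL⟩ := hTe e he0 hee₀
  obtain ⟨ε', cV, hε', hcV, LV, hV⟩ := htv e₁ he₁
  obtain ⟨L₁, -, hL₁⟩ := num_exp hcT
  obtain ⟨L₂, hL₂⟩ := exists_scales he₁ he0 (show e + 3 * e₁ < θ by linarith)
  obtain ⟨L₃, hL₃⟩ := ev_const 2048 (show 0 < e / 2 by positivity)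
  obtain ⟨L₄, hL₄⟩ := ev_const (2048 * Kw) (show 0 < e / 2 by positivity)
  obtain ⟨L₅, hL₅⟩ := ev_const ((2 : ℝ) ^ (2 * e) * Kw) (show 0 < aw * e₁ / 2 by positivity)
  obtain ⟨L₆, hL₆⟩ := ev_const (36 * ((2 : ℝ) ^ εT * (KE * 2))) (show 0 < ε / 2 by positivity)
  obtain ⟨L₇, hL₇⟩ := ev_const 16 hθ
  refine ⟨min (e / 2) (aw * e₁ / 8), min ε' e, min cV (cT / 2), lt_min (by positivity) (by positivity), lt_min hε' he0,
    lt_min hcV (by positivity), LT + LV + L₁ + L₂ + L₃ + L₄ + L₅ + L₆ + L₇ + 1, fun L hL N t hNL htL htN y hy0 hyN => ?_⟩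
  have hL3 := hL₃ L (by omega)
  have hL4 := hL₄ L (by omega)
  have hL5 := hL₅ L (by omega)
  have hL6 := hL₆ L (by omega)
  have hL7 := hL₇ L (by omega)
  have hL0 : (1 : ℝ) ≤ L := by exact_mod_cast (show 1 ≤ L by omega)
  have hLp : (0 : ℝ) < L := by linarith
  have htp : (0 : ℝ) < t := lt_of_lt_of_le (Real.rpow_pos_of_pos hLp _) htL
  have ht16 : 16 ≤ t := by exact_mod_cast (hL7.trans htL)
  obtain ⟨a, i₀, i₁, hi01, hi1a, ha1, ha2, s1, s2, s3, s4⟩ := hL₂ L t (by omega) htL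
  have hΛR : ((2 * L : ℕ) : ℝ) = 2 * (L : ℝ) := by push_cast; ring
  have hLΛ : (L : ℝ) ≤ ((2 * L : ℕ) : ℝ) := by rw [hΛR]; linarith
  have hΛ1 : (1 : ℝ) ≤ ((2 * L : ℕ) : ℝ) := hL0.trans hLΛ
  have hPa : (0 : ℝ) < 2 ^ a := by positivity
  have hLe1 : (L : ℝ) ^ e₁ ≤ ((2 * L : ℕ) : ℝ) ^ e₁ := Real.rpow_le_rpow hLp.le hLΛ he₁.le
  have hpow : ∀ i, i ≤ i₁ → (2 : ℝ) ^ i * (L : ℝ) ^ e₁ ≤ t := by
    intro i hi
    have h1 : (2 : ℝ) ^ i ≤ 2 ^ i₁ := pow_le_pow_right₀ (by norm_num) hi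
    have h2 : (2 : ℝ) ^ i₁ * 2 ^ (a - i₁) = 2 ^ a := by
      rw [← pow_add, Nat.add_sub_cancel' hi1a]
    have h3 : (L : ℝ) ^ (-e) ≤ 1 := Real.rpow_le_one_of_one_le_of_nonpos hL0 (by linarith)
    calc (2 : ℝ) ^ i * (L : ℝ) ^ e₁ ≤ 2 ^ i₁ * 2 ^ (a - i₁) := mul_le_mul h1 (hLe1.trans s3) (by positivity) (by positivity)
      _ = 2 ^ a := h2
      _ ≤ t * (L : ℝ) ^ (-e) := ha1
      _ ≤ t := mul_le_of_le_one_right htp.le h3
  refine ⟨⟨2 * L, e, Ct, a, i₀, i₁⟩, ?_, fun ε₂ ε₄ n1 e0 E h2 h4 hnm => ?_⟩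
  · -- the ordinary path
    refine le_trans (P1_mono ?_) ((hV L (by omega) N hNL y hy0 hyN).trans (ENNReal.ofReal_le_ofReal (Real.exp_le_exp.2
      (neg_le_neg (Real.rpow_le_rpow_of_exponent_le hL0 (min_le_left _ _))))))
    rintro η S _ ⟨hns, hnt⟩
    refine ⟨fun i n hn hin => (hns i n hn hin).trans ?_, ?_⟩
    · have h5 : (L : ℝ) ^ min ε' e ≤ (L : ℝ) ^ ε' := Real.rpow_le_rpow_of_exponent_le hL0 (min_le_left _ _)
      have h6 : 0 ≤ wd' μ s n := zero_le_one.trans (wd'_one_le n)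
      have h7 := mul_le_mul_of_nonneg_right h5 h6
      linarith
    · by_contra hcon
      push Not at hcon
      refine hnt fun i g1 g2 T hT => ?_
      have hia : i ≤ a := g2.trans hi1a
      refine ⟨fun k hk => ?_, ?_⟩
      · have h8 : (k + 1) * 2 ^ i ≤ 2 ^ (a - i) * 2 ^ i := Nat.mul_le_mul_right _ hk
        rw [← pow_add, Nat.sub_add_cancel hia] at h8
        have h9 : T + (k + 1) * 2 ^ i = T + k * 2 ^ i + 2 ^ i := by ring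
        have h10 := hns (T + k * 2 ^ i) (2 ^ i) Nat.one_le_two_pow (by
          rw [← h9]
          have : T + 2 ^ a ≤ N := hT
          omega)
        rw [← h9, Int.cast_sub] at h10
        refine h10.trans ?_
        have h11 : (L : ℝ) ^ min ε' e ≤ ((2 * L : ℕ) : ℝ) ^ e :=
          (Real.rpow_le_rpow_of_exponent_le hL0 (min_le_right _ _)).trans (Real.rpow_le_rpow hLp.le hLΛ he0.le)
        have h12 : 0 ≤ wd' μ s (2 ^ i) := zero_le_one.trans (wd'_one_le _)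
        have h13 := mul_le_mul_of_nonneg_right h11 h12
        show (L : ℝ) ^ min ε' e * wd' μ s (2 ^ i) ≤ ((2 * L : ℕ) : ℝ) ^ e * wd' μ s (2 ^ i)
        linarith
      · refine hcon a i T ?_ ?_ hia hT
        · refine (hLe1.trans s1).trans ?_
          push_cast
          exact pow_le_pow_right₀ (by norm_num) g1
        · refine (hLe1.trans s3).trans ?_
          push_cast
          exact pow_le_pow_right₀ (by norm_num) (Nat.sub_le_sub_left g2 a)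
  · -- the numbers
    have h2' : ε₂ ≤ aw * e₁ / 8 := h2.trans (min_le_right _ _)
    have h4' : ε₄ ≤ e / 2 := h4.trans (min_le_left _ _)
    have hn1 : ∀ g, e0 ≤ g → g ≤ E → 2048 * 2 ^ a ≤ n1 g := by
      intro g g1 g2
      have h5 := hnm.n1_ge g g1 g2
      have h6 : (L : ℝ) ^ ε₄ ≤ (L : ℝ) ^ (e / 2) := Real.rpow_le_rpow_of_exponent_le hL0 h4'
      have h7 : (L : ℝ) ^ (-e) * ((L : ℝ) ^ (e / 2) * (L : ℝ) ^ (e / 2)) = 1 := by
        rw [← Real.rpow_add hLp, ← Real.rpow_add hLp, show -e + (e / 2 + e / 2) = 0 by ring, Real.rpow_zero]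
      have h8 : (2048 : ℝ) * 2 ^ a ≤ n1 g := by
        have h9 : (0 : ℝ) ≤ (L : ℝ) ^ (-e) := Real.rpow_nonneg hLp.le _
        have h10 : (0 : ℝ) ≤ n1 g := Nat.cast_nonneg _
        calc (2048 : ℝ) * 2 ^ a ≤ (L : ℝ) ^ (e / 2) * (t * (L : ℝ) ^ (-e)) := mul_le_mul hL3 ha1 hPa.le (by positivity)
          _ ≤ (L : ℝ) ^ (e / 2) * ((L : ℝ) ^ (e / 2) * n1 g * (L : ℝ) ^ (-e)) := by
              have h11 : (t : ℝ) ≤ (L : ℝ) ^ (e / 2) * n1 g := h5.trans (mul_le_mul_of_nonneg_right h6 h10)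
              gcongr
          _ = (L : ℝ) ^ (-e) * ((L : ℝ) ^ (e / 2) * (L : ℝ) ^ (e / 2)) * n1 g := by ring
          _ = n1 g := by rw [h7, one_mul]
      exact_mod_cast h8
    have hP8 : 8 * 2 ^ a ≤ t := by
      have h5 : (8 : ℝ) * 2 ^ a ≤ t := by
        have h7 : (8 : ℝ) ≤ (L : ℝ) ^ e := by
          have h8 : (L : ℝ) ^ (e / 2) ≤ (L : ℝ) ^ e := Real.rpow_le_rpow_of_exponent_le hL0 (by linarith)
          linarith
        have h9 : (L : ℝ) ^ e * (L : ℝ) ^ (-e) = 1 := by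
          rw [← Real.rpow_add hLp, add_neg_cancel, Real.rpow_zero]
        calc (8 : ℝ) * 2 ^ a ≤ (L : ℝ) ^ e * (t * (L : ℝ) ^ (-e)) := mul_le_mul h7 ha1 hPa.le (by positivity)
          _ = ((L : ℝ) ^ e * (L : ℝ) ^ (-e)) * t := by ring
          _ = t := by rw [h9, one_mul]
      exact_mod_cast h5
    have hat : 2 ^ a ≤ t := by omega
    have hPok : POk μ s t n1 e0 E ⟨2 * L, e, Ct, a, i₀, i₁⟩ := by
      refine ⟨hi1a, hP8, hn1, fun g g1 g2 i j1 j2 => ?_⟩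
      -- the walls
      show 16 * (((2 * L : ℕ) : ℝ) ^ (2 * e) * wd' μ s (2 ^ i)) ≤ 2 ^ g
      have hg : (2 : ℝ) ^ e0 ≤ 2 ^ g := pow_le_pow_right₀ (by norm_num) g1
      refine le_trans ?_ (hnm.e0_ge.trans hg)
      have hit : 2 ^ i ≤ t := by
        have h5 : 2 ^ i ≤ 2 ^ a := Nat.pow_le_pow_right (by norm_num) (j2.trans hi1a)
        omega
      obtain ⟨-, hlow, -⟩ := hw (2 ^ i) t Nat.one_le_two_pow hit
      have hwi := wd'_one_le (μ := μ) (s := s) (2 ^ i)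
      have hPi : (0 : ℝ) < 2 ^ i := by positivity
      have h5 : (L : ℝ) ^ (aw * e₁) ≤ ((t : ℝ) / ((2 ^ i : ℕ) : ℝ)) ^ aw := by
        rw [mul_comm aw, Real.rpow_mul hLp.le]
        refine Real.rpow_le_rpow (by positivity) ?_ haw0.le
        push_cast
        rw [le_div_iff₀ hPi, mul_comm]
        exact hpow i j2
      have h6 : (L : ℝ) ^ (aw * e₁) * wd' μ s (2 ^ i) ≤ Kw * wd' μ s t := by
        have h7 : Kw⁻¹ * (L : ℝ) ^ (aw * e₁) * wd' μ s (2 ^ i) ≤ wd' μ s t := by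
          refine le_trans ?_ hlow
          have : 0 ≤ Kw⁻¹ := inv_nonneg.2 (by linarith)
          gcongr
        have h8 := mul_le_mul_of_nonneg_left h7 (show (0 : ℝ) ≤ Kw by linarith)
        refine le_trans (le_of_eq ?_) h8
        rw [mul_assoc, ← mul_assoc Kw, mul_inv_cancel₀ (by linarith), one_mul]
      have e1 : ((2 * L : ℕ) : ℝ) ^ (2 * e) = (2 : ℝ) ^ (2 * e) * (L : ℝ) ^ (2 * e) := by
        rw [hΛR, Real.mul_rpow (by norm_num) hLp.le]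
      have hwt : 0 ≤ wd' μ s t := zero_le_one.trans (wd'_one_le t)
      -- in units of the power
      have h9 : (2 : ℝ) ^ (2 * e) * Kw * ((L : ℝ) ^ (2 * e) * (L : ℝ) ^ (2 * ε₂)) ≤ (L : ℝ) ^ (aw * e₁) := by
        have h10 : (L : ℝ) ^ (2 * e) * (L : ℝ) ^ (2 * ε₂) ≤ (L : ℝ) ^ (aw * e₁ / 2) := by
          rw [← Real.rpow_add hLp]
          exact Real.rpow_le_rpow_of_exponent_le hL0 (by linarith)
        calc (2 : ℝ) ^ (2 * e) * Kw * ((L : ℝ) ^ (2 * e) * (L : ℝ) ^ (2 * ε₂)) ≤ (L : ℝ) ^ (aw * e₁ / 2) * (L : ℝ) ^ (aw * e₁ / 2) :=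
              mul_le_mul hL5 h10 (by positivity) (by positivity)
          _ = (L : ℝ) ^ (aw * e₁) := by
              rw [← Real.rpow_add hLp]
              congr 1
              ring
      have hA : (0 : ℝ) < (L : ℝ) ^ (aw * e₁) := Real.rpow_pos_of_pos hLp _
      have hB : (0 : ℝ) < (L : ℝ) ^ (2 * ε₂) := Real.rpow_pos_of_pos hLp _
      have hBi : (L : ℝ) ^ (-(2 * ε₂)) * (L : ℝ) ^ (2 * ε₂) = 1 := by
        rw [← Real.rpow_add hLp, neg_add_cancel, Real.rpow_zero]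
      have h11 : ((2 : ℝ) ^ (2 * e) * (L : ℝ) ^ (2 * e) * wd' μ s (2 ^ i)) * ((L : ℝ) ^ (2 * ε₂) * (L : ℝ) ^ (aw * e₁)) ≤
          wd' μ s t * (L : ℝ) ^ (aw * e₁) := by
        calc ((2 : ℝ) ^ (2 * e) * (L : ℝ) ^ (2 * e) * wd' μ s (2 ^ i)) * ((L : ℝ) ^ (2 * ε₂) * (L : ℝ) ^ (aw * e₁))
            = (2 : ℝ) ^ (2 * e) * ((L : ℝ) ^ (2 * e) * (L : ℝ) ^ (2 * ε₂)) * ((L : ℝ) ^ (aw * e₁) * wd' μ s (2 ^ i)) := by ring
          _ ≤ (2 : ℝ) ^ (2 * e) * ((L : ℝ) ^ (2 * e) * (L : ℝ) ^ (2 * ε₂)) * (Kw * wd' μ s t) := by gcongr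
          _ = (2 : ℝ) ^ (2 * e) * Kw * ((L : ℝ) ^ (2 * e) * (L : ℝ) ^ (2 * ε₂)) * wd' μ s t := by ring
          _ ≤ (L : ℝ) ^ (aw * e₁) * wd' μ s t := mul_le_mul_of_nonneg_right h9 hwt
          _ = _ := mul_comm _ _
      have h12 : ((2 : ℝ) ^ (2 * e) * (L : ℝ) ^ (2 * e) * wd' μ s (2 ^ i)) * (L : ℝ) ^ (2 * ε₂) ≤ wd' μ s t := by
        rw [← mul_assoc] at h11
        exact le_of_mul_le_mul_right h11 hA
      have h13 : (2 : ℝ) ^ (2 * e) * (L : ℝ) ^ (2 * e) * wd' μ s (2 ^ i) ≤ (L : ℝ) ^ (-(2 * ε₂)) * wd' μ s t := by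
        have h14 := mul_le_mul_of_nonneg_left h12 (Real.rpow_nonneg hLp.le (-(2 * ε₂)))
        refine le_trans (le_of_eq ?_) h14
        rw [mul_comm ((2 : ℝ) ^ (2 * e) * (L : ℝ) ^ (2 * e) * wd' μ s (2 ^ i)), ← mul_assoc, hBi, one_mul]
      have h15 : 0 ≤ (L : ℝ) ^ (-(2 * ε₂)) * wd' μ s t := mul_nonneg (Real.rpow_nonneg hLp.le _) hwt
      rw [e1]
      linarith
    refine ⟨hPok, fun τ k₀ => ?_⟩
    -- the price
    have hEt : 0 < EE' μ s t := zero_lt_one.trans_le (le_max_left _ _)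
    have hEa : 0 < EE' μ s (2 ^ a) := zero_lt_one.trans_le (le_max_left _ _)
    obtain ⟨x, hx⟩ : ∃ x : ℝ, x = ((2 * L : ℕ) : ℝ) ^ εT / EE' μ s (2 ^ a) := ⟨_, rfl⟩
    have hx0 : 0 ≤ x := by rw [hx]; positivity
    have hwin := tieInX_win (μ := μ) (s := s) h.sl_pos.le h.sl_lt.le (N := N) (t := t) (n1 := n1) (e0 := e0) (E := E) (y := y) (p := ⟨2 * L, e, Ct, a, i₀, i₁⟩)
      (x := x) (δ := Real.exp (-((2 * L : ℕ) : ℝ) ^ cT)) hx0 (Real.exp_pos _).le (show N ≤ 2 * L by omega)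
      (show 1 ≤ 2 * L by omega) hy0 hyN (show 2 ^ (E + 4) ≤ 2 * L by
        have := hnm.E_le
        have h5 : 2 ^ (E + 4) = 2 * 2 ^ (E + 3) := by ring
        omega) ht16 hPok (fun g g1 g2 m hm => by
        show (2 : ℝ) ^ (g + 4) * 2 ^ a ≤ ((2 * L : ℕ) : ℝ) ^ e * wd' μ s (2 ^ a) * m
        have h5 := hnm.top g g1 g2
        have h6 := hn1 g g1 g2
        have h7 : 2 ^ a ≤ n1 g := by omega
        obtain ⟨-, -, hup⟩ := hw (2 ^ a) (n1 g) Nat.one_le_two_pow h7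
        have hr : (1 : ℝ) ≤ (n1 g : ℝ) / ((2 ^ a : ℕ) : ℝ) := by
          rw [one_le_div (by positivity)]
          exact_mod_cast h7
        have h8 : ((n1 g : ℝ) / ((2 ^ a : ℕ) : ℝ)) ^ (1 - aw) ≤ (n1 g : ℝ) / ((2 ^ a : ℕ) : ℝ) := by
          calc ((n1 g : ℝ) / ((2 ^ a : ℕ) : ℝ)) ^ (1 - aw) ≤ ((n1 g : ℝ) / ((2 ^ a : ℕ) : ℝ)) ^ (1 : ℝ) :=
                Real.rpow_le_rpow_of_exponent_le hr (by linarith)
            _ = _ := Real.rpow_one _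
        have hwa := wd'_one_le (μ := μ) (s := s) (2 ^ a)
        have h9 : wd' μ s (n1 g) * 2 ^ a ≤ Kw * n1 g * wd' μ s (2 ^ a) := by
          have h10 : wd' μ s (n1 g) ≤ Kw * ((n1 g : ℝ) / ((2 ^ a : ℕ) : ℝ)) * wd' μ s (2 ^ a) :=
            hup.trans (mul_le_mul_of_nonneg_right (mul_le_mul_of_nonneg_left h8 (by linarith)) (by linarith))
          have h11 := mul_le_mul_of_nonneg_right h10 hPa.le
          refine h11.trans (le_of_eq ?_)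
          push_cast
          field_simp
        have h10 : (L : ℝ) ^ ε₄ ≤ (L : ℝ) ^ (e / 2) := Real.rpow_le_rpow_of_exponent_le hL0 h4'
        have h11 : (n1 g : ℝ) ≤ 1024 * m := by exact_mod_cast hm
        have h12 : (2 : ℝ) ^ (g + 4) = 2 * 2 ^ (g + 3) := by ring
        have hn0 : (0 : ℝ) ≤ n1 g := Nat.cast_nonneg _
        have hm0 : (0 : ℝ) ≤ m := Nat.cast_nonneg _
        have hwn := wd'_one_le (μ := μ) (s := s) (n1 g)
        calc (2 : ℝ) ^ (g + 4) * 2 ^ a = 2 * 2 ^ (g + 3) * 2 ^ a := by rw [h12]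
          _ ≤ 2 * ((L : ℝ) ^ (e / 2) * wd' μ s (n1 g)) * 2 ^ a := by
              have h13 : (2 : ℝ) ^ (g + 3) ≤ (L : ℝ) ^ (e / 2) * wd' μ s (n1 g) :=
                h5.trans (mul_le_mul_of_nonneg_right h10 (by linarith))
              gcongr
          _ = 2 * (L : ℝ) ^ (e / 2) * (wd' μ s (n1 g) * 2 ^ a) := by ring
          _ ≤ 2 * (L : ℝ) ^ (e / 2) * (Kw * n1 g * wd' μ s (2 ^ a)) := mul_le_mul_of_nonneg_left h9 (by positivity)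
          _ ≤ 2 * (L : ℝ) ^ (e / 2) * (Kw * (1024 * m) * wd' μ s (2 ^ a)) := by gcongr
          _ = (2048 * Kw) * (L : ℝ) ^ (e / 2) * wd' μ s (2 ^ a) * m := by ring
          _ ≤ (L : ℝ) ^ (e / 2) * (L : ℝ) ^ (e / 2) * wd' μ s (2 ^ a) * m := by gcongr
          _ = (L : ℝ) ^ e * wd' μ s (2 ^ a) * m := by
              rw [← Real.rpow_add hLp, add_halves]
          _ ≤ ((2 * L : ℕ) : ℝ) ^ e * wd' μ s (2 ^ a) * m := by
              have h14 : (L : ℝ) ^ e ≤ ((2 * L : ℕ) : ℝ) ^ e := Real.rpow_le_rpow hLp.le hLΛ he0.le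
              gcongr)
      (fun V hV hVa hVw M hM A hA hAJ => by
        have h5 := hTL (2 * L) (by omega) V hV hVw i₀ i₁ s1 s2 (by rw [hVa]; exact hi1a) (by rw [hVa]; exact s3)
          (by rw [hVa]; exact s4) M hM A hA hAJ
        refine h5.trans (add_le_add (mul_le_mul_left (ENNReal.ofReal_le_ofReal (le_of_eq ?_)) _) le_rfl)
        rw [hx, hVa]
        show ((2 * L : ℕ) : ℝ) ^ εT * (M / EE' μ s (2 ^ a)) = ((2 * L : ℕ) : ℝ) ^ εT / EE' μ s (2 ^ a) * M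
        ring) τ k₀
    intro b W hW H M hM F hF' hoff
    refine (hwin b W hW H M hM F hF' hoff).trans (add_le_add (mul_le_mul_left (ENNReal.ofReal_le_ofReal ?_) _)
      (ENNReal.ofReal_le_ofReal ?_))
    · refine mul_le_mul_of_nonneg_right ?_ (by linarith)
      obtain ⟨-, -, hup⟩ := hE (2 ^ a) t Nat.one_le_two_pow hat
      have hsq : Real.sqrt ((t : ℝ) / ((2 ^ a : ℕ) : ℝ)) ≤ 2 * (L : ℝ) ^ (e / 2) := by
        rw [Real.sqrt_le_left (by positivity)]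
        rw [div_le_iff₀ (by positivity), mul_pow, ← Real.rpow_natCast ((L : ℝ) ^ (e / 2)), ← Real.rpow_mul hLp.le]
        have h5 : e / 2 * ((2 : ℕ) : ℝ) = e := by
          push_cast
          ring
        rw [h5]
        refine ha2.trans ?_
        push_cast
        have h6 : (0 : ℝ) ≤ (L : ℝ) ^ e * 2 ^ a := by positivity
        nlinarith
      have h5 : EE' μ s t ≤ KE * (2 * (L : ℝ) ^ (e / 2)) * EE' μ s (2 ^ a) := by
        refine hup.trans ?_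
        gcongr
      have h6 : (1 : ℝ) / EE' μ s (2 ^ a) ≤ KE * (2 * (L : ℝ) ^ (e / 2)) / EE' μ s t := by
        rw [div_le_div_iff₀ hEa hEt, one_mul]
        exact h5
      have h7 : (L : ℝ) ^ (e / 2) * (L : ℝ) ^ εT ≤ (L : ℝ) ^ (ε / 2) := by
        rw [← Real.rpow_add hLp]
        exact Real.rpow_le_rpow_of_exponent_le hL0 (by linarith)
      rw [hx, hΛR, Real.mul_rpow (by norm_num) hLp.le]
      calc 36 * ((2 : ℝ) ^ εT * (L : ℝ) ^ εT / EE' μ s (2 ^ a)) = 36 * ((2 : ℝ) ^ εT * (L : ℝ) ^ εT) * (1 / EE' μ s (2 ^ a)) := by ring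
        _ ≤ 36 * ((2 : ℝ) ^ εT * (L : ℝ) ^ εT) * (KE * (2 * (L : ℝ) ^ (e / 2)) / EE' μ s t) :=
            mul_le_mul_of_nonneg_left h6 (by positivity)
        _ = 36 * ((2 : ℝ) ^ εT * (KE * 2)) * ((L : ℝ) ^ (e / 2) * (L : ℝ) ^ εT) / EE' μ s t := by ring
        _ ≤ (L : ℝ) ^ (ε / 2) * (L : ℝ) ^ (ε / 2) / EE' μ s t := by gcongr
        _ = (L : ℝ) ^ ε / EE' μ s t := by
            rw [← Real.rpow_add hLp, add_halves]
    · show 10 * ((2 * L : ℕ) : ℝ) * Real.exp (-((2 * L : ℕ) : ℝ) ^ cT) ≤ _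
      refine (hL₁ (2 * L) (by omega)).trans (Real.exp_le_exp.2 (neg_le_neg ?_))
      calc (L : ℝ) ^ min cV (cT / 2) ≤ (L : ℝ) ^ (cT / 2) := Real.rpow_le_rpow_of_exponent_le hL0 (min_le_right _ _)
        _ ≤ ((2 * L : ℕ) : ℝ) ^ (cT / 2) := Real.rpow_le_rpow hLp.le hLΛ (by positivity)

end

end Pool.Agent.W_7d29a1_HZ.ZE
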