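import Pool.Agent.W_7d29a1_HZ.Z74_P2P
import Pool.Agent.W_7d29a1_HS.Reg

/-!
MP_7d29a1_pr, STORM Z at every tilt (model: `W_7d29a1_Z74.Num74`): numbers and scales. (helper85, after helper74)
-/

set_option autoImplicit false

namespace Pool.Agent.W_7d29a1_HZ.Z74

open MeasureTheory ProbabilityTheory Filter Topology
open Pool.Agent.W_7d29a1_F Pool.Agent.W_7d29a1_h4g Pool.Agent.W_7d29a1_H Pool.Agent.W_7d29a1_HS

/-- A positive power is eventually larger than any constant. -/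
theorem ev_pow {b : ℝ} (hb : 0 < b) (K : ℝ) : ∀ᶠ t : ℕ in atTop, K ≤ (t : ℝ) ^ b :=
  ((tendsto_rpow_atTop hb).comp tendsto_natCast_atTop_atTop).eventually_ge_atTop K

/-- A smaller power, with any constant, is eventually below a larger one. -/
theorem ev_pow_le {b c : ℝ} (hcb : c < b) {K a : ℝ} (ha : 0 < a) : ∀ᶠ t : ℕ in atTop, K * (t : ℝ) ^ c ≤ a * (t : ℝ) ^ b := by
  filter_upwards [ev_pow (show 0 < b - c by linarith) (K / a), eventually_ge_atTop 1] with t ht ht1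
  have ht0 : (0 : ℝ) < t := by exact_mod_cast ht1
  rw [div_le_iff₀ ha] at ht
  have e : (t : ℝ) ^ b = (t : ℝ) ^ (b - c) * (t : ℝ) ^ c := by
    rw [← Real.rpow_add ht0]
    congr 1
    ring
  rw [e]
  have h1 : 0 ≤ (t : ℝ) ^ c := by positivity
  calc K * (t : ℝ) ^ c ≤ (t : ℝ) ^ (b - c) * a * (t : ℝ) ^ c := mul_le_mul_of_nonneg_right ht h1
    _ = a * ((t : ℝ) ^ (b - c) * (t : ℝ) ^ c) := by ring

/-- The logarithm is eventually below every positive power. -/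
theorem ev_log {b a : ℝ} (hb : 0 < b) (ha : 0 < a) (K : ℝ) : ∀ᶠ t : ℕ in atTop, K * Real.log t ≤ a * (t : ℝ) ^ b := by
  have h := (isLittleO_log_rpow_atTop hb).bound (show 0 < a / (|K| + 1) by positivity)
  have h2 := tendsto_natCast_atTop_atTop (R := ℝ) |>.eventually h
  filter_upwards [h2, eventually_ge_atTop 1] with t ht ht1
  have ht1' : (1 : ℝ) ≤ t := by exact_mod_cast ht1
  have h0 : 0 ≤ Real.log t := Real.log_nonneg ht1'
  have h3 : 0 ≤ (t : ℝ) ^ b := by positivity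
  rw [Real.norm_of_nonneg h0, Real.norm_of_nonneg h3] at ht
  have h4 : K ≤ |K| + 1 := by linarith [le_abs_self K]
  calc K * Real.log t ≤ (|K| + 1) * Real.log t := mul_le_mul_of_nonneg_right h4 h0
    _ ≤ (|K| + 1) * (a / (|K| + 1) * (t : ℝ) ^ b) := mul_le_mul_of_nonneg_left ht (by positivity)
    _ = a * (t : ℝ) ^ b := by field_simp

/-- A power times a stretched exponential is below a weaker stretched exponential. -/
theorem ev_exp {A a b c : ℝ} (hA : 0 < A) (ha : 0 < a) (hb : 0 < b) (hcb : c < b) (k : ℝ) :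
    ∀ᶠ t : ℕ in atTop, A * (t : ℝ) ^ k * Real.exp (-(a * (t : ℝ) ^ b)) ≤ 1 / 2 * Real.exp (-(t : ℝ) ^ c) := by
  filter_upwards [ev_log hb (show 0 < a / 3 by positivity) k, ev_pow_le hcb (K := 1) (show 0 < a / 3 by positivity),
    ev_pow_le (c := 0) hb (K := Real.log (2 * A)) (show 0 < a / 3 by positivity), eventually_ge_atTop 1] with t h1 h2 h3 ht1
  have ht0 : (0 : ℝ) < t := by exact_mod_cast ht1
  rw [Real.rpow_zero, mul_one] at h3
  have e : A * (t : ℝ) ^ k * Real.exp (-(a * (t : ℝ) ^ b)) =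
      1 / 2 * Real.exp (Real.log (2 * A) + k * Real.log t - a * (t : ℝ) ^ b) := by
    rw [Real.exp_sub, Real.exp_add, Real.exp_log (by positivity), Real.rpow_def_of_pos ht0, Real.exp_neg, mul_comm k]
    ring
  rw [e]
  refine mul_le_mul_of_nonneg_left (Real.exp_le_exp.2 ?_) (by norm_num)
  linarith

variable {μ : Measure ℝ} [IsProbabilityMeasure μ] {s c C : ℝ} {n₀ : ℕ}

/-- The slope of the cone is at most a negative power of the time. -/
theorem vA_neg (h : In μ s c C n₀) : ∃ K a : ℝ, 1 ≤ K ∧ 0 < a ∧ a ≤ 1 ∧ ∀ n : ℕ, 1 ≤ n → vA 1 μ s n ≤ K * (n : ℝ) ^ (-a) := by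
  obtain ⟨K, a, n₁, hK, ha, hn₁, hv⟩ := vA_pow h
  obtain ⟨b, hb⟩ : ∃ b : ℝ, b = min a 1 := ⟨_, rfl⟩
  have hb0 : 0 < b := by rw [hb]; exact lt_min ha one_pos
  have hba : b ≤ a := by rw [hb]; exact min_le_left _ _
  have hb1 : b ≤ 1 := by rw [hb]; exact min_le_right _ _
  have hn₁' : (1 : ℝ) ≤ n₁ := by exact_mod_cast hn₁
  obtain ⟨B, hB⟩ : ∃ B : ℝ, B = 2 * vA 1 μ s 1 := ⟨_, rfl⟩
  have hB0 : 0 < B := by rw [hB]; exact mul_pos two_pos (h.vA_pos le_rfl)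
  have hBv : ∀ n : ℕ, 1 ≤ n → vA 1 μ s n ≤ B := fun n hn => by rw [hB]; exact vA_le_two h le_rfl hn
  refine ⟨(K * B + B + 1) * (n₁ : ℝ) ^ b, b, ?_, hb0, hb1, fun n hn => ?_⟩
  · have h1 := Real.one_le_rpow hn₁' hb0.le
    have h2 : 1 ≤ K * B + B + 1 := by
      have : 0 ≤ K * B := by positivity
      linarith
    exact one_le_mul_of_one_le_of_one_le h2 h1
  have hn0 : (0 : ℝ) < n := by exact_mod_cast hn
  have e : (K * B + B + 1) * (n₁ : ℝ) ^ b * (n : ℝ) ^ (-b) = (K * B + B + 1) * ((n₁ : ℝ) / n) ^ b := by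
    rw [Real.div_rpow (by positivity) hn0.le, Real.rpow_neg hn0.le]
    ring
  rw [e]
  rcases le_or_gt n₁ n with h1 | h1
  · have h2 := hv n₁ n le_rfl h1
    have h1' : (n₁ : ℝ) ≤ n := by exact_mod_cast h1
    have h3 := hBv n₁ hn₁
    have h4 : ((n₁ : ℝ) / n) ^ a ≤ ((n₁ : ℝ) / n) ^ b :=
      Real.rpow_le_rpow_of_exponent_ge (by positivity) ((div_le_one hn0).2 h1') hba
    have h5 : 0 ≤ ((n₁ : ℝ) / n) ^ a := by positivity
    have h6 : 0 ≤ ((n₁ : ℝ) / n) ^ b := by positivity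
    calc vA 1 μ s n ≤ K * ((n₁ : ℝ) / n) ^ a * vA 1 μ s n₁ := h2
      _ ≤ K * ((n₁ : ℝ) / n) ^ a * B := mul_le_mul_of_nonneg_left h3 (by positivity)
      _ = K * B * ((n₁ : ℝ) / n) ^ a := by ring
      _ ≤ K * B * ((n₁ : ℝ) / n) ^ b := mul_le_mul_of_nonneg_left h4 (by positivity)
      _ ≤ (K * B + B + 1) * ((n₁ : ℝ) / n) ^ b := mul_le_mul_of_nonneg_right (by linarith) h6
  · have h1' : (n : ℝ) ≤ n₁ := by exact_mod_cast h1.le
    have h2 : 1 ≤ ((n₁ : ℝ) / n) ^ b := Real.one_le_rpow ((one_le_div hn0).2 h1') hb0.le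
    have h3 := hBv n hn
    have h4 : 0 ≤ K * B := by positivity
    calc vA 1 μ s n ≤ B := h3
      _ ≤ K * B + B + 1 := by linarith
      _ ≤ (K * B + B + 1) * ((n₁ : ℝ) / n) ^ b := le_mul_of_one_le_right (by linarith) h2

/-- The unit is at most linear. -/
theorem EE_lin (h : In μ s c C n₀) {n : ℕ} (hn : 1 ≤ n) : EE μ s n ≤ n * EE μ s 1 := by
  have h1 := EE_mul h.em s 1 hn
  rwa [mul_one] at h1

end Pool.Agent.W_7d29a1_HZ.Z74
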