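import Pool.Agent.W_7d29a1_HZ.Z21_Iter
import Pool.Agent.W_7d29a1_HX.X40_H3

/-!
STORM Z AT ONE TILT, Lemma NS: the top scale (model: `W_7d29a1_Z21.Top`).
-/

set_option autoImplicit false

namespace Pool.Agent.W_7d29a1_HZ.Z21

open MeasureTheory ProbabilityTheory Filter Topology
open Pool.Agent.W_7d29a1_F Pool.Agent.W_7d29a1_h4g Pool.Agent.W_7d29a1_H
open Pool.Agent.W_7d29a1_HS (In wd scale_b)
open Pool.Agent.W_7d29a1_Z21 (Typ21)

variable {μ : Measure ℝ} [IsProbabilityMeasure μ] {s c C : ℝ} {n₀ : ℕ}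

/-! ### The rate function -/

theorem J_pos21 (h : In μ s c C n₀) {x : ℝ} (hx : x ≠ 0) : 0 < J μ s x := by
  obtain ⟨H, δ, hdir⟩ := h.dir
  have hx0 := abs_pos.2 hx
  obtain ⟨j, hj, hst⟩ := hdir.strict |x| hx0
  exact lt_of_lt_of_le (mul_pos hj hx0) (hst s (Set.mem_singleton s) x le_rfl)

/-- The rate function at comparable deviations, both signs. -/
theorem J_abs21 (h : In μ s c C n₀) : ∃ K : ℝ, 1 ≤ K ∧ ∀ t x y : ℝ, 1 ≤ t → |x| ≤ t * |y| → J μ s x ≤ K * t ^ K * J μ s y := by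
  obtain ⟨D, hD, hJ⟩ := Pool.Agent.W_7d29a1_HX.X40.d2_all h
  have hD0 : 0 < D := by linarith
  have hnn := h.rf.nn
  -- absolute values
  have h1 : ∀ x : ℝ, J μ s x ≤ D * J μ s |x| := by
    intro x
    rcases le_total 0 x with h0 | h0
    · rw [abs_of_nonneg h0]
      exact le_mul_of_one_le_left (hnn x) hD
    · rw [abs_of_nonpos h0]
      have := (hJ (-x)).2
      rwa [neg_neg] at this
  have h2 : ∀ y : ℝ, J μ s |y| ≤ D * J μ s y := by
    intro y
    rcases le_total 0 y with h0 | h0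
    · rw [abs_of_nonneg h0]
      exact le_mul_of_one_le_left (hnn y) hD
    · rw [abs_of_nonpos h0]
      exact (hJ y).2
  -- powers of two
  have h3 : ∀ (k : ℕ) (z : ℝ), J μ s (2 ^ k * z) ≤ D ^ k * J μ s z := by
    intro k
    induction k with
    | zero => intro z; simp
    | succ k ih =>
      intro z
      have e : (2 : ℝ) ^ (k + 1) * z = 2 * (2 ^ k * z) := by ring
      rw [e]
      calc J μ s (2 * (2 ^ k * z)) ≤ D * J μ s (2 ^ k * z) := (hJ _).1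
        _ ≤ D * (D ^ k * J μ s z) := mul_le_mul_of_nonneg_left (ih z) hD0.le
        _ = D ^ (k + 1) * J μ s z := by ring
  obtain ⟨K, hK⟩ : ∃ K : ℝ, K = D ^ 3 + Real.logb 2 D := ⟨_, rfl⟩
  have hlD : 0 ≤ Real.logb 2 D := Real.logb_nonneg one_lt_two hD
  have hD3 : 1 ≤ D ^ 3 := one_le_pow₀ hD
  refine ⟨K, by rw [hK]; linarith, fun t x y ht hxy => ?_⟩
  have ht0 : 0 < t := by linarith
  obtain ⟨k, hk⟩ : ∃ k : ℕ, k = ⌈Real.logb 2 t⌉₊ := ⟨_, rfl⟩
  have hlt : 0 ≤ Real.logb 2 t := Real.logb_nonneg one_lt_two ht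
  have htk : t ≤ 2 ^ k := by
    have h4 : Real.logb 2 t ≤ k := by rw [hk]; exact Nat.le_ceil _
    have h5 := (Real.logb_le_iff_le_rpow one_lt_two ht0).1 h4
    rwa [Real.rpow_natCast] at h5
  have hkt : (k : ℝ) ≤ Real.logb 2 t + 1 := by
    rw [hk]
    exact (Nat.ceil_lt_add_one hlt).le
  have hDk : D ^ k ≤ D * t ^ Real.logb 2 D := by
    rw [← Real.rpow_natCast]
    calc D ^ (k : ℝ) ≤ D ^ (Real.logb 2 t + 1) := Real.rpow_le_rpow_of_exponent_le hD hkt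
      _ = D ^ Real.logb 2 t * D := by rw [Real.rpow_add hD0, Real.rpow_one]
      _ = D * t ^ Real.logb 2 D := by
        rw [mul_comm]
        congr 1
        rw [Real.rpow_def_of_pos hD0, Real.rpow_def_of_pos ht0]
        congr 1
        unfold Real.logb
        ring
  have htK : t ^ Real.logb 2 D ≤ t ^ K := Real.rpow_le_rpow_of_exponent_le ht (by rw [hK]; linarith)
  have hy := abs_nonneg y
  have h4 : J μ s |x| ≤ J μ s (2 ^ k * |y|) :=
    h.J_mono (abs_nonneg x) (hxy.trans (mul_le_mul_of_nonneg_right htk hy))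
  have hJy := hnn y
  calc J μ s x ≤ D * J μ s |x| := h1 x
    _ ≤ D * (D ^ k * J μ s |y|) := mul_le_mul_of_nonneg_left (h4.trans (h3 k _)) hD0.le
    _ ≤ D * (D ^ k * (D * J μ s y)) :=
        mul_le_mul_of_nonneg_left (mul_le_mul_of_nonneg_left (h2 y) (by positivity)) hD0.le
    _ = D ^ k * (D ^ 2 * J μ s y) := by ring
    _ ≤ D * t ^ Real.logb 2 D * (D ^ 2 * J μ s y) := mul_le_mul_of_nonneg_right hDk (by positivity)
    _ = D ^ 3 * t ^ Real.logb 2 D * J μ s y := by ring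
    _ ≤ K * t ^ K * J μ s y := by
        refine mul_le_mul_of_nonneg_right ?_ hJy
        exact mul_le_mul (by rw [hK]; linarith) htK (by positivity) (by rw [hK]; positivity)

/-- The continuation is comparable with the rate function. -/
theorem Jt_cv21 (h : In μ s c C n₀) {v₀ : ℝ} (hv₀ : 0 < v₀) : ∃ cv : ℝ, 0 < cv ∧ ∀ v : ℝ, 0 ≤ v →
    cv * J μ s v ≤ Jt21 μ s v₀ v := by
  have hJ0 : 0 < J μ s v₀ := J_pos21 h hv₀.ne'
  refine ⟨J μ s v₀ / v₀, by positivity, fun v hv => ?_⟩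
  have hcv1 : J μ s v₀ / v₀ ≤ 1 := by
    rw [div_le_one hv₀]
    have := J_le_abs h.em h.nd s v₀
    rwa [abs_of_pos hv₀] at this
  unfold Jt21
  split_ifs with h1
  · exact mul_le_of_le_one_left (h.rf.nn v) hcv1
  · refine mul_le_mul_of_nonneg_left ?_ (by positivity)
    have := J_le_abs h.em h.nd s v
    rwa [abs_of_nonneg hv] at this

/-! ### The energy of a displacement -/

/-- The energy of a displacement, both signs. -/
theorem en21 (h : In μ s c C n₀) {b Q d g v₀ b' d' g' v₀' cv : ℝ} {n₁ n₁' N : ℕ} {η : Env}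
    (hE : Env21 μ s c b Q d g v₀ n₁ N η) (hE' : Env21 μ (-s) c b' Q d' g' v₀' n₁' N (mir η))
    (hcv : ∀ v : ℝ, 0 ≤ v → cv * J μ s v ≤ b * Jt21 μ s v₀ v) (hcv' : ∀ v : ℝ, 0 ≤ v → cv * J μ (-s) v ≤ b' * Jt21 μ (-s) v₀' v)
    {t : ℕ} {y : ℤ} (ht : 1 ≤ t) (htN : t ≤ N) (hy0 : 0 ≤ y) (hy1 : y ≤ t) :
    cv * ph21 μ s t y - Q * EE μ s t ≤ X μ s η ((0 : ℤ), (0 : ℤ)) t y := by
  have ht0 : (0 : ℝ) < t := by exact_mod_cast ht
  rcases lt_trichotomy (sl μ s * t) (y : ℝ) with h1 | h1 | h1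
  · have h2 := hE.en 0 0 t y le_rfl (by omega) (by simp) ht h1 hy1
    refine le_trans (sub_le_sub_right ?_ _) h2
    have h3 := hcv (((y : ℝ) - sl μ s * t) / t) (div_nonneg (by linarith) ht0.le)
    have h4 := mul_le_mul_of_nonneg_left h3 ht0.le
    unfold ph21
    refine le_trans (le_of_eq ?_) (h4.trans (le_of_eq ?_))
    · ring
    · ring
  · have h4 : ph21 μ s t y = 0 := by
      unfold ph21
      rw [h1, sub_self, zero_div, h.rf.zero, mul_zero]
    rw [h4, mul_zero]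
    have h6 := hE.lu 0 0 t le_rfl (by omega) (by simp) ht
    have h7 : W μ s η ((0 : ℤ), (0 : ℤ)) t y ≤ Real.exp (V μ s η ((0 : ℤ), (0 : ℤ)) t) := by
      have := WS_le_exp_V (μ := μ) (s := s) η ((0 : ℤ), (0 : ℤ)) t {y}
      unfold WS at this
      rwa [Finset.sum_singleton] at this
    have h8 : Real.log (W μ s η ((0 : ℤ), (0 : ℤ)) t y) ≤ V μ s η ((0 : ℤ), (0 : ℤ)) t := by
      rw [← Real.log_exp (V μ s η ((0 : ℤ), (0 : ℤ)) t)]
      exact Real.log_le_log (W_pos _ _ hy0 hy1) h7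
    unfold X
    linarith
  · have h2 := hE'.en 0 0 t (t - y) le_rfl (by omega) (by simp) ht ((side_mir21 h.em s h.nd).2 h1) (by omega)
    have e1 : X μ (-s) (mir η) ((0 : ℤ), (0 : ℤ)) t (t - y) = X μ s η ((0 : ℤ), (0 : ℤ)) t y := by
      rw [X_mir21 h.em]
      have e1 : (0 : ℤ) - 0 = 0 := by ring
      have e2 : (t : ℤ) - (t - y) = y := by ring
      rw [e1, e2]
    rw [e1, EE_mir h.em] at h2
    refine le_trans (sub_le_sub_right ?_ _) h2
    have h5 : 0 ≤ (((t - y : ℤ) : ℝ) - sl μ (-s) * t) / t :=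
      div_nonneg (by have := (side_mir21 h.em s h.nd).2 h1; linarith) ht0.le
    have h3 := hcv' _ h5
    have h4 := mul_le_mul_of_nonneg_left h3 ht0.le
    rw [← ph_mir21 h.em s h.nd ht]
    unfold ph21
    refine le_trans (le_of_eq ?_) (h4.trans (le_of_eq ?_))
    · ring
    · ring

/-- The positions of the path. -/
theorem pos21 (h : In μ s c C n₀) {b Q d g v₀ b' d' g' v₀' cv : ℝ} {n₁ n₁' N : ℕ} {η : Env} {P : ℕ → ℤ}
    (hE : Env21 μ s c b Q d g v₀ n₁ N η) (hE' : Env21 μ (-s) c b' Q d' g' v₀' n₁' N (mir η))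
    (hcv : ∀ v : ℝ, 0 ≤ v → cv * J μ s v ≤ b * Jt21 μ s v₀ v) (hcv' : ∀ v : ℝ, 0 ≤ v → cv * J μ (-s) v ≤ b' * Jt21 μ (-s) v₀' v)
    (hQ : 1 ≤ Q) (hty : Typ21 μ Q N η P)
    (hP : Pa21 N P) (h0 : ∀ i, i ≤ N → 0 ≤ P i ∧ P i ≤ i) (hX : X μ s η ((0 : ℤ), (0 : ℤ)) N (P N) ≤ Q * EE μ s N)
    {t : ℕ} (ht : 1 ≤ t) (htN : t ≤ N) :
    cv * ph21 μ s t (P t) ≤ (5 + C) * (Q * EE μ s N) := by
  obtain ⟨m, rfl⟩ : ∃ m, N = t + m := ⟨N - t, by omega⟩
  have hP0 : P 0 = 0 := by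
    have := h0 0 (by omega)
    omega
  have hle := hP.le t m le_rfl
  have hEN := one_le_EE (μ := μ) (s := s) (t + m)
  have h1 := en21 h hE hE' hcv hcv' ht (by omega) (h0 t (by omega)).1 (h0 t (by omega)).2
  have hEt : EE μ s t ≤ EE μ s (t + m) := EE_mono (by omega)
  have hEm : EE μ s m ≤ EE μ s (t + m) := EE_mono (by omega)
  -- the second piece
  have h2 : -(Q * EE μ s (t + m)) ≤ X μ s η ((t : ℤ), P t) m (P (t + m) - P t) := by
    have h7 : W μ s η ((t : ℤ), P t) m (P (t + m) - P t) ≤ Real.exp (V μ s η ((t : ℤ), P t) m) := by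
      have := WS_le_exp_V (μ := μ) (s := s) η ((t : ℤ), P t) m {P (t + m) - P t}
      unfold WS at this
      rwa [Finset.sum_singleton] at this
    have h8 : Real.log (W μ s η ((t : ℤ), P t) m (P (t + m) - P t)) ≤ V μ s η ((t : ℤ), P t) m := by
      rw [← Real.log_exp (V μ s η ((t : ℤ), P t) m)]
      exact Real.log_le_log (W_pos _ _ (by omega) (by omega)) h7
    have h9 : V μ s η ((t : ℤ), P t) m ≤ Q * EE μ s (t + m) := by
      rcases Nat.eq_zero_or_pos m with hm | hm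
      · subst hm
        rw [V_zero]
        positivity
      · refine (hE.lu t (P t) m (by omega) (by push_cast; omega) ?_ hm).trans (mul_le_mul_of_nonneg_left hEm (by linarith))
        have := h0 t (by omega)
        rw [abs_le]
        push_cast
        constructor <;> omega
    unfold X
    linarith
  -- typicality
  have hty' : ∀ k : ℤ, 0 ≤ k → k ≤ t → _ := fun k h0 h1 => typ_s21 hty s (i := 0) (n := t) (m := m) (by omega) h0 h1
  rw [Nat.zero_add, hP0] at hty'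
  have e0 : ((0 : ℕ) : ℤ) = 0 := rfl
  rw [e0] at hty'
  have hWt : 0 < W μ s η ((0 : ℤ), (0 : ℤ)) t (P t) := W_pos _ _ (h0 t (by omega)).1 (h0 t (by omega)).2
  have hWm : 0 < W μ s η ((t : ℤ), P t) m (P (t + m) - P t) := W_pos _ _ (by omega) (by omega)
  have hWN : 0 < W μ s η ((0 : ℤ), (0 : ℤ)) (t + m) (P (t + m)) :=
    W_pos _ _ (h0 (t + m) le_rfl).1 (by exact_mod_cast (h0 (t + m) le_rfl).2)
  have h3 : W μ s η ((0 : ℤ), (0 : ℤ)) (t + m) (P (t + m)) ≤ ((t : ℝ) + 1) * (Real.exp Q *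
      (W μ s η ((0 : ℤ), (0 : ℤ)) t (P t) * W μ s η ((t : ℤ), P t) m (P (t + m) - P t))) := by
    rw [W_add]
    calc _ ≤ ∑ _k ∈ Finset.Icc (0 : ℤ) t, Real.exp Q *
          (W μ s η ((0 : ℤ), (0 : ℤ)) t (P t) * W μ s η ((t : ℤ), P t) m (P (t + m) - P t)) := by
          refine Finset.sum_le_sum fun k hk => ?_
          rw [Finset.mem_Icc] at hk
          have h4 := hty' k hk.1 hk.2
          simp only [zero_add, sub_zero] at h4 ⊢
          exact h4
      _ = _ := by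
          rw [Finset.sum_const, Int.card_Icc, nsmul_eq_mul]
          have : ((t : ℤ) + 1 - 0).toNat = t + 1 := by omega
          rw [this]
          push_cast
          ring
  have ht0 : (0 : ℝ) < (t : ℝ) + 1 := by positivity
  have h4 : Real.log (W μ s η ((0 : ℤ), (0 : ℤ)) (t + m) (P (t + m))) ≤ Real.log ((t : ℝ) + 1) + (Q +
      (Real.log (W μ s η ((0 : ℤ), (0 : ℤ)) t (P t)) + Real.log (W μ s η ((t : ℤ), P t) m (P (t + m) - P t)))) := by
    have := Real.log_le_log hWN h3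
    rwa [Real.log_mul ht0.ne' (by positivity), Real.log_mul (Real.exp_pos _).ne' (by positivity), Real.log_exp,
      Real.log_mul hWt.ne' hWm.ne'] at this
  have h5 : Real.log ((t : ℝ) + 1) ≤ (1 + C) * EE μ s (t + m) := by
    have htR : (1 : ℝ) ≤ t := by exact_mod_cast ht
    have h6 : Real.log ((t : ℝ) + 1) ≤ Real.log (2 * t) := Real.log_le_log ht0 (by linarith)
    rw [Real.log_mul (by norm_num) (by positivity)] at h6
    have h7 := h.lg t ht
    have h8 := Real.log_two_lt_d9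
    have hC1 := h.C1
    have h9 : C * EE μ s t ≤ C * EE μ s (t + m) := mul_le_mul_of_nonneg_left hEt (by linarith)
    linarith
  unfold X at hX h1 h2
  have h6 : Q * EE μ s t ≤ Q * EE μ s (t + m) := mul_le_mul_of_nonneg_left hEt (by linarith)
  have h7 : Q * 1 ≤ Q * EE μ s (t + m) := mul_le_mul_of_nonneg_left hEN (by linarith)
  have h8 : (1 + C) * EE μ s (t + m) ≤ (1 + C) * (Q * EE μ s (t + m)) := by
    refine mul_le_mul_of_nonneg_left ?_ (by have := h.C1; linarith)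
    exact le_mul_of_one_le_left (by linarith) hQ
  linarith

/-- The displacements of the top scale. -/
theorem top21 (h : In μ s c C n₀) {b v₀ b' v₀' : ℝ} (hb : 0 < b) (hv₀ : 0 < v₀) (hb' : 0 < b') (hv₀' : 0 < v₀') (T : ℕ)
    (hT : 1 ≤ T) :
    ∃ Λt : ℝ, 0 < Λt ∧ ∀ (d g : ℝ) (n₁ : ℕ) (d' g' : ℝ) (n₁' : ℕ) (Q : ℝ), 1 ≤ Q → ∀ (N : ℕ) (η : Env) (P : ℕ → ℤ),
    Env21 μ s c b Q d g v₀ n₁ N η → Env21 μ (-s) c b' Q d' g' v₀' n₁' N (mir η) → Typ21 μ Q N η P → Pa21 N P →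
    (∀ i, i ≤ N → 0 ≤ P i ∧ P i ≤ i) → X μ s η ((0 : ℤ), (0 : ℤ)) N (P N) ≤ Q * EE μ s N →
    ∀ i n : ℕ, 1 ≤ n → i + n ≤ N → N < 2 * (T * n) → ph21 μ s n (P (i + n) - P i) ≤ Λt * Q * EE μ s n := by
  obtain ⟨c1, hc1, hcJ⟩ := Jt_cv21 h hv₀
  obtain ⟨c2, hc2, hcJ'⟩ := Jt_cv21 h.mir hv₀'
  obtain ⟨cv, hcv⟩ : ∃ cv : ℝ, cv = min (b * c1) (b' * c2) := ⟨_, rfl⟩
  have hcv0 : 0 < cv := by rw [hcv]; positivity
  have hcv1 : ∀ v : ℝ, 0 ≤ v → cv * J μ s v ≤ b * Jt21 μ s v₀ v := fun v hv =>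
    calc cv * J μ s v ≤ b * c1 * J μ s v := mul_le_mul_of_nonneg_right (hcv ▸ min_le_left _ _) (h.rf.nn v)
      _ = b * (c1 * J μ s v) := by ring
      _ ≤ _ := mul_le_mul_of_nonneg_left (hcJ v hv) hb.le
  have hcv2 : ∀ v : ℝ, 0 ≤ v → cv * J μ (-s) v ≤ b' * Jt21 μ (-s) v₀' v := fun v hv =>
    calc cv * J μ (-s) v ≤ b' * c2 * J μ (-s) v := mul_le_mul_of_nonneg_right (hcv ▸ min_le_right _ _) (h.mir.rf.nn v)
      _ = b' * (c2 * J μ (-s) v) := by ring
      _ ≤ _ := mul_le_mul_of_nonneg_left (hcJ' v hv) hb'.le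
  obtain ⟨K, hK, hup⟩ := J_abs21 h
  have hC1 := h.C1
  have hTR : (1 : ℝ) ≤ T := by exact_mod_cast hT
  obtain ⟨B, hB⟩ : ∃ B : ℝ, B = K * (4 * T) ^ K := ⟨_, rfl⟩
  have hB0 : 0 < B := by rw [hB]; positivity
  refine ⟨B * ((5 + C) / cv) * (4 * T), by positivity, fun d g n₁ d' g' n₁' Q hQ N η P hE hE' hty hP h0 hX i n hn hin hNT => ?_⟩
  have hEN := EE_pos (μ := μ) (s := s) N
  have hN1 : 1 ≤ N := by omega
  have hN0 : (0 : ℝ) < N := by exact_mod_cast hN1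
  have hn0 : (0 : ℝ) < n := by exact_mod_cast hn
  obtain ⟨M, hM⟩ : ∃ M : ℝ, M = (5 + C) / cv * (Q * EE μ s N) := ⟨_, rfl⟩
  have hM0 : 0 ≤ M := by rw [hM]; positivity
  -- the positions
  have hpos : ∀ t : ℕ, t ≤ N → N * J μ s (((P t : ℝ) - sl μ s * t) / N) ≤ M := by
    intro t ht
    rcases Nat.eq_zero_or_pos t with h6 | h6
    · subst h6
      have h1 := h0 0 ht
      have h7 : (P 0 : ℝ) = 0 := by exact_mod_cast (by omega : P 0 = 0)
      rw [h7, Nat.cast_zero, mul_zero, sub_zero, zero_div, h.rf.zero, mul_zero]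
      exact hM0
    · have ht0 : (0 : ℝ) < t := by exact_mod_cast h6
      have htN : (t : ℝ) ≤ N := by exact_mod_cast ht
      have h7 := pos21 h hE hE' hcv1 hcv2 hQ hty hP h0 hX h6 ht
      obtain ⟨x, hx⟩ : ∃ x : ℝ, x = (P t : ℝ) - sl μ s * t := ⟨_, rfl⟩
      unfold ph21 at h7
      rw [← hx] at h7 ⊢
      have h10 : N * J μ s (x / N) ≤ t * J μ s (x / t) := by
        have h11 := h.rf.le_mul (t := N / t) ((one_le_div ht0).2 htN) (x / N)
        have e : (N : ℝ) / t * (x / N) = x / t := by field_simp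
        rw [e, div_mul_eq_mul_div, div_le_iff₀ ht0] at h11
        linarith
      have h13 : cv * (N * J μ s (x / N)) ≤ (5 + C) * (Q * EE μ s N) :=
        (mul_le_mul_of_nonneg_left h10 hcv0.le).trans h7
      rw [hM, div_mul_eq_mul_div, le_div_iff₀ hcv0]
      linarith
  -- the displacement
  obtain ⟨x1, hx1⟩ : ∃ x1 : ℝ, x1 = ((P i : ℝ) - sl μ s * i) / N := ⟨_, rfl⟩
  obtain ⟨x2, hx2⟩ : ∃ x2 : ℝ, x2 = ((P (i + n) : ℝ) - sl μ s * ((i + n : ℕ) : ℝ)) / N := ⟨_, rfl⟩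
  have p1 := hpos i (by omega)
  have p2 := hpos (i + n) hin
  rw [← hx1] at p1
  rw [← hx2] at p2
  obtain ⟨u, huM, hu1, hu2⟩ : ∃ u : ℝ, N * J μ s u ≤ M ∧ |x1| ≤ |u| ∧ |x2| ≤ |u| := by
    rcases le_total |x1| |x2| with h1 | h1
    · exact ⟨x2, p2, h1, le_rfl⟩
    · exact ⟨x1, p1, le_rfl, h1⟩
  obtain ⟨v, hv⟩ : ∃ v : ℝ, v = (((P (i + n) - P i : ℤ) : ℝ) - sl μ s * n) / n := ⟨_, rfl⟩
  have hvu : |v| ≤ 4 * T * |u| := by
    rw [hv, abs_div, abs_of_pos hn0, div_le_iff₀ hn0]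
    have e : ((P (i + n) - P i : ℤ) : ℝ) - sl μ s * n = x2 * N - x1 * N := by
      rw [hx1, hx2, div_mul_cancel₀ _ hN0.ne', div_mul_cancel₀ _ hN0.ne']
      push_cast
      ring
    have h6 : (N : ℝ) ≤ 2 * (T * n) := by exact_mod_cast hNT.le
    have hu0 := abs_nonneg u
    rw [e]
    calc |x2 * N - x1 * N| ≤ |x2 * N| + |x1 * N| := abs_sub _ _
      _ = |x2| * N + |x1| * N := by rw [abs_mul, abs_mul, abs_of_pos hN0]
      _ ≤ |u| * N + |u| * N := add_le_add (mul_le_mul_of_nonneg_right hu2 hN0.le) (mul_le_mul_of_nonneg_right hu1 hN0.le)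
      _ = 2 * |u| * N := by ring
      _ ≤ 2 * |u| * (2 * (T * n)) := mul_le_mul_of_nonneg_left h6 (by positivity)
      _ = 4 * T * |u| * n := by ring
  have hJv : J μ s v ≤ B * J μ s u := by
    rw [hB]
    exact hup (4 * T) v u (by linarith) hvu
  have hJu0 := h.rf.nn u
  have hEE : EE μ s N ≤ 4 * T * EE μ s n := by
    have h1 := scale_b h hn (show n ≤ N by omega)
    have h6 : (N : ℝ) ≤ 2 * (T * n) := by exact_mod_cast hNT.le
    have hEn := EE_pos (μ := μ) (s := s) n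
    have h7 : (n : ℝ) * EE μ s N ≤ n * (4 * T * EE μ s n) := by
      calc (n : ℝ) * EE μ s N ≤ 2 * (N * EE μ s n) := h1
        _ ≤ 2 * (2 * (T * n) * EE μ s n) := by
          have := mul_le_mul_of_nonneg_right h6 hEn.le
          linarith
        _ = n * (4 * T * EE μ s n) := by ring
    exact le_of_mul_le_mul_left h7 hn0
  unfold ph21
  rw [← hv]
  have hnN : (n : ℝ) ≤ N := by exact_mod_cast (by omega : n ≤ N)
  calc (n : ℝ) * J μ s v ≤ n * (B * J μ s u) := mul_le_mul_of_nonneg_left hJv hn0.le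
    _ = B * (n * J μ s u) := by ring
    _ ≤ B * (N * J μ s u) := mul_le_mul_of_nonneg_left (mul_le_mul_of_nonneg_right hnN hJu0) hB0.le
    _ ≤ B * M := mul_le_mul_of_nonneg_left huM hB0.le
    _ = B * ((5 + C) / cv) * Q * EE μ s N := by rw [hM]; ring
    _ ≤ B * ((5 + C) / cv) * Q * (4 * T * EE μ s n) := mul_le_mul_of_nonneg_left hEE (by positivity)
    _ = _ := by ring

end Pool.Agent.W_7d29a1_HZ.Z21
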