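import Pool.Agent.W_7d29a1_HL.N2
import Pool.Agent.W_7d29a1_H.MeanA
import Pool.Agent.W_7d29a1_H.LamH2

/-!
MP_7d29a1_pr, STORM Z at every tilt, Lemma NS (1), TILT LLN (model: `W_7d29a1_Z94.TiltB`): the free energy excess `ex μ s t` of a force
`t` with `|t| wd r` of the order of the unit `EE r` is of the order `EE r / r`. (helper4)
-/

set_option autoImplicit false

namespace Pool.Agent.W_7d29a1_HZ.Z94

open MeasureTheory ProbabilityTheory Filter Topology
open Pool.Agent.W_7d29a1_F Pool.Agent.W_7d29a1_h4g Pool.Agent.W_7d29a1_H Pool.Agent.W_7d29a1_HS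

noncomputable section

variable {μ : Measure ℝ} [IsProbabilityMeasure μ] {s c C : ℝ} {n₀ : ℕ}

/-- The reference displacement is in the cone. -/
theorem zs_near (h : In μ s c C n₀) {n : ℕ} (hn : 1 ≤ n) : |(zs μ s n : ℝ) - sl μ s * n| ≤ wd μ s n := by
  have hn0 : (0 : ℝ) < n := by exact_mod_cast hn
  obtain ⟨z0, z1⟩ := zs_mem (μ := μ) (s := s) n
  have h1 := e_zs_le (μ := μ) h.em s n
  have h2 : es μ s n + 1 ≤ EE μ s n := le_EE le_rfl
  have h3 := e_ge h.em h.nd s hn z0 z1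
  by_contra hcon
  rw [not_le] at hcon
  have h4 : vA 1 μ s n ≤ |(zs μ s n : ℝ) / n - sl μ s| := by
    have e1 : (zs μ s n : ℝ) / n - sl μ s = ((zs μ s n : ℝ) - sl μ s * n) / n := by
      field_simp
    rw [e1, abs_div, abs_of_pos hn0, le_div_iff₀ hn0]
    unfold wd at hcon
    linarith
  have h5 := h.lev_le_J n h4
  have h6 : EE μ s n ≤ n * J μ s ((zs μ s n : ℝ) / n - sl μ s) := by
    rw [div_le_iff₀ hn0] at h5
    linarith
  linarith

/-- Upper bound of the excess. -/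
theorem ex_le_EE (h : In μ s c C n₀) {n : ℕ} (hn : 1 ≤ n) {t : ℝ} (ht : |t| ≤ 1) (htw : |t| * wd μ s n ≤ EE μ s n) :
    n * ex μ s t ≤ EE μ s n := by
  have hn0 : (0 : ℝ) < n := by exact_mod_cast hn
  have hE := EE_pos (μ := μ) (s := s) n
  have hv := h.vA_pos hn
  obtain ⟨x, hx⟩ : ∃ x : ℝ, x = sl μ (s + t) - sl μ s := ⟨_, rfl⟩
  have h1 := J_at' h.em h.nd s ht
  rw [← hx] at h1
  have htx : t * x ≤ |t| * |x| := by
    rw [← abs_mul]
    exact le_abs_self _
  rcases le_total |x| (vA 1 μ s n) with h2 | h2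
  · have h3 := J_nonneg h.em h.nd s x
    have h4 : |t| * |x| ≤ |t| * vA 1 μ s n := mul_le_mul_of_nonneg_left h2 (abs_nonneg t)
    have h5 : ex μ s t ≤ |t| * vA 1 μ s n := by linarith
    have h6 := mul_le_mul_of_nonneg_left h5 hn0.le
    unfold wd at htw
    linarith
  · have h3 := h.lev_mul_le_J hn h2
    have h4 : |t| * vA 1 μ s n ≤ EE μ s n / n := by
      rw [le_div_iff₀ hn0]
      unfold wd at htw
      linarith
    have h5 : |t| * |x| ≤ EE μ s n / n * (|x| / vA 1 μ s n) := by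
      have h6 : |t| * |x| = |t| * vA 1 μ s n * (|x| / vA 1 μ s n) := by
        field_simp
      rw [h6]
      exact mul_le_mul_of_nonneg_right h4 (div_nonneg (abs_nonneg x) hv.le)
    have h6 : ex μ s t ≤ 0 := by linarith
    have h7 : (n : ℝ) * ex μ s t ≤ 0 := mul_nonpos_of_nonneg_of_nonpos hn0.le h6
    linarith

/-- The forces of the scale `r` are small. -/
theorem t_le_one (h : In μ s c C n₀) {r : ℕ} (hr : 1 ≤ r) {t : ℝ} (ht : |t| * wd μ s r ≤ c / 2 * EE μ s r) : |t| ≤ 1 / 4 := by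
  have h1 := wd_ge_one h hr
  have hE := EE_pos (μ := μ) (s := s) r
  have hc1 := h.c1
  by_contra hcon
  rw [not_le] at hcon
  have h2 : 1 / 4 * (2 * EE μ s r) < |t| * wd μ s r := by
    have h3 : 1 / 4 * (2 * EE μ s r) < |t| * (2 * EE μ s r) := mul_lt_mul_of_pos_right hcon (by positivity)
    exact h3.trans_le (mul_le_mul_of_nonneg_left h1 (abs_nonneg t))
  have h3 : c / 2 * EE μ s r ≤ 1 / 2 * EE μ s r := mul_le_mul_of_nonneg_right (by linarith) hE.le
  linarith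

/-- Lower bound of the excess. -/
theorem LL_low (h : In μ s c C n₀) {c1 : ℝ} (hc1 : 0 < c1) : ∃ κ : ℝ, 0 < κ ∧ ∃ n₁ : ℕ, ∀ r : ℕ, n₁ ≤ r → ∀ t : ℝ,
    c1 * EE μ s r ≤ |t| * wd μ s r → κ * EE μ s r ≤ r * ex μ s t := by
  obtain ⟨K, a, v₀, hK, ha, ha1, hv₀, hv₀1, hJ⟩ := Pool.Agent.W_7d29a1_HL.n2 h
  obtain ⟨b, n₃, hb, hb1, hn₃, hbv⟩ := vr_vl h
  obtain ⟨c2, hc2⟩ : ∃ c2 : ℝ, c2 = min c1 2 := ⟨_, rfl⟩
  have hc20 : 0 < c2 := by rw [hc2]; exact lt_min hc1 two_pos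
  have hc21 : c2 ≤ c1 := by rw [hc2]; exact min_le_left _ _
  have hc22 : c2 ≤ 2 := by rw [hc2]; exact min_le_right _ _
  obtain ⟨θ, hθ0, hθ1, hθ⟩ : ∃ θ : ℝ, 0 < θ ∧ θ ≤ 1 ∧ K * θ ^ a ≤ b * c2 / 2 := by
    have h1 : Tendsto (fun x : ℝ => K * x ^ a) (𝓝[>] 0) (𝓝 (K * 0)) := by
      refine Tendsto.const_mul K ?_
      have h2 : Tendsto (fun x : ℝ => x ^ a) (𝓝 0) (𝓝 ((0 : ℝ) ^ a)) :=
        (Real.continuous_rpow_const ha.le).tendsto 0
      rw [Real.zero_rpow ha.ne'] at h2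
      exact h2.mono_left nhdsWithin_le_nhds
    rw [mul_zero] at h1
    have h2 : ∀ᶠ x : ℝ in 𝓝[>] 0, K * x ^ a < b * c2 / 2 := h1.eventually (eventually_lt_nhds (by positivity))
    have h3 : ∀ᶠ x : ℝ in 𝓝[>] 0, x ≤ 1 := by
      filter_upwards [Ioc_mem_nhdsGT (show (0 : ℝ) < 1 by norm_num)] with x hx using hx.2
    obtain ⟨x, ⟨hx1, hx2⟩, hx3⟩ := ((h2.and h3).and self_mem_nhdsWithin).exists
    exact ⟨x, hx3, hx2, hx1.le⟩
  obtain ⟨n₂, hn₂⟩ := eventually_atTop.1 (h.tv.eventually_le_const hv₀)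
  refine ⟨θ * b * c2 / 2, by positivity, max (max n₂ n₃) 1, fun r hr t ht => ?_⟩
  have hr1 : 1 ≤ r := (le_max_right _ _).trans hr
  have hr2 : n₂ ≤ r := ((le_max_left _ _).trans (le_max_left _ _)).trans hr
  have hr3 : n₃ ≤ r := ((le_max_right _ _).trans (le_max_left _ _)).trans hr
  have hr0 : (0 : ℝ) < r := by exact_mod_cast hr1
  have hE0 : 0 < EE μ s r := EE_pos r
  have hv := h.vA_pos hr1
  have hvv : vA 1 μ s r ≤ v₀ := hn₂ r hr2
  obtain ⟨hb2, hb3⟩ := hbv r hr3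
  -- the case of small forces
  have key : ∀ t : ℝ, |t| ≤ 1 → c2 * EE μ s r ≤ |t| * wd μ s r → θ * b * c2 / 2 * EE μ s r ≤ r * ex μ s t := by
    intro t ht1 ht2
    obtain ⟨g, hg, hgt⟩ : ∃ g : ℝ, (g = 1 ∨ g = -1) ∧ t * g = |t| := by
      rcases le_total 0 t with h0 | h0
      · exact ⟨1, Or.inl rfl, by rw [abs_of_nonneg h0, mul_one]⟩
      · exact ⟨-1, Or.inr rfl, by rw [abs_of_nonpos h0]; ring⟩
    have hJb : J μ s (g * (b * vA 1 μ s r)) ≤ EE μ s r / r := by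
      have hbv0 : 0 ≤ b * vA 1 μ s r := by positivity
      rcases hg with rfl | rfl
      · rw [one_mul, ← h.J_vr r]
        exact h.J_mono hbv0 hb2
      · rw [neg_one_mul, ← h.J_vl r]
        exact h.J_mono_neg hbv0 hb3
    have hga : |g| = 1 := by
      rcases hg with rfl | rfl
      · simp
      · simp
    have h1 := hJ (g * (θ * (b * vA 1 μ s r))) (1 / θ) (by rw [le_div_iff₀ hθ0]; linarith) (by
      have e1 : 1 / θ * (g * (θ * (b * vA 1 μ s r))) = g * (b * vA 1 μ s r) := by field_simp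
      rw [e1, abs_mul, hga, one_mul, abs_of_nonneg (by positivity)]
      have : b * vA 1 μ s r ≤ 1 * vA 1 μ s r := mul_le_mul_of_nonneg_right hb1 hv.le
      linarith)
    have e1 : 1 / θ * (g * (θ * (b * vA 1 μ s r))) = g * (b * vA 1 μ s r) := by field_simp
    rw [e1] at h1
    have hJθ : J μ s (g * (θ * (b * vA 1 μ s r))) ≤ K * θ ^ (1 + a) * (EE μ s r / r) := by
      have h2 : (1 / θ) ^ (1 + a) = (θ ^ (1 + a))⁻¹ := by
        rw [one_div, Real.inv_rpow hθ0.le]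
      rw [h2, inv_mul_le_iff₀ (Real.rpow_pos_of_pos hθ0 _)] at h1
      refine h1.trans ?_
      have h3 := mul_le_mul_of_nonneg_left hJb hK.le
      have h4 := mul_le_mul_of_nonneg_left h3 (Real.rpow_pos_of_pos hθ0 (1 + a)).le
      linarith
    have h3 : K * θ ^ (1 + a) ≤ θ * (b * c2 / 2) := by
      rw [Real.rpow_add hθ0, Real.rpow_one]
      calc K * (θ * θ ^ a) = θ * (K * θ ^ a) := by ring
        _ ≤ θ * (b * c2 / 2) := mul_le_mul_of_nonneg_left hθ hθ0.le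
    have h4 := le_J h.em h.nd s (g * (θ * (b * vA 1 μ s r))) ht1
    have h5 : t * (g * (θ * (b * vA 1 μ s r))) = |t| * (θ * (b * vA 1 μ s r)) := by
      rw [← mul_assoc, hgt]
    rw [h5] at h4
    have h6 : K * θ ^ (1 + a) * (EE μ s r / r) ≤ θ * (b * c2 / 2) * (EE μ s r / r) :=
      mul_le_mul_of_nonneg_right h3 (by positivity)
    have h7 : |t| * (θ * (b * vA 1 μ s r)) - θ * (b * c2 / 2) * (EE μ s r / r) ≤ ex μ s t := by linarith
    have h8 := mul_le_mul_of_nonneg_left h7 hr0.le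
    have e2 : (r : ℝ) * (|t| * (θ * (b * vA 1 μ s r)) - θ * (b * c2 / 2) * (EE μ s r / r)) =
        θ * b * (|t| * wd μ s r) - θ * (b * c2 / 2) * EE μ s r := by
      unfold wd
      field_simp
    rw [e2] at h8
    have h9 := mul_le_mul_of_nonneg_left ht2 (show (0 : ℝ) ≤ θ * b by positivity)
    linarith
  rcases le_or_gt |t| 1 with h1 | h1
  · refine key t h1 (le_trans (mul_le_mul_of_nonneg_right hc21 hE0.le) ht)
  · have ht0 : 0 < |t| := by linarith
    have ha1 : |1 / |t| * t| = 1 := by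
      rw [abs_mul, abs_div, abs_one, abs_abs]
      field_simp
    have h2 := key (1 / |t| * t) ha1.le (by
      rw [ha1, one_mul]
      have h3 := wd_ge_one h hr1
      have h4 := mul_le_mul_of_nonneg_right hc22 hE0.le
      linarith)
    refine h2.trans (mul_le_mul_of_nonneg_left ?_ hr0.le)
    have h3 := ex_mul_le h.em s (t := 1 / |t|) (by positivity) (by rw [div_le_one ht0]; exact h1.le) t
    have h4 := ex_nonneg h.em h.nd s t
    have h5 : 1 / |t| * ex μ s t ≤ 1 * ex μ s t := mul_le_mul_of_nonneg_right (by rw [div_le_one ht0]; exact h1.le) h4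
    linarith

end

end Pool.Agent.W_7d29a1_HZ.Z94
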