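import Pool.Agent.W_7d29a1_HZ.Defs
import Pool.Agent.W_7d29a1_Z21.Def

/-!
STORM Z AT ONE TILT, Lemma NS (no steep places): the definitions (model: `W_7d29a1_Z21.Def`). The typical paths `Typ21`, `TypP21` do not
depend on the tilt: they are those of `W_7d29a1_Z21`.
-/

set_option autoImplicit false

namespace Pool.Agent.W_7d29a1_HZ.Z21

open MeasureTheory ProbabilityTheory Filter Topology
open Pool.Agent.W_7d29a1_F Pool.Agent.W_7d29a1_h4g Pool.Agent.W_7d29a1_H Pool.Agent.W_7d29a1_X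
open Pool.Agent.W_7d29a1_HS (In wd)
open Pool.Agent.W_7d29a1_Z21 (Typ21 TypP21)

noncomputable section

/-- The additional tilt which belongs to a slope (the slope `v` is relative to `sl μ s`). -/
def th21 (μ : Measure ℝ) (s g v : ℝ) : ℝ := g * J μ s v / v

/-- The rate function with a linear continuation beyond `v₀`. -/
def Jt21 (μ : Measure ℝ) (s v₀ u : ℝ) : ℝ := if u ≤ v₀ then J μ s u else J μ s v₀ / v₀ * u

/-- The energy (in `J`) of the displacement `(n, y)`. -/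
def ph21 (μ : Measure ℝ) (s : ℝ) (n : ℕ) (y : ℤ) : ℝ := n * J μ s (((y : ℝ) - sl μ s * n) / n)

/-- The regular environments up to the time `R`: energy of the displacements to the right (constant `b`, slopes beyond `v₀`
linearly), luck and tilted luck (tilts of the slopes of the displacements `(m, y)` to the right) of the starts in the box
`|x| ≤ 3 R`. `Q` is the size of the errors. -/
structure Env21 (μ : Measure ℝ) (s c b Q d g v₀ : ℝ) (n₁ R : ℕ) (η : Env) : Prop where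
  en : ∀ (t x : ℤ) (n : ℕ) (y : ℤ), 0 ≤ t → t + n ≤ R → |x| ≤ 3 * R → 1 ≤ n → sl μ s * n < y → y ≤ n →
    b * (n * Jt21 μ s v₀ (((y : ℝ) - sl μ s * n) / n)) - Q * EE μ s n ≤ X μ s η (t, x) n y
  lu : ∀ (t x : ℤ) (n : ℕ), 0 ≤ t → t + n ≤ R → |x| ≤ 3 * R → 1 ≤ n → V μ s η (t, x) n ≤ Q * EE μ s n
  tl : ∀ (t x : ℤ) (n : ℕ), 0 ≤ t → t + n ≤ R → |x| ≤ 3 * R → ∀ (m : ℕ) (y : ℤ), m ≤ R → y ≤ m → sl μ s * m < y →
    ∀ r : ℕ, n₁ ≤ r → g / 2 * EE μ s r ≤ th21 μ s g (min (((y : ℝ) - sl μ s * m) / m) v₀) * wd μ s r →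
    th21 μ s g (min (((y : ℝ) - sl μ s * m) / m) v₀) * wd μ s r ≤ c / 2 * EE μ s r → Q * r ≤ n →
    |V μ (s + th21 μ s g (min (((y : ℝ) - sl μ s * m) / m) v₀)) η (t, x) n| ≤
      d * (n * ex μ s (th21 μ s g (min (((y : ℝ) - sl μ s * m) / m) v₀)))

/-- The regular environments have overwhelming probability. The order of the constants is the order in which they are chosen: `e`,
`b` first; then `g`, `d` (small); then `n₁`; then `v₀` (as small as one wants). -/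
def EnvP21 (μ : Measure ℝ) (s c : ℝ) : Prop := ∀ e : ℝ, 0 < e → ∃ b : ℝ, 0 < b ∧ ∀ g d : ℝ, 0 < g → 4 * g ≤ c → 0 < d →
  ∃ n₁ : ℕ, ∀ v₁ : ℝ, 0 < v₁ → ∃ v₀ : ℝ, 0 < v₀ ∧ v₀ ≤ v₁ ∧ ∃ c' : ℝ, 0 < c' ∧ ∃ L₀ : ℕ, ∀ L : ℕ, L₀ ≤ L → ∀ R : ℕ, R ≤ L →
    (law μ).real {η | ¬ Env21 μ s c b ((L : ℝ) ^ e) d g v₀ n₁ R η} ≤ Real.exp (-(L : ℝ) ^ c')

end

end Pool.Agent.W_7d29a1_HZ.Z21
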