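import Pool.Agent.W_7d29a1_HS.MomE
import Pool.Agent.W_7d29a1_HZ.Z21_Def
/-!
STORM Z, Lemma NS (no steep places): the regular environments have overwhelming probability. Luck, tilted luck and the assembly; the
energy field is a hypothesis here (helper21, En21). At the tilt s: helper67.
-/

set_option autoImplicit false

namespace Pool.Agent.W_7d29a1_HZ.Z21

open MeasureTheory ProbabilityTheory Filter Topology
open Pool.Agent.W_7d29a1_F Pool.Agent.W_7d29a1_h4g Pool.Agent.W_7d29a1_H Pool.Agent.W_7d29a1_HS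

variable {μ : Measure ℝ} {s : ℝ} [IsProbabilityMeasure μ] {c C : ℝ} {n₀ : ℕ}

/-- Absorption of polynomial factors. -/
theorem ev_pow94 (k : ℕ) {A a s c' : ℝ} (hA : 0 ≤ A) (ha : 0 < a) (hc : c' < s) (hs : 0 < s) : ∀ᶠ L : ℕ in atTop,
    ((L : ℝ) + 1) ^ k * (A * Real.exp (-(a * (L : ℝ) ^ s))) ≤ 1 / 3 * Real.exp (-(L : ℝ) ^ c') := by
  have h1 : ∀ᶠ L : ℕ in atTop, (L : ℝ) ^ c' ≤ a / 4 * (L : ℝ) ^ s := by
    have h2 : Tendsto (fun L : ℕ => (L : ℝ) ^ (-(s - c'))) atTop (𝓝 0) :=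
      (tendsto_rpow_neg_atTop (by linarith)).comp tendsto_natCast_atTop_atTop
    filter_upwards [h2.eventually (Iio_mem_nhds (show (0 : ℝ) < a / 4 by positivity)), eventually_gt_atTop 0] with L hL hL0
    have hL0' : (0 : ℝ) < L := by exact_mod_cast hL0
    have e1 : (L : ℝ) ^ c' = (L : ℝ) ^ (-(s - c')) * (L : ℝ) ^ s := by
      rw [← Real.rpow_add hL0']
      congr 1
      ring
    rw [e1]
    exact mul_le_mul_of_nonneg_right (le_of_lt hL) (by positivity)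
  have h3 : ∀ᶠ L : ℕ in atTop, k * Real.log ((L : ℝ) + 1) ≤ a / 4 * (L : ℝ) ^ s := by
    have h4 : (fun x : ℝ => Real.log x) =o[atTop] fun x => x ^ s := isLittleO_log_rpow_atTop hs
    have h5 := (h4.comp_tendsto tendsto_natCast_atTop_atTop).bound (show (0 : ℝ) < a / (8 * (k + 1)) by positivity)
    filter_upwards [h5, eventually_ge_atTop 2] with L hL hL2
    have hL2' : (2 : ℝ) ≤ L := by exact_mod_cast hL2
    simp only [Function.comp_apply, Real.norm_eq_abs] at hL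
    have hlog : 0 ≤ Real.log (L : ℝ) := Real.log_nonneg (by linarith)
    rw [abs_of_nonneg hlog, abs_of_nonneg (by positivity)] at hL
    have h6 : Real.log ((L : ℝ) + 1) ≤ 2 * Real.log L := by
      have h7 : (L : ℝ) + 1 ≤ (L : ℝ) ^ 2 := by
        have h9 := mul_le_mul_of_nonneg_right hL2' (show (0 : ℝ) ≤ L by linarith)
        rw [sq]
        linarith
      have h8 := Real.log_le_log (by linarith) h7
      rw [Real.log_pow] at h8
      push_cast at h8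
      exact h8
    have hk0 : (0 : ℝ) ≤ k := Nat.cast_nonneg _
    calc k * Real.log ((L : ℝ) + 1) ≤ k * (2 * Real.log L) := by gcongr
      _ ≤ (k + 1) * (2 * Real.log L) := mul_le_mul_of_nonneg_right (by linarith) (by linarith)
      _ ≤ (k + 1) * (2 * (a / (8 * (k + 1)) * (L : ℝ) ^ s)) := by gcongr
      _ = a / 4 * (L : ℝ) ^ s := by
        field_simp
        ring
  have h9 : ∀ᶠ L : ℕ in atTop, Real.log (3 * (A + 1)) ≤ a / 4 * (L : ℝ) ^ s := by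
    have h10 : Tendsto (fun L : ℕ => (L : ℝ) ^ s) atTop atTop := (tendsto_rpow_atTop hs).comp tendsto_natCast_atTop_atTop
    filter_upwards [h10.eventually_ge_atTop (Real.log (3 * (A + 1)) / (a / 4))] with L hL
    rw [div_le_iff₀ (by positivity)] at hL
    linarith
  filter_upwards [h1, h3, h9] with L h1 h3 h9
  have hA1 : A ≤ 1 / 3 * Real.exp (Real.log (3 * (A + 1))) := by
    rw [Real.exp_log (by positivity)]
    linarith
  have hL : ((L : ℝ) + 1) ^ k = Real.exp (k * Real.log ((L : ℝ) + 1)) := by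
    rw [Real.exp_nat_mul, Real.exp_log (by positivity)]
  rw [hL]
  calc Real.exp (k * Real.log ((L : ℝ) + 1)) * (A * Real.exp (-(a * (L : ℝ) ^ s)))
      ≤ Real.exp (k * Real.log ((L : ℝ) + 1)) * (1 / 3 * Real.exp (Real.log (3 * (A + 1))) * Real.exp (-(a * (L : ℝ) ^ s))) := by
        gcongr
    _ = 1 / 3 * Real.exp (k * Real.log ((L : ℝ) + 1) + Real.log (3 * (A + 1)) + -(a * (L : ℝ) ^ s)) := by
        rw [Real.exp_add, Real.exp_add]
        ring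
    _ ≤ _ := by
        refine mul_le_mul_of_nonneg_left (Real.exp_le_exp.2 ?_) (by norm_num)
        have : 0 ≤ a * (L : ℝ) ^ s := by positivity
        linarith

/-- The union bound. -/
theorem union94 {ι : Type*} (F : Finset ι) (P : ι → Set Env) {p : ℝ} (hp : ∀ i ∈ F, (law μ).real (P i) ≤ p) :
    (law μ).real (⋃ i ∈ F, P i) ≤ F.card * p := by
  refine (measureReal_biUnion_finset_le F P).trans ?_
  refine (Finset.sum_le_sum hp).trans (le_of_eq ?_)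
  rw [Finset.sum_const, nsmul_eq_mul]

/-- The law of the luck does not depend on the start. -/
theorem V_start94 (t : ℝ) (b : Pt) (n : ℕ) {S : Set ℝ} (hS : MeasurableSet S) :
    (law μ).real {η | V μ t η b n ∈ S} = (law μ).real {η | V μ t η 0 n ∈ S} := by
  have hmeas : MeasurableSet {η : Env | V μ t η 0 n ∈ S} := (Pool.Agent.W_7d29a1_F.measurable_V (μ := μ) (s := t) 0 n) hS
  rw [← real_sh (μ := μ) b hmeas]
  congr 1
  ext η
  show V μ t η b n ∈ S ↔ V μ t (sh b η) 0 n ∈ S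
  rw [V_sh, zero_add]

/-- The luck of one start. -/
theorem lu_pt94 (h : In μ s c C n₀) {e : ℝ} : ∃ A a : ℝ, 0 < A ∧ 0 < a ∧ ∀ (L n : ℕ), 1 ≤ n → ∀ b : Pt,
    (law μ).real {η | ¬ V μ s η b n ≤ (L : ℝ) ^ e * EE μ s n} ≤ A * Real.exp (-(a * (L : ℝ) ^ e)) := by
  obtain ⟨A, a, hA, ha, hU⟩ := upper_V_exp h
  refine ⟨A, a, hA, ha, fun L n hn b => ?_⟩
  have h1 := V_start94 (μ := μ) s b n (S := (Set.Iic ((L : ℝ) ^ e * EE μ s n))ᶜ) measurableSet_Iic.compl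
  have h2 : (law μ).real {η | ¬ V μ s η b n ≤ (L : ℝ) ^ e * EE μ s n} =
      (law μ).real {η | V μ s η 0 n ∈ (Set.Iic ((L : ℝ) ^ e * EE μ s n))ᶜ} := h1
  rw [h2]
  refine (measureReal_mono ?_).trans (hU n hn ((L : ℝ) ^ e) (by positivity))
  intro η hη
  have h3 : ¬ V μ s η 0 n ≤ (L : ℝ) ^ e * EE μ s n := hη
  exact (not_le.1 h3).le

/-- The tilted luck of one start. -/
theorem tl_pt94 (t d : ℝ) (b : Pt) (n : ℕ) : (law μ).real {η | ¬ |V μ (s + t) η b n| ≤ d * (n * ex μ s t)} =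
    (law μ).real {η | ¬ |V μ (s + t) η 0 n| ≤ d * (n * ex μ s t)} := by
  have hS : MeasurableSet {x : ℝ | ¬ |x| ≤ d * (n * ex μ s t)} := (measurableSet_le measurable_id.abs measurable_const).compl
  exact V_start94 (μ := μ) (s + t) b n hS

/-- The number of the starts and displacements. -/
theorem card94 {R L : ℕ} (hR : R ≤ L) :
    (((((Finset.Icc (0 : ℤ) R ×ˢ Finset.Icc (-(3 * R : ℤ)) (3 * R)) ×ˢ Finset.range (R + 1)) ×ˢ Finset.range (R + 1)) ×ˢ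
      Finset.Icc (0 : ℤ) R) ×ˢ Finset.range (R + 1)).card ≤ 6 * (L + 1) ^ 6 := by
  rw [Finset.card_product, Finset.card_product, Finset.card_product, Finset.card_product, Finset.card_product, Finset.card_range,
    Int.card_Icc, Int.card_Icc]
  have h1 : ((R : ℤ) + 1 - 0).toNat = R + 1 := by omega
  have h2 : ((3 * R : ℤ) + 1 - -(3 * R : ℤ)).toNat = 6 * R + 1 := by omega
  rw [h1, h2]
  have h3 : R + 1 ≤ L + 1 := by omega
  have h4 : 6 * R + 1 ≤ 6 * (L + 1) := by omega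
  calc (R + 1) * (6 * R + 1) * (R + 1) * (R + 1) * (R + 1) * (R + 1)
      ≤ (L + 1) * (6 * (L + 1)) * (L + 1) * (L + 1) * (L + 1) * (L + 1) := by gcongr
    _ = 6 * (L + 1) ^ 6 := by ring

/-- The tilted law of large numbers at the tilt `s` (this is `Z94.tilt_lln h`): what the regular environments use of it. -/
def TL67 (μ : Measure ℝ) (s c : ℝ) : Prop := ∀ e d c1 : ℝ, 0 < e → 0 < d → 0 < c1 → ∃ c' : ℝ, 0 < c' ∧ ∃ n₂ L₀ : ℕ,
  ∀ L : ℕ, L₀ ≤ L → ∀ r : ℕ, n₂ ≤ r → ∀ t : ℝ, c1 * EE μ s r ≤ |t| * wd μ s r → |t| * wd μ s r ≤ c / 2 * EE μ s r → ∀ n : ℕ,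
    (r : ℝ) * (L : ℝ) ^ e ≤ n → n ≤ L →
      (law μ).real {η | ¬ |V μ (s + t) η 0 n| ≤ d * (n * ex μ s t)} ≤ Real.exp (-(L : ℝ) ^ c')

/-- **The regular environments**, from the energy field. -/
theorem env_of94 (h : In μ s c C n₀) (hT : TL67 μ s c)
    (hEn : ∀ e : ℝ, 0 < e → ∃ b : ℝ, 0 < b ∧ ∃ v₁ : ℝ, 0 < v₁ ∧ ∀ v₀ : ℝ, 0 < v₀ → v₀ ≤ v₁ → ∃ c' : ℝ, 0 < c' ∧ ∃ L₀ : ℕ,
      ∀ L : ℕ, L₀ ≤ L → ∀ R : ℕ, R ≤ L → (law μ).real {η | ¬ ∀ (t x : ℤ) (n : ℕ) (y : ℤ), 0 ≤ t → t + n ≤ R → |x| ≤ 3 * R →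
        1 ≤ n → sl μ s * n < (y : ℝ) → y ≤ n →
        b * (n * Jt21 μ s v₀ (((y : ℝ) - sl μ s * n) / n)) - (L : ℝ) ^ e * EE μ s n ≤ X μ s η (t, x) n y} ≤ Real.exp (-(L : ℝ) ^ c')) :
    EnvP21 μ s c := by
  intro e he
  obtain ⟨b, hb, v₂, hv₂, hEn⟩ := hEn e he
  refine ⟨b, hb, fun g d hg hgc hd => ?_⟩
  obtain ⟨ct, hct, n₁, Lt, htl⟩ := hT e d (g / 2) he hd (by positivity)
  refine ⟨n₁, fun v₁ hv₁ => ?_⟩
  refine ⟨min v₁ v₂, lt_min hv₁ hv₂, min_le_left _ _, ?_⟩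
  obtain ⟨v₀, hv₀⟩ : ∃ v₀ : ℝ, v₀ = min v₁ v₂ := ⟨_, rfl⟩
  have hv₀0 : 0 < v₀ := hv₀ ▸ lt_min hv₁ hv₂
  rw [← hv₀]
  obtain ⟨ce, hce, Le, hEn⟩ := hEn v₀ hv₀0 (hv₀ ▸ min_le_right _ _)
  obtain ⟨A, a, hA, ha, hlu⟩ := lu_pt94 h (e := e)
  obtain ⟨c', hc'⟩ : ∃ c' : ℝ, c' = min (min ct ce) e / 2 := ⟨_, rfl⟩
  have hm0 : 0 < min (min ct ce) e := lt_min (lt_min hct hce) he
  have hc'0 : 0 < c' := by
    rw [hc']
    linarith
  have hc't : c' < ct := by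
    have := (min_le_left (min ct ce) e).trans (min_le_left _ _)
    rw [hc']
    linarith
  have hc'e : c' < ce := by
    have := (min_le_left (min ct ce) e).trans (min_le_right _ _)
    rw [hc']
    linarith
  have hc'l : c' < e := by
    have := min_le_right (min ct ce) e
    rw [hc']
    linarith
  have hE1 := ev_pow94 6 (A := 6) (a := 1) (s := ct) (c' := c') (by norm_num) one_pos hc't hct
  have hE2 := ev_pow94 0 (A := 1) (a := 1) (s := ce) (c' := c') zero_le_one one_pos hc'e hce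
  have hE3 := ev_pow94 6 (A := 6 * A) (a := a) (s := e) (c' := c') (by positivity) ha hc'l he
  obtain ⟨L₀, hL₀⟩ := eventually_atTop.1 (hE1.and (hE2.and (hE3.and (eventually_ge_atTop (max (max Lt Le) 1)))))
  refine ⟨c', hc'0, L₀, fun L hL R hRL => ?_⟩
  obtain ⟨h1, h2, h3, h4⟩ := hL₀ L hL
  have hLt : Lt ≤ L := (le_max_left _ _).trans ((le_max_left _ _).trans h4)
  have hLe : Le ≤ L := (le_max_right _ _).trans ((le_max_left _ _).trans h4)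
  have hL1 : 1 ≤ L := (le_max_right _ _).trans h4
  have hL1' : (1 : ℝ) ≤ L := by exact_mod_cast hL1
  have hQ1 : (1 : ℝ) ≤ (L : ℝ) ^ e := Real.one_le_rpow hL1' he.le
  -- the index set
  obtain ⟨F, hF⟩ : ∃ F : Finset (((((ℤ × ℤ) × ℕ) × ℕ) × ℤ) × ℕ), F =
    ((((Finset.Icc (0 : ℤ) R ×ˢ Finset.Icc (-(3 * R : ℤ)) (3 * R)) ×ˢ Finset.range (R + 1)) ×ˢ Finset.range (R + 1)) ×ˢ
      Finset.Icc (0 : ℤ) R) ×ˢ Finset.range (R + 1) := ⟨_, rfl⟩
  have hcard : (F.card : ℝ) ≤ 6 * ((L : ℝ) + 1) ^ 6 := by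
    rw [hF]
    exact_mod_cast card94 hRL
  have hmem : ∀ (t x : ℤ) (n m : ℕ) (y : ℤ) (r : ℕ), 0 ≤ t → t ≤ R → |x| ≤ 3 * R → n ≤ R → m ≤ R → 0 ≤ y → y ≤ R → r ≤ R →
      (((((t, x), n), m), y), r) ∈ F := by
    intro t x n m y r ht0 htR hx hn hm hy0 hyR hr
    rw [hF]
    simp only [Finset.mem_product, Finset.mem_Icc, Finset.mem_range]
    have hx' := abs_le.1 hx
    refine ⟨⟨⟨⟨⟨⟨ht0, htR⟩, ?_⟩, by omega⟩, by omega⟩, ⟨hy0, hyR⟩⟩, by omega⟩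
    constructor
    · linarith [hx'.1]
    · exact hx'.2
  -- the bad sets of the luck
  obtain ⟨Pl, hPl⟩ : ∃ Pl : (((((ℤ × ℤ) × ℕ) × ℕ) × ℤ) × ℕ) → Set Env, Pl = fun i => {η | 1 ≤ i.1.1.1.2 ∧
    ¬ V μ s η i.1.1.1.1 i.1.1.1.2 ≤ (L : ℝ) ^ e * EE μ s i.1.1.1.2} := ⟨_, rfl⟩
  have hPl1 : (law μ).real (⋃ i ∈ F, Pl i) ≤ F.card * (A * Real.exp (-(a * (L : ℝ) ^ e))) := by
    refine union94 F Pl fun i _ => ?_
    rw [hPl]
    by_cases hi : 1 ≤ i.1.1.1.2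
    · refine (measureReal_mono fun η hη => ?_).trans (hlu L i.1.1.1.2 hi i.1.1.1.1)
      exact hη.2
    · have h5 : {η : Env | 1 ≤ i.1.1.1.2 ∧ ¬ V μ s η i.1.1.1.1 i.1.1.1.2 ≤ (L : ℝ) ^ e * EE μ s i.1.1.1.2} = ∅ := by
        ext η
        simp [hi]
      show (law μ).real {η : Env | 1 ≤ i.1.1.1.2 ∧ ¬ V μ s η i.1.1.1.1 i.1.1.1.2 ≤ (L : ℝ) ^ e * EE μ s i.1.1.1.2} ≤ _
      rw [h5, measureReal_empty]
      positivity
  -- the bad sets of the tilted luck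
  obtain ⟨th, hth⟩ : ∃ th : ℕ → ℤ → ℝ, th = fun (m : ℕ) (y : ℤ) => th21 μ s g (min (((y : ℝ) - sl μ s * (m : ℝ)) / (m : ℝ)) v₀) := ⟨_, rfl⟩
  obtain ⟨Ok, hOk⟩ : ∃ Ok : (((((ℤ × ℤ) × ℕ) × ℕ) × ℤ) × ℕ) → Prop, Ok = fun i => i.1.1.1.2 ≤ R ∧ i.1.2 ≤ i.1.1.2 ∧
    sl μ s * i.1.1.2 < (i.1.2 : ℝ) ∧ n₁ ≤ i.2 ∧ g / 2 * EE μ s i.2 ≤ th i.1.1.2 i.1.2 * wd μ s i.2 ∧
    th i.1.1.2 i.1.2 * wd μ s i.2 ≤ c / 2 * EE μ s i.2 ∧ (L : ℝ) ^ e * i.2 ≤ i.1.1.1.2 := ⟨_, rfl⟩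
  obtain ⟨Pt', hPt⟩ : ∃ Pt' : (((((ℤ × ℤ) × ℕ) × ℕ) × ℤ) × ℕ) → Set Env, Pt' = fun i => {η | Ok i ∧
    ¬ |V μ (s + th i.1.1.2 i.1.2) η i.1.1.1.1 i.1.1.1.2| ≤ d * (i.1.1.1.2 * ex μ s (th i.1.1.2 i.1.2))} := ⟨_, rfl⟩
  have hPt1 : (law μ).real (⋃ i ∈ F, Pt' i) ≤ F.card * Real.exp (-(L : ℝ) ^ ct) := by
    refine union94 F Pt' fun i _ => ?_
    rw [hPt]
    by_cases hi : Ok i
    · refine (measureReal_mono (s₂ := {η | ¬ |V μ (s + th i.1.1.2 i.1.2) η i.1.1.1.1 i.1.1.1.2| ≤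
        d * (i.1.1.1.2 * ex μ s (th i.1.1.2 i.1.2))}) fun η hη => hη.2).trans ?_
      rw [tl_pt94]
      rw [hOk] at hi
      obtain ⟨hn, hy1, hy2, hr, ht1, ht2, hq⟩ := hi
      have hthn : 0 ≤ th i.1.1.2 i.1.2 := by
        have hu0 : 0 ≤ ((i.1.2 : ℝ) - sl μ s * i.1.1.2) / i.1.1.2 := div_nonneg (by linarith) (Nat.cast_nonneg _)
        rw [hth]
        show 0 ≤ th21 μ s g (min (((i.1.2 : ℝ) - sl μ s * i.1.1.2) / i.1.1.2) v₀)
        have hv : 0 ≤ min (((i.1.2 : ℝ) - sl μ s * i.1.1.2) / i.1.1.2) v₀ := le_min hu0 hv₀0.le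
        unfold th21
        exact div_nonneg (mul_nonneg hg.le (J_nonneg h.em h.nd s _)) hv
      have habs : |th i.1.1.2 i.1.2| = th i.1.1.2 i.1.2 := abs_of_nonneg hthn
      refine htl L hLt i.2 hr _ (by rw [habs]; exact ht1) (by rw [habs]; exact ht2) _ (by rw [mul_comm]; exact hq) (hn.trans hRL)
    · have h5 : {η : Env | Ok i ∧ ¬ |V μ (s + th i.1.1.2 i.1.2) η i.1.1.1.1 i.1.1.1.2| ≤
          d * (i.1.1.1.2 * ex μ s (th i.1.1.2 i.1.2))} = ∅ := by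
        ext η
        simp [hi]
      show (law μ).real {η : Env | Ok i ∧ ¬ |V μ (s + th i.1.1.2 i.1.2) η i.1.1.1.1 i.1.1.1.2| ≤
          d * (i.1.1.1.2 * ex μ s (th i.1.1.2 i.1.2))} ≤ _
      rw [h5, measureReal_empty]
      positivity
  -- the inclusion
  have hincl : {η | ¬ Env21 μ s c b ((L : ℝ) ^ e) d g v₀ n₁ R η} ⊆
      ({η | ¬ ∀ (t x : ℤ) (n : ℕ) (y : ℤ), 0 ≤ t → t + n ≤ R → |x| ≤ 3 * R → 1 ≤ n → sl μ s * n < (y : ℝ) → y ≤ n →
        b * (n * Jt21 μ s v₀ (((y : ℝ) - sl μ s * n) / n)) - (L : ℝ) ^ e * EE μ s n ≤ X μ s η (t, x) n y} ∪ ⋃ i ∈ F, Pl i) ∪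
        ⋃ i ∈ F, Pt' i := by
    intro η hη
    by_contra hcon
    rw [Set.mem_union, Set.mem_union, not_or, not_or] at hcon
    obtain ⟨⟨g1, g2⟩, g3⟩ := hcon
    refine hη ⟨?_, ?_, ?_⟩
    · have g4 := not_not.1 g1
      exact g4
    · intro t x n ht htn hx hn
      by_contra g4
      refine g2 (Set.mem_biUnion (x := (((((t, x), n), 0), 0), 0))
        (hmem t x n 0 0 0 ht (by omega) hx (by omega) (by omega) le_rfl (by omega) (by omega)) ?_)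
      rw [hPl]
      exact ⟨hn, g4⟩
    · intro t x n ht htn hx m y hm hy1 hy2 r hr ht1 ht2 hq
      by_contra g4
      have hnR : n ≤ R := by omega
      have hrn : r ≤ n := by
        have g5 : (r : ℝ) ≤ n := (le_mul_of_one_le_left (Nat.cast_nonneg r) hQ1).trans hq
        exact_mod_cast g5
      have hy0 : 0 ≤ y := by
        have g6 : (0 : ℝ) < y := lt_of_le_of_lt (mul_nonneg h.sl_pos.le (Nat.cast_nonneg m)) hy2
        exact_mod_cast g6.le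
      refine g3 (Set.mem_biUnion (x := (((((t, x), n), m), y), r))
        (hmem t x n m y r ht (by omega) hx (by omega) (by omega) hy0 (by omega) (by omega)) ?_)
      rw [hPt]
      refine ⟨?_, ?_⟩
      · rw [hOk, hth]
        exact ⟨hnR, hy1, hy2, hr, ht1, ht2, hq⟩
      · rw [hth]
        exact g4
  refine (measureReal_mono hincl).trans ((measureReal_union_le _ _).trans ?_)
  have g1 := measureReal_union_le (μ := law μ) {η | ¬ ∀ (t x : ℤ) (n : ℕ) (y : ℤ), 0 ≤ t → t + n ≤ R → |x| ≤ 3 * R → 1 ≤ n →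
    sl μ s * n < (y : ℝ) → y ≤ n →
    b * (n * Jt21 μ s v₀ (((y : ℝ) - sl μ s * n) / n)) - (L : ℝ) ^ e * EE μ s n ≤ X μ s η (t, x) n y} (⋃ i ∈ F, Pl i)
  have g2 := hEn L hLe R hRL
  have g3 : (F.card : ℝ) * (A * Real.exp (-(a * (L : ℝ) ^ e))) ≤ 1 / 3 * Real.exp (-(L : ℝ) ^ c') := by
    refine le_trans ?_ h3
    calc (F.card : ℝ) * (A * Real.exp (-(a * (L : ℝ) ^ e)))
        ≤ 6 * ((L : ℝ) + 1) ^ 6 * (A * Real.exp (-(a * (L : ℝ) ^ e))) := mul_le_mul_of_nonneg_right hcard (by positivity)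
      _ = _ := by ring
  have g4 : (F.card : ℝ) * Real.exp (-(L : ℝ) ^ ct) ≤ 1 / 3 * Real.exp (-(L : ℝ) ^ c') := by
    refine le_trans ?_ h1
    calc (F.card : ℝ) * Real.exp (-(L : ℝ) ^ ct)
        ≤ 6 * ((L : ℝ) + 1) ^ 6 * Real.exp (-(L : ℝ) ^ ct) := mul_le_mul_of_nonneg_right hcard (by positivity)
      _ = _ := by
        rw [one_mul]
        ring
  have g5 : Real.exp (-(L : ℝ) ^ ce) ≤ 1 / 3 * Real.exp (-(L : ℝ) ^ c') := by
    simpa using h2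
  linarith

end Pool.Agent.W_7d29a1_HZ.Z21
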