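import Pool.Agent.W_7d29a1_HZ.Z94_TiltC
import Pool.Agent.W_7d29a1_HZ.Z94_TiltD
import Pool.Agent.W_7d29a1_SL.T1b
import Pool.Agent.W_7d29a1_HS.Rec

/-!
MP_7d29a1_pr, STORM Z, Lemma NS (1), TILT LLN: the moments of one slab and the lower tail (T4).
-/

set_option autoImplicit false

namespace Pool.Agent.W_7d29a1_HZ.Z94

open MeasureTheory ProbabilityTheory Filter Topology
open Pool.Agent.W_7d29a1_F Pool.Agent.W_7d29a1_h4g Pool.Agent.W_7d29a1_H Pool.Agent.W_7d29a1_HS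

noncomputable section

variable {μ : Measure ℝ} [IsProbabilityMeasure μ] {s c C : ℝ} {n₀ : ℕ}

theorem exp_le_sq {u : ℝ} (hu : u ≤ 1) : Real.exp u ≤ 1 + u + u ^ 2 := by
  rcases le_or_gt (-1) u with h | h
  · have h1 := Real.abs_exp_sub_one_sub_id_le (abs_le.2 ⟨h, hu⟩)
    have h2 := (abs_le.1 h1).2
    linarith
  · have h1 : Real.exp u ≤ 1 := Real.exp_le_one_iff.2 (by linarith)
    nlinarith

/-- The exponential moment of one truncated free energy. -/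
theorem tV_mom_le (hμ : Pool.Agent.W_7d29a1_h47.EM μ) {t Λ θ : ℝ} (hθ : 0 ≤ θ) (hΛ : 0 ≤ Λ) (hθΛ : θ * Λ ≤ 1) (n : ℕ) :
    ∫ η, Real.exp (-(θ * tV μ (s + t) Λ η 0 n)) ∂(law μ) ≤ Real.exp (θ * bt μ (s + t) n + θ ^ 2 * ∫ η, V μ (s + t) η 0 n ^ 2 ∂(law μ)) := by
  have hS : Sub fun η => V μ (s + t) η 0 n := Sub_V 0 n
  have hT : Sub fun η => tV μ (s + t) Λ η 0 n := hS.max (Sub.const (-Λ))
  have hi1 : Integrable (fun η => V μ (s + t) η 0 n) (law μ) := hS.integrable hμ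
  have hi2 : Integrable (fun η => tV μ (s + t) Λ η 0 n) (law μ) := hT.integrable hμ
  have hi3 : Integrable (fun η => V μ (s + t) η 0 n ^ 2) (law μ) := hS.sq_integrable hμ
  have hpt : ∀ η, Real.exp (-(θ * tV μ (s + t) Λ η 0 n)) ≤ 1 - θ * tV μ (s + t) Λ η 0 n + θ ^ 2 * V μ (s + t) η 0 n ^ 2 := by
    intro η
    have h1 : -Λ ≤ tV μ (s + t) Λ η 0 n := le_max_right _ _
    have h2 : -(θ * tV μ (s + t) Λ η 0 n) ≤ 1 := by
      have := mul_le_mul_of_nonneg_left h1 hθ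
      linarith
    have h3 := exp_le_sq h2
    have h4 : tV μ (s + t) Λ η 0 n ^ 2 ≤ V μ (s + t) η 0 n ^ 2 := by
      rcases le_total (-Λ) (V μ (s + t) η 0 n) with h5 | h5
      · have : tV μ (s + t) Λ η 0 n = V μ (s + t) η 0 n := max_eq_left h5
        rw [this]
      · have : tV μ (s + t) Λ η 0 n = -Λ := max_eq_right h5
        rw [this]
        nlinarith
    have h5 := mul_le_mul_of_nonneg_left h4 (sq_nonneg θ)
    nlinarith
  have h1 : ∫ η, Real.exp (-(θ * tV μ (s + t) Λ η 0 n)) ∂(law μ) ≤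
      ∫ η, (1 - θ * tV μ (s + t) Λ η 0 n + θ ^ 2 * V μ (s + t) η 0 n ^ 2) ∂(law μ) :=
    integral_mono_of_nonneg (Eventually.of_forall fun η => (Real.exp_pos _).le)
      (((integrable_const _).sub (hi2.const_mul θ)).add (hi3.const_mul _)) (Eventually.of_forall hpt)
  have hA : Integrable (fun η => (1 : ℝ) - θ * tV μ (s + t) Λ η 0 n) (law μ) := (integrable_const _).sub (hi2.const_mul θ)
  rw [integral_add hA (hi3.const_mul _), integral_sub (integrable_const _) (hi2.const_mul θ),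
    integral_const_mul, integral_const_mul] at h1
  simp only [integral_const, probReal_univ, smul_eq_mul, one_mul] at h1
  have h2 : ∫ η, V μ (s + t) η 0 n ∂(law μ) ≤ ∫ η, tV μ (s + t) Λ η 0 n ∂(law μ) := integral_mono hi1 hi2 fun η => le_max_left _ _
  have h3 := mul_le_mul_of_nonneg_left h2 hθ
  have h4 := Real.add_one_le_exp (θ * bt μ (s + t) n + θ ^ 2 * ∫ η, V μ (s + t) η 0 n ^ 2 ∂(law μ))
  unfold bt at h4 ⊢
  linarith

/-- The second moment of a tilted free energy. -/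
theorem second_moment (h : In μ s c C n₀) {q K : ℝ} {n₁ : ℕ} (hT : PsiT μ s c C q K n₁) : ∃ B : ℝ, 0 < B ∧
    ∀ r : ℕ, n₁ ≤ r → ∀ t : ℝ, |t| * wd μ s r ≤ c / 2 * EE μ s r → ∀ n : ℕ,
      ∫ η, V μ (s + t) η 0 n ^ 2 ∂(law μ) ≤ B * (((n / r : ℕ) : ℝ) + 1) * EE μ s r ^ 2 + bt μ (s + t) n ^ 2 := by
  obtain ⟨c', hc', hT1⟩ := Pool.Agent.W_7d29a1_SL.t1_XV h.em h.nd
  have hC1 := h.C1
  have hC0 : 0 < C := by linarith
  refine ⟨|K| * C ^ 2 / c' + 1, by positivity, fun r hr t ht n => ?_⟩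
  have hE1 : 1 ≤ EE μ s r := one_le_EE r
  have hE0 : 0 < EE μ s r := by linarith
  have hCE : 1 ≤ C * EE μ s r := one_le_mul_of_one_le_of_one_le hC1 hE1
  obtain ⟨θ, hθd⟩ : ∃ θ : ℝ, θ = 1 / (C * EE μ s r) := ⟨_, rfl⟩
  have hθ0 : 0 < θ := by rw [hθd]; positivity
  have hθ1 : θ ≤ 1 := by
    rw [hθd, div_le_one (by linarith)]
    exact hCE
  have h1 := (hT1 (s + t) n θ hθ0.le hθ1).1
  have h2 := hT r hr t ht n 0
  rw [pow_zero, mul_one, pow_zero, mul_one, ← hθd] at h2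
  obtain ⟨v, hv⟩ : ∃ v : ℝ, v = ∫ η, (V μ (s + t) η 0 n - ∫ ξ, V μ (s + t) ξ 0 n ∂(law μ)) ^ 2 ∂(law μ) := ⟨_, rfl⟩
  rw [← hv] at h1
  have hS : Sub fun η => V μ (s + t) η 0 n := Sub_V 0 n
  have hi1 : Integrable (fun η => V μ (s + t) η 0 n) (law μ) := hS.integrable h.em
  have hi3 : Integrable (fun η => V μ (s + t) η 0 n ^ 2) (law μ) := hS.sq_integrable h.em
  have e1 : ∫ η, V μ (s + t) η 0 n ^ 2 ∂(law μ) = v + bt μ (s + t) n ^ 2 := by
    rw [hv]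
    unfold bt
    obtain ⟨w, hw⟩ : ∃ w : ℝ, w = ∫ ξ, V μ (s + t) ξ 0 n ∂(law μ) := ⟨_, rfl⟩
    rw [← hw]
    have e2 : ∀ η, (V μ (s + t) η 0 n - w) ^ 2 = V μ (s + t) η 0 n ^ 2 - 2 * w * V μ (s + t) η 0 n + w ^ 2 := fun η => by ring
    simp only [e2]
    have hA : Integrable (fun η => V μ (s + t) η 0 n ^ 2 - 2 * w * V μ (s + t) η 0 n) (law μ) := hi3.sub (hi1.const_mul _)
    rw [integral_add hA (integrable_const _), integral_sub hi3 (hi1.const_mul _), integral_const_mul, ← hw]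
    simp only [integral_const, probReal_univ, smul_eq_mul, one_mul]
    ring
  rw [e1]
  have h3 : c' * θ ^ 2 * v ≤ K * (((n / r : ℕ) : ℝ) + 1) := by linarith
  have hN : (0 : ℝ) ≤ ((n / r : ℕ) : ℝ) + 1 := by positivity
  have h4 : K * (((n / r : ℕ) : ℝ) + 1) ≤ |K| * (((n / r : ℕ) : ℝ) + 1) := mul_le_mul_of_nonneg_right (le_abs_self K) hN
  have e3 : θ ^ 2 * (C ^ 2 * EE μ s r ^ 2) = 1 := by
    rw [hθd]
    field_simp
  have h5 : v ≤ |K| * C ^ 2 / c' * (((n / r : ℕ) : ℝ) + 1) * EE μ s r ^ 2 := by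
    have h6 : θ ^ 2 * v ≤ |K| * (((n / r : ℕ) : ℝ) + 1) / c' := by
      rw [le_div_iff₀ hc']
      linarith
    calc v = (θ ^ 2 * v) * (C ^ 2 * EE μ s r ^ 2) := by
          calc v = (θ ^ 2 * (C ^ 2 * EE μ s r ^ 2)) * v := by rw [e3, one_mul]
            _ = _ := by ring
      _ ≤ (|K| * (((n / r : ℕ) : ℝ) + 1) / c') * (C ^ 2 * EE μ s r ^ 2) := mul_le_mul_of_nonneg_right h6 (by positivity)
      _ = _ := by ring
  have h7 : 0 ≤ (((n / r : ℕ) : ℝ) + 1) * EE μ s r ^ 2 := by positivity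
  nlinarith

omit [IsProbabilityMeasure μ] in
/-- The weights at the tilt `s + t`. -/
theorem W_tilt (s t : ℝ) (η : Env) (a : Pt) (n : ℕ) (y : ℤ) :
    W μ (s + t) η a n y = W μ s η a n y * Real.exp (t * ((y : ℝ) - sl μ s * n) - n * ex μ s t) := by
  unfold W WR ex
  rw [mul_right_comm, ← Real.exp_add]
  congr 2
  ring

omit [IsProbabilityMeasure μ] in
theorem X_tilt (s t : ℝ) (η : Env) {n : ℕ} {y : ℤ} (h0 : 0 ≤ y) (h1 : y ≤ n) :
    X μ (s + t) η 0 n y = X μ s η 0 n y - t * ((y : ℝ) - sl μ s * n) + n * ex μ s t := by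
  unfold X
  rw [W_tilt, Real.log_mul (W_pos η 0 h0 h1).ne' (Real.exp_pos _).ne', Real.log_exp]
  ring

theorem V_tilt_ge (h : In μ s c C n₀) (t : ℝ) (η : Env) (n : ℕ) :
    -X μ s η 0 n (md μ s n) - |t| - n * ex μ s t ≤ V μ (s + t) η 0 n := by
  have h1 := neg_X_le_V (μ := μ) (s := s + t) η 0 (h.md_nonneg n) (h.md_le_nat n)
  rw [X_tilt s t η (h.md_nonneg n) (h.md_le_nat n)] at h1
  have h2 : |t * (((md μ s n : ℤ) : ℝ) - sl μ s * n)| ≤ |t| * 1 := by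
    rw [abs_mul]
    exact mul_le_mul_of_nonneg_left (md_abs n) (abs_nonneg t)
  have h3 := (abs_le.1 h2).1
  linarith

end

end Pool.Agent.W_7d29a1_HZ.Z94
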