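import Pool.Agent.W_7d29a1_HS.Scale
import Pool.Agent.W_7d29a1_H.MeanA
import Pool.Agent.W_7d29a1_Z3.Er3

/-!
STORM Z AT EVERY TILT (MP_7d29a1_pr), step (E) at the tilt `s`: `EE R ≤ (wd R / z) A_R`. (Model: `W_7d29a1_Z3.Er3`, helper3.) A shear of
total displacement `z` which costs at most `A` off an event of small probability, for every end point of a cone of a few widths, bounds
the unit by `A wd R / z` (repeat the step `wd R / z` times, upwards from the straight displacement; the law of the environment is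
invariant, so only the means are compared). (helper56)
-/

set_option autoImplicit false

namespace Pool.Agent.W_7d29a1_HZ.Z3

open MeasureTheory ProbabilityTheory Filter Topology
open Pool.Agent.W_7d29a1_F Pool.Agent.W_7d29a1_H Pool.Agent.W_7d29a1_HS
open Pool.Agent.W_7d29a1_Z3 (shr mp_shr sum_abs_sq_le int_le_of_bad)

noncomputable section

variable {μ : Measure ℝ} {s : ℝ}

/-- The crude deterministic bound of the cost. -/
theorem abs_X_le (η : Env) {n : ℕ} {y : ℤ} (h0 : 0 ≤ y) (h1 : y ≤ n) :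
    |X μ s η 0 n y| ≤ n * (|lam μ s| + |s| + Real.log 2) +
      ∑ p ∈ Finset.Icc (0 : ℤ) n ×ˢ Finset.Icc (0 : ℤ) n, |η p| := by
  have hl := Zr_ge η 0 h0 h1
  have hu := Zr_le Set.univ η 0 n y
  simp only [Prod.fst_zero, Prod.snd_zero, zero_add] at hl hu
  obtain ⟨S, hS⟩ : ∃ S : ℝ, S = ∑ p ∈ Finset.Icc (0 : ℤ) n ×ˢ Finset.Icc (0 : ℤ) n, |η p| := ⟨_, rfl⟩
  rw [← hS] at hl hu ⊢
  have hZ : 0 < Zr Set.univ η 0 n y := lt_of_lt_of_le (Real.exp_pos _) hl
  have e1 : X μ s η 0 n y = n * lam μ s - s * y - Real.log (Zr Set.univ η 0 n y) := by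
    unfold X W WR
    rw [Real.log_mul (Real.exp_pos _).ne' hZ.ne', Real.log_exp]
    ring
  have h2 := Real.log_le_log (Real.exp_pos _) hl
  have h3 := Real.log_le_log hZ hu
  rw [Real.log_exp] at h2
  rw [Real.log_mul (by positivity) (Real.exp_pos _).ne', Real.log_exp, Real.log_pow] at h3
  have hn : (0 : ℝ) ≤ n := Nat.cast_nonneg n
  have hl2 : 0 < Real.log 2 := Real.log_pos (by norm_num)
  have hy0 : (0 : ℝ) ≤ y := by exact_mod_cast h0
  have hy1 : (y : ℝ) ≤ n := by exact_mod_cast h1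
  have h6 : |s * y| ≤ n * |s| := by
    rw [abs_mul, abs_of_nonneg hy0, mul_comm]
    exact mul_le_mul_of_nonneg_right hy1 (abs_nonneg s)
  have h7 : |(n : ℝ) * lam μ s| = n * |lam μ s| := by rw [abs_mul, abs_of_nonneg hn]
  obtain ⟨a1, a2⟩ := abs_le.1 h6
  obtain ⟨b1, b2⟩ := abs_le.1 h7.le
  have hnl : 0 ≤ (n : ℝ) * Real.log 2 := by positivity
  rw [e1, abs_le]
  constructor
  · linarith
  · linarith

/-- The second moment of the cost, crude. -/
theorem X_sq_le [IsProbabilityMeasure μ] (hμ : Pool.Agent.W_7d29a1_h47.EM μ) (s : ℝ) :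
    ∃ K : ℝ, 0 < K ∧ ∀ (n : ℕ) (y : ℤ), 0 ≤ y → y ≤ n → ∫ η, (X μ s η 0 n y) ^ 2 ∂(law μ) ≤ K * ((n : ℝ) + 1) ^ 4 := by
  obtain ⟨m2, hm2, hQ⟩ := sum_abs_sq_le (μ := μ) hμ
  obtain ⟨κ, hκ⟩ : ∃ κ, κ = |lam μ s| + |s| + Real.log 2 := ⟨_, rfl⟩
  have hκ0 : 0 < κ := by
    rw [hκ]
    have := Real.log_pos (show (1 : ℝ) < 2 by norm_num)
    positivity
  refine ⟨2 * κ ^ 2 + 2 * m2, by positivity, fun n y h0 h1 => ?_⟩
  obtain ⟨Q, hQd⟩ : ∃ Q : Finset Pt, Q = Finset.Icc (0 : ℤ) n ×ˢ Finset.Icc (0 : ℤ) n := ⟨_, rfl⟩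
  have hc : (Q.card : ℝ) = ((n : ℝ) + 1) ^ 2 := by
    rw [hQd, Finset.card_product, Int.card_Icc]
    push_cast
    have : ((n : ℤ) + 1 - 0).toNat = n + 1 := by omega
    rw [this]
    push_cast
    ring
  have hS : Sub fun η : Env => ∑ p ∈ Q, |η p| := Sub.sum Q fun p _ => (Sub.coord p).abs
  have hn1 : (1 : ℝ) ≤ (n : ℝ) + 1 := by
    have : (0 : ℝ) ≤ n := Nat.cast_nonneg n
    linarith
  calc ∫ η, (X μ s η 0 n y) ^ 2 ∂(law μ)
      ≤ ∫ η, (2 * (n * κ) ^ 2 + 2 * (∑ p ∈ Q, |η p|) ^ 2) ∂(law μ) := by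
        refine integral_mono ((Sub_X 0 h0 h1).sq_integrable hμ)
          ((integrable_const _).add (((hS.sq_integrable hμ)).const_mul 2)) fun η => ?_
        have h2 := abs_X_le (μ := μ) (s := s) η h0 h1
        rw [← hκ, ← hQd] at h2
        have h3 : (X μ s η 0 n y) ^ 2 ≤ (n * κ + ∑ p ∈ Q, |η p|) ^ 2 := by
          rw [← sq_abs (X μ s η 0 n y)]
          exact pow_le_pow_left₀ (abs_nonneg _) h2 2
        show (X μ s η 0 n y) ^ 2 ≤ 2 * (n * κ) ^ 2 + 2 * (∑ p ∈ Q, |η p|) ^ 2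
        nlinarith [sq_nonneg (n * κ - ∑ p ∈ Q, |η p|)]
    _ = 2 * (n * κ) ^ 2 + 2 * ∫ η, (∑ p ∈ Q, |η p|) ^ 2 ∂(law μ) := by
        have g5 : ∫ η, 2 * (∑ p ∈ Q, |η p|) ^ 2 ∂(law μ) = 2 * ∫ η, (∑ p ∈ Q, |η p|) ^ 2 ∂(law μ) := integral_const_mul _ _
        rw [integral_add (integrable_const _) ((hS.sq_integrable hμ).const_mul 2), g5]
        simp
    _ ≤ 2 * (n * κ) ^ 2 + 2 * (((n : ℝ) + 1) ^ 4 * m2) := by
        have := hQ Q
        rw [hc] at this
        have e2 : (((n : ℝ) + 1) ^ 2) ^ 2 = ((n : ℝ) + 1) ^ 4 := by ring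
        rw [e2] at this
        linarith
    _ ≤ (2 * κ ^ 2 + 2 * m2) * ((n : ℝ) + 1) ^ 4 := by
        have h4 : (n : ℝ) ^ 2 ≤ ((n : ℝ) + 1) ^ 4 := by
          have h5 : (n : ℝ) ^ 2 ≤ ((n : ℝ) + 1) ^ 2 := pow_le_pow_left₀ (Nat.cast_nonneg n) (by linarith) 2
          have h6 : ((n : ℝ) + 1) ^ 2 ≤ ((n : ℝ) + 1) ^ 4 := pow_le_pow_right₀ hn1 (by norm_num)
          linarith
        nlinarith [mul_le_mul_of_nonneg_left h4 (sq_nonneg κ)]

/-- One step of the shear, in mean. -/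
theorem e_step [IsProbabilityMeasure μ] (hμ : Pool.Agent.W_7d29a1_h47.EM μ) (s : ℝ) :
    ∃ K : ℝ, 0 < K ∧ ∀ (n : ℕ) (f : ℤ → ℤ) (y z : ℤ) (A δ : ℝ), 0 ≤ y → y ≤ n → 0 ≤ y + z → y + z ≤ n → 0 ≤ A →
      (law μ).real {η | A < X μ s (shr f η) 0 n (y + z) - X μ s η 0 n y} ≤ δ →
      e μ s n (y + z) ≤ e μ s n y + (A + K * ((n : ℝ) + 1) ^ 2 * Real.sqrt δ) := by
  obtain ⟨K, hK, hX⟩ := X_sq_le (μ := μ) hμ s
  refine ⟨2 * Real.sqrt K, by positivity, fun n f y z A δ h0 h1 h2 h3 hA hb => ?_⟩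
  have hS1 : Sub fun η => X μ s η 0 n (y + z) := Sub_X 0 h2 h3
  have hS2 : Sub fun η => X μ s η 0 n y := Sub_X 0 h0 h1
  have hmp := mp_shr (μ := μ) f
  have hi1 : Integrable (fun η => X μ s (shr f η) 0 n (y + z)) (law μ) :=
    (hmp.integrable_comp hS1.1.aestronglyMeasurable).2 (hS1.integrable hμ)
  have hi1s : Integrable (fun η => (X μ s (shr f η) 0 n (y + z)) ^ 2) (law μ) :=
    (hmp.integrable_comp (hS1.1.pow_const 2).aestronglyMeasurable).2 (hS1.sq_integrable hμ)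
  have hm1 : Measurable fun η => X μ s (shr f η) 0 n (y + z) := hS1.1.comp hmp.measurable
  have e1 : ∫ η, X μ s (shr f η) 0 n (y + z) ∂(law μ) = e μ s n (y + z) := by
    unfold e
    conv_rhs => rw [← hmp.map_eq]
    rw [integral_map hmp.aemeasurable hS1.1.aestronglyMeasurable]
  have e2 : ∫ η, (X μ s (shr f η) 0 n (y + z)) ^ 2 ∂(law μ) = ∫ η, (X μ s η 0 n (y + z)) ^ 2 ∂(law μ) := by
    conv_rhs => rw [← hmp.map_eq]
    rw [integral_map hmp.aemeasurable (hS1.1.pow_const 2).aestronglyMeasurable]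
  have hDm : Measurable fun η => X μ s (shr f η) 0 n (y + z) - X μ s η 0 n y := hm1.sub hS2.1
  have hD2i : Integrable (fun η => (X μ s (shr f η) 0 n (y + z) - X μ s η 0 n y) ^ 2) (law μ) := by
    refine ((hi1s.const_mul 2).add ((hS2.sq_integrable hμ).const_mul 2)).mono' (hDm.pow_const 2).aestronglyMeasurable
      (Eventually.of_forall fun η => ?_)
    rw [Real.norm_eq_abs, abs_of_nonneg (sq_nonneg _)]
    show (X μ s (shr f η) 0 n (y + z) - X μ s η 0 n y) ^ 2 ≤ 2 * (X μ s (shr f η) 0 n (y + z)) ^ 2 + 2 * (X μ s η 0 n y) ^ 2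
    nlinarith [sq_nonneg (X μ s (shr f η) 0 n (y + z) + X μ s η 0 n y)]
  have hM : ∫ η, (X μ s (shr f η) 0 n (y + z) - X μ s η 0 n y) ^ 2 ∂(law μ) ≤ (2 * Real.sqrt K * ((n : ℝ) + 1) ^ 2) ^ 2 := by
    calc ∫ η, (X μ s (shr f η) 0 n (y + z) - X μ s η 0 n y) ^ 2 ∂(law μ)
        ≤ ∫ η, (2 * (X μ s (shr f η) 0 n (y + z)) ^ 2 + 2 * (X μ s η 0 n y) ^ 2) ∂(law μ) := by
          refine integral_mono hD2i ((hi1s.const_mul 2).add ((hS2.sq_integrable hμ).const_mul 2)) fun η => ?_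
          show (X μ s (shr f η) 0 n (y + z) - X μ s η 0 n y) ^ 2 ≤
            2 * (X μ s (shr f η) 0 n (y + z)) ^ 2 + 2 * (X μ s η 0 n y) ^ 2
          nlinarith [sq_nonneg (X μ s (shr f η) 0 n (y + z) + X μ s η 0 n y)]
      _ = 2 * ∫ η, (X μ s η 0 n (y + z)) ^ 2 ∂(law μ) + 2 * ∫ η, (X μ s η 0 n y) ^ 2 ∂(law μ) := by
          rw [integral_add (hi1s.const_mul 2) ((hS2.sq_integrable hμ).const_mul 2), integral_const_mul, integral_const_mul, e2]
      _ ≤ 2 * (K * ((n : ℝ) + 1) ^ 4) + 2 * (K * ((n : ℝ) + 1) ^ 4) := by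
          have g1 := hX n (y + z) h2 h3
          have g2 := hX n y h0 h1
          linarith
      _ = (2 * Real.sqrt K * ((n : ℝ) + 1) ^ 2) ^ 2 := by
          have : Real.sqrt K ^ 2 = K := Real.sq_sqrt hK.le
          calc 2 * (K * ((n : ℝ) + 1) ^ 4) + 2 * (K * ((n : ℝ) + 1) ^ 4) = 4 * K * ((n : ℝ) + 1) ^ 4 := by ring
            _ = 4 * Real.sqrt K ^ 2 * ((n : ℝ) + 1) ^ 4 := by rw [this]
            _ = (2 * Real.sqrt K * ((n : ℝ) + 1) ^ 2) ^ 2 := by ring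
  have h4 := int_le_of_bad hDm (hi1.sub (hS2.integrable hμ)) hD2i hA (by positivity) hM hb
  rw [integral_sub hi1 (hS2.integrable hμ), e1] at h4
  have e3 : ∫ η, X μ s η 0 n y ∂(law μ) = e μ s n y := rfl
  rw [e3] at h4
  linarith

/-- `k` steps of the shear, in mean. -/
theorem e_steps [IsProbabilityMeasure μ] (hμ : Pool.Agent.W_7d29a1_h47.EM μ) (s : ℝ) :
    ∃ K : ℝ, 0 < K ∧ ∀ (n : ℕ) (f : ℤ → ℤ) (y : ℤ) (z : ℕ) (A δ : ℝ) (k : ℕ), 0 ≤ y → y + k * z ≤ n → 0 ≤ A →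
      (∀ i : ℕ, i < k → (law μ).real {η | A < X μ s (shr f η) 0 n (y + i * z + z) - X μ s η 0 n (y + i * z)} ≤ δ) →
      e μ s n (y + k * z) ≤ e μ s n y + k * (A + K * ((n : ℝ) + 1) ^ 2 * Real.sqrt δ) := by
  obtain ⟨K, hK, hst⟩ := e_step (μ := μ) hμ s
  refine ⟨K, hK, fun n f y z A δ k => ?_⟩
  induction k with
  | zero => intro h0 h1 hA hb; simp
  | succ k ih =>
    intro h0 h1 hA hb
    have hz : (0 : ℤ) ≤ (k : ℤ) * z := by positivity
    have hz2 : (0 : ℤ) ≤ (z : ℤ) := by positivity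
    push_cast at h1
    have h1' : y + (k : ℤ) * z ≤ n := by nlinarith
    have h2 := ih h0 h1' hA fun i hi => hb i (by omega)
    have h3 := hst n f (y + k * z) z A δ (by omega) h1' (by omega) (by linarith) hA (hb k (by omega))
    have e1 : y + ((k + 1 : ℕ) : ℤ) * z = y + k * z + z := by push_cast; ring
    rw [e1]
    push_cast
    linarith

/-- **(E)**, every `z ≤ (1 - sl) R`: a shear of total displacement `z` costs, in the cone of a few widths (condition only on the start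
`y`), at least `EE / (wd / z + 1)`. -/
theorem er_ineq2 [IsProbabilityMeasure μ] {c C : ℝ} {n₀ : ℕ} (h : In μ s c C n₀) :
    ∃ (C₁ K : ℝ) (n₁ : ℕ), 1 ≤ C₁ ∧ 0 < K ∧ ∀ (R : ℕ) (f : ℤ → ℤ) (z : ℕ) (A δ : ℝ), n₁ ≤ R → 1 ≤ z →
      (z : ℝ) ≤ (1 - sl μ s) * R → 0 ≤ A →
      (∀ y : ℤ, |(y : ℝ) - sl μ s * R| ≤ C₁ * wd μ s R → 0 ≤ y → y + z ≤ R →
        (law μ).real {η | A < X μ s (shr f η) 0 R (y + z) - X μ s η 0 R y} ≤ δ) →
      EE μ s R ≤ C₁ * (wd μ s R / z + 1) * (A + K * ((R : ℝ) + 1) ^ 2 * Real.sqrt δ) := by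
  obtain ⟨K, hK, hst⟩ := e_steps (μ := μ) h.em s
  have hC1 := h.C1
  have hsl0 := h.sl_pos
  have hsl1 := h.sl_lt
  have h1sl : 0 < 1 - sl μ s := by linarith
  have hv : ∀ᶠ n : ℕ in atTop, vA 1 μ s n < (1 - sl μ s) / (4 * (C + 4)) :=
    h.tv.eventually (eventually_lt_nhds (by positivity))
  have hw : ∀ᶠ n : ℕ in atTop, 4 ≤ wd μ s n := (wd_tendsto h).eventually_ge_atTop 4
  obtain ⟨n₁, hn₁⟩ := eventually_atTop.1 ((hv.and hw).and (eventually_ge_atTop (max n₀ 1)))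
  refine ⟨C + 4, K, n₁, by linarith, hK, fun R f z A δ hR hz hz4 hA hb => ?_⟩
  obtain ⟨⟨hv1, hw1⟩, hRm⟩ := hn₁ R hR
  have hR0 : n₀ ≤ R := (le_max_left _ _).trans hRm
  have hR1 : 1 ≤ R := (le_max_right _ _).trans hRm
  have hRR : (0 : ℝ) < R := by exact_mod_cast hR1
  have hzR : (0 : ℝ) < z := by exact_mod_cast hz
  have hEE := one_le_EE (μ := μ) (s := s) R
  have hvp := h.vA_pos hR1
  have hwR : (C + 4) * wd μ s R ≤ (1 - sl μ s) * R / 4 := by
    unfold wd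
    rw [lt_div_iff₀ (by positivity)] at hv1
    nlinarith
  -- the start and the number of steps
  obtain ⟨y0, hy0⟩ : ∃ y0 : ℤ, y0 = md μ s R := ⟨_, rfl⟩
  have hya : sl μ s * R - 1 ≤ y0 := by
    have := lt_md (μ := μ) (s := s) R
    rw [hy0]
    linarith
  have hyb : (y0 : ℝ) ≤ sl μ s * R := by
    rw [hy0]
    exact md_le R
  obtain ⟨k, hk⟩ : ∃ k : ℕ, k = ⌈((C + 1) * wd μ s R + 1) / z⌉₊ := ⟨_, rfl⟩
  have hk1 : (C + 1) * wd μ s R + 1 ≤ k * z := by
    have := Nat.le_ceil (((C + 1) * wd μ s R + 1) / z)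
    rw [← hk, div_le_iff₀ hzR] at this
    exact this
  have hk2 : (k : ℝ) < ((C + 1) * wd μ s R + 1) / z + 1 := by
    rw [hk]
    exact Nat.ceil_lt_add_one (by positivity)
  have hk3 : (k : ℝ) * z < (C + 1) * wd μ s R + 1 + z := by
    have := mul_lt_mul_of_pos_right hk2 hzR
    rw [add_mul, div_mul_cancel₀ _ hzR.ne', one_mul] at this
    exact this
  have hy00 : 0 ≤ y0 := by
    rw [hy0]
    exact h.md_nonneg R
  have hy0R : y0 ≤ R := by
    rw [hy0]
    exact h.md_le_nat R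
  -- the starts of the chain stay in the cone
  have hcone : ∀ x : ℝ, 0 ≤ x → x + z ≤ k * z → |(y0 : ℝ) + x - sl μ s * R| ≤ (C + 4) * wd μ s R := by
    intro x hx0 hx1
    rw [abs_le]
    constructor
    · nlinarith
    · nlinarith
  have hyf : y0 + (k : ℤ) * z ≤ R := by
    rcases le_or_gt ((z : ℝ)) ((C + 1) * wd μ s R + 1) with hzs | hzs
    · have h2 : (y0 : ℝ) + k * z ≤ R := by nlinarith
      exact_mod_cast h2
    · have h2 : k = 1 := by
        rw [hk]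
        refine le_antisymm (Nat.ceil_le.2 ?_) (Nat.one_le_ceil_iff.2 (by positivity))
        rw [Nat.cast_one, div_le_one hzR]
        exact hzs.le
      rw [h2]
      have h3 : (y0 : ℝ) + z ≤ R := by linarith
      have h4 : y0 + (z : ℤ) ≤ R := by exact_mod_cast h3
      push_cast
      linarith
  have hstep := hst R f y0 z A δ k hy00 hyf hA (by
    intro i hi
    have hik : (i : ℝ) + 1 ≤ k := by exact_mod_cast hi
    have hi0 : (0 : ℝ) ≤ i := Nat.cast_nonneg i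
    refine hb _ ?_ ?_ ?_
    · push_cast
      exact hcone (i * z) (by positivity) (by nlinarith)
    · positivity
    · have h1 : (y0 : ℤ) + i * z + z ≤ y0 + k * z := by
        have h2 : ((i : ℤ) + 1) * z ≤ k * z := mul_le_mul_of_nonneg_right (by exact_mod_cast hi) (by positivity)
        linarith
      exact h1.trans hyf)
  -- the centre
  have hcen : e μ s R y0 ≤ C * EE μ s R := by
    have h1 := h.inn R hR0 R y0 (by omega) hy00 hy0R (by
      have h2 : 0 ≤ c * vA 1 μ s R * R := by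
        have := h.c0
        positivity
      rw [abs_le]
      constructor <;> linarith)
    refine le_trans ?_ h1
    unfold e ep
    refine integral_mono ((Sub_X 0 hy00 hy0R).integrable h.em)
      (((Sub_X 0 hy00 hy0R).max (Sub.const 0)).integrable h.em) fun η => le_max_left _ _
  -- the far end
  have hfar : (C + 1) * EE μ s R ≤ e μ s R (y0 + k * z) := by
    have h1 := e_ge (μ := μ) h.em h.nd s (n := R) (y := y0 + k * z) hR1 (by positivity) hyf
    refine le_trans ?_ h1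
    have hwd : wd μ s R = R * vA 1 μ s R := rfl
    obtain ⟨x, hx⟩ : ∃ x : ℝ, x = ((y0 + k * z : ℤ) : ℝ) / R - sl μ s := ⟨_, rfl⟩
    rw [← hx]
    have hx1 : (C + 1) * vA 1 μ s R ≤ x := by
      have h2 : (C + 1) * vA 1 μ s R + sl μ s ≤ ((y0 + k * z : ℤ) : ℝ) / R := by
        rw [le_div_iff₀ hRR]
        push_cast
        have e1 : ((C + 1) * vA 1 μ s R + sl μ s) * R = (C + 1) * wd μ s R + sl μ s * R := by
          rw [hwd]
          ring
        rw [e1]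
        linarith
      rw [hx]
      linarith
    have hx0 : 0 ≤ x := le_trans (by positivity) hx1
    have h3 : vA 1 μ s R ≤ |x| := by
      rw [abs_of_nonneg hx0]
      nlinarith
    have h4 := h.lev_mul_le_J hR1 h3
    have h5 : C + 1 ≤ |x| / vA 1 μ s R := by
      rw [le_div_iff₀ hvp, abs_of_nonneg hx0]
      exact hx1
    have h6 : EE μ s R / R * (C + 1) ≤ EE μ s R / R * (|x| / vA 1 μ s R) :=
      mul_le_mul_of_nonneg_left h5 (by positivity)
    have h7 := mul_le_mul_of_nonneg_left (h6.trans h4) hRR.le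
    have e2 : (R : ℝ) * (EE μ s R / R * (C + 1)) = (C + 1) * EE μ s R := by
      field_simp
    rw [e2] at h7
    exact h7
  have hB : 0 ≤ A + K * ((R : ℝ) + 1) ^ 2 * Real.sqrt δ := by positivity
  have hkk : (k : ℝ) ≤ (C + 4) * (wd μ s R / z + 1) := by
    have h1 : 0 ≤ wd μ s R / z := by positivity
    have h2 : ((C + 1) * wd μ s R + 1) / z ≤ (C + 2) * (wd μ s R / z) := by
      rw [← mul_div_assoc]
      refine div_le_div_of_nonneg_right ?_ hzR.le
      nlinarith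
    nlinarith
  calc EE μ s R ≤ k * (A + K * ((R : ℝ) + 1) ^ 2 * Real.sqrt δ) := by linarith
    _ ≤ (C + 4) * (wd μ s R / z + 1) * (A + K * ((R : ℝ) + 1) ^ 2 * Real.sqrt δ) := mul_le_mul_of_nonneg_right hkk hB

end

end Pool.Agent.W_7d29a1_HZ.Z3
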