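import Pool.Agent.W_7d29a1_HZ.RA
import Pool.Agent.W_7d29a1_HZ.Act12

/-!
STORM Z, 4.3 of the text: the pieces of the bracket of a cluster and the size of the depth. (helper72)
-/

set_option autoImplicit false

namespace Pool.Agent.W_7d29a1_HZ.R72

open MeasureTheory ProbabilityTheory Filter Topology Finset
open Pool.Agent.W_7d29a1_F Pool.Agent.W_7d29a1_X Pool.Agent.W_7d29a1_h4g Pool.Agent.W_7d29a1_H
open Pool.Agent.W_7d29a1_HS (In wd)
open scoped ENNReal

variable {μ : Measure ℝ} {s : ℝ}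

theorem zb_eq (t τ b : ℕ) : zb t τ b = za t τ b + t := rfl

/-- The pieces of a zone which contain the core. -/
def Pce (t u u' : ℕ) : Prop := 4 * u ≤ t ∧ 3 * t ≤ 4 * u' ∧ u' ≤ t

theorem Pce.le {t u u' : ℕ} (h : Pce t u u') : u ≤ u' := by
  obtain ⟨h1, h2, h3⟩ := h
  omega

theorem pce_full (t : ℕ) : Pce t 0 t := ⟨by omega, by omega, le_rfl⟩

/-- The response of a piece which contains the core. -/
theorem ra_pce {L t τ B : ℕ} {I : Finset ℕ} {w A : ℝ} {K : ℕ} {η : Env} (h : RA μ s L t τ B I w A K η) {b : ℕ}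
    (hb : b < B) {u u' : ℕ} (hp : Pce t u u') {x y : ℤ} (hx : |x| ≤ 2 * L)
    (hy : |((y : ℝ) - x) - sl μ s * ((u' : ℝ) - u)| ≤ w) {i : ℤ} (hi : |i| ≤ K) :
    |fk μ s (pat t τ I fun _ => i) η (za t τ b + u) (za t τ b + u') x y -
        fk μ s 0 η (za t τ b + u) (za t τ b + u') x y| ≤ |(i : ℝ)| * A := by
  have hle := hp.le
  obtain ⟨h1, h2, h3⟩ := hp
  refine h b hb (za t τ b + u) (za t τ b + u') (by omega) (by omega) (by rw [zb_eq]; omega) (by omega) (by omega) x y hx ?_ i hi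
  push_cast
  rwa [add_sub_add_left_eq_sub]

/-- The response of a piece to the shears of the pattern with the amplitudes `V`. -/
theorem ra_piece {L t τ B : ℕ} {I : Finset ℕ} {w A : ℝ} {K : ℕ} {η : Env} (h : RA μ s L t τ B I w A K η) {b : ℕ}
    (hb : b < B) {u u' : ℕ} (hp : Pce t u u') {x y : ℤ} (hx : |x| ≤ 2 * L)
    (hy : |((y : ℝ) - x) - sl μ s * ((u' : ℝ) - u)| ≤ w) (V : ℕ → ℤ) (hV : |V b| ≤ K) :
    |fk μ s (pat t τ I V) η (za t τ b + u) (za t τ b + u') x y -
        fk μ s 0 η (za t τ b + u) (za t τ b + u') x y| ≤ |(V b : ℝ)| * A := by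
  have h1 := ra_pce h hb hp hx hy hV
  have h2 : fk μ s (pat t τ I V) η (za t τ b + u) (za t τ b + u') x y =
      fk μ s (pat t τ I fun _ => V b) η (za t τ b + u) (za t τ b + u') x y := by
    refine fk_congr η x y fun k hk1 hk2 => ?_
    exact pat_zone (V := V) (V' := fun _ => V b) (b := b) rfl (by omega) (by
      rw [zb_eq]
      have := hp.2.2
      omega)
  rw [h2]
  exact h1

theorem fb_V {t τ : ℕ} {I : Finset ℕ} {η : Env} (b : ℕ) (V : ℕ → ℤ) (X : ℕ → ℤ) :
    fk μ s (pat t τ I V) η (za t τ b) (zb t τ b) (X (za t τ b)) (X (zb t τ b)) = fb μ s t τ I η b (V b) X := by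
  rw [fb]
  exact fk_congr η _ _ fun k hk1 hk2 => pat_zone (V := V) (V' := fun _ => V b) (b := b) rfl hk1 hk2

theorem pat_zero' (t τ : ℕ) (I : Finset ℕ) : (pat t τ I fun _ => (0 : ℤ)) = 0 := by
  funext k
  unfold pat
  simp

theorem fb_zero {t τ : ℕ} {I : Finset ℕ} {η : Env} (b : ℕ) (X : ℕ → ℤ) :
    fk μ s 0 η (za t τ b) (zb t τ b) (X (za t τ b)) (X (zb t τ b)) = fb μ s t τ I η b 0 X := by
  rw [fb, pat_zero']

/-- The pieces `[za b + lo b, za b + hi b]`, `b ∈ [l, r)`. -/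
def Qp (t τ l r : ℕ) (lo hi : ℕ → ℕ) : Finset (ℕ × ℕ) :=
  (Ico l r).image fun b => (za t τ b + lo b, za t τ b + hi b)

theorem za_lt {t τ b b' : ℕ} (h : b < b') : za t τ b + 2 * t ≤ za t τ b' := by
  unfold za
  have : 2 * t * (b + 1) ≤ 2 * t * b' := Nat.mul_le_mul_left _ h
  rw [Nat.mul_add, Nat.mul_one] at this
  omega

/-- The sum of the responses over the pieces. -/
theorem xd_eq {t τ l r : ℕ} {lo hi : ℕ → ℕ} (ht : 1 ≤ t) (hp : ∀ b, l ≤ b → b < r → Pce t (lo b) (hi b)) (v : ℕ → ℤ)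
    (η : Env) (X : ℕ → ℤ) :
    Xd μ s v (Qp t τ l r lo hi) η X = ∑ b ∈ Ico l r,
      (fk μ s v η (za t τ b + lo b) (za t τ b + hi b) (X (za t τ b + lo b)) (X (za t τ b + hi b)) -
        fk μ s 0 η (za t τ b + lo b) (za t τ b + hi b) (X (za t τ b + lo b)) (X (za t τ b + hi b))) := by
  unfold Xd Qp
  rw [Finset.sum_image]
  intro b hb b' hb' h
  have hb1 := mem_Ico.1 (mem_coe.1 hb)
  have hb1' := mem_Ico.1 (mem_coe.1 hb')
  have h1 := hp b hb1.1 hb1.2
  have h2 := hp b' hb1'.1 hb1'.2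
  simp only [Prod.mk.injEq] at h
  by_contra hne
  obtain ⟨p1, p2, p3⟩ := h1
  obtain ⟨q1, q2, q3⟩ := h2
  rcases Nat.lt_or_gt_of_ne hne with h3 | h3
  · have := za_lt (t := t) (τ := τ) h3
    omega
  · have := za_lt (t := t) (τ := τ) h3
    omega

/-- The positions of `X` are tame: the increments over at most `t` steps are in the cone. -/
def Tame (μ : Measure ℝ) (s : ℝ) (L N t : ℕ) (w : ℝ) (X : ℕ → ℤ) : Prop :=
  (∀ i, i ≤ N → |X i| ≤ 2 * L) ∧ ∀ i i' : ℕ, i ≤ i' → i' ≤ i + t → i' ≤ N →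
    |((X i' : ℝ) - X i) - sl μ s * ((i' : ℝ) - i)| ≤ w

theorem Tame.cone {L N t τ : ℕ} {w : ℝ} {X : ℕ → ℤ} (h : Tame μ s L N t w X) {b u u' : ℕ} (hp : Pce t u u')
    (hb : zb t τ b ≤ N) : |X (za t τ b + u)| ≤ 2 * L ∧
      |((X (za t τ b + u') : ℝ) - X (za t τ b + u)) - sl μ s * ((u' : ℝ) - u)| ≤ w := by
  have hle := hp.le
  have h3 := hp.2.2
  rw [zb_eq] at hb
  refine ⟨h.1 _ (by omega), ?_⟩
  have h1 := h.2 (za t τ b + u) (za t τ b + u') (by omega) (by omega) (by omega)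
  push_cast at h1
  rwa [add_sub_add_left_eq_sub] at h1

/-- **The size of the depth.** `V` bounded by `s`, the pieces are complete zones outside `E`. -/
theorem xd_le {L N t τ B l r : ℕ} {I : Finset ℕ} {K m : ℕ} {w A : ℝ} {η : Env} {lo hi : ℕ → ℕ} (ht : 1 ≤ t)
    (hA : 0 ≤ A) (h : RA μ s L t τ B I w A K η) (hrB : r ≤ B) (hrN : ∀ b, l ≤ b → b < r → zb t τ b ≤ N)
    (hp : ∀ b, l ≤ b → b < r → Pce t (lo b) (hi b)) {X : ℕ → ℤ} (hX : Tame μ s L N t w X) {V : ℕ → ℤ}
    (hV : ∀ b, |V b| ≤ m) (hs : m ≤ K) (E : Finset ℕ)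
    (hE : ∀ b, l ≤ b → b < r → b ∉ E → lo b = 0 ∧ hi b = t) :
    |Xd μ s (pat t τ I V) (Qp t τ l r lo hi) η X - ∑ b ∈ Ico l r, (fb μ s t τ I η b (V b) X - fb μ s t τ I η b 0 X)| ≤
      E.card * (2 * (m * A)) := by
  classical
  rw [xd_eq ht hp, ← Finset.sum_sub_distrib]
  refine (Finset.abs_sum_le_sum_abs _ _).trans ?_
  have hVr : ∀ b, |(V b : ℝ)| ≤ m := fun b => by
    rw [← Int.cast_abs]
    exact_mod_cast hV b
  have hVas : ∀ b, |V b| ≤ K := fun b => (hV b).trans (by exact_mod_cast hs)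
  have h1 : ∀ b ∈ Ico l r, |fk μ s (pat t τ I V) η (za t τ b + lo b) (za t τ b + hi b) (X (za t τ b + lo b))
      (X (za t τ b + hi b)) - fk μ s 0 η (za t τ b + lo b) (za t τ b + hi b) (X (za t τ b + lo b)) (X (za t τ b + hi b)) -
      (fb μ s t τ I η b (V b) X - fb μ s t τ I η b 0 X)| ≤ if b ∈ E then 2 * (m * A) else 0 := by
    intro b hb
    have hb1 := mem_Ico.1 hb
    have hN := hrN b hb1.1 hb1.2
    have hbB : b < B := by omega
    have hpb := hp b hb1.1 hb1.2
    by_cases hbE : b ∈ E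
    · rw [if_pos hbE]
      have c1 := hX.cone (τ := τ) hpb hN
      have c2 := hX.cone (τ := τ) (pce_full t) hN
      have e1 := ra_piece h hbB hpb c1.1 c1.2 V (hVas b)
      have e2 := ra_piece h hbB (pce_full t) c2.1 c2.2 V (hVas b)
      have e2' : |fb μ s t τ I η b (V b) X - fb μ s t τ I η b 0 X| ≤ |(V b : ℝ)| * A := by
        rw [← fb_V, ← fb_zero (I := I)]
        exact e2
      have e3 : |(V b : ℝ)| * A ≤ m * A := mul_le_mul_of_nonneg_right (hVr b) hA
      have e4 := abs_le.1 (e1.trans e3)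
      have e5 := abs_le.1 (e2'.trans e3)
      rw [abs_le]
      constructor <;> linarith [e4.1, e4.2, e5.1, e5.2]
    · rw [if_neg hbE]
      obtain ⟨e1, e2⟩ := hE b hb1.1 hb1.2 hbE
      rw [e1, e2, Nat.add_zero]
      have e3 : fk μ s (pat t τ I V) η (za t τ b) (za t τ b + t) (X (za t τ b)) (X (za t τ b + t)) =
          fb μ s t τ I η b (V b) X := fb_V b V X
      have e4 : fk μ s 0 η (za t τ b) (za t τ b + t) (X (za t τ b)) (X (za t τ b + t)) =
          fb μ s t τ I η b 0 X := fb_zero b X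
      rw [e3, e4, sub_self, abs_zero]
  refine (Finset.sum_le_sum h1).trans ?_
  rw [← Finset.sum_filter, Finset.sum_const, nsmul_eq_mul]
  refine mul_le_mul_of_nonneg_right ?_ (by positivity)
  exact_mod_cast Finset.card_le_card (fun k hk => (Finset.mem_filter.1 hk).2)

/-! ### The pieces of a bracket -/

/-- The cut of the start of the zone `b` by the rows `J` in its left buffer. -/
def jl (t τ : ℕ) (J : Finset ℕ) (b : ℕ) : ℕ :=
  (J.filter fun i => za t τ b ≤ i ∧ i ≤ za t τ b + t / 4).sup fun i => i - za t τ b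

/-- The cut of the end of the zone `b` by the rows `J` in its right buffer. -/
def jr (t τ : ℕ) (J : Finset ℕ) (b : ℕ) : ℕ :=
  (J.filter fun i => zb t τ b - t / 4 ≤ i ∧ i ≤ zb t τ b).sup fun i => zb t τ b - i

/-- The starts of the pieces. -/
def qlo (t τ : ℕ) (J : Finset ℕ) (l a₁ b : ℕ) : ℕ := max (if b = l then a₁ - za t τ l else 0) (jl t τ J b)

/-- The ends of the pieces. -/
def qhi (t τ : ℕ) (J : Finset ℕ) (r b₁ b : ℕ) : ℕ :=
  t - max (if b + 1 = r then zb t τ b - b₁ else 0) (jr t τ J b)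

theorem jl_le (t τ : ℕ) (J : Finset ℕ) (b : ℕ) : jl t τ J b ≤ t / 4 := by
  unfold jl
  refine Finset.sup_le fun i hi => ?_
  have := (mem_filter.1 hi).2
  omega

theorem jr_le (t τ : ℕ) (J : Finset ℕ) (b : ℕ) : jr t τ J b ≤ t / 4 := by
  unfold jr
  refine Finset.sup_le fun i hi => ?_
  have := (mem_filter.1 hi).2
  omega

theorem le_jl {t τ : ℕ} {J : Finset ℕ} {b i : ℕ} (hi : i ∈ J) (h1 : za t τ b ≤ i) (h2 : i ≤ za t τ b + t / 4) :
    i ≤ za t τ b + jl t τ J b := by
  have h := Finset.le_sup (f := fun i => i - za t τ b) (mem_filter.2 ⟨hi, h1, h2⟩ :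
    i ∈ J.filter fun i => za t τ b ≤ i ∧ i ≤ za t τ b + t / 4)
  have h' : i - za t τ b ≤ jl t τ J b := h
  omega

theorem le_jr {t τ : ℕ} {J : Finset ℕ} {b i : ℕ} (hi : i ∈ J) (h1 : zb t τ b - t / 4 ≤ i) (h2 : i ≤ zb t τ b) :
    zb t τ b ≤ i + jr t τ J b := by
  have h := Finset.le_sup (f := fun i => zb t τ b - i) (mem_filter.2 ⟨hi, h1, h2⟩ :
    i ∈ J.filter fun i => zb t τ b - t / 4 ≤ i ∧ i ≤ zb t τ b)
  have h' : zb t τ b - i ≤ jr t τ J b := h
  omega

/-- **The pieces of the bracket `(a₁, b₁)` of the cluster `[l, r)` with the rows `J` cut out.** -/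
theorem pcs_bracket {t τ l r a₁ b₁ : ℕ} {I J : Finset ℕ} {V : ℕ → ℤ} (hI : I ⊆ Core t) (hlr : l < r)
    (ha : a₁ ≤ za t τ l + t / 4) (hb : zb t τ (r - 1) ≤ b₁ + t / 4)
    (hVl : za t τ l ≤ a₁ ∨ ∀ b, b < l → V b = 0) (hVr : b₁ ≤ zb t τ (r - 1) ∨ ∀ b, r ≤ b → V b = 0)
    (hJc : ∀ i ∈ J, ∀ b, i ≤ za t τ b + t / 4 ∨ zb t τ b ≤ i + t / 4) :
    (∀ b, l ≤ b → b < r → Pce t (qlo t τ J l a₁ b) (qhi t τ J r b₁ b)) ∧
      Pcs (pat t τ I V) a₁ b₁ J (Qp t τ l r (qlo t τ J l a₁) (qhi t τ J r b₁)) := by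
  have hP : ∀ b, l ≤ b → b < r → Pce t (qlo t τ J l a₁ b) (qhi t τ J r b₁ b) := by
    intro b h1 h2
    have e1 := jl_le t τ J b
    have e2 := jr_le t τ J b
    have e3 : (if b = l then a₁ - za t τ l else 0) ≤ t / 4 := by
      split_ifs <;> omega
    have e4 : (if b + 1 = r then zb t τ b - b₁ else 0) ≤ t / 4 := by
      split_ifs with h
      · have : r - 1 = b := by omega
        rw [this] at hb
        omega
      · omega
    have e5 : max (if b + 1 = r then zb t τ b - b₁ else 0) (jr t τ J b) ≤ t / 4 := max_le e4 e2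
    have e6 : max (if b = l then a₁ - za t τ l else 0) (jl t τ J b) ≤ t / 4 := max_le e3 e1
    unfold Pce qlo qhi
    refine ⟨by omega, by omega, by omega⟩
  refine ⟨hP, ?_, ?_, ?_, ?_⟩
  · -- sub
    intro q hq
    obtain ⟨b, hb', rfl⟩ := mem_image.1 hq
    have hb1 := mem_Ico.1 hb'
    have hp := hP b hb1.1 hb1.2
    have hple := hp.le
    refine ⟨?_, by simp only; omega, ?_⟩
    · simp only
      rcases Nat.eq_or_lt_of_le hb1.1 with h | h
      · subst h
        have : a₁ - za t τ l ≤ qlo t τ J l a₁ l := by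
          unfold qlo
          rw [if_pos rfl]
          exact le_max_left _ _
        omega
      · have := za_lt (t := t) (τ := τ) h
        omega
    · simp only
      by_cases h : b + 1 = r
      · have e1 : zb t τ b - b₁ ≤ max (if b + 1 = r then zb t τ b - b₁ else 0) (jr t τ J b) := by
          rw [if_pos h]
          exact le_max_left _ _
        have e2 : qhi t τ J r b₁ b ≤ t - (zb t τ b - b₁) := by
          unfold qhi
          omega
        have h3 : r - 1 = b := by omega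
        rw [h3] at hb
        rw [zb_eq] at e2 hb
        omega
      · have h3 : b < r - 1 := by omega
        have h4 := za_lt (t := t) (τ := τ) h3
        have h5 := hp.2.2
        rw [zb_eq] at hb
        omega
  · -- dis
    intro q hq q' hq' hne
    obtain ⟨b, hb', rfl⟩ := mem_image.1 hq
    obtain ⟨b', hb'', rfl⟩ := mem_image.1 hq'
    have hb1 := mem_Ico.1 hb'
    have hb2 := mem_Ico.1 hb''
    have h1 := (hP b hb1.1 hb1.2).2.2
    have h2 := (hP b' hb2.1 hb2.2).2.2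
    have hbb : b ≠ b' := fun h => hne (by rw [h])
    simp only
    rcases Nat.lt_or_gt_of_ne hbb with h | h
    · left
      have := za_lt (t := t) (τ := τ) h
      omega
    · right
      have := za_lt (t := t) (τ := τ) h
      omega
  · -- cov
    intro k hk1 hk2 hv
    have hτ : τ ≤ k := by
      by_contra hc
      refine hv ?_
      unfold pat
      rw [if_neg (fun h => hc h.1)]
    have ht0 : 0 < 2 * t := by
      by_contra hc
      have : t = 0 := by omega
      subst this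
      have h3 := hI
      have h4 : I = ∅ := by
        rw [← Finset.subset_empty]
        refine h3.trans ?_
        unfold Core
        simp
      apply hv
      unfold pat
      rw [h4]
      simp
    set b := (k - τ) / (2 * t) with hbdef
    set c := (k - τ) % (2 * t) with hcdef
    have hkc : k = za t τ b + c := by
      have := Nat.div_add_mod (k - τ) (2 * t)
      unfold za
      rw [← hbdef, ← hcdef] at this
      omega
    have hc2 : c < 2 * t := Nat.mod_lt _ ht0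
    have h1 : pat t τ I V k = if c ∈ I then V b else 0 := by
      unfold pat
      rw [← hbdef, ← hcdef]
      simp only [hτ, true_and]
    have hcI : c ∈ I := by
      by_contra hc
      rw [if_neg hc] at h1
      exact hv h1
    rw [if_pos hcI] at h1
    have hcore := hI hcI
    unfold Core at hcore
    rw [mem_Ico] at hcore
    have hlb : l ≤ b := by
      by_contra hc
      rcases hVl with h | h
      · have := za_lt (t := t) (τ := τ) (not_le.1 hc)
        omega
      · exact hv (by rw [h1, h b (not_le.1 hc)])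
    have hbr : b < r := by
      by_contra hc
      rcases hVr with h | h
      · have := za_lt (t := t) (τ := τ) (show r - 1 < b by omega)
        rw [zb_eq] at h
        omega
      · exact hv (by rw [h1, h b (not_lt.1 hc)])
    have hp := hP b hlb hbr
    refine ⟨(za t τ b + qlo t τ J l a₁ b, za t τ b + qhi t τ J r b₁ b), mem_image.2 ⟨b, mem_Ico.2 ⟨hlb, hbr⟩, rfl⟩, ?_, ?_⟩
    · have := hp.1
      simp only
      omega
    · have := hp.2.1
      simp only
      omega
  · -- out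
    intro i hi q hq
    obtain ⟨b, hb', rfl⟩ := mem_image.1 hq
    simp only
    rcases Nat.lt_or_ge i (za t τ b) with h1 | h1
    · left
      omega
    rcases Nat.lt_or_ge (zb t τ b) i with h2 | h2
    · right
      have hb1 := mem_Ico.1 hb'
      have h3 := (hP b hb1.1 hb1.2).2.2
      rw [zb_eq] at h2
      omega
    rcases hJc i hi b with h3 | h3
    · left
      have h4 := le_jl hi h1 h3
      have h5 : jl t τ J b ≤ qlo t τ J l a₁ b := le_max_right _ _
      omega
    · right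
      have h4 := le_jr hi (by omega) h2
      have h5 : jr t τ J b ≤ max (if b + 1 = r then zb t τ b - b₁ else 0) (jr t τ J b) := le_max_right _ _
      have h6 : qhi t τ J r b₁ b ≤ t - jr t τ J b := by
        unfold qhi
        omega
      rw [zb_eq] at h4
      omega

/-- The zones whose piece is not complete: the first, the last, and the zone `bJ` next to the window. -/
theorem qfull {t τ l r a₁ b₁ bJ : ℕ} {J : Finset ℕ} (hJ : ∀ i ∈ J, ∀ b, za t τ b < i → i < zb t τ b → b = bJ) (b : ℕ)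
    (hb : b ∉ ({l, r - 1, bJ} : Finset ℕ)) : qlo t τ J l a₁ b = 0 ∧ qhi t τ J r b₁ b = t := by
  simp only [mem_insert, mem_singleton, not_or] at hb
  obtain ⟨h1, h2, h3⟩ := hb
  have e1 : jl t τ J b = 0 := by
    unfold jl
    rw [← Nat.le_zero]
    refine Finset.sup_le fun i hi => ?_
    obtain ⟨hiJ, h4, h5⟩ := mem_filter.1 hi
    by_contra hc
    refine h3 (hJ i hiJ b (by omega) ?_)
    rw [zb_eq]
    omega
  have e2 : jr t τ J b = 0 := by
    unfold jr
    rw [← Nat.le_zero]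
    refine Finset.sup_le fun i hi => ?_
    obtain ⟨hiJ, h4, h5⟩ := mem_filter.1 hi
    by_contra hc
    refine h3 (hJ i hiJ b ?_ (by omega))
    rw [zb_eq] at h4 hc
    omega
  unfold qlo qhi
  rw [e1, e2, if_neg h1, if_neg (by omega)]
  simp

/-- **4.3**: the depth of the bracket of a cluster. -/
theorem depth_size {L N t τ B l r a₁ b₁ bJ : ℕ} {I J : Finset ℕ} {K m : ℕ} {w A h : ℝ} {η : Env} (ht : 1 ≤ t)
    (hA : 0 ≤ A) (hR : RA μ s L t τ B I w A K η) (hrB : r ≤ B) (hrN : ∀ b, l ≤ b → b < r → zb t τ b ≤ N)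
    {X : ℕ → ℤ} (hX : Tame μ s L N t w X) {V : ℕ → ℤ} (hV : ∀ b, |V b| ≤ m) (hs : m ≤ K)
    (hP : ∀ b, l ≤ b → b < r → Pce t (qlo t τ J l a₁ b) (qhi t τ J r b₁ b))
    (hJ : ∀ i ∈ J, ∀ b, za t τ b < i → i < zb t τ b → b = bJ)
    (hH : |∑ b ∈ Ico l r, (fb μ s t τ I η b (V b) X - fb μ s t τ I η b 0 X - Db μ s t τ I m η b 0 X / 4)| ≤
      h * √((r - l : ℕ) : ℝ) * (m * A)) :
    |Xd μ s (pat t τ I V) (Qp t τ l r (qlo t τ J l a₁) (qhi t τ J r b₁)) η X| ≤
      |∑ b ∈ Ico l r, Db μ s t τ I m η b 0 X| / 4 + h * √((r - l : ℕ) : ℝ) * (m * A) + 6 * (m * A) := by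
  have h1 := xd_le ht hA hR hrB hrN hP hX hV hs {l, r - 1, bJ} (fun b _ _ hb => qfull hJ b hb)
  have h2 : ((({l, r - 1, bJ} : Finset ℕ).card : ℕ) : ℝ) ≤ 3 := by
    exact_mod_cast Finset.card_le_three
  have h3 : (0 : ℝ) ≤ m * A := by positivity
  have h4 : ((({l, r - 1, bJ} : Finset ℕ).card : ℕ) : ℝ) * (2 * (m * A)) ≤ 6 * (m * A) := by nlinarith
  have h5 : ∑ b ∈ Ico l r, (fb μ s t τ I η b (V b) X - fb μ s t τ I η b 0 X - Db μ s t τ I m η b 0 X / 4) =
      ∑ b ∈ Ico l r, (fb μ s t τ I η b (V b) X - fb μ s t τ I η b 0 X) - (∑ b ∈ Ico l r, Db μ s t τ I m η b 0 X) / 4 := by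
    rw [Finset.sum_sub_distrib, Finset.sum_div]
  rw [h5] at hH
  have h6 := abs_le.1 (h1.trans h4)
  have h7 := abs_le.1 hH
  have h8 := abs_le.1 (le_refl |∑ b ∈ Ico l r, Db μ s t τ I m η b 0 X|)
  rw [abs_le]
  constructor <;> linarith [h6.1, h6.2, h7.1, h7.2, h8.1, h8.2]

end Pool.Agent.W_7d29a1_HZ.R72
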