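import Pool.Agent.W_7d29a1_HZ.OneS

/-!
STORM Z AT ONE TILT (MP_7d29a1_pr), leaf Inn: the field `hdlx` of `Asm72.onestep_w` (absorption of the long clusters, row 664, 5.2): the near tie at the
junction `b` is rare given the sum without the two zones next to the junction, which does not look at the rows of the windows. (helper93)
-/

set_option autoImplicit false

set_option maxHeartbeats 400000

namespace Pool.Agent.W_7d29a1_HZ.R72

open MeasureTheory ProbabilityTheory Filter Topology Finset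
open Pool.Agent.W_7d29a1_F Pool.Agent.W_7d29a1_X Pool.Agent.W_7d29a1_h4g Pool.Agent.W_7d29a1_H
open Pool.Agent.W_7d29a1_HZ.Z86 (phi sp1 sp2 Wd Wd0_place mem_Wd)
open Pool.Agent.W_7d29a1_Z.Asm72
open _root_.W_7d29a1_Z.CtrOp77 (D)
open scoped ENNReal

variable {μ : Measure ℝ} {s : ℝ}

/-- The second difference of a zone looks at the rows of the zone only. -/
theorem Db_rows {t τ b : ℕ} {I : Finset ℕ} {g : ℤ} {η η' : Env} (a : ℤ) (X : ℕ → ℤ)
    (h : ∀ q : Pt, (za t τ b : ℤ) < q.1 → q.1 ≤ zb t τ b → η q = η' q) :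
    Db μ s t τ I g η b a X = Db μ s t τ I g η' b a X := by
  unfold Db fb
  rw [fk_rows _ _ _ h, fk_rows _ _ _ h, fk_rows _ _ _ h]

theorem measurable_Db' (t τ : ℕ) (I : Finset ℕ) (g : ℤ) (b : ℕ) (a : ℤ) (X : ℕ → ℤ) :
    Measurable fun η : Env => Db μ s t τ I g η b a X := by
  unfold Db fb
  exact ((measurable_fk _ _ _ _ _).add (measurable_fk _ _ _ _ _)).sub ((measurable_fk _ _ _ _ _).const_mul _)

/-- The zones which are not next to the junction `b`. -/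
def Zo (k₀ k₁ b : ℕ) : Finset ℕ := (Ico k₀ k₁).filter fun k => k + 1 ≠ b ∧ k ≠ b

/-- The sum of the second differences without the two zones next to the junction `b`. -/
noncomputable def Xw (μ : Measure ℝ) (s : ℝ) (t τ : ℕ) (I : Finset ℕ) (g : ℤ) (k₀ k₁ b : ℕ) (q : Env × Finset ℕ) : ℝ :=
  ∑ k ∈ Zo k₀ k₁ b, Db μ s t τ I g q.1 k 0 (pos q.2)

/-- The rows of the windows of the junction `b` are outside the other zones. -/
theorem wd_out {N t τ k₀ : ℕ} {n1 : ℕ → ℕ} {e0 E b : ℕ} (ht : 1 ≤ t) {w : ℕ × ℕ × Finset ℕ} (hw : w ∈ Wd N t τ k₀ n1 e0 E b)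
    {i k : ℕ} (hi : i ∈ w.2.2) (hk : k + 1 ≠ b) (hk' : k ≠ b) : i ≤ za t τ k ∨ zb t τ k < i := by
  have hza : ∀ x y : ℕ, x < y → za t τ x + 2 * t ≤ za t τ y := fun x y h => za_lt h
  have hzb : ∀ x : ℕ, zb t τ x = za t τ x + t := fun x => rfl
  rcases Wd0_place (mem_Wd.1 hw).2.2.1 with h | h | h
  · have h1 := h i hi
    have e1 := hzb (b - 1)
    have e2 := hzb k
    rcases Nat.lt_trichotomy k (b - 1) with h2 | h2 | h2
    · have := hza _ _ h2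
      omega
    · omega
    · have := hza _ _ h2
      omega
  · have h1 := h i hi
    have e2 := hzb k
    rcases Nat.lt_or_gt_of_ne hk' with h2 | h2
    · have := hza _ _ h2
      omega
    · have := hza _ _ h2
      omega
  · rcases h i hi k with h1 | h1
    · exact Or.inl h1.le
    · exact Or.inr h1

theorem xw_off {N t τ k₀ k₁ : ℕ} {n1 : ℕ → ℕ} {e0 E b : ℕ} (ht : 1 ≤ t) {w : ℕ × ℕ × Finset ℕ}
    (hw : w ∈ Wd N t τ k₀ n1 e0 E b) (I : Finset ℕ) (g : ℤ) (z : ℝ) :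
    OffRows w.2.2 fun η S => (η, S) ∈ {q : Env × Finset ℕ | z < |Xw μ s t τ I g k₀ k₁ b q|} := by
  intro η η' S hη
  have h1 : Xw μ s t τ I g k₀ k₁ b (η, S) = Xw μ s t τ I g k₀ k₁ b (η', S) := by
    unfold Xw
    refine sum_congr rfl fun k hk => ?_
    unfold Zo at hk
    rw [mem_filter] at hk
    refine Db_rows 0 _ fun q h1 h2 => hη q ?_
    rintro ⟨h3, h4⟩
    rcases wd_out ht hw h4 hk.2.1 hk.2.2 with h5 | h5 <;> omega
  simp only [Set.mem_ofPred_eq, h1]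

theorem measurable_xw (t τ : ℕ) (I : Finset ℕ) (g : ℤ) (k₀ k₁ b : ℕ) (S : Finset ℕ) :
    Measurable fun η : Env => Xw μ s t τ I g k₀ k₁ b (η, S) := by
  have h1 : ∀ k ∈ Zo k₀ k₁ b, Measurable fun η : Env => Db μ s t τ I g η k 0 (pos S) := fun k _ =>
    measurable_Db' t τ I g k 0 (pos S)
  exact Finset.measurable_sum (Zo k₀ k₁ b) h1

theorem xw_ms {t τ k₀ k₁ b : ℕ} (I : Finset ℕ) (g : ℤ) (z : ℝ) :
    Ms fun η S => (η, S) ∈ {q : Env × Finset ℕ | z < |Xw μ s t τ I g k₀ k₁ b q|} := by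
  intro S
  have h0 := measurable_xw (μ := μ) (s := s) t τ I g k₀ k₁ b S
  have h1 : Measurable fun η : Env => |Xw μ s t τ I g k₀ k₁ b (η, S)| := continuous_abs.measurable.comp h0
  have h2 : {η : Env | (η, S) ∈ {q : Env × Finset ℕ | z < |Xw μ s t τ I g k₀ k₁ b q|}} =
      {η : Env | z < |Xw μ s t τ I g k₀ k₁ b (η, S)|} := rfl
  rw [h2]
  exact measurableSet_lt measurable_const h1

/-- The two sums differ by the two zones next to the junction. -/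
theorem xw_diff {t τ k₀ k₁ b : ℕ} {I : Finset ℕ} {g : ℤ} {q : Env × Finset ℕ} {A : ℝ} (hA : 0 ≤ A)
    (h : ∀ k, k₀ ≤ k → k < k₁ → |Db μ s t τ I g q.1 k 0 (pos q.2)| ≤ 2 * A) :
    |Xs g (Ico k₀ k₁) (phi μ s t τ I q) - Xw μ s t τ I g k₀ k₁ b q| ≤ 4 * A := by
  have h1 : Xs g (Ico k₀ k₁) (phi μ s t τ I q) = Xw μ s t τ I g k₀ k₁ b q +
      ∑ k ∈ (Ico k₀ k₁).filter (fun k => ¬ (k + 1 ≠ b ∧ k ≠ b)), Db μ s t τ I g q.1 k 0 (pos q.2) := by
    unfold Xs Xw Zo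
    exact (sum_filter_add_sum_filter_not _ _ _).symm
  rw [h1, add_sub_cancel_left]
  refine (abs_sum_le_sum_abs _ _).trans ?_
  have h2 : ((Ico k₀ k₁).filter fun k => ¬ (k + 1 ≠ b ∧ k ≠ b)).card ≤ 2 := by
    refine (card_le_card (t := {b - 1, b}) fun k hk => ?_).trans card_le_two
    rw [mem_filter] at hk
    rw [mem_insert, mem_singleton]
    omega
  calc ∑ k ∈ (Ico k₀ k₁).filter (fun k => ¬ (k + 1 ≠ b ∧ k ≠ b)), |Db μ s t τ I g q.1 k 0 (pos q.2)|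
      ≤ ∑ _k ∈ (Ico k₀ k₁).filter (fun k => ¬ (k + 1 ≠ b ∧ k ≠ b)), 2 * A := sum_le_sum fun k hk => by
        have hk' := mem_Ico.1 (mem_filter.1 hk).1
        exact h k hk'.1 hk'.2
    _ = (((Ico k₀ k₁).filter fun k => ¬ (k + 1 ≠ b ∧ k ≠ b)).card : ℝ) * (2 * A) := by rw [sum_const, nsmul_eq_mul]
    _ ≤ 2 * (2 * A) := mul_le_mul_of_nonneg_right (by exact_mod_cast h2) (by positivity)
    _ = 4 * A := by ring

/-- FIELD `hdlx`: near tie at the junction `b`, any `H`, `Hd`. -/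
theorem dlx93a [IsProbabilityMeasure μ] {N : ℕ} {y : ℤ} (h0 : 0 ≤ y) (h1 : y ≤ N) {t τ k₀ k₁ : ℕ} (ht : 1 ≤ t) {n1 : ℕ → ℕ}
    {e0 E : ℕ} {r p : ℝ} (hr : 0 ≤ r) (hp : 0 ≤ p) (hT : TieIn μ s N y t τ k₀ n1 e0 E r p) {b X : ℕ}
    (hX : (Wd N t τ k₀ n1 e0 E b).card ≤ X) (H Hd : ℕ) {M : ℝ} (hM : 1 ≤ M) {I : Finset ℕ} {g : ℤ} {A dl : ℝ} (hA : 0 ≤ A)
    (hdl : 0 ≤ dl) (hG : P1 μ s N y (fun η S => ¬ ∀ k, k₀ ≤ k → k < k₁ → |Db μ s t τ I g η k 0 (pos S)| ≤ 2 * A) ≤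
      ENNReal.ofReal dl) (x : ℝ) :
    (sp1 μ s N y).pr ({q | x < |Xs g (Ico k₀ k₁) (phi μ s t τ I q)|} ∩ NTb μ s N t τ k₀ n1 e0 E H Hd M b) ≤
      X * (r * M) * (sp1 μ s N y).pr {q | x - 8 * A < |Xs g (Ico k₀ k₁) (phi μ s t τ I q)|} +
        (X * (r * M) * dl + dl + X * p) := by
  have hρ : 0 ≤ (X : ℝ) * (r * M) := by positivity
  have e : x - 8 * A = x - 2 * (4 * A) := by ring
  rw [e]
  refine Pool.Agent.W_7d29a1_Z.Num72.dlx72 (sp1 μ s N y) (fun q => Xs g (Ico k₀ k₁) (phi μ s t τ I q)) (Xw μ s t τ I g k₀ k₁ b)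
    (NTb μ s N t τ k₀ n1 e0 E H Hd M b) hρ (fun z => ?_) ?_ x
  · exact ntb_tie h0 h1 hr hp hT hX H Hd hM (xw_ms I g z) fun w hw _ => xw_off ht hw I g z
  · refine ((sp1 μ s N y).mono (F := {q | ¬ ∀ k, k₀ ≤ k → k < k₁ → |Db μ s t τ I g q.1 k 0 (pos q.2)| ≤ 2 * A})
      fun q hq => ?_).trans ?_
    · rw [Set.mem_ofPred_eq] at hq ⊢
      intro hcon
      have := xw_diff (b := b) hA hcon
      linarith
    · exact ENNReal.toReal_le_of_le_ofReal hdl hG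

end Pool.Agent.W_7d29a1_HZ.R72
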