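import Pool.Agent.W_7d29a1_HN.NPMain
import Pool.Agent.W_7d29a1_Z10.AlgP

/-!
STORM Z AT EVERY TILT: strict Newman - Piza in the form of the closing algebra, and the width from the predicate. (Model:
`W_7d29a1_Z10.NPLink`, helper10; helper56.)
-/

set_option autoImplicit false

namespace Pool.Agent.W_7d29a1_HZ.Z10

open MeasureTheory ProbabilityTheory Filter Topology
open Pool.Agent.W_7d29a1_F Pool.Agent.W_7d29a1_H
open Pool.Agent.W_7d29a1_HS (In wd)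
open Pool.Agent.W_7d29a1_HN (np_tilt)
open Pool.Agent.W_7d29a1_Z10 (StepP EWP superP)

variable {μ : Measure ℝ} [IsProbabilityMeasure μ] {s c C : ℝ} {n₀ : ℕ}

theorem wd_nn (h : In μ s c C n₀) (n : ℕ) : 0 ≤ wd μ s n := h.wd_nonneg n

theorem EE_nn (n : ℕ) : 0 ≤ EE μ s n := zero_le_one.trans (one_le_EE n)

/-- **Strict Newman - Piza.** -/
theorem strictNP (h : In μ s c C n₀) :
    ∃ k : ℝ, 0 < k ∧ ∀ᶠ n : ℕ in atTop, (n : ℝ) ^ (1 + k) ≤ wd μ s n * EE μ s n ^ 2 := by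
  obtain ⟨k, hk, n₁, hn⟩ := np_tilt h
  exact ⟨k, hk, eventually_atTop.2 ⟨n₁, hn⟩⟩

/-- **The width is superdiffusive** as soon as there is a predicate with the improvement step. -/
theorem width_of_P (h : In μ s c C n₀) {Q : ℝ → Prop} (hP0 : Q 0) (hS : StepP (wd μ s) Q)
    (hEW : EWP (wd μ s) (EE μ s) Q) :
    ∃ a : ℝ, 0 < a ∧ ∃ᶠ n : ℕ in atTop, (n : ℝ) ^ (1 / 2 + a) ≤ wd μ s n := by
  obtain ⟨k, hk, hNP⟩ := strictNP h
  exact superP (wd_nn h) (fun n => EE_nn n) hP0 hS hEW hk hNP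

end Pool.Agent.W_7d29a1_HZ.Z10
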