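import Pool.Agent.W_7d29a1_HZ.Act
import Pool.Agent.W_7d29a1_HZ.Z10_EwpZ

/-!
STORM Z AT EVERY TILT, leaf EB: the unit is bounded by the response (the pattern is repeated until the total shift is of the order of
the width). (Model: `W_7d29a1_Z.Eb`.)
-/

set_option autoImplicit false

namespace Pool.Agent.W_7d29a1_HZ

open MeasureTheory ProbabilityTheory Filter Topology Finset
open Pool.Agent.W_7d29a1_F Pool.Agent.W_7d29a1_H
open Pool.Agent.W_7d29a1_HS (In wd)
open Pool.Agent.W_7d29a1_Z10 (StepP EWP)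

variable {μ : Measure ℝ} [IsProbabilityMeasure μ] {s c C : ℝ} {n₀ : ℕ}

theorem ewp (h : In μ s c C n₀) : EWP (wd μ s) (EE μ s) (PSg μ s) := Pool.Agent.W_7d29a1_HZ.Z10.ewpZ h

end Pool.Agent.W_7d29a1_HZ
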