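import Pool.Agent.W_7d29a1_HZ.Free
import Pool.Agent.W_7d29a1_Z.Exch

/-!
STORM Z AT ONE TILT, leaf EXCH (R1): the exchange of the pieces of two paths at a list of junctions without shears. The polymer with fixed
end points is the same at every tilt (`gp_eqZ`, `P1_eqZ`, `P2_eqZ`), so the exchange of the tilt `0` does it.
-/

set_option autoImplicit false

namespace Pool.Agent.W_7d29a1_HZ

open MeasureTheory ProbabilityTheory Filter Topology Finset
open Pool.Agent.W_7d29a1_F Pool.Agent.W_7d29a1_X Pool.Agent.W_7d29a1_h4g Pool.Agent.W_7d29a1_H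
open scoped ENNReal

variable {μ : Measure ℝ} {s : ℝ}

/-- Junction `l`: no shears at the times of `[p l, z l)`; good if the paths meet in `[p l, q l]` and in `[r l, z l]`. The exchanged path
`ex S S'` has the law of `S` and agrees with `S'` (frame positions) in `[q l, r l]` at every good junction. -/
theorem exchange {N : ℕ} (v : ℕ → ℤ) (K : ℕ) (p q r z : ℕ → ℕ)
    (h1 : ∀ l < K, p l ≤ q l ∧ q l ≤ r l ∧ r l ≤ z l ∧ z l ≤ N) (h2 : ∀ l, l + 1 < K → z l ≤ p (l + 1))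
    (hv : ∀ l < K, ∀ k, p l ≤ k → k < z l → v k = 0) :
    ∃ ex : Finset ℕ → Finset ℕ → Finset ℕ,
      (∀ S S', S ⊆ range N → S' ⊆ range N → ex S S' ⊆ range N) ∧
      (∀ (η : Env) (y : ℤ) (F : Finset ℕ → ℝ), ∑ S ∈ (range N).powerset, ∑ S' ∈ (range N).powerset,
        gp μ s η N y S * gp μ s (shr 0 v η) N y S' * F (ex S S') =
          (∑ S' ∈ (range N).powerset, gp μ s (shr 0 v η) N y S') * ∑ S ∈ (range N).powerset, gp μ s η N y S * F S) ∧
      ∀ S S', S ⊆ range N → S' ⊆ range N → ∀ l < K, (∃ i, p l ≤ i ∧ i ≤ q l ∧ pos S i = px v S' i) →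
        (∃ i, r l ≤ i ∧ i ≤ z l ∧ pos S i = px v S' i) → ∀ i, q l ≤ i → i ≤ r l → pos (ex S S') i = px v S' i := by
  obtain ⟨ex, e1, e2, e3⟩ := Pool.Agent.W_7d29a1_Z.exchange (μ := μ) v K p q r z h1 h2 hv
  refine ⟨ex, e1, fun η y F => ?_, e3⟩
  simp only [gp_eqZ]
  exact e2 η y F

/-- The law of the exchanged path under `P2`. -/
theorem P2_exch [IsProbabilityMeasure μ] {N : ℕ} {y : ℤ} (h0 : 0 ≤ y) (h1 : y ≤ N) (v : ℕ → ℤ)
    {ex : Finset ℕ → Finset ℕ → Finset ℕ} (he : ∀ S S', S ⊆ range N → S' ⊆ range N → ex S S' ⊆ range N)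
    (hs : ∀ (η : Env) (y : ℤ) (F : Finset ℕ → ℝ), ∑ S ∈ (range N).powerset, ∑ S' ∈ (range N).powerset,
        gp μ s η N y S * gp μ s (shr 0 v η) N y S' * F (ex S S') =
          (∑ S' ∈ (range N).powerset, gp μ s (shr 0 v η) N y S') * ∑ S ∈ (range N).powerset, gp μ s η N y S * F S)
    (A : Env → Finset ℕ → Prop) : P2 μ s N y v (fun η S S' => A η (ex S S')) = P1 μ s N y A := by
  rw [P1_eqZ, P2_eqZ]
  refine Pool.Agent.W_7d29a1_Z.P2_exch h0 h1 v he (fun η y F => ?_) A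
  have h := hs η y F
  simp only [gp_eqZ] at h
  exact h

end Pool.Agent.W_7d29a1_HZ
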