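import Pool.Agent.W_7d29a1_HZ.Main
import Pool.Agent.W_7d29a1_HS.InAll

/-!
STORM Z AT EVERY TILT (MP_7d29a1_pr): the width is superdiffusive along a sequence of scales, at every tilt and for every law with
exponential moments which is not degenerate. No hypotheses. (helper61)
-/

set_option autoImplicit false

namespace Pool.Agent.W_7d29a1_HZ

open MeasureTheory ProbabilityTheory Filter Topology
open Pool.Agent.W_7d29a1_HS (In wd in_tilt)

theorem zmainH {μ : Measure ℝ} [IsProbabilityMeasure μ] (hμ : Pool.Agent.W_7d29a1_h47.EM μ)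
    (hnd : Pool.Agent.W_7d29a1_h47.Nondeg μ) (s : ℝ) :
    ∃ a : ℝ, 0 < a ∧ ∃ᶠ n : ℕ in atTop, (n : ℝ) ^ (1 / 2 + a) ≤ wd μ s n := by
  obtain ⟨c, C, n₀, h⟩ := in_tilt hμ hnd s
  exact zmain h

end Pool.Agent.W_7d29a1_HZ
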