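import Pool.Agent.W_7d29a1_HZ.OneZ
import Pool.Agent.W_7d29a1_Z.Sup72

/-!
STORM Z AT ONE TILT, leaf INN, part A: the induction for the concrete model, all parameters fixed. (helper72; port: helper51)
-/

set_option autoImplicit false

namespace Pool.Agent.W_7d29a1_HZ.R72

open MeasureTheory ProbabilityTheory Filter Topology Finset
open Pool.Agent.W_7d29a1_F Pool.Agent.W_7d29a1_X Pool.Agent.W_7d29a1_h4g Pool.Agent.W_7d29a1_H
open Pool.Agent.W_7d29a1_HS (md)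
open Pool.Agent.W_7d29a1_HZ.Z86 (phi sp1 sp2 Wd Meet BadJ RegT Bf)
open Pool.Agent.W_7d29a1_Z86 (Runs st)
open Pool.Agent.W_7d29a1_Z.R72 (errZ)
open Pool.Agent.W_7d29a1_Z.Asm72
open _root_.W_7d29a1_Z.CtrOp77 (D)
open scoped ENNReal

variable {μ : Measure ℝ} {s : ℝ}

theorem errZ_ge {L X N₀ : ℕ} {p lm u : ℝ} (hX : 1 ≤ X) (hp : 0 ≤ p) : 2 * p ≤ errZ L X N₀ p lm u := by
  unfold errZ
  have hL0 : (0 : ℝ) ≤ L := Nat.cast_nonneg L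
  have hX1 : (1 : ℝ) ≤ X := by exact_mod_cast hX
  have h1 : (10 : ℝ) ≤ (10 * ((L : ℝ) + 1)) ^ 20 := by
    calc (10 : ℝ) ≤ 10 * ((L : ℝ) + 1) := by linarith
      _ = (10 * ((L : ℝ) + 1)) ^ 1 := (pow_one _).symm
      _ ≤ (10 * ((L : ℝ) + 1)) ^ 20 := pow_le_pow_right₀ (by linarith) (by norm_num)
  have h2 : p ≤ p + Real.exp (-lm) + Real.exp (-(u ^ 2 / 64)) + (1 / 2) ^ N₀ +
      ((L : ℝ) + 2) ^ N₀ * (N₀ * (X * p)) := by
    have := Real.exp_pos (-lm)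
    have := Real.exp_pos (-(u ^ 2 / 64))
    have : 0 ≤ (1 / 2 : ℝ) ^ N₀ := by positivity
    have : 0 ≤ ((L : ℝ) + 2) ^ N₀ * (N₀ * (X * p)) := by positivity
    linarith
  have h3 : (10 : ℝ) ≤ (10 * ((L : ℝ) + 1)) ^ 20 * X := by nlinarith
  calc 2 * p ≤ 10 * p := by linarith
    _ ≤ (10 * ((L : ℝ) + 1)) ^ 20 * X * p := mul_le_mul_of_nonneg_right h3 hp
    _ ≤ _ := mul_le_mul_of_nonneg_left h2 (by positivity)

/-- The induction for the concrete model. -/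
theorem innZ [IsProbabilityMeasure μ] (hmd0 : ∀ j, 0 ≤ md μ s j) (hmd1 : ∀ j, md μ s j ≤ j)
    {L N t τ B Kl J N₀ Nn e0 E X : ℕ} {n1 : ℕ → ℕ} {I : Finset ℕ} {y : ℤ}
    {w A r p lm u x q : ℝ} (h0 : 0 ≤ y) (h1 : y ≤ N) (hN : N ≤ L) (ht : 16 ≤ t) (hI : I ⊆ Core t) (hB1 : 1 ≤ B)
    (hB : B ≤ L) (hkN : za t τ B ≤ N) (hE : 2 ^ (E + 3) ≤ L) (hX : ∀ k₀ b, (Wd N t τ k₀ n1 e0 E b).card ≤ X)
    (hX1 : 1 ≤ X) (hA : 1 ≤ A) (hr : 0 ≤ r) (hp : 0 ≤ p) (hlm : 0 ≤ lm) (hu : 0 ≤ u) (hN₀ : 1 ≤ N₀)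
    (hn1 : ∀ e, e0 ≤ e → e ≤ E → 1 ≤ n1 e)
    (hRA : law μ {η | ¬ RA μ s L t τ B I w A (2 ^ Kl) η} ≤ ENNReal.ofReal p)
    (hw : ∀ k < Kl, 2 * w + 4 * (((2 ^ k : ℕ) : ℝ) * I.card) ≤ min (sl μ s) (1 - sl μ s) * t) (hD : ∀ k < Kl, 64 * (2 ^ k * I.card) ≤ 2 ^ e0)
    (hTF : P1 μ s N y (fun _ S => ¬ (Tame μ s L N t w (pos S) ∧ FlatP μ s N e0 E n1 S)) ≤ ENNReal.ofReal p)
    (hSep : ∀ k < Kl, ∀ (k₀ k₁ : ℕ) (V : ℕ → ℤ), VOK t τ N k₀ k₁ (2 ^ k) I V →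
      P2 μ s N y (pat t τ I V) (fun _ S S' => ¬ SepOK N t τ k₀ k₁ e0 E (pat t τ I V) S S') ≤ ENNReal.ofReal p)
    (hT : ∀ k₀, TieIn μ s N y t τ k₀ n1 e0 E r p) (hq : 0 < q) (hx1 : 1 ≤ x) (b1 : 8 ≤ x ^ 2)
    (b2 : 16 * ((Kl : ℝ) + 1) ^ 2 ≤ x ^ 30) (b3 : 2 * (u + 4) ≤ x ^ 2 / 2)
    (b4 : (3 / 2 * (6 * x ^ 2 * ((J : ℝ) + 1)) + 2 * (u + 4)) * (24 * x ^ 13) ≤ x ^ 2 * √(x ^ 30))
    (b5 : (3 / 2 * (6 * x ^ 2 * ((J : ℝ) + 1)) + 2 * (u + 4)) * (8 * (x ^ 13) ^ 2) ≤ x ^ 2 * x ^ 60)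
    (b6 : X * (r * ((6 * x ^ 2 * ((J : ℝ) + 1) + 3 * (2 * (u + 4)) + 12 + 3 * lm) * A)) ≤ x ^ 8 * (A * q))
    (b7 : 1 * (4 * (N₀ : ℝ) * (10 : ℕ) * (x ^ 8 * 2 * 2 + 1)) + 2 ≤ x ^ 13)
    (b8 : 2 * (2 * x ^ 30 + 1) * (X * (r * ((2 * (6 * x ^ 2 * ((J : ℝ) + 1) + 2) * √(x ^ 30) + 2 * (2 * (u + 4)) + 12 +
      3 * lm) * A))) ≤ x ^ 60 * (A * q))
    (hLl : (Nat.size L : ℝ) ≤ x ^ 13) (hK2 : 1 ≤ x ^ 60 * (2 ^ Kl * (A * q))) (hNn : (B : ℝ) ≤ (x ^ 30) ^ Nn)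
    {b₀ m : ℕ} (hm : 1 ≤ m) (hbm : b₀ + m ≤ B) :
    (sp1 μ s N y).pr {z | (2 * x ^ 2 * ((J : ℝ) + 1) * √(m : ℝ) + 8 * x ^ 2 * ((J : ℝ) + 1) * x ^ 60 * ((Kl : ℝ) + 1) * m *
        (1 * (A * q))) * (1 * A) < |Xs 1 (Ico b₀ (b₀ + m)) (phi μ s t τ I z)|} ≤
      m * ((2 ^ (Kl + 3) * (2 * ((B : ℝ) + 1)) * B) ^ (Nn + 1) * (3 * errZ L X N₀ p lm u + (1 / 2) ^ J)) := by
  have hA0 : 0 ≤ A := by linarith
  have hP : 0 < A * q := by positivity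
  have hc01 : 1 ≤ x ^ 2 := one_le_pow₀ hx1
  have hzaM : ∀ k₁, k₁ ≤ B → za t τ k₁ ≤ N := fun k₁ hk => (za_mono' hk).trans hkN
  have herr : 2 * p ≤ errZ L X N₀ p lm u := errZ_ge hX1 hp
  have hTame : P1 μ s N y (fun _ S => ¬ Tame μ s L N t w (pos S)) ≤ ENNReal.ofReal p :=
    (P1_mono' fun _ S _ _ h2 h3 => h2 h3.1).trans hTF
  set F : Pool.Agent.W_7d29a1_Z.Sup72.Fam Unit (fun _ => Env × Finset ℕ) :=
    { ν := fun _ => sp1 μ s N y, φ := fun _ z => phi μ s t τ I z, lo := fun _ => 0, hi := fun _ => B } with hF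
  have main := Pool.Agent.W_7d29a1_Z.Sup72.Fam.inRec (F := F) (K := Kl) (B := B) (J := J) (N := Nn) (s := x ^ 30) (T := x ^ 60) (A := A)
    (P := A * q) (c0 := x ^ 2) (L1 := 2 * ((B : ℝ) + 1)) (dl := errZ L X N₀ p lm u) (one_le_pow₀ hx1) hB1 hA0 hP b2 hc01
    le_rfl (by linarith) ?_ ?_ hK2 hNn (k := 0) (Nat.zero_le _) (m := m) hm (by omega) (i := ()) (a := b₀)
    (Nat.zero_le _) hbm
  · simpa only [hF, pow_zero] using main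
  · -- the base
    intro k hk i b _ hb
    have hb' : b < B := hb
    have key : P1 μ s N y (fun η S => 2 * (2 ^ k * A) < |Db μ s t τ I (2 ^ k) η b 0 (pos S)|) ≤ ENNReal.ofReal (2 * p) := by
      have h2 : P1 μ s N y (fun η S => ¬ RA μ s L t τ B I w A (2 ^ Kl) η ∨ ¬ Tame μ s L N t w (pos S)) ≤ ENNReal.ofReal (2 * p) := by
        rw [two_mul, ENNReal.ofReal_add hp hp]
        refine (P1_or _ _).trans (add_le_add ?_ hTame)
        rw [P1_env h0 h1]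
        exact hRA
      refine le_trans (P1_mono' ?_) h2
      intro η S _ _ hcon
      by_contra hneg
      rw [not_or, not_not, not_not] at hneg
      obtain ⟨hR, hTm⟩ := hneg
      refine absurd hcon (not_lt.2 ?_)
      have hzN : zb t τ b ≤ N := by
        have h4 : za t τ (b + 1) ≤ N := hzaM _ (by omega)
        have h5 : za t τ (b + 1) = za t τ b + 2 * t := by unfold za; ring
        rw [zb_eq]
        omega
      have hc := hTm.cone (τ := τ) (pce_full t) hzN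
      have h6 := (ra_Db hR (b := b) (r := (2 : ℤ) ^ k) (a := 0) hb' (by
        rw [abs_zero, zero_add, abs_of_nonneg (by positivity)]
        exact_mod_cast Nat.pow_le_pow_right (by norm_num) hk) (X := pos S) (by simpa using hc.1) (by
        have e := hc.2
        rw [zb_eq]
        simpa using e)).1
      have e : |(((2 : ℤ) ^ k : ℤ) : ℝ)| = 2 ^ k := by
        push_cast
        exact abs_of_nonneg (by positivity)
      rw [e] at h6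
      linarith
    have h7 : (P1 μ s N y (fun η S => 2 * (2 ^ k * A) < |Db μ s t τ I (2 ^ k) η b 0 (pos S)|)).toReal ≤ 2 * p :=
      ENNReal.toReal_le_of_le_ofReal (by positivity) key
    exact h7.trans herr
  · -- the step
    intro k hk m hm hmB hTm i a _ ham x'
    have ham' : a + m ≤ B := ham
    have e1 : ((a + m - a : ℕ) : ℝ) = m := by
      rw [show a + m - a = m by omega]
    have h3 := oneZ (μ := μ) (L := L) (N := N) (t := t) (τ := τ) (B := B) (k₀ := a) (k₁ := a + m) (K := 2 ^ Kl)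
      (sa := 2 ^ k) (e0 := e0) (E := E) (X := X) (N₀ := N₀) (n1 := n1) (I := I) (w := w) (A := A) (r := r) (p := p)
      (lm := lm) (u := u) (G := 6 * x ^ 2 * ((J : ℝ) + 1)) (c₀ := x ^ 2) (lc := x ^ 13) (s₀ := x ^ 30) (T := x ^ 60)
      (q := q) (κ₀ := x ^ 8) hmd0 hmd1 h0 h1 hN ht hI (by omega) ham' hB (hzaM _ ham') hE (hX a) hX1 Nat.one_le_two_pow hA hr hp hlm
      hu hN₀ (by
        rw [← pow_succ']
        exact Nat.pow_le_pow_right (by norm_num) hk) (hw k hk) (hD k hk) hn1 hRA hTF (hSep k hk a (a + m)) (hT a)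
      (by positivity) (one_le_pow₀ hx1) (one_le_pow₀ hx1) hq.le b1 (one_le_pow₀ hx1) (by positivity)
      (by rw [e1]; push_cast; exact hTm) hLl b3 b4 b5 b6 b7 b8 x'
    rw [e1] at h3
    push_cast at h3
    have h4 : errZ L X N₀ p lm u ≤ m * errZ L X N₀ p lm u := by
      have : (1 : ℝ) ≤ m := by exact_mod_cast hm
      have : 0 ≤ errZ L X N₀ p lm u := by linarith
      nlinarith
    simp only [hF]
    linarith

end Pool.Agent.W_7d29a1_HZ.R72
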