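import Pool.Agent.W_7d29a1_HZ.Exch
import Pool.Agent.W_7d29a1_HZ.Depth
import Pool.Agent.W_7d29a1_HZ.TieQ
import Pool.Agent.W_7d29a1_HZ.Fresh
import Pool.Agent.W_7d29a1_HZ.RA
import Pool.Agent.W_7d29a1_HZ.Hoef
import Pool.Agent.W_7d29a1_HZ.InnA
import Pool.Agent.W_7d29a1_HZ.NumW
import Pool.Agent.W_7d29a1_Z.NumI77
/-!
STORM Z, leaf INN: the incoherence theorem (IN). The second differences of the zones, summed along the path, are at most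
`L ^ ε (√m + m A q) A`, where `q` is the rate of the ties at the scale `t` (`qt` in the lattice version, see TieQ).
-/

set_option autoImplicit false

namespace Pool.Agent.W_7d29a1_HZ

open MeasureTheory ProbabilityTheory Filter Topology Finset
open Pool.Agent.W_7d29a1_F Pool.Agent.W_7d29a1_X Pool.Agent.W_7d29a1_h4g Pool.Agent.W_7d29a1_H
open Pool.Agent.W_7d29a1_HS (In wd)
open Pool.Agent.W_7d29a1_HZ.R72 Pool.Agent.W_7d29a1_Z.Asm72
open Pool.Agent.W_7d29a1_Z.R72 (numA levelK numE)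
open Pool.Agent.W_7d29a1_HZ.Z86 (phi sp1 sp2 Wd)
open scoped ENNReal

variable {μ : Measure ℝ} {s : ℝ} [IsProbabilityMeasure μ] {c C : ℝ} {n₀ : ℕ}

theorem inn (h : In μ s c C n₀) {q : ℕ → ℝ} {K : ℝ} (hq : QOK q K) (hT : TIE μ s q) :
    ∀ ε θ c₀ δ₀ : ℝ, 0 < ε → 0 < θ → 0 < c₀ → 0 < δ₀ → ∃ δ c₁ : ℝ, 0 < δ ∧ 0 < c₁ ∧ ∃ L₀ : ℕ,
    ∀ L : ℕ, L₀ ≤ L → ∀ N t τ B : ℕ, L ≤ 16 * N → N ≤ L → (L : ℝ) ^ θ ≤ t → τ + 2 * t * B ≤ N →
    ∀ y : ℤ, 0 ≤ y → y ≤ N → |(y : ℝ) - sl μ s * N| ≤ ((L : ℝ) ^ δ * wd' μ s N) →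
    ∀ I : Finset ℕ, I ⊆ Core t → ∀ A : ℝ, 1 ≤ A → (I.card : ℝ) ≤ (L : ℝ) ^ δ * (A * q t * wd' μ s t) →
    (I.card : ℝ) ≤ (L : ℝ) ^ δ * wd' μ s t →
    Rsp μ s t I 1 ((L : ℝ) ^ δ₀ * wd' μ s t) A (Real.exp (-(L : ℝ) ^ c₀)) → ∀ b₀ m : ℕ, b₀ + m ≤ B →
    P1 μ s N y (fun η S => (L : ℝ) ^ ε * (Real.sqrt m + m * (A * q t)) * A <
      |∑ b ∈ Ico b₀ (b₀ + m), Db μ s t τ I 1 η b 0 (pos S)|) ≤ ENNReal.ofReal (Real.exp (-(L : ℝ) ^ c₁)) := by
  intro ε θ cR dR hε hθ hcR hdR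
  -- the exponents
  set β : ℝ := min (ε / 70) (dR / 2) with hβd
  have hβ : 0 < β := lt_min (by positivity) (by positivity)
  have hβ1 : 66 * β ≤ ε := by
    have := min_le_left (ε / 70) (dR / 2)
    linarith
  have hβ2 : β ≤ dR / 2 := min_le_right _ _
  obtain ⟨ε₁, δw, cw, hε₁, hδw, hcw, Lw, hW⟩ := numW h hq hT β (30 * β) θ hβ (by positivity) hθ
  obtain ⟨δn, cn, hδn, hcn, Ln, hNs⟩ := ns h ε₁ hε₁
  obtain ⟨δf, cf, hδf, hcf, Lf, hFr⟩ := fresh h ε₁ hε₁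
  set cm : ℝ := min (min cw cn) (min cf cR) with hcm
  have hcm0 : 0 < cm := lt_min (lt_min hcw hcn) (lt_min hcf hcR)
  obtain ⟨cp, hcp, hcpm, Lp, hPE⟩ := Pool.Agent.W_7d29a1_Z.NumI77.pow_exp hcm0 5
  -- the power
  set Nn : ℕ := ⌈1 / (30 * β)⌉₊ with hNn
  obtain ⟨c₁, hc₁, LE, hNE⟩ := numE hβ hcp Nn
  obtain ⟨x₀, hx₀, hNA⟩ := numA
  obtain ⟨La, hLa⟩ := Pool.Agent.W_7d29a1_Z.NumI77.large hβ (max x₀ 3)
  obtain ⟨Lb, hLb⟩ := Pool.Agent.W_7d29a1_Z.NumI77.large (show (0 : ℝ) < 60 * β by positivity) (K / q 1)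
  obtain ⟨Lc, hLc⟩ := Pool.Agent.W_7d29a1_Z.NumI77.large hθ 16
  obtain ⟨Ld, hLd⟩ := Pool.Agent.W_7d29a1_Z.NumI77.large (show (0 : ℝ) < dR / 2 by positivity) 3
  set δ : ℝ := min (min δw δn) (min δf β) with hδd
  have hδ : 0 < δ := lt_min (lt_min hδw hδn) (lt_min hδf hβ)
  have hδ1 : δ ≤ δw := (min_le_left _ _).trans (min_le_left _ _)
  have hδ2 : δ ≤ δn := (min_le_left _ _).trans (min_le_right _ _)
  have hδ3 : δ ≤ δf := (min_le_right _ _).trans (min_le_left _ _)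
  have hδ4 : δ ≤ β := (min_le_right _ _).trans (min_le_right _ _)
  refine ⟨δ, c₁, hδ, hc₁, max (max (max Lw Ln) (max Lf Lp)) (max (max (max LE La) (max Lb Lc)) (max Ld 45)), ?_⟩
  intro L hL N t τ B hLN hNL htL hτB y hy0 hyN hyc I hI A hA hz1 hz2 hR b₀ m hbm
  obtain ⟨⟨⟨g1, g2⟩, g3, g4⟩, ⟨⟨g5, g6⟩, g7, g8⟩, g9, g10⟩ : ((Lw ≤ L ∧ Ln ≤ L) ∧ Lf ≤ L ∧ Lp ≤ L) ∧
      ((LE ≤ L ∧ La ≤ L) ∧ Lb ≤ L ∧ Lc ≤ L) ∧ Ld ≤ L ∧ 45 ≤ L := by simpa only [max_le_iff] using hL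
  have hL1 : 1 ≤ L := by omega
  have hLR : (1 : ℝ) ≤ L := by exact_mod_cast hL1
  have hL45 : (45 : ℝ) ≤ L := by exact_mod_cast g10
  have hL0 : (0 : ℝ) < L := by linarith
  rcases Nat.eq_zero_or_pos m with rfl | hm
  · -- no zones
    refine le_trans (le_of_eq ?_) zero_le
    unfold P1
    refine Finset.sum_eq_zero fun S _ => ?_
    have e : {η : Env | (L : ℝ) ^ ε * (Real.sqrt ((0 : ℕ) : ℝ) + ((0 : ℕ) : ℝ) * (A * q t)) * A <
        |∑ b ∈ Ico b₀ (b₀ + 0), Db μ s t τ I 1 η b 0 (pos S)|} = ∅ := by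
      ext η
      simp
    rw [e, measure_empty]
  have hB1 : 1 ≤ B := by omega
  -- the size of `t`
  obtain ⟨-, ht16, -⟩ := hLc L g8
  have ht : 16 ≤ t := by exact_mod_cast ht16.trans htL
  have h2tB : 2 * t ≤ 2 * t * B := Nat.le_mul_of_pos_right _ hB1
  have hBt : B ≤ 2 * t * B := Nat.le_mul_of_pos_left _ (by omega)
  have htN : t ≤ N := by omega
  have htLn : t ≤ L := htN.trans hNL
  have hBL : B ≤ L := by omega
  have hkN : za t τ B ≤ N := hτB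
  have hwd : ∀ n, 0 < wd' μ s n := fun n => lt_of_lt_of_le zero_lt_one (le_max_left _ _)
  have hcone : ∀ δ', δ ≤ δ' → |(y : ℝ) - sl μ s * N| ≤ ((L : ℝ) ^ δ' * wd' μ s N) := fun δ' hδ' => by
    refine hyc.trans ?_
    have h1 := Real.rpow_le_rpow_of_exponent_le hLR hδ'
    have h2 := mul_le_mul_of_nonneg_right h1 (hwd N).le
    linarith
  obtain ⟨n1, e0, E, X, w, w1, w2, w3, w4, w5, w6, w7, w8, w9, w10, w11, w12, w13⟩ :=
    hW L g1 N t hLN hNL htL htN y hy0 hyN (hcone _ hδ1)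
  -- the rate
  have hqt : 0 < q t := hq.pos t (by omega)
  have hq1 : 0 < q 1 := hq.pos 1 le_rfl
  have hK0 : 0 < K := lt_of_lt_of_le hq1 (hq.one 1 le_rfl)
  have hP : 0 < A * q t := by positivity
  -- the parameter `x`
  obtain ⟨-, hxx, -⟩ := hLa L g6
  set x : ℝ := (L : ℝ) ^ β with hx
  have hxx₀ : x₀ ≤ x := (le_max_left _ _).trans hxx
  have hx3 : 3 ≤ x := (le_max_right _ _).trans hxx
  have hx1 : 1 ≤ x := by linarith
  have hx0 : 0 < x := by linarith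
  have hpw : ∀ n : ℕ, x ^ n = (L : ℝ) ^ (β * n) := fun n => by
    rw [hx, ← Real.rpow_natCast, ← Real.rpow_mul hL0.le]
  have hT1 : 1 ≤ x ^ 60 := one_le_pow₀ hx1
  -- the levels
  have hlev : 1 ≤ x ^ 60 * (L * (A * q t)) := by
    have e1 := hq.low 1 t le_rfl (by omega)
    rw [Nat.cast_one, div_one] at e1
    have e2 : K / q 1 ≤ x ^ 60 := by
      obtain ⟨-, e3, -⟩ := hLb L g7
      rw [hpw]
      refine e3.trans (le_of_eq ?_)
      congr 1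
      push_cast
      ring
    rw [div_le_iff₀ hq1] at e2
    have e4 : K * t * q t ≤ K * L * q t := by
      have : (t : ℝ) ≤ L := by exact_mod_cast htLn
      gcongr
    have e5 : q 1 ≤ K * (L * q t) := by linarith
    have e6 : K * 1 ≤ K * (x ^ 60 * (L * q t)) := by
      calc K * 1 = K := mul_one K
        _ ≤ x ^ 60 * q 1 := e2
        _ ≤ x ^ 60 * (K * (L * q t)) := mul_le_mul_of_nonneg_left e5 (pow_nonneg hx0.le 60)
        _ = K * (x ^ 60 * (L * q t)) := mul_left_comm _ _ _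
    have e7 : 1 ≤ x ^ 60 * (L * q t) := le_of_mul_le_mul_left e6 hK0
    have e8 : x ^ 60 * (L * q t) ≤ x ^ 60 * (L * (A * q t)) := by
      have : q t ≤ A * q t := le_mul_of_one_le_left hqt.le hA
      gcongr
    linarith
  obtain ⟨Kl, k1, k2, k3⟩ := levelK (by positivity) hP hlev
  obtain ⟨N₀, J, lm, u, f1, f2, f3, f4, f5, f6, f7, f8, f9, f10⟩ := hNE L g5
  have hKx : (Kl : ℝ) + 1 ≤ x := f9 Kl k3
  obtain ⟨b1, b2, b3, b4, b5, b6, b7, b8, b9⟩ := hNA x hxx₀ X N₀ J Kl (x * q t) (q t) A lm u w2 w3 (by positivity) le_rfl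
    hqt hA f1 f2 f3 hKx f4 f5 f6 f7
  -- the probabilities
  set p : ℝ := Real.exp (-(L : ℝ) ^ cp) with hp
  have hp0 : 0 < p := Real.exp_pos _
  have hPE' := hPE L g4
  rw [← hp] at hPE'
  have hem : 0 < Real.exp (-(L : ℝ) ^ cm) := Real.exp_pos _
  have h5 : (L : ℝ) ^ (5 : ℝ) = (L : ℝ) ^ 5 := by
    rw [← Real.rpow_natCast]
    norm_num
  rw [h5] at hPE'
  have hL5 : (45 : ℝ) ≤ (L : ℝ) ^ 5 := by
    calc (45 : ℝ) ≤ L := hL45
      _ = (L : ℝ) ^ 1 := (pow_one _).symm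
      _ ≤ (L : ℝ) ^ 5 := pow_le_pow_right₀ hLR (by norm_num)
  have h3em : 3 * Real.exp (-(L : ℝ) ^ cm) ≤ p :=
    (mul_le_mul_of_nonneg_right (by linarith : (3 : ℝ) ≤ (L : ℝ) ^ 5) hem.le).trans hPE'
  have ecw : Real.exp (-(L : ℝ) ^ cw) ≤ Real.exp (-(L : ℝ) ^ cm) :=
    Pool.Agent.W_7d29a1_Z.NumI77.exp_mono ((min_le_left _ _).trans (min_le_left _ _)) hL1
  have ecn : Real.exp (-(L : ℝ) ^ cn) ≤ Real.exp (-(L : ℝ) ^ cm) :=
    Pool.Agent.W_7d29a1_Z.NumI77.exp_mono ((min_le_left _ _).trans (min_le_right _ _)) hL1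
  have ecf : Real.exp (-(L : ℝ) ^ cf) ≤ Real.exp (-(L : ℝ) ^ cm) :=
    Pool.Agent.W_7d29a1_Z.NumI77.exp_mono ((min_le_right _ _).trans (min_le_left _ _)) hL1
  have ecR : Real.exp (-(L : ℝ) ^ cR) ≤ Real.exp (-(L : ℝ) ^ cm) :=
    Pool.Agent.W_7d29a1_Z.NumI77.exp_mono ((min_le_right _ _).trans (min_le_right _ _)) hL1
  have hns := hNs L g2 N hLN hNL y hy0 hyN (hcone _ hδ2)
  have hfr := hFr L g3 N hLN hNL y hy0 hyN (hcone _ hδ3)
  have hTF : P1 μ s N y (fun _ S => ¬ (Tame μ s L N t w (pos S) ∧ FlatP μ s N e0 E n1 S)) ≤ ENNReal.ofReal p := by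
    refine (P1_mono' fun η S hS _ h2 h3 => h2 (w12 S (mem_powerset.1 hS) h3)).trans (hns.trans ?_)
    exact ENNReal.ofReal_le_ofReal (by linarith)
  -- the number of the shears
  have hz0 : (0 : ℝ) ≤ I.card := Nat.cast_nonneg _
  have hδx : (L : ℝ) ^ δ ≤ x := Real.rpow_le_rpow_of_exponent_le hLR hδ4
  have hzk : ∀ k < Kl, (2 : ℝ) ^ k * I.card * x ^ 60 ≤ x * wd' μ s t := by
    intro k hk
    have e1 := (k1 k hk).le
    have e2 : (2 : ℝ) ^ k * I.card * x ^ 60 ≤ 2 ^ k * ((L : ℝ) ^ δ * (A * q t * wd' μ s t)) * x ^ 60 := by gcongr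
    have e3 : 2 ^ k * ((L : ℝ) ^ δ * (A * q t * wd' μ s t)) * x ^ 60 =
        (x ^ 60 * (2 ^ k * (A * q t))) * ((L : ℝ) ^ δ * wd' μ s t) := by ring
    have e4 : 0 ≤ (L : ℝ) ^ δ * wd' μ s t := mul_nonneg (by positivity) (hwd t).le
    rw [e3] at e2
    have e5 := mul_le_mul_of_nonneg_right e1 e4
    have e6 := mul_le_mul_of_nonneg_right hδx (hwd t).le
    linarith
  have hz30 : ∀ k < Kl, (2 : ℝ) ^ k * I.card ≤ (L : ℝ) ^ (-(30 * β)) * wd' μ s t := by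
    intro k hk
    have e1 := hzk k hk
    have e2 : (L : ℝ) ^ (-(30 * β)) = (x ^ 30)⁻¹ := by
      rw [Real.rpow_neg hL0.le, hpw]
      congr 2
      push_cast
      ring
    rw [e2]
    have e3 : x ≤ x ^ 30 := by
      calc x = x ^ 1 := (pow_one _).symm
        _ ≤ x ^ 30 := pow_le_pow_right₀ hx1 (by norm_num)
    have e4 : x * wd' μ s t ≤ x ^ 30 * wd' μ s t := mul_le_mul_of_nonneg_right e3 (hwd t).le
    have e5 : (2 : ℝ) ^ k * I.card * x ^ 60 = (2 ^ k * I.card * x ^ 30) * x ^ 30 := by ring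
    have e6 : 0 < x ^ 30 := by positivity
    have e7 : (2 : ℝ) ^ k * I.card * x ^ 30 ≤ wd' μ s t := by
      have : (2 ^ k * I.card * x ^ 30) * x ^ 30 ≤ wd' μ s t * x ^ 30 := by
        rw [← e5]
        linarith
      exact le_of_mul_le_mul_right this e6
    rw [inv_mul_eq_div, le_div_iff₀ e6]
    exact e7
  have hD : ∀ k < Kl, 64 * (2 ^ k * I.card) ≤ 2 ^ e0 := by
    intro k hk
    have e1 := hz30 k hk
    have e2 : (64 : ℝ) * (2 ^ k * I.card) ≤ 2 ^ e0 := by linarith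
    exact_mod_cast e2
  have hw : ∀ k < Kl, 2 * w + 4 * (((2 ^ k : ℕ) : ℝ) * I.card) ≤ min (sl μ s) (1 - sl μ s) * t := by
    intro k hk
    have e1 : (64 : ℝ) * (((2 ^ k : ℕ) : ℝ) * I.card) ≤ (2 : ℝ) ^ e0 := by exact_mod_cast hD k hk
    have e2 : (0 : ℝ) ≤ ((2 ^ k : ℕ) : ℝ) * I.card := by positivity
    linarith
  -- the responses
  have hKz : ((2 ^ Kl : ℕ) : ℝ) * I.card ≤ 2 * (x * wd' μ s t) := by
    rcases Nat.eq_zero_or_pos Kl with h0 | h0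
    · rw [h0, pow_zero, Nat.cast_one, one_mul]
      have e6 := mul_le_mul_of_nonneg_right hδx (hwd t).le
      have : 0 ≤ x * wd' μ s t := mul_nonneg hx0.le (hwd t).le
      linarith
    · have e1 := hzk (Kl - 1) (by omega)
      have e2 : ((2 ^ Kl : ℕ) : ℝ) = 2 * 2 ^ (Kl - 1) := by
        push_cast
        rw [← pow_succ', show Kl - 1 + 1 = Kl by omega]
      have e3 : (2 : ℝ) ^ (Kl - 1) * I.card ≤ 2 ^ (Kl - 1) * I.card * x ^ 60 :=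
        le_mul_of_one_le_right (by positivity) hT1
      rw [e2]
      linarith
  have hwK : w + ((2 ^ Kl : ℕ) : ℝ) * I.card ≤ (L : ℝ) ^ dR * wd' μ s t := by
    have e1 : w ≤ x * wd' μ s t := w7
    obtain ⟨-, e2, -⟩ := hLd L g9
    have e3 : x ≤ (L : ℝ) ^ (dR / 2) := Real.rpow_le_rpow_of_exponent_le hLR hβ2
    have e4 : (L : ℝ) ^ dR = (L : ℝ) ^ (dR / 2) * (L : ℝ) ^ (dR / 2) := by
      rw [← Real.rpow_add hL0]
      congr 1
      ring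
    have e5 : 3 * x ≤ (L : ℝ) ^ dR := by
      rw [e4]
      exact mul_le_mul e2 e3 hx0.le (by positivity)
    have e6 := mul_le_mul_of_nonneg_right e5 (hwd t).le
    linarith
  have hIL : (I.card : ℝ) ≤ L := by
    have e1 := Finset.card_le_card hI
    unfold Core at e1
    rw [Nat.card_Ico] at e1
    exact_mod_cast (by omega : I.card ≤ L)
  have hRA : law μ {η | ¬ RA μ s L t τ B I w A (2 ^ Kl) η} ≤ ENNReal.ofReal p := by
    refine (ra_prob hwK hR).trans (ENNReal.ofReal_le_ofReal ?_)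
    have e1 : ((2 ^ Kl : ℕ) : ℝ) ≤ 2 * L := by
      push_cast
      exact k3
    have e2 : (B : ℝ) ≤ L := by exact_mod_cast hBL
    have e3 : ((2 ^ Kl : ℕ) : ℝ) * I.card ≤ 2 * L * L := mul_le_mul e1 hIL hz0 (by positivity)
    have e4 : 2 * (2 * (L : ℝ) + ((2 ^ Kl : ℕ) : ℝ) * I.card) + 1 ≤ 9 * (L : ℝ) ^ 2 := by
      have e40 : (L : ℝ) ≤ L * L := le_mul_of_one_le_right hL0.le hLR
      rw [pow_two]
      linarith
    have e5 : 2 * ((2 ^ Kl : ℕ) : ℝ) + 1 ≤ 5 * L := by linarith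
    have e6 : (B : ℝ) * (2 * (2 * (L : ℝ) + ((2 ^ Kl : ℕ) : ℝ) * I.card) + 1) * (2 * ((2 ^ Kl : ℕ) : ℝ) + 1) ≤
        (L : ℝ) * (9 * (L : ℝ) ^ 2) * (5 * L) := by
      refine mul_le_mul (mul_le_mul e2 e4 (by positivity) (by positivity)) e5 (by positivity) (by positivity)
    have e7 : (L : ℝ) * (9 * (L : ℝ) ^ 2) * (5 * L) ≤ (L : ℝ) ^ 5 := by
      have : (L : ℝ) * (9 * (L : ℝ) ^ 2) * (5 * L) = 45 * (L : ℝ) ^ 4 := by ring
      rw [this]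
      calc 45 * (L : ℝ) ^ 4 ≤ L * (L : ℝ) ^ 4 := mul_le_mul_of_nonneg_right hL45 (by positivity)
        _ = (L : ℝ) ^ 5 := by ring
    calc (B : ℝ) * (2 * (2 * (L : ℝ) + ((2 ^ Kl : ℕ) : ℝ) * I.card) + 1) * (2 * ((2 ^ Kl : ℕ) : ℝ) + 1) *
          Real.exp (-(L : ℝ) ^ cR) ≤ (L : ℝ) ^ 5 * Real.exp (-(L : ℝ) ^ cm) :=
          mul_le_mul (e6.trans e7) ecR (Real.exp_pos _).le (by positivity)
      _ ≤ p := hPE'
  -- the separation
  have hSep : ∀ k < Kl, ∀ (k₀ k₁ : ℕ) (V : ℕ → ℤ), VOK t τ N k₀ k₁ (2 ^ k) I V →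
      P2 μ s N y (pat t τ I V) (fun _ S S' => ¬ SepOK N t τ k₀ k₁ e0 E (pat t τ I V) S S') ≤ ENNReal.ofReal p := by
    intro k hk k₀ k₁ V hV
    have hsv : ∀ i, |sv (pat t τ I V) 0 i| ≤ 2 ^ e0 := by
      intro i
      have e1 := hV.svb i
      have e2 : ((2 ^ k : ℕ) : ℤ) * I.card ≤ 2 ^ e0 := by
        have := hD k hk
        have e3 : 2 ^ k * I.card ≤ 2 ^ e0 := by omega
        exact_mod_cast e3
      exact e1.trans e2
    have e1 : P2 μ s N y (pat t τ I V) (fun _ S S' => ¬ SepOK N t τ k₀ k₁ e0 E (pat t τ I V) S S') ≤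
        P2 μ s N y (pat t τ I V) (fun _ S S' => ¬ NSp μ s L N ε₁ S ∨ (¬ NSp μ s L N ε₁ S' ∨ Close μ s L N ε₁ (pat t τ I V) S S')) := by
      refine A12.P2_mono' fun η S S' hS hS' _ _ h2 => ?_
      by_contra hcon
      rw [not_or, not_or, not_not, not_not] at hcon
      exact h2 (w13 τ k₀ k₁ _ S S' hS hS' hsv hcon.1 hcon.2.1 hcon.2.2)
    refine e1.trans ?_
    refine (A12.P2_or _ _ _).trans ?_
    have e2 : P2 μ s N y (pat t τ I V) (fun _ S _ => ¬ NSp μ s L N ε₁ S) ≤ ENNReal.ofReal (Real.exp (-(L : ℝ) ^ cm)) := by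
      rw [P2_fst hy0 hyN (pat t τ I V) (fun _ S => ¬ NSp μ s L N ε₁ S)]
      exact hns.trans (ENNReal.ofReal_le_ofReal ecn)
    have e3 : P2 μ s N y (pat t τ I V) (fun _ _ S' => ¬ NSp μ s L N ε₁ S') ≤ ENNReal.ofReal (Real.exp (-(L : ℝ) ^ cm)) := by
      rw [P2_snd hy0 hyN (pat t τ I V) (fun _ S => ¬ NSp μ s L N ε₁ S)]
      exact hns.trans (ENNReal.ofReal_le_ofReal ecn)
    have e4 : P2 μ s N y (pat t τ I V) (fun _ S S' => Close μ s L N ε₁ (pat t τ I V) S S') ≤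
        ENNReal.ofReal (Real.exp (-(L : ℝ) ^ cm)) :=
      (hfr _ hV.svN).trans (ENNReal.ofReal_le_ofReal ecf)
    have e5 := (A12.P2_or (μ := μ) (N := N) (y := y) (pat t τ I V) (fun _ _ S' => ¬ NSp μ s L N ε₁ S')
      (fun _ S S' => Close μ s L N ε₁ (pat t τ I V) S S')).trans (add_le_add e3 e4)
    refine (add_le_add e2 e5).trans ?_
    rw [← ENNReal.ofReal_add hem.le hem.le, ← ENNReal.ofReal_add hem.le (by positivity)]
    exact ENNReal.ofReal_le_ofReal (by linarith)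
  -- the ties
  have hTie : ∀ k₀, TieIn μ s N y t τ k₀ n1 e0 E (x * q t) p := by
    intro k₀ b W hW' H M hM F hF' hoff
    refine (w10 τ k₀ b W hW' H M hM F hF' hoff).trans (add_le_add le_rfl ?_)
    exact ENNReal.ofReal_le_ofReal (by linarith)
  have hNn' : (B : ℝ) ≤ (x ^ 30) ^ Nn := by
    have e1 : 1 / (30 * β) ≤ Nn := Nat.le_ceil _
    rw [div_le_iff₀ (by positivity)] at e1
    rw [← pow_mul, hpw]
    have e2 : (B : ℝ) ≤ L := by exact_mod_cast hBL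
    calc (B : ℝ) ≤ L := e2
      _ = (L : ℝ) ^ (1 : ℝ) := (Real.rpow_one _).symm
      _ ≤ (L : ℝ) ^ (β * ((30 * Nn : ℕ) : ℝ)) := Real.rpow_le_rpow_of_exponent_le hLR (by push_cast; linarith)
  have hLl : (Nat.size L : ℝ) ≤ x ^ 13 := by
    refine f8.trans ?_
    calc x = x ^ 1 := (pow_one _).symm
      _ ≤ x ^ 13 := pow_le_pow_right₀ hx1 (by norm_num)
  have main := innZ (μ := μ) (s := s) h.md_nonneg h.md_le_nat (L := L) (N := N) (t := t) (τ := τ) (B := B) (Kl := Kl) (J := J) (N₀ := N₀) (Nn := Nn)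
    (e0 := e0) (E := E) (X := X) (n1 := n1) (I := I) (w := w) (A := A) (r := x * q t) (p := p) (lm := lm) (u := u)
    (x := x) (q := q t) hy0 hyN hNL ht hI hB1 hBL hkN w1 (fun k₀ b => w11 τ k₀ b) w2 hA (by positivity) hp0.le f4 f6 f1 w9
    hRA hw hD hTF hSep hTie hqt hx1 b1 b2 b3 b4 b5 b6 b7 b8 hLl k2 hNn' hm hbm
  have hend := f10 Kl B m X p k3 hBL (by omega) w3 hp0.le le_rfl
  -- the conclusion
  have hle : P1 μ s N y (fun η S => (L : ℝ) ^ ε * (Real.sqrt m + m * (A * q t)) * A <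
      |∑ b ∈ Ico b₀ (b₀ + m), Db μ s t τ I 1 η b 0 (pos S)|) ≠ ⊤ :=
    ne_top_of_le_ne_top ENNReal.one_ne_top (P1_le_one hy0 hyN _)
  refine (ENNReal.le_ofReal_iff_toReal_le hle (Real.exp_pos _).le).2 ?_
  refine le_trans ?_ (main.trans hend)
  refine (sp1 μ s N y).mono (E := {z : Env × Finset ℕ | (L : ℝ) ^ ε * (Real.sqrt m + m * (A * q t)) * A <
      |∑ b ∈ Ico b₀ (b₀ + m), Db μ s t τ I 1 z.1 b 0 (pos z.2)|}) fun z hz => ?_
  have e1 : (L : ℝ) ^ ε * (Real.sqrt m + m * (A * q t)) * A <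
      |∑ b ∈ Ico b₀ (b₀ + m), Db μ s t τ I 1 z.1 b 0 (pos z.2)| := hz
  have e2 : x ^ 66 ≤ (L : ℝ) ^ ε := by
    rw [hpw]
    refine Real.rpow_le_rpow_of_exponent_le hLR ?_
    push_cast
    linarith
  have e3 : 0 ≤ (Real.sqrt m + m * (A * q t)) * A := by positivity
  have e4 := mul_le_mul_of_nonneg_right e2 e3
  have e5 := b9 m
  show _ < |Xs 1 (Ico b₀ (b₀ + m)) (phi μ s t τ I z)|
  have e6 : Xs 1 (Ico b₀ (b₀ + m)) (phi μ s t τ I z) = ∑ b ∈ Ico b₀ (b₀ + m), Db μ s t τ I 1 z.1 b 0 (pos z.2) := rfl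
  rw [e6]
  refine lt_of_le_of_lt e5 (lt_of_le_of_lt ?_ e1)
  linarith

end Pool.Agent.W_7d29a1_HZ
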