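import Pool.Agent.W_7d29a1_HZ.Z74_URQ
import Pool.Agent.W_7d29a1_Z74.URNum
import Pool.Agent.W_7d29a1_HZ.Z74_Num74

/-!
MP_7d29a1_pr, STORM Z at every tilt, leaf UR (model: `W_7d29a1_Z74.UR74`): the response of one unit dislocation is at most `t ^ ε`, `P (0)`. The hypothesis is the statement of
the leaf NS (`NSp` is spelled out). (helper85, after helper74)
-/

set_option autoImplicit false

namespace Pool.Agent.W_7d29a1_HZ.Z74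

open Pool.Agent.W_7d29a1_F hiding W_pos W_nonneg W_add
open Finset MeasureTheory Filter Topology Pool.Agent.W_7d29a1_X Pool.Agent.W_7d29a1_HZ Pool.Agent.W_7d29a1_h4g Pool.Agent.W_7d29a1_H
open Pool.Agent.W_7d29a1_HS (In wd wd_lower wd_tendsto)
open Pool.Agent.W_7d29a1_Z74 (num_M num_cone1 num_BK)
open scoped ENNReal

noncomputable section

/-- The window is wide enough. -/
theorem num_Dm {m₀ Kv av ρ κ t r wr : ℝ} (hm : 0 < m₀) (hKv : 1 ≤ Kv) (hav : 0 < av) (ht1 : 1 ≤ t) (hr0 : 0 < r) (hr1 : t ^ ρ ≤ r)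
    (hr8 : 2 / m₀ ≤ r) (hκ1 : κ ≤ av * ρ / 2) (p3 : 2 * Kv / m₀ ≤ t ^ (av * ρ / 2)) (hwr : wr ≤ Kv * r ^ (-av) * r) :
    t ^ κ * wr + 1 ≤ m₀ * r := by
  have ht0 : 0 < t := by linarith
  have k3 : r ^ (-av) ≤ t ^ (-(av * ρ)) := by
    have k4 : (t ^ ρ) ^ av ≤ r ^ av := Real.rpow_le_rpow (by positivity) hr1 hav.le
    rw [Real.rpow_neg hr0.le, Real.rpow_neg ht0.le, mul_comm av, Real.rpow_mul ht0.le]
    exact inv_anti₀ (by positivity) k4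
  have k5 : t ^ κ * t ^ (-(av * ρ)) ≤ (t ^ (av * ρ / 2))⁻¹ := by
    rw [← Real.rpow_add ht0, ← Real.rpow_neg ht0.le]
    exact Real.rpow_le_rpow_of_exponent_le ht1 (by linarith)
  have k6 : Kv * (t ^ (av * ρ / 2))⁻¹ ≤ m₀ / 2 := by
    rw [← div_eq_mul_inv, div_le_iff₀ (by positivity)]
    rw [div_le_iff₀ hm] at p3
    linarith
  have k7 : t ^ κ * wr ≤ m₀ / 2 * r := by
    calc t ^ κ * wr ≤ t ^ κ * (Kv * r ^ (-av) * r) := mul_le_mul_of_nonneg_left hwr (by positivity)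
      _ ≤ t ^ κ * (Kv * t ^ (-(av * ρ)) * r) := by
        refine mul_le_mul_of_nonneg_left (mul_le_mul_of_nonneg_right (mul_le_mul_of_nonneg_left k3 (by linarith)) hr0.le)
          (by positivity)
      _ = Kv * (t ^ κ * t ^ (-(av * ρ))) * r := by ring
      _ ≤ Kv * (t ^ (av * ρ / 2))⁻¹ * r :=
        mul_le_mul_of_nonneg_right (mul_le_mul_of_nonneg_left k5 (by linarith)) hr0.le
      _ ≤ m₀ / 2 * r := mul_le_mul_of_nonneg_right k6 hr0.le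
  have k8 : 1 ≤ m₀ / 2 * r := by
    rw [div_le_iff₀ hm] at hr8
    linarith
  linarith

/-- The cone of `Rsp` is narrow. -/
theorem num_conem {m₀ Kv av δ t wt : ℝ} (ht64 : 64 / m₀ ≤ t) (ht1 : 1 ≤ t) (hm : 0 < m₀) (hδ2 : δ ≤ av / 2)
    (p5 : Kv * t ^ (1 - av / 2) ≤ m₀ / 64 * t) (hwt0 : 0 ≤ wt) (hwt : wt ≤ Kv * t ^ (-av) * t) :
    t ^ δ * wt + 1 ≤ m₀ * (t / 16) := by
  have ht0 : 0 < t := by linarith
  have k3 : t ^ δ ≤ t ^ (av / 2) := Real.rpow_le_rpow_of_exponent_le ht1 hδ2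
  have k4 : t ^ (1 - av / 2) = t ^ (av / 2) * t ^ (-av) * t := by
    rw [← Real.rpow_add ht0, ← Real.rpow_add_one ht0.ne']
    congr 1
    ring
  have k5 : t ^ δ * wt ≤ m₀ / 64 * t := by
    calc t ^ δ * wt ≤ t ^ (av / 2) * (Kv * t ^ (-av) * t) := mul_le_mul k3 hwt hwt0 (by positivity)
      _ = Kv * (t ^ (av / 2) * t ^ (-av) * t) := by ring
      _ ≤ m₀ / 64 * t := by rw [← k4]; exact p5
  rw [div_le_iff₀ hm] at ht64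
  linarith

variable {μ : Measure ℝ} {s : ℝ} [IsProbabilityMeasure μ] {c C : ℝ} {n₀ : ℕ}

/-- **P (0)** from the leaf NS. -/
theorem psg_zero (h : In μ s c C n₀) (hns : NSs μ s) : PSg μ s 0 := by
  intro ε hε
  obtain ⟨m₀, hm₀⟩ : ∃ m₀ : ℝ, m₀ = min (sl μ s) (1 - sl μ s) := ⟨_, rfl⟩
  have hm₀p : 0 < m₀ := by rw [hm₀]; exact lt_min h.sl_pos (sub_pos.2 h.sl_lt)
  obtain ⟨K₀, A₀, a₀, g₀, hK₀, hA₀, ha₀, hg₀, hg₀1, hBK⟩ := BK_prob h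
  obtain ⟨Kv, av, hKv, hav, hav1, hvA⟩ := vA_neg h
  obtain ⟨n₁, hwl⟩ := wd_lower h
  obtain ⟨n₂, hw1⟩ := (tendsto_atTop.1 (wd_tendsto h) 1).exists_forall_of_atTop
  obtain ⟨e₀, he₀⟩ : ∃ e₀ : ℝ, e₀ = min ε 1 := ⟨_, rfl⟩
  have he0 : 0 < e₀ := by rw [he₀]; exact lt_min hε one_pos
  have heε : e₀ ≤ ε := by rw [he₀]; exact min_le_left _ _
  have he1 : e₀ ≤ 1 := by rw [he₀]; exact min_le_right _ _
  obtain ⟨ρ, hρ⟩ : ∃ ρ : ℝ, ρ = e₀ / 8 := ⟨_, rfl⟩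
  have hρ0 : 0 < ρ := by rw [hρ]; positivity
  have hρ1 : ρ ≤ 1 / 8 := by rw [hρ]; linarith
  obtain ⟨κ, hκ⟩ : ∃ κ : ℝ, κ = min (av * ρ / 2) (ρ / K₀) := ⟨_, rfl⟩
  have hκ0 : 0 < κ := by rw [hκ]; exact lt_min (by positivity) (by positivity)
  have hκ1 : κ ≤ av * ρ / 2 := by rw [hκ]; exact min_le_left _ _
  have hκ2 : κ ≤ ρ / K₀ := by rw [hκ]; exact min_le_right _ _
  have hκ2' : κ * K₀ ≤ ρ := by rwa [le_div_iff₀ (by linarith)] at hκ2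
  have hκ3 : κ ≤ ρ := hκ2.trans (div_le_self hρ0.le hK₀)
  obtain ⟨δ₁, c₁, hδ₁, hc₁, L₀, hns'⟩ := hns κ hκ0
  obtain ⟨δ, hδ⟩ : ∃ δ : ℝ, δ = min (δ₁ / 2) (av / 2) := ⟨_, rfl⟩
  have hδ0 : 0 < δ := by rw [hδ]; exact lt_min (by positivity) (by positivity)
  have hδ1 : δ ≤ δ₁ / 2 := by rw [hδ]; exact min_le_left _ _
  have hδ2 : δ ≤ av / 2 := by rw [hδ]; exact min_le_right _ _
  obtain ⟨cc, hcc⟩ : ∃ cc : ℝ, cc = min c₁ (κ * g₀) / 2 := ⟨_, rfl⟩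
  have hm0 : 0 < min c₁ (κ * g₀) := lt_min hc₁ (by positivity)
  have hcc0 : 0 < cc := by rw [hcc]; linarith
  have hcc1 : cc < c₁ := by
    have := min_le_left c₁ (κ * g₀)
    rw [hcc]
    linarith
  have hcc2 : cc < κ * g₀ := by
    have := min_le_right c₁ (κ * g₀)
    rw [hcc]
    linarith
  have hE1 : 0 < EE μ s 1 := lt_of_lt_of_le one_pos (one_le_EE 1)
  -- the large times
  have hev : ∀ᶠ t : ℕ in atTop, (L₀ ≤ t ∧ 64 ≤ t ∧ 16 * n₁ ≤ t ∧ 16 * n₂ ≤ t) ∧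
      ((n₂ : ℝ) + 8 + 2 / m₀ ≤ (t : ℝ) ^ ρ ∧ 128 * (t : ℝ) ^ ρ ≤ 1 * (t : ℝ) ^ (1 : ℝ)) ∧
      (2 * Kv / m₀ ≤ (t : ℝ) ^ (av * ρ / 2) ∧ 33 ≤ (t : ℝ) ^ (δ₁ / 2) ∧
        Kv * (t : ℝ) ^ (1 - av / 2) ≤ m₀ / 64 * (t : ℝ) ^ (1 : ℝ) ∧ 64 / m₀ ≤ (t : ℝ) ^ (1 : ℝ)) ∧
      (((K₀ * 2 ^ K₀ + 2) * 2 * EE μ s 1 + 1) * (t : ℝ) ^ (2 * ρ) ≤ 1 * (t : ℝ) ^ ε) ∧
      (100 * A₀ * (t : ℝ) ^ (3 : ℝ) * Real.exp (-(a₀ * (t : ℝ) ^ (κ * g₀))) ≤ 1 / 2 * Real.exp (-(t : ℝ) ^ cc)) ∧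
      (64 * (t : ℝ) ^ (3 : ℝ) * Real.exp (-(1 * (t : ℝ) ^ c₁)) ≤ 1 / 2 * Real.exp (-(t : ℝ) ^ cc)) := by
    refine ((eventually_ge_atTop L₀).and ((eventually_ge_atTop 64).and ((eventually_ge_atTop (16 * n₁)).and
      (eventually_ge_atTop (16 * n₂))))).and (((ev_pow hρ0 _).and (ev_pow_le (by linarith) one_pos)).and
      (((ev_pow (by positivity) _).and ((ev_pow (by positivity) _).and ((ev_pow_le (by linarith) (by positivity)).and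
        (ev_pow one_pos _)))).and
      ((ev_pow_le (by linarith) one_pos).and ((ev_exp (by positivity) ha₀ (by positivity) hcc2 3).and
      (ev_exp (by norm_num) one_pos hc₁ hcc1 3)))))
  obtain ⟨t₀, ht₀⟩ := hev.exists_forall_of_atTop
  refine ⟨δ, cc, hδ0, hcc0, t₀, fun t ht => ?_⟩
  obtain ⟨⟨s1, s2, s3, s4⟩, ⟨p1, p2⟩, ⟨p3, p4, p5, p9⟩, p6, p7, p8⟩ := ht₀ t ht
  clear hev ht₀ hns
  rw [one_mul, Real.rpow_one] at p2
  rw [Real.rpow_one] at p5 p9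
  rw [one_mul] at p6 p8
  have htr : (64 : ℝ) ≤ t := by exact_mod_cast s2
  have ht0 : (0 : ℝ) < t := by linarith
  have ht1 : (1 : ℝ) ≤ t := by linarith
  -- the pattern
  refine ⟨{t / 2}, ?_, ?_, ?_, ?_⟩
  · rw [singleton_subset_iff]
    unfold Core
    rw [mem_Ico]
    omega
  · rw [card_singleton, Nat.cast_one, mul_zero, zero_sub]
    exact Real.rpow_le_one_of_one_le_of_nonpos ht1 (by linarith)
  · rw [card_singleton, Nat.cast_one, mul_zero, Real.rpow_zero]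
  -- the window
  obtain ⟨r, hr⟩ : ∃ r : ℕ, r = ⌈(t : ℝ) ^ ρ⌉₊ := ⟨_, rfl⟩
  have hr1 : (t : ℝ) ^ ρ ≤ r := by rw [hr]; exact Nat.le_ceil _
  have hr2 : (r : ℝ) ≤ 2 * (t : ℝ) ^ ρ := by
    have h1 : (r : ℝ) < (t : ℝ) ^ ρ + 1 := by rw [hr]; exact Nat.ceil_lt_add_one (by positivity)
    have h2 : (1 : ℝ) ≤ (t : ℝ) ^ ρ := Real.one_le_rpow ht1 hρ0.le
    linarith
  have hm2 : 0 < 2 / m₀ := by positivity
  have hrn : n₂ ≤ r := by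
    have : (n₂ : ℝ) ≤ r := by linarith
    exact_mod_cast this
  have hr8 : (8 : ℝ) ≤ r := by
    have : (0 : ℝ) ≤ n₂ := Nat.cast_nonneg _
    linarith
  have hr9 : 2 / m₀ ≤ r := by
    have : (0 : ℝ) ≤ n₂ := Nat.cast_nonneg _
    linarith
  have hr0 : (0 : ℝ) < r := by linarith
  have hr1' : 1 ≤ r := by
    have : (1 : ℝ) ≤ r := by linarith
    exact_mod_cast this
  have hrt' : (32 : ℝ) * r ≤ t := by linarith
  have hrt : 32 * r ≤ t := by exact_mod_cast hrt'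
  have hwr : 1 ≤ wd μ s r := hw1 r hrn
  have hwr' : wd' μ s r = wd μ s r := max_eq_right hwr
  have htκ : 1 ≤ (t : ℝ) ^ κ := Real.one_le_rpow ht1 hκ0.le
  have hR1 : 1 ≤ 2 * (t : ℝ) ^ κ := by linarith
  have g1 : (t : ℝ) ^ κ * wd' μ s r + 1 ≤ 2 * (t : ℝ) ^ κ * wd μ s r := by
    rw [hwr']
    have := one_le_mul_of_one_le_of_one_le htκ hwr
    linarith
  have g2 : (t : ℝ) ^ κ * wd' μ s r + 1 ≤ min (sl μ s) (1 - sl μ s) * r := by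
    rw [hwr', ← hm₀]
    refine num_Dm hm₀p hKv hav ht1 hr0 hr1 hr9 hκ1 p3 ?_
    unfold wd
    rw [mul_comm]
    exact mul_le_mul_of_nonneg_right (hvA r hr1') hr0.le
  have hEr : 0 < EE μ s r := lt_of_lt_of_le one_pos (one_le_EE r)
  have hM : 0 ≤ (K₀ * (2 * (t : ℝ) ^ κ) ^ K₀ + 2 * (t : ℝ) ^ κ) * EE μ s r := by positivity
  have g3 : (K₀ * (2 * (t : ℝ) ^ κ) ^ K₀ + 2 * (t : ℝ) ^ κ) * EE μ s r + Real.log 2 ≤ (t : ℝ) ^ (0 + ε) := by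
    rw [zero_add]
    exact (num_M hK₀ ht1 hρ0 hκ2' hκ3 hEr hE1 ((EE_lin h hr1').trans (mul_le_mul_of_nonneg_right hr2 hE1.le))).trans p6
  -- the cone
  have g4 : ∀ N : ℕ, t ≤ 16 * N → N ≤ t → (t : ℝ) ^ δ * wd μ s t + 1 ≤ (t : ℝ) ^ δ₁ * wd' μ s N := by
    intro N hN1 hN2
    have hN1' : (t : ℝ) ≤ 16 * N := by exact_mod_cast hN1
    have hwN : 1 ≤ wd μ s N := hw1 N (by omega)
    have hwN' : wd' μ s N = wd μ s N := max_eq_right hwN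
    rw [hwN']
    have := num_cone1 ht1 hδ0 hδ1 p4 (by linarith) hN1' hwN (hwl N t (by omega) hN2)
    linarith
  have g5 : (t : ℝ) ^ δ * wd μ s t + 1 ≤ min (sl μ s) (1 - sl μ s) * ((t : ℝ) / 16) := by
    rw [← hm₀]
    refine num_conem p9 ht1 hm₀p hδ2 p5 (by linarith [hw1 t (by omega)]) ?_
    unfold wd
    rw [mul_comm]
    exact mul_le_mul_of_nonneg_right (hvA t (by omega)) ht0.le
  -- the events
  unfold Rsp
  have hold : {η | ∃ u u' : ℕ, t ≤ 16 * (u' - u) ∧ u ≤ u' ∧ u' ≤ t ∧ ∃ y : ℤ,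
      |(y : ℝ) - sl μ s * ((u' : ℝ) - u)| ≤ (t : ℝ) ^ δ * wd μ s t ∧ (t : ℝ) ^ (0 + ε) <
      |fk μ s (pat t 0 {t / 2} fun _ => 1) η u u' 0 y - fk μ s 0 η u u' 0 y|} ⊆ _ :=
    rsp_subset (μ := μ) (s := s) (K := K₀) (R := 2 * (t : ℝ) ^ κ) (H := t + 1) (r := r) (k₀ := t / 2)
      (D := (t : ℝ) ^ κ * wd' μ s r) (w := (t : ℝ) ^ δ * wd μ s t)
      (by omega) (by push_cast; omega) g1 g2 hM hrt (by rw [← hm₀]; exact hm₀p.le) g5 g3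
  refine (measure_mono (Set.Subset.trans (fun η hη => ?_) hold)).trans ((measure_union_le _ _).trans ?_)
  · obtain ⟨u, u', h1, h2, h3, y, h4⟩ := hη
    exact ⟨u, u', by omega, by omega, h3, y, h4⟩
  have f1 : law μ (BK μ s K₀ (2 * (t : ℝ) ^ κ) (t + 1) r)ᶜ ≤ ENNReal.ofReal (1 / 2 * Real.exp (-(t : ℝ) ^ cc)) := by
    rw [← ENNReal.ofReal_toReal (measure_ne_top (law μ) (BK μ s K₀ (2 * (t : ℝ) ^ κ) (t + 1) r)ᶜ)]
    refine ENNReal.ofReal_le_ofReal (num_BK hA₀ ha₀ hg₀ htr rfl hr0 hrt' ?_ p7)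
    have := hBK r hr1' (t + 1) (2 * (t : ℝ) ^ κ) hR1
    push_cast at this
    exact this
  have f2 := union_QQ (μ := μ) (s := s) (t := t) (k₀ := t / 2) (r := r) (D := (t : ℝ) ^ κ * wd' μ s r) (w := (t : ℝ) ^ δ * wd μ s t)
    (Real.exp_pos (-(t : ℝ) ^ c₁)).le fun u u' y =>
      law_QQ hr1' rfl (fun N hN1 hN2 y' hy0 hy1 hy => hns' t s1 N hN1 hN2 y' hy0 hy1 hy) g4 (by rw [← hm₀]; exact hm₀p.le) g5 u u' y
  have f3 : ((t : ℝ) + 1) ^ 3 * (8 * Real.exp (-(t : ℝ) ^ c₁)) ≤ 1 / 2 * Real.exp (-(t : ℝ) ^ cc) := by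
    refine le_trans ?_ p8
    have k5 : (t : ℝ) ^ (3 : ℝ) = (t : ℝ) ^ 3 := by
      rw [← Real.rpow_natCast]
      norm_num
    rw [k5]
    have k6 : ((t : ℝ) + 1) ^ 3 ≤ 8 * (t : ℝ) ^ 3 := by
      have : (t : ℝ) + 1 ≤ 2 * t := by linarith
      calc ((t : ℝ) + 1) ^ 3 ≤ (2 * t) ^ 3 := pow_le_pow_left₀ (by positivity) this 3
        _ = 8 * (t : ℝ) ^ 3 := by ring
    calc ((t : ℝ) + 1) ^ 3 * (8 * Real.exp (-(t : ℝ) ^ c₁)) ≤ 8 * (t : ℝ) ^ 3 * (8 * Real.exp (-(t : ℝ) ^ c₁)) :=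
          mul_le_mul_of_nonneg_right k6 (by positivity)
      _ = 64 * (t : ℝ) ^ 3 * Real.exp (-(t : ℝ) ^ c₁) := by ring
  refine (add_le_add f1 (f2.trans (ENNReal.ofReal_le_ofReal f3))).trans (le_of_eq ?_)
  rw [← ENNReal.ofReal_add (by positivity) (by positivity)]
  congr 1
  ring

end

end Pool.Agent.W_7d29a1_HZ.Z74
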