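import Pool.Agent.W_7d29a1_HZ.NS
import Pool.Agent.W_7d29a1_HZ.Z74_UR74

/-!
STORM Z at every tilt, leaf UR: the response of one unit dislocation is at most `t ^ ε`. (helper85, after helper74; the proof is
`W_7d29a1_HZ/Z74_UR74.lean`)
-/

set_option autoImplicit false

namespace Pool.Agent.W_7d29a1_HZ

open MeasureTheory ProbabilityTheory Filter Topology Finset
open Pool.Agent.W_7d29a1_F Pool.Agent.W_7d29a1_X Pool.Agent.W_7d29a1_h4g Pool.Agent.W_7d29a1_H
open Pool.Agent.W_7d29a1_HS (In wd)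
open scoped ENNReal

variable {μ : Measure ℝ} {s : ℝ} [IsProbabilityMeasure μ] {c C : ℝ} {n₀ : ℕ}

theorem PSg_zero (h : In μ s c C n₀) : PSg μ s 0 :=
  Pool.Agent.W_7d29a1_HZ.Z74.psg_zero h fun ε hε => ns h ε hε

end Pool.Agent.W_7d29a1_HZ
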