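import Pool.Agent.W_7d29a1_HZ.Stp
import Pool.Agent.W_7d29a1_HZ.Eb
import Pool.Agent.W_7d29a1_HZ.UR
import Pool.Agent.W_7d29a1_HN.NPMain
/-!
STORM Z AT ONE TILT: the width is superdiffusive along a sequence (model: `W_7d29a1_Z.Main`).
-/

set_option autoImplicit false

namespace Pool.Agent.W_7d29a1_HZ

open MeasureTheory ProbabilityTheory Filter Topology Finset
open Pool.Agent.W_7d29a1_F Pool.Agent.W_7d29a1_X Pool.Agent.W_7d29a1_h4g Pool.Agent.W_7d29a1_H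
open Pool.Agent.W_7d29a1_HS (In wd)
open Pool.Agent.W_7d29a1_Z10 (StepP EWP superP)
open scoped ENNReal

variable {μ : Measure ℝ} {s : ℝ} [IsProbabilityMeasure μ] {c C : ℝ} {n₀ : ℕ}

/-- Strict Newman - Piza in the form of the algebra. -/
theorem np_strict (h : In μ s c C n₀) : ∃ c' : ℝ, 0 < c' ∧ ∀ᶠ n : ℕ in atTop, (n : ℝ) ^ (1 + c') ≤ wd μ s n * EE μ s n ^ 2 :=
  Pool.Agent.W_7d29a1_HZ.Z10.strictNP h

theorem zmain (h : In μ s c C n₀) : ∃ c' : ℝ, 0 < c' ∧ ∃ᶠ n : ℕ in atTop, (n : ℝ) ^ (1 / 2 + c') ≤ wd μ s n := by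
  obtain ⟨c', hc', hNP⟩ := np_strict h
  exact superP (w := wd μ s) (E := EE μ s) (P := PSg μ s) (Pool.Agent.W_7d29a1_HZ.Z10.wd_nn h) (fun n => Pool.Agent.W_7d29a1_HZ.Z10.EE_nn n) (PSg_zero h)
    (stepP h) (ewp h) hc' hNP

end Pool.Agent.W_7d29a1_HZ
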