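import Pool.Agent.W_7d29a1_HZ.NT72
/-!
STORM Z, OneP: the probability of the bad events of the depth. (helper74)
-/

set_option autoImplicit false

namespace Pool.Agent.W_7d29a1_HZ.Z74

open MeasureTheory ProbabilityTheory Filter Topology Finset
open Pool.Agent.W_7d29a1_F Pool.Agent.W_7d29a1_X Pool.Agent.W_7d29a1_h4g Pool.Agent.W_7d29a1_H Pool.Agent.W_7d29a1_HZ Pool.Agent.W_7d29a1_HZ.R72
open Pool.Agent.W_7d29a1_HZ.Z86 (sp1 sp2 Wd)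
open Pool.Agent.W_7d29a1_HS (md)
open scoped ENNReal

variable {μ : Measure ℝ} {s : ℝ}

theorem P2_ex_le {ι : Type*} (F : Finset ι) {N : ℕ} {y : ℤ} {v : ℕ → ℤ} (A : ι → Env → Finset ℕ → Finset ℕ → Prop)
    {c : ℝ≥0∞} (h : ∀ i ∈ F, P2 μ s N y v (A i) ≤ c) : P2 μ s N y v (fun η S S' => ∃ i ∈ F, A i η S S') ≤ F.card * c := by
  refine (Pool.Agent.W_7d29a1_HZ.P2_exists F A).trans ?_
  refine (Finset.sum_le_card_nsmul F _ c h).trans ?_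
  rw [nsmul_eq_mul]

theorem P2_and_le {N : ℕ} {y : ℤ} {v : ℕ → ℤ} {C : Prop} {A : Env → Finset ℕ → Finset ℕ → Prop} {c : ℝ≥0∞}
    (h : C → P2 μ s N y v A ≤ c) : P2 μ s N y v (fun η S S' => C ∧ A η S S') ≤ c := by
  by_cases hC : C
  · refine le_trans (Pool.Agent.W_7d29a1_HZ.P2_mono fun η S _ S' _ _ _ hx => hx.2) (h hC)
  · have e : (fun (η : Env) (S S' : Finset ℕ) => C ∧ A η S S') = fun _ _ _ => False := by
      funext η S S'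
      exact propext ⟨fun hx => hC hx.1, False.elim⟩
    rw [e, Pool.Agent.W_7d29a1_HZ.Z86.P2_empty]
    simp

/-- The index set of the bad events at the junction `b`. -/
noncomputable def IdxD (L N t τ k₀ e0 E : ℕ) (n1 : ℕ → ℕ) (b : ℕ) : Finset ((ℕ × ℕ) × (ℕ × ℕ) × (ℕ × ℕ × Finset ℕ) × (ℤ × ℤ)) :=
  (range (L + 1) ×ˢ range (L + 1)) ×ˢ (range (L + 1) ×ˢ range (L + 1)) ×ˢ (Wd N t τ k₀ n1 e0 E b) ×ˢ
    (({1, -1} : Finset ℤ) ×ˢ Icc (-(2 * (L : ℤ))) (2 * L))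

theorem card_IdxD {L N t τ k₀ e0 E X : ℕ} {n1 : ℕ → ℕ} {b : ℕ} (hX : (Wd N t τ k₀ n1 e0 E b).card ≤ X) :
    ((IdxD L N t τ k₀ e0 E n1 b).card : ℝ) ≤ 8 * ((L : ℝ) + 1) ^ 5 * X := by
  have e1 : ((Icc (-(2 * (L : ℤ))) (2 * L)).card : ℝ) = 4 * L + 1 := by
    rw [Int.card_Icc]
    have : ((2 * (L : ℤ) + 1 - -(2 * (L : ℤ))).toNat) = 4 * L + 1 := by omega
    rw [this]
    push_cast
    ring
  have e2 : (({1, -1} : Finset ℤ).card : ℝ) = 2 := by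
    have : ({1, -1} : Finset ℤ).card = 2 := rfl
    rw [this]
    norm_num
  have hX' : ((Wd N t τ k₀ n1 e0 E b).card : ℝ) ≤ X := by exact_mod_cast hX
  unfold IdxD
  rw [card_product, card_product, card_product, card_product, card_product, card_product, card_range]
  push_cast
  rw [e1, e2]
  have h0 : (0 : ℝ) ≤ L := by positivity
  have h1 : ((L : ℝ) + 1) * (L + 1) * ((L + 1) * (L + 1) * ((Wd N t τ k₀ n1 e0 E b).card * (2 * (4 * L + 1)))) =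
      ((L : ℝ) + 1) ^ 4 * (8 * L + 2) * (Wd N t τ k₀ n1 e0 E b).card := by ring
  rw [h1]
  have h2 : ((L : ℝ) + 1) ^ 4 * (8 * L + 2) ≤ 8 * ((L : ℝ) + 1) ^ 5 := by
    have : ((L : ℝ) + 1) ^ 4 * (8 * L + 2) ≤ ((L : ℝ) + 1) ^ 4 * (8 * (L + 1)) := by gcongr; linarith
    refine this.trans (le_of_eq ?_)
    ring
  exact mul_le_mul h2 hX' (by positivity) (by positivity)

/-- One bad event. -/
def EvD (μ : Measure ℝ) (s : ℝ) (N t τ : ℕ) (I : Finset ℕ) (V : ℕ → ℤ) (lm : ℝ)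
    (i : (ℕ × ℕ) × (ℕ × ℕ) × (ℕ × ℕ × Finset ℕ) × (ℤ × ℤ)) (η : Env) (S S' : Finset ℕ) : Prop :=
  ((i.2.1.1 ≤ i.2.1.2 ∧ i.2.1.2 ≤ N) ∧ (i.2.2.2.1 = 1 ∨ i.2.2.2.1 = -1) ∧ (∀ k ∈ i.2.2.1.2.2, i.2.1.1 < k ∧ k < i.2.1.2) ∧
      (∀ k ∈ i.2.2.1.2.2, sv (pat t τ I V) 0 k = sv (pat t τ I V) 0 i.2.2.1.2.1) ∧
      Pcs (pat t τ I V) i.2.1.1 i.2.1.2 i.2.2.1.2.2
        (Qp t τ i.1.1 i.1.2 (qlo t τ i.2.2.1.2.2 i.1.1 i.2.1.1) (qhi t τ i.2.2.1.2.2 i.1.2 i.2.1.2))) ∧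
    BadDepth μ s (pat t τ I V) i.2.1.1 i.2.1.2 i.2.2.1.2.2 (sv (pat t τ I V) 0 i.2.2.1.2.1)
      (Qp t τ i.1.1 i.1.2 (qlo t τ i.2.2.1.2.2 i.1.1 i.2.1.1) (qhi t τ i.2.2.1.2.2 i.1.2 i.2.1.2)) i.2.2.2.1 i.2.2.2.2
      ((2 ^ (i.2.2.1.1 + 3) : ℕ) : ℤ) lm η S S'

theorem EvD_le [IsProbabilityMeasure μ] {N t τ : ℕ} {I : Finset ℕ} {V : ℕ → ℤ} {lm : ℝ} {y : ℤ} (h0 : 0 ≤ y) (h1 : y ≤ N)
    (hlm : 0 ≤ lm) (i : (ℕ × ℕ) × (ℕ × ℕ) × (ℕ × ℕ × Finset ℕ) × (ℤ × ℤ)) :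
    P2 μ s N y (pat t τ I V) (EvD μ s N t τ I V lm i) ≤ ENNReal.ofReal (3 * Real.exp (-lm)) := by
  refine P2_and_le fun hc => ?_
  obtain ⟨⟨c1, c2⟩, c3, c4, c5, c6⟩ := hc
  exact depth h0 h1 _ c1 c2 c4 c5 c6 c3 _ _ hlm

theorem badD_sub {L N t τ k₀ k₁ e0 E : ℕ} {n1 : ℕ → ℕ} {I : Finset ℕ} {V : ℕ → ℤ} (hN : N ≤ L) (hk₁ : k₁ ≤ L)
    (hE : 2 ^ (E + 3) ≤ L) (hm0 : ∀ j, 0 ≤ md μ s j) (hm1 : ∀ j, md μ s j ≤ j) {lm : ℝ} {η : Env} {S S' : Finset ℕ} (h : (η, S, S') ∈ BadD μ s N t τ k₀ k₁ e0 E n1 I V lm) :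
    ∃ b ∈ range (L + 1), ∃ i ∈ IdxD L N t τ k₀ e0 E n1 b, EvD μ s N t τ I V lm i η S S' := by
  obtain ⟨l, r, b, a, b', -, hlr, hr, -, hb, hab, hbN, W, hW, sg, Y, s₀, hsg, hY, hJ, hs, hP, hB⟩ := h
  have hWm := Pool.Agent.W_7d29a1_HZ.Z86.mem_Wd.1 hW
  obtain ⟨-, hWE, -, hj, hrow, -⟩ := hWm
  have hs0 : s₀ = sv (pat t τ I V) 0 W.2.1 := (hs _ hj).symm
  subst hs0
  refine ⟨b, by rw [mem_range]; omega, ((l, r), (a, b'), W, (sg, Y)), ?_, ?_⟩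
  · unfold IdxD
    rw [mem_product, mem_product, mem_product, mem_product, mem_product, mem_product]
    refine ⟨⟨by rw [mem_range]; show l < L + 1; omega, by rw [mem_range]; show r < L + 1; omega⟩,
      ⟨by rw [mem_range]; show a < L + 1; omega, by rw [mem_range]; show b' < L + 1; omega⟩, hW, ?_, ?_⟩
    · show sg ∈ ({1, -1} : Finset ℤ)
      rw [mem_insert, mem_singleton]
      exact hsg
    · show Y ∈ Icc (-(2 * (L : ℤ))) (2 * L)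
      rw [mem_Icc]
      have h1 := pos_nonneg S' W.2.1
      have h2 := pos_le S' W.2.1
      have h3 := (hrow _ hj).2
      have h4 : ((2 ^ (W.1 + 3) : ℕ) : ℤ) ≤ L := by
        have : 2 ^ (W.1 + 3) ≤ 2 ^ (E + 3) := Nat.pow_le_pow_right (by norm_num) (by omega)
        exact_mod_cast this.trans hE
      have hY' : |sg * (pos S' W.2.1 - md μ s W.2.1) - Y| ≤ ((2 ^ (W.1 + 3) : ℕ) : ℤ) := hY
      have g1 := hm0 W.2.1
      have g2 := hm1 W.2.1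
      have h5 := abs_le.1 (hY'.trans h4)
      rcases hsg with h6 | h6
      · rw [h6] at h5
        constructor <;> omega
      · rw [h6] at h5
        constructor <;> omega
  · exact ⟨⟨⟨hab, hbN⟩, hsg, hJ, hs, hP⟩, hB⟩

/-- The bad events of the depth. -/
theorem badD_pr74 [IsProbabilityMeasure μ] (hm0 : ∀ j, 0 ≤ md μ s j) (hm1 : ∀ j, md μ s j ≤ j) {L N t τ k₀ k₁ e0 E X : ℕ} {n1 : ℕ → ℕ} {I : Finset ℕ} {V : ℕ → ℤ} {y : ℤ}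
    (h0 : 0 ≤ y) (h1 : y ≤ N) (hN : N ≤ L) (hk₁ : k₁ ≤ L) (hE : 2 ^ (E + 3) ≤ L)
    (hX : ∀ b, (Wd N t τ k₀ n1 e0 E b).card ≤ X) {lm : ℝ} (hlm : 0 ≤ lm) :
    (sp2 μ s h0 h1 (pat t τ I V)).pr (BadD μ s N t τ k₀ k₁ e0 E n1 I V lm) ≤
      (10 * ((L : ℝ) + 1)) ^ 6 * X * Real.exp (-lm) := by
  show (P2 μ s N y (pat t τ I V) fun η S S' => (η, S, S') ∈ BadD μ s N t τ k₀ k₁ e0 E n1 I V lm).toReal ≤ _
  have hin : ∀ b ∈ range (L + 1), P2 μ s N y (pat t τ I V)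
      (fun η S S' => ∃ i ∈ IdxD L N t τ k₀ e0 E n1 b, EvD μ s N t τ I V lm i η S S') ≤
        ENNReal.ofReal (8 * ((L : ℝ) + 1) ^ 5 * X * (3 * Real.exp (-lm))) := by
    intro b _
    refine (P2_ex_le _ _ fun i _ => EvD_le h0 h1 hlm i).trans ?_
    rw [← ENNReal.ofReal_natCast, ← ENNReal.ofReal_mul (by positivity)]
    refine ENNReal.ofReal_le_ofReal ?_
    exact mul_le_mul_of_nonneg_right (card_IdxD (hX b)) (by positivity)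
  have hout := P2_ex_le (μ := μ) (N := N) (y := y) (v := pat t τ I V) (range (L + 1))
    (fun b η S S' => ∃ i ∈ IdxD L N t τ k₀ e0 E n1 b, EvD μ s N t τ I V lm i η S S') hin
  rw [card_range, ← ENNReal.ofReal_natCast, ← ENNReal.ofReal_mul (by positivity)] at hout
  refine ENNReal.toReal_le_of_le_ofReal (by positivity) ?_
  refine le_trans (Pool.Agent.W_7d29a1_HZ.P2_mono fun η S _ S' _ _ _ hx => badD_sub hN hk₁ hE hm0 hm1 hx) ?_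
  refine hout.trans (ENNReal.ofReal_le_ofReal ?_)
  push_cast
  have h2 : (0 : ℝ) ≤ ((L : ℝ) + 1) ^ 6 * X * Real.exp (-lm) := by positivity
  have h3 : ((L : ℝ) + 1) * (8 * ((L : ℝ) + 1) ^ 5 * X * (3 * Real.exp (-lm))) = 24 * (((L : ℝ) + 1) ^ 6 * X * Real.exp (-lm)) := by
    ring
  have h4 : (10 * ((L : ℝ) + 1)) ^ 6 * X * Real.exp (-lm) = 1000000 * (((L : ℝ) + 1) ^ 6 * X * Real.exp (-lm)) := by ring
  rw [h3, h4]
  linarith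

end Pool.Agent.W_7d29a1_HZ.Z74
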