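import Pool.Agent.W_7d29a1_HZ.NT72

/-!
STORM Z AT ONE TILT `s`, OneZ, field `hbad`: the probability of the bad set of one step, summed over the signs. (helper99)
-/

set_option autoImplicit false

namespace Pool.Agent.W_7d29a1_HZ.Z99

open MeasureTheory ProbabilityTheory Filter Topology Finset
open Pool.Agent.W_7d29a1_F Pool.Agent.W_7d29a1_X Pool.Agent.W_7d29a1_h4g Pool.Agent.W_7d29a1_H
open Pool.Agent.W_7d29a1_HZ Pool.Agent.W_7d29a1_HZ.R72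
open Pool.Agent.W_7d29a1_HZ.Z86 (sp1 sp2 RegT sp2_reg hp0_86 hp1_86)
open Pool.Agent.W_7d29a1_Z.Asm72
open scoped ENNReal

variable {μ : Measure ℝ} {s : ℝ}

theorem amp_neg99 (r : ℤ) (b₀ m : ℕ) (σ : Fin m → Fin 4) (b : ℕ) : amp (-r) b₀ m σ b = -amp r b₀ m σ b := by
  unfold amp
  split_ifs <;> ring

theorem Db_neg99 (t τ : ℕ) (I : Finset ℕ) (r : ℤ) (η : Env) (b : ℕ) (a : ℤ) (X : ℕ → ℤ) :
    Db μ s t τ I (-r) η b a X = Db μ s t τ I r η b a X := by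
  unfold Db
  rw [← sub_eq_add_neg, sub_neg_eq_add]
  ring

/-- The responses of the zones are bounded outside an event of the probability `2 p`. -/
theorem hG99 [IsProbabilityMeasure μ] {L N t τ B k₁ K r e0 E : ℕ} {n1 : ℕ → ℕ} {I : Finset ℕ} {w A p : ℝ} {y : ℤ}
    (h0 : 0 ≤ y) (h1 : y ≤ N) (hk₁ : k₁ ≤ B) (hkN : za t τ k₁ ≤ N) (hp : 0 ≤ p) (hsK : r ≤ K)
    (hRA : law μ {η | ¬ RA μ s L t τ B I w A K η} ≤ ENNReal.ofReal p)
    (hTF : P1 μ s N y (fun _ S => ¬ (Tame μ s L N t w (pos S) ∧ FlatP μ s N e0 E n1 S)) ≤ ENNReal.ofReal p)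
    {x z : ℕ} (hz : z ≤ k₁) (r₁ : ℤ) (hr₁ : |r₁| = r) :
    P1 μ s N y (fun η S => ¬ ∀ b, x ≤ b → b < z →
      |fb μ s t τ I η b r₁ (pos S) - fb μ s t τ I η b 0 (pos S)| ≤ r * A ∧
      |fb μ s t τ I η b (-r₁) (pos S) - fb μ s t τ I η b 0 (pos S)| ≤ r * A) ≤ ENNReal.ofReal (2 * p) := by
  refine (P1_mono (B := fun η S => ¬ RA μ s L t τ B I w A K η ∨ ¬ (Tame μ s L N t w (pos S) ∧ FlatP μ s N e0 E n1 S)) ?_).trans ?_
  · intro η S _ h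
    by_contra hcon
    push Not at hcon
    obtain ⟨hR, hT, _⟩ := hcon
    refine h ?_
    intro b _ hb
    have hzN : zb t τ b ≤ N := by
      have e1 := za_lt (t := t) (τ := τ) (show b < b + 1 by omega)
      have e2 := za_mono' (t := t) (τ := τ) (show b + 1 ≤ k₁ by omega)
      rw [zb_eq]
      omega
    have hc := hT.cone (τ := τ) (pce_full t) hzN
    simp only [Nat.add_zero, Nat.cast_zero, sub_zero] at hc
    have key : ∀ a : ℤ, |a| = r → |fb μ s t τ I η b a (pos S) - fb μ s t τ I η b 0 (pos S)| ≤ r * A := by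
      intro a ha
      have h3 := (ra_Db hR (b := b) (by omega) (r := 0) (a := a)
        (by rw [ha, abs_zero, add_zero]; exact_mod_cast hsK) (X := pos S) hc.1 hc.2).2
      have h4 : |(a : ℝ)| = r := by
        rw [← Int.cast_abs, ha, Int.cast_natCast]
      rwa [h4] at h3
    exact ⟨key r₁ hr₁, key (-r₁) (by rw [abs_neg]; exact hr₁)⟩
  · refine (P1_or _ _).trans ?_
    rw [P1_env h0 h1, two_mul, ENNReal.ofReal_add hp hp]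
    exact add_le_add hRA hTF

theorem num99 {x z X p e1 e2 c : ℝ} (hx : 1 ≤ x) (hz : z = 10 * x) (hX : 1 ≤ X) (hp : 0 ≤ p) (h1 : 0 ≤ e1) (h2 : 0 ≤ e2)
    (hc : c ≤ x ^ 2) :
    5 * p + z ^ 6 * X * e1 + 2 * (c * (2 * e2 + 2 * p)) ≤ z ^ 7 * X * (p + e1 + e2) := by
  have hz1 : 1 ≤ z := by rw [hz]; linarith
  have hz2 : 5 + 4 * x ^ 2 ≤ z ^ 2 := by
    rw [hz]
    nlinarith
  have hz7 : z ^ 2 ≤ z ^ 7 * X := by
    calc z ^ 2 ≤ z ^ 7 := pow_le_pow_right₀ hz1 (by norm_num)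
      _ = z ^ 7 * 1 := (mul_one _).symm
      _ ≤ z ^ 7 * X := mul_le_mul_of_nonneg_left hX (by positivity)
  have hz6 : z ^ 6 * X ≤ z ^ 7 * X := mul_le_mul_of_nonneg_right (pow_le_pow_right₀ hz1 (by norm_num)) (by linarith)
  have a1 : z ^ 6 * X * e1 ≤ z ^ 7 * X * e1 := mul_le_mul_of_nonneg_right hz6 h1
  have a2 : (5 + 4 * x ^ 2) * p ≤ z ^ 7 * X * p := mul_le_mul_of_nonneg_right (hz2.trans hz7) hp
  have a3 : (5 + 4 * x ^ 2) * e2 ≤ z ^ 7 * X * e2 := mul_le_mul_of_nonneg_right (hz2.trans hz7) h2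
  have a4 : c * (2 * e2 + 2 * p) ≤ x ^ 2 * (2 * e2 + 2 * p) := mul_le_mul_of_nonneg_right hc (by linarith)
  nlinarith

/-- Field `hbad`, given the bound for the bad events of the depth. -/
theorem badS99 [IsProbabilityMeasure μ] {L N t τ B k₀ k₁ K r e0 E X : ℕ} {n1 : ℕ → ℕ} {I : Finset ℕ} {w A h lm u p : ℝ}
    {y : ℤ} (h0 : 0 ≤ y) (h1 : y ≤ N) (hk : k₀ < k₁) (hk₁ : k₁ ≤ B) (hB : B ≤ L) (ht : 16 ≤ t)
    (hI : I ⊆ Core t) (hkN : za t τ k₁ ≤ N) (hX1 : 1 ≤ X) (hA : 0 ≤ A) (hu : 0 ≤ u) (hh : u + 1 ≤ h) (hp : 0 ≤ p) (hsK : r ≤ K)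
    (hRA : law μ {η | ¬ RA μ s L t τ B I w A K η} ≤ ENNReal.ofReal p)
    (hTF : P1 μ s N y (fun _ S => ¬ (Tame μ s L N t w (pos S) ∧ FlatP μ s N e0 E n1 S)) ≤ ENNReal.ofReal p)
    (hSep : ∀ V : ℕ → ℤ, VOK t τ N k₀ k₁ r I V →
      P2 μ s N y (pat t τ I V) (fun _ S S' => ¬ SepOK N t τ k₀ k₁ e0 E (pat t τ I V) S S') ≤ ENNReal.ofReal p)
    (hBD : ∀ V : ℕ → ℤ, (sp2 μ s h0 h1 (pat t τ I V)).pr (BadD μ s N t τ k₀ k₁ e0 E n1 I V lm) ≤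
      (10 * ((L : ℝ) + 1)) ^ 6 * X * Real.exp (-lm))
    (BS : (ℕ → ℤ) → Set (Env × Finset ℕ × Finset ℕ)) (hBS : ∀ V, BS V =
      {θ | ¬ RegT N y θ ∨ ¬ RA μ s L t τ B I w A K θ.1 ∨ ¬ RA μ s L t τ B I w A K (shr 0 (pat t τ I V) θ.1) ∨
    ¬ (Tame μ s L N t w (pos θ.2.1) ∧ FlatP μ s N e0 E n1 θ.2.1) ∨ ¬ (Tame μ s L N t w (pos θ.2.2) ∧ FlatP μ s N e0 E n1 θ.2.2) ∨
    ¬ SepOK N t τ k₀ k₁ e0 E (pat t τ I V) θ.2.1 θ.2.2 ∨ θ ∈ BadD μ s N t τ k₀ k₁ e0 E n1 I V lm ∨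
    (∃ l r' : ℕ, (k₀ ≤ l ∧ l < r' ∧ r' ≤ k₁) ∧ h * √((r' - l : ℕ) : ℝ) * (r * A) <
      |∑ b ∈ Ico l r', (fb μ s t τ I θ.1 b (V b) (pos θ.2.1) - fb μ s t τ I θ.1 b 0 (pos θ.2.1) -
        Db μ s t τ I r θ.1 b 0 (pos θ.2.1) / 4)|) ∨
    (∃ l r' : ℕ, (k₀ ≤ l ∧ l < r' ∧ r' ≤ k₁) ∧ h * √((r' - l : ℕ) : ℝ) * (r * A) <
      |∑ b ∈ Ico l r', (fb μ s t τ I (shr 0 (pat t τ I V) θ.1) b (-V b) (pos θ.2.2) -
        fb μ s t τ I (shr 0 (pat t τ I V) θ.1) b 0 (pos θ.2.2) -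
        Db μ s t τ I r (shr 0 (pat t τ I V) θ.1) b 0 (pos θ.2.2) / 4)|)}) :
    ∑ σ : Fin ((k₁ - k₀) / 2) → Fin 4, ((4 : ℝ) ^ ((k₁ - k₀) / 2))⁻¹ *
      (sp2 μ s h0 h1 (pat t τ I (amp r k₀ ((k₁ - k₀) / 2) σ))).pr (BS (amp r k₀ ((k₁ - k₀) / 2) σ)) ≤
      (10 * ((L : ℝ) + 1)) ^ 7 * X * (p + Real.exp (-lm) + Real.exp (-(u ^ 2 / 64))) := by
  classical
  set m := (k₁ - k₀) / 2 with hm
  have hsA : (0 : ℝ) ≤ r * A := by positivity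
  have hc0 : (0 : ℝ) ≤ ((4 : ℝ) ^ m)⁻¹ := by positivity
  set T : Finset (ℕ × ℕ) := ((range (L + 1)) ×ˢ (range (L + 1))).filter fun q => k₀ ≤ q.1 ∧ q.1 < q.2 ∧ q.2 ≤ k₁ with hT
  set F : ℕ × ℕ → (Fin m → Fin 4) → Set (Env × Finset ℕ) := fun q σ =>
    {θ | h * √((q.2 - q.1 : ℕ) : ℝ) * (r * A) <
      |∑ b ∈ Ico q.1 q.2, (fb μ s t τ I θ.1 b (amp r k₀ m σ b) (pos θ.2) - fb μ s t τ I θ.1 b 0 (pos θ.2) -
        Db μ s t τ I r θ.1 b 0 (pos θ.2) / 4)|} with hF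
  set G : ℕ × ℕ → (Fin m → Fin 4) → Set (Env × Finset ℕ) := fun q σ =>
    {θ | h * √((q.2 - q.1 : ℕ) : ℝ) * (r * A) <
      |∑ b ∈ Ico q.1 q.2, (fb μ s t τ I θ.1 b (-amp r k₀ m σ b) (pos θ.2) - fb μ s t τ I θ.1 b 0 (pos θ.2) -
        Db μ s t τ I r θ.1 b 0 (pos θ.2) / 4)|} with hG
  -- one choice of signs
  have hone : ∀ σ : Fin m → Fin 4, (sp2 μ s h0 h1 (pat t τ I (amp r k₀ m σ))).pr (BS (amp r k₀ m σ)) ≤
      5 * p + (10 * ((L : ℝ) + 1)) ^ 6 * X * Real.exp (-lm) + (∑ q ∈ T, (sp1 μ s N y).pr (F q σ) +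
        ∑ q ∈ T, (sp1 μ s N y).pr (G q σ)) := by
    intro σ
    rw [hBS]
    set V := amp r k₀ m σ with hV
    set ν := sp2 μ s h0 h1 (pat t τ I V) with hν
    have u1 : ν.pr {θ | ¬ RegT N y θ} ≤ 0 := (sp2_reg h0 h1 _).le
    have pe : (sp1 μ s N y).pr {q | ¬ RA μ s L t τ B I w A K q.1} ≤ p := by
      refine ENNReal.toReal_le_of_le_ofReal hp ?_
      refine le_trans (le_of_eq ?_) hRA
      exact P1_env h0 h1 fun η => ¬ RA μ s L t τ B I w A K η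
    have pt : (sp1 μ s N y).pr {q | ¬ (Tame μ s L N t w (pos q.2) ∧ FlatP μ s N e0 E n1 q.2)} ≤ p :=
      ENNReal.toReal_le_of_le_ofReal hp hTF
    have u2 : ν.pr {θ | ¬ RA μ s L t τ B I w A K θ.1} ≤ p := by
      refine le_trans (le_of_eq ?_) pe
      exact hp0_86 h0 h1 (pat t τ I V) {q | ¬ RA μ s L t τ B I w A K q.1}
    have u3 : ν.pr {θ | ¬ RA μ s L t τ B I w A K (shr 0 (pat t τ I V) θ.1)} ≤ p := by
      refine le_trans (le_of_eq ?_) pe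
      exact hp1_86 h0 h1 (pat t τ I V) {q | ¬ RA μ s L t τ B I w A K q.1}
    have u4 : ν.pr {θ | ¬ (Tame μ s L N t w (pos θ.2.1) ∧ FlatP μ s N e0 E n1 θ.2.1)} ≤ p := by
      refine le_trans (le_of_eq ?_) pt
      exact hp0_86 h0 h1 (pat t τ I V) {q | ¬ (Tame μ s L N t w (pos q.2) ∧ FlatP μ s N e0 E n1 q.2)}
    have u5 : ν.pr {θ | ¬ (Tame μ s L N t w (pos θ.2.2) ∧ FlatP μ s N e0 E n1 θ.2.2)} ≤ p := by
      refine le_trans (le_of_eq ?_) pt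
      exact hp1_86 h0 h1 (pat t τ I V) {q | ¬ (Tame μ s L N t w (pos q.2) ∧ FlatP μ s N e0 E n1 q.2)}
    have u6 : ν.pr {θ | ¬ SepOK N t τ k₀ k₁ e0 E (pat t τ I V) θ.2.1 θ.2.2} ≤ p :=
      ENNReal.toReal_le_of_le_ofReal hp (hSep V (amp_ok (by omega) hI hk.le hkN σ))
    have u7 := hBD V
    have hmem : ∀ l r' : ℕ, (k₀ ≤ l ∧ l < r' ∧ r' ≤ k₁) → (l, r') ∈ T := by
      intro l r' hlr
      rw [hT, mem_filter, mem_product, mem_range, mem_range]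
      exact ⟨⟨by dsimp only; omega, by dsimp only; omega⟩, hlr⟩
    have u8 : ν.pr {θ | ∃ l r' : ℕ, (k₀ ≤ l ∧ l < r' ∧ r' ≤ k₁) ∧ h * √((r' - l : ℕ) : ℝ) * (r * A) <
        |∑ b ∈ Ico l r', (fb μ s t τ I θ.1 b (V b) (pos θ.2.1) - fb μ s t τ I θ.1 b 0 (pos θ.2.1) -
          Db μ s t τ I r θ.1 b 0 (pos θ.2.1) / 4)|} ≤ ∑ q ∈ T, (sp1 μ s N y).pr (F q σ) := by
      refine (ν.mono (F := ⋃ q ∈ T, {θ | (θ.1, θ.2.1) ∈ F q σ}) ?_).trans ((ν.biUnion _ _).trans ?_)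
      · rintro θ ⟨l, r', hlr, hθ⟩
        simp only [Set.mem_iUnion]
        exact ⟨(l, r'), hmem l r' hlr, hθ⟩
      · refine Finset.sum_le_sum fun q _ => le_of_eq ?_
        exact hp0_86 h0 h1 (pat t τ I V) (F q σ)
    have u9 : ν.pr {θ | ∃ l r' : ℕ, (k₀ ≤ l ∧ l < r' ∧ r' ≤ k₁) ∧ h * √((r' - l : ℕ) : ℝ) * (r * A) <
        |∑ b ∈ Ico l r', (fb μ s t τ I (shr 0 (pat t τ I V) θ.1) b (-V b) (pos θ.2.2) -
        fb μ s t τ I (shr 0 (pat t τ I V) θ.1) b 0 (pos θ.2.2) -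
        Db μ s t τ I r (shr 0 (pat t τ I V) θ.1) b 0 (pos θ.2.2) / 4)|} ≤ ∑ q ∈ T, (sp1 μ s N y).pr (G q σ) := by
      refine (ν.mono (F := ⋃ q ∈ T, {θ | (shr 0 (pat t τ I V) θ.1, θ.2.2) ∈ G q σ}) ?_).trans ((ν.biUnion _ _).trans ?_)
      · rintro θ ⟨l, r', hlr, hθ⟩
        simp only [Set.mem_iUnion]
        exact ⟨(l, r'), hmem l r' hlr, hθ⟩
      · refine Finset.sum_le_sum fun q _ => le_of_eq ?_
        exact hp1_86 h0 h1 (pat t τ I V) (G q σ)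
    refine (ν.union _ _).trans ?_
    refine (add_le_add u1 (ν.union _ _)).trans ?_
    refine (add_le_add le_rfl (add_le_add u2 (ν.union _ _))).trans ?_
    refine (add_le_add le_rfl (add_le_add le_rfl (add_le_add u3 (ν.union _ _)))).trans ?_
    refine (add_le_add le_rfl (add_le_add le_rfl (add_le_add le_rfl (add_le_add u4 (ν.union _ _))))).trans ?_
    refine (add_le_add le_rfl (add_le_add le_rfl (add_le_add le_rfl (add_le_add le_rfl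
      (add_le_add u5 (ν.union _ _)))))).trans ?_
    refine (add_le_add le_rfl (add_le_add le_rfl (add_le_add le_rfl (add_le_add le_rfl
      (add_le_add le_rfl (add_le_add u6 (ν.union _ _))))))).trans ?_
    refine (add_le_add le_rfl (add_le_add le_rfl (add_le_add le_rfl (add_le_add le_rfl
      (add_le_add le_rfl (add_le_add le_rfl (add_le_add u7 (ν.union _ _)))))))).trans ?_
    refine (add_le_add le_rfl (add_le_add le_rfl (add_le_add le_rfl (add_le_add le_rfl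
      (add_le_add le_rfl (add_le_add le_rfl (add_le_add le_rfl (add_le_add u8 u9)))))))).trans ?_
    linarith
  -- the sums over the signs
  have hcard : ∑ _σ : Fin m → Fin 4, ((4 : ℝ) ^ m)⁻¹ = 1 := by
    rw [Finset.sum_const, Finset.card_univ, Fintype.card_fun, Fintype.card_fin, Fintype.card_fin, nsmul_eq_mul]
    push_cast
    exact mul_inv_cancel₀ (by positivity)
  have hFs : ∀ q ∈ T, ∑ σ : Fin m → Fin 4, ((4 : ℝ) ^ m)⁻¹ * (sp1 μ s N y).pr (F q σ) ≤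
      2 * Real.exp (-(u ^ 2 / 64)) + 2 * p := by
    intro q hq
    obtain ⟨q1, q2, q3⟩ := (mem_filter.1 hq).2
    refine le_trans (Finset.sum_le_sum fun σ _ => mul_le_mul_of_nonneg_left ((sp1 μ s N y).mono ?_) hc0)
      (hoefF1 h0 h1 t τ I (r : ℤ) q1 q2 q3 hsA hu (by linarith : (0 : ℝ) ≤ 2 * p)
        (hG99 h0 h1 hk₁ hkN hp hsK hRA hTF q3 (r : ℤ) (Nat.abs_cast r)))
    intro θ hθ
    have hθ' : h * √((q.2 - q.1 : ℕ) : ℝ) * (r * A) < |∑ b ∈ Ico q.1 q.2, (fb μ s t τ I θ.1 b (amp r k₀ m σ b) (pos θ.2) -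
      fb μ s t τ I θ.1 b 0 (pos θ.2) - Db μ s t τ I r θ.1 b 0 (pos θ.2) / 4)| := hθ
    refine lt_of_le_of_lt ?_ hθ'
    refine mul_le_mul_of_nonneg_right (mul_le_mul_of_nonneg_right hh (Real.sqrt_nonneg _)) hsA
  have hGs : ∀ q ∈ T, ∑ σ : Fin m → Fin 4, ((4 : ℝ) ^ m)⁻¹ * (sp1 μ s N y).pr (G q σ) ≤
      2 * Real.exp (-(u ^ 2 / 64)) + 2 * p := by
    intro q hq
    obtain ⟨q1, q2, q3⟩ := (mem_filter.1 hq).2
    refine le_trans (Finset.sum_le_sum fun σ _ => mul_le_mul_of_nonneg_left ((sp1 μ s N y).mono ?_) hc0)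
      (hoefF1 h0 h1 t τ I (-(r : ℤ)) q1 q2 q3 hsA hu (by linarith : (0 : ℝ) ≤ 2 * p)
        (hG99 h0 h1 hk₁ hkN hp hsK hRA hTF q3 (-(r : ℤ)) (by rw [abs_neg, Nat.abs_cast])))
    intro θ hθ
    have hθ' : h * √((q.2 - q.1 : ℕ) : ℝ) * (r * A) < |∑ b ∈ Ico q.1 q.2, (fb μ s t τ I θ.1 b (-amp r k₀ m σ b) (pos θ.2) -
      fb μ s t τ I θ.1 b 0 (pos θ.2) - Db μ s t τ I r θ.1 b 0 (pos θ.2) / 4)| := hθ
    simp only [amp_neg99, Db_neg99]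
    refine lt_of_le_of_lt ?_ hθ'
    refine mul_le_mul_of_nonneg_right (mul_le_mul_of_nonneg_right hh (Real.sqrt_nonneg _)) hsA
  have hTc : (T.card : ℝ) ≤ ((L : ℝ) + 1) ^ 2 := by
    have h3 : T.card ≤ (L + 1) ^ 2 := by
      refine (Finset.card_filter_le _ _).trans ?_
      rw [card_product, card_range, sq]
    exact_mod_cast h3
  refine (Finset.sum_le_sum fun σ _ => mul_le_mul_of_nonneg_left (hone σ) hc0).trans ?_
  have e1 : ∑ σ : Fin m → Fin 4, ((4 : ℝ) ^ m)⁻¹ * (5 * p + (10 * ((L : ℝ) + 1)) ^ 6 * X * Real.exp (-lm) +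
      (∑ q ∈ T, (sp1 μ s N y).pr (F q σ) + ∑ q ∈ T, (sp1 μ s N y).pr (G q σ))) =
      (5 * p + (10 * ((L : ℝ) + 1)) ^ 6 * X * Real.exp (-lm)) + (∑ q ∈ T, ∑ σ : Fin m → Fin 4, ((4 : ℝ) ^ m)⁻¹ *
        (sp1 μ s N y).pr (F q σ) + ∑ q ∈ T, ∑ σ : Fin m → Fin 4, ((4 : ℝ) ^ m)⁻¹ * (sp1 μ s N y).pr (G q σ)) := by
    simp only [mul_add, Finset.sum_add_distrib]
    rw [← Finset.sum_mul, ← Finset.sum_mul, hcard, one_mul, one_mul]
    congr 1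
    congr 1
    · rw [Finset.sum_comm]
      exact Finset.sum_congr rfl fun σ _ => Finset.mul_sum _ _ _
    · rw [Finset.sum_comm]
      exact Finset.sum_congr rfl fun σ _ => Finset.mul_sum _ _ _
  rw [e1]
  have h4 := Finset.sum_le_sum hFs
  have h5 := Finset.sum_le_sum hGs
  rw [Finset.sum_const, nsmul_eq_mul] at h4 h5
  have h6 := num99 (x := (L : ℝ) + 1) (z := 10 * ((L : ℝ) + 1)) (X := X) (p := p) (e1 := Real.exp (-lm))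
    (e2 := Real.exp (-(u ^ 2 / 64))) (c := T.card) (by linarith [(Nat.cast_nonneg L : (0 : ℝ) ≤ L)]) rfl
    (by exact_mod_cast hX1) hp (Real.exp_pos _).le (Real.exp_pos _).le hTc
  linarith

end Pool.Agent.W_7d29a1_HZ.Z99
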