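import Pool.Agent.W_7d29a1_HZ.NT72
import Pool.Agent.W_7d29a1_HZ.Dlx93
import Pool.Agent.W_7d29a1_HZ.Z99_BadS
import Pool.Agent.W_7d29a1_HZ.Z74_BadDpr

/-!
STORM Z AT ONE TILT, OneZ: the bad events of one step and their probability, the absorption inequality. (helper72, helper74, helper99, helper93)
-/

set_option autoImplicit false

namespace Pool.Agent.W_7d29a1_HZ.R72

open MeasureTheory ProbabilityTheory Filter Topology Finset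
open Pool.Agent.W_7d29a1_F Pool.Agent.W_7d29a1_X Pool.Agent.W_7d29a1_h4g Pool.Agent.W_7d29a1_H
open Pool.Agent.W_7d29a1_HS (md)
open Pool.Agent.W_7d29a1_HZ.Z86 (phi sp1 sp2 Wd Meet BadJ RegT)
open Pool.Agent.W_7d29a1_Z.Asm72
open _root_.W_7d29a1_Z.CtrOp77 (D)
open scoped ENNReal

variable {μ : Measure ℝ} {s : ℝ}

/-- **Owner helper74.** The bad events of the depth. -/
theorem badD_pr [IsProbabilityMeasure μ] (hm0 : ∀ j, 0 ≤ md μ s j) (hm1 : ∀ j, md μ s j ≤ j) {L N t τ k₀ k₁ e0 E X : ℕ}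
    {n1 : ℕ → ℕ} {I : Finset ℕ} {V : ℕ → ℤ} {y : ℤ} (h0 : 0 ≤ y) (h1 : y ≤ N) (hN : N ≤ L) (hk₁ : k₁ ≤ L) (hE : 2 ^ (E + 3) ≤ L)
    (hX : ∀ b, (Wd N t τ k₀ n1 e0 E b).card ≤ X) {lm : ℝ} (hlm : 0 ≤ lm) :
    (sp2 μ s h0 h1 (pat t τ I V)).pr (BadD μ s N t τ k₀ k₁ e0 E n1 I V lm) ≤
      (10 * ((L : ℝ) + 1)) ^ 6 * X * Real.exp (-lm) :=
  Pool.Agent.W_7d29a1_HZ.Z74.badD_pr74 hm0 hm1 h0 h1 hN hk₁ hE hX hlm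

/-- The bad events of one step, for the amplitudes `V`. -/
def BadS (μ : Measure ℝ) (s : ℝ) (L N : ℕ) (y : ℤ) (t τ B k₀ k₁ K r e0 E : ℕ) (n1 : ℕ → ℕ) (I : Finset ℕ) (w A h lm : ℝ)
    (V : ℕ → ℤ) : Set (Env × Finset ℕ × Finset ℕ) :=
  {θ | ¬ RegT N y θ ∨ ¬ RA μ s L t τ B I w A K θ.1 ∨ ¬ RA μ s L t τ B I w A K (shr 0 (pat t τ I V) θ.1) ∨
    ¬ (Tame μ s L N t w (pos θ.2.1) ∧ FlatP μ s N e0 E n1 θ.2.1) ∨ ¬ (Tame μ s L N t w (pos θ.2.2) ∧ FlatP μ s N e0 E n1 θ.2.2) ∨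
    ¬ SepOK N t τ k₀ k₁ e0 E (pat t τ I V) θ.2.1 θ.2.2 ∨ θ ∈ BadD μ s N t τ k₀ k₁ e0 E n1 I V lm ∨
    (∃ l l' : ℕ, (k₀ ≤ l ∧ l < l' ∧ l' ≤ k₁) ∧ h * √((l' - l : ℕ) : ℝ) * (r * A) <
      |∑ b ∈ Ico l l', (fb μ s t τ I θ.1 b (V b) (pos θ.2.1) - fb μ s t τ I θ.1 b 0 (pos θ.2.1) -
        Db μ s t τ I r θ.1 b 0 (pos θ.2.1) / 4)|) ∨
    (∃ l l' : ℕ, (k₀ ≤ l ∧ l < l' ∧ l' ≤ k₁) ∧ h * √((l' - l : ℕ) : ℝ) * (r * A) <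
      |∑ b ∈ Ico l l', (fb μ s t τ I (shr 0 (pat t τ I V) θ.1) b (-V b) (pos θ.2.2) -
        fb μ s t τ I (shr 0 (pat t τ I V) θ.1) b 0 (pos θ.2.2) -
        Db μ s t τ I r (shr 0 (pat t τ I V) θ.1) b 0 (pos θ.2.2) / 4)|)}

/-- **Owner helper99.** Field `hbad`. -/
theorem badS_pr [IsProbabilityMeasure μ] (hm0 : ∀ j, 0 ≤ md μ s j) (hm1 : ∀ j, md μ s j ≤ j)
    {L N t τ B k₀ k₁ K r e0 E X : ℕ} {n1 : ℕ → ℕ} {I : Finset ℕ} {w A h lm u p : ℝ} {y : ℤ} (h0 : 0 ≤ y) (h1 : y ≤ N) (hN : N ≤ L) (hk : k₀ < k₁) (hk₁ : k₁ ≤ B) (hB : B ≤ L) (ht : 16 ≤ t)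
    (hI : I ⊆ Core t) (hkN : za t τ k₁ ≤ N) (hE : 2 ^ (E + 3) ≤ L) (hX : ∀ b, (Wd N t τ k₀ n1 e0 E b).card ≤ X)
    (hX1 : 1 ≤ X) (hA : 0 ≤ A) (hlm : 0 ≤ lm) (hu : 0 ≤ u) (hh : u + 1 ≤ h) (hp : 0 ≤ p) (hrK : r ≤ K)
    (hRA : law μ {η | ¬ RA μ s L t τ B I w A K η} ≤ ENNReal.ofReal p)
    (hTF : P1 μ s N y (fun _ S => ¬ (Tame μ s L N t w (pos S) ∧ FlatP μ s N e0 E n1 S)) ≤ ENNReal.ofReal p)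
    (hSep : ∀ V : ℕ → ℤ, VOK t τ N k₀ k₁ r I V →
      P2 μ s N y (pat t τ I V) (fun _ S S' => ¬ SepOK N t τ k₀ k₁ e0 E (pat t τ I V) S S') ≤ ENNReal.ofReal p) :
    ∑ σ : Fin ((k₁ - k₀) / 2) → Fin 4, ((4 : ℝ) ^ ((k₁ - k₀) / 2))⁻¹ *
      (sp2 μ s h0 h1 (pat t τ I (amp r k₀ ((k₁ - k₀) / 2) σ))).pr
        (BadS μ s L N y t τ B k₀ k₁ K r e0 E n1 I w A h lm (amp r k₀ ((k₁ - k₀) / 2) σ)) ≤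
      (10 * ((L : ℝ) + 1)) ^ 7 * X * (p + Real.exp (-lm) + Real.exp (-(u ^ 2 / 64))) := by
  exact Pool.Agent.W_7d29a1_HZ.Z99.badS99 h0 h1 hk hk₁ hB ht hI hkN hX1 hA hu hh hp hrK hRA hTF hSep
    (fun V => badD_pr hm0 hm1 h0 h1 hN (hk₁.trans hB) hE hX hlm) (BadS μ s L N y t τ B k₀ k₁ K r e0 E n1 I w A h lm) fun V => rfl

/-- **Owner helper93.** Field `hdlx`. -/
theorem dlx93 [IsProbabilityMeasure μ] {N t τ k₀ k₁ e0 E X b : ℕ} {n1 : ℕ → ℕ} {I : Finset ℕ} {g : ℤ} {y : ℤ}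
    (h0 : 0 ≤ y) (h1 : y ≤ N) (ht : 1 ≤ t) (hI : I ⊆ Core t) {r p dl M A : ℝ} (hr : 0 ≤ r) (hp : 0 ≤ p) (hdl : 0 ≤ dl)
    (hT : TieIn μ s N y t τ k₀ n1 e0 E r p) (hX : (Wd N t τ k₀ n1 e0 E b).card ≤ X) (hM : 1 ≤ M) (hA : 0 ≤ A)
    (hG : P1 μ s N y (fun η S => ¬ ∀ k, k₀ ≤ k → k < k₁ → |Db μ s t τ I g η k 0 (pos S)| ≤ 2 * A) ≤ ENNReal.ofReal dl)
    (H Hd : ℕ) (x : ℝ) :
    (sp1 μ s N y).pr ({q | x < |Xs g (Ico k₀ k₁) (phi μ s t τ I q)|} ∩ NTb μ s N t τ k₀ n1 e0 E H Hd M b) ≤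
      X * (r * M) * (sp1 μ s N y).pr {q | x - 8 * A < |Xs g (Ico k₀ k₁) (phi μ s t τ I q)|} +
        (X * (r * M) * dl + dl + X * p) :=
  dlx93a h0 h1 ht hr hp hT hX H Hd hM hA hdl hG x

end Pool.Agent.W_7d29a1_HZ.R72
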