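import Pool.Agent.W_7d29a1_HZ.Defs
import Pool.Agent.W_7d29a1_Z17.TieW17

/-!
MP_7d29a1_pr, HZ (STORM Z at the tilt `s`), leaf TIE: near ties for some line of the grid, from near ties for one line.
(Model: `W_7d29a1_Z17.TieW17`.) (helper76)
-/

set_option autoImplicit false

namespace Pool.Agent.W_7d29a1_HZ.Z17

open MeasureTheory Filter Topology Finset
open Pool.Agent.W_7d29a1_F Pool.Agent.W_7d29a1_X
open Pool.Agent.W_7d29a1_H (sl)
open Pool.Agent.W_7d29a1_HS (md)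
open Pool.Agent.W_7d29a1_Z (Ms OffRows)
open Pool.Agent.W_7d29a1_Z17 (card_grid num_exp)
open scoped ENNReal

noncomputable section

variable {μ : Measure ℝ} {s : ℝ}

/-- Monotonicity. -/
theorem P1_mono17 {N : ℕ} {y : ℤ} {A B : Env → Finset ℕ → Prop} (h : ∀ η, ∀ S ∈ (range N).powerset, A η S → B η S) :
    P1 μ s N y A ≤ P1 μ s N y B := by
  unfold P1
  exact sum_le_sum fun S hS => measure_mono fun η hη => h η S hS hη

/-- Finite unions. -/
theorem P1_exists17 {ι : Type*} (T : Finset ι) {N : ℕ} {y : ℤ} (A : ι → Env → Finset ℕ → Prop) :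
    P1 μ s N y (fun η S => ∃ i ∈ T, A i η S) ≤ ∑ i ∈ T, P1 μ s N y (A i) := by
  unfold P1
  rw [sum_comm]
  refine sum_le_sum fun S _ => ?_
  have h1 : {η | ∃ i ∈ T, A i η S} = ⋃ i ∈ T, {η | A i η S} := by
    ext η
    simp
  rw [h1]
  exact measure_biUnion_finset_le _ _

open scoped Classical in
/-- Conditions on the path which hold at most `K` times. -/
theorem P1_sum_le {ι : Type*} (T : Finset ι) {N : ℕ} {y : ℤ} (A : Env → Finset ℕ → Prop) (Q : ι → Finset ℕ → Prop) {K : ℝ}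
    (hK : ∀ S ∈ (range N).powerset, ((T.filter fun i => Q i S).card : ℝ) ≤ K) :
    ∑ i ∈ T, P1 μ s N y (fun η S => A η S ∧ Q i S) ≤ ENNReal.ofReal K * P1 μ s N y A := by
  unfold P1
  rw [sum_comm, mul_sum]
  refine sum_le_sum fun S hS => ?_
  have h1 : ∀ i ∈ T, ((law μ).withDensity fun η => ENNReal.ofReal (gp μ s η N y S)) {η | A η S ∧ Q i S} =
      if Q i S then ((law μ).withDensity fun η => ENNReal.ofReal (gp μ s η N y S)) {η | A η S} else 0 := by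
    intro i _
    by_cases h2 : Q i S
    · simp [h2]
    · simp [h2]
  rw [sum_congr rfl h1, ← sum_filter, sum_const, nsmul_eq_mul]
  refine mul_le_mul_left ?_ _
  rw [← ENNReal.ofReal_natCast]
  exact ENNReal.ofReal_le_ofReal (hK S hS)

/-- Near tie for some line of the grid, from the statement `tie` for one line. -/
theorem tieW_of (hsl0 : 0 ≤ sl μ s) (hsl1 : sl μ s ≤ 1)
    (htie : ∀ ε : ℝ, 0 < ε → ∃ c : ℝ, 0 < c ∧ ∃ L₀ : ℕ, ∀ L : ℕ, L₀ ≤ L → ∀ N : ℕ, N ≤ L → ∀ y : ℤ, 0 ≤ y → y ≤ N →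
      ∀ (H : ℕ) (J : Finset ℕ), J.Nonempty → (∀ i ∈ J, 1 ≤ i ∧ i < N) → ∀ sg Y w : ℤ, (sg = 1 ∨ sg = -1) → 1 ≤ w → w ≤ L →
      ∀ M : ℝ, 1 ≤ M → ∀ A : Env → Finset ℕ → Prop, Ms A → OffRows J A →
      P1 μ s N y (fun η S => A η S ∧ NT μ s N H sg J Y w M η S) ≤
        ENNReal.ofReal ((L : ℝ) ^ ε * M * Real.sqrt ((w : ℝ) / J.card)) * P1 μ s N y (fun η S => A η S ∧ InL μ s sg J Y S) +
          ENNReal.ofReal (Real.exp (-(L : ℝ) ^ c))) :
    ∀ ε : ℝ, 0 < ε → ∃ c : ℝ, 0 < c ∧ ∃ L₀ : ℕ, ∀ L : ℕ, L₀ ≤ L → ∀ N : ℕ, N ≤ L → ∀ y : ℤ, 0 ≤ y → y ≤ N →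
      ∀ (H j₀ : ℕ) (J : Finset ℕ), J.Nonempty → (∀ i ∈ J, 1 ≤ i ∧ i < N) → j₀ ≤ N → ∀ g w : ℕ, 1 ≤ g → 1 ≤ w → w ≤ L →
      ∀ M : ℝ, 1 ≤ M → ∀ A : Env → Finset ℕ → Prop, Ms A → OffRows J A →
      P1 μ s N y (fun η S => A η S ∧ NTW μ s N H j₀ J g w M η S) ≤
        ENNReal.ofReal ((L : ℝ) ^ ε * M * ((w : ℝ) / g + 1) * Real.sqrt ((w : ℝ) / J.card)) * P1 μ s N y A +
          ENNReal.ofReal (Real.exp (-(L : ℝ) ^ c)) := by
  classical
  intro ε hε
  obtain ⟨c, hc, L₀, h⟩ := htie (ε / 2) (by positivity)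
  obtain ⟨L₁, hL₁1, hL₁⟩ := num_exp hc
  have h1 : Tendsto (fun L : ℕ => ((L : ℝ)) ^ (ε / 2)) atTop atTop :=
    (tendsto_rpow_atTop (by positivity : 0 < ε / 2)).comp tendsto_natCast_atTop_atTop
  obtain ⟨L₂, hL₂⟩ := eventually_atTop.1 (h1.eventually_ge_atTop 4)
  refine ⟨c / 2, by positivity, L₀ + L₁ + L₂, fun L hL N hN y hy0 hyN H j₀ J hJ hJN hj₀ g w hg hw hwL M hM A hA hAJ => ?_⟩
  have hL1 : (1 : ℝ) ≤ L := by exact_mod_cast (by omega : 1 ≤ L)
  have hg0 : (0 : ℝ) < g := by exact_mod_cast hg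
  obtain ⟨q, hq⟩ : ∃ q, q = (L : ℝ) ^ (ε / 2) * M * Real.sqrt ((w : ℝ) / J.card) := ⟨_, rfl⟩
  obtain ⟨e, he⟩ : ∃ e, e = Real.exp (-(L : ℝ) ^ c) := ⟨_, rfl⟩
  have hq0 : 0 ≤ q := by
    rw [hq]
    have : 0 ≤ M := by linarith
    positivity
  have he0 : 0 ≤ e := he ▸ (Real.exp_pos _).le
  -- the lines
  obtain ⟨G, hG⟩ : ∃ G : Finset ℤ, G = Icc (-(2 * L : ℤ)) (2 * L) := ⟨_, rfl⟩
  obtain ⟨T, hT⟩ : ∃ T : Finset (ℤ × ℤ), T = (({1, -1} : Finset ℤ) ×ˢ G).filter fun p => (g : ℤ) ∣ p.2 := ⟨_, rfl⟩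
  obtain ⟨Q, hQ⟩ : ∃ Q : ℤ × ℤ → Finset ℕ → Prop, Q = fun p S => |p.1 * (pos S j₀ - md μ s j₀) - p.2| ≤ w := ⟨_, rfl⟩
  have hsub : P1 μ s N y (fun η S => A η S ∧ NTW μ s N H j₀ J g w M η S) ≤
      P1 μ s N y (fun η S => ∃ p ∈ T, (A η S ∧ Q p S) ∧ NT μ s N H p.1 J p.2 w M η S) := by
    refine P1_mono17 fun η S _ hS => ?_
    obtain ⟨hAS, sg, Y, hsg, hgY, hYS, hNT⟩ := hS
    refine ⟨(sg, Y), ?_, ⟨hAS, by rw [hQ]; exact hYS⟩, hNT⟩
    rw [hT, mem_filter, mem_product]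
    refine ⟨⟨?_, ?_⟩, hgY⟩
    · rw [mem_insert, mem_singleton]
      exact hsg
    · rw [hG, mem_Icc]
      have h2 := abs_le.1 hYS
      have h3 := pos_nonneg S j₀
      have h4 := pos_le S j₀
      have hmd0 : 0 ≤ md μ s j₀ := Int.floor_nonneg.2 (by positivity)
      have hmd1 : md μ s j₀ ≤ j₀ := by
        have e1 : (md μ s j₀ : ℝ) ≤ sl μ s * j₀ := Int.floor_le _
        have e2 : sl μ s * j₀ ≤ 1 * j₀ := mul_le_mul_of_nonneg_right hsl1 (Nat.cast_nonneg _)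
        have e3 : (md μ s j₀ : ℝ) ≤ ((j₀ : ℤ) : ℝ) := by push_cast; linarith
        exact_mod_cast e3
      have h5 : (j₀ : ℤ) ≤ L := by exact_mod_cast hj₀.trans hN
      have h6 : (w : ℤ) ≤ L := by exact_mod_cast hwL
      rcases hsg with rfl | rfl
      · constructor <;> linarith [h2.1, h2.2]
      · constructor <;> linarith [h2.1, h2.2]
  refine hsub.trans ((P1_exists17 T _).trans ?_)
  have hone : ∀ p ∈ T, P1 μ s N y (fun η S => (A η S ∧ Q p S) ∧ NT μ s N H p.1 J p.2 w M η S) ≤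
      ENNReal.ofReal q * P1 μ s N y (fun η S => A η S ∧ Q p S) + ENNReal.ofReal e := by
    intro p hp
    rw [hT, mem_filter, mem_product] at hp
    have hp1 : p.1 = 1 ∨ p.1 = -1 := by
      have := hp.1.1
      rwa [mem_insert, mem_singleton] at this
    have h2 := h L (by omega) N hN y hy0 hyN H J hJ hJN p.1 p.2 (w : ℤ) hp1 (by exact_mod_cast hw) (by exact_mod_cast hwL) M hM
      (fun η S => A η S ∧ Q p S) (fun S => by
        by_cases h3 : Q p S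
        · simpa [h3] using hA S
        · simp [h3]) (fun η η' S hη => and_congr_left' (hAJ η η' S hη))
    refine h2.trans (add_le_add ?_ (by rw [he]))
    have h4 : ENNReal.ofReal ((L : ℝ) ^ (ε / 2) * M * Real.sqrt (((w : ℤ) : ℝ) / J.card)) = ENNReal.ofReal q := by
      rw [hq, Int.cast_natCast]
    rw [h4]
    exact mul_le_mul_right (P1_mono17 fun η S _ hS => hS.1) _
  refine (sum_le_sum hone).trans ?_
  rw [sum_add_distrib, ← mul_sum, sum_const, nsmul_eq_mul]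
  have hcount : ∀ S ∈ (range N).powerset, ((T.filter fun p => Q p S).card : ℝ) ≤ 4 * ((w : ℝ) / g + 1) := by
    intro S _
    have h2 : T.filter (fun p => Q p S) ⊆
        ((G.filter fun Y => (g : ℤ) ∣ Y ∧ |(pos S j₀ - md μ s j₀) - Y| ≤ w).image fun Y => ((1 : ℤ), Y)) ∪
        ((G.filter fun Y => (g : ℤ) ∣ Y ∧ |(-(pos S j₀ - md μ s j₀)) - Y| ≤ w).image fun Y => ((-1 : ℤ), Y)) := by
      intro p hp
      rw [mem_filter, hT, mem_filter, mem_product, mem_insert, mem_singleton, hQ] at hp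
      obtain ⟨⟨⟨h3, h4⟩, h5⟩, h6⟩ := hp
      rw [mem_union, mem_image, mem_image]
      rcases h3 with h3 | h3
      · left
        refine ⟨p.2, ?_, Prod.ext h3.symm rfl⟩
        rw [mem_filter]
        refine ⟨h4, h5, ?_⟩
        rw [h3, one_mul] at h6
        exact h6
      · right
        refine ⟨p.2, ?_, Prod.ext h3.symm rfl⟩
        rw [mem_filter]
        refine ⟨h4, h5, ?_⟩
        rw [h3, neg_one_mul] at h6
        exact h6
    have h3 : (T.filter fun p => Q p S).card ≤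
        (G.filter fun Y => (g : ℤ) ∣ Y ∧ |(pos S j₀ - md μ s j₀) - Y| ≤ w).card +
        (G.filter fun Y => (g : ℤ) ∣ Y ∧ |(-(pos S j₀ - md μ s j₀)) - Y| ≤ w).card :=
      (card_le_card h2).trans ((card_union_le _ _).trans (add_le_add card_image_le card_image_le))
    have h4 := card_grid G hg (pos S j₀ - md μ s j₀) w
    have h5 := card_grid G hg (-(pos S j₀ - md μ s j₀)) w
    have h6 : ((T.filter fun p => Q p S).card : ℝ) ≤
        ((G.filter fun Y => (g : ℤ) ∣ Y ∧ |(pos S j₀ - md μ s j₀) - Y| ≤ w).card : ℝ) +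
        ((G.filter fun Y => (g : ℤ) ∣ Y ∧ |(-(pos S j₀ - md μ s j₀)) - Y| ≤ w).card : ℝ) := by exact_mod_cast h3
    linarith
  have h2 := P1_sum_le (μ := μ) (s := s) T (N := N) (y := y) A Q hcount
  refine add_le_add ?_ ?_
  · refine (mul_le_mul_right h2 _).trans ?_
    rw [← mul_assoc, ← ENNReal.ofReal_mul hq0]
    refine mul_le_mul_left (ENNReal.ofReal_le_ofReal ?_) _
    have h3 := hL₂ L (by omega)
    have h4 : (L : ℝ) ^ ε = (L : ℝ) ^ (ε / 2) * (L : ℝ) ^ (ε / 2) := by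
      rw [← Real.rpow_add (by linarith)]
      congr 1
      ring
    rw [hq, h4]
    have h5 : 0 ≤ (L : ℝ) ^ (ε / 2) * M * Real.sqrt ((w : ℝ) / J.card) * ((w : ℝ) / g + 1) := by
      have : 0 ≤ M := by linarith
      positivity
    calc (L : ℝ) ^ (ε / 2) * M * Real.sqrt ((w : ℝ) / J.card) * (4 * ((w : ℝ) / g + 1)) =
        4 * ((L : ℝ) ^ (ε / 2) * M * Real.sqrt ((w : ℝ) / J.card) * ((w : ℝ) / g + 1)) := by ring
      _ ≤ (L : ℝ) ^ (ε / 2) * ((L : ℝ) ^ (ε / 2) * M * Real.sqrt ((w : ℝ) / J.card) * ((w : ℝ) / g + 1)) :=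
        mul_le_mul_of_nonneg_right h3 h5
      _ = _ := by ring
  · have h3 : (T.card : ℝ) ≤ 10 * L := by
      have h4 : T.card ≤ 2 * (4 * L + 1) := by
        rw [hT]
        refine (card_filter_le _ _).trans ?_
        rw [card_product, hG, Int.card_Icc]
        have h5 : ({1, -1} : Finset ℤ).card ≤ 2 := card_le_two
        have h6 : ((2 * L : ℤ) + 1 - -(2 * L : ℤ)).toNat = 4 * L + 1 := by omega
        rw [h6]
        exact Nat.mul_le_mul_right _ h5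
      have h5 : (T.card : ℝ) ≤ ((2 * (4 * L + 1) : ℕ) : ℝ) := by exact_mod_cast h4
      push_cast at h5
      linarith
    rw [← ENNReal.ofReal_natCast, ← ENNReal.ofReal_mul (Nat.cast_nonneg _)]
    refine ENNReal.ofReal_le_ofReal ((mul_le_mul_of_nonneg_right h3 he0).trans ?_)
    rw [he]
    exact hL₁ L (by omega)

end

end Pool.Agent.W_7d29a1_HZ.Z17
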