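import Pool.Agent.W_7d29a1_HZ.Act
import Pool.Agent.W_7d29a1_HZ.Z17_TieW17
import Pool.Agent.W_7d29a1_HZ.TieC
import Pool.Agent.W_7d29a1_H.LamH

/-!
MP_7d29a1_pr, HZ (STORM Z at the tilt `s`), leaf TIE (DL): near ties are rare, whatever else is known. (Model: `W_7d29a1_Z.Tie`.) (helper76)
-/

set_option autoImplicit false

namespace Pool.Agent.W_7d29a1_HZ

open MeasureTheory ProbabilityTheory Filter Topology Finset
open Pool.Agent.W_7d29a1_F Pool.Agent.W_7d29a1_X Pool.Agent.W_7d29a1_h4g Pool.Agent.W_7d29a1_H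
open Pool.Agent.W_7d29a1_HS (In wd md)
open scoped ENNReal

variable {μ : Measure ℝ} {s : ℝ}

/-- Near tie at the rows `J` behind the line `Y`, given any event `A` which does not depend on the environment at the rows `J`. -/
theorem tie [IsProbabilityMeasure μ] (hem : Pool.Agent.W_7d29a1_h47.EM μ) (hnd : Pool.Agent.W_7d29a1_h47.Nondeg μ) :
    ∀ ε : ℝ, 0 < ε → ∃ c : ℝ, 0 < c ∧ ∃ L₀ : ℕ, ∀ L : ℕ, L₀ ≤ L → ∀ N : ℕ, N ≤ L → ∀ y : ℤ, 0 ≤ y → y ≤ N →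
      ∀ (H : ℕ) (J : Finset ℕ), J.Nonempty → (∀ i ∈ J, 1 ≤ i ∧ i < N) → ∀ sg Y w : ℤ, (sg = 1 ∨ sg = -1) → 1 ≤ w → w ≤ L →
      ∀ M : ℝ, 1 ≤ M → ∀ A : Env → Finset ℕ → Prop, Ms A → OffRows J A →
      P1 μ s N y (fun η S => A η S ∧ NT μ s N H sg J Y w M η S) ≤
        ENNReal.ofReal ((L : ℝ) ^ ε * M * Real.sqrt ((w : ℝ) / J.card)) * P1 μ s N y (fun η S => A η S ∧ InL μ s sg J Y S) +
          ENNReal.ofReal (Real.exp (-(L : ℝ) ^ c)) :=
  tie_all36 hnd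

/-- Near tie for some line of the grid. -/
theorem tieW [IsProbabilityMeasure μ] (hem : Pool.Agent.W_7d29a1_h47.EM μ) (hnd : Pool.Agent.W_7d29a1_h47.Nondeg μ) :
    ∀ ε : ℝ, 0 < ε → ∃ c : ℝ, 0 < c ∧ ∃ L₀ : ℕ, ∀ L : ℕ, L₀ ≤ L → ∀ N : ℕ, N ≤ L → ∀ y : ℤ, 0 ≤ y → y ≤ N →
      ∀ (H j₀ : ℕ) (J : Finset ℕ), J.Nonempty → (∀ i ∈ J, 1 ≤ i ∧ i < N) → j₀ ≤ N → ∀ g w : ℕ, 1 ≤ g → 1 ≤ w → w ≤ L →
      ∀ M : ℝ, 1 ≤ M → ∀ A : Env → Finset ℕ → Prop, Ms A → OffRows J A →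
      P1 μ s N y (fun η S => A η S ∧ NTW μ s N H j₀ J g w M η S) ≤
        ENNReal.ofReal ((L : ℝ) ^ ε * M * ((w : ℝ) / g + 1) * Real.sqrt ((w : ℝ) / J.card)) * P1 μ s N y A +
          ENNReal.ofReal (Real.exp (-(L : ℝ) ^ c)) :=
  Z17.tieW_of (sl_mem hem hnd s).1.le (sl_mem hem hnd s).2.le (tie hem hnd)

/-! ### Peeling of separated near ties -/

theorem kr_rows (R : Set Pt) {η η' : Env} {a b : ℕ} (hab : a ≤ b) (X : ℕ → ℤ)
    (h : ∀ q : Pt, (a : ℤ) < q.1 → q.1 ≤ b → η q = η' q) : kr μ s R η a b X = kr μ s R η' a b X := by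
  unfold kr
  apply WR_dep R _ _ _
  intro q hq
  have hc := hq.1
  simp only [cone, Set.mem_ofPred_eq] at hc
  refine h q hc.1 ?_
  have h2 := hc.2.1
  push_cast [Nat.cast_sub hab] at h2
  linarith

theorem NT_off {N H : ℕ} {sg : ℤ} {J J' : Finset ℕ} (hJ : J.Nonempty) {Y w : ℤ} {M : ℝ}
    (hsep : ∀ i ∈ J, ∀ j ∈ J', i + 2 * H ≤ j ∨ j + 2 * H ≤ i) : OffRows J' (NT μ s N H sg J Y w M) := by
  have key : ∀ (η η' : Env) (S : Finset ℕ), (∀ q : Pt, ¬ (0 ≤ q.1 ∧ q.1.toNat ∈ J') → η q = η' q) →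
      NT μ s N H sg J Y w M η S → NT μ s N H sg J Y w M η' S := by
    rintro η η' S h ⟨h1, a, b, hbN, hab, hJab, hk⟩
    obtain ⟨i, hi⟩ := hJ
    have hi' := hJab i hi
    have hrow : ∀ q : Pt, (a : ℤ) < q.1 → q.1 ≤ b → η q = η' q := by
      intro q h3 h4
      apply h
      rintro ⟨h5, h6⟩
      have h7 := hsep i hi _ h6
      omega
    have hle : a ≤ b := by omega
    refine ⟨h1, a, b, hbN, hab, hJab, ?_⟩
    rw [← kr_rows (Lr μ s sg J Y) hle (pos S) hrow, ← kr_rows (Rr μ s sg J Y w) hle (pos S) hrow]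
    exact hk
  intro η η' S h
  exact ⟨key η η' S h, key η' η S (fun q hq => (h q hq).symm)⟩

theorem NTW_off {N H j₀ g w : ℕ} {J J' : Finset ℕ} (hJ : J.Nonempty) {M : ℝ}
    (hsep : ∀ i ∈ J, ∀ j ∈ J', i + 2 * H ≤ j ∨ j + 2 * H ≤ i) : OffRows J' (NTW μ s N H j₀ J g w M) := by
  intro η η' S h
  unfold NTW
  constructor
  · rintro ⟨sg, Y, h1, h2, h3, h4⟩
    exact ⟨sg, Y, h1, h2, h3, (NT_off hJ hsep η η' S h).1 h4⟩
  · rintro ⟨sg, Y, h1, h2, h3, h4⟩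
    exact ⟨sg, Y, h1, h2, h3, (NT_off hJ hsep η η' S h).2 h4⟩

theorem measurable_kr (R : Set Pt) (a b : ℕ) (X : ℕ → ℤ) : Measurable fun η : Env => kr μ s R η a b X := by
  unfold kr
  exact measurable_WR _ _ _ _

theorem NT_ms (N H : ℕ) (sg : ℤ) (J : Finset ℕ) (Y w : ℤ) (M : ℝ) : Ms (NT μ s N H sg J Y w M) := by
  intro S
  have : {η : Env | NT μ s N H sg J Y w M η S} = ⋃ (_ : InL μ s sg J Y S), ⋃ a : ℕ, ⋃ b : ℕ,
      ⋃ (_ : b ≤ N ∧ b ≤ a + H ∧ ∀ i ∈ J, a < i ∧ i < b),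
        {η : Env | Real.exp (-M) * kr μ s (Lr μ s sg J Y) η a b (pos S) ≤ kr μ s (Rr μ s sg J Y w) η a b (pos S)} := by
    ext η
    simp only [NT, Set.mem_ofPred_eq, Set.mem_iUnion, exists_prop]
    constructor
    · rintro ⟨h1, a, b, h2, h3, h4, h5⟩
      exact ⟨h1, a, b, ⟨h2, h3, h4⟩, h5⟩
    · rintro ⟨h1, a, b, ⟨h2, h3, h4⟩, h5⟩
      exact ⟨h1, a, b, h2, h3, h4, h5⟩
  rw [this]
  refine MeasurableSet.iUnion fun _ => MeasurableSet.iUnion fun a => MeasurableSet.iUnion fun b =>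
    MeasurableSet.iUnion fun _ => ?_
  exact measurableSet_le ((measurable_kr _ _ _ _).const_mul _) (measurable_kr _ _ _ _)

theorem NTW_ms (N H j₀ : ℕ) (J : Finset ℕ) (g w : ℕ) (M : ℝ) : Ms (NTW μ s N H j₀ J g w M) := by
  intro S
  have : {η : Env | NTW μ s N H j₀ J g w M η S} = ⋃ sg : ℤ, ⋃ Y : ℤ,
      ⋃ (_ : (sg = 1 ∨ sg = -1) ∧ (g : ℤ) ∣ Y ∧ |sg * (pos S j₀ - md μ s j₀) - Y| ≤ w),
        {η : Env | NT μ s N H sg J Y w M η S} := by
    ext η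
    simp only [NTW, Set.mem_ofPred_eq, Set.mem_iUnion, exists_prop]
    constructor
    · rintro ⟨sg, Y, h1, h2, h3, h4⟩
      exact ⟨sg, Y, ⟨h1, h2, h3⟩, h4⟩
    · rintro ⟨sg, Y, ⟨h1, h2, h3⟩, h4⟩
      exact ⟨sg, Y, h1, h2, h3, h4⟩
  rw [this]
  exact MeasurableSet.iUnion fun sg => MeasurableSet.iUnion fun Y => MeasurableSet.iUnion fun _ =>
    NT_ms N H sg J Y w M S

/-- Many separated near ties. `Wn` is a finite list of windows `(j₀, J)`. -/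
theorem tie_count [IsProbabilityMeasure μ] (hem : Pool.Agent.W_7d29a1_h47.EM μ) (hnd : Pool.Agent.W_7d29a1_h47.Nondeg μ) :
    ∀ ε : ℝ, 0 < ε → ∃ c : ℝ, 0 < c ∧ ∃ L₀ : ℕ, ∀ L : ℕ, L₀ ≤ L → ∀ N : ℕ, N ≤ L → ∀ y : ℤ, 0 ≤ y → y ≤ N →
      ∀ (H : ℕ) (Wn : Finset (ℕ × Finset ℕ)), (∀ p ∈ Wn, p.1 ≤ N ∧ p.2.Nonempty ∧ ∀ i ∈ p.2, 1 ≤ i ∧ i < N) →
      ∀ g w : ℕ, 1 ≤ g → 1 ≤ w → w ≤ L → ∀ M : ℝ, 1 ≤ M → ∀ ρ : ℝ,
      (∀ p ∈ Wn, (L : ℝ) ^ ε * M * ((w : ℝ) / g + 1) * Real.sqrt ((w : ℝ) / p.2.card) ≤ ρ) → ρ ≤ 1 → ∀ n : ℕ,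
      P1 μ s N y (fun η S => ∃ T ⊆ Wn, T.card = n ∧ (∀ p ∈ T, NTW μ s N H p.1 p.2 g w M η S) ∧
          ∀ p ∈ T, ∀ q ∈ T, p ≠ q → ∀ i ∈ p.2, ∀ j ∈ q.2, i + 2 * H ≤ j ∨ j + 2 * H ≤ i) ≤
        ENNReal.ofReal ((Wn.card * ρ) ^ n + (Wn.card : ℝ) ^ n * n * Real.exp (-(L : ℝ) ^ c)) := by
  intro ε hε
  obtain ⟨c, hc, L₀, h⟩ := tieW hem hnd ε hε
  refine ⟨c, hc, L₀, fun L hL N hNL y hy0 hyN H Wn hWn g w hg hw hwL M hM ρ hρ hρ1 n => ?_⟩
  have he0 : 0 ≤ Real.exp (-(L : ℝ) ^ c) := (Real.exp_pos _).le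
  -- nonnegativity of ρ
  have hρ0 : Wn.Nonempty → 0 ≤ ρ := by
    rintro ⟨p, hp⟩
    refine le_trans ?_ (hρ p hp)
    positivity
  -- one family
  have hone : ∀ T : Finset (ℕ × Finset ℕ), T ⊆ Wn →
      (∀ p ∈ T, ∀ q ∈ T, p ≠ q → ∀ i ∈ p.2, ∀ j ∈ q.2, i + 2 * H ≤ j ∨ j + 2 * H ≤ i) →
      P1 μ s N y (fun η S => ∀ p ∈ T, NTW μ s N H p.1 p.2 g w M η S) ≤
        ENNReal.ofReal (ρ ^ T.card + T.card * Real.exp (-(L : ℝ) ^ c)) := by
    classical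
    intro T
    induction T using Finset.induction_on with
    | empty =>
        intro _ _
        simp only [Finset.card_empty, pow_zero, Nat.cast_zero, zero_mul, add_zero, ENNReal.ofReal_one]
        exact P1_le_one hy0 hyN _
    | insert p T hpT ih =>
        intro hsub hsep
        have hpW : p ∈ Wn := hsub (Finset.mem_insert_self _ _)
        have hρ0' : 0 ≤ ρ := hρ0 ⟨p, hpW⟩
        have ih' := ih (fun q hq => hsub (Finset.mem_insert_of_mem hq))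
          (fun q hq r hr => hsep q (Finset.mem_insert_of_mem hq) r (Finset.mem_insert_of_mem hr))
        obtain ⟨hp1, hp2, hp3⟩ := hWn p hpW
        have hms : Ms (fun η S => ∀ q ∈ T, NTW μ s N H q.1 q.2 g w M η S) := by
          intro S
          have : {η : Env | ∀ q ∈ T, NTW μ s N H q.1 q.2 g w M η S} =
              ⋂ q ∈ T, {η : Env | NTW μ s N H q.1 q.2 g w M η S} := by
            ext η; simp only [Set.mem_ofPred_eq, Set.mem_iInter]
          rw [this]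
          exact Finset.measurableSet_biInter T fun q _ => NTW_ms N H q.1 q.2 g w M S
        have hoff : OffRows p.2 (fun η S => ∀ q ∈ T, NTW μ s N H q.1 q.2 g w M η S) := by
          intro η η' S hη
          have h1 : ∀ q ∈ T, (NTW μ s N H q.1 q.2 g w M η S ↔ NTW μ s N H q.1 q.2 g w M η' S) := by
            intro q hq
            have hqW := hWn q (hsub (Finset.mem_insert_of_mem hq))
            have hne : q ≠ p := fun hqp => hpT (hqp ▸ hq)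
            exact NTW_off hqW.2.1
              (hsep q (Finset.mem_insert_of_mem hq) p (Finset.mem_insert_self _ _) hne) η η' S hη
          exact ⟨fun h2 q hq => (h1 q hq).1 (h2 q hq), fun h2 q hq => (h1 q hq).2 (h2 q hq)⟩
        have hmain := h L hL N hNL y hy0 hyN H p.1 p.2 hp2 hp3 hp1 g w hg hw hwL M hM _ hms hoff
        have h2 : P1 μ s N y (fun η S => ∀ q ∈ insert p T, NTW μ s N H q.1 q.2 g w M η S) ≤
            P1 μ s N y (fun η S => (∀ q ∈ T, NTW μ s N H q.1 q.2 g w M η S) ∧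
              NTW μ s N H p.1 p.2 g w M η S) := by
          apply P1_mono
          intro η S _ hall
          exact ⟨fun q hq => hall q (Finset.mem_insert_of_mem hq), hall p (Finset.mem_insert_self _ _)⟩
        refine le_trans h2 (le_trans hmain ?_)
        rw [Finset.card_insert_of_notMem hpT]
        calc ENNReal.ofReal ((L : ℝ) ^ ε * M * ((w : ℝ) / g + 1) * Real.sqrt ((w : ℝ) / p.2.card)) *
              P1 μ s N y (fun η S => ∀ q ∈ T, NTW μ s N H q.1 q.2 g w M η S) +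
              ENNReal.ofReal (Real.exp (-(L : ℝ) ^ c))
            ≤ ENNReal.ofReal ρ * ENNReal.ofReal (ρ ^ T.card + T.card * Real.exp (-(L : ℝ) ^ c)) +
              ENNReal.ofReal (Real.exp (-(L : ℝ) ^ c)) := by
              gcongr
              exact hρ p hpW
          _ = ENNReal.ofReal (ρ * (ρ ^ T.card + T.card * Real.exp (-(L : ℝ) ^ c)) +
              Real.exp (-(L : ℝ) ^ c)) := by
              rw [← ENNReal.ofReal_mul hρ0', ← ENNReal.ofReal_add (by positivity) he0]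
          _ ≤ ENNReal.ofReal (ρ ^ (T.card + 1) + ((T.card + 1 : ℕ) : ℝ) * Real.exp (-(L : ℝ) ^ c)) := by
              apply ENNReal.ofReal_le_ofReal
              have h3 : ρ * (T.card * Real.exp (-(L : ℝ) ^ c)) ≤ T.card * Real.exp (-(L : ℝ) ^ c) :=
                mul_le_of_le_one_left (by positivity) hρ1
              push_cast
              rw [pow_succ]
              nlinarith
  classical
  -- the union
  set F := (Wn.powersetCard n).filter (fun T => ∀ p ∈ T, ∀ q ∈ T, p ≠ q → ∀ i ∈ p.2, ∀ j ∈ q.2,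
    i + 2 * H ≤ j ∨ j + 2 * H ≤ i) with hF
  have hstep1 : P1 μ s N y (fun η S => ∃ T ⊆ Wn, T.card = n ∧ (∀ p ∈ T, NTW μ s N H p.1 p.2 g w M η S) ∧
          ∀ p ∈ T, ∀ q ∈ T, p ≠ q → ∀ i ∈ p.2, ∀ j ∈ q.2, i + 2 * H ≤ j ∨ j + 2 * H ≤ i) ≤
      P1 μ s N y (fun η S => ∃ T ∈ F, ∀ p ∈ T, NTW μ s N H p.1 p.2 g w M η S) := by
    apply P1_mono
    rintro η S _ ⟨T, h1, h2, h3, h4⟩
    refine ⟨T, ?_, h3⟩
    rw [hF, Finset.mem_filter, Finset.mem_powersetCard]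
    exact ⟨⟨h1, h2⟩, h4⟩
  refine le_trans hstep1 (le_trans (P1_exists F _) ?_)
  have hsum : ∑ T ∈ F, P1 μ s N y (fun η S => ∀ p ∈ T, NTW μ s N H p.1 p.2 g w M η S) ≤
      ∑ T ∈ F, ENNReal.ofReal (ρ ^ n + n * Real.exp (-(L : ℝ) ^ c)) := by
    apply Finset.sum_le_sum
    intro T hT
    rw [hF, Finset.mem_filter, Finset.mem_powersetCard] at hT
    have h1 := hone T hT.1.1 hT.2
    rw [hT.1.2] at h1
    exact h1
  refine le_trans hsum ?_
  rw [Finset.sum_const, nsmul_eq_mul]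
  rcases Wn.eq_empty_or_nonempty with hW0 | hWne
  · subst hW0
    rcases Nat.eq_zero_or_pos n with hn0 | hnpos
    · subst hn0
      have hFc : F.card ≤ 1 := by
        refine le_trans (Finset.card_filter_le _ _) ?_
        simp
      simp only [pow_zero, Nat.cast_zero, zero_mul, add_zero, mul_zero]
      calc (F.card : ℝ≥0∞) * ENNReal.ofReal 1 ≤ ((1 : ℕ) : ℝ≥0∞) * ENNReal.ofReal 1 := by gcongr
        _ = ENNReal.ofReal 1 := by simp
    · have hFe : F = ∅ := by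
        rw [hF, Finset.filter_eq_empty_iff]
        intro T hT
        rw [Finset.mem_powersetCard] at hT
        have h1 : T = ∅ := Finset.subset_empty.mp hT.1
        have h2 := hT.2
        rw [h1, Finset.card_empty] at h2
        omega
      rw [hFe]; simp
  · have hρ0' := hρ0 hWne
    have hFc : F.card ≤ Wn.card ^ n := by
      refine le_trans (Finset.card_filter_le _ _) ?_
      rw [Finset.card_powersetCard]
      calc Wn.card.choose n ≤ Wn.card.choose n * n.factorial :=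
            Nat.le_mul_of_pos_right _ (Nat.factorial_pos n)
        _ = Wn.card.descFactorial n := by rw [Nat.descFactorial_eq_factorial_mul_choose, mul_comm]
        _ ≤ Wn.card ^ n := Nat.descFactorial_le_pow Wn.card n
    have hb : 0 ≤ ρ ^ n + n * Real.exp (-(L : ℝ) ^ c) := by positivity
    calc (F.card : ℝ≥0∞) * ENNReal.ofReal (ρ ^ n + n * Real.exp (-(L : ℝ) ^ c))
        ≤ ((Wn.card ^ n : ℕ) : ℝ≥0∞) * ENNReal.ofReal (ρ ^ n + n * Real.exp (-(L : ℝ) ^ c)) := by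
          gcongr
      _ = ENNReal.ofReal (((Wn.card ^ n : ℕ) : ℝ) * (ρ ^ n + n * Real.exp (-(L : ℝ) ^ c))) := by
          rw [ENNReal.ofReal_mul (by positivity), ENNReal.ofReal_natCast]
      _ = ENNReal.ofReal ((Wn.card * ρ) ^ n + (Wn.card : ℝ) ^ n * n * Real.exp (-(L : ℝ) ^ c)) := by
          congr 1
          push_cast
          rw [mul_pow]; ring

end Pool.Agent.W_7d29a1_HZ
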