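import Pool.Agent.W_7d29a1_HZ.Defs
import Pool.Agent.W_7d29a1_Z.Asm72
import Pool.Agent.W_7d29a1_F.CoreB1

/-!
STORM Z, helper86: the annealed set functions `P1`, `P2` of `Z/Defs.lean`: total mass,
monotone, subadditive; the two marginals of `P2`; the invariance under exchanges.  All sets,
no measurability of events.
-/

set_option autoImplicit false

namespace Pool.Agent.W_7d29a1_HZ.Z86

open MeasureTheory Finset
open Pool.Agent.W_7d29a1_F Pool.Agent.W_7d29a1_X Pool.Agent.W_7d29a1_HZ
open scoped ENNReal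

noncomputable section

/-! ### Sums of measures with densities, all sets -/

theorem wd_sum {E κ : Type*} [MeasurableSpace E] (m : Measure E) (s : Finset κ)
    (f : κ → E → ℝ≥0∞) (hf : ∀ i ∈ s, Measurable (f i)) (X : Set E) :
    ∑ i ∈ s, (m.withDensity (f i)) X = (m.withDensity fun η => ∑ i ∈ s, f i η) X := by
  classical
  induction s using Finset.induction_on with
  | empty =>
    simp only [sum_empty]
    have : (fun _ : E => (0 : ℝ≥0∞)) = 0 := rfl
    rw [this, withDensity_zero]
    simp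
  | insert i s hi ih =>
    rw [sum_insert hi, ih fun j hj => hf j (mem_insert_of_mem hj)]
    have e : (fun η => ∑ j ∈ insert i s, f j η) = f i + fun η => ∑ j ∈ s, f j η := by
      funext η
      rw [sum_insert hi]; rfl
    rw [e, withDensity_add_left (hf i (mem_insert_self i s)), Measure.add_apply]

/-- Change of variables for densities under a measure preserving bijection, all sets. -/
theorem wd_comp {E : Type*} [MeasurableSpace E] (m : Measure E) (T : E ≃ᵐ E)
    (hT : MeasurePreserving T m m) (f : E → ℝ≥0∞) (hf : Measurable f) (X : Set E) :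
    (m.withDensity fun η => f (T η)) {η | T η ∈ X} = (m.withDensity f) X := by
  have h : (m.withDensity fun η => f (T η)).map T = m.withDensity f := by
    ext A hA
    rw [MeasurableEquiv.map_apply, withDensity_apply _ (T.measurable hA), withDensity_apply _ hA]
    exact hT.setLIntegral_comp_preimage hA hf
  rw [← h, MeasurableEquiv.map_apply]
  rfl

/-! ### Shears -/

theorem sv_zero (v : ℕ → ℤ) (a : ℕ) : sv v a a = 0 := by simp [sv]

theorem sv_neg (v : ℕ → ℤ) (a i : ℕ) : sv (-v) a i = -sv v a i := by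
  simp [sv]

theorem sv_add (v w : ℕ → ℤ) (a i : ℕ) : sv (v + w) a i = sv v a i + sv w a i := by
  simp [sv, sum_add_distrib]

theorem shr_shr (a : ℕ) (v w : ℕ → ℤ) (η : Env) : shr a v (shr a w η) = shr a (v + w) η := by
  funext p
  simp only [shr]
  rw [sv_add]
  congr 2
  ring

theorem shr_zero (a : ℕ) (η : Env) : shr a 0 η = η := by
  funext p
  simp [shr, sv]

variable {μ : Measure ℝ} {s : ℝ}

theorem mp_shr [IsProbabilityMeasure μ] (a : ℕ) (v : ℕ → ℤ) :
    MeasurePreserving (shr a v) (law μ) (law μ) := by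
  refine mp_reindex (μ := μ) (fun p : Pt => ((p.1, p.2 - sv v a p.1.toNat) : Pt)) ?_
  rintro ⟨i, y⟩ ⟨j, z⟩ h
  simp only [Prod.mk.injEq] at h
  obtain ⟨h1, h2⟩ := h
  subst h1
  exact Prod.ext rfl (by simpa using h2)

theorem shr_meas (a : ℕ) (v : ℕ → ℤ) : Measurable (shr a v) :=
  measurable_pi_iff.2 fun _ => measurable_pi_apply _

/-- The shear as a measurable equivalence. -/
def shrE (a : ℕ) (v : ℕ → ℤ) : Env ≃ᵐ Env where
  toFun := shr a v
  invFun := shr a (-v)
  left_inv η := by rw [shr_shr, neg_add_cancel, shr_zero]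
  right_inv η := by rw [shr_shr, add_neg_cancel, shr_zero]
  measurable_toFun := shr_meas a v
  measurable_invFun := shr_meas a (-v)

@[simp] theorem shrE_apply (a : ℕ) (v : ℕ → ℤ) (η : Env) : shrE a v η = shr a v η := rfl

/-! ### The Gibbs weights -/

theorem pth_meas (N : ℕ) (S : Finset ℕ) : Measurable fun η : Env => pth μ s η N S := by
  unfold pth
  refine measurable_const.mul (Finset.measurable_prod _ fun i _ => ?_)
  exact Real.measurable_exp.comp (measurable_pi_apply _)

theorem W_eq_sum (η : Env) (N : ℕ) (y : ℤ) :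
    W μ s η 0 N y = ∑ S ∈ (range N).powerset, if pos S N = y then pth μ s η N S else 0 := by
  rw [← Mt_one (μ := μ) (s := s) η N y]
  unfold Mt
  simp only [mul_one]

theorem W_meas (N : ℕ) (y : ℤ) : Measurable fun η : Env => W μ s η 0 N y := by
  have : (fun η : Env => W μ s η 0 N y)
      = fun η => ∑ S ∈ (range N).powerset, if pos S N = y then pth μ s η N S else 0 := by
    funext η; exact W_eq_sum η N y
  rw [this]
  refine Finset.measurable_sum _ fun S _ => ?_
  split_ifs
  · exact pth_meas N S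
  · exact measurable_const

theorem gp_meas (N : ℕ) (y : ℤ) (S : Finset ℕ) : Measurable fun η : Env => gp μ s η N y S := by
  unfold gp
  split_ifs
  · exact (pth_meas N S).div (W_meas N y)
  · exact measurable_const

theorem W_nonneg' (η : Env) (N : ℕ) (y : ℤ) : 0 ≤ W μ s η 0 N y := by
  rw [W_eq_sum]
  refine sum_nonneg fun S _ => ?_
  split_ifs
  · exact pth_nonneg _ _ _
  · exact le_rfl

theorem gp_nonneg (η : Env) (N : ℕ) (y : ℤ) (S : Finset ℕ) : 0 ≤ gp μ s η N y S := by
  unfold gp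
  split_ifs
  · exact div_nonneg (pth_nonneg _ _ _) (W_nonneg' η N y)
  · exact le_rfl

theorem gp_sum_eq (η : Env) (N : ℕ) (y : ℤ) :
    ∑ S ∈ (range N).powerset, gp μ s η N y S = W μ s η 0 N y / W μ s η 0 N y := by
  have e : ∀ S ∈ (range N).powerset, gp μ s η N y S
      = (if pos S N = y then pth μ s η N S else 0) / W μ s η 0 N y := by
    intro S _
    unfold gp
    split_ifs
    · rfl
    · rw [zero_div]
  rw [sum_congr rfl e, ← sum_div, ← W_eq_sum]

theorem gp_sum_le (η : Env) (N : ℕ) (y : ℤ) : ∑ S ∈ (range N).powerset, gp μ s η N y S ≤ 1 := by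
  rw [gp_sum_eq]
  exact div_self_le_one _

/-- The weight from `(0, 0)` to `(N, y)` is positive for `0 ≤ y ≤ N`. -/
theorem W_pos' (η : Env) {N : ℕ} {y : ℤ} (h0 : 0 ≤ y) (h1 : y ≤ N) : 0 < W μ s η 0 N y := by
  rw [W_eq_sum]
  have hmem : range y.toNat ∈ (range N).powerset := by
    rw [mem_powerset]
    exact range_subset_range.2 (by omega)
  have hpos : pos (range y.toNat) N = y := by
    unfold pos
    rw [inter_eq_left.2 (range_subset_range.2 (by omega : y.toNat ≤ N)), card_range]
    omega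
  have hpp : 0 < pth μ s η N (range y.toNat) := by
    unfold pth
    exact mul_pos (Real.exp_pos _) (prod_pos fun _ _ => Real.exp_pos _)
  refine lt_of_lt_of_le hpp ?_
  have := single_le_sum (f := fun S => if pos S N = y then pth μ s η N S else 0)
    (fun S _ => by
      split_ifs
      · exact pth_nonneg _ _ _
      · exact le_rfl) hmem
  simpa [hpos] using this

theorem gp_sum (η : Env) {N : ℕ} {y : ℤ} (h0 : 0 ≤ y) (h1 : y ≤ N) :
    ∑ S ∈ (range N).powerset, gp μ s η N y S = 1 := by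
  rw [gp_sum_eq, div_self (W_pos' η h0 h1).ne']

/-! ### `P1` and `P2` -/

theorem P1_mono (N : ℕ) (y : ℤ) {A B : Env → Finset ℕ → Prop} (h : ∀ η S, A η S → B η S) :
    P1 μ s N y A ≤ P1 μ s N y B :=
  sum_le_sum fun S _ => measure_mono fun η hη => h η S hη

theorem P1_union (N : ℕ) (y : ℤ) (A B : Env → Finset ℕ → Prop) :
    P1 μ s N y (fun η S => A η S ∨ B η S) ≤ P1 μ s N y A + P1 μ s N y B := by
  unfold P1
  rw [← sum_add_distrib]
  exact sum_le_sum fun S _ => measure_union_le _ _

theorem P1_empty (N : ℕ) (y : ℤ) : P1 μ s N y (fun _ _ => False) = 0 := by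
  unfold P1
  refine sum_eq_zero fun S _ => ?_
  have : {η : Env | False} = ∅ := rfl
  rw [this, measure_empty]

theorem P2_mono (N : ℕ) (y : ℤ) (v : ℕ → ℤ) {A B : Env → Finset ℕ → Finset ℕ → Prop}
    (h : ∀ η S S', A η S S' → B η S S') : P2 μ s N y v A ≤ P2 μ s N y v B :=
  sum_le_sum fun S _ => sum_le_sum fun S' _ => measure_mono fun η hη => h η S S' hη

theorem P2_union (N : ℕ) (y : ℤ) (v : ℕ → ℤ) (A B : Env → Finset ℕ → Finset ℕ → Prop) :
    P2 μ s N y v (fun η S S' => A η S S' ∨ B η S S') ≤ P2 μ s N y v A + P2 μ s N y v B := by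
  unfold P2
  rw [← sum_add_distrib]
  refine sum_le_sum fun S _ => ?_
  rw [← sum_add_distrib]
  exact sum_le_sum fun S' _ => measure_union_le _ _

theorem P2_empty (N : ℕ) (y : ℤ) (v : ℕ → ℤ) : P2 μ s N y v (fun _ _ _ => False) = 0 := by
  unfold P2
  refine sum_eq_zero fun S _ => sum_eq_zero fun S' _ => ?_
  have : {η : Env | False} = ∅ := rfl
  rw [this, measure_empty]

theorem P1_le_one [IsProbabilityMeasure μ] (N : ℕ) (y : ℤ) (A : Env → Finset ℕ → Prop) :
    P1 μ s N y A ≤ 1 := by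
  refine (P1_mono N y (B := fun _ _ => True) fun _ _ _ => trivial).trans ?_
  unfold P1
  rw [wd_sum (law μ) _ _ (fun S _ => (gp_meas N y S).ennreal_ofReal)]
  refine (measure_mono (Set.subset_univ _)).trans ?_
  rw [withDensity_apply _ MeasurableSet.univ, Measure.restrict_univ]
  calc ∫⁻ η, ∑ S ∈ (range N).powerset, ENNReal.ofReal (gp μ s η N y S) ∂(law μ)
      ≤ ∫⁻ _η, 1 ∂(law μ) := by
        refine lintegral_mono fun η => ?_
        rw [← ENNReal.ofReal_sum_of_nonneg fun S _ => gp_nonneg η N y S, ← ENNReal.ofReal_one]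
        exact ENNReal.ofReal_le_ofReal (gp_sum_le η N y)
    _ = 1 := by rw [lintegral_one, measure_univ]

/-- First marginal of `P2`. -/
theorem P2_fst {N : ℕ} {y : ℤ} (h0 : 0 ≤ y) (h1 : y ≤ N) (v : ℕ → ℤ)
    (A : Env → Finset ℕ → Prop) : P2 μ s N y v (fun η S _ => A η S) = P1 μ s N y A := by
  unfold P2 P1
  refine sum_congr rfl fun S _ => ?_
  rw [wd_sum (law μ) (range N).powerset
    (fun S' η => ENNReal.ofReal (gp μ s η N y S * gp μ s (shr 0 v η) N y S'))
    (fun S' _ => ((gp_meas N y S).mul ((gp_meas N y S').comp (shr_meas 0 v))).ennreal_ofReal)]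
  congr 2
  funext η
  rw [← ENNReal.ofReal_sum_of_nonneg fun S' _ => mul_nonneg (gp_nonneg _ _ _ _)
    (gp_nonneg _ _ _ _), ← mul_sum, gp_sum _ h0 h1, mul_one]

/-- Second marginal of `P2`: the sheared environment with its path. -/
theorem P2_snd [IsProbabilityMeasure μ] {N : ℕ} {y : ℤ} (h0 : 0 ≤ y) (h1 : y ≤ N) (v : ℕ → ℤ)
    (A : Env → Finset ℕ → Prop) :
    P2 μ s N y v (fun η _ S' => A (shr 0 v η) S') = P1 μ s N y A := by
  unfold P2 P1
  rw [sum_comm]
  refine sum_congr rfl fun S' _ => ?_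
  rw [wd_sum (law μ) (range N).powerset
    (fun S η => ENNReal.ofReal (gp μ s η N y S * gp μ s (shr 0 v η) N y S'))
    (fun S _ => ((gp_meas N y S).mul ((gp_meas N y S').comp (shr_meas 0 v))).ennreal_ofReal)]
  have e : (fun η => ∑ S ∈ (range N).powerset,
      ENNReal.ofReal (gp μ s η N y S * gp μ s (shr 0 v η) N y S'))
      = fun η => ENNReal.ofReal (gp μ s (shrE 0 v η) N y S') := by
    funext η
    rw [← ENNReal.ofReal_sum_of_nonneg fun S _ => mul_nonneg (gp_nonneg _ _ _ _)
      (gp_nonneg _ _ _ _), ← sum_mul, gp_sum _ h0 h1, one_mul]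
    rfl
  rw [e]
  exact wd_comp (law μ) (shrE 0 v) (mp_shr 0 v) (fun η => ENNReal.ofReal (gp μ s η N y S'))
    (gp_meas N y S').ennreal_ofReal {η | A η S'}

/-- Exchange: an involution of the pairs of paths which preserves the product of the weights
preserves `P2`. -/
theorem P2_invol (N : ℕ) (y : ℤ) (v : ℕ → ℤ)
    (σ : Finset ℕ × Finset ℕ → Finset ℕ × Finset ℕ)
    (hσ : ∀ q ∈ (range N).powerset ×ˢ (range N).powerset,
      σ q ∈ (range N).powerset ×ˢ (range N).powerset)
    (hσσ : ∀ q ∈ (range N).powerset ×ˢ (range N).powerset, σ (σ q) = q)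
    (hw : ∀ η, ∀ q ∈ (range N).powerset ×ˢ (range N).powerset,
      gp μ s η N y (σ q).1 * gp μ s (shr 0 v η) N y (σ q).2
        = gp μ s η N y q.1 * gp μ s (shr 0 v η) N y q.2)
    (A : Env → Finset ℕ → Finset ℕ → Prop) :
    P2 μ s N y v (fun η S S' => A η (σ (S, S')).1 (σ (S, S')).2) = P2 μ s N y v A := by
  unfold P2
  rw [← sum_product', ← sum_product']
  refine sum_bij' (fun q _ => σ q) (fun q _ => σ q) hσ hσ hσσ hσσ ?_
  intro q hq
  have e : (fun η => ENNReal.ofReal (gp μ s η N y q.1 * gp μ s (shr 0 v η) N y q.2))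
      = fun η => ENNReal.ofReal (gp μ s η N y (σ q).1 * gp μ s (shr 0 v η) N y (σ q).2) := by
    funext η
    rw [hw η q hq]
  rw [e]

theorem P2_le_one [IsProbabilityMeasure μ] {N : ℕ} {y : ℤ} (h0 : 0 ≤ y) (h1 : y ≤ N)
    (v : ℕ → ℤ) (A : Env → Finset ℕ → Finset ℕ → Prop) : P2 μ s N y v A ≤ 1 := by
  refine (P2_mono N y v (B := fun _ _ _ => True) fun _ _ _ _ => trivial).trans ?_
  have h := P2_fst (μ := μ) (s := s) h0 h1 v (fun _ _ => True)
  rw [h]
  exact P1_le_one N y _

open Pool.Agent.W_7d29a1_Z.Asm72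

/-- `P1` as a set function. -/
def sp1 (μ : Measure ℝ) (s : ℝ) [IsProbabilityMeasure μ] (N : ℕ) (y : ℤ) : SubProb (Env × Finset ℕ) where
  pr E := (P1 μ s N y fun η S => (η, S) ∈ E).toReal
  nonneg _ := ENNReal.toReal_nonneg
  le_one E := by
    have := P1_le_one (μ := μ) (s := s) N y fun η S => (η, S) ∈ E
    exact (ENNReal.toReal_mono ENNReal.one_ne_top this).trans (by simp)
  empty := by
    have : (P1 μ s N y fun η S => (η, S) ∈ (∅ : Set (Env × Finset ℕ))) = 0 := P1_empty N y
    rw [this]; simp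
  mono {E F} h := ENNReal.toReal_mono
    (ne_top_of_le_ne_top ENNReal.one_ne_top (P1_le_one N y _)) (P1_mono N y fun η S hx => h hx)
  union E F := by
    have h1 := P1_le_one (μ := μ) (s := s) N y fun η S => (η, S) ∈ E
    have h2 := P1_le_one (μ := μ) (s := s) N y fun η S => (η, S) ∈ F
    rw [← ENNReal.toReal_add (ne_top_of_le_ne_top ENNReal.one_ne_top h1)
      (ne_top_of_le_ne_top ENNReal.one_ne_top h2)]
    exact ENNReal.toReal_mono (ENNReal.add_ne_top.2
      ⟨ne_top_of_le_ne_top ENNReal.one_ne_top h1, ne_top_of_le_ne_top ENNReal.one_ne_top h2⟩)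
      (P1_union N y _ _)

/-- `P2` as a set function. -/
def sp2 (μ : Measure ℝ) (s : ℝ) [IsProbabilityMeasure μ] {N : ℕ} {y : ℤ} (h0 : 0 ≤ y) (hN : y ≤ N)
    (v : ℕ → ℤ) : SubProb (Env × Finset ℕ × Finset ℕ) where
  pr E := (P2 μ s N y v fun η S S' => (η, S, S') ∈ E).toReal
  nonneg _ := ENNReal.toReal_nonneg
  le_one E := by
    have := P2_le_one (μ := μ) (s := s) h0 hN v fun η S S' => (η, S, S') ∈ E
    exact (ENNReal.toReal_mono ENNReal.one_ne_top this).trans (by simp)
  empty := by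
    have : (P2 μ s N y v fun η S S' => (η, S, S') ∈ (∅ : Set (Env × Finset ℕ × Finset ℕ))) = 0 :=
      P2_empty N y v
    rw [this]; simp
  mono {E F} h := ENNReal.toReal_mono
    (ne_top_of_le_ne_top ENNReal.one_ne_top (P2_le_one h0 hN v _))
    (P2_mono N y v fun η S S' hx => h hx)
  union E F := by
    have h1 := P2_le_one (μ := μ) (s := s) h0 hN v fun η S S' => (η, S, S') ∈ E
    have h2 := P2_le_one (μ := μ) (s := s) h0 hN v fun η S S' => (η, S, S') ∈ F
    rw [← ENNReal.toReal_add (ne_top_of_le_ne_top ENNReal.one_ne_top h1)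
      (ne_top_of_le_ne_top ENNReal.one_ne_top h2)]
    exact ENNReal.toReal_mono (ENNReal.add_ne_top.2
      ⟨ne_top_of_le_ne_top ENNReal.one_ne_top h1, ne_top_of_le_ne_top ENNReal.one_ne_top h2⟩)
      (P2_union N y v _ _)

end

end Pool.Agent.W_7d29a1_HZ.Z86
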