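import Pool.Agent.W_7d29a1_HZ.Tie
import Pool.Agent.W_7d29a1_Z.Num72
import Pool.Agent.W_7d29a1_HZ.Z86_Brk86
import Pool.Agent.W_7d29a1_HZ.Z86_Ins86A

/-!
STORM Z at the tilt `s`, field `hcount` (row 664, 5.1): the number of the places with a near tie. (helper49; port: helper43)
-/

set_option autoImplicit false

namespace Pool.Agent.W_7d29a1_HZ.Z49

open MeasureTheory ProbabilityTheory Filter Topology Finset
open Pool.Agent.W_7d29a1_F Pool.Agent.W_7d29a1_X Pool.Agent.W_7d29a1_h4g Pool.Agent.W_7d29a1_H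
open Pool.Agent.W_7d29a1_HZ Pool.Agent.W_7d29a1_Z.Asm72 Pool.Agent.W_7d29a1_HZ.Z86
open Pool.Agent.W_7d29a1_Z86 (st st_pos)
open scoped ENNReal

variable {μ : Measure ℝ} {s : ℝ}

/-- The near tie at a window `(e, j₀, J)`: grid `2 ^ e`, strip `2 ^ (e + 3)`. -/
def NTp (μ : Measure ℝ) (s : ℝ) (N H : ℕ) (M : ℝ) (p : ℕ × ℕ × Finset ℕ) : Env → Finset ℕ → Prop :=
  NTW μ s N H p.2.1 p.2.2 (2 ^ p.1) (2 ^ (p.1 + 3)) M

/-- A near tie at one of the windows of the place. -/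
def NPl (μ : Measure ℝ) (s : ℝ) (N H : ℕ) (M : ℝ) (W : Finset (ℕ × ℕ × Finset ℕ)) : Set (Env × Finset ℕ) :=
  {z | ∃ p ∈ W, NTp μ s N H M p z.1 z.2}

theorem NPl_eq (N H : ℕ) (M : ℝ) (W : Finset (ℕ × ℕ × Finset ℕ)) :
    NPl μ s N H M W = ⋃ p ∈ W, {z | NTp μ s N H M p z.1 z.2} := by
  ext z
  simp only [NPl, Set.mem_ofPred_eq, Set.mem_iUnion, exists_prop]

/-- The sets which do not look at the windows `W`. -/
def Adm (W : Finset (ℕ × ℕ × Finset ℕ)) : Set (Set (Env × Finset ℕ)) :=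
  {A | Ms (fun η S => (η, S) ∈ A) ∧ ∀ p ∈ W, OffRows p.2.2 (fun η S => (η, S) ∈ A)}

theorem adm_univ (W : Finset (ℕ × ℕ × Finset ℕ)) : Set.univ ∈ Adm W := by
  refine ⟨fun S => ?_, fun p _ η η' S _ => ?_⟩
  · simp
  · simp

theorem adm_inter (W : Finset (ℕ × ℕ × Finset ℕ)) (A B : Set (Env × Finset ℕ)) (hA : A ∈ Adm W) (hB : B ∈ Adm W) :
    A ∩ B ∈ Adm W := by
  refine ⟨fun S => ?_, fun p hp η η' S h => ?_⟩
  · have : {η : Env | (η, S) ∈ A ∩ B} = {η : Env | (η, S) ∈ A} ∩ {η : Env | (η, S) ∈ B} := by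
      ext η; simp
    rw [this]
    exact (hA.1 S).inter (hB.1 S)
  · have h1 := hA.2 p hp η η' S h
    have h2 := hB.2 p hp η η' S h
    simp only [Set.mem_inter_iff]
    exact and_congr h1 h2

theorem adm_NPl {N H : ℕ} {M : ℝ} {W W' : Finset (ℕ × ℕ × Finset ℕ)} (hne : ∀ q ∈ W', q.2.2.Nonempty)
    (hsep : ∀ p ∈ W, ∀ q ∈ W', ∀ i ∈ q.2.2, ∀ j ∈ p.2.2, i + 2 * H ≤ j ∨ j + 2 * H ≤ i) :
    NPl μ s N H M W' ∈ Adm W := by
  refine ⟨fun S => ?_, fun p hp η η' S h => ?_⟩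
  · have : {η : Env | (η, S) ∈ NPl μ s N H M W'} = ⋃ q ∈ W', {η : Env | NTp μ s N H M q η S} := by
      ext η
      simp only [NPl, Set.mem_ofPred_eq, Set.mem_iUnion, exists_prop]
    rw [this]
    exact Finset.measurableSet_biUnion W' fun q _ => NTW_ms N H _ _ _ _ M S
  · simp only [NPl, Set.mem_ofPred_eq]
    constructor
    · rintro ⟨q, hq, h1⟩
      exact ⟨q, hq, (NTW_off (hne q hq) (hsep p hp q hq) η η' S h).1 h1⟩
    · rintro ⟨q, hq, h1⟩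
      exact ⟨q, hq, (NTW_off (hne q hq) (hsep p hp q hq) η η' S h).2 h1⟩

/-- The tie at a place. -/
theorem tie_place [IsProbabilityMeasure μ] {N H X : ℕ} {y : ℤ} {M ρ δ : ℝ} (hδ : 0 ≤ δ) (hρ : 0 ≤ ρ)
    {W : Finset (ℕ × ℕ × Finset ℕ)} (hX : W.card ≤ X)
    (hT : ∀ p ∈ W, ∀ A : Env → Finset ℕ → Prop, Ms A → OffRows p.2.2 A →
      P1 μ s N y (fun η S => A η S ∧ NTp μ s N H M p η S) ≤ ENNReal.ofReal ρ * P1 μ s N y A + ENNReal.ofReal δ)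
    {A : Set (Env × Finset ℕ)} (hA : A ∈ Adm W) :
    (sp1 μ s N y).pr (A ∩ NPl μ s N H M W) ≤ (X * ρ) * (sp1 μ s N y).pr A + X * δ := by
  have h1 : (sp1 μ s N y).pr (A ∩ NPl μ s N H M W) ≤
      ∑ p ∈ W, (sp1 μ s N y).pr (A ∩ {z | NTp μ s N H M p z.1 z.2}) := by
    rw [NPl_eq, Set.inter_iUnion₂]
    exact (sp1 μ s N y).biUnion _ _
  have h2 : ∀ p ∈ W, (sp1 μ s N y).pr (A ∩ {z | NTp μ s N H M p z.1 z.2}) ≤ ρ * (sp1 μ s N y).pr A + δ := by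
    intro p hp
    have h3 := hT p hp (fun η S => (η, S) ∈ A) hA.1 (hA.2 p hp)
    have hfin : P1 μ s N y (fun η S => (η, S) ∈ A) ≠ ⊤ :=
      ne_top_of_le_ne_top ENNReal.one_ne_top (Pool.Agent.W_7d29a1_HZ.Z86.P1_le_one N y _)
    have h4 : (P1 μ s N y (fun η S => (η, S) ∈ A ∩ {z | NTp μ s N H M p z.1 z.2})).toReal ≤
        (ENNReal.ofReal ρ * P1 μ s N y (fun η S => (η, S) ∈ A) + ENNReal.ofReal δ).toReal := by
      apply ENNReal.toReal_mono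
      · exact ENNReal.add_ne_top.2 ⟨ENNReal.mul_ne_top ENNReal.ofReal_ne_top hfin, ENNReal.ofReal_ne_top⟩
      · exact h3
    refine h4.trans (le_of_eq ?_)
    rw [ENNReal.toReal_add (ENNReal.mul_ne_top ENNReal.ofReal_ne_top hfin) ENNReal.ofReal_ne_top,
      ENNReal.toReal_mul, ENNReal.toReal_ofReal hρ, ENNReal.toReal_ofReal hδ]
    rfl
  have h0 := (sp1 μ s N y).nonneg A
  calc (sp1 μ s N y).pr (A ∩ NPl μ s N H M W) ≤ ∑ p ∈ W, (ρ * (sp1 μ s N y).pr A + δ) :=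
        h1.trans (Finset.sum_le_sum h2)
    _ = W.card * (ρ * (sp1 μ s N y).pr A + δ) := by rw [Finset.sum_const, nsmul_eq_mul]
    _ ≤ X * (ρ * (sp1 μ s N y).pr A + δ) := by
        have : (W.card : ℝ) ≤ X := by exact_mod_cast hX
        gcongr
    _ = (X * ρ) * (sp1 μ s N y).pr A + X * δ := by ring

/-- The count for a family of separated places, free parameters `N₀`, `Λ`. -/
theorem count_places [IsProbabilityMeasure μ] {N H X U N₀ : ℕ} {y : ℤ} {M ρ δ Λ : ℝ} (hδ : 0 ≤ δ) (hρ : 0 ≤ ρ)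
    (hN₀ : 1 ≤ N₀) (hΛ : 1 ≤ Λ) (Wp : ℕ → Finset (ℕ × ℕ × Finset ℕ)) (hX : ∀ u < U, (Wp u).card ≤ X)
    (hne : ∀ u < U, ∀ q ∈ Wp u, q.2.2.Nonempty)
    (hsep : ∀ u < U, ∀ u' < U, (u + 32 ≤ u' ∨ u' + 32 ≤ u) → ∀ p ∈ Wp u, ∀ q ∈ Wp u', ∀ i ∈ q.2.2, ∀ j ∈ p.2.2,
      i + 2 * H ≤ j ∨ j + 2 * H ≤ i)
    (hT : ∀ u < U, ∀ p ∈ Wp u, ∀ A : Env → Finset ℕ → Prop, Ms A → OffRows p.2.2 A →
      P1 μ s N y (fun η S => A η S ∧ NTp μ s N H M p η S) ≤ ENNReal.ofReal ρ * P1 μ s N y A + ENNReal.ofReal δ) :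
    (sp1 μ s N y).pr {z | 4 * (N₀ : ℝ) * (16 : ℕ) * ((X * ρ) * Λ * U + 1) <
        (Set.ncard {u | u < U ∧ z ∈ NPl μ s N H M (Wp u)} : ℝ)} ≤
      (16 : ℕ) * (2 * ((U : ℝ) + 1) * ((1 / Λ) ^ N₀ + (U : ℝ) ^ N₀ * (N₀ * (X * δ)))) :=
  Pool.Agent.W_7d29a1_Z.Num72.countR (sp1 μ s N y) (fun u => NPl μ s N H M (Wp u)) U N₀ 16 hN₀ (by norm_num) (fun u => Adm (Wp u))
    (fun u _ => adm_univ _) (fun u _ A B hA hB => adm_inter _ A B hA hB)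
    (fun u hu u' hu' h => adm_NPl (hne u' hu') (hsep u hu u' hu' (by simpa using h)))
    (by positivity) (by positivity) hΛ (fun u hu A hA => tie_place hδ hρ (hX u hu) (hT u hu) hA)

/-! ### Numbers -/

theorem ev_num {c₁ : ℝ} (hc : 0 < c₁) : ∃ L₀ : ℕ, ∀ L : ℕ, L₀ ≤ L → 1 ≤ L ∧
    32 * Real.log L + 256 ≤ (L : ℝ) ^ c₁ := by
  have h1 : ∀ᶠ x : ℝ in atTop, ‖Real.log x‖ ≤ (1 / 64) * ‖x ^ c₁‖ :=
    (isLittleO_log_rpow_atTop hc).bound (by norm_num)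
  have h2 : ∀ᶠ x : ℝ in atTop, 512 ≤ x ^ c₁ := (tendsto_rpow_atTop hc).eventually_ge_atTop 512
  have h3 := (tendsto_natCast_atTop_atTop (R := ℝ)).eventually (h1.and (h2.and (eventually_ge_atTop 1)))
  obtain ⟨L₀, h⟩ := eventually_atTop.1 h3
  refine ⟨L₀, fun L hL => ?_⟩
  obtain ⟨h4, h5, h6⟩ := h L hL
  refine ⟨by exact_mod_cast h6, ?_⟩
  rw [Real.norm_of_nonneg (Real.log_nonneg h6), Real.norm_of_nonneg (by positivity)] at h4
  linarith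

theorem num_count {ε ct : ℝ} (hε : 0 < ε) (hct : 0 < ct) : ∃ c₁ c : ℝ, 0 < c₁ ∧ 0 < c ∧ ∃ L₀ : ℕ, ∀ L : ℕ, L₀ ≤ L →
    1 ≤ ⌈(L : ℝ) ^ c₁⌉₊ ∧ 128 * (⌈(L : ℝ) ^ c₁⌉₊ : ℝ) ≤ (L : ℝ) ^ ε ∧ ∀ U X : ℕ, U ≤ L → X ≤ L →
      (16 : ℕ) * (2 * ((U : ℝ) + 1) * ((1 / 2) ^ ⌈(L : ℝ) ^ c₁⌉₊ + (U : ℝ) ^ ⌈(L : ℝ) ^ c₁⌉₊ *
        (⌈(L : ℝ) ^ c₁⌉₊ * (X * Real.exp (-(L : ℝ) ^ ct))))) ≤ Real.exp (-(L : ℝ) ^ c) := by
  set c₁ := min ε ct / 2 with hc₁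
  have hm : 0 < min ε ct := lt_min hε hct
  have hc0 : 0 < c₁ := by positivity
  obtain ⟨L₀, h⟩ := ev_num hc0
  refine ⟨c₁, c₁ / 2, hc0, by positivity, L₀, fun L hL => ?_⟩
  obtain ⟨hL1, hx⟩ := h L hL
  have hLr : (1 : ℝ) ≤ L := by exact_mod_cast hL1
  have hL0 : (0 : ℝ) < L := by linarith
  set x := (L : ℝ) ^ c₁ with hxd
  have hlog : 0 ≤ Real.log L := Real.log_nonneg hLr
  have hx256 : 256 ≤ x := by linarith
  set n := ⌈x⌉₊ with hn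
  have hn1 : x ≤ n := Nat.le_ceil x
  have hn2 : (n : ℝ) ≤ 2 * x := by
    have : (n : ℝ) < x + 1 := Nat.ceil_lt_add_one (by linarith)
    linarith
  have hxx : x ^ 2 ≤ (L : ℝ) ^ ct := by
    rw [hxd, ← Real.rpow_natCast, ← Real.rpow_mul hL0.le]
    apply Real.rpow_le_rpow_of_exponent_le hLr
    have : min ε ct ≤ ct := min_le_right _ _
    rw [hc₁]; push_cast; linarith
  have hxe : x ^ 2 ≤ (L : ℝ) ^ ε := by
    rw [hxd, ← Real.rpow_natCast, ← Real.rpow_mul hL0.le]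
    apply Real.rpow_le_rpow_of_exponent_le hLr
    have : min ε ct ≤ ε := min_le_left _ _
    rw [hc₁]; push_cast; linarith
  refine ⟨?_, ?_, fun U X hU hX => ?_⟩
  · have : (1 : ℝ) ≤ n := by linarith
    exact_mod_cast this
  · calc 128 * (n : ℝ) ≤ 256 * x := by linarith
      _ ≤ x * x := by gcongr
      _ = x ^ 2 := by ring
      _ ≤ (L : ℝ) ^ ε := hxe
  · have hU' : (U : ℝ) ≤ L := by exact_mod_cast hU
    have hX' : (X : ℝ) ≤ L := by exact_mod_cast hX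
    have e1 : (1 / 2 : ℝ) ^ n ≤ Real.exp (-x / 2) := by
      have h1 : (1 / 2 : ℝ) ≤ Real.exp (-(1 / 2)) := by
        have := Real.add_one_le_exp (-(1 / 2) : ℝ)
        linarith
      calc (1 / 2 : ℝ) ^ n ≤ Real.exp (-(1 / 2)) ^ n := by gcongr
        _ = Real.exp (-(n : ℝ) / 2) := by rw [← Real.exp_nat_mul]; congr 1; ring
        _ ≤ Real.exp (-x / 2) := by
            apply Real.exp_le_exp.2
            linarith
    have hLe : (L : ℝ) = Real.exp (Real.log L) := (Real.exp_log hL0).symm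
    have e2 : (U : ℝ) ^ n * (n * (X * Real.exp (-(L : ℝ) ^ ct))) ≤ Real.exp (-x / 2) := by
      have h1 : (U : ℝ) ^ n ≤ Real.exp (n * Real.log L) := by
        rw [Real.exp_nat_mul, ← hLe]
        gcongr
      have h2 : (n : ℝ) ≤ Real.exp n := by
        have := Real.add_one_le_exp (n : ℝ)
        linarith
      have h3 : (X : ℝ) ≤ Real.exp (Real.log L) := by rw [← hLe]; exact hX'
      calc (U : ℝ) ^ n * (n * (X * Real.exp (-(L : ℝ) ^ ct)))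
          ≤ Real.exp (n * Real.log L) * (Real.exp n * (Real.exp (Real.log L) * Real.exp (-(L : ℝ) ^ ct))) := by
            gcongr
        _ = Real.exp (n * Real.log L + n + Real.log L - (L : ℝ) ^ ct) := by
            rw [← Real.exp_add, ← Real.exp_add, ← Real.exp_add]
            congr 1; ring
        _ ≤ Real.exp (-x / 2) := by
            apply Real.exp_le_exp.2
            have h4 : n * Real.log L ≤ 2 * x * Real.log L := by gcongr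
            have h5 : 32 * Real.log L * x + 256 * x ≤ x * x := by
              have := mul_le_mul_of_nonneg_right hx (show 0 ≤ x by linarith)
              linarith
            have h6 : Real.log L ≤ x := by linarith
            have h7 : 0 ≤ x * Real.log L := by positivity
            nlinarith
    have hexp : 0 < Real.exp (-x / 2) := Real.exp_pos _
    calc ((16 : ℕ) : ℝ) * (2 * ((U : ℝ) + 1) * ((1 / 2) ^ n + (U : ℝ) ^ n * (n * (X * Real.exp (-(L : ℝ) ^ ct)))))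
        ≤ ((16 : ℕ) : ℝ) * (2 * ((L : ℝ) + L) * (Real.exp (-x / 2) + Real.exp (-x / 2))) := by
          gcongr
      _ = 128 * L * Real.exp (-x / 2) := by push_cast; ring
      _ ≤ Real.exp (x / 4) * Real.exp (-x / 2) := by
          apply mul_le_mul_of_nonneg_right _ hexp.le
          have h1 : (128 : ℝ) ≤ Real.exp 8 := by
            have h2 : (2 : ℝ) ≤ Real.exp 1 := by
              have := Real.add_one_le_exp (1 : ℝ)
              linarith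
            calc (128 : ℝ) ≤ 2 ^ 8 := by norm_num
              _ ≤ Real.exp 1 ^ 8 := by gcongr
              _ = Real.exp 8 := by rw [← Real.exp_nat_mul]; norm_num
          calc 128 * (L : ℝ) ≤ Real.exp 8 * Real.exp (Real.log L) := by rw [← hLe]; gcongr
            _ = Real.exp (8 + Real.log L) := by rw [Real.exp_add]
            _ ≤ Real.exp (x / 4) := by
                apply Real.exp_le_exp.2
                linarith
      _ = Real.exp (-(x / 4)) := by rw [← Real.exp_add]; congr 1; ring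
      _ ≤ Real.exp (-(L : ℝ) ^ (c₁ / 2)) := by
          apply Real.exp_le_exp.2
          have h1 : (L : ℝ) ^ (c₁ / 2) * (L : ℝ) ^ (c₁ / 2) = x := by
            rw [hxd, ← Real.rpow_add hL0]; congr 1; ring
          have h2 : 0 < (L : ℝ) ^ (c₁ / 2) := by positivity
          have h3 : 4 ≤ (L : ℝ) ^ (c₁ / 2) := by
            by_contra hcon
            push Not at hcon
            nlinarith
          nlinarith

/-- COUNT for separated places. -/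
theorem count_sep [IsProbabilityMeasure μ] (hem : Pool.Agent.W_7d29a1_h47.EM μ) (hnd : Pool.Agent.W_7d29a1_h47.Nondeg μ) :
    ∀ ε : ℝ, 0 < ε → ∃ c : ℝ, 0 < c ∧ ∃ L₀ : ℕ, ∀ L : ℕ, L₀ ≤ L → ∀ N : ℕ, N ≤ L → ∀ y : ℤ, 0 ≤ y → y ≤ N →
      ∀ (H X U : ℕ), X ≤ L → U ≤ L → ∀ Wp : ℕ → Finset (ℕ × ℕ × Finset ℕ), (∀ u < U, (Wp u).card ≤ X) →
      (∀ u < U, ∀ p ∈ Wp u, p.2.2.Nonempty ∧ (∀ i ∈ p.2.2, 1 ≤ i ∧ i < N) ∧ p.2.1 ≤ N ∧ 2 ^ (p.1 + 3) ≤ L) →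
      (∀ u < U, ∀ u' < U, (u + 32 ≤ u' ∨ u' + 32 ≤ u) → ∀ p ∈ Wp u, ∀ q ∈ Wp u', ∀ i ∈ q.2.2, ∀ j ∈ p.2.2,
        i + 2 * H ≤ j ∨ j + 2 * H ≤ i) →
      ∀ M ρ : ℝ, 1 ≤ M → 0 ≤ ρ →
      (∀ u < U, ∀ p ∈ Wp u, (L : ℝ) ^ ε * M * 9 * Real.sqrt ((2 : ℝ) ^ (p.1 + 3) / p.2.2.card) ≤ ρ) →
      (sp1 μ s N y).pr {z | (L : ℝ) ^ ε * (X * ρ * U + 1) < (Set.ncard {u | u < U ∧ z ∈ NPl μ s N H M (Wp u)} : ℝ)} ≤
        Real.exp (-(L : ℝ) ^ c) := by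
  intro ε hε
  obtain ⟨ct, hct, L₁, ht⟩ := tieW hem hnd ε hε
  obtain ⟨c₁, c, hc₁, hc, L₂, hnum⟩ := num_count hε hct
  refine ⟨c, hc, max L₁ L₂, fun L hL N hN y hy0 hyN H X U hX hU Wp hcard hW hsep M ρ hM hρ hrate => ?_⟩
  obtain ⟨hn1, hn2, hn3⟩ := hnum L (le_trans (le_max_right _ _) hL)
  have hmain := count_places (μ := μ) (N := N) (H := H) (X := X) (U := U) (y := y) (M := M) (ρ := ρ)
    (δ := Real.exp (-(L : ℝ) ^ ct)) (Λ := 2) (Real.exp_pos _).le hρ hn1 (by norm_num) Wp hcard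
    (fun u hu q hq => (hW u hu q hq).1) hsep (fun u hu p hp A hms hoff => by
      obtain ⟨h1, h2, h3, h4⟩ := hW u hu p hp
      have h5 := ht L (le_trans (le_max_left _ _) hL) N hN y hy0 hyN H p.2.1 p.2.2 h1 h2 h3 (2 ^ p.1) (2 ^ (p.1 + 3))
        Nat.one_le_two_pow Nat.one_le_two_pow h4 M hM A hms hoff
      refine h5.trans ?_
      gcongr
      refine le_trans (le_of_eq ?_) (hrate u hu p hp)
      push_cast
      have h6 : (2 : ℝ) ^ (p.1 + 3) / 2 ^ p.1 + 1 = 9 := by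
        rw [pow_add]; field_simp; norm_num
      rw [h6])
  refine le_trans ((sp1 μ s N y).mono ?_) (hmain.trans (hn3 U X hU hX))
  intro z hz
  simp only [Set.mem_ofPred_eq] at hz ⊢
  refine lt_of_le_of_lt ?_ hz
  have h7 : 0 ≤ (X : ℝ) * ρ * U := by positivity
  calc 4 * (⌈(L : ℝ) ^ c₁⌉₊ : ℝ) * (16 : ℕ) * ((X * ρ) * 2 * U + 1)
      ≤ 4 * (⌈(L : ℝ) ^ c₁⌉₊ : ℝ) * (16 : ℕ) * (2 * (X * ρ * U + 1)) := by
        gcongr
        linarith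
    _ = 128 * (⌈(L : ℝ) ^ c₁⌉₊ : ℝ) * (X * ρ * U + 1) := by push_cast; ring
    _ ≤ (L : ℝ) ^ ε * (X * ρ * U + 1) := by gcongr

/-! ### The windows of Brk86 -/

/-- The radius of the places of the class `j`. -/
def Hj (t j : ℕ) : ℕ := 2 * t * (2 ^ (j + 1) + 1)

/-- The windows of the class `j` at the junction `b`. -/
def Wj (N t τ k0 : ℕ) (n1 : ℕ → ℕ) (e0 E j b : ℕ) : Finset (ℕ × ℕ × Finset ℕ) :=
  (Wd N t τ k0 n1 e0 E b).filter fun p => ∀ i ∈ p.2.2, za t τ b ≤ i + Hj t j ∧ i ≤ za t τ b + Hj t j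

/-- Near tie of the class `j` at the junction `b`. -/
def NTj (μ : Measure ℝ) (s : ℝ) (N t τ k0 : ℕ) (n1 : ℕ → ℕ) (e0 E j : ℕ) (M : ℝ) (b : ℕ) (η : Env) (S : Finset ℕ) : Prop :=
  ∃ p ∈ Wd N t τ k0 n1 e0 E b, (∀ i ∈ p.2.2, za t τ b ≤ i + Hj t j ∧ i ≤ za t τ b + Hj t j) ∧
    NTW μ s N (Hj t j) p.2.1 p.2.2 (2 ^ p.1) (2 ^ (p.1 + 3)) M η S

theorem NTj_iff {N t τ k0 : ℕ} {n1 : ℕ → ℕ} {e0 E j : ℕ} {M : ℝ} {b : ℕ} {z : Env × Finset ℕ} :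
    z ∈ NPl μ s N (Hj t j) M (Wj N t τ k0 n1 e0 E j b) ↔ NTj μ s N t τ k0 n1 e0 E j M b z.1 z.2 := by
  simp only [NPl, NTj, NTp, Wj, Finset.mem_filter, Set.mem_ofPred_eq, and_assoc]

theorem Hj_le (t j : ℕ) : Hj t j ≤ 10 * (t * st j) := by
  have h1 : 2 ^ (j + 1) + 1 ≤ 5 * st j := by
    rcases Nat.eq_zero_or_pos j with h | h
    · subst h; simp [st]
    · have h2 : 2 ^ (j + 1) = 4 * st j := by
        unfold st
        rw [show j + 1 = (j - 1) + 2 by omega, pow_add]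
        ring
      have h3 := st_pos j
      omega
  unfold Hj
  calc 2 * t * (2 ^ (j + 1) + 1) ≤ 2 * t * (5 * st j) := Nat.mul_le_mul_left _ h1
    _ = 10 * (t * st j) := by ring

theorem Wj_sep {N t τ k0 : ℕ} {n1 : ℕ → ℕ} {e0 E j u u' : ℕ} (h : u + 32 ≤ u' ∨ u' + 32 ≤ u)
    {p q : ℕ × ℕ × Finset ℕ} (hp : p ∈ Wj N t τ k0 n1 e0 E j (k0 + u * st j))
    (hq : q ∈ Wj N t τ k0 n1 e0 E j (k0 + u' * st j)) {i i' : ℕ} (hi : i ∈ q.2.2) (hi' : i' ∈ p.2.2) :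
    i + 2 * Hj t j ≤ i' ∨ i' + 2 * Hj t j ≤ i := by
  have h1 := (Finset.mem_filter.1 hp).2 i' hi'
  have h2 := (Finset.mem_filter.1 hq).2 i hi
  have h3 := Hj_le t j
  have e1 : ∀ w : ℕ, za t τ (k0 + w * st j) = τ + 2 * (t * k0) + 2 * (w * (t * st j)) := by
    intro w; unfold za; ring
  rw [e1] at h1 h2
  generalize t * st j = x at *
  rcases h with h | h
  · right
    obtain ⟨d, rfl⟩ : ∃ d, u' = u + 32 + d := ⟨u' - (u + 32), by omega⟩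
    have h4 : (u + 32 + d) * x = u * x + 32 * x + d * x := by ring
    rw [h4] at h2
    have := Nat.zero_le (d * x)
    omega
  · left
    obtain ⟨d, rfl⟩ : ∃ d, u = u' + 32 + d := ⟨u - (u' + 32), by omega⟩
    have h4 : (u' + 32 + d) * x = u' * x + 32 * x + d * x := by ring
    rw [h4] at h1
    have := Nat.zero_le (d * x)
    omega

theorem rate_win {n c e : ℕ} (hn : 0 < n) (hc : n ≤ 512 * c) :
    Real.sqrt ((2 : ℝ) ^ (e + 3) / c) ≤ 64 * Real.sqrt ((2 : ℝ) ^ e / n) := by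
  have hc0 : 0 < c := by omega
  have hcr : (0 : ℝ) < c := by exact_mod_cast hc0
  have hnr : (0 : ℝ) < n := by exact_mod_cast hn
  have h1 : (n : ℝ) ≤ 512 * c := by exact_mod_cast hc
  apply Real.sqrt_le_iff.2
  refine ⟨by positivity, ?_⟩
  rw [mul_pow, Real.sq_sqrt (by positivity), div_le_iff₀ hcr]
  have h2 : (64 : ℝ) ^ 2 * ((2 : ℝ) ^ e / n) * c = 2 ^ (e + 3) * (512 * c / n) := by
    rw [pow_add]; ring
  rw [h2]
  have h3 : 1 ≤ 512 * (c : ℝ) / n := by rw [le_div_iff₀ hnr]; linarith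
  have h4 : (0 : ℝ) < 2 ^ (e + 3) := by positivity
  nlinarith

/-- **hcount** (row 664, 5.1): the number of the places of the class `j` with a near tie of the depth `M`. -/
theorem hcountZ [IsProbabilityMeasure μ] (hem : Pool.Agent.W_7d29a1_h47.EM μ) (hnd : Pool.Agent.W_7d29a1_h47.Nondeg μ) :
    ∀ ε : ℝ, 0 < ε → ∃ c : ℝ, 0 < c ∧ ∃ L₀ : ℕ, ∀ L : ℕ, L₀ ≤ L → ∀ N : ℕ, N ≤ L → ∀ y : ℤ, 0 ≤ y → y ≤ N →
      ∀ (t τ k0 : ℕ) (n1 : ℕ → ℕ) (e0 E j X U : ℕ), X ≤ L → U ≤ L → 2 ^ (E + 3) ≤ L →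
      (∀ u < U, (Wd N t τ k0 n1 e0 E (k0 + u * st j)).card ≤ X) → ∀ M ρ : ℝ, 1 ≤ M → 0 ≤ ρ →
      (∀ e, e0 ≤ e → e ≤ E → 0 < n1 e ∧ (L : ℝ) ^ ε * M * 576 * Real.sqrt ((2 : ℝ) ^ e / n1 e) ≤ ρ) →
      (sp1 μ s N y).pr {z | (L : ℝ) ^ ε * (X * ρ * U + 1) <
          (Set.ncard {u | u < U ∧ NTj μ s N t τ k0 n1 e0 E j M (k0 + u * st j) z.1 z.2} : ℝ)} ≤
        Real.exp (-(L : ℝ) ^ c) := by
  intro ε hε
  obtain ⟨c, hc, L₀, h⟩ := count_sep hem hnd ε hε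
  refine ⟨c, hc, L₀, fun L hL N hN y hy0 hyN t τ k0 n1 e0 E j X U hX hU hE hcard M ρ hM hρ hrate => ?_⟩
  have h1 := h L hL N hN y hy0 hyN (Hj t j) X U hX hU (fun u => Wj N t τ k0 n1 e0 E j (k0 + u * st j))
    (fun u hu => (Finset.card_filter_le _ _).trans (hcard u hu))
    (fun u hu p hp => by
      have h2 := mem_Wd.1 (Finset.mem_filter.1 hp).1
      refine ⟨⟨_, h2.2.2.2.1⟩, h2.2.2.2.2.1, (h2.2.2.2.2.1 _ h2.2.2.2.1).2.le, ?_⟩
      exact (Nat.pow_le_pow_right (by norm_num) (by omega)).trans hE)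
    (fun u hu u' hu' hh p hp q hq i hi j' hj' => Wj_sep hh hp hq hi hj') M ρ hM hρ
    (fun u hu p hp => by
      have h2 := mem_Wd.1 (Finset.mem_filter.1 hp).1
      obtain ⟨h3, h4⟩ := hrate p.1 h2.1 h2.2.1
      have h5 := rate_win (e := p.1) h3 h2.2.2.2.2.2
      refine le_trans ?_ h4
      calc (L : ℝ) ^ ε * M * 9 * Real.sqrt ((2 : ℝ) ^ (p.1 + 3) / p.2.2.card)
          ≤ (L : ℝ) ^ ε * M * 9 * (64 * Real.sqrt ((2 : ℝ) ^ p.1 / n1 p.1)) := by gcongr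
        _ = (L : ℝ) ^ ε * M * 576 * Real.sqrt ((2 : ℝ) ^ p.1 / n1 p.1) := by ring)
  simp only [NTj_iff] at h1
  exact h1

end Pool.Agent.W_7d29a1_HZ.Z49
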