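import Pool.Agent.W_7d29a1_HZ.OneD
import Pool.Agent.W_7d29a1_Z.NumS

/-!
STORM Z, OneZ: the one step inequality for the concrete model (instance of `Asm72.onestep_w`). (helper72)
-/

set_option autoImplicit false

namespace Pool.Agent.W_7d29a1_HZ.R72

open MeasureTheory ProbabilityTheory Filter Topology Finset
open Pool.Agent.W_7d29a1_F Pool.Agent.W_7d29a1_X Pool.Agent.W_7d29a1_h4g Pool.Agent.W_7d29a1_H
open Pool.Agent.W_7d29a1_HS (md)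
open Pool.Agent.W_7d29a1_HZ.Z86 (phi sp1 sp2 Wd Meet BadJ RegT Bf)
open Pool.Agent.W_7d29a1_Z86 (Runs st)
open Pool.Agent.W_7d29a1_Z.R72 (errZ)
open Pool.Agent.W_7d29a1_Z.Asm72
open _root_.W_7d29a1_Z.CtrOp77 (D)
open scoped ENNReal

variable {μ : Measure ℝ} {s : ℝ}

/-- The number of long places. -/
theorem long_card {n : ℕ} {s₀ : ℝ} (hn : 1 ≤ n) (hs₀ : 1 ≤ s₀) :
    (((range (n / max 1 ⌊(n : ℝ) / s₀⌋₊ + 1)).card : ℕ) : ℝ) ≤ 2 * s₀ + 1 := by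
  rw [card_range]
  set M : ℕ := ⌊(n : ℝ) / s₀⌋₊ with hM
  push_cast
  have h1 : ((n / max 1 M : ℕ) : ℝ) ≤ (n : ℝ) / (max 1 M : ℕ) := Nat.cast_div_le
  have h2 : (n : ℝ) / (max 1 M : ℕ) ≤ 2 * s₀ := by
    have h3 : (n : ℝ) / s₀ < M + 1 := Nat.lt_floor_add_one _
    have h4 : (M : ℝ) + 1 ≤ 2 * (max 1 M : ℕ) := by
      have : M + 1 ≤ 2 * max 1 M := by
        have h5 : 1 ≤ max 1 M := le_max_left _ _
        have h6 : M ≤ max 1 M := le_max_right _ _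
        omega
      exact_mod_cast this
    have h5 : (0 : ℝ) < (max 1 M : ℕ) := by
      have : 0 < max 1 M := lt_of_lt_of_le one_pos (le_max_left _ _)
      exact_mod_cast this
    rw [div_le_iff₀ h5]
    rw [div_lt_iff₀ (by linarith)] at h3
    nlinarith
  linarith

/-- Single zones, probability. -/
theorem zone_pr [IsProbabilityMeasure μ] {L N t τ B k₀ k₁ K sa : ℕ} {I : Finset ℕ} {w A p : ℝ} {y : ℤ} (h0 : 0 ≤ y)
    (h1 : y ≤ N) (hk1 : k₁ ≤ B) (hkN : za t τ k₁ ≤ N) (hs : 2 * sa ≤ K) (hA : 0 ≤ A) (hp : 0 ≤ p)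
    (hRA : law μ {η | ¬ RA μ s L t τ B I w A K η} ≤ ENNReal.ofReal p)
    (hTm : P1 μ s N y (fun _ S => ¬ Tame μ s L N t w (pos S)) ≤ ENNReal.ofReal p) :
    P1 μ s N y (fun η S => ¬ ∀ b, k₀ ≤ b → b < k₁ → ∀ i : ℤ, |i| ≤ 1 →
      |D sa (phi μ s t τ I (η, S) b) (i * sa)| ≤ 2 * (2 * (sa * A)) ∧ |Db μ s t τ I sa η b 0 (pos S)| ≤ 2 * (sa * A)) ≤
      ENNReal.ofReal (2 * p) := by
  have h2 : P1 μ s N y (fun η S => ¬ RA μ s L t τ B I w A K η ∨ ¬ Tame μ s L N t w (pos S)) ≤ ENNReal.ofReal (2 * p) := by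
    rw [two_mul, ENNReal.ofReal_add hp hp]
    refine (P1_or _ _).trans (add_le_add ?_ hTm)
    rw [P1_env h0 h1]
    exact hRA
  refine le_trans (P1_mono' ?_) h2
  intro η S _ _ hcon
  by_contra hneg
  rw [not_or, not_not, not_not] at hneg
  obtain ⟨hR, hT⟩ := hneg
  refine hcon fun b hb1 hb2 i hi => ?_
  have hzN : zb t τ b ≤ N := by
    have h4 : za t τ (b + 1) ≤ za t τ k₁ := za_mono' (by omega)
    have h5 : za t τ (b + 1) = za t τ b + 2 * t := by unfold za; ring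
    rw [zb_eq]
    omega
  have hc := hT.cone (τ := τ) (pce_full t) hzN
  have hc1 : |pos S (za t τ b)| ≤ 2 * L := by simpa using hc.1
  have hc2 : |((pos S (zb t τ b) : ℝ) - pos S (za t τ b)) - sl μ s * t| ≤ w := by
    have e := hc.2
    rw [zb_eq]
    simpa using e
  have key : ∀ a : ℤ, |a| + |(sa : ℤ)| ≤ K → |Db μ s t τ I sa η b 0 (pos S)| ≤ 2 * |((sa : ℤ) : ℝ)| * A ∧
      |fb μ s t τ I η b a (pos S) - fb μ s t τ I η b 0 (pos S)| ≤ |(a : ℝ)| * A := fun a ha =>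
    ra_Db hR (b := b) (by omega) ha hc1 hc2
  have es : |((sa : ℤ) : ℝ)| = (sa : ℝ) := by
    rw [Int.cast_natCast]
    exact abs_of_nonneg (Nat.cast_nonneg sa)
  have hsA : 0 ≤ (sa : ℝ) * A := by positivity
  have k0 := (key 0 (by simp only [abs_zero, Nat.abs_cast]; omega)).1
  rw [es] at k0
  have k1 := (key sa (by simp only [Nat.abs_cast]; omega)).2
  have k2 := (key (-sa) (by simp only [abs_neg, Nat.abs_cast]; omega)).2
  -- the double amplitudes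
  have kk : ∀ a : ℤ, |a| ≤ K → |fb μ s t τ I η b a (pos S) - fb μ s t τ I η b 0 (pos S)| ≤ |(a : ℝ)| * A := fun a ha =>
    (ra_Db hR (b := b) (r := 0) (a := a) (by omega) (by rw [abs_zero, add_zero]; exact ha) hc1 hc2).2
  have k3 := kk (sa + sa) (by
    rw [← two_mul, abs_mul, Nat.abs_cast]
    exact_mod_cast hs)
  have k4 := kk (-sa - sa) (by
    rw [show (-(sa : ℤ) - sa) = -(2 * sa) by ring, abs_neg, abs_mul, Nat.abs_cast]
    exact_mod_cast hs)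
  have e1 : |(((sa : ℤ) + sa : ℤ) : ℝ)| = 2 * sa := by
    push_cast
    rw [← two_mul, abs_of_nonneg (by positivity)]
  have e2 : |((-(sa : ℤ) - sa : ℤ) : ℝ)| = 2 * sa := by
    push_cast
    rw [show (-(sa : ℝ) - sa) = -(2 * sa) by ring, abs_neg, abs_of_nonneg (by positivity)]
  have e3 : |((-(sa : ℤ) : ℤ) : ℝ)| = sa := by
    push_cast
    rw [abs_neg, abs_of_nonneg (by positivity)]
  rw [es] at k1
  rw [e3] at k2
  rw [e1] at k3
  rw [e2] at k4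
  refine ⟨?_, by linarith⟩
  have hi' : i = -1 ∨ i = 0 ∨ i = 1 := by
    have := abs_le.1 hi
    omega
  have b1 := abs_le.1 k1
  have b2 := abs_le.1 k2
  have b3 := abs_le.1 k3
  have b4 := abs_le.1 k4
  rcases hi' with rfl | rfl | rfl
  · have e : D sa (phi μ s t τ I (η, S) b) (-1 * sa) = (fb μ s t τ I η b 0 (pos S) - fb μ s t τ I η b 0 (pos S)) +
        (fb μ s t τ I η b (-sa - sa) (pos S) - fb μ s t τ I η b 0 (pos S)) -
        2 * (fb μ s t τ I η b (-sa) (pos S) - fb μ s t τ I η b 0 (pos S)) := by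
      unfold D phi
      rw [show (-1 * (sa : ℤ)) = -sa by ring, neg_add_cancel]
      ring
    rw [e, abs_le]
    constructor <;> linarith
  · have e : D sa (phi μ s t τ I (η, S) b) (0 * sa) = Db μ s t τ I sa η b 0 (pos S) := by
      rw [zero_mul]
      rfl
    rw [e]
    linarith
  · have e : D sa (phi μ s t τ I (η, S) b) (1 * sa) = (fb μ s t τ I η b (sa + sa) (pos S) - fb μ s t τ I η b 0 (pos S)) +
        (fb μ s t τ I η b 0 (pos S) - fb μ s t τ I η b 0 (pos S)) -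
        2 * (fb μ s t τ I η b sa (pos S) - fb μ s t τ I η b 0 (pos S)) := by
      unfold D phi
      rw [one_mul, sub_self]
      ring
    rw [e, abs_le]
    constructor <;> linarith

/-- The errors of one step. -/
theorem err_le {L X N₀ n cI cL J U : ℕ} {p e1 e2 rM ecl : ℝ} (hX : 1 ≤ X) (hn : n ≤ L) (hcL : cL ≤ n + 1)
    (hcI : cI ≤ (n + 1) ^ 2) (hJ : J ≤ L) (hU : U ≤ n + 1) (hp : 0 ≤ p) (he1 : 0 ≤ e1) (he2 : 0 ≤ e2) (hrM1 : rM ≤ 1)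
    (hecl : ecl ≤ (10 * ((L : ℝ) + 1)) ^ 7 * X * (p + e1 + e2)) :
    cL * (rM * (2 * p) + 2 * p + X * p) + ecl +
        J * ((10 : ℕ) * (2 * ((U : ℝ) + 1) * ((1 / 2) ^ N₀ + (U : ℝ) ^ N₀ * (N₀ * (X * p))))) +
        ((cI : ℝ) + 1) * (2 * e2 + 2 * p) ≤
      (10 * ((L : ℝ) + 1)) ^ 20 * X * (p + e1 + e2 + (1 / 2) ^ N₀ + ((L : ℝ) + 2) ^ N₀ * (N₀ * (X * p))) := by
  set Z : ℝ := 10 * ((L : ℝ) + 1) with hZ
  have hL0 : (0 : ℝ) ≤ L := Nat.cast_nonneg L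
  have hX1 : (1 : ℝ) ≤ X := by exact_mod_cast hX
  have hnL : (n : ℝ) ≤ L := by exact_mod_cast hn
  have hcL' : (cL : ℝ) ≤ n + 1 := by exact_mod_cast hcL
  have hcI' : (cI : ℝ) ≤ (n + 1) ^ 2 := by exact_mod_cast hcI
  have hJ' : (J : ℝ) ≤ L := by exact_mod_cast hJ
  have hU' : (U : ℝ) ≤ n + 1 := by exact_mod_cast hU
  have hZ10 : 10 ≤ Z := by rw [hZ]; linarith
  set R : ℝ := (1 / 2 : ℝ) ^ N₀ + ((L : ℝ) + 2) ^ N₀ * (N₀ * (X * p)) with hR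
  have hR0 : 0 ≤ R := by positivity
  have hS0 : 0 ≤ p + e1 + e2 := by positivity
  have hcL0 : (0 : ℝ) ≤ cL := Nat.cast_nonneg cL
  have h1 : cL * (rM * (2 * p) + 2 * p + X * p) ≤ Z * (X * (p + e1 + e2)) := by
    have a1 : rM * (2 * p) + 2 * p + X * p ≤ 5 * (X * p) := by
      have b1 : rM * (2 * p) ≤ 1 * (2 * p) := mul_le_mul_of_nonneg_right hrM1 (by linarith)
      have b2 : 1 * p ≤ X * p := mul_le_mul_of_nonneg_right hX1 hp
      linarith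
    have a2 : (cL : ℝ) ≤ Z / 10 := by rw [hZ]; linarith
    have a3 : 0 ≤ 5 * ((X : ℝ) * p) := by positivity
    calc cL * (rM * (2 * p) + 2 * p + X * p) ≤ cL * (5 * (X * p)) := mul_le_mul_of_nonneg_left a1 hcL0
      _ ≤ Z / 10 * (5 * (X * p)) := mul_le_mul_of_nonneg_right a2 a3
      _ ≤ Z * (X * (p + e1 + e2)) := by
        have a4 : (X : ℝ) * p ≤ X * (p + e1 + e2) := mul_le_mul_of_nonneg_left (by linarith) (by linarith)
        have a5 : 0 ≤ Z * ((X : ℝ) * p) := by positivity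
        have a6 := mul_le_mul_of_nonneg_left a4 (show 0 ≤ Z by linarith)
        linarith
  have h2 : (J : ℝ) * ((10 : ℕ) * (2 * ((U : ℝ) + 1) * ((1 / 2) ^ N₀ + (U : ℝ) ^ N₀ * (N₀ * (X * p))))) ≤
      Z ^ 2 * R := by
    have a1 : (U : ℝ) ^ N₀ ≤ ((L : ℝ) + 2) ^ N₀ := pow_le_pow_left₀ (Nat.cast_nonneg U) (by linarith) _
    have a2 : (1 / 2 : ℝ) ^ N₀ + (U : ℝ) ^ N₀ * (N₀ * (X * p)) ≤ R := by
      rw [hR]
      have : 0 ≤ (N₀ : ℝ) * (X * p) := by positivity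
      have := mul_le_mul_of_nonneg_right a1 this
      linarith
    have a3 : 0 ≤ (1 / 2 : ℝ) ^ N₀ + (U : ℝ) ^ N₀ * (N₀ * (X * p)) := by positivity
    have a4 : 2 * ((U : ℝ) + 1) ≤ 2 * ((L : ℝ) + 2) := by linarith
    push_cast
    calc (J : ℝ) * (10 * (2 * ((U : ℝ) + 1) * ((1 / 2) ^ N₀ + (U : ℝ) ^ N₀ * (N₀ * (X * p)))))
        ≤ L * (10 * (2 * ((L : ℝ) + 2) * R)) := by gcongr
      _ = L * (20 * ((L : ℝ) + 2)) * R := by ring
      _ ≤ Z ^ 2 * R := by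
        refine mul_le_mul_of_nonneg_right ?_ hR0
        rw [hZ]
        have b1 : (0 : ℝ) ≤ (L : ℝ) * L := by positivity
        have e1 : (L : ℝ) * (20 * ((L : ℝ) + 2)) = 20 * (L * L) + 40 * L := by ring
        have e2 : (10 * ((L : ℝ) + 1)) ^ 2 = 100 * (L * L) + 200 * L + 100 := by ring
        rw [e1, e2]
        linarith
  have h3 : ((cI : ℝ) + 1) * (2 * e2 + 2 * p) ≤ Z ^ 2 * (X * (p + e1 + e2)) := by
    have a1 : (cI : ℝ) + 1 ≤ Z ^ 2 / 2 := by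
      have : ((n : ℝ) + 1) ^ 2 ≤ ((L : ℝ) + 1) ^ 2 := pow_le_pow_left₀ (by positivity) (by linarith) _
      have b1 : (1 : ℝ) ≤ ((L : ℝ) + 1) ^ 2 := one_le_pow₀ (by linarith)
      have e1 : Z ^ 2 = 100 * ((L : ℝ) + 1) ^ 2 := by rw [hZ]; ring
      rw [e1]
      linarith
    have a2 : 2 * e2 + 2 * p ≤ 2 * (X * (p + e1 + e2)) := by
      have : p + e1 + e2 ≤ X * (p + e1 + e2) := le_mul_of_one_le_left hS0 hX1
      linarith
    calc ((cI : ℝ) + 1) * (2 * e2 + 2 * p) ≤ Z ^ 2 / 2 * (2 * (X * (p + e1 + e2))) := by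
          refine mul_le_mul a1 a2 (by positivity) (by positivity)
      _ = Z ^ 2 * (X * (p + e1 + e2)) := by ring
  have h4 : Z * (X * (p + e1 + e2)) ≤ Z ^ 7 * (X * (p + e1 + e2)) := by
    refine mul_le_mul_of_nonneg_right ?_ (by positivity)
    calc Z = Z ^ 1 := (pow_one Z).symm
      _ ≤ Z ^ 7 := pow_le_pow_right₀ (by linarith) (by norm_num)
  have h5 : Z ^ 2 * (X * (p + e1 + e2)) ≤ Z ^ 7 * (X * (p + e1 + e2)) :=
    mul_le_mul_of_nonneg_right (pow_le_pow_right₀ (by linarith) (by norm_num)) (by positivity)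
  have h6 : Z ^ 2 * R ≤ Z ^ 7 * (X * R) := by
    have b1 : R ≤ X * R := le_mul_of_one_le_left hR0 hX1
    have b2 : Z ^ 2 ≤ Z ^ 7 := pow_le_pow_right₀ (by linarith) (by norm_num)
    exact mul_le_mul b2 b1 hR0 (by positivity)
  have h7 : 3 * (Z ^ 7 * (X * (p + e1 + e2))) + Z ^ 7 * (X * R) ≤ Z ^ 20 * X * (p + e1 + e2 + R) := by
    have b1 : 3 * Z ^ 7 ≤ Z ^ 20 := by
      calc 3 * Z ^ 7 ≤ Z * Z ^ 7 := mul_le_mul_of_nonneg_right (by linarith) (by positivity)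
        _ = Z ^ 8 := by ring
        _ ≤ Z ^ 20 := pow_le_pow_right₀ (by linarith) (by norm_num)
    have b2 : Z ^ 7 ≤ Z ^ 20 := pow_le_pow_right₀ (by linarith) (by norm_num)
    have b3 := mul_le_mul_of_nonneg_right b1 (show 0 ≤ (X : ℝ) * (p + e1 + e2) by positivity)
    have b4 := mul_le_mul_of_nonneg_right b2 (show 0 ≤ (X : ℝ) * R by positivity)
    linarith
  have e : p + e1 + e2 + (1 / 2) ^ N₀ + ((L : ℝ) + 2) ^ N₀ * (N₀ * (X * p)) = p + e1 + e2 + R := by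
    rw [hR]
    ring
  rw [e]
  have h8 : (Z ^ 7 * X * (p + e1 + e2)) = Z ^ 7 * (X * (p + e1 + e2)) := by ring
  rw [h8] at hecl
  linarith

/-- **The one step inequality of the concrete model.** -/
theorem oneZ [IsProbabilityMeasure μ] (hmd0 : ∀ j, 0 ≤ md μ s j) (hmd1 : ∀ j, md μ s j ≤ j)
    {L N t τ B k₀ k₁ K sa e0 E X N₀ : ℕ} {n1 : ℕ → ℕ} {I : Finset ℕ} {y : ℤ}
    {w A r p lm u G c₀ lc s₀ T q κ₀ : ℝ} (h0 : 0 ≤ y) (h1 : y ≤ N) (hN : N ≤ L) (ht : 16 ≤ t) (hI : I ⊆ Core t)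
    (hk : k₀ < k₁) (hk₁ : k₁ ≤ B) (hB : B ≤ L) (hkN : za t τ k₁ ≤ N) (hE : 2 ^ (E + 3) ≤ L)
    (hX : ∀ b, (Wd N t τ k₀ n1 e0 E b).card ≤ X) (hX1 : 1 ≤ X) (hs1 : 1 ≤ sa) (hA : 1 ≤ A) (hr : 0 ≤ r) (hp : 0 ≤ p)
    (hlm : 0 ≤ lm) (hu : 0 ≤ u) (hN₀ : 1 ≤ N₀) (hsK : 2 * sa ≤ K) (hw : 2 * w + 4 * (sa * I.card) ≤ min (sl μ s) (1 - sl μ s) * t)
    (hD : 64 * (sa * I.card) ≤ 2 ^ e0) (hn1 : ∀ e, e0 ≤ e → e ≤ E → 1 ≤ n1 e)
    (hRA : law μ {η | ¬ RA μ s L t τ B I w A K η} ≤ ENNReal.ofReal p)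
    (hTF : P1 μ s N y (fun _ S => ¬ (Tame μ s L N t w (pos S) ∧ FlatP μ s N e0 E n1 S)) ≤ ENNReal.ofReal p)
    (hSep : ∀ V : ℕ → ℤ, VOK t τ N k₀ k₁ sa I V →
      P2 μ s N y (pat t τ I V) (fun _ S S' => ¬ SepOK N t τ k₀ k₁ e0 E (pat t τ I V) S S') ≤ ENNReal.ofReal p)
    (hT : TieIn μ s N y t τ k₀ n1 e0 E r p)
    (hG : 0 ≤ G) (hs₀ : 1 ≤ s₀) (hT1 : 1 ≤ T) (hq : 0 ≤ q) (hc₀ : 8 ≤ c₀) (hlc : 1 ≤ lc) (hκ₀ : 0 ≤ κ₀)
    (hTm : T * √((k₁ - k₀ : ℕ) : ℝ) * (sa * (A * q)) ≤ 1) (hLl : (Nat.size L : ℝ) ≤ lc)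
    (a1 : 2 * (u + 4) ≤ c₀ / 2) (a2 : (3 / 2 * G + 2 * (u + 4)) * (24 * lc) ≤ c₀ * √s₀)
    (a3 : (3 / 2 * G + 2 * (u + 4)) * (8 * lc ^ 2) ≤ c₀ * T)
    (a4 : X * (r * ((G + 3 * (2 * (u + 4)) + 12 + 3 * lm) * A)) ≤ κ₀ * (A * q))
    (a5 : 1 * (4 * (N₀ : ℝ) * (10 : ℕ) * (κ₀ * 2 * 2 + 1)) + 2 ≤ lc)
    (a6 : 2 * (2 * s₀ + 1) * (X * (r * ((2 * (G + 2) * √s₀ + 2 * (2 * (u + 4)) + 12 + 3 * lm) * A))) ≤ T * (A * q))
    (x : ℝ) :
    (sp1 μ s N y).pr {z | x < |Xs sa (Ico k₀ k₁) (phi μ s t τ I z)|} ≤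
      (sp1 μ s N y).pr {z | 4 * (x - c₀ * √((k₁ - k₀ : ℕ) : ℝ) * (sa * A)) < |Xs (2 * sa) (Ico k₀ k₁) (phi μ s t τ I z)|} +
      1 / 2 * (sp1 μ s N y).pr {z | x - c₀ * (sa * A) < |Xs sa (Ico k₀ k₁) (phi μ s t τ I z)|} +
      2 * ∑ q ∈ Iv k₀ k₁ ⌊((k₁ - k₀ : ℕ) : ℝ) / s₀⌋₊,
        ((sp1 μ s N y).pr {z | G * √((q.2 - q.1 : ℕ) : ℝ) * (sa * A) < |Xs sa (Ico q.1 q.2) (phi μ s t τ I z)|} +
        (sp1 μ s N y).pr {z | 2 * G * √((q.2 - q.1 : ℕ) : ℝ) * (sa * A) < |Xs (2 * sa) (Ico q.1 q.2) (phi μ s t τ I z)|}) +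
      errZ L X N₀ p lm u := by
  classical
  set n : ℕ := k₁ - k₀ with hn
  set h : ℝ := 2 * (u + 4) with hh
  set M : ℕ := ⌊(n : ℝ) / s₀⌋₊ with hM
  have hn1' : 1 ≤ n := by omega
  have hnL : n ≤ L := by omega
  have hm1 : (1 : ℝ) ≤ n := by exact_mod_cast hn1'
  have hh0 : 0 ≤ h := by rw [hh]; linarith
  have hsr : (1 : ℝ) ≤ sa := by exact_mod_cast hs1
  have ha1 : 1 ≤ (sa : ℝ) * A := one_le_mul_of_one_le_of_one_le hsr hA
  have ha0 : 0 ≤ (sa : ℝ) * A := by linarith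
  have hA0 : 0 ≤ A := by linarith
  have hMn : M ≤ n := by
    rw [hM]
    exact Nat.floor_le_of_le (div_le_self (by positivity) hs₀)
  -- the depths
  set Mj : ℕ → ℝ := fun j => √((2 : ℝ) ^ j) * ((G + 3 * h + 12 + 3 * lm) * (sa * A)) with hMj
  set ML : ℝ := √(n : ℝ) * ((2 * (G + 2) * √s₀ + 2 * h + 12 + 3 * lm) * (sa * A)) with hML
  have hss : 1 ≤ √s₀ := Real.one_le_sqrt.2 hs₀
  have hMj1 : ∀ j, 1 ≤ Mj j := by
    intro j
    have e1 : 1 ≤ √((2 : ℝ) ^ j) := Real.one_le_sqrt.2 (one_le_pow₀ (by norm_num))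
    have e2 : 1 ≤ (G + 3 * h + 12 + 3 * lm) * (sa * A) :=
      one_le_mul_of_one_le_of_one_le (by linarith only [hG, hh0, hlm]) ha1
    simp only [hMj]
    exact one_le_mul_of_one_le_of_one_le e1 e2
  have hML1 : 1 ≤ ML := by
    have e1 : 1 ≤ √(n : ℝ) := Real.one_le_sqrt.2 hm1
    have e3 : 0 ≤ 2 * (G + 2) * √s₀ := by positivity
    have e2 : 1 ≤ (2 * (G + 2) * √s₀ + 2 * h + 12 + 3 * lm) * (sa * A) :=
      one_le_mul_of_one_le_of_one_le (by linarith only [e3, hh0, hlm]) ha1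
    rw [hML]
    exact one_le_mul_of_one_le_of_one_le e1 e2
  -- the symbols
  have hV : ∀ σ : Fin (n / 2) → Fin 4, VOK t τ N k₀ k₁ sa I (amp sa k₀ (n / 2) σ) := fun σ =>
    amp_ok (by omega) hI hk.le hkN σ
  have hzk : zb t τ (k₁ - 1) ≤ N := by
    have := za_lt (t := t) (τ := τ) (show k₁ - 1 < k₁ by omega)
    rw [zb_eq]
    omega
  choose ex hex1 hex2 hex3 using fun σ : Fin (n / 2) → Fin 4 =>
    Pool.Agent.W_7d29a1_HZ.Z86.exists_ex (μ := μ) (N := N) (t := t) (τ := τ) (k0 := k₀) (k1 := k₁) (I := I)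
      (V := amp sa k₀ (n / 2) σ) (by omega) hk hzk hI (hV σ).z0
  -- single zones
  have hTame : P1 μ s N y (fun _ S => ¬ Tame μ s L N t w (pos S)) ≤ ENNReal.ofReal p :=
    (P1_mono' fun _ S _ _ h2 h3 => h2 h3.1).trans hTF
  have hz := zone_pr (k₀ := k₀) h0 h1 hk₁ hkN hsK hA0 hp hRA hTame
  have hzH : ∀ x z : ℕ, k₀ ≤ x → z ≤ k₁ → P1 μ s N y (fun η S => ¬ ∀ b, x ≤ b → b < z → ∀ i : ℤ, |i| ≤ 1 →
      |D sa (phi μ s t τ I (η, S) b) (i * sa)| ≤ 2 * (2 * (sa * A))) ≤ ENNReal.ofReal (2 * p) := fun x z hx hz' =>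
    (P1_mono' fun η S _ _ h2 h3 => h2 fun b hb1 hb2 i hi => (h3 b (by omega) (by omega) i hi).1).trans hz
  have hzD : P1 μ s N y (fun η S => ¬ ∀ k, k₀ ≤ k → k < k₁ → |Db μ s t τ I sa η k 0 (pos S)| ≤ 2 * (sa * A)) ≤
      ENNReal.ofReal (2 * p) :=
    (P1_mono' fun η S _ _ h2 h3 => h2 fun b hb1 hb2 => (h3 b hb1 hb2 0 (by simp)).2).trans hz
  -- the rate of the long places
  have hϖ0 : 0 ≤ (sa : ℝ) * (A * q) := by positivity
  set ρ : ℝ := X * (r * ML) with hρ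
  have hρ0 : 0 ≤ ρ := by
    rw [hρ]
    have : 0 ≤ ML := by linarith
    positivity
  have hLi := long_card (n := n) (s₀ := s₀) hn1' hs₀
  rw [← hM] at hLi
  set Li : Finset ℕ := range (n / max 1 M + 1) with hLid
  have hsum : (Li.card : ℝ) * ρ ≤ 1 / 2 := by
    have e1 : (Li.card : ℝ) * ρ ≤ (2 * s₀ + 1) * ρ := mul_le_mul_of_nonneg_right hLi hρ0
    have e2 : (2 * s₀ + 1) * ρ = (√(n : ℝ) * sa) *
        ((2 * s₀ + 1) * (X * (r * ((2 * (G + 2) * √s₀ + 2 * h + 12 + 3 * lm) * A)))) := by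
      rw [hρ, hML]
      ring
    have e3 : (2 * s₀ + 1) * (X * (r * ((2 * (G + 2) * √s₀ + 2 * h + 12 + 3 * lm) * A))) ≤ T * (A * q) / 2 := by
      linarith
    have e4 : 0 ≤ √(n : ℝ) * sa := by positivity
    have e5 := mul_le_mul_of_nonneg_left e3 e4
    have e6 : √(n : ℝ) * sa * (T * (A * q) / 2) = (T * √(n : ℝ) * (sa * (A * q))) / 2 := by ring
    rw [e6] at e5
    linarith
  have hρ1 : ρ ≤ 1 := by
    have e1 : (1 : ℝ) ≤ Li.card := by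
      rw [hLid, card_range]
      push_cast
      have : (0 : ℝ) ≤ ((n / max 1 M : ℕ) : ℝ) := Nat.cast_nonneg _
      linarith only [this]
    have e2 : ρ ≤ Li.card * ρ := le_mul_of_one_le_left hρ0 e1
    linarith only [e2, hsum]
  -- the weights
  have hwt : ∑ _σ : Fin (n / 2) → Fin 4, ((4 : ℝ) ^ (n / 2))⁻¹ = 1 := by
    rw [Finset.sum_const, Finset.card_univ, Fintype.card_fun, Fintype.card_fin, Fintype.card_fin, nsmul_eq_mul]
    push_cast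
    exact mul_inv_cancel₀ (by positivity)
  have main := onestep_w (V := Fin (n / 2) → Fin 4) (Y := Env × Finset ℕ) (Θ := Env × Finset ℕ × Finset ℕ) (ι := ℕ × ℕ)
    (κ := ℕ) (fun _ => ((4 : ℝ) ^ (n / 2))⁻¹) (fun _ => by positivity) hwt (sp1 μ s N y)
    (fun σ => sp2 μ s h0 h1 (pat t τ I (amp sa k₀ (n / 2) σ))) (fun _ θ => (θ.1, θ.2.1))
    (fun σ θ => (shr 0 (pat t τ I (amp sa k₀ (n / 2) σ)) θ.1, θ.2.2)) (fun σ θ => (θ.1, ex σ θ.2.1 θ.2.2))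
    (phi μ s t τ I) (fun σ => amp sa k₀ (n / 2) σ) (sa : ℤ) (k₀ := k₀) (k₁ := k₁) (M := M) (J := Nat.size M)
    (fun σ x => (Pool.Agent.W_7d29a1_HZ.Z86.hp1_86 h0 h1 _ {z | x < |Xs sa (Ico k₀ k₁) (phi μ s t τ I z)|}).ge)
    (fun σ F => (Pool.Agent.W_7d29a1_HZ.Z86.hp0_86 h0 h1 _ F).le)
    (fun σ F => (Pool.Agent.W_7d29a1_HZ.Z86.hp1_86 h0 h1 _ F).le)
    (fun σ F => (Pool.Agent.W_7d29a1_HZ.Z86.hp2_86 h0 h1 _ (hex1 σ) (hex2 σ) F).le)
    (fun σ θ => Bf N y t τ k₀ k₁ (pat t τ I (amp sa k₀ (n / 2) σ)) θ) Prod.fst Prod.snd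
    (fun σ θ p' hp' => Pool.Agent.W_7d29a1_HZ.Z86.Bf_mem hk hp')
    (fun σ θ G G' hG hG' => Pool.Agent.W_7d29a1_HZ.Z86.hcs86 hk hI (hV σ).svN (hex3 σ) θ G G' hG hG')
    (G := G) (h := h) (a := sa * A) (c₀ := c₀) (lc := lc) (ϖ := sa * (A * q)) (δH := 2 * Real.exp (-(u ^ 2 / 64)) + 2 * p)
    (δc := (10 : ℕ) * (2 * (((n + 1 : ℕ) : ℝ) + 1) * ((1 / 2) ^ N₀ + ((n + 1 : ℕ) : ℝ) ^ N₀ * (N₀ * (X * p)))))
    (δ := ρ * (2 * p) + 2 * p + X * p) (ecl := (10 * ((L : ℝ) + 1)) ^ 7 * X * (p + Real.exp (-lm) + Real.exp (-(u ^ 2 / 64))))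
    (lb := 1) (e₀ := 2) ha0 hG hh0 hlc ?_ hϖ0 (Nat.lt_size_self M) zero_le_one ?_
    (fun σ => BadS μ s L N y t τ B k₀ k₁ K sa e0 E n1 I w A h lm (amp sa k₀ (n / 2) σ)) ?_
    (fun j => n / st j + 1)
    (fun j v _ => NTb μ s N t τ k₀ n1 e0 E (2 * t * (2 ^ (j + 1) + 1)) (2 * t * (2 ^ (j + 1) + 1)) (Mj j) (k₀ + v * st j)) ?_
    (fun j => 4 * (N₀ : ℝ) * (10 : ℕ) * (X * (r * Mj j) * 2 * ((n / st j + 1 : ℕ) : ℝ) + 1)) ?_ ?_ Li
    (fun i _ => NTb μ s N t τ k₀ n1 e0 E N N ML (k₀ + i * max 1 M)) ?_ (fun _ => ρ) ?_ ?_ x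
  · -- the conclusion
    refine main.trans ?_
    rw [Finset.sum_const, nsmul_eq_mul]
    have e1 := mul_le_mul_of_nonneg_right hsum ((sp1 μ s N y).nonneg {z | x - c₀ * (sa * A) <
      |Xs sa (Ico k₀ k₁) (phi μ s t τ I z)|})
    have e2 := err_le (L := L) (X := X) (N₀ := N₀) (n := n) (cI := (Iv k₀ k₁ M).card) (cL := Li.card) (J := Nat.size M)
      (U := n + 1) (p := p) (e1 := Real.exp (-lm)) (e2 := Real.exp (-(u ^ 2 / 64))) (rM := ρ)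
      (ecl := (10 * ((L : ℝ) + 1)) ^ 7 * X * (p + Real.exp (-lm) + Real.exp (-(u ^ 2 / 64)))) hX1 hnL (by
        rw [hLid, card_range]
        have := Nat.div_le_self n (max 1 M)
        omega) (by
        have e3 : (Iv k₀ k₁ M).card ≤ (Icc k₀ k₁ ×ˢ Icc k₀ k₁).card := Finset.card_filter_le _ _
        rw [Finset.card_product, Nat.card_Icc] at e3
        have e4 : k₁ + 1 - k₀ = n + 1 := by omega
        rw [e4, ← sq] at e3
        exact e3) (by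
        refine (Nat.size_le_size (hMn.trans hnL)).trans ?_
        rw [Nat.size_le]
        exact Nat.lt_two_pow_self) le_rfl hp (Real.exp_pos _).le (Real.exp_pos _).le hρ1 le_rfl
    unfold errZ
    push_cast at e2 ⊢
    linarith
  · -- the number of classes
    refine le_trans ?_ hLl
    exact_mod_cast Nat.size_le_size (hMn.trans hnL)
  · -- Hoeffding
    intro q' hq'
    have hq2 : k₀ ≤ q'.1 ∧ q'.1 < q'.2 ∧ q'.2 ≤ k₁ := by
      rcases Finset.mem_insert.1 hq' with rfl | h3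
      · exact ⟨le_rfl, hk, le_rfl⟩
      · exact (mem_Iv.1 h3).1
    have h3 := hoefD1 (μ := μ) h0 h1 t τ I (sa : ℤ) (k₀ := k₀) (k₁ := k₁) (x := q'.1) (z := q'.2) hq2.1 hq2.2.1 hq2.2.2
      (A' := 2 * (sa * A)) (u := u) (p := 2 * p) (by positivity) hu (by positivity) (hzH _ _ hq2.1 hq2.2.2)
    have e : h * √((q'.2 - q'.1 : ℕ) : ℝ) * (sa * A) = (u + 4) * √((q'.2 - q'.1 : ℕ) : ℝ) * (2 * (sa * A)) := by
      rw [hh]
      ring
    rw [e]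
    exact h3
  · -- the bad set
    exact badS_pr hmd0 hmd1 h0 h1 hN hk hk₁ hB ht hI hkN hE hX hX1 hA0 hlm hu (by rw [hh]; linarith) hp (by omega) hRA hTF hSep
  · -- short clusters
    intro σ θ hθ hg0 hg1 hno j _
    exact hcl72 ht hI hk hk₁ hkN (hV σ) (by omega) hs1 hA hw hn1 hD hG hh0 hlm hθ hg0 hg1 hno
  · -- the count
    intro σ j _
    have h3 := count_places (μ := μ) (N := N) h0 h1 hr hp hT hX j (n / st j + 1) N₀ hN₀ (M := Mj j) (Λ := 2) (hMj1 j)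
      (by norm_num)
    refine h3.trans ?_
    have e1 : ((n / st j + 1 : ℕ) : ℝ) ≤ ((n + 1 : ℕ) : ℝ) := by
      have := Nat.div_le_self n (st j)
      exact_mod_cast (by omega : n / st j + 1 ≤ n + 1)
    have e2 : 0 ≤ (N₀ : ℝ) * (X * p) := by positivity
    gcongr
  · -- the sizes of the counts
    intro j hj
    have hj' : 2 ^ j ≤ M := Nat.lt_size.1 hj
    have hjn : (2 : ℝ) ^ j ≤ n := by exact_mod_cast hj'.trans hMn
    refine Pool.Agent.W_7d29a1_Z.Num72.hcnt72 (lb := 1) (N₀ := (N₀ : ℝ)) (R := (10 : ℕ)) (κ := X * (r * Mj j)) (κ₀ := κ₀) (Λ := 2)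
      (U := ((n / st j + 1 : ℕ) : ℝ)) (cU := 2) (m := (n : ℝ)) (ϖ := sa * (A * q)) (lc := lc) (e₀ := 2) (j := j)
      (by norm_num) (by norm_num) (by positivity) (by positivity) hκ₀ (by norm_num) (by positivity) (by norm_num)
      (by positivity) hϖ0 ?_ ?_ ?_ a5
    · have e1 : X * (r * Mj j) = (√((2 : ℝ) ^ j) * sa) * (X * (r * ((G + 3 * h + 12 + 3 * lm) * A))) := by
        simp only [hMj]
        ring
      rw [e1]
      have e2 := mul_le_mul_of_nonneg_left a4 (show 0 ≤ √((2 : ℝ) ^ j) * sa by positivity)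
      refine e2.trans (le_of_eq (by ring))
    · have e1 : ((n / st j : ℕ) : ℝ) ≤ (n : ℝ) / (st j : ℕ) := Nat.cast_div_le
      have e2 : (2 : ℝ) ^ j ≤ 2 * (st j : ℕ) := by
        have : 2 ^ j ≤ 2 * st j := by
          unfold st
          rcases Nat.eq_zero_or_pos j with h3 | h3
          · subst h3
            norm_num
          · rw [← pow_succ', show j - 1 + 1 = j by omega]
        exact_mod_cast this
      have e3 : (0 : ℝ) < (st j : ℕ) := by exact_mod_cast Pool.Agent.W_7d29a1_Z86.st_pos j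
      have e4 : (n : ℝ) / (st j : ℕ) ≤ 2 * ((n : ℝ) / 2 ^ j) := by
        rw [← mul_div_assoc, div_le_div_iff₀ e3 (by positivity)]
        have e4 := mul_le_mul_of_nonneg_left e2 (Nat.cast_nonneg (α := ℝ) n)
        linarith only [e4]
      push_cast
      linarith
    · have e1 : √((2 : ℝ) ^ j) ≤ √(n : ℝ) := Real.sqrt_le_sqrt hjn
      have e2 : √(n : ℝ) * (sa * (A * q)) ≤ T * √(n : ℝ) * (sa * (A * q)) := by
        have : 0 ≤ √(n : ℝ) * (sa * (A * q)) := by positivity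
        have e3 := mul_le_mul_of_nonneg_right hT1 this
        linarith only [e3]
      have e3 := mul_le_mul_of_nonneg_right e1 hϖ0
      linarith only [e2, e3, hTm]
  · -- long clusters
    intro σ θ hθ hg0 hg1 hp'
    exact hlong72 ht hI hk hk₁ hkN (hV σ) (by omega) hs1 hA hw hn1 hD hG hh0 hlm hs₀ hθ hg0 hg1 hp'
  · -- absorption
    intro σ x' i _
    have h3 := dlx93 (μ := μ) (N := N) (t := t) (τ := τ) (k₀ := k₀) (k₁ := k₁) (e0 := e0) (E := E) (X := X)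
      (b := k₀ + i * max 1 M) (n1 := n1) (I := I) (g := (sa : ℤ)) h0 h1 (by omega) hI (r := r) (p := p) (dl := 2 * p)
      (M := ML) (A := sa * A) hr hp (by positivity) hT (hX _) hML1 ha0 hzD N N x'
    refine h3.trans ?_
    have e1 : (sp1 μ s N y).pr {q | x' - 8 * (sa * A) < |Xs sa (Ico k₀ k₁) (phi μ s t τ I q)|} ≤
        (sp1 μ s N y).pr {q | x' - c₀ * (sa * A) < |Xs sa (Ico k₀ k₁) (phi μ s t τ I q)|} := by
      refine (sp1 μ s N y).mono fun z hz' => ?_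
      have hz2 : x' - 8 * (sa * A) < |Xs sa (Ico k₀ k₁) (phi μ s t τ I z)| := hz'
      show x' - c₀ * (sa * A) < |Xs sa (Ico k₀ k₁) (phi μ s t τ I z)|
      have : 8 * (sa * A) ≤ c₀ * (sa * A) := mul_le_mul_of_nonneg_right hc₀ ha0
      linarith
    exact add_le_add (mul_le_mul_of_nonneg_left e1 hρ0) le_rfl
  · -- numbers
    refine Pool.Agent.W_7d29a1_Z.Num72.hnum72 hG hh0 (by linarith) (by linarith) (by linarith) a1 a2 ?_
    have e1 := mul_le_mul_of_nonneg_right a3 (show 0 ≤ (sa * (A * q)) * √(n : ℝ) by positivity)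
    have e2 : c₀ * T * ((sa * (A * q)) * √(n : ℝ)) = c₀ * (T * √(n : ℝ) * (sa * (A * q))) := by ring
    rw [e2] at e1
    have e3 : c₀ * (T * √(n : ℝ) * (sa * (A * q))) ≤ c₀ * 1 := mul_le_mul_of_nonneg_left hTm (by linarith)
    linarith

end Pool.Agent.W_7d29a1_HZ.R72
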