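import Pool.Agent.W_7d29a1_HZ.Act
import Pool.Agent.W_7d29a1_F.CoreB1
/-!
STORM Z, (2.1) of the text: the response bound for one zone gives the response bound for all the zones of a box, all the
amplitudes and all the starting points. (helper72)
-/

set_option autoImplicit false

namespace Pool.Agent.W_7d29a1_HZ

open MeasureTheory ProbabilityTheory Filter Topology Finset
open Pool.Agent.W_7d29a1_F Pool.Agent.W_7d29a1_X Pool.Agent.W_7d29a1_h4g Pool.Agent.W_7d29a1_H
open Pool.Agent.W_7d29a1_HS (In wd)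
open scoped ENNReal

variable {μ : Measure ℝ} {s : ℝ}

/-- The responses in all the zones `b ≤ L`, at all the amplitudes `|a| ≤ as`, for all the pieces and starting points. -/
def RBox (μ : Measure ℝ) (s : ℝ) (L t τ : ℕ) (I : Finset ℕ) (as : ℕ) (w A : ℝ) (η : Env) : Prop :=
  ∀ b : ℕ, b ≤ L → ∀ u u' : ℕ, 4 * u ≤ t → 3 * t ≤ 4 * u' → u' ≤ t → ∀ x y : ℤ, |x| ≤ 2 * L →
    |((y : ℝ) - x) - sl μ s * ((u' : ℝ) - u)| ≤ w → ∀ a : ℤ, |a| ≤ as →
      |fk μ s (pat t τ I fun _ => a + 1) η (za t τ b + u) (za t τ b + u') x y -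
        fk μ s (pat t τ I fun _ => a) η (za t τ b + u) (za t τ b + u') x y| ≤ A

theorem pat_za {t τ b k : ℕ} {I : Finset ℕ} (c : ℤ) (h : za t τ b ≤ k) :
    pat t τ I (fun _ => c) k = pat t 0 I (fun _ => c) (k - za t τ b) := by
  unfold pat za at *
  have h1 : τ ≤ k := by omega
  have h2 : (k - τ) % (2 * t) = (k - (τ + 2 * t * b) - 0) % (2 * t) := by
    have : k - τ = (k - (τ + 2 * t * b) - 0) + 2 * t * b := by omega
    rw [this, Nat.add_mul_mod_self_left]
  rw [h2]
  simp only [h1, true_and, Nat.zero_le]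

theorem pat_add (t τ : ℕ) (I : Finset ℕ) (a j : ℤ) :
    (pat t τ I fun _ => a) + (pat t τ I fun _ => j) = pat t τ I fun _ => a + j := by
  funext k
  unfold pat
  simp only [Pi.add_apply]
  split_ifs <;> simp

theorem sv_sub' (v : ℕ → ℤ) {u u' : ℕ} (h : u ≤ u') : sv v 0 u' - sv v 0 u = ∑ k ∈ Ico u u', v k := by
  unfold sv
  rw [← Finset.sum_Ico_consecutive v (Nat.zero_le u) h]
  ring

theorem sv_pat_le {t : ℕ} {I : Finset ℕ} (a : ℤ) {u u' : ℕ} (h : u ≤ u') (h' : u' ≤ t) :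
    |sv (pat t 0 I fun _ => a) 0 u' - sv (pat t 0 I fun _ => a) 0 u| ≤ |a| * I.card := by
  classical
  rw [sv_sub' _ h]
  refine (Finset.abs_sum_le_sum_abs _ _).trans ?_
  have h1 : ∀ k ∈ Ico u u', |pat t 0 I (fun _ => a) k| = if k ∈ I then |a| else 0 := by
    intro k hk
    rw [mem_Ico] at hk
    unfold pat
    have h2 : (k - 0) % (2 * t) = k := by
      rw [Nat.sub_zero]
      exact Nat.mod_eq_of_lt (by omega)
    rw [h2]
    simp only [Nat.zero_le, true_and]
    split_ifs <;> simp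
  rw [Finset.sum_congr rfl h1, ← Finset.sum_filter, Finset.sum_const, nsmul_eq_mul, mul_comm]
  refine mul_le_mul_of_nonneg_left ?_ (abs_nonneg a)
  exact_mod_cast Finset.card_le_card (fun k hk => (Finset.mem_filter.1 hk).2)

/-- The kernel of a piece of a zone with the amplitude `a + j` is the kernel with the amplitude `j` in the sheared and translated
environment. -/
theorem fk_zone {t τ b u u' : ℕ} {I : Finset ℕ} (η : Env) (a j x y : ℤ) (hu : u ≤ u') (_hu' : u' ≤ t) :
    fk μ s (pat t τ I fun _ => a + j) η (za t τ b + u) (za t τ b + u') x y =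
      fk μ s (pat t 0 I fun _ => j)
        (sh ((0 : ℤ), x + sv (pat t 0 I fun _ => a) 0 u) (shr 0 (pat t 0 I fun _ => a) (sh ((za t τ b : ℤ), 0) η)))
        u u' 0 (y - x + (sv (pat t 0 I fun _ => a) 0 u' - sv (pat t 0 I fun _ => a) 0 u)) := by
  have h1 : fk μ s (pat t τ I fun _ => a + j) η (za t τ b + u) (za t τ b + u') x y =
      fk μ s (fun k => pat t 0 I (fun _ => a + j) (k - za t τ b)) η (za t τ b + u) (za t τ b + u') x y :=
    fk_congr η x y fun k h1 _ => pat_za _ (by omega)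
  have h2 := fk_translate (μ := μ) (s := s) (pat t 0 I fun _ => a + j) η (za t τ b) u u' x y 0
  rw [add_zero, add_zero] at h2
  rw [h1, h2]
  set ζ := sh ((za t τ b : ℤ), 0) η with hζ
  set v := pat t 0 I fun _ => a with hv
  have h3 := fk_shr (μ := μ) (s := s) v (pat t 0 I fun _ => j) ζ hu (x + sv v 0 u) (y + sv v 0 u')
  rw [hv, pat_add, ← hv, add_sub_cancel_right, add_sub_cancel_right] at h3
  rw [← h3]
  have h4 := fk_translate (μ := μ) (s := s) (pat t 0 I fun _ => j) (shr 0 v ζ) 0 u u' 0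
    (y - x + (sv v 0 u' - sv v 0 u)) (x + sv v 0 u)
  rw [show (0 : ℤ) + (x + sv v 0 u) = x + sv v 0 u by ring,
    show y - x + (sv v 0 u' - sv v 0 u) + (x + sv v 0 u) = y + sv v 0 u' by ring] at h4
  simp only [Nat.sub_zero, Nat.zero_add, Nat.cast_zero] at h4
  exact h4

/-- **(2.1)** -/
theorem rbox [IsProbabilityMeasure μ] {t : ℕ} {I : Finset ℕ} {w w' A p : ℝ} (hR : Rsp μ s t I 1 w' A p)
    (L τ as : ℕ) (hw : (as : ℝ) * I.card ≤ w' - w) :
    law μ {η | ¬ RBox μ s L t τ I as w A η} ≤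
      ENNReal.ofReal (((L : ℝ) + 1) * (2 * (2 * L + as * I.card) + 1) * (2 * as + 1) * p) := by
  classical
  unfold Rsp at hR
  set Bad : Set Env := {η | ∃ u u' : ℕ, 4 * u ≤ t ∧ 3 * t ≤ 4 * u' ∧ u' ≤ t ∧ ∃ y : ℤ,
    |(y : ℝ) - sl μ s * ((u' : ℝ) - u)| ≤ w' ∧
    A < |fk μ s (pat t 0 I fun _ => (1 : ℤ)) η u u' 0 y - fk μ s 0 η u u' 0 y|} with hBad
  set Z : ℕ := 2 * L + as * I.card with hZ
  set T : ℕ × ℤ × ℤ → Env → Env := fun q η =>
    sh ((0 : ℤ), q.2.2) (shr 0 (pat t 0 I fun _ => q.2.1) (sh ((za t τ q.1 : ℤ), 0) η)) with hT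
  set F : Finset (ℕ × ℤ × ℤ) := (range (L + 1)) ×ˢ ((Icc (-(as : ℤ)) as) ×ˢ (Icc (-(Z : ℤ)) Z)) with hF
  have hsub : {η | ¬ RBox μ s L t τ I as w A η} ⊆ ⋃ q ∈ F, T q ⁻¹' Bad := by
    intro η hη
    have h1 : ¬ RBox μ s L t τ I as w A η := hη
    unfold RBox at h1
    push Not at h1
    obtain ⟨b, hb, u, u', h2, h3, h4, x, y, hx, hy, a, ha, hlt⟩ := h1
    have h3' : u ≤ u' := by omega
    have h5 := sv_pat_le (t := t) (I := I) a h3' h4
    have h5' := sv_pat_le (t := t) (I := I) a (Nat.zero_le u) (h3'.trans h4)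
    have hsv0 : sv (pat t 0 I fun _ => a) 0 0 = 0 := by simp [sv]
    rw [hsv0, sub_zero] at h5'
    have haI : |a| * (I.card : ℤ) ≤ as * I.card := mul_le_mul_of_nonneg_right ha (by positivity)
    simp only [Set.mem_iUnion, Set.mem_preimage]
    refine ⟨(b, a, x + sv (pat t 0 I fun _ => a) 0 u), ?_, ?_⟩
    · rw [hF]
      simp only [mem_product, mem_range, mem_Icc]
      refine ⟨by omega, ⟨(abs_le.1 ha).1, (abs_le.1 ha).2⟩, ?_, ?_⟩
      · have e1 := (abs_le.1 hx).1
        have e2 := (abs_le.1 h5').1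
        push_cast [hZ]
        linarith
      · have e1 := (abs_le.1 hx).2
        have e2 := (abs_le.1 h5').2
        push_cast [hZ]
        linarith
    · rw [hBad]
      refine ⟨u, u', h2, h3, h4, y - x + (sv (pat t 0 I fun _ => a) 0 u' - sv (pat t 0 I fun _ => a) 0 u), ?_, ?_⟩
      · have e1 : |((sv (pat t 0 I fun _ => a) 0 u' - sv (pat t 0 I fun _ => a) 0 u : ℤ) : ℝ)| ≤ as * I.card := by
          rw [← Int.cast_abs]
          exact_mod_cast h5.trans haI
        have e2 := abs_le.1 hy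
        have e3 := abs_le.1 e1
        rw [abs_le]
        push_cast at e3 ⊢
        constructor <;> linarith [e2.1, e2.2, e3.1, e3.2]
      · have e1 := fk_zone (μ := μ) (s := s) (t := t) (τ := τ) (b := b) (I := I) η a 1 x y h3' h4
        have e2 := fk_zone (μ := μ) (s := s) (t := t) (τ := τ) (b := b) (I := I) η a 0 x y h3' h4
        have e3 : (pat t 0 I fun _ => (0 : ℤ)) = 0 := by
          funext k
          unfold pat
          simp
        rw [add_zero, e3] at e2
        rw [e1, e2] at hlt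
        exact hlt
  have hmp : ∀ q, MeasurePreserving (T q) (law μ) (law μ) := fun q =>
    (mp_sh (μ := μ) ((0 : ℤ), q.2.2)).comp ((shr_mp 0 _).comp (mp_sh (μ := μ) ((za t τ q.1 : ℤ), 0)))
  have hone : ∀ q, law μ (T q ⁻¹' Bad) ≤ ENNReal.ofReal p := by
    intro q
    refine le_trans ?_ hR
    have h1 := Measure.le_map_apply (hmp q).measurable.aemeasurable (μ := law μ) Bad
    rwa [(hmp q).map_eq] at h1
  refine (measure_mono hsub).trans ((measure_biUnion_finset_le _ _).trans ?_)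
  refine (Finset.sum_le_sum fun q _ => hone q).trans ?_
  rw [Finset.sum_const, nsmul_eq_mul]
  have hcard : (F.card : ℝ) = ((L : ℝ) + 1) * (2 * (2 * L + as * I.card) + 1) * (2 * as + 1) := by
    rw [hF, card_product, card_product, card_range, Int.card_Icc, Int.card_Icc]
    have e1 : ((as : ℤ) + 1 - -(as : ℤ)).toNat = 2 * as + 1 := by omega
    have e2 : ((Z : ℤ) + 1 - -(Z : ℤ)).toNat = 2 * Z + 1 := by omega
    rw [e1, e2]
    push_cast [hZ]
    ring
  rw [← hcard, ENNReal.ofReal_mul (by positivity), ENNReal.ofReal_natCast]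

end Pool.Agent.W_7d29a1_HZ
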