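import Pool.Agent.W_7d29a1_HZ.Defs
import Pool.Agent.W_7d29a1_Z.StepQ

/-!
# STORM Z at one tilt: the property `PSg` and the step of exponents

`G81 μ s t z δ A p` : at the scale `t` there is a pattern of `z` times in the core whose response in the cone of half width
`t ^ δ * wd μ s t` is at most `A` off an event of probability `p`. `stepP_PSg` : the analytic step for `G81` gives
`StepP (wd μ s) (PSg μ s)`. (helper81)
-/

set_option autoImplicit false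

namespace Pool.Agent.W_7d29a1_HZ.Step81

open MeasureTheory Filter Topology Real Pool.Agent.W_7d29a1_HZ Pool.Agent.W_7d29a1_Z10 _root_.W_7d29a1_Z.Step81
open Pool.Agent.W_7d29a1_H (EE)
open Pool.Agent.W_7d29a1_HS (wd)

/-- there is a pattern -/
def G81 (μ : Measure ℝ) (s : ℝ) (t z : ℕ) (δ A p : ℝ) : Prop :=
  ∃ I : Finset ℕ, I ⊆ Core t ∧ I.card = z ∧ Rsp μ s t I 1 ((t : ℝ) ^ δ * wd μ s t) A p

theorem psg_eq (μ : Measure ℝ) (s : ℝ) : PSg μ s = PQ (G81 μ s) := by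
  funext σ
  refine propext ⟨fun h ε hε => ?_, fun h ε hε => ?_⟩
  · obtain ⟨δ, c, hδ, hc, t₀, h⟩ := h ε hε
    refine ⟨δ, c, hδ, hc, t₀, fun t ht => ?_⟩
    obtain ⟨I, hI, h1, h2, h3⟩ := h t ht
    exact ⟨I.card, h1, h2, I, hI, rfl, h3⟩
  · obtain ⟨δ, c, hδ, hc, t₀, h⟩ := h ε hε
    refine ⟨δ, c, hδ, hc, t₀, fun t ht => ?_⟩
    obtain ⟨z, h1, h2, I, hI, rfl, h3⟩ := h t ht
    exact ⟨I, hI, h1, h2, h3⟩

theorem G81.mono {μ : Measure ℝ} {s : ℝ} {t z : ℕ} {δ A A' p : ℝ} (hA : A ≤ A') (h : G81 μ s t z δ A p) :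
    G81 μ s t z δ A' p := by
  obtain ⟨I, hI, hz, h⟩ := h
  refine ⟨I, hI, hz, le_trans (measure_mono ?_) h⟩
  rintro η ⟨u, u', a, b, c, y, hy, h'⟩
  exact ⟨u, u', a, b, c, y, hy, hA.trans_lt h'⟩

/-- **the step of exponents for `PSg`** -/
theorem stepP_PSg {μ : Measure ℝ} {s : ℝ} {κ : ℕ → ℝ} (hw : ∀ n, 0 ≤ wd μ s n) (hE : ∀ n, 0 ≤ EE μ s n)
    (hκ : ∀ t : ℕ, κ t = (wd μ s t / t) ^ (1 / 2 : ℝ)) (hA : AStepQ (G81 μ s) (wd μ s) (EE μ s) κ)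
    (hEW : EWP (wd μ s) (EE μ s) (PSg μ s)) {c : ℝ} (hc : 0 < c)
    (hNP : ∀ᶠ n : ℕ in atTop, (n : ℝ) ^ (1 + c) ≤ wd μ s n * EE μ s n ^ 2) :
    StepP (wd μ s) (PSg μ s) := by
  rw [psg_eq] at hEW ⊢
  exact stepQ_of hw hE (fun t z δ A A' p h h' => h'.mono h) hκ hA hEW hc hNP

end Pool.Agent.W_7d29a1_HZ.Step81
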