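import Pool.Agent.W_7d29a1_HZ.StpK
import Pool.Agent.W_7d29a1_HZ.Eb
import Pool.Agent.W_7d29a1_HZ.Z10_NPLink

/-!
STORM Z at one tilt, Stp: the step of the response exponent from the statement `OkayAll`. (helper81)
-/

set_option autoImplicit false

namespace Pool.Agent.W_7d29a1_HZ.StpK

open MeasureTheory ProbabilityTheory Filter Topology Finset
open Pool.Agent.W_7d29a1_F Pool.Agent.W_7d29a1_X Pool.Agent.W_7d29a1_h4g Pool.Agent.W_7d29a1_H
open Pool.Agent.W_7d29a1_HS (In wd)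
open Pool.Agent.W_7d29a1_Z10 (StepP EWP)

variable {μ : Measure ℝ} {s : ℝ} [IsProbabilityMeasure μ] {c C : ℝ} {n₀ : ℕ}

/-- **The step of the response exponent.** -/
theorem stepP_of (h : In μ s c C n₀) (hO : OkayAll μ s) : StepP (wd μ s) (PSg μ s) := by
  obtain ⟨c', hc', hNP⟩ := Pool.Agent.W_7d29a1_HZ.Z10.strictNP h
  exact Step81.stepP_PSg (Pool.Agent.W_7d29a1_HZ.Z10.wd_nn h) (fun n => Pool.Agent.W_7d29a1_HZ.Z10.EE_nn n)
    (fun _ => rfl) (aStep_of h hO) (ewp h) hc' hNP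

end Pool.Agent.W_7d29a1_HZ.StpK
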