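import Pool.Agent.W_7d29a1_HZ.Z22_FineZ
import Pool.Agent.W_7d29a1_HZ.Step81b
import Pool.Agent.W_7d29a1_HZ.PB
import Pool.Agent.W_7d29a1_HS.Scale
import Pool.Agent.W_7d29a1_Z.StpN

/-!
STORM Z at one tilt, Stp, assembly: the analytic step from the statement `OkayAll` (all the kernels of the scale `R` are okay). (helper81)
-/

set_option autoImplicit false

namespace Pool.Agent.W_7d29a1_HZ.StpK

open MeasureTheory ProbabilityTheory Filter Topology Finset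
open Pool.Agent.W_7d29a1_F Pool.Agent.W_7d29a1_X Pool.Agent.W_7d29a1_h4g Pool.Agent.W_7d29a1_H
open Pool.Agent.W_7d29a1_HS (In wd)
open Pool.Agent.W_7d29a1_HZ.Z22

/-- The kernels of the scale `R`, the cone of half width `w`. -/
def InK (μ : Measure ℝ) (s : ℝ) (R : ℕ) (w : ℝ) (e : Ker) : Prop :=
  4 * e.1 ≤ R ∧ 3 * R ≤ 4 * e.2.1 ∧ e.2.1 ≤ R ∧ 0 ≤ e.2.2 ∧ e.2.2 ≤ (eN e : ℤ) ∧
    |(e.2.2 : ℝ) - sl μ s * ((e.2.1 : ℝ) - e.1)| ≤ w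

/-- The room between the slope and the ends of `[0, 1]`. -/
noncomputable def m0 (μ : Measure ℝ) (s : ℝ) : ℝ := min (sl μ s) (1 - sl μ s)

/-- **Outside an event of probability `exp (- R ^ c')` all the kernels of the scale `R` are okay**: `B` zones of length `t ≥ R ^ b`, the
pattern `I` in each zone, rate `q` of the ties. -/
def OkayQ (μ : Measure ℝ) (s : ℝ) (q : ℕ → ℝ) : Prop :=
  ∀ b ε δ c₀ : ℝ, 0 < b → b < 1 → 0 < ε → 0 < δ → 0 < c₀ → ∃ δ' c' : ℝ, 0 < δ' ∧ 0 < c' ∧ ∀ᶠ R : ℕ in atTop,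
    ∀ t B : ℕ, ∀ A : ℝ, (R : ℝ) ^ b ≤ t → 1 ≤ B → R / 4 + 2 * t * B ≤ 3 * R / 4 → 1 ≤ A → ∀ I : Finset ℕ, I ⊆ Core t →
    (R : ℝ) ^ ε * I.card ≤ A * (q t * wd' μ s t) → (R : ℝ) ^ ε * I.card ≤ wd' μ s t →
    Rsp μ s t I 1 ((t : ℝ) ^ δ * wd μ s t) A (Real.exp (-(t : ℝ) ^ c₀)) →
    ∃ cw : ℝ, cw + (I.card : ℝ) ≤ min (sl μ s) (1 - sl μ s) * t ∧ ∃ N : Set Env, MeasurableSet N ∧ (law μ).real N ≤ Real.exp (-(R : ℝ) ^ c') ∧
      ∀ w, w ∉ N → ∀ e : Ker, InK μ s R ((R : ℝ) ^ δ' * wd μ s R) e →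
        Okay μ s t (R / 4) I B cw A (Real.exp (-(R : ℝ) ^ c'))
          ((R : ℝ) ^ ε * (Real.sqrt B + B * (A * q t)) * A) ((R : ℝ) ^ ε * EE μ s R) e w

/-- The lattice version. -/
def OkayAll (μ : Measure ℝ) (s : ℝ) : Prop :=
  ∀ b ε δ c₀ : ℝ, 0 < b → b < 1 → 0 < ε → 0 < δ → 0 < c₀ → ∃ δ' c' : ℝ, 0 < δ' ∧ 0 < c' ∧ ∀ᶠ R : ℕ in atTop,
    ∀ t B : ℕ, ∀ A : ℝ, (R : ℝ) ^ b ≤ t → 1 ≤ B → R / 4 + 2 * t * B ≤ 3 * R / 4 → 1 ≤ A → ∀ I : Finset ℕ, I ⊆ Core t →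
    (R : ℝ) ^ ε * I.card ≤ A * (Real.sqrt (wd' μ s t / t) * wd' μ s t) → (R : ℝ) ^ ε * I.card ≤ wd' μ s t →
    Rsp μ s t I 1 ((t : ℝ) ^ δ * wd μ s t) A (Real.exp (-(t : ℝ) ^ c₀)) →
    ∃ cw : ℝ, cw + (I.card : ℝ) ≤ min (sl μ s) (1 - sl μ s) * t ∧ ∃ N : Set Env, MeasurableSet N ∧ (law μ).real N ≤ Real.exp (-(R : ℝ) ^ c') ∧
      ∀ w, w ∉ N → ∀ e : Ker, InK μ s R ((R : ℝ) ^ δ' * wd μ s R) e →
        Okay μ s t (R / 4) I B cw A (Real.exp (-(R : ℝ) ^ c'))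
          ((R : ℝ) ^ ε * (Real.sqrt B + B * (A * Real.sqrt (wd' μ s t / t))) * A) ((R : ℝ) ^ ε * EE μ s R) e w

theorem okayAll_iff (μ : Measure ℝ) (s : ℝ) : OkayAll μ s ↔ OkayQ μ s fun t => Real.sqrt (wd' μ s t / t) := Iff.rfl

theorem lt_of_core {t i : ℕ} {I : Finset ℕ} (hI : I ⊆ Core t) (hi : i ∈ I) : t / 4 ≤ i ∧ i < 3 * t / 4 ∧ i < t := by
  have := mem_Ico.1 (hI hi)
  omega

/-- The finite set of the kernels. -/
noncomputable def KF (μ : Measure ℝ) (s : ℝ) (R : ℕ) (w : ℝ) : Finset Ker := by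
  classical
  exact ((range (R + 1)) ×ˢ (range (R + 1)) ×ˢ (Finset.Icc (0 : ℤ) R)).filter (InK μ s R w)

theorem mem_KF {μ : Measure ℝ} {s : ℝ} {R : ℕ} {w : ℝ} {e : Ker} : e ∈ KF μ s R w ↔ InK μ s R w e := by
  classical
  unfold KF
  rw [mem_filter]
  refine ⟨fun h => h.2, fun h => ⟨?_, h⟩⟩
  obtain ⟨h1, h2, h3, h4, h5, _⟩ := h
  unfold eN at h5
  rw [mem_product, mem_product, mem_range, mem_range, Finset.mem_Icc]
  refine ⟨by omega, by omega, h4, by omega⟩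

theorem card_KF (μ : Measure ℝ) (s : ℝ) (R : ℕ) (w : ℝ) : ((KF μ s R w).card : ℝ) ≤ ((R : ℝ) + 1) ^ 3 := by
  classical
  have h1 : (KF μ s R w).card ≤ (R + 1) * ((R + 1) * (R + 1)) := by
    unfold KF
    refine (card_filter_le _ _).trans (le_of_eq ?_)
    rw [card_product, card_product, card_range, Int.card_Icc]
    congr 2
  have h2 : ((KF μ s R w).card : ℝ) ≤ (((R + 1) * ((R + 1) * (R + 1)) : ℕ) : ℝ) := by exact_mod_cast h1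
  push_cast at h2
  linarith [h2]

theorem InK.mono {μ : Measure ℝ} {s : ℝ} {R : ℕ} {w w' : ℝ} (h : w ≤ w') {e : Ker} (he : InK μ s R w e) : InK μ s R w' e := by
  obtain ⟨h1, h2, h3, h4, h5, h6⟩ := he
  exact ⟨h1, h2, h3, h4, h5, h6.trans h⟩

/-- The kernel with the end shifted by `m`. -/
theorem InK.shift {μ : Measure ℝ} {s : ℝ} {R m : ℕ} {w w' : ℝ} {e : Ker} (he : InK μ s R w e) (h : w + m ≤ w')
    (h' : w' ≤ m0 μ s / 2 * R) : InK μ s R w' (e.1, e.2.1, e.2.2 + m) := by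
  obtain ⟨h1, h2, h3, h4, h5, h6⟩ := he
  have h7 : (R : ℝ) / 2 ≤ (e.2.1 : ℝ) - e.1 := by
    have h8 : (4 : ℝ) * e.1 ≤ R := by exact_mod_cast h1
    have h9 : (3 : ℝ) * R ≤ 4 * e.2.1 := by exact_mod_cast h2
    linarith
  have h10 : e.1 ≤ e.2.1 := by omega
  have hN : ((eN e : ℕ) : ℝ) = (e.2.1 : ℝ) - e.1 := by
    unfold eN
    rw [Nat.cast_sub h10]
  have hm : (0 : ℝ) ≤ m := Nat.cast_nonneg m
  have hw : 0 ≤ w := (abs_nonneg _).trans h6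
  have hR0 : (0 : ℝ) ≤ R := Nat.cast_nonneg R
  have hm0 : 0 ≤ m0 μ s ∨ (R : ℝ) = 0 := by
    by_contra hcon
    push Not at hcon
    have h11 : 0 < (R : ℝ) := lt_of_le_of_ne hR0 (Ne.symm hcon.2)
    have h12 := mul_neg_of_neg_of_pos hcon.1 h11
    linarith
  have h13 : w' ≤ (1 - sl μ s) * ((e.2.1 : ℝ) - e.1) := by
    have h14 : m0 μ s ≤ 1 - sl μ s := min_le_right _ _
    rcases hm0 with h15 | h15
    · calc w' ≤ m0 μ s / 2 * R := h'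
        _ = m0 μ s * (R / 2) := by ring
        _ ≤ m0 μ s * ((e.2.1 : ℝ) - e.1) := mul_le_mul_of_nonneg_left h7 h15
        _ ≤ (1 - sl μ s) * ((e.2.1 : ℝ) - e.1) := mul_le_mul_of_nonneg_right h14 (by linarith)
    · have h16 : R = 0 := by exact_mod_cast h15
      have h17 : e.2.1 = 0 := by omega
      have h18 : e.1 = 0 := by omega
      rw [h17, h18]
      rw [h15] at h'
      simpa using h'
  rw [abs_le] at h6
  refine ⟨h1, h2, h3, ?_, ?_, ?_⟩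
  · show (0 : ℤ) ≤ e.2.2 + m
    omega
  · show e.2.2 + (m : ℤ) ≤ (eN e : ℤ)
    have h11 : ((e.2.2 + (m : ℤ) : ℤ) : ℝ) ≤ ((eN e : ℤ) : ℝ) := by
      push_cast
      rw [hN]
      linarith [h6.2]
    exact_mod_cast h11
  · show |((e.2.2 + (m : ℤ) : ℤ) : ℝ) - sl μ s * ((e.2.1 : ℝ) - e.1)| ≤ w'
    push_cast
    rw [abs_le]
    constructor <;> linarith [h6.1, h6.2]

variable {μ : Measure ℝ} {s : ℝ} [IsProbabilityMeasure μ] {c C : ℝ} {n₀ : ℕ}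

/-- The response event is contained in the event of the kernels of `KF`. -/
theorem rsp_of_real {R : ℕ} {J : Finset ℕ} {w A A' p : ℝ} (hm : 0 ≤ m0 μ s) (hw : w ≤ m0 μ s / 2 * R) (hA : A ≤ A')
    (h : (law μ).real {η | ∃ e ∈ KF μ s R w, A < |fk μ s (pat R 0 J fun _ => 1) η e.1 e.2.1 0 e.2.2 - fk μ s 0 η e.1 e.2.1 0 e.2.2|} ≤ p) :
    Rsp μ s R J 1 w A' p := by
  unfold Rsp
  have h1 : {η | ∃ u u' : ℕ, 4 * u ≤ R ∧ 3 * R ≤ 4 * u' ∧ u' ≤ R ∧ ∃ y : ℤ, |(y : ℝ) - sl μ s * ((u' : ℝ) - u)| ≤ w ∧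
      A' < |fk μ s (pat R 0 J fun _ => 1) η u u' 0 y - fk μ s 0 η u u' 0 y|} ⊆
      {η | ∃ e ∈ KF μ s R w, A < |fk μ s (pat R 0 J fun _ => 1) η e.1 e.2.1 0 e.2.2 - fk μ s 0 η e.1 e.2.1 0 e.2.2|} := by
    rintro η ⟨u, u', h1, h2, h3, y, h4, h5⟩
    have h7 : (R : ℝ) / 2 ≤ (u' : ℝ) - u := by
      have h8 : (4 : ℝ) * u ≤ R := by exact_mod_cast h1
      have h9 : (3 : ℝ) * R ≤ 4 * u' := by exact_mod_cast h2
      linarith
    have hR0 : (0 : ℝ) ≤ R := Nat.cast_nonneg R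
    have hw2 : w ≤ m0 μ s * ((u' : ℝ) - u) := by
      calc w ≤ m0 μ s / 2 * R := hw
        _ = m0 μ s * (R / 2) := by ring
        _ ≤ m0 μ s * ((u' : ℝ) - u) := mul_le_mul_of_nonneg_left h7 hm
    have hwa : w ≤ sl μ s * ((u' : ℝ) - u) := hw2.trans (mul_le_mul_of_nonneg_right (min_le_left _ _) (by linarith))
    have hwb : w ≤ (1 - sl μ s) * ((u' : ℝ) - u) := hw2.trans (mul_le_mul_of_nonneg_right (min_le_right _ _) (by linarith))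
    refine ⟨(u, u', y), mem_KF.2 ⟨h1, h2, h3, ?_, ?_, h4⟩, hA.trans_lt h5⟩
    · show (0 : ℤ) ≤ y
      rw [abs_le] at h4
      have h8 : (0 : ℝ) ≤ (y : ℝ) := by linarith [h4.1]
      exact_mod_cast h8
    · show y ≤ ((u' - u : ℕ) : ℤ)
      have h10 : u ≤ u' := by omega
      rw [abs_le] at h4
      have h8 : ((y : ℤ) : ℝ) ≤ (((u' - u : ℕ) : ℤ) : ℝ) := by
        push_cast
        rw [Nat.cast_sub h10]
        linarith [h4.2]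
      exact_mod_cast h8
  refine (measure_mono h1).trans ?_
  rw [← ENNReal.ofReal_toReal (measure_ne_top (law μ) _)]
  exact ENNReal.ofReal_le_ofReal h

/-- The probability of the failure. -/
theorem prob_num {c₁ ε₁ : ℝ} (hc : 0 < c₁) (hε : 0 < ε₁) : ∀ᶠ R : ℕ in atTop,
    6 * Real.exp (-(R : ℝ) ^ c₁) + 8 * (((R : ℝ) + 1) ^ 3 * Real.exp (-((R : ℝ) ^ (2 * ε₁) / 8))) ≤
      Real.exp (-(R : ℝ) ^ (min (c₁ / 2) ε₁)) := by
  filter_upwards [absorb 12 0 (b := 1) one_pos hc, absorb 128 3 (b := 1 / 8) (g := 2 * ε₁) (by norm_num) (by positivity),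
    eventually_ge_atTop 1] with R h1 h2 h3
  have hR : (1 : ℝ) ≤ R := by exact_mod_cast h3
  have e1 : Real.exp (-(R : ℝ) ^ (c₁ / 2)) ≤ Real.exp (-(R : ℝ) ^ (min (c₁ / 2) ε₁)) :=
    Real.exp_le_exp.2 (neg_le_neg (Real.rpow_le_rpow_of_exponent_le hR (min_le_left _ _)))
  have e2 : Real.exp (-(R : ℝ) ^ (2 * ε₁ / 2)) ≤ Real.exp (-(R : ℝ) ^ (min (c₁ / 2) ε₁)) :=
    Real.exp_le_exp.2 (neg_le_neg (Real.rpow_le_rpow_of_exponent_le hR (by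
      rw [mul_div_cancel_left₀ _ (by norm_num : (2 : ℝ) ≠ 0)]
      exact min_le_right _ _)))
  rw [Real.rpow_zero, mul_one, one_mul] at h1
  have e3 : ((R : ℝ) + 1) ^ 3 ≤ 8 * (R : ℝ) ^ (3 : ℝ) := by
    have e4 : ((R : ℝ) + 1) ^ 3 ≤ (2 * R) ^ 3 := pow_le_pow_left₀ (by positivity) (by linarith) 3
    have e5 : (R : ℝ) ^ (3 : ℝ) = (R : ℝ) ^ (3 : ℕ) := by
      rw [← Real.rpow_natCast]
      norm_num
    rw [e5]
    calc ((R : ℝ) + 1) ^ 3 ≤ (2 * R) ^ 3 := e4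
      _ = 8 * (R : ℝ) ^ 3 := by ring
  have e6 : Real.exp (-(1 / 8 * (R : ℝ) ^ (2 * ε₁))) = Real.exp (-((R : ℝ) ^ (2 * ε₁) / 8)) := by
    congr 1
    ring
  rw [e6] at h2
  have e7 : 8 * (((R : ℝ) + 1) ^ 3 * Real.exp (-((R : ℝ) ^ (2 * ε₁) / 8))) ≤
      1 / 2 * (128 * (R : ℝ) ^ (3 : ℝ) * Real.exp (-((R : ℝ) ^ (2 * ε₁) / 8))) := by
    have := mul_le_mul_of_nonneg_right e3 (Real.exp_pos (-((R : ℝ) ^ (2 * ε₁) / 8))).le
    linarith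
  linarith

/-- The numbers of the scale `R`. -/
theorem ev_num {b ε δ₁ a K W₁ c₁ m : ℝ} (hm : 0 < m) (hb0 : 0 < b) (hε : 0 < ε) (hδ₁ : 0 < δ₁) (ha : 0 < a) (hc₁ : 0 < c₁) (n₁ : ℕ) :
    ∀ᶠ R : ℕ in atTop, 1 ≤ R ∧ n₁ ≤ R ∧ (n₁ : ℝ) ≤ (R : ℝ) ^ b ∧ 24 ≤ (R : ℝ) ^ ε ∧ 39 * (R : ℝ) ^ (ε / 2) ≤ (R : ℝ) ^ ε ∧
      (R : ℝ) ^ (min (δ₁ / 2) (a / 4)) + 1 ≤ (R : ℝ) ^ (min δ₁ (a / 2)) ∧
      (R : ℝ) ^ (min δ₁ (a / 2)) * (K * (R : ℝ) ^ (1 - a) * W₁) ≤ m / 2 * (R : ℝ) ∧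
      3 * (Real.exp (-(R : ℝ) ^ c₁) * ((R : ℝ) * R ^ 2)) ≤ 1 ∧ Real.exp (-(R : ℝ) ^ c₁) ≤ 1 / 4 := by
  have hp : ∀ x : ℝ, 0 < x → Tendsto (fun R : ℕ => (R : ℝ) ^ x) atTop atTop := fun x hx =>
    (tendsto_rpow_atTop hx).comp tendsto_natCast_atTop_atTop
  have hmd : 0 < min δ₁ (a / 2) := lt_min hδ₁ (by positivity)
  filter_upwards [eventually_ge_atTop 1, eventually_ge_atTop n₁, (hp b hb0).eventually_ge_atTop (n₁ : ℝ),
    (hp ε hε).eventually_ge_atTop 24, (hp (ε / 2) (by positivity)).eventually_ge_atTop 39,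
    (hp (min δ₁ (a / 2) / 2) (by positivity)).eventually_ge_atTop 2, (hp (a / 2) (by positivity)).eventually_ge_atTop (2 / m * K * W₁),
    absorb 3 3 (b := 1) one_pos hc₁, (hp c₁ hc₁).eventually_ge_atTop 2] with R h1 h2 h3 h4 h5 h6 h7 h8 h9
  have hR : (1 : ℝ) ≤ R := by exact_mod_cast h1
  have hR0 : (0 : ℝ) < R := by linarith
  refine ⟨h1, h2, h3, h4, ?_, ?_, ?_, ?_, ?_⟩
  · have e : (R : ℝ) ^ ε = (R : ℝ) ^ (ε / 2) * (R : ℝ) ^ (ε / 2) := by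
      rw [← Real.rpow_add hR0]
      congr 1
      ring
    rw [e]
    exact mul_le_mul_of_nonneg_right h5 (Real.rpow_nonneg hR0.le _)
  · have e : (R : ℝ) ^ (min δ₁ (a / 2)) = (R : ℝ) ^ (min δ₁ (a / 2) / 2) * (R : ℝ) ^ (min δ₁ (a / 2) / 2) := by
      rw [← Real.rpow_add hR0]
      congr 1
      ring
    have e2 : min (δ₁ / 2) (a / 4) = min δ₁ (a / 2) / 2 := by
      rw [show a / 4 = a / 2 / 2 by ring, min_div_div_right (by norm_num)]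
    rw [e2, e]
    nlinarith
  · have e1 : (R : ℝ) ^ (min δ₁ (a / 2)) ≤ (R : ℝ) ^ (a / 2) := Real.rpow_le_rpow_of_exponent_le hR (min_le_right _ _)
    have e3 : (R : ℝ) ^ (a / 2) * (R : ℝ) ^ (1 - a) * (R : ℝ) ^ (a / 2) = R := by
      rw [← Real.rpow_add hR0, ← Real.rpow_add hR0, show a / 2 + (1 - a) + a / 2 = 1 by ring, Real.rpow_one]
    have hp1 : 0 < (R : ℝ) ^ (a / 2) := Real.rpow_pos_of_pos hR0 _
    have hp2 : 0 < (R : ℝ) ^ (1 - a) := Real.rpow_pos_of_pos hR0 _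
    have hp3 : 0 < (R : ℝ) ^ (min δ₁ (a / 2)) := Real.rpow_pos_of_pos hR0 _
    by_cases hs : K * W₁ ≤ 0
    · have e4 : K * (R : ℝ) ^ (1 - a) * W₁ = K * W₁ * (R : ℝ) ^ (1 - a) := by ring
      have e5 : K * (R : ℝ) ^ (1 - a) * W₁ ≤ 0 := by
        rw [e4]
        exact mul_nonpos_of_nonpos_of_nonneg hs hp2.le
      have e6 := mul_nonpos_of_nonneg_of_nonpos hp3.le e5
      have : (0 : ℝ) ≤ m / 2 * R := by positivity
      linarith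
    · push Not at hs
      calc (R : ℝ) ^ (min δ₁ (a / 2)) * (K * (R : ℝ) ^ (1 - a) * W₁)
          = m / 2 * ((R : ℝ) ^ (min δ₁ (a / 2)) * (R : ℝ) ^ (1 - a) * (2 / m * K * W₁)) := by field_simp
        _ ≤ m / 2 * ((R : ℝ) ^ (a / 2) * (R : ℝ) ^ (1 - a) * (R : ℝ) ^ (a / 2)) := by
            refine mul_le_mul_of_nonneg_left (mul_le_mul (mul_le_mul_of_nonneg_right e1 hp2.le) h7 ?_ (by positivity))
              (by positivity)
            have e8 : 2 / m * K * W₁ = 2 / m * (K * W₁) := by ring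
            rw [e8]
            positivity
        _ = m / 2 * R := by rw [e3]
  · rw [one_mul] at h8
    have e1 : (R : ℝ) ^ (3 : ℝ) = (R : ℝ) * R ^ 2 := by
      rw [show (3 : ℝ) = ((3 : ℕ) : ℝ) by norm_num, Real.rpow_natCast]
      ring
    rw [e1] at h8
    have e2 : Real.exp (-(R : ℝ) ^ (c₁ / 2)) ≤ 1 := Real.exp_le_one_iff.2 (neg_nonpos.2 (Real.rpow_nonneg hR0.le _))
    calc 3 * (Real.exp (-(R : ℝ) ^ c₁) * ((R : ℝ) * R ^ 2)) = 3 * ((R : ℝ) * R ^ 2) * Real.exp (-(R : ℝ) ^ c₁) := by ring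
      _ ≤ 1 := h8.trans e2
  · have e1 : Real.exp (-(R : ℝ) ^ c₁) ≤ Real.exp (-2) := Real.exp_le_exp.2 (neg_le_neg h9)
    have e2 : Real.exp (-2) ≤ 1 / 4 := by
      rw [Real.exp_neg, inv_eq_one_div, div_le_div_iff₀ (Real.exp_pos 2) (by norm_num)]
      have := Real.quadratic_le_exp_of_nonneg (x := 2) (by norm_num)
      norm_num at this
      linarith
    exact e1.trans e2

/-- **THE ANALYTIC STEP**, uniformly in `t ≥ R ^ b`, rate `q` of the ties. -/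
theorem aStepU (h : In μ s c C n₀) {q : ℕ → ℝ} (hq : ∀ t, 1 ≤ t → 0 ≤ q t) (hO : OkayQ μ s q) :
    ∀ b ε δ c₀ : ℝ, 0 < b → b < 1 → 0 < ε → 0 < δ → 0 < c₀ → ∃ δ' c' : ℝ, 0 < δ' ∧ 0 < c' ∧
    ∀ᶠ R : ℕ in atTop, ∀ t z n : ℕ, ∀ A : ℝ, (R : ℝ) ^ b ≤ t → 1 ≤ n → 1 ≤ A → A ≤ (R : ℝ) ^ 2 →
    (R : ℝ) ^ ε * (n * t) ≤ R → (R : ℝ) ^ ε * (n * z) ≤ wd μ s R →
    (R : ℝ) ^ ε * z ≤ A * (q t * wd μ s t) → (R : ℝ) ^ ε * z ≤ wd μ s t →
    Step81.G81 μ s t z δ A (Real.exp (-(t : ℝ) ^ c₀)) →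
    Step81.G81 μ s R (n * z) δ' ((R : ℝ) ^ ε * (n * t / R * (EE μ s R + ((R / t : ℝ) ^ (1 / 2 : ℝ) * A +
      R / t * q t * A ^ 2)) + (n : ℝ) ^ (1 / 2 : ℝ) * A)) (Real.exp (-(R : ℝ) ^ c')) := by
  intro b ε δ c₀ hb0 hb1 hε hδ hc₀
  obtain ⟨δ₁, c₁, hδ₁, hc₁, hO⟩ := hO b (ε / 2) δ c₀ hb0 hb1 (by positivity) hδ hc₀
  obtain ⟨a, K, ha, ha1, hK, hwp⟩ := wd'_pow h
  obtain ⟨n₁, hn₁⟩ := wd'_eq h
  have hm : 0 < m0 μ s := lt_min h.sl_pos (by linarith [h.sl_lt])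
  refine ⟨min (δ₁ / 2) (a / 4), min (c₁ / 2) (ε / 2), by positivity, by positivity, ?_⟩
  filter_upwards [hO, ev_num (K := K) (W₁ := wd' μ s 1) hm hb0 hε hδ₁ ha hc₁ n₁, prob_num hc₁ (ε₁ := ε / 2) (by positivity)] with
    R hOR hnum hprob
  obtain ⟨hR1, hRn, hRb, hR24, hR39, hRd, hRq, hRe, hRe4⟩ := hnum
  intro t z n A htb hn hA hAR hnt hnz hzk hzw hG
  obtain ⟨I, hI, hIz, hRsp⟩ := hG
  have hR : (1 : ℝ) ≤ R := by exact_mod_cast hR1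
  have hR0 : (0 : ℝ) < R := by linarith
  have hn' : (1 : ℝ) ≤ n := by exact_mod_cast hn
  have htn₁ : n₁ ≤ t := by exact_mod_cast hRb.trans htb
  have ht1' : (1 : ℝ) ≤ t := (Real.one_le_rpow hR hb0.le).trans htb
  have ht1 : 1 ≤ t := by exact_mod_cast ht1'
  have ht0 : (0 : ℝ) < t := by linarith
  have hqt := hq t ht1
  obtain ⟨hwt, -, -⟩ := hn₁ t htn₁
  obtain ⟨hwR, -, -⟩ := hn₁ R hRn
  have hRε : 1 ≤ (R : ℝ) ^ ε := by linarith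
  have hRε2 : (R : ℝ) ^ (ε / 2) ≤ (R : ℝ) ^ ε := Real.rpow_le_rpow_of_exponent_le hR (by linarith)
  have hRε3 : 1 ≤ (R : ℝ) ^ (ε / 2) := Real.one_le_rpow hR (by positivity)
  -- the number of zones
  have h24 : 24 * (t * n) ≤ R := by
    have h1 : 24 * ((n : ℝ) * t) ≤ R := (mul_le_mul_of_nonneg_right hR24 (by positivity)).trans hnt
    have h2 : ((24 * (t * n) : ℕ) : ℝ) ≤ R := by
      push_cast
      linarith
    exact_mod_cast h2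
  obtain ⟨hl1, hl2, hl3⟩ := Pool.Agent.W_7d29a1_Z.StpN.lz_ge ht1 hn h24
  set l : ℕ := Pool.Agent.W_7d29a1_Z.StpN.lz R t n with hldef
  have hfit : R / 4 + 2 * t * (n * l) ≤ 3 * R / 4 := Pool.Agent.W_7d29a1_Z.StpN.lz_fit
  have hB : 1 ≤ n * l := Nat.mul_pos hn hl1
  have hcard : (I.card : ℝ) = z := by exact_mod_cast hIz
  have hz0 : (0 : ℝ) ≤ z := Nat.cast_nonneg z
  have hk1 : (R : ℝ) ^ (ε / 2) * I.card ≤ A * (q t * wd' μ s t) := by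
    rw [hcard, hwt]
    exact (mul_le_mul_of_nonneg_right hRε2 hz0).trans hzk
  have hk2 : (R : ℝ) ^ (ε / 2) * I.card ≤ wd' μ s t := by
    rw [hcard, hwt]
    exact (mul_le_mul_of_nonneg_right hRε2 hz0).trans hzw
  obtain ⟨cw, hcw, N, hNm, hNp, hN⟩ := hOR t (n * l) A htb hB hfit hA I hI hk1 hk2 hRsp
  -- the cones
  set w₀ : ℝ := (R : ℝ) ^ (min (δ₁ / 2) (a / 4)) * wd μ s R with hw₀
  set w₁ : ℝ := (R : ℝ) ^ (min δ₁ (a / 2)) * wd μ s R with hw₁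
  have hwRn : 0 ≤ wd μ s R := by
    rw [← hwR]
    exact zero_le_one.trans (le_max_left _ _)
  have hw14 : w₁ ≤ m0 μ s / 2 * R := by
    refine le_trans ?_ hRq
    refine mul_le_mul_of_nonneg_left ?_ (Real.rpow_nonneg hR0.le _)
    have h1 := (hwp 1 R le_rfl hR1).2.2
    rw [Nat.cast_one, div_one, hwR] at h1
    exact h1
  have hnzR : (n : ℝ) * z ≤ wd μ s R := by
    have h1 : 1 * ((n : ℝ) * z) ≤ (R : ℝ) ^ ε * (n * z) := mul_le_mul_of_nonneg_right hRε (by positivity)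
    linarith
  have hw01 : w₀ + ((n * I.card : ℕ) : ℝ) ≤ w₁ := by
    push_cast
    rw [hcard]
    have h1 : ((R : ℝ) ^ (min (δ₁ / 2) (a / 4)) + 1) * wd μ s R ≤ w₁ := mul_le_mul_of_nonneg_right hRd hwRn
    have e : ((R : ℝ) ^ (min (δ₁ / 2) (a / 4)) + 1) * wd μ s R = w₀ + wd μ s R := by rw [hw₀]; ring
    linarith
  have hn0' : (0 : ℝ) ≤ ((n * I.card : ℕ) : ℝ) := Nat.cast_nonneg _
  have hw1δ : w₁ ≤ (R : ℝ) ^ δ₁ * wd μ s R :=
    mul_le_mul_of_nonneg_right (Real.rpow_le_rpow_of_exponent_le hR (min_le_left _ _)) hwRn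
  -- the numbers
  set lam : ℝ := (R : ℝ) ^ (ε / 2) * (Real.sqrt ((n * l : ℕ) : ℝ) + ((n * l : ℕ) : ℝ) * (A * q t)) * A with hlam
  set U : ℝ := (R : ℝ) ^ (ε / 2) * EE μ s R with hU
  set η : ℝ := Real.exp (-(R : ℝ) ^ c₁) with hη
  set sa : ℝ := (R : ℝ) ^ (ε / 2) * (Real.sqrt n * A) with hs
  have hA0 : (0 : ℝ) < A := by linarith
  have hlam0 : 0 ≤ lam := by positivity
  have hs0 : 0 ≤ sa := by positivity
  obtain ⟨β, hβ⟩ := stp_core (μ := μ) (s := s) (R := R) (t := t) (τ := R / 4) (n := n) (l := l) (I := I)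
    (fun i hi => mem_range.2 (lt_of_core hI hi).2.2) ht1 le_rfl hfit hn hl1 hcw hA0 (Real.exp_pos _).le hRe4 hlam0 hs0
    (KF μ s R w₁) (KF μ s R w₀) (fun e he => mem_KF.2 ((mem_KF.1 he).mono (by linarith)))
    (fun e he => by
      have h1 := (mem_KF.1 he).shift (m := n * I.card) hw01 hw14
      rw [mem_KF]
      have e1 : e.2.2 + (n : ℤ) * (I.card : ℤ) = e.2.2 + ((n * I.card : ℕ) : ℤ) := by push_cast; ring
      rw [e1]
      exact h1)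
    (fun e he => by
      obtain ⟨h1, h2, h3, h4, h5, _⟩ := mem_KF.1 he
      refine ⟨by omega, by omega, h3, h4, h5⟩) N hNm
    (fun w hw e he => hN w hw e ((mem_KF.1 he).mono hw1δ))
  refine ⟨bigI R t (R / 4) I (cho 1 β), bigI_sub _ _ _ _ _, ?_, ?_⟩
  · rw [card_bigI (fun i hi => mem_range.2 (lt_of_core hI hi).2.2) β le_rfl hfit, hIz]
  · refine rsp_of_real hm.le (by linarith) ?_ (hβ.trans ?_)
    · refine Pool.Agent.W_7d29a1_Z.StpN.fin_num (K := 1) (x := (R : ℝ) ^ (ε / 2)) ht1 hn hl1 hA hqt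
        (zero_le_one.trans (one_le_EE (μ := μ) (s := s) R)) le_rfl hRε3 hl2 hl3 ?_ ?_ ?_ ?_
      · rw [hU]
        linarith
      · rw [hlam]
        push_cast
        exact le_rfl
      · refine le_trans ?_ hRe
        have h1 : (n : ℝ) * l ≤ R := by
          have : (n : ℝ) * l * 1 ≤ n * l * t := mul_le_mul_of_nonneg_left ht1' (by positivity)
          linarith
        have h3 : (n : ℝ) * l * A ≤ R * R ^ 2 := mul_le_mul h1 hAR hA0.le hR0.le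
        exact mul_le_mul_of_nonneg_left (mul_le_mul_of_nonneg_left h3 (Real.exp_pos _).le) (by norm_num)
      · linarith
    · refine le_trans ?_ hprob
      have h1 : sa ^ 2 / (8 * A ^ 2 * n) = (R : ℝ) ^ (2 * (ε / 2)) / 8 := by
        have e1 : (R : ℝ) ^ (2 * (ε / 2)) = ((R : ℝ) ^ (ε / 2)) ^ 2 := by
          rw [← Real.rpow_natCast ((R : ℝ) ^ (ε / 2)) 2, ← Real.rpow_mul hR0.le]
          congr 1
          push_cast
          ring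
        have e2 : Real.sqrt n ^ 2 = n := Real.sq_sqrt (by linarith)
        have e3 : sa ^ 2 = ((R : ℝ) ^ (ε / 2)) ^ 2 * n * A ^ 2 := by
          rw [hs, mul_pow, mul_pow, e2]
          ring
        rw [e1, e3]
        have : (n : ℝ) ≠ 0 := by linarith
        field_simp
      rw [h1]
      have h2 := card_KF μ s R w₁
      have h3 := mul_le_mul_of_nonneg_right h2 (Real.exp_pos (-((R : ℝ) ^ (2 * (ε / 2)) / 8))).le
      linarith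

/-- **THE ANALYTIC STEP** in the form of `StepQ`, lattice rate. -/
theorem aStep_of (h : In μ s c C n₀) (hO : OkayAll μ s) :
    _root_.W_7d29a1_Z.Step81.AStepQ (Step81.G81 μ s) (wd μ s) (EE μ s) (fun t => (wd μ s t / t) ^ (1 / 2 : ℝ)) := by
  intro b ε δ c₀ hb0 hb1 hε hδ hc₀
  obtain ⟨δ', c', hδ', hc', hU⟩ := aStepU h (q := fun t => Real.sqrt (wd' μ s t / t)) (fun t _ => Real.sqrt_nonneg _)
    hO b ε δ c₀ hb0 hb1 hε hδ hc₀
  obtain ⟨n₁, hn₁⟩ := wd'_eq h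
  refine ⟨δ', c', hδ', hc', ?_⟩
  have hp : Tendsto (fun R : ℕ => (R : ℝ) ^ b) atTop atTop := (tendsto_rpow_atTop hb0).comp tendsto_natCast_atTop_atTop
  filter_upwards [hU, eventually_ge_atTop 1, hp.eventually_ge_atTop (n₁ : ℝ)] with R hUR hR1 hRb
  intro t z n A htb _ _ hn hA hAt hnt hnz _ _ hzk hzw hG
  have hR : (1 : ℝ) ≤ R := by exact_mod_cast hR1
  have htn₁ : n₁ ≤ t := by exact_mod_cast hRb.trans htb
  obtain ⟨hwt, -, -⟩ := hn₁ t htn₁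
  have hκ : Real.sqrt (wd' μ s t / t) = (wd μ s t / t) ^ (1 / 2 : ℝ) := by rw [hwt, Real.sqrt_eq_rpow]
  have hAR : A ≤ (R : ℝ) ^ 2 := by
    have h1 : (1 : ℝ) * t ≤ n * t := mul_le_mul_of_nonneg_right (by exact_mod_cast hn) (Nat.cast_nonneg t)
    have h2 : 1 * ((n : ℝ) * t) ≤ (R : ℝ) ^ ε * (n * t) :=
      mul_le_mul_of_nonneg_right (Real.one_le_rpow hR hε.le) (by positivity)
    nlinarith
  have := hUR t z n A htb hn hA hAR hnt hnz (by rw [hκ]; exact hzk) hzw hG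
  rw [hκ] at this
  exact this

end Pool.Agent.W_7d29a1_HZ.StpK
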