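import Pool.Agent.W_7d29a1_HZ.Z22_FineZ
import Pool.Agent.W_7d29a1_HZ.RA
import Pool.Agent.W_7d29a1_HZ.PB

/-!
STORM Z AT ONE TILT, STP: the state `Okay` of a kernel of the scale `R` from the four events of the environment. (helper22)
-/

set_option autoImplicit false

namespace Pool.Agent.W_7d29a1_HZ.Z22

open MeasureTheory Finset
open Pool.Agent.W_7d29a1_H (sl)
open Pool.Agent.W_7d29a1_F Pool.Agent.W_7d29a1_X Pool.Agent.W_7d29a1_HZ

noncomputable section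

variable {μ : Measure ℝ} {s : ℝ}

theorem pos_bounds (S : Finset ℕ) (k : ℕ) : 0 ≤ pos S k ∧ pos S k ≤ k := by
  unfold pos
  refine ⟨Nat.cast_nonneg _, ?_⟩
  have h := card_le_card (inter_subset_right (s₁ := S) (s₂ := range k))
  rw [card_range] at h
  exact_mod_cast h

/-- The two top bounds of the kernel. -/
theorem top_of {R t τ B : ℕ} {I : Finset ℕ} {δ ε M : ℝ} {e : Ker} {w : Env} {a : ℤ} (hI : I ⊆ range t) (hu : e.1 ≤ τ)
    (hu' : τ + 2 * t * B ≤ e.2.1) (huR : e.2.1 ≤ R) (h0 : 0 ≤ e.2.2) (h1 : e.2.2 ≤ eN e) (ha0 : 0 ≤ e.2.2 + B * I.card * a)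
    (ha1 : e.2.2 + B * I.card * a ≤ eN e) (hc : |(e.2.2 : ℝ) - sl μ s * eN e| ≤ (R : ℝ) ^ δ * wd' μ s (eN e))
    (hM : EE' μ s (eN e) ≤ M) (h4 : PBox μ s R δ ε w) (h5 : PBox μ s R δ ε (shr 0 (pat t τ I (full a B)) w)) :
    fk μ s (pat t (τ - e.1) I (full a B)) (sE e w) 0 (eN e) 0 e.2.2 - fk μ s 0 (sE e w) 0 (eN e) 0 e.2.2 ≤ 2 * ((R : ℝ) ^ ε * M) := by
  have hue : e.1 ≤ e.2.1 := by omega
  have hza : τ + 2 * t * B ≤ e.2.1 := hu'
  have e1 : fk μ s (pat t (τ - e.1) I (full a B)) (sE e w) 0 (eN e) 0 e.2.2 =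
      Real.log (W μ s (shr 0 (pat t τ I (full a B)) w) ((e.1 : ℤ), 0) (eN e) (e.2.2 + B * I.card * a)) := by
    have h6 := fk_sys (μ := μ) (s := s) t τ I (full a B) w hu hue e.2.2
    have h7 := fk_cross (μ := μ) (s := s) (v := pat t τ I (full a B)) w hue (fun k hk => Pool.Agent.W_7d29a1_HZ.A12.pat_before t τ I _ (by omega)) e.2.2
    have h8 : sv (pat t τ I (full a B)) 0 e.2.1 = B * I.card * a := by
      rw [sv_pat_total t τ hI (fun b hb => full_ge a hb) hza]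
      rw [sum_congr rfl fun b hb => full_lt a (mem_range.1 hb), sum_const, card_range, nsmul_eq_mul]
      ring
    rw [h8, Pool.Agent.W_7d29a1_HZ.A12.fk_zero, sub_zero] at h7
    exact h6.symm.trans h7
  have e2 : fk μ s 0 (sE e w) 0 (eN e) 0 e.2.2 = Real.log (W μ s w ((e.1 : ℤ), 0) (eN e) e.2.2) := by
    have h6 := fk_sys_zero (μ := μ) (s := s) w hue e.2.2
    rw [Pool.Agent.W_7d29a1_HZ.A12.fk_zero, sub_zero] at h6
    exact h6.symm
  have hin : e.1 + eN e ≤ R := by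
    unfold eN
    omega
  have g1 := (h5 e.1 (eN e) hin 0 (by rw [abs_zero]; positivity) _ ha0 ha1).1
  have g2 := (h4 e.1 (eN e) hin 0 (by rw [abs_zero]; positivity) _ h0 h1).2.2 hc
  have g3 := Real.log_le_log (W_pos (μ := μ) (s := s) _ _ ha0 ha1) g1
  have g4 := Real.log_le_log (Real.exp_pos _) g2
  rw [Real.log_exp] at g3 g4
  have g5 : (R : ℝ) ^ ε * EE' μ s (eN e) ≤ (R : ℝ) ^ ε * M := mul_le_mul_of_nonneg_left hM (by positivity)
  rw [e1, e2]
  linarith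

/-- **The state `Okay`** from the four events. -/
theorem okay_of {R t τ B : ℕ} {I : Finset ℕ} {δ ε M cw A η lam : ℝ} {e : Ker} {w : Env} (hI : I ⊆ range t) (hu : e.1 ≤ τ)
    (hu' : τ + 2 * t * B ≤ e.2.1) (huR : e.2.1 ≤ R)
    (h0 : B * I.card ≤ e.2.2) (h1 : e.2.2 + B * I.card ≤ eN e)
    (hc : |(e.2.2 : ℝ) - sl μ s * eN e| ≤ (R : ℝ) ^ δ * wd' μ s (eN e)) (hM : EE' μ s (eN e) ≤ M)
    (hN1 : ∑ S ∈ (range (eN e)).powerset, (if ∃ b < B, cw < |((pos S (zb t (τ - e.1) b) : ℝ) - pos S (za t (τ - e.1) b)) - sl μ s * t|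
      then gp μ s (sE e w) (eN e) e.2.2 S else 0) ≤ η)
    (hN2 : RA μ s R t τ B I cw A 1 w)
    (hN3 : ∑ S ∈ (range (eN e)).powerset, (if lam < |∑ b ∈ range B, Db μ s t (τ - e.1) I 1 (sE e w) b 0 (pos S)|
      then gp μ s (sE e w) (eN e) e.2.2 S else 0) ≤ η)
    (h4 : PBox μ s R δ ε w) (h5 : PBox μ s R δ ε (shr 0 (pat t τ I (full 1 B)) w))
    (h6 : PBox μ s R δ ε (shr 0 (pat t τ I (full (-1) B)) w)) :
    Okay μ s t τ I B cw A η lam (2 * ((R : ℝ) ^ ε * M)) e w := by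
  classical
  have hBc : (0 : ℤ) ≤ B * I.card := by positivity
  refine ⟨?_, ?_, ?_, ?_, ?_⟩
  · refine le_trans ?_ hN1
    rw [← sum_filter]
    refine sum_le_sum_of_subset_of_nonneg (fun S hS => ?_) fun S _ _ => pE_nonneg e w S
    rw [mem_filter, mem_TT, mem_SS] at hS
    rw [mem_filter, mem_powerset]
    refine ⟨hS.1.1, ?_⟩
    by_contra hcon
    push Not at hcon
    exact hS.2 ⟨hS.1, hcon⟩
  · intro S hS b hb
    have hcone := (mem_TT.1 hS).2 b hb
    have e1 : za t τ b - e.1 = za t (τ - e.1) b := by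
      unfold za
      omega
    have e2 : zb t τ b - e.1 = zb t (τ - e.1) b := by
      unfold zb
      omega
    have hzR : za t τ b ≤ R := by
      have h7 : 2 * t * b ≤ 2 * t * B := Nat.mul_le_mul_left _ hb.le
      unfold za
      omega
    obtain ⟨X, hXd⟩ : ∃ X : ℕ → ℤ, ∀ k, X k = pos S (k - e.1) := ⟨_, fun _ => rfl⟩
    have hX : |X (za t τ b)| ≤ 2 * R := by
      obtain ⟨k1, k2⟩ := pos_bounds S (za t τ b - e.1)
      rw [hXd, abs_of_nonneg k1]
      omega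
    have hcn : |((X (zb t τ b) : ℝ) - X (za t τ b)) - sl μ s * t| ≤ cw := by
      rw [hXd, hXd, e1, e2]
      exact hcone
    have k1 := (ra_Db hN2 hb (by norm_num : |(1 : ℤ)| + |(0 : ℤ)| ≤ ((1 : ℕ) : ℤ)) hX hcn).2
    have k2 := (ra_Db hN2 hb (by norm_num : |(-1 : ℤ)| + |(0 : ℤ)| ≤ ((1 : ℕ) : ℤ)) hX hcn).2
    have hXe : (fun k => pos S (k - e.1)) = X := by
      funext k
      exact (hXd k).symm
    have f : ∀ a, fb μ s t (τ - e.1) I (sE e w) b a (pos S) = fb μ s t τ I w b a X := by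
      intro a
      rw [← hXe]
      exact fb_sys t τ I w hu b a (pos S)
    rw [f 1, f 0, f (-1)]
    refine ⟨k1.trans (le_of_eq ?_), k2.trans (le_of_eq ?_)⟩
    · rw [Int.cast_one, abs_one, one_mul]
    · rw [Int.cast_neg, Int.cast_one, abs_neg, abs_one, one_mul]
  · refine le_trans ?_ hN3
    rw [← sum_filter]
    refine sum_le_sum_of_subset_of_nonneg (fun S hS => ?_) fun S _ _ => pE_nonneg e w S
    rw [mem_filter, mem_TT, mem_SS] at hS
    rw [mem_filter, mem_powerset]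
    exact ⟨hS.1.1.1, hS.2⟩
  · exact top_of hI hu hu' huR (by linarith) (by linarith) (by linarith) (by linarith) hc hM h4 h5
  · exact top_of hI hu hu' huR (by linarith) (by linarith) (by linarith) (by linarith) hc hM h4 h6

end

end Pool.Agent.W_7d29a1_HZ.Z22
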