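import Pool.Agent.W_7d29a1_HZ.Z10_ExcD
import Pool.Agent.W_7d29a1_HZ.Z22_OkayZ
import Pool.Agent.W_7d29a1_HZ.StpK
import Pool.Agent.W_7d29a1_HZ.Z10_NPLink
/-!
STORM Z AT ONE TILT, leaf Stp: `OkayQ` from the leaves. (port of the file of helper10)
-/

set_option autoImplicit false

namespace Pool.Agent.W_7d29a1_HZ.Z10

open MeasureTheory ProbabilityTheory Filter Topology Finset
open Pool.Agent.W_7d29a1_F Pool.Agent.W_7d29a1_X Pool.Agent.W_7d29a1_h4g Pool.Agent.W_7d29a1_H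
open Pool.Agent.W_7d29a1_H (sl sl_mem)
open Pool.Agent.W_7d29a1_HS (In wd)
open Pool.Agent.W_7d29a1_HZ Pool.Agent.W_7d29a1_HZ.Z22 Pool.Agent.W_7d29a1_HZ.StpK

noncomputable section

variable {μ : Measure ℝ} {s : ℝ}

theorem okay_mono {t τ B : ℕ} {I : Finset ℕ} {cw A η lam U U' : ℝ} {e : Ker} {w : Env} (h : Okay μ s t τ I B cw A η lam U e w)
    (hU : U ≤ U') : Okay μ s t τ I B cw A η lam U' e w :=
  ⟨h.ns, h.ra, h.inn, h.top.trans hU, h.tom.trans hU⟩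

theorem ite_inst {α : Type*} (P : Prop) (i1 i2 : Decidable P) (x y : α) :
    (@ite α P i1 x y) = @ite α P i2 x y := by
  cases i1 <;> cases i2 <;> first | rfl | contradiction

/-- One system. -/
theorem okay_of_good {R t B : ℕ} {I : Finset ℕ} {δ' δ'' ε cw A lam θ M D : ℝ} {e : Ker} {w : Env} (hI : I ⊆ Core t)
    (hB : R / 4 + 2 * t * B ≤ 3 * R / 4) (hR : 3 ≤ R) (hD0 : 0 < D) (hD : 16 ≤ D * sl μ s) (hD' : 16 ≤ D * (1 - sl μ s))
    (hcone : ∀ N : ℕ, R ≤ 2 * N + 1 → N ≤ R → (R : ℝ) ^ δ' * wd μ s R ≤ (R : ℝ) ^ δ'' * wd' μ s N)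
    (hsz : D * ((R : ℝ) ^ δ' * wd μ s R) ≤ R) (hIc : D * (I.card : ℝ) ≤ t) (hM : ∀ N : ℕ, 1 ≤ N → N ≤ R → EE' μ s N ≤ M)
    (hg : GoodS μ s R t (R / 4) B I (pat t (R / 4) I (full 1 B)) (pat t (R / 4) I (full (-1) B)) δ' δ'' ε cw A lam θ w)
    (he : InK μ s R ((R : ℝ) ^ δ' * wd μ s R) e) :
    Okay μ s t (R / 4) I B cw A θ lam (2 * ((R : ℝ) ^ ε * M)) e w := by
  obtain ⟨k1, k2, k3, k4, k5, k6⟩ := he
  have hN : (eN e : ℕ) = e.2.1 - e.1 := rfl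
  have hle : e.1 ≤ e.2.1 := by omega
  have hNr : ((eN e : ℕ) : ℝ) = (e.2.1 : ℝ) - e.1 := by rw [hN, Nat.cast_sub hle]
  rw [← hNr] at k6
  have hS : Sys μ s R δ' e.1 (eN e) e.2.2 := ⟨k1, by omega, by omega, k4, k5, k6⟩
  obtain ⟨q1, q2, q3, q4⟩ := sys_fact hS le_rfl hB
  have hIt : I ⊆ range t := fun k hk => by
    have := mem_Ico.1 (hI hk)
    exact mem_range.2 (by omega)
  -- the total shift is small
  have hBIr : 3 * (D * ((B : ℝ) * I.card)) ≤ R := by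
    have h1 : D * ((B : ℝ) * I.card) ≤ (t : ℝ) * B := by
      calc D * ((B : ℝ) * I.card) = B * (D * (I.card : ℝ)) := by ring
        _ ≤ B * t := mul_le_mul_of_nonneg_left hIc (Nat.cast_nonneg B)
        _ = _ := by ring
    have h3 : 3 * (t * B) ≤ R := by
      have h4 : 2 * t * B = 2 * (t * B) := by ring
      rw [h4] at hB
      generalize t * B = X at *
      omega
    have h5 : 3 * ((t : ℝ) * B) ≤ R := by exact_mod_cast h3
    linarith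
  have hNR : (R : ℝ) ≤ 2 * (eN e : ℕ) + 1 := by exact_mod_cast q1
  have hR3 : (3 : ℝ) ≤ R := by exact_mod_cast hR
  have k7 := abs_le.1 k6
  have hN3 : (R : ℝ) / 3 ≤ (eN e : ℕ) := by linarith
  have key : ∀ r : ℝ, 16 ≤ D * r → 0 ≤ r → (R : ℝ) ^ δ' * wd μ s R + (B : ℝ) * I.card ≤ r * (eN e : ℕ) := by
    intro r hr hr0
    have h1 : D * ((R : ℝ) ^ δ' * wd μ s R + (B : ℝ) * I.card) ≤ D * (r * (eN e : ℕ)) := by
      have h2 : D * (r * (eN e : ℕ)) = (D * r) * (eN e : ℕ) := by ring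
      have h3 : (16 : ℝ) * ((R : ℝ) / 3) ≤ (D * r) * (eN e : ℕ) := mul_le_mul hr hN3 (by positivity) (by linarith)
      rw [h2, mul_add]
      linarith
    exact le_of_mul_le_mul_left h1 hD0
  have hs0 : 0 ≤ sl μ s := by
    by_contra hcon
    push Not at hcon
    have := mul_neg_of_pos_of_neg hD0 hcon
    linarith
  have hs1 : 0 ≤ 1 - sl μ s := by
    by_contra hcon
    push Not at hcon
    have := mul_neg_of_pos_of_neg hD0 hcon
    linarith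
  have j1 := key _ hD hs0
  have j2 := key _ hD' hs1
  have hlow : ((B : ℝ) * I.card) ≤ (e.2.2 : ℝ) := by linarith [k7.1]
  have hupp : (e.2.2 : ℝ) + (B : ℝ) * I.card ≤ ((eN e : ℕ) : ℝ) := by
    have h1 : (1 - sl μ s) * ((eN e : ℕ) : ℝ) = ((eN e : ℕ) : ℝ) - sl μ s * (eN e : ℕ) := by ring
    rw [h1] at j2
    linarith [k7.2]
  refine okay_of hIt (by omega) ?_ (by omega) ?_ ?_ ?_ (hM _ (by omega) q2) ?_ hg.ra ?_ hg.pb hg.pbp hg.pbm
  · have h1 : 3 * R / 4 ≤ e.2.1 := by omega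
    exact hB.trans h1
  · exact_mod_cast hlow
  · exact_mod_cast hupp
  · exact k6.trans (hcone _ q1 q2)
  · have h1 := hg.ns e.1 (eN e) e.2.2 hS
    unfold Qg at h1
    refine le_trans (le_of_eq (sum_congr rfl fun S _ => ?_)) h1
    exact ite_inst _ _ _ _ _
  · have h1 := hg.inn e.1 (eN e) e.2.2 hS
    unfold Qg at h1
    refine le_trans (le_of_eq (sum_congr rfl fun S _ => ?_)) h1
    exact ite_inst _ _ _ _ _

variable [IsProbabilityMeasure μ] {c C : ℝ} {n₀ : ℕ}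

/-- **`OkayQ` from `ns` and `inn`.** -/
theorem okayQ_of (h : In μ s c C n₀) {q : ℕ → ℝ} (hq0 : ∀ n, 1 ≤ n → 0 ≤ q n) (hns : NsS μ s) (hinn : InnS μ s q) :
    OkayQ μ s q := by
  intro b ε δ c₀ hb _ hε hδ hc₀
  obtain ⟨u0, u1⟩ := sl_mem h.em h.nd s
  obtain ⟨D, hDd⟩ : ∃ D : ℝ, D = 16 / min (sl μ s) (1 - sl μ s) := ⟨_, rfl⟩
  have hm0 : 0 < min (sl μ s) (1 - sl μ s) := lt_min u0 (by linarith)
  have hm1 : min (sl μ s) (1 - sl μ s) ≤ 1 := (min_le_left _ _).trans u1.le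
  have hDm : D * min (sl μ s) (1 - sl μ s) = 16 := by
    rw [hDd]
    exact div_mul_cancel₀ _ hm0.ne'
  have hD0 : 0 < D := by
    rw [hDd]
    positivity
  have hD1 : 1 ≤ D := by nlinarith
  have hDa : 16 ≤ D * sl μ s := by
    rw [← hDm]
    exact mul_le_mul_of_nonneg_left (min_le_left _ _) hD0.le
  have hDb : 16 ≤ D * (1 - sl μ s) := by
    rw [← hDm]
    exact mul_le_mul_of_nonneg_left (min_le_right _ _) hD0.le
  obtain ⟨δ', δ'', ε', c', hδ', hδ'', hε', hc', hev⟩ := exc_prob h hq0 hns hinn (ε₁ := ε / 2) hb hε (by linarith) hδ hc₀ hD1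
  obtain ⟨a, K, ha0, ha1, hK, hep⟩ := EE'_pow h
  obtain ⟨N₁, hN₁⟩ := wd'_eq h
  refine ⟨δ', c', hδ', hc', ?_⟩
  filter_upwards [hev, eventually_ge_atTop N₁, eventually_ge_atTop 3,
    (tend_pow (show 0 < ε / 2 by linarith)).eventually_ge_atTop (2 * K)] with R hR hR1 hR3 hR4
  obtain ⟨hcone, hsz, hmain⟩ := hR
  intro t B A ht1 hB1 hB hA I hI hz1 hz2 hRsp
  have ht2 : t ≤ R := by
    have h1 : 2 * t * B ≤ R := by
      generalize 2 * t * B = X at *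
      omega
    have h2 : t ≤ 2 * t * B := by nlinarith
    exact h2.trans h1
  obtain ⟨s1, s2, s3⟩ := hmain t (R / 4) B I A ht1 ht2 le_rfl hB hI hA hz1 hz2 hRsp
  have hRr : (1 : ℝ) ≤ R := by exact_mod_cast (by omega : 1 ≤ R)
  have hR0 : (0 : ℝ) < R := lt_of_lt_of_le one_pos hRr
  have hcw : (R : ℝ) ^ ε' * wd μ s t + (I.card : ℝ) ≤ min (sl μ s) (1 - sl μ s) * t := by
    have h1 : D * ((R : ℝ) ^ ε' * wd μ s t + (I.card : ℝ)) ≤ D * (min (sl μ s) (1 - sl μ s) * t) := by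
      have h2 : D * (min (sl μ s) (1 - sl μ s) * t) = 16 * (t : ℝ) := by
        rw [← mul_assoc, hDm]
      have h3 : (0 : ℝ) ≤ t := Nat.cast_nonneg t
      rw [h2, mul_add]
      linarith
    exact le_of_mul_le_mul_left h1 hD0
  refine ⟨(R : ℝ) ^ ε' * wd μ s t, hcw, ?_⟩
  set Bd : Set Env := {η | ¬ GoodS μ s R t (R / 4) B I (pat t (R / 4) I (full 1 B)) (pat t (R / 4) I (full (-1) B)) δ' δ'' (ε / 2)
    ((R : ℝ) ^ ε' * wd μ s t) A ((R : ℝ) ^ ε * (Real.sqrt B + B * (A * q t)) * A)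
    (Real.exp (-(R : ℝ) ^ c')) η} with hBd
  refine ⟨toMeasurable (law μ) Bd, measurableSet_toMeasurable _ _, ?_, ?_⟩
  · have h1 := s3 (pat t (R / 4) I (full 1 B)) (pat t (R / 4) I (full (-1) B))
    rw [Measure.real, measure_toMeasurable]
    exact ENNReal.toReal_le_of_le_ofReal (Real.exp_pos _).le h1
  · intro w hw e he
    have hg : GoodS μ s R t (R / 4) B I (pat t (R / 4) I (full 1 B)) (pat t (R / 4) I (full (-1) B)) δ' δ'' (ε / 2)
        ((R : ℝ) ^ ε' * wd μ s t) A ((R : ℝ) ^ ε * (Real.sqrt B + B * (A * q t)) * A)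
        (Real.exp (-(R : ℝ) ^ c')) w := by
      by_contra hcon
      exact hw (subset_toMeasurable _ _ hcon)
    have hEE := (hN₁ R hR1).2.1
    refine okay_mono (okay_of_good (M := K * EE μ s R) hI hB hR3 hD0 hDa hDb hcone hsz s2 (fun N h1 h2 => ?_) hg he) ?_
    · rw [← hEE]
      exact (hep N R h1 h2).1
    · have h1 : (R : ℝ) ^ ε = (R : ℝ) ^ (ε / 2) * (R : ℝ) ^ (ε / 2) := by
        rw [← Real.rpow_add hR0]; congr 1; ring
      have h2 : 0 ≤ EE μ s R := EE_nn R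
      have h3 : 0 ≤ (R : ℝ) ^ (ε / 2) := Real.rpow_nonneg hR0.le _
      rw [h1]
      calc 2 * ((R : ℝ) ^ (ε / 2) * (K * EE μ s R)) = 2 * K * ((R : ℝ) ^ (ε / 2) * EE μ s R) := by ring
        _ ≤ (R : ℝ) ^ (ε / 2) * ((R : ℝ) ^ (ε / 2) * EE μ s R) := mul_le_mul_of_nonneg_right hR4 (mul_nonneg h3 h2)
        _ = _ := by ring

end

end Pool.Agent.W_7d29a1_HZ.Z10
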