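import Pool.Agent.W_7d29a1_HZ.Inn
import Pool.Agent.W_7d29a1_HZ.Eb
import Pool.Agent.W_7d29a1_HZ.StpL
import Pool.Agent.W_7d29a1_HZ.Z10_OkA

/-!
STORM Z at one tilt, leaf STP: the step of the response exponent. (helper81)
-/

set_option autoImplicit false

namespace Pool.Agent.W_7d29a1_HZ

open MeasureTheory ProbabilityTheory Filter Topology Finset
open Pool.Agent.W_7d29a1_F Pool.Agent.W_7d29a1_X Pool.Agent.W_7d29a1_h4g Pool.Agent.W_7d29a1_H
open Pool.Agent.W_7d29a1_HS (In wd)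
open Pool.Agent.W_7d29a1_Z10 (StepP EWP)
open scoped ENNReal

variable {μ : Measure ℝ} {s : ℝ} [IsProbabilityMeasure μ] {c C : ℝ} {n₀ : ℕ}

/-- All the kernels of the next scale are okay, rate `q` of the ties. -/
theorem okayQ (h : In μ s c C n₀) {q : ℕ → ℝ} {K : ℝ} (hq : QOK q K) (hT : TIE μ s q) : StpK.OkayQ μ s q :=
  Z10.okayQ_of h (fun n hn => (hq.pos n hn).le) (fun ε hε => ns h ε hε) (inn h hq hT)

theorem stepP (h : In μ s c C n₀) : StepP (wd μ s) (PSg μ s) := by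
  obtain ⟨K, _, hQ⟩ := QOK_qt h
  exact StpK.stepP_of h (okayQ h hQ (TIE_qt h))

end Pool.Agent.W_7d29a1_HZ
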