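import Pool.Agent.W_7d29a1_HZ.Z10_ExcB
/-!
STORM Z, leaf Stp, part (C): the probabilities of the parts of the good event. (helper10)
-/

set_option autoImplicit false

namespace Pool.Agent.W_7d29a1_HZ.Z10

open MeasureTheory ProbabilityTheory Filter Topology Finset
open Pool.Agent.W_7d29a1_F Pool.Agent.W_7d29a1_X Pool.Agent.W_7d29a1_h4g Pool.Agent.W_7d29a1_H
open Pool.Agent.W_7d29a1_HS (In wd)
open Pool.Agent.W_7d29a1_HZ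
open scoped ENNReal

noncomputable section

variable {μ : Measure ℝ} {s : ℝ} [IsProbabilityMeasure μ]

theorem rsp_weaken {t : ℕ} {I : Finset ℕ} {j : ℤ} {w w' A p p' : ℝ} (h : Rsp μ s t I j w A p) (hw : w' ≤ w) (hp : p ≤ p') :
    Rsp μ s t I j w' A p' := by
  refine le_trans (measure_mono ?_) (le_trans h (ENNReal.ofReal_le_ofReal hp))
  rintro η ⟨u, u', h1, h2, h3, y, hy, h4⟩
  exact ⟨u, u', h1, h2, h3, y, hy.trans (by linarith), h4⟩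

/-- (1) No steep places. -/
theorem prob_ns {R t τ₀ B : ℕ} {δ' ε' θ q : ℝ} (hθ : 0 < θ) (hq : 0 ≤ q) (ht : 1 ≤ t) (h1 : R / 4 ≤ τ₀)
    (h2 : τ₀ + 2 * t * B ≤ 3 * R / 4) (hv : wd' μ s t = wd μ s t)
    (h : ∀ N : ℕ, ∀ y : ℤ, R ≤ 2 * N + 1 → N ≤ R → 0 ≤ y → y ≤ N → |(y : ℝ) - sl μ s * N| ≤ ((R : ℝ) ^ δ' * wd μ s R) →
      P1 μ s N y (fun _ S => ¬ NSp μ s R N ε' S) ≤ ENNReal.ofReal q) :
    law μ {η | ∃ u N : ℕ, ∃ y : ℤ, u ≤ R ∧ N ≤ R ∧ 0 ≤ y ∧ y ≤ N ∧ Sys μ s R δ' u N y ∧ θ <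
        Qg μ s N y (fun _ S => ∃ b < B, (R : ℝ) ^ ε' * wd μ s t <
          |((pos S (zb t (τ₀ - u) b) : ℝ) - pos S (za t (τ₀ - u) b)) - sl μ s * t|) (sh ((u : ℤ), 0) η)} ≤
      ENNReal.ofReal (((R : ℝ) + 1) ^ 3 * (θ⁻¹ * q)) := by
  refine Qg_union R (Sys μ s R δ') (fun u N y _ S => ∃ b < B, (R : ℝ) ^ ε' * wd μ s t <
        |((pos S (zb t (τ₀ - u) b) : ℝ) - pos S (za t (τ₀ - u) b)) - sl μ s * t|) (fun u N y => Ms_path _) hθ hq ?_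
  intro u N y _ _ hy0 hyN hS
  obtain ⟨q1, q2, q3, q4⟩ := sys_fact hS h1 h2
  refine le_trans (P1_mono fun η S _ hA' => ?_) (h N y q1 q2 hy0 hyN hS.2.2.2.2.2)
  obtain ⟨k, hk, hlt⟩ := hA'
  intro hNS
  have hk2 : 2 * t * k + 2 * t ≤ 2 * t * B := by
    calc 2 * t * k + 2 * t = 2 * t * (k + 1) := by ring
      _ ≤ 2 * t * B := Nat.mul_le_mul_left _ hk
  have hle : za t (τ₀ - u) k + t ≤ N := by
    unfold za
    generalize 2 * t * B = X at *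
    generalize 2 * t * k = Y at *
    omega
  have h3 := hNS (za t (τ₀ - u) k) t ht hle
  have h4 : za t (τ₀ - u) k + t = zb t (τ₀ - u) k := rfl
  rw [h4, hv] at h3
  push_cast at h3
  exact absurd h3 (not_le.2 hlt)

/-- (2) Incoherence. -/
theorem prob_inn {R t τ₀ B : ℕ} {I : Finset ℕ} {δ' lam θ q : ℝ} (hθ : 0 < θ) (hq : 0 ≤ q) (h1 : R / 4 ≤ τ₀)
    (h2 : τ₀ + 2 * t * B ≤ 3 * R / 4)
    (h : ∀ (N τ : ℕ) (y : ℤ), R ≤ 2 * N + 1 → N ≤ R → τ + 2 * t * B ≤ N → 0 ≤ y → y ≤ N →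
      |(y : ℝ) - sl μ s * N| ≤ ((R : ℝ) ^ δ' * wd μ s R) →
      P1 μ s N y (fun η S => lam < |∑ b ∈ range B, Db μ s t τ I 1 η b 0 (pos S)|) ≤ ENNReal.ofReal q) :
    law μ {η | ∃ u N : ℕ, ∃ y : ℤ, u ≤ R ∧ N ≤ R ∧ 0 ≤ y ∧ y ≤ N ∧ Sys μ s R δ' u N y ∧ θ <
        Qg μ s N y (fun η S => lam < |∑ b ∈ range B, Db μ s t (τ₀ - u) I 1 η b 0 (pos S)|) (sh ((u : ℤ), 0) η)} ≤
      ENNReal.ofReal (((R : ℝ) + 1) ^ 3 * (θ⁻¹ * q)) := by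
  refine Qg_union R (Sys μ s R δ') (fun u N y η S => lam < |∑ b ∈ range B, Db μ s t (τ₀ - u) I 1 η b 0 (pos S)|)
    (fun u N y => Ms_Db _ _ _ _ _) hθ hq ?_
  intro u N y _ _ hy0 hyN hS
  obtain ⟨q1, q2, q3, q4⟩ := sys_fact hS h1 h2
  exact h N (τ₀ - u) y q1 q2 q4 hy0 hyN hS.2.2.2.2.2

/-- The total. -/
theorem prob_good {R t τ₀ B : ℕ} {I : Finset ℕ} {v₁ v₂ : ℕ → ℤ} {δ' δ'' ε₁ wt A lam θ x : ℝ} (hx : 0 ≤ x)
    (p1 : law μ {η | ∃ u N : ℕ, ∃ y : ℤ, u ≤ R ∧ N ≤ R ∧ 0 ≤ y ∧ y ≤ N ∧ Sys μ s R δ' u N y ∧ θ <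
        Qg μ s N y (fun _ S => ∃ b < B, wt < |((pos S (zb t (τ₀ - u) b) : ℝ) - pos S (za t (τ₀ - u) b)) - sl μ s * t|)
          (sh ((u : ℤ), 0) η)} ≤ ENNReal.ofReal (x / 6))
    (p2 : law μ {η | ∃ u N : ℕ, ∃ y : ℤ, u ≤ R ∧ N ≤ R ∧ 0 ≤ y ∧ y ≤ N ∧ Sys μ s R δ' u N y ∧ θ <
        Qg μ s N y (fun η S => lam < |∑ b ∈ range B, Db μ s t (τ₀ - u) I 1 η b 0 (pos S)|) (sh ((u : ℤ), 0) η)} ≤
      ENNReal.ofReal (x / 6))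
    (p3 : law μ {η | ¬ RA μ s R t τ₀ B I wt A 1 η} ≤ ENNReal.ofReal (x / 6))
    (p4 : law μ {η | ¬ PBox μ s R δ'' ε₁ η} ≤ ENNReal.ofReal (x / 6)) :
    law μ {η | ¬ GoodS μ s R t τ₀ B I v₁ v₂ δ' δ'' ε₁ wt A lam θ η} ≤ ENNReal.ofReal x := by
  refine (measure_mono bad_sub).trans ?_
  rw [← six_add hx]
  refine (measure_union_le _ _).trans (add_le_add ?_ ((law_pre_shr _ _).le.trans p4))
  refine (measure_union_le _ _).trans (add_le_add ?_ ((law_pre_shr _ _).le.trans p4))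
  refine (measure_union_le _ _).trans (add_le_add ?_ p4)
  refine (measure_union_le _ _).trans (add_le_add ?_ p3)
  exact (measure_union_le _ _).trans (add_le_add p1 p2)

end

end Pool.Agent.W_7d29a1_HZ.Z10
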