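import Pool.Agent.W_7d29a1_HZ.Act
import Pool.Agent.W_7d29a1_HZ.PthB
import Pool.Agent.W_7d29a1_Z15.NTc

/-!
STORM Z AT ONE TILT, second storey (MP_7d29a1_pr): near ties of classes of pieces (model: `W_7d29a1_Z15.NTc` of helper15; the classes
`Cls`, `AdC`, `Own`, the set of paths `PC` and the indicator `aC` do not depend on the tilt and are those of `W_7d29a1_Z15`).
-/

set_option autoImplicit false

namespace Pool.Agent.W_7d29a1_HZ.Z15

open MeasureTheory ProbabilityTheory Filter Topology Finset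
open Pool.Agent.W_7d29a1_F Pool.Agent.W_7d29a1_X Pool.Agent.W_7d29a1_HZ
open Pool.Agent.W_7d29a1_Z (ps pw pcs Kf Kc ps_pos pw_pth pcs_pos W_eq_Kf W_eq_Kf0 pw_nonneg pw_pos Kf_nonneg Kc_nonneg Kc_le_Kf pw_meas
  Kf_meas Kc_meas Kf_mono mem_pcs ps_inter ps_chain)
open Pool.Agent.W_7d29a1_Z15 (Cls AdC Own PC aC loc Hs_mono)
open scoped ENNReal

noncomputable section

variable {μ : Measure ℝ} {s : ℝ}

/-- The kernel of the class between two points of the path. -/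
def kC (μ : Measure ℝ) (s : ℝ) (C : Cls) (S : Finset ℕ) (b : ℕ × ℕ) (η : Env) : ℝ :=
  Kc μ s 0 (C b.1 (pos S b.1) b.2) η b.1 (pos S b.1) b.2 (pos S b.2)

/-- The sum over the brackets of the ratios of the kernels. -/
def rC (μ : Measure ℝ) (s : ℝ) (C D : Cls) (B : Finset (ℕ × ℕ)) (S : Finset ℕ) (η : Env) : ℝ :=
  ∑ b ∈ B, kC μ s C S b η / kC μ s D S b η

/-- Near tie of the class, of the depth `M`. -/
def NTc (μ : Measure ℝ) (s : ℝ) (C D : Cls) (B : Finset (ℕ × ℕ)) (M : ℝ) (η : Env) (S : Finset ℕ) : Prop :=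
  ∃ b ∈ B, Real.exp (-M) * kC μ s D S b η ≤ kC μ s C S b η

theorem kC_nonneg (C : Cls) (S : Finset ℕ) (b : ℕ × ℕ) (η : Env) : 0 ≤ kC μ s C S b η := Kc_nonneg _ _ _ _ _ _ _

theorem kC_pos {C : Cls} {S : Finset ℕ} {b : ℕ × ℕ} (η : Env) {g : Finset ℕ} (hg : g ∈ pcs 0 b.1 (pos S b.1) b.2 (pos S b.2))
    (hC : C b.1 (pos S b.1) b.2 g) : 0 < kC μ s C S b η := by
  classical
  unfold kC Kc
  exact sum_pos (fun _ _ => pw_pos _ _ _ _ _ _) ⟨g, mem_filter.2 ⟨hg, hC⟩⟩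

theorem own_pos {D : Cls} {B : Finset (ℕ × ℕ)} {F : Finset ℕ → Prop} (h : Own D B F) {S : Finset ℕ} (hS : F S) {b : ℕ × ℕ}
    (hb : b ∈ B) (hab : b.1 ≤ b.2) (η : Env) : 0 < kC μ s D S b η := by
  refine kC_pos η (g := S ∩ Ico b.1 b.2) ?_ (h S hS b hb)
  rw [mem_pcs]
  refine ⟨inter_subset_right, ?_⟩
  rw [ps_inter 0 b.1 _ S le_rfl, Pool.Agent.W_7d29a1_Z17.pos_eq_ps, Pool.Agent.W_7d29a1_Z17.pos_eq_ps, ps_chain 0 0 S (Nat.zero_le _) hab]

theorem rC_nonneg (C D : Cls) (B : Finset (ℕ × ℕ)) (S : Finset ℕ) (η : Env) : 0 ≤ rC μ s C D B S η :=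
  sum_nonneg fun b _ => div_nonneg (kC_nonneg _ _ _ _) (kC_nonneg _ _ _ _)

theorem rC_pos {C D : Cls} {B : Finset (ℕ × ℕ)} {F : Finset ℕ → Prop} (h : Own D B F) (hB : ∀ b ∈ B, b.1 ≤ b.2) {S : Finset ℕ}
    (hS : F S) (hA : AdC C B S) (η : Env) : 0 < rC μ s C D B S η := by
  obtain ⟨b, hb, g, hg, hC⟩ := hA
  unfold rC
  have h1 : 0 < kC μ s C S b η / kC μ s D S b η :=
    div_pos (kC_pos (μ := μ) (s := s) (C := C) (S := S) (b := b) η hg hC) (own_pos (μ := μ) (s := s) (b := b) h hS hb (hB b hb) η)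
  refine lt_of_lt_of_le h1 ?_
  exact single_le_sum (f := fun b => kC μ s C S b η / kC μ s D S b η) (fun b _ => div_nonneg (kC_nonneg _ _ _ _) (kC_nonneg _ _ _ _)) hb

theorem kC_meas (C : Cls) (S : Finset ℕ) (b : ℕ × ℕ) : Measurable fun η : Env => kC μ s C S b η := Kc_meas _ _ _ _ _ _

theorem rC_meas (C D : Cls) (B : Finset (ℕ × ℕ)) (S : Finset ℕ) : Measurable fun η : Env => rC μ s C D B S η :=
  Finset.measurable_sum _ fun b _ => (kC_meas C S b).div (kC_meas D S b)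

/-- A near tie of the class: the path is admissible and the ratio is not small. -/
theorem ntc_r {C D : Cls} {B : Finset (ℕ × ℕ)} {F : Finset ℕ → Prop} (h : Own D B F) (hB : ∀ b ∈ B, b.1 ≤ b.2) {S : Finset ℕ}
    (hS : F S) {M : ℝ} {η : Env} (hN : NTc μ s C D B M η S) : AdC C B S ∧ Real.exp (-M) ≤ rC μ s C D B S η := by
  classical
  obtain ⟨b, hb, hk⟩ := hN
  have h1 := own_pos (μ := μ) (s := s) h hS hb (hB b hb) η
  have h2 : 0 < kC μ s C S b η := lt_of_lt_of_le (mul_pos (Real.exp_pos _) h1) hk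
  constructor
  · refine ⟨b, hb, ?_⟩
    by_contra hn
    push Not at hn
    have h3 : kC μ s C S b η = 0 := by
      unfold kC Kc
      refine sum_eq_zero fun g hg => ?_
      rw [mem_filter] at hg
      exact absurd hg.2 (hn g hg.1)
    exact h2.ne' h3
  · have h3 : Real.exp (-M) ≤ kC μ s C S b η / kC μ s D S b η := by
      rw [le_div_iff₀ h1]
      exact hk
    refine h3.trans ?_
    unfold rC
    exact single_le_sum (f := fun b => kC μ s C S b η / kC μ s D S b η) (fun b _ => div_nonneg (kC_nonneg _ _ _ _) (kC_nonneg _ _ _ _)) hb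

/-- A larger class has more near ties. -/
theorem ntc_mono {C C' D : Cls} (hC : ∀ a x b g, C a x b g → C' a x b g) {B : Finset (ℕ × ℕ)} {M : ℝ} {η : Env} {S : Finset ℕ}
    (h : NTc μ s C D B M η S) : NTc μ s C' D B M η S := by
  classical
  obtain ⟨b, hb, hk⟩ := h
  refine ⟨b, hb, hk.trans ?_⟩
  unfold kC Kc
  refine sum_le_sum_of_subset_of_nonneg ?_ fun _ _ _ => pw_nonneg _ _ _ _ _ _
  intro g hg
  rw [mem_filter] at hg ⊢
  exact ⟨hg.1, hC _ _ _ _ hg.2⟩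

/-! ### The swap sum and the upper side -/

open scoped Classical in
/-- **The swap sum of a class.** -/
theorem swapC (η : Env) {N : ℕ} {y : ℤ} {C D : Cls} {B : Finset (ℕ × ℕ)} (hB : ∀ b ∈ B, b.1 ≤ b.2 ∧ b.2 ≤ N) {F : Finset ℕ → Prop}
    (hF : Own D B F) :
    ∑ S ∈ (range N).powerset, (if F S then gp μ s η N y S * rC μ s C D B S η else 0) ≤ #B := by
  have hone : ∀ b ∈ B, ∑ S ∈ (range N).powerset, (if F S then gp μ s η N y S * (kC μ s C S b η / kC μ s D S b η) else 0) ≤ 1 := by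
    intro b hb
    obtain ⟨hab, hbN⟩ := hB b hb
    obtain ⟨Z, hZ⟩ : ∃ Z, Z = W μ s η 0 N y := ⟨_, rfl⟩
    have hZ' : Z = Kf μ s 0 η 0 0 N y := by
      rw [hZ]
      have h1 := W_eq_Kf (μ := μ) (s := s) η 0 0 N y
      rw [zero_add, zero_add] at h1
      exact h1
    have hZ0 : 0 ≤ Z := by
      rw [hZ']
      exact Kf_nonneg _ _ _ _ _ _
    have h1 := Pool.Agent.W_7d29a1_Z17.swap_mid (μ := μ) (s := s) η (y := y) hab hbN (fun u S' => D b.1 u b.2 S')
      (fun u v => Kc μ s 0 (C b.1 u b.2) η b.1 u b.2 v / Kc μ s 0 (D b.1 u b.2) η b.1 u b.2 v) (fun u v => by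
        have h2 := Kc_nonneg (μ := μ) (s := s) 0 (D b.1 u b.2) η b.1 u b.2 v
        have h3 := Kc_nonneg (μ := μ) (s := s) 0 (C b.1 u b.2) η b.1 u b.2 v
        have h4 := Kc_le_Kf (μ := μ) (s := s) 0 (C b.1 u b.2) η b.1 u b.2 v
        rcases h2.eq_or_lt with h5 | h5
        · rw [← h5, mul_zero]
          exact h3.trans h4
        · rw [div_mul_cancel₀ _ h5.ne']
          exact h4)
    rw [← hZ'] at h1
    have h6 : ∑ S ∈ (range N).powerset, (if F S then gp μ s η N y S * (kC μ s C S b η / kC μ s D S b η) else 0) ≤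
        (∑ S ∈ (range N).powerset, (if pos S N = y ∧ D b.1 (pos S b.1) b.2 (S ∩ Ico b.1 b.2) then
          pth μ s η N S * (Kc μ s 0 (C b.1 (pos S b.1) b.2) η b.1 (pos S b.1) b.2 (pos S b.2) /
            Kc μ s 0 (D b.1 (pos S b.1) b.2) η b.1 (pos S b.1) b.2 (pos S b.2)) else 0)) / Z := by
      rw [sum_div]
      refine sum_le_sum fun S _ => ?_
      have hr : 0 ≤ kC μ s C S b η / kC μ s D S b η := div_nonneg (kC_nonneg _ _ _ _) (kC_nonneg _ _ _ _)
      by_cases h7 : F S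
      · rw [if_pos h7]
        have h8 := hF S h7 b hb
        unfold gp
        rw [← hZ]
        by_cases h9 : pos S N = y
        · rw [if_pos h9, if_pos ⟨h9, h8⟩]
          unfold kC
          exact le_of_eq (by ring)
        · rw [if_neg h9, if_neg (fun h => h9 h.1), zero_mul, zero_div]
      · rw [if_neg h7]
        refine div_nonneg ?_ hZ0
        split_ifs
        · exact mul_nonneg (pth_nonneg _ _ _) hr
        · exact le_rfl
    exact h6.trans ((div_le_div_of_nonneg_right h1 hZ0).trans (div_self_le_one Z))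
  have e1 : ∀ S, (if F S then gp μ s η N y S * rC μ s C D B S η else 0) =
      ∑ b ∈ B, (if F S then gp μ s η N y S * (kC μ s C S b η / kC μ s D S b η) else 0) := by
    intro S
    split_ifs
    · unfold rC
      rw [mul_sum]
    · rw [sum_const_zero]
  simp only [e1]
  rw [sum_comm]
  refine (sum_le_sum hone).trans (le_of_eq ?_)
  rw [sum_const, nsmul_eq_mul, mul_one]

/-- **The upper side.** -/
theorem upC [IsProbabilityMeasure μ] {N : ℕ} {y : ℤ} {C D : Cls} {B : Finset (ℕ × ℕ)} (hB : ∀ b ∈ B, b.1 ≤ b.2 ∧ b.2 ≤ N)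
    {F : Finset ℕ → Prop} (hF : Own D B F) {t : ℝ} (ht : 0 < t) :
    P1 μ s N y (fun η S => F S ∧ t < rC μ s C D B S η) ≤ ENNReal.ofReal (#B / t) := by
  classical
  refine P1_quenched (fun S => ?_) (by positivity) fun η => ?_
  · by_cases h : F S
    · simp only [h, true_and]
      exact measurableSet_lt measurable_const (rC_meas C D B S)
    · simp only [h, false_and]
      exact MeasurableSet.empty
  · rw [le_div_iff₀ ht, sum_mul]
    refine le_trans (sum_le_sum fun S _ => ?_) (swapC (μ := μ) (s := s) (C := C) (y := y) η hB hF)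
    have hg := gp_nonneg (μ := μ) (s := s) η N y S
    have hr := rC_nonneg (μ := μ) (s := s) C D B S η
    by_cases h : F S
    · by_cases h2 : t < rC μ s C D B S η
      · rw [if_pos ⟨h, h2⟩, if_pos h]
        exact mul_le_mul_of_nonneg_left h2.le hg
      · rw [if_neg (fun h3 => h2 h3.2), if_pos h, zero_mul]
        exact mul_nonneg hg hr
    · rw [if_neg (fun h3 => h h3.1), if_neg h, zero_mul]

/-! ### The data of `Dlr` -/

/-- The weight of the path. -/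
def wC (μ : Measure ℝ) (s : ℝ) (N : ℕ) (S : Finset ℕ) (η : Env) : ℝ := pth μ s η N S

/-- The partition function. -/
def ZC (μ : Measure ℝ) (s : ℝ) (N : ℕ) (y : ℤ) (η : Env) : ℝ := W μ s η 0 N y

open scoped Classical in
theorem Hs_eq (N : ℕ) (y : ℤ) (F : Finset ℕ → Prop) (C : Cls) (B : Finset (ℕ × ℕ)) (A Q : Env → Finset ℕ → Prop) (η : Env) :
    Pool.Agent.W_7d29a1_Z59.Hs (PC N y F C B) (aC A) (wC μ s N) (ZC μ s N y) (fun S η => if Q η S then 1 else 0) η =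
      ∑ S ∈ (range N).powerset, (if A η S ∧ F S ∧ AdC C B S ∧ Q η S then (1 : ℝ) else 0) * gp μ s η N y S := by
  unfold Pool.Agent.W_7d29a1_Z59.Hs PC
  rw [sum_filter]
  refine sum_congr rfl fun S _ => ?_
  unfold aC wC ZC gp
  beta_reduce
  by_cases h1 : pos S N = y
  · by_cases h2 : A η S
    · by_cases h3 : F S ∧ AdC C B S
      · by_cases h4 : Q η S
        · rw [if_pos ⟨h1, h3⟩, if_pos h2, if_pos h4, if_pos ⟨h2, h3.1, h3.2, h4⟩, if_pos h1]
          ring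
        · rw [if_pos ⟨h1, h3⟩, if_pos h2, if_neg h4, if_neg (fun h => h4 h.2.2.2)]
          ring
      · rw [if_neg (fun h => h3 h.2), if_neg (fun h => h3 ⟨h.2.1, h.2.2.1⟩)]
        ring
    · have e : ¬ (A η S ∧ F S ∧ AdC C B S ∧ Q η S) := fun h => h2 h.1
      rw [if_neg h2, if_neg e]
      split_ifs <;> simp
  · rw [if_neg (fun h => h1 h.1), if_neg h1, mul_zero]

/-- The probability of the event, of `F`, admissible, and of `|log r| ≤ M`. -/
def Ev (μ : Measure ℝ) (s : ℝ) (F : Finset ℕ → Prop) (C D : Cls) (B : Finset (ℕ × ℕ)) (A : Env → Finset ℕ → Prop) (M : ℝ)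
    (η : Env) (S : Finset ℕ) : Prop := A η S ∧ F S ∧ AdC C B S ∧ |Real.log (rC μ s C D B S η)| ≤ M

/-- The real value. -/
def TM (μ : Measure ℝ) (s : ℝ) (N : ℕ) (y : ℤ) (F : Finset ℕ → Prop) (C D : Cls) (B : Finset (ℕ × ℕ)) (A : Env → Finset ℕ → Prop)
    (M : ℝ) : ℝ := (P1 μ s N y (Ev μ s F C D B A M)).toReal

theorem Ev_ms {F : Finset ℕ → Prop} {C D : Cls} {B : Finset (ℕ × ℕ)} {A : Env → Finset ℕ → Prop} (hA : Ms A) (M : ℝ) :
    Ms (Ev μ s F C D B A M) := by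
  intro S
  by_cases h : F S ∧ AdC C B S
  · have e : {η | Ev μ s F C D B A M η S} = {η | A η S} ∩ {η | |Real.log (rC μ s C D B S η)| ≤ M} := by
      ext η
      unfold Ev
      simp only [Set.mem_ofPred_eq, Set.mem_inter_iff]
      tauto
    rw [e]
    exact (hA S).inter (measurableSet_le (measurable_norm.comp (rC_meas C D B S).log) measurable_const)
  · have e : {η | Ev μ s F C D B A M η S} = ∅ := by
      ext η
      unfold Ev
      simp only [Set.mem_ofPred_eq, Set.mem_empty_iff_false, iff_false]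
      tauto
    rw [e]
    exact MeasurableSet.empty

open scoped Classical in
theorem TM_eq [IsProbabilityMeasure μ] {N : ℕ} {y : ℤ} {F : Finset ℕ → Prop} {C D : Cls} {B : Finset (ℕ × ℕ)}
    {A : Env → Finset ℕ → Prop} (hA : Ms A) (M : ℝ) :
    TM μ s N y F C D B A M = ∫ η, Pool.Agent.W_7d29a1_Z59.Hs (PC N y F C B) (aC A) (wC μ s N) (ZC μ s N y)
      (fun S η => if |Real.log (rC μ s C D B S η)| ≤ M then 1 else 0) η ∂law μ := by
  unfold TM
  rw [P1_eq36 (Ev_ms hA M), ENNReal.toReal_ofReal]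
  · refine integral_congr_ae (Eventually.of_forall fun η => ?_)
    have h := Hs_eq (μ := μ) (s := s) N y F C B A (fun η S => |Real.log (rC μ s C D B S η)| ≤ M) η
    rw [h]
    beta_reduce
    refine sum_congr rfl fun S _ => ?_
    congr 1
    exact if_congr Iff.rfl rfl rfl
  · refine integral_nonneg fun η => sum_nonneg fun S _ => mul_nonneg ?_ (gp_nonneg _ _ _ _)
    split_ifs
    · exact zero_le_one
    · exact le_rfl

theorem TM_nonneg (N : ℕ) (y : ℤ) (F : Finset ℕ → Prop) (C D : Cls) (B : Finset (ℕ × ℕ)) (A : Env → Finset ℕ → Prop) (M : ℝ) :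
    0 ≤ TM μ s N y F C D B A M := ENNReal.toReal_nonneg

theorem P1_ne_top [IsProbabilityMeasure μ] {N : ℕ} {y : ℤ} (h0 : 0 ≤ y) (h1 : y ≤ N) (A : Env → Finset ℕ → Prop) :
    P1 μ s N y A ≠ ⊤ := ((P1_le_one h0 h1 A).trans_lt ENNReal.one_lt_top).ne

theorem TM_le_one [IsProbabilityMeasure μ] {N : ℕ} {y : ℤ} (h0 : 0 ≤ y) (h1 : y ≤ N) (F : Finset ℕ → Prop) (C D : Cls)
    (B : Finset (ℕ × ℕ)) (A : Env → Finset ℕ → Prop) (M : ℝ) : TM μ s N y F C D B A M ≤ 1 := by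
  unfold TM
  rw [← ENNReal.toReal_one]
  exact ENNReal.toReal_mono ENNReal.one_ne_top (P1_le_one h0 h1 _)

theorem TM_mono [IsProbabilityMeasure μ] {N : ℕ} {y : ℤ} (h0 : 0 ≤ y) (h1 : y ≤ N) (F : Finset ℕ → Prop) (C D : Cls)
    (B : Finset (ℕ × ℕ)) (A : Env → Finset ℕ → Prop) {M M' : ℝ} (h : M ≤ M') :
    TM μ s N y F C D B A M ≤ TM μ s N y F C D B A M' := by
  unfold TM
  refine ENNReal.toReal_mono (P1_ne_top h0 h1 _) (P1_mono fun η S _ hE => ?_)
  exact ⟨hE.1, hE.2.1, hE.2.2.1, hE.2.2.2.trans h⟩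

/-- At most the probability of the event and `F`. -/
theorem TM_le [IsProbabilityMeasure μ] {N : ℕ} {y : ℤ} (h0 : 0 ≤ y) (h1 : y ≤ N) (F : Finset ℕ → Prop) (C D : Cls)
    (B : Finset (ℕ × ℕ)) (A : Env → Finset ℕ → Prop) (M : ℝ) :
    TM μ s N y F C D B A M ≤ (P1 μ s N y (fun η S => A η S ∧ F S)).toReal := by
  unfold TM
  refine ENNReal.toReal_mono (P1_ne_top h0 h1 _) (P1_mono fun η S _ hE => ?_)
  exact ⟨hE.1, hE.2.1⟩

/-- **From near ties to `|log r| ≤ M'`.** -/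
theorem ntc_le [IsProbabilityMeasure μ] {N : ℕ} {y : ℤ} (h0 : 0 ≤ y) (h1 : y ≤ N) {F : Finset ℕ → Prop} {C D : Cls}
    {B : Finset (ℕ × ℕ)} (hB : ∀ b ∈ B, b.1 ≤ b.2 ∧ b.2 ≤ N) (hF : Own D B F) (A : Env → Finset ℕ → Prop) {M M' : ℝ} (hM : M ≤ M') :
    P1 μ s N y (fun η S => A η S ∧ F S ∧ NTc μ s C D B M η S) ≤
      ENNReal.ofReal (TM μ s N y F C D B A M') + ENNReal.ofReal (#B * Real.exp (-M')) := by
  have h2 : P1 μ s N y (fun η S => A η S ∧ F S ∧ NTc μ s C D B M η S) ≤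
      P1 μ s N y (fun η S => Ev μ s F C D B A M' η S ∨ (F S ∧ Real.exp M' < rC μ s C D B S η)) := by
    refine P1_mono fun η S _ hE => ?_
    obtain ⟨hA, hFS, hN⟩ := hE
    obtain ⟨h3, h4⟩ := ntc_r hF (fun b hb => (hB b hb).1) hFS hN
    have h5 : 0 < rC μ s C D B S η := lt_of_lt_of_le (Real.exp_pos _) h4
    rcases le_or_gt (rC μ s C D B S η) (Real.exp M') with h6 | h6
    · left
      refine ⟨hA, hFS, h3, abs_le.2 ⟨?_, ?_⟩⟩
      · have := (Real.le_log_iff_exp_le h5).2 h4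
        linarith
      · exact (Real.log_le_iff_le_exp h5).2 h6
    · exact Or.inr ⟨hFS, h6⟩
  refine h2.trans ((P1_or _ _).trans (add_le_add ?_ ?_))
  · unfold TM
    rw [ENNReal.ofReal_toReal (P1_ne_top h0 h1 _)]
  · refine (upC hB hF (Real.exp_pos M')).trans (le_of_eq ?_)
    rw [Real.exp_neg, div_eq_mul_inv]

/-! ### The construction of `Dlr` -/

theorem pth_dep {T : Finset Pt} {S : Finset ℕ} {N : ℕ} (hS : ∀ q ∈ T, ∀ i : ℕ, q.1 = i → pos S i ≠ q.2) :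
    DependsOn (fun η : Env => pth μ s η N S) ((T : Set Pt)ᶜ) := by
  intro η η' h
  show pth μ s η N S = pth μ s η' N S
  unfold pth
  congr 1
  refine prod_congr rfl fun i _ => ?_
  congr 1
  apply h
  intro hq
  exact hS _ hq (i + 1) (by push_cast; rfl) rfl

theorem ZC_mono (N : ℕ) (y : ℤ) : Monotone (ZC μ s N y) := by
  intro η η' h
  unfold ZC
  rw [W_eq_Kf0, W_eq_Kf0]
  exact Kf_mono _ _ _ _ _ h

open scoped Classical in
/-- **The construction.** -/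
theorem mkDlr [IsProbabilityMeasure μ] {N : ℕ} {y : ℤ} (h0 : 0 ≤ y) (h1 : y ≤ N) {F : Finset ℕ → Prop} {C D : Cls}
    {B : Finset (ℕ × ℕ)} (hB : ∀ b ∈ B, b.1 ≤ b.2 ∧ b.2 ≤ N) (hF : Own D B F) {J : Finset ℕ} {A : Env → Finset ℕ → Prop}
    (hA : Ms A) (hoff : OffRows J A) {κ : Type*} {Z : Finset κ} {p t : ℝ} {T : κ → Finset Pt} {K : κ → Env → ℝ}
    {o q : Finset ℕ → κ → Env → ℝ} (hp : 0 < p) (hdis : ∀ z ∈ Z, ∀ z' ∈ Z, z ≠ z' → Disjoint (T z) (T z'))
    (hKm : ∀ z ∈ Z, Measurable (K z)) (hKd : ∀ z ∈ Z, DependsOn (K z) (T z : Set Pt)) (hKmo : ∀ z ∈ Z, Monotone (K z))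
    (hpr : ∀ z ∈ Z, (law μ).real {g | Real.exp t ≤ K z g} = p)
    (hTJ : ∀ z ∈ Z, ∀ q ∈ T z, 0 ≤ q.1 ∧ q.1.toNat ∈ J)
    (hav : ∀ S, F S → ∀ z ∈ Z, ∀ q ∈ T z, ∀ i : ℕ, q.1 = i → pos S i ≠ q.2)
    (hom : ∀ S ∈ PC N y F C B, ∀ z ∈ Z, Measurable (o S z)) (ho0 : ∀ S ∈ PC N y F C B, ∀ z ∈ Z, ∀ g, 0 ≤ o S z g)
    (hod : ∀ S ∈ PC N y F C B, ∀ z ∈ Z, DependsOn (o S z) ((T z : Set Pt)ᶜ))
    (hqm : ∀ S ∈ PC N y F C B, ∀ z ∈ Z, Pool.Agent.W_7d29a1_h48.MonoOn (T z : Set Pt) (q S z))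
    (hreq : ∀ S ∈ PC N y F C B, ∀ z ∈ Z, ∀ g, rC μ s C D B S g = o S z g * K z g + q S z g) :
    Pool.Agent.W_7d29a1_Z59.Dlr μ (PC N y F C B) Z p t T K (aC A) (wC μ s N) (ZC μ s N y) (fun S => rC μ s C D B S) o q where
  p0 := hp
  disj := hdis
  Km := hKm
  Kdep := hKd
  Kmono := hKmo
  prob := hpr
  am := fun S _ => Measurable.ite (hA S) measurable_const measurable_const
  a0 := fun S _ g => by
    unfold aC
    split_ifs
    · exact zero_le_one
    · exact le_rfl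
  a1 := fun S _ g => by
    unfold aC
    split_ifs
    · exact le_rfl
    · exact zero_le_one
  wm := fun S _ => by
    unfold wC
    simp_rw [← pw_pth]
    exact pw_meas _ _ _ _ _
  w0 := fun S _ g => pth_nonneg _ _ _
  awdep := fun S hS z hz => by
    have hFS : F S := (mem_filter.1 hS).2.2.1
    intro g g' hg
    have e1 : wC μ s N S g = wC μ s N S g' := pth_dep (hav S hFS z hz) hg
    have e2 : aC A S g = aC A S g' := by
      unfold aC
      have h3 : A g S ↔ A g' S := hoff g g' S fun q hq => hg q fun hqT => hq (hTJ z hz q hqT)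
      by_cases h4 : A g S
      · rw [if_pos h4, if_pos (h3.1 h4)]
      · rw [if_neg h4, if_neg fun h => h4 (h3.2 h)]
    show aC A S g * wC μ s N S g = aC A S g' * wC μ s N S g'
    rw [e1, e2]
  Zm := by
    unfold ZC
    exact measurable_W _ _ _
  Z0 := fun g => W_pos _ _ h0 h1
  Zmono := ZC_mono N y
  sum := fun g => by
    unfold wC ZC
    have h2 := sum_gp_le_one (μ := μ) (s := s) g N y
    have hW : 0 < W μ s g 0 N y := W_pos _ _ h0 h1
    have h3 : ∑ S ∈ PC N y F C B, pth μ s g N S / W μ s g 0 N y ≤ 1 := by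
      refine le_trans ?_ h2
      unfold PC
      rw [sum_filter]
      refine sum_le_sum fun S _ => ?_
      unfold gp
      by_cases h4 : pos S N = y
      · rw [if_pos h4]
        split_ifs
        · exact le_rfl
        · exact div_nonneg (pth_nonneg _ _ _) hW.le
      · rw [if_neg h4, if_neg fun h => h4 h.1]
    rw [← sum_div, div_le_one hW] at h3
    exact h3
  rm := fun S _ => rC_meas C D B S
  r0 := fun S hS g => rC_pos hF (fun b hb => (hB b hb).1) (mem_filter.1 hS).2.2.1 (mem_filter.1 hS).2.2.2 g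
  om := hom
  o0 := ho0
  odep := hod
  qmono := hqm
  req := hreq

/-! ### The localised step -/

/-- **The localised step.** -/
theorem stepC [IsProbabilityMeasure μ] {N : ℕ} {y : ℤ} {F : Finset ℕ → Prop} {C D : Cls} {B : Finset (ℕ × ℕ)}
    {A : Env → Finset ℕ → Prop} (hA : Ms A) {κ : Type*} {Z : Finset κ} {p t : ℝ} {T : κ → Finset Pt} {K : κ → Env → ℝ}
    {o q : Finset ℕ → κ → Env → ℝ}
    (h : Pool.Agent.W_7d29a1_Z59.Dlr μ (PC N y F C B) Z p t T K (aC A) (wC μ s N) (ZC μ s N y) (fun S => rC μ s C D B S) o q)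
    {F0 : Finset ℕ → κ → Env → ℝ} (F0m : ∀ S ∈ PC N y F C B, ∀ z ∈ Z, Measurable (F0 S z))
    (F0d : ∀ S ∈ PC N y F C B, ∀ z ∈ Z, DependsOn (F0 S z) ((T z : Set Pt)ᶜ))
    (F0l : ∀ S ∈ PC N y F C B, ∀ z ∈ Z, ∀ g, F0 S z g ≤ Real.log (rC μ s C D B S g)) {M M' : ℝ} (hM : 0 < M) (hM' : 0 < M')
    {E : Set Env} (hE : MeasurableSet E) {Ga Ri : ℝ} (hGa0 : 0 < Ga)
    (hGa : ∀ g ∈ E, ∀ S ∈ PC N y F C B, |Real.log (rC μ s C D B S g)| ≤ M →
      Ga ≤ ∑ z ∈ Z, min (Real.log (Pool.Agent.W_7d29a1_Z59.rsh t K (fun S => rC μ s C D B S) o S z g) - Real.log (rC μ s C D B S g)) M)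
    (hdet : ∀ g ∈ E, ∀ S ∈ PC N y F C B, -(4 * M' + 2 * M) ≤ Real.log (rC μ s C D B S g) → ∀ z ∈ Z,
      Real.log (rC μ s C D B S g) - F0 S z g ≤ M)
    (hRi0 : 0 ≤ Ri) (hRi : ∀ g ∈ E, ∀ S ∈ PC N y F C B, -(4 * M' + 2 * M) ≤ Real.log (rC μ s C D B S g) →
      ∑ z ∈ Z, min (Real.log (rC μ s C D B S g) - F0 S z g) (4 * M') ≤ Ri) (u : ℝ) (hu : 0 ≤ u) :
    TM μ s N y F C D B A M ≤ 4 * M / Ga * ((1 / p) * (Real.sqrt #Z * u + Ri / (4 * M'))) * TM μ s N y F C D B A (4 * M' + 2 * M) +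
      (4 * M / Ga * ((1 / p) * (Real.sqrt #Z * Real.exp (1 - u) + #Z * (law μ).real Eᶜ)) + (law μ).real Eᶜ) := by
  classical
  have h2 := loc h F0m F0d F0l hM hM' hE (Ga := Ga) (fun g hg S hS _ => hGa g hg S hS) (fun g hg S hS _ => hdet g hg S hS) hRi0
    (fun g hg S hS _ => hRi g hg S hS) u hu
  obtain ⟨f, hf⟩ : ∃ f : Finset ℕ → Env → ℝ, f = fun S g => if |Real.log (rC μ s C D B S g)| ≤ M then 1 else 0 := ⟨_, rfl⟩
  obtain ⟨f', hf'⟩ : ∃ f' : Finset ℕ → Env → ℝ,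
    f' = fun S g => if |Real.log (rC μ s C D B S g)| ≤ 4 * M' + 2 * M then 1 else 0 := ⟨_, rfl⟩
  obtain ⟨f2, hf2⟩ : ∃ f2 : Finset ℕ → Env → ℝ,
    f2 = fun S g => if -(4 * M' + 2 * M) ≤ Real.log (rC μ s C D B S g) ∧ Real.log (rC μ s C D B S g) ≤ 2 * M then 1 else 0 := ⟨_, rfl⟩
  rw [TM_eq hA M, TM_eq hA (4 * M' + 2 * M), ← hf, ← hf']
  rw [← hf, ← hf2] at h2
  have m1 : ∀ S ∈ PC N y F C B, Measurable (f S) := fun S _ => by
    rw [hf]
    exact Measurable.ite (measurableSet_le (measurable_norm.comp (rC_meas C D B S).log) measurable_const)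
      measurable_const measurable_const
  have m2 : ∀ S ∈ PC N y F C B, Measurable (f' S) := fun S _ => by
    rw [hf']
    exact Measurable.ite (measurableSet_le (measurable_norm.comp (rC_meas C D B S).log) measurable_const)
      measurable_const measurable_const
  have m3 : ∀ S ∈ PC N y F C B, Measurable (f2 S) := fun S _ => by
    rw [hf2]
    exact Measurable.ite ((measurableSet_le measurable_const (rC_meas C D B S).log).inter
      (measurableSet_le (rC_meas C D B S).log measurable_const)) measurable_const measurable_const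
  have b1 : ∀ S g, 0 ≤ f S g ∧ f S g ≤ 1 := fun S g => by
    rw [hf]
    simp only
    split_ifs <;> norm_num
  have b2 : ∀ S g, 0 ≤ f' S g ∧ f' S g ≤ 1 := fun S g => by
    rw [hf']
    simp only
    split_ifs <;> norm_num
  have b3 : ∀ S g, 0 ≤ f2 S g ∧ f2 S g ≤ 1 := fun S g => by
    rw [hf2]
    simp only
    split_ifs <;> norm_num
  have hint : ∀ f : Finset ℕ → Env → ℝ, (∀ S ∈ PC N y F C B, Measurable (f S)) → (∀ S g, 0 ≤ f S g ∧ f S g ≤ 1) →
      Integrable (Pool.Agent.W_7d29a1_Z59.Hs (PC N y F C B) (aC A) (wC μ s N) (ZC μ s N y) f) (law μ) := fun f hm hb =>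
    Pool.Agent.W_7d29a1_NP.bdd_integrable (h.Hs_meas hm) (B := 1) fun g => by
      rw [abs_of_nonneg (h.Hs_nonneg fun S _ => (hb S g).1)]
      exact h.Hs_le_one fun S _ => (hb S g).2
  have i1 := hint f m1 b1
  have i2 := hint f' m2 b2
  have i3 := hint f2 m3 b3
  -- the right side
  have h3 : ∫ g, Pool.Agent.W_7d29a1_Z59.Hs (PC N y F C B) (aC A) (wC μ s N) (ZC μ s N y) f2 g ∂law μ ≤
      ∫ g, Pool.Agent.W_7d29a1_Z59.Hs (PC N y F C B) (aC A) (wC μ s N) (ZC μ s N y) f' g ∂law μ := by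
    refine integral_mono i3 i2 fun g => Hs_mono (fun S hS => h.aw_nonneg hS g) fun S _ => ?_
    rw [hf2, hf']
    simp only
    by_cases h4 : -(4 * M' + 2 * M) ≤ Real.log (rC μ s C D B S g) ∧ Real.log (rC μ s C D B S g) ≤ 2 * M
    · rw [if_pos h4, if_pos (abs_le.2 ⟨h4.1, by linarith [h4.2]⟩)]
    · rw [if_neg h4]
      split_ifs <;> norm_num
  -- the left side
  have h4 : ∫ g, Pool.Agent.W_7d29a1_Z59.Hs (PC N y F C B) (aC A) (wC μ s N) (ZC μ s N y) f g ∂law μ ≤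
      ∫ g in E, Pool.Agent.W_7d29a1_Z59.Hs (PC N y F C B) (aC A) (wC μ s N) (ZC μ s N y) f g ∂law μ + (law μ).real Eᶜ := by
    rw [← integral_add_compl hE i1]
    refine add_le_add le_rfl ?_
    have h5 : ∫ g in Eᶜ, Pool.Agent.W_7d29a1_Z59.Hs (PC N y F C B) (aC A) (wC μ s N) (ZC μ s N y) f g ∂law μ ≤ ∫ g in Eᶜ, (1 : ℝ) ∂law μ := by
      refine setIntegral_mono i1.integrableOn (integrable_const _).integrableOn fun g => ?_
      exact h.Hs_le_one fun S _ => (b1 S g).2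
    refine h5.trans (le_of_eq ?_)
    rw [setIntegral_const, smul_eq_mul, mul_one]
  obtain ⟨X, hX⟩ : ∃ X, X = ∫ g in E, Pool.Agent.W_7d29a1_Z59.Hs (PC N y F C B) (aC A) (wC μ s N) (ZC μ s N y) f g ∂law μ := ⟨_, rfl⟩
  obtain ⟨Y, hY⟩ : ∃ Y, Y = ∫ g, Pool.Agent.W_7d29a1_Z59.Hs (PC N y F C B) (aC A) (wC μ s N) (ZC μ s N y) f' g ∂law μ := ⟨_, rfl⟩
  obtain ⟨Y2, hY2⟩ : ∃ Y, Y = ∫ g, Pool.Agent.W_7d29a1_Z59.Hs (PC N y F C B) (aC A) (wC μ s N) (ZC μ s N y) f2 g ∂law μ := ⟨_, rfl⟩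
  rw [← hX] at h4
  rw [← hY] at h3 ⊢
  rw [← hY2] at h3
  have h6 : Ga / (4 * M) * X ≤ (1 / p) * (Real.sqrt #Z * u + Ri / (4 * M')) * Y2 +
      (1 / p) * (Real.sqrt #Z * Real.exp (1 - u) + #Z * (law μ).real Eᶜ) := by
    rw [hX, hY2]
    exact h2
  have hp := h.p0
  have hk : 0 ≤ (1 / p) * (Real.sqrt #Z * u + Ri / (4 * M')) := by positivity
  have h7 : Ga / (4 * M) * X ≤ (1 / p) * (Real.sqrt #Z * u + Ri / (4 * M')) * Y +
      (1 / p) * (Real.sqrt #Z * Real.exp (1 - u) + #Z * (law μ).real Eᶜ) :=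
    h6.trans (add_le_add (mul_le_mul_of_nonneg_left h3 hk) le_rfl)
  have h8 : X ≤ 4 * M / Ga * ((1 / p) * (Real.sqrt #Z * u + Ri / (4 * M')) * Y +
      (1 / p) * (Real.sqrt #Z * Real.exp (1 - u) + #Z * (law μ).real Eᶜ)) := by
    have h9 : X = 4 * M / Ga * (Ga / (4 * M) * X) := by
      field_simp
    rw [h9]
    exact mul_le_mul_of_nonneg_left h7 (by positivity)
  refine h4.trans ((add_le_add h8 le_rfl).trans (le_of_eq ?_))
  ring

end

end Pool.Agent.W_7d29a1_HZ.Z15
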