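import Pool.Agent.W_7d29a1_HZ.Z15_NTc

/-!
STORM Z AT ONE TILT, second storey (MP_7d29a1_pr): the step for the probabilities of near ties of a class (`NM`: nondecreasing in the
depth and in the class, so that it can be used along a chain of scales) (model: `W_7d29a1_Z15.NTs` of helper15).
-/

set_option autoImplicit false

namespace Pool.Agent.W_7d29a1_HZ.Z15

open MeasureTheory ProbabilityTheory Filter Topology Finset
open Pool.Agent.W_7d29a1_F Pool.Agent.W_7d29a1_X Pool.Agent.W_7d29a1_HZ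
open Pool.Agent.W_7d29a1_Z15 (Cls AdC Own PC aC)
open scoped ENNReal

noncomputable section

variable {μ : Measure ℝ} {s : ℝ} [IsProbabilityMeasure μ]

/-- The probability of a near tie of the class, of depth `M`, with the event `A` and the property `F`. -/
def NM (μ : Measure ℝ) (s : ℝ) (N : ℕ) (y : ℤ) (F : Finset ℕ → Prop) (C D : Cls) (B : Finset (ℕ × ℕ)) (A : Env → Finset ℕ → Prop)
    (M : ℝ) : ℝ := (P1 μ s N y (fun η S => A η S ∧ F S ∧ NTc μ s C D B M η S)).toReal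

theorem NM_nonneg (N : ℕ) (y : ℤ) (F : Finset ℕ → Prop) (C D : Cls) (B : Finset (ℕ × ℕ)) (A : Env → Finset ℕ → Prop) (M : ℝ) :
    0 ≤ NM μ s N y F C D B A M := ENNReal.toReal_nonneg

theorem NM_le_one {N : ℕ} {y : ℤ} (h0 : 0 ≤ y) (h1 : y ≤ N) (F : Finset ℕ → Prop) (C D : Cls)
    (B : Finset (ℕ × ℕ)) (A : Env → Finset ℕ → Prop) (M : ℝ) : NM μ s N y F C D B A M ≤ 1 := by
  unfold NM
  rw [← ENNReal.toReal_one]
  exact ENNReal.toReal_mono ENNReal.one_ne_top (P1_le_one h0 h1 _)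

theorem ntc_mono_depth {C D : Cls} {B : Finset (ℕ × ℕ)} {M M' : ℝ} (h : M ≤ M') {η : Env} {S : Finset ℕ} (hN : NTc μ s C D B M η S) :
    NTc μ s C D B M' η S := by
  obtain ⟨b, hb, hk⟩ := hN
  refine ⟨b, hb, le_trans ?_ hk⟩
  exact mul_le_mul_of_nonneg_right (Real.exp_le_exp.2 (by linarith)) (kC_nonneg _ _ _ _)

theorem NM_mono {N : ℕ} {y : ℤ} (h0 : 0 ≤ y) (h1 : y ≤ N) (F : Finset ℕ → Prop) {C C' D : Cls}
    (hC : ∀ a x b g, C a x b g → C' a x b g) (B : Finset (ℕ × ℕ)) (A : Env → Finset ℕ → Prop) {M M' : ℝ} (h : M ≤ M') :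
    NM μ s N y F C D B A M ≤ NM μ s N y F C' D B A M' := by
  unfold NM
  refine ENNReal.toReal_mono (P1_ne_top h0 h1 _) (P1_mono fun η S _ hE => ?_)
  exact ⟨hE.1, hE.2.1, ntc_mono hC (ntc_mono_depth h hE.2.2)⟩

/-- At most the probability of the event and `F`. -/
theorem NM_le {N : ℕ} {y : ℤ} (h0 : 0 ≤ y) (h1 : y ≤ N) (F : Finset ℕ → Prop) (C D : Cls)
    (B : Finset (ℕ × ℕ)) (A : Env → Finset ℕ → Prop) (M : ℝ) :
    NM μ s N y F C D B A M ≤ (P1 μ s N y (fun η S => A η S ∧ F S)).toReal := by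
  unfold NM
  refine ENNReal.toReal_mono (P1_ne_top h0 h1 _) (P1_mono fun η S _ hE => ?_)
  exact ⟨hE.1, hE.2.1⟩

/-- A ratio which is not small gives a near tie at some bracket. -/
theorem ntc_of_r {C D : Cls} {B : Finset (ℕ × ℕ)} {F : Finset ℕ → Prop} (h : Own D B F) (hB : ∀ b ∈ B, b.1 ≤ b.2) {S : Finset ℕ}
    (hS : F S) {M : ℝ} {η : Env} (hr : Real.exp (-M) ≤ rC μ s C D B S η) : NTc μ s C D B (M + Real.log #B) η S := by
  have hne : B.Nonempty := by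
    rcases B.eq_empty_or_nonempty with h1 | h1
    · exfalso
      subst h1
      unfold rC at hr
      rw [sum_empty] at hr
      exact (Real.exp_pos _).not_ge hr
    · exact h1
  have hN : (0 : ℝ) < #B := by exact_mod_cast hne.card_pos
  obtain ⟨b, hb, hmax⟩ := exists_le_of_sum_le (s := B) (f := fun _ => Real.exp (-M) / #B)
    (g := fun b => kC μ s C S b η / kC μ s D S b η) hne (by
      rw [sum_const, nsmul_eq_mul, mul_div_cancel₀ _ hN.ne']
      exact hr)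
  refine ⟨b, hb, ?_⟩
  have h1 := own_pos (μ := μ) (s := s) h hS hb (hB b hb) η
  have h2 : Real.exp (-(M + Real.log #B)) = Real.exp (-M) / #B := by
    rw [neg_add, Real.exp_add, Real.exp_neg (Real.log _), Real.exp_log hN, div_eq_mul_inv]
  rw [h2, ← le_div_iff₀ h1]
  exact hmax

theorem TM_le_NM {N : ℕ} {y : ℤ} (h0 : 0 ≤ y) (h1 : y ≤ N) {F : Finset ℕ → Prop} {C D : Cls} {B : Finset (ℕ × ℕ)}
    (hB : ∀ b ∈ B, b.1 ≤ b.2 ∧ b.2 ≤ N) (hF : Own D B F) (A : Env → Finset ℕ → Prop) (M : ℝ) :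
    TM μ s N y F C D B A M ≤ NM μ s N y F C D B A (M + Real.log #B) := by
  unfold TM NM
  refine ENNReal.toReal_mono (P1_ne_top h0 h1 _) (P1_mono fun η S _ hE => ?_)
  obtain ⟨hA, hFS, hAd, hr⟩ := hE
  refine ⟨hA, hFS, ntc_of_r hF (fun b hb => (hB b hb).1) hFS ?_⟩
  have h3 := rC_pos (μ := μ) (s := s) hF (fun b hb => (hB b hb).1) hFS hAd η
  rw [← Real.le_log_iff_exp_le h3]
  exact (abs_le.1 hr).1

theorem NM_le_TM {N : ℕ} {y : ℤ} (h0 : 0 ≤ y) (h1 : y ≤ N) {F : Finset ℕ → Prop} {C D : Cls} {B : Finset (ℕ × ℕ)}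
    (hB : ∀ b ∈ B, b.1 ≤ b.2 ∧ b.2 ≤ N) (hF : Own D B F) (A : Env → Finset ℕ → Prop) {M M' : ℝ} (h : M ≤ M') :
    NM μ s N y F C D B A M ≤ TM μ s N y F C D B A M' + #B * Real.exp (-M') := by
  have h2 := ntc_le (μ := μ) (s := s) h0 h1 (C := C) hB hF A h
  have h3 : 0 ≤ (#B : ℝ) * Real.exp (-M') := by positivity
  rw [← ENNReal.ofReal_add (TM_nonneg _ _ _ _ _ _ _ _) h3] at h2
  exact ENNReal.toReal_le_of_le_ofReal (add_nonneg (TM_nonneg _ _ _ _ _ _ _ _) h3) h2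

/-- **The step for near ties.** -/
theorem stepN {N : ℕ} {y : ℤ} (h0 : 0 ≤ y) (h1 : y ≤ N) {F : Finset ℕ → Prop} {C D : Cls} {B : Finset (ℕ × ℕ)}
    (hB : ∀ b ∈ B, b.1 ≤ b.2 ∧ b.2 ≤ N) (hF : Own D B F) {A : Env → Finset ℕ → Prop} {M M1 M2 κ er : ℝ} (hM : M ≤ M1)
    (hκ : 0 ≤ κ) (hst : TM μ s N y F C D B A M1 ≤ κ * TM μ s N y F C D B A M2 + er) :
    NM μ s N y F C D B A M ≤ κ * NM μ s N y F C D B A (M2 + Real.log #B) + (er + #B * Real.exp (-M1)) := by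
  have h2 := NM_le_TM (μ := μ) (s := s) h0 h1 (C := C) hB hF A hM
  have h3 := mul_le_mul_of_nonneg_left (TM_le_NM (μ := μ) (s := s) h0 h1 (C := C) hB hF A M2) hκ
  linarith

end

end Pool.Agent.W_7d29a1_HZ.Z15
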