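import Pool.Agent.W_7d29a1_HZ.TieA
import Pool.Agent.W_7d29a1_Z17.Swap17

/-!
MP_7d29a1_pr, HZ (STORM Z at the tilt `s`), leaf TIE: the swap sum. If the path `S` is left of the line at the rows `J`, the quenched
mean of the ratio of the two kernels (strip / left of the line) between two of its points is at most one.
(Model: `W_7d29a1_Z17.Swap17`.) (helper76)
-/

set_option autoImplicit false

namespace Pool.Agent.W_7d29a1_HZ.Z17

open Finset Pool.Agent.W_7d29a1_F Pool.Agent.W_7d29a1_X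
open Pool.Agent.W_7d29a1_Z (ps pw pcs Kf Kc Reg ps_inter ps_chain Kf_nonneg Kc_nonneg Kc_le_Kf W_eq_Kf)
open Pool.Agent.W_7d29a1_Z17 (pos_eq_ps swap_mid)

noncomputable section

variable {μ : MeasureTheory.Measure ℝ} {s : ℝ}

/-- The path is left of the line iff its middle piece is in the class. -/
theorem inL_iff {sg Y : ℤ} {J : Finset ℕ} {a b : ℕ} (hJ : ∀ i ∈ J, a < i ∧ i < b) (S : Finset ℕ) :
    InL μ s sg J Y S ↔ Reg (Lr μ s sg J Y) 0 a (pos S a) b (S ∩ Ico a b) := by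
  have hp : ∀ t, a ≤ t → t ≤ b → ps 0 a (pos S a) (S ∩ Ico a b) t = pos S t := by
    intro t h1 h2
    rw [ps_inter 0 a _ S h2, pos_eq_ps, pos_eq_ps, ps_chain 0 0 S (Nat.zero_le a) h1]
  constructor
  · intro h t ht
    rw [mem_Ioc] at ht
    rw [hp t ht.1.le ht.2]
    intro hJt
    have h1 : t ∈ J := by simpa using hJt
    exact h t h1
  · intro h i hi
    have h1 := hJ i hi
    have h2 := h i (mem_Ioc.2 ⟨h1.1, h1.2.le⟩)
    rw [hp i h1.1.le h1.2.le] at h2
    exact h2 (by simpa using hi)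

open scoped Classical in
/-- **THE SWAP SUM.** -/
theorem swap_sum (η : Env) {N : ℕ} {y : ℤ} {sg Y w : ℤ} {J : Finset ℕ} {a b : ℕ} (hab : a ≤ b) (hbN : b ≤ N)
    (hJ : ∀ i ∈ J, a < i ∧ i < b) :
    ∑ S ∈ (range N).powerset, (if InL μ s sg J Y S then
      gp μ s η N y S * (kr μ s (Rr μ s sg J Y w) η a b (pos S) / kr μ s (Lr μ s sg J Y) η a b (pos S)) else 0) ≤ 1 := by
  obtain ⟨Z, hZ⟩ : ∃ Z, Z = W μ s η 0 N y := ⟨_, rfl⟩
  have hZ' : Z = Kf μ s 0 η 0 0 N y := by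
    rw [hZ]
    have h1 := W_eq_Kf (μ := μ) (s := s) η 0 0 N y
    rw [zero_add, zero_add] at h1
    exact h1
  have hZ0 : 0 ≤ Z := by rw [hZ']; exact Kf_nonneg _ _ _ _ _ _
  have h1 := swap_mid (μ := μ) (s := s) η (y := y) hab hbN (fun u S' => Reg (Lr μ s sg J Y) 0 a u b S')
    (fun u v => Kc μ s 0 (Reg (Rr μ s sg J Y w) 0 a u b) η a u b v / Kc μ s 0 (Reg (Lr μ s sg J Y) 0 a u b) η a u b v) (fun u v => by
      have h2 := Kc_nonneg (μ := μ) (s := s) 0 (Reg (Lr μ s sg J Y) 0 a u b) η a u b v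
      have h3 := Kc_nonneg (μ := μ) (s := s) 0 (Reg (Rr μ s sg J Y w) 0 a u b) η a u b v
      have h4 := Kc_le_Kf (μ := μ) (s := s) 0 (Reg (Rr μ s sg J Y w) 0 a u b) η a u b v
      rcases h2.eq_or_lt with h5 | h5
      · rw [← h5, mul_zero]
        exact h3.trans h4
      · rw [div_mul_cancel₀ _ h5.ne']
        exact h4)
  rw [← hZ'] at h1
  have h6 : ∑ S ∈ (range N).powerset, (if InL μ s sg J Y S then
      gp μ s η N y S * (kr μ s (Rr μ s sg J Y w) η a b (pos S) / kr μ s (Lr μ s sg J Y) η a b (pos S)) else 0) =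
      (∑ S ∈ (range N).powerset, (if pos S N = y ∧ Reg (Lr μ s sg J Y) 0 a (pos S a) b (S ∩ Ico a b) then
        pth μ s η N S * (Kc μ s 0 (Reg (Rr μ s sg J Y w) 0 a (pos S a) b) η a (pos S a) b (pos S b) /
          Kc μ s 0 (Reg (Lr μ s sg J Y) 0 a (pos S a) b) η a (pos S a) b (pos S b)) else 0)) / Z := by
    rw [sum_div]
    refine sum_congr rfl fun S _ => ?_
    rw [inL_iff hJ, kr_eq _ η hab, kr_eq _ η hab]
    unfold gp
    rw [← hZ]
    by_cases h7 : pos S N = y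
    · by_cases h8 : Reg (Lr μ s sg J Y) 0 a (pos S a) b (S ∩ Ico a b)
      · rw [if_pos h8, if_pos h7, if_pos ⟨h7, h8⟩]
        ring
      · rw [if_neg h8, if_neg (fun h => h8 h.2), zero_div]
    · have h9 : ¬ (pos S N = y ∧ Reg (Lr μ s sg J Y) 0 a (pos S a) b (S ∩ Ico a b)) := fun h => h7 h.1
      rw [if_neg h9, if_neg h7, zero_mul, zero_div, ite_self]
  rw [h6]
  exact (div_le_div_of_nonneg_right h1 hZ0).trans (div_self_le_one Z)

end

end Pool.Agent.W_7d29a1_HZ.Z17
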