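import Pool.Agent.W_7d29a1_HZ.Z21_Top
import Pool.Agent.W_7d29a1_HS.SubHalf4

/-!
STORM Z AT ONE TILT, Lemma NS: the deterministic theorem: a typical path in a regular environment has no steep places (model:
`W_7d29a1_Z21.Det`).
-/

set_option autoImplicit false

namespace Pool.Agent.W_7d29a1_HZ.Z21

open MeasureTheory ProbabilityTheory Filter Topology
open Pool.Agent.W_7d29a1_F Pool.Agent.W_7d29a1_h4g Pool.Agent.W_7d29a1_H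
open Pool.Agent.W_7d29a1_HS (In wd sub_half)
open Pool.Agent.W_7d29a1_Z21 (Typ21)
open Pool.Agent.W_7d29a1_HZ (wd')

variable {μ : Measure ℝ} [IsProbabilityMeasure μ] {s c C : ℝ} {n₀ : ℕ}

/-- The units are small against the time. -/
theorem small21 (h : In μ s c C n₀) {c₂ : ℝ} (hc₂ : 0 < c₂) {Λ₃ : ℝ} (hΛ₃ : 0 < Λ₃) : ∃ K : ℝ, 1 ≤ K ∧ ∀ Q : ℝ, 1 ≤ Q →
    ∃ n₃ : ℕ, (n₃ : ℝ) ≤ K * Q ^ 2 ∧ ∀ n : ℕ, n₃ ≤ n → 1 ≤ n → Λ₃ * Q * EE μ s n < c₂ * n := by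
  obtain ⟨A, hA, n₂, hn₂, hsub⟩ := sub_half h
  have hn₂0 : (0 : ℝ) < n₂ := by exact_mod_cast hn₂
  have hE2 := EE_pos (μ := μ) (s := s) n₂
  obtain ⟨B, hB⟩ : ∃ B : ℝ, B = Λ₃ ^ 2 * (A * EE μ s n₂ ^ 2 / n₂) / c₂ ^ 2 := ⟨_, rfl⟩
  have hB0 : 0 < B := by rw [hB]; positivity
  refine ⟨B + n₂ + 2, by linarith, fun Q hQ => ⟨⌈B * Q ^ 2⌉₊ + 1 + n₂, ?_, fun n hn hn1 => ?_⟩⟩
  · have h1 : (⌈B * Q ^ 2⌉₊ : ℝ) ≤ B * Q ^ 2 + 1 := (Nat.ceil_lt_add_one (by positivity)).le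
    have h2 : (1 : ℝ) ≤ Q ^ 2 := one_le_pow₀ hQ
    push_cast
    nlinarith
  · have hn2 : n₂ ≤ n := by omega
    have h1 := hsub n₂ n le_rfl hn2
    have hn0 : (0 : ℝ) < n := by exact_mod_cast hn1
    have h3 : B * Q ^ 2 < n := by
      have h4 : B * Q ^ 2 ≤ ⌈B * Q ^ 2⌉₊ := Nat.le_ceil _
      have h5 : ((⌈B * Q ^ 2⌉₊ + 1 : ℕ) : ℝ) ≤ n := by exact_mod_cast (by omega : ⌈B * Q ^ 2⌉₊ + 1 ≤ n)
      push_cast at h5
      linarith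
    have hEn := EE_pos (μ := μ) (s := s) n
    have h6 : (Λ₃ * Q * EE μ s n) ^ 2 < (c₂ * n) ^ 2 := by
      calc (Λ₃ * Q * EE μ s n) ^ 2 = Λ₃ ^ 2 * Q ^ 2 * EE μ s n ^ 2 := by ring
        _ ≤ Λ₃ ^ 2 * Q ^ 2 * (A * (n / n₂) * EE μ s n₂ ^ 2) := mul_le_mul_of_nonneg_left h1 (by positivity)
        _ = c₂ ^ 2 * n * (B * Q ^ 2) := by
          rw [hB]
          field_simp
        _ < c₂ ^ 2 * n * n := mul_lt_mul_of_pos_left h3 (by positivity)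
        _ = _ := by ring
    exact lt_of_pow_lt_pow_left₀ 2 (by positivity) h6

/-- From the energy to the width, both signs. -/
theorem width21 (h : In μ s c C n₀) {B : ℝ} (hB : 1 ≤ B) {n : ℕ} (hn : 1 ≤ n) {x : ℝ} (hJ : n * J μ s (x / n) ≤ B * EE μ s n) :
    |x| ≤ B * wd' μ s n := by
  have hw2 : wd μ s n ≤ wd' μ s n := le_max_right _ _
  have hn0 : (0 : ℝ) < n := by exact_mod_cast hn
  have hv0 := h.vA_pos hn
  have hE := EE_pos (μ := μ) (s := s) n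
  have h2 : |x / n| ≤ B * vA 1 μ s n := by
    by_contra hcon
    push Not at hcon
    have h1 : vA 1 μ s n ≤ |x / n| := (le_mul_of_one_le_left hv0.le hB).trans hcon.le
    have h3 := h.lev_mul_le_J hn h1
    have h4 : B < |x / n| / vA 1 μ s n := by
      rw [lt_div_iff₀ hv0]
      exact hcon
    have h5 : EE μ s n * (|x / n| / vA 1 μ s n) ≤ B * EE μ s n := by
      calc EE μ s n * (|x / n| / vA 1 μ s n) = n * (EE μ s n / n * (|x / n| / vA 1 μ s n)) := by field_simp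
        _ ≤ n * J μ s (x / n) := mul_le_mul_of_nonneg_left h3 hn0.le
        _ ≤ _ := hJ
    have h6 : EE μ s n * B < EE μ s n * (|x / n| / vA 1 μ s n) := mul_lt_mul_of_pos_left h4 hE
    linarith
  rw [abs_div, abs_of_pos hn0, div_le_iff₀ hn0] at h2
  have h3 : B * vA 1 μ s n * n = B * wd μ s n := by unfold Pool.Agent.W_7d29a1_HS.wd; ring
  rw [h3] at h2
  exact h2.trans (mul_le_mul_of_nonneg_left hw2 (by linarith))

/-- **The deterministic theorem.** -/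
theorem det21 (h : In μ s c C n₀) {b b' : ℝ} (hb0 : 0 < b) (hb0' : 0 < b') : ∃ (g d g' d' : ℝ), 0 < g ∧ 4 * g ≤ c ∧ 0 < d ∧
    0 < g' ∧ 4 * g' ≤ c ∧ 0 < d' ∧ ∀ n₁ n₁' : ℕ, ∃ v₁ v₁' : ℝ, 0 < v₁ ∧ 0 < v₁' ∧ ∀ v₀ v₀' : ℝ, 0 < v₀ → v₀ ≤ v₁ → 0 < v₀' →
    v₀' ≤ v₁' → ∃ K : ℝ, 1 ≤ K ∧ ∀ Q : ℝ, 1 ≤ Q → ∀ (N : ℕ) (η : Env) (P : ℕ → ℤ),
    Env4 μ s c b Q d g v₀ n₁ b' d' g' v₀' n₁' N η → Typ21 μ Q N η P → Pa21 N P → (∀ i, i ≤ N → 0 ≤ P i ∧ P i ≤ i) →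
    X μ s η ((0 : ℤ), (0 : ℤ)) N (P N) ≤ Q * EE μ s N →
    ∀ i n : ℕ, 1 ≤ n → i + n ≤ N → |((P (i + n) - P i : ℤ) : ℝ) - sl μ s * n| ≤ K * Q ^ 2 * wd' μ s n := by
  obtain ⟨g, d, T, hg, hgc, hd, hT, hstep⟩ := step21 h hb0
  obtain ⟨g', d', T', hg', hgc', hd', hT', hstep'⟩ := step21 h.mir hb0'
  refine ⟨g, d, g', d', hg, hgc, hd, hg', hgc', hd', fun n₁ n₁' => ?_⟩
  obtain ⟨v₁, hv₁, hv₁h, hst⟩ := hstep n₁
  obtain ⟨v₁', hv₁', hv₁h', hst'⟩ := hstep' n₁'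
  refine ⟨v₁, v₁', hv₁, hv₁', fun v₀ v₀' hv₀ hv₀1 hv₀' hv₀1' => ?_⟩
  obtain ⟨c₂, Λ, hc₂, hΛ, hS⟩ := hst v₀ hv₀ hv₀1
  obtain ⟨c₂', Λ', hc₂', hΛ', hS'⟩ := hst' v₀' hv₀' hv₀1'
  obtain ⟨Λt, hΛt, htop⟩ := top21 h hb0 hv₀ hb0' hv₀' (max T T') (by omega)
  obtain ⟨Λ₃, hΛ₃⟩ : ∃ Λ₃ : ℝ, Λ₃ = max Λ Λ' + Λt := ⟨_, rfl⟩
  have hΛm : 1 ≤ max Λ Λ' := hΛ.trans (le_max_left _ _)
  have hΛ₃0 : 0 < Λ₃ := by linarith
  have hc₂m : 0 < min c₂ c₂' := lt_min hc₂ hc₂'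
  obtain ⟨K₃, hK₃, hsm⟩ := small21 h hc₂m hΛ₃0
  obtain ⟨B, hB⟩ : ∃ B : ℝ, B = Λ₃ + K₃ + 1 := ⟨_, rfl⟩
  have hB1 : 1 ≤ B := by linarith
  refine ⟨B, hB1, fun Q hQ N η P hE hty hP h0 hX i n hn hin => ?_⟩
  obtain ⟨n₃, hn₃, hn₃'⟩ := hsm Q hQ
  have hQ2 : 1 ≤ Q ^ 2 := one_le_pow₀ hQ
  have hEn := one_le_EE (μ := μ) (s := s) n
  have hn0 : (0 : ℝ) < n := by exact_mod_cast hn
  have hle := hP.le i n hin
  have hph : ph21 μ s n (P (i + n) - P i) ≤ B * Q ^ 2 * EE μ s n := by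
    rcases le_or_gt n₃ n with h1 | h1
    · have h2 := iter21 h (Λ₀ := Λ₃ * Q) hS hT hS' hT' hQ hE hty hP h0 (by positivity)
        (mul_le_mul_of_nonneg_right (by linarith) (by linarith)) (fun i' n' hn' hin' hN' => by
          have h3 := htop d g n₁ d' g' n₁' Q hQ N η P hE.e1 hE.e2 hty hP h0 hX i' n' hn' hin' hN'
          have h4 : Λt * Q * EE μ s n' < Λ₃ * Q * EE μ s n' := by
            have := EE_pos (μ := μ) (s := s) n'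
            exact mul_lt_mul_of_pos_right (mul_lt_mul_of_pos_right (by linarith) (by linarith)) this
          linarith) (n₃ := n₃) hn₃' i n h1 hn hin
      have h3 : Λ₃ * Q ≤ B * Q ^ 2 := by
        have h4 : Λ₃ * Q ≤ B * Q := mul_le_mul_of_nonneg_right (by linarith) (by linarith)
        have h5 : B * Q ≤ B * Q ^ 2 := mul_le_mul_of_nonneg_left (by nlinarith) (by linarith)
        linarith
      exact h2.le.trans (mul_le_mul_of_nonneg_right h3 (by linarith))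
    · have h2 : (n : ℝ) ≤ K₃ * Q ^ 2 := by
        have : (n : ℝ) ≤ n₃ := by exact_mod_cast h1.le
        linarith
      have h3 : |(((P (i + n) - P i : ℤ) : ℝ) - sl μ s * n) / n| ≤ 1 := by
        rw [abs_div, abs_of_pos hn0, div_le_iff₀ hn0, abs_le]
        have h1 : (0 : ℝ) ≤ ((P (i + n) - P i : ℤ) : ℝ) := by
          exact_mod_cast (by omega : 0 ≤ P (i + n) - P i)
        have h2 : ((P (i + n) - P i : ℤ) : ℝ) ≤ n := by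
          exact_mod_cast (by omega : P (i + n) - P i ≤ n)
        have h4 := mul_pos h.sl_pos hn0
        have h5 : sl μ s * n ≤ 1 * n := mul_le_mul_of_nonneg_right h.sl_lt.le hn0.le
        constructor <;> linarith
      unfold ph21
      have h4 := J_le_abs h.em h.nd s ((((P (i + n) - P i : ℤ) : ℝ) - sl μ s * n) / n)
      calc (n : ℝ) * J μ s ((((P (i + n) - P i : ℤ) : ℝ) - sl μ s * n) / n) ≤ (K₃ * Q ^ 2) * 1 :=
            mul_le_mul h2 (h4.trans h3) (h.rf.nn _) (by positivity)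
        _ = K₃ * Q ^ 2 * 1 := by ring
        _ ≤ B * Q ^ 2 * EE μ s n := by
          refine mul_le_mul (mul_le_mul_of_nonneg_right (by linarith) (by positivity)) hEn zero_le_one (by positivity)
  exact width21 h (by nlinarith) hn hph

end Pool.Agent.W_7d29a1_HZ.Z21
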