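import Pool.Agent.W_7d29a1_HZ.Z21_Def
import Pool.Agent.W_7d29a1_Z21.Refl
import Pool.Agent.W_7d29a1_HS.Mir14

/-!
STORM Z AT ONE TILT, Lemma NS: reflected and reversed environments and paths (model: `W_7d29a1_Z21.Refl`). The typical paths do not
depend on the tilt; the mirror image of the tilt `s` is the tilt `-s`.
-/

set_option autoImplicit false

namespace Pool.Agent.W_7d29a1_HZ.Z21

open MeasureTheory ProbabilityTheory Filter Topology
open Pool.Agent.W_7d29a1_F Pool.Agent.W_7d29a1_h4g Pool.Agent.W_7d29a1_H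
open Pool.Agent.W_7d29a1_HS (In wd)
open Pool.Agent.W_7d29a1_Z21 (Typ21 typ_rho21 typ_rv21)
open Pool.Agent.W_7d29a1_SL (rho)
open Pool.Agent.W_7d29a1_g (rv)

variable {μ : Measure ℝ} {s : ℝ}

theorem rho_mir21 (η : Env) : rho 0 η = mir η := by
  funext p
  unfold rho mir phiM
  rw [add_zero]

theorem typ_mir21 [IsProbabilityMeasure μ] {Q : ℝ} {N : ℕ} {η : Env} {P : ℕ → ℤ} (h : Typ21 μ Q N η P) :
    Typ21 μ Q N (mir η) fun i => i - P i := by
  rw [← rho_mir21]
  exact typ_rho21 h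

/-- Change of the tilt. -/
theorem W_s0_21 (s : ℝ) (η : Env) (a : Pt) (n : ℕ) (y : ℤ) :
    W μ s η a n y = Real.exp (s * y - n * (lam μ s - lam μ 0)) * W μ 0 η a n y := by
  unfold W WR
  rw [← mul_assoc, ← Real.exp_add]
  congr 2
  ring

/-- The typicality inequality at the tilt `s`. -/
theorem typ_s21 {Q : ℝ} {N : ℕ} {η : Env} {P : ℕ → ℤ} (h : Typ21 μ Q N η P) (s : ℝ) {i n m : ℕ} (hN : i + n + m ≤ N) {k : ℤ}
    (h0 : 0 ≤ k) (h1 : k ≤ n) :
    W μ s η ((i : ℤ), P i) n k * W μ s η ((i : ℤ) + n, P i + k) m (P (i + n + m) - P i - k) ≤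
      Real.exp Q * (W μ s η ((i : ℤ), P i) n (P (i + n) - P i) *
        W μ s η ((i : ℤ) + n, P (i + n)) m (P (i + n + m) - P (i + n))) := by
  have h2 := h i n m hN k h0 h1
  rw [W_s0_21 s η _ n k, W_s0_21 s η _ m, W_s0_21 s η _ n (P (i + n) - P i), W_s0_21 s η _ m (P (i + n + m) - P (i + n))]
  have e : ∀ a b : ℤ, a + b = P (i + n + m) - P i →
      Real.exp (s * a - n * (lam μ s - lam μ 0)) * Real.exp (s * b - m * (lam μ s - lam μ 0)) =
        Real.exp (s * ((P (i + n + m) - P i : ℤ) : ℝ) - (n + m) * (lam μ s - lam μ 0)) := by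
    intro a b hab
    rw [← Real.exp_add, ← hab]
    congr 1
    push_cast
    ring
  have e1 := e k (P (i + n + m) - P i - k) (by ring)
  have e2 := e (P (i + n) - P i) (P (i + n + m) - P (i + n)) (by ring)
  obtain ⟨F, hF⟩ : ∃ F : ℝ, F = Real.exp (s * ((P (i + n + m) - P i : ℤ) : ℝ) - (n + m) * (lam μ s - lam μ 0)) := ⟨_, rfl⟩
  rw [← hF] at e1 e2
  have hF0 : 0 ≤ F := hF ▸ (Real.exp_pos _).le
  have h3 := mul_le_mul_of_nonneg_left h2 hF0
  refine le_trans (le_of_eq ?_) (h3.trans (le_of_eq ?_))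
  · rw [← e1]
    ring
  · rw [← e2]
    ring

variable [IsProbabilityMeasure μ]

section mir

variable (hEM : Pool.Agent.W_7d29a1_h47.EM μ) (s : ℝ)

include hEM

theorem W_mir21 (η : Env) (t x : ℤ) (n : ℕ) (y : ℤ) :
    W μ (-s) (mir η) (t, x) n y = W μ s η (t, t - x) n (n - y) := by
  have h := W_mir hEM s η (t, t - x) n (n - y)
  have e1 : phiM ((t, t - x) : Pt) = (t, x) := by
    unfold phiM
    ext
    · rfl
    · show t - (t - x) = x
      ring
  have e2 : (n : ℤ) - (n - y) = y := by ring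
  rwa [e1, e2] at h

theorem X_mir21 (η : Env) (t x : ℤ) (n : ℕ) (y : ℤ) :
    X μ (-s) (mir η) (t, x) n y = X μ s η (t, t - x) n (n - y) := by
  unfold X
  rw [W_mir21 hEM]

theorem ph_mir21 (hnd : Pool.Agent.W_7d29a1_h47.Nondeg μ) {n : ℕ} (hn : 1 ≤ n) (y : ℤ) :
    ph21 μ (-s) n (n - y) = ph21 μ s n y := by
  unfold ph21
  rw [J_mir hEM s hnd, sl_mir hEM s hnd]
  have hn0 : (n : ℝ) ≠ 0 := by
    have : (1 : ℝ) ≤ n := by exact_mod_cast hn
    linarith
  congr 2
  push_cast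
  rw [← neg_div]
  congr 1
  ring

/-- The right hand side of the mirror image is the left hand side. -/
theorem side_mir21 (hnd : Pool.Agent.W_7d29a1_h47.Nondeg μ) {n : ℕ} {y : ℤ} :
    sl μ (-s) * n < ((n - y : ℤ) : ℝ) ↔ (y : ℝ) < sl μ s * n := by
  rw [sl_mir hEM s hnd]
  push_cast
  constructor <;> intro h <;> linarith

end mir

end Pool.Agent.W_7d29a1_HZ.Z21
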