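import Pool.Agent.W_7d29a1_HZ.Z21_Step
import Pool.Agent.W_7d29a1_HZ.Z21_Refl

/-!
STORM Z AT ONE TILT, Lemma NS: the growth in all directions and the iteration up to the top scale (model: `W_7d29a1_Z21.Iter`). The
displacements to the left are those to the right of the mirror image, which has the tilt `-s`; the two sides have their own constants.
-/

set_option autoImplicit false

namespace Pool.Agent.W_7d29a1_HZ.Z21

open MeasureTheory ProbabilityTheory Filter Topology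
open Pool.Agent.W_7d29a1_F Pool.Agent.W_7d29a1_h4g Pool.Agent.W_7d29a1_H
open Pool.Agent.W_7d29a1_HS (In wd)
open Pool.Agent.W_7d29a1_Z21 (Typ21 typ_rv21)
open Pool.Agent.W_7d29a1_g (rv)

/-- A path up to the time `N`. -/
structure Pa21 (N : ℕ) (P : ℕ → ℤ) : Prop where
  st : ∀ i, i < N → P i ≤ P (i + 1) ∧ P (i + 1) ≤ P i + 1
  bx : ∀ i, i ≤ N → |P i| ≤ 2 * N

theorem Pa21.le {N : ℕ} {P : ℕ → ℤ} (h : Pa21 N P) (i n : ℕ) (hN : i + n ≤ N) : P i ≤ P (i + n) ∧ P (i + n) ≤ P i + n := by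
  induction n with
  | zero => simp
  | succ n ih =>
    have h1 := ih (by omega)
    have h2 := h.st (i + n) (by omega)
    rw [← add_assoc]
    push_cast
    omega

theorem Pa21.rho {N : ℕ} {P : ℕ → ℤ} (h : Pa21 N P) (hb : ∀ i, i ≤ N → |(i : ℤ) - P i| ≤ 2 * N) :
    Pa21 N fun i => i - P i where
  st := fun i hi => by
    have := h.st i hi
    push_cast
    omega
  bx := hb

theorem Pa21.rv {N : ℕ} {P : ℕ → ℤ} (h : Pa21 N P) : Pa21 N fun i => -P (N - i) where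
  st := fun i hi => by
    have h1 := h.st (N - (i + 1)) (by omega)
    have e : N - (i + 1) + 1 = N - i := by omega
    rw [e] at h1
    omega
  bx := fun i _ => by
    rw [abs_neg]
    exact h.bx (N - i) (by omega)

variable {μ : Measure ℝ} [IsProbabilityMeasure μ] {s c C : ℝ} {n₀ : ℕ}

omit [IsProbabilityMeasure μ] in
/-- Growth to the right, forward. -/
theorem fwd21 {b Q d g v₀ c₂ Λ : ℝ} {n₁ T N : ℕ} {η : Env} {P : ℕ → ℤ} (hS : Stp21 μ s c b d g v₀ c₂ Λ n₁ T) (hT : 2 ≤ T)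
    (hQ : 1 ≤ Q) (hE : Env21 μ s c b Q d g v₀ n₁ N η) (hty : Typ21 μ Q N η P) (hP : Pa21 N P) {i n : ℕ} (hn : 1 ≤ n)
    (hi : i + T * n ≤ N) (hD : sl μ s * n < ((P (i + n) - P i : ℤ) : ℝ)) (hb : Λ * Q * EE μ s n ≤ ph21 μ s n (P (i + n) - P i)) :
    2 * ph21 μ s n (P (i + n) - P i) * EE μ s (T * n) ≤ ph21 μ s (T * n) (P (i + T * n) - P i) * EE μ s n ∨
      c₂ * (T * n : ℕ) ≤ ph21 μ s (T * n) (P (i + T * n) - P i) := by
  have e1 : i + n + (T - 1) * n = i + T * n := by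
    obtain ⟨T', rfl⟩ : ∃ T', T = T' + 1 := ⟨T - 1, by omega⟩
    rw [Nat.add_sub_cancel]
    ring
  have hle1 := hP.le i n (by omega)
  have hle2 := hP.le (i + n) ((T - 1) * n) (by omega)
  rw [e1] at hle2
  have hty' : ∀ k : ℤ, 0 ≤ k → k ≤ n → _ := fun k h0 h1 => typ_s21 hty s (i := i) (n := n) (m := (T - 1) * n) (by omega) h0 h1
  rw [e1] at hty'
  have e2 : P (i + T * n) - P i = (P (i + n) - P i) + (P (i + T * n) - P (i + n)) := by ring
  have e3 : P i + (P (i + n) - P i) = P (i + n) := by ring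
  rw [e2]
  refine hS Q hQ N η hE i (P i) n (P (i + n) - P i) (P (i + T * n) - P (i + n)) (by omega) (by push_cast at hi ⊢; exact_mod_cast hi)
    (hP.bx i (by omega)) hn (by omega) (by omega) (by omega) hD ?_ hb
  intro k hk0 hk1
  have h1 := hty' k hk0 hk1
  rw [e3, ← e2]
  exact h1

/-- The regular environments: also the reflected and the reversed environment. The constants of the left hand side (tilt `-s`) are
`b'`, `d'`, `g'`, `v₀'`, `n₁'`. -/
structure Env4 (μ : Measure ℝ) (s c b Q d g v₀ : ℝ) (n₁ : ℕ) (b' d' g' v₀' : ℝ) (n₁' N : ℕ) (η : Env) : Prop where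
  e1 : Env21 μ s c b Q d g v₀ n₁ N η
  e2 : Env21 μ (-s) c b' Q d' g' v₀' n₁' N (mir η)
  e3 : Env21 μ s c b Q d g v₀ n₁ N (rv ((N : ℤ), 0) η)
  e4 : Env21 μ (-s) c b' Q d' g' v₀' n₁' N (mir (rv ((N : ℤ), 0) η))

/-- The growth of the interval of length `n` by the factor `T`. -/
def Gr21 (μ : Measure ℝ) (s c₂ : ℝ) (n T : ℕ) (y y' : ℤ) : Prop :=
  2 * ph21 μ s n y * EE μ s (T * n) ≤ ph21 μ s (T * n) y' * EE μ s n ∨ c₂ * (T * n : ℕ) ≤ ph21 μ s (T * n) y'

/-- Growth forward, to the right (factor `T`) or to the left (factor `T'`). -/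
theorem fwd2 (h : In μ s c C n₀) {b Q d g v₀ c₂ Λ b' d' g' v₀' c₂' Λ' : ℝ} {n₁ T n₁' T' N : ℕ} {η : Env} {P : ℕ → ℤ}
    (hS : Stp21 μ s c b d g v₀ c₂ Λ n₁ T) (hT : 2 ≤ T) (hS' : Stp21 μ (-s) c b' d' g' v₀' c₂' Λ' n₁' T') (hT' : 2 ≤ T')
    (hQ : 1 ≤ Q) (hE : Env21 μ s c b Q d g v₀ n₁ N η) (hE' : Env21 μ (-s) c b' Q d' g' v₀' n₁' N (mir η)) (hty : Typ21 μ Q N η P)
    (hP : Pa21 N P) (hb' : ∀ i, i ≤ N → |(i : ℤ) - P i| ≤ 2 * N) {i n : ℕ} (hn : 1 ≤ n)
    (hi : i + T * n ≤ N) (hi' : i + T' * n ≤ N) (hD : sl μ s * n ≠ ((P (i + n) - P i : ℤ) : ℝ))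
    (hb : max Λ Λ' * Q * EE μ s n ≤ ph21 μ s n (P (i + n) - P i)) :
    Gr21 μ s (min c₂ c₂') n T (P (i + n) - P i) (P (i + T * n) - P i) ∨
      Gr21 μ s (min c₂ c₂') n T' (P (i + n) - P i) (P (i + T' * n) - P i) := by
  have hEn := EE_pos (μ := μ) (s := s) n
  have hmul : ∀ x : ℝ, x ≤ max Λ Λ' → x * Q * EE μ s n ≤ ph21 μ s n (P (i + n) - P i) := fun x hx =>
    (mul_le_mul_of_nonneg_right (mul_le_mul_of_nonneg_right hx (by linarith)) hEn.le).trans hb
  rcases lt_or_gt_of_ne hD with h1 | h1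
  · left
    rcases fwd21 hS hT hQ hE hty hP hn hi h1 (hmul Λ (le_max_left _ _)) with h2 | h2
    · exact Or.inl h2
    · exact Or.inr ((mul_le_mul_of_nonneg_right (min_le_left _ _) (Nat.cast_nonneg _)).trans h2)
  · right
    have h2 := typ_mir21 hty
    have h3 := hP.rho hb'
    have e : ∀ m : ℕ, ((i + m : ℕ) : ℤ) - P (i + m) - ((i : ℤ) - P i) = m - (P (i + m) - P i) := fun m => by
      push_cast
      ring
    have hTn : 1 ≤ T' * n := Nat.mul_pos (by omega) hn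
    have h4 := fwd21 hS' hT' hQ hE' h2 h3 (i := i) (n := n) hn hi' (by
      rw [e n, side_mir21 h.em s h.nd]
      exact h1) (by
      rw [e n, ph_mir21 h.em s h.nd hn, EE_mir h.em]
      exact hmul Λ' (le_max_right _ _))
    rw [e n, e (T' * n), ph_mir21 h.em s h.nd hn, ph_mir21 h.em s h.nd hTn, EE_mir h.em, EE_mir h.em] at h4
    rcases h4 with h5 | h5
    · exact Or.inl h5
    · exact Or.inr ((mul_le_mul_of_nonneg_right (min_le_right _ _) (Nat.cast_nonneg _)).trans h5)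

/-- Growth in some direction of time. -/
theorem grow21 (h : In μ s c C n₀) {b Q d g v₀ c₂ Λ b' d' g' v₀' c₂' Λ' : ℝ} {n₁ T n₁' T' N : ℕ} {η : Env} {P : ℕ → ℤ}
    (hS : Stp21 μ s c b d g v₀ c₂ Λ n₁ T) (hT : 2 ≤ T) (hS' : Stp21 μ (-s) c b' d' g' v₀' c₂' Λ' n₁' T') (hT' : 2 ≤ T')
    (hQ : 1 ≤ Q) (hE : Env4 μ s c b Q d g v₀ n₁ b' d' g' v₀' n₁' N η) (hty : Typ21 μ Q N η P) (hP : Pa21 N P)
    (h0 : ∀ i, i ≤ N → 0 ≤ P i ∧ P i ≤ i) {i n : ℕ} (hn : 1 ≤ n) (hi : i + n ≤ N) (hTn : 2 * (T * n) ≤ N) (hTn' : 2 * (T' * n) ≤ N)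
    (hD : sl μ s * n ≠ ((P (i + n) - P i : ℤ) : ℝ)) (hb : max Λ Λ' * Q * EE μ s n ≤ ph21 μ s n (P (i + n) - P i)) :
    ∃ U j : ℕ, 2 ≤ U ∧ j + U * n ≤ N ∧ Gr21 μ s (min c₂ c₂') n U (P (i + n) - P i) (P (j + U * n) - P j) := by
  have hTT : ∀ U : ℕ, U = T ∨ U = T' → 2 ≤ U ∧ 2 * (U * n) ≤ N := by
    rintro U (rfl | rfl)
    · exact ⟨hT, hTn⟩
    · exact ⟨hT', hTn'⟩
  rcases le_or_gt (i + max T T' * n) N with h1 | h1
  · have hm1 : T * n ≤ max T T' * n := Nat.mul_le_mul_right n (le_max_left _ _)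
    have hm2 : T' * n ≤ max T T' * n := Nat.mul_le_mul_right n (le_max_right _ _)
    rcases fwd2 h hS hT hS' hT' hQ hE.e1 hE.e2 hty hP (fun k hk => by
      have := h0 k hk
      rw [abs_le]
      constructor <;> omega) hn (by omega) (by omega) hD hb with h2 | h2
    · exact ⟨T, i, hT, by omega, h2⟩
    · exact ⟨T', i, hT', by omega, h2⟩
  · have hmax : max T T' = T ∨ max T T' = T' := max_choice T T'
    obtain ⟨hM2, hMN⟩ := hTT _ hmax
    have hnT : n ≤ T * n := Nat.le_mul_of_pos_left n (by omega)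
    have hnT' : n ≤ T' * n := Nat.le_mul_of_pos_left n (by omega)
    have hm1 : T * n ≤ max T T' * n := Nat.mul_le_mul_right n (le_max_left _ _)
    have hm2 : T' * n ≤ max T T' * n := Nat.mul_le_mul_right n (le_max_right _ _)
    have hi2 : max T T' * n ≤ i + n := by
      have : n ≤ max T T' * n := hnT.trans hm1
      omega
    obtain ⟨i', hi'⟩ : ∃ i' : ℕ, i' = N - (i + n) := ⟨_, rfl⟩
    have e0 : N - i' = i + n := by omega
    have e1 : N - (i' + n) = i := by omega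
    have e : -P i - -P (i + n) = P (i + n) - P i := by ring
    have h2 := fwd2 h hS hT hS' hT' hQ hE.e3 hE.e4 (typ_rv21 hty) hP.rv (fun k hk => by
      have := h0 (N - k) (by omega)
      rw [abs_le]
      constructor <;> omega) (i := i') (n := n) hn (by omega) (by omega) (by
        simp only [e0, e1]
        rw [e]
        exact hD) (by
        simp only [e0, e1]
        rw [e]
        exact hb)
    simp only [e0, e1] at h2
    rw [e] at h2
    have key : ∀ U : ℕ, 2 ≤ U → U * n ≤ max T T' * n →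
        Gr21 μ s (min c₂ c₂') n U (P (i + n) - P i) (-P (N - (i' + U * n)) - -P (i + n)) →
        ∃ U j : ℕ, 2 ≤ U ∧ j + U * n ≤ N ∧ Gr21 μ s (min c₂ c₂') n U (P (i + n) - P i) (P (j + U * n) - P j) := by
      intro U hU hUn h3
      refine ⟨U, i + n - U * n, hU, by omega, ?_⟩
      have e2 : N - (i' + U * n) = i + n - U * n := by omega
      have e3 : i + n - U * n + U * n = i + n := by omega
      have e' : -P (i + n - U * n) - -P (i + n) = P (i + n) - P (i + n - U * n) := by ring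
      rw [e2, e'] at h3
      rw [e3]
      exact h3
    rcases h2 with h3 | h3
    · exact key T hT hm1 h3
    · exact key T' hT' hm2 h3

/-- **THE ITERATION.** -/
theorem iter21 (h : In μ s c C n₀) {b Q d g v₀ c₂ Λ b' d' g' v₀' c₂' Λ' Λ₀ : ℝ} {n₁ T n₁' T' N : ℕ} {η : Env} {P : ℕ → ℤ}
    (hS : Stp21 μ s c b d g v₀ c₂ Λ n₁ T) (hT : 2 ≤ T) (hS' : Stp21 μ (-s) c b' d' g' v₀' c₂' Λ' n₁' T') (hT' : 2 ≤ T')
    (hQ : 1 ≤ Q) (hE : Env4 μ s c b Q d g v₀ n₁ b' d' g' v₀' n₁' N η) (hty : Typ21 μ Q N η P) (hP : Pa21 N P)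
    (h0 : ∀ i, i ≤ N → 0 ≤ P i ∧ P i ≤ i) (hΛ0 : 0 < Λ₀) (hΛ : max Λ Λ' * Q ≤ Λ₀)
    (htop : ∀ i n : ℕ, 1 ≤ n → i + n ≤ N → N < 2 * (max T T' * n) → ph21 μ s n (P (i + n) - P i) < Λ₀ * EE μ s n)
    {n₃ : ℕ} (hn₃ : ∀ n : ℕ, n₃ ≤ n → 1 ≤ n → Λ₀ * EE μ s n < min c₂ c₂' * n) :
    ∀ i n : ℕ, n₃ ≤ n → 1 ≤ n → i + n ≤ N → ph21 μ s n (P (i + n) - P i) < Λ₀ * EE μ s n := by
  have key : ∀ k : ℕ, ∀ i n : ℕ, N ≤ n + k → n₃ ≤ n → 1 ≤ n → i + n ≤ N → ph21 μ s n (P (i + n) - P i) < Λ₀ * EE μ s n := by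
    intro k
    induction k using Nat.strong_induction_on with
    | _ k ih =>
      intro i n hk hn3 hn1 hin
      rcases lt_or_ge N (2 * (max T T' * n)) with h1 | h1
      · exact htop i n hn1 hin h1
      by_contra hcon
      push Not at hcon
      have hEn := EE_pos (μ := μ) (s := s) n
      have hm1 : T * n ≤ max T T' * n := Nat.mul_le_mul_right n (le_max_left _ _)
      have hm2 : T' * n ≤ max T T' * n := Nat.mul_le_mul_right n (le_max_right _ _)
      have hD : sl μ s * n ≠ ((P (i + n) - P i : ℤ) : ℝ) := by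
        intro hD
        have hz : ph21 μ s n (P (i + n) - P i) = 0 := by
          unfold ph21
          rw [hD, sub_self, zero_div, h.rf.zero, mul_zero]
        rw [hz] at hcon
        have : 0 < Λ₀ * EE μ s n := by positivity
        linarith
      have hb : max Λ Λ' * Q * EE μ s n ≤ ph21 μ s n (P (i + n) - P i) := (mul_le_mul_of_nonneg_right hΛ hEn.le).trans hcon
      obtain ⟨U, j, hU, hj, hjj⟩ := grow21 h hS hT hS' hT' hQ hE hty hP h0 hn1 hin (by omega) (by omega) hD hb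
      have hnT : 2 * n ≤ U * n := Nat.mul_le_mul_right n hU
      have h2 := ih (k - 1) (by omega) j (U * n) (by omega) (by omega) (by omega) hj
      have hET := EE_pos (μ := μ) (s := s) (U * n)
      rcases hjj with h3 | h3
      · have h4 : 2 * (Λ₀ * EE μ s n) * EE μ s (U * n) ≤ 2 * ph21 μ s n (P (i + n) - P i) * EE μ s (U * n) :=
          mul_le_mul_of_nonneg_right (by linarith) hET.le
        have h5 : ph21 μ s (U * n) (P (j + U * n) - P j) * EE μ s n < Λ₀ * EE μ s (U * n) * EE μ s n :=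
          mul_lt_mul_of_pos_right h2 hEn
        have h6 : 0 < Λ₀ * EE μ s (U * n) * EE μ s n := by positivity
        nlinarith
      · have h4 := hn₃ (U * n) (by omega) (by omega)
        linarith
  intro i n hn3 hn1 hin
  exact key N i n (by omega) hn3 hn1 hin

end Pool.Agent.W_7d29a1_HZ.Z21
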