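import Pool.Agent.W_7d29a1_HX.X50_Unl
import Pool.Agent.W_7d29a1_HL.Main
import Pool.Agent.W_7d29a1_HS.MomE

/-!
MP_7d29a1_pr, STORM Z at every tilt (model: `W_7d29a1_Z74.P2P`): the cost of the displacements of at most `R` widths is at most
`K R ^ K` units, outside an event of probability `A exp (- a R ^ g)`; the luck is at most `R` units, outside an event of probability
`A exp (- a R)`. (helper85, after helper74)
-/

set_option autoImplicit false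

namespace Pool.Agent.W_7d29a1_HZ.Z74

open MeasureTheory ProbabilityTheory Filter Topology
open Pool.Agent.W_7d29a1_F Pool.Agent.W_7d29a1_h4g Pool.Agent.W_7d29a1_H Pool.Agent.W_7d29a1_HS Pool.Agent.W_7d29a1_HX.X50

variable {μ : Measure ℝ} [IsProbabilityMeasure μ] {s c C : ℝ} {n₀ : ℕ}

/-- The rate function on the cone of `R` widths. -/
theorem J_cone (h : In μ s c C n₀) : ∃ K : ℝ, 1 ≤ K ∧ ∀ m : ℕ, 1 ≤ m → ∀ R u : ℝ, 1 ≤ R →
    |u| ≤ R * vA 1 μ s m → m * J μ s u ≤ K * R ^ K * EE μ s m := by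
  obtain ⟨K₀, hK₀, hJ₀⟩ := J_ratio h (show (1 : ℝ) ≤ 2 by norm_num)
  obtain ⟨K, hK1, hJ⟩ : ∃ K : ℝ, 1 ≤ K ∧ ∀ u : ℝ, J μ s (2 * u) ≤ K * J μ s u ∧ J μ s (-(2 * u)) ≤ K * J μ s u := by
    refine ⟨max K₀ 1, le_max_right _ _, fun u => ?_⟩
    have h1 := mul_le_mul_of_nonneg_right (le_max_left K₀ 1) (h.rf.nn u)
    exact ⟨(hJ₀ u).1.trans h1, (hJ₀ u).2.trans h1⟩
  have hK0 : 0 < K := by linarith
  have hit : ∀ (k : ℕ) (u : ℝ), J μ s (2 ^ k * u) ≤ K ^ k * J μ s u := by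
    intro k
    induction k with
    | zero => intro u; simp
    | succ k ih =>
      intro u
      calc J μ s (2 ^ (k + 1) * u) = J μ s (2 * (2 ^ k * u)) := by congr 1; ring
        _ ≤ K * J μ s (2 ^ k * u) := (hJ _).1
        _ ≤ K * (K ^ k * J μ s u) := mul_le_mul_of_nonneg_left (ih u) hK0.le
        _ = K ^ (k + 1) * J μ s u := by ring
  have hit' : ∀ (k : ℕ) (u : ℝ), J μ s (-(2 ^ (k + 1) * u)) ≤ K ^ (k + 1) * J μ s u := by
    intro k u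
    calc J μ s (-(2 ^ (k + 1) * u)) = J μ s (-(2 * (2 ^ k * u))) := by congr 1; ring
      _ ≤ K * J μ s (2 ^ k * u) := (hJ _).2
      _ ≤ K * (K ^ k * J μ s u) := mul_le_mul_of_nonneg_left (hit k u) hK0.le
      _ = K ^ (k + 1) * J μ s u := by ring
  obtain ⟨b, hb⟩ : ∃ b : ℝ, b = Real.logb 2 K := ⟨_, rfl⟩
  have hb0 : 0 ≤ b := by rw [hb]; exact Real.logb_nonneg (by norm_num) hK1
  have h2b : (2 : ℝ) ^ b = K := by rw [hb]; exact Real.rpow_logb (by norm_num) (by norm_num) hK0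
  obtain ⟨M, hM⟩ : ∃ M : ℝ, M = max (K * K) b := ⟨_, rfl⟩
  have hMK : K * K ≤ M := by rw [hM]; exact le_max_left _ _
  have hMb : b ≤ M := by rw [hM]; exact le_max_right _ _
  have hM1 : 1 ≤ M := by nlinarith
  refine ⟨M, hM1, fun m hm R u hR hu => ?_⟩
  have hm0 : (0 : ℝ) < m := by exact_mod_cast hm
  have hE := EE_pos (μ := μ) (s := s) m
  have hR0 : 0 < R := by linarith
  have hvA := h.vA_pos hm
  -- a point of the level of length at least half of the width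
  obtain ⟨v, hv, hJv⟩ : ∃ v : ℝ, vA 1 μ s m ≤ 2 * |v| ∧ J μ s v = EE μ s m / m := by
    have e : vA 1 μ s m = vr 1 μ s m + vl 1 μ s m := rfl
    rcases le_total (vr 1 μ s m) (vl 1 μ s m) with h1 | h1
    · exact ⟨-vl 1 μ s m, by rw [abs_neg, abs_of_pos (h.vl_pos hm)]; linarith, h.J_vl m⟩
    · exact ⟨vr 1 μ s m, by rw [abs_of_pos (h.vr_pos hm)]; linarith, h.J_vr m⟩
  have hv0 : 0 < |v| := by linarith
  -- the octave of `R`
  obtain ⟨k, hk1, hk2⟩ : ∃ k : ℕ, R ≤ 2 ^ k ∧ (2 : ℝ) ^ k ≤ 2 * R := by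
    obtain ⟨k, h1, h2⟩ := exists_nat_pow_near hR (one_lt_two (α := ℝ))
    refine ⟨k + 1, h2.le, ?_⟩
    rw [pow_succ]
    linarith
  have hp : (0 : ℝ) < 2 ^ (k + 1) * |v| := by positivity
  have hu2 : |u| ≤ 2 ^ (k + 1) * |v| := by
    calc |u| ≤ R * vA 1 μ s m := hu
      _ ≤ 2 ^ k * (2 * |v|) := mul_le_mul hk1 hv hvA.le (by positivity)
      _ = 2 ^ (k + 1) * |v| := by ring
  obtain ⟨θ, hθ⟩ : ∃ θ : ℝ, θ = |u| / (2 ^ (k + 1) * |v|) := ⟨_, rfl⟩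
  have hθ0 : 0 ≤ θ := by rw [hθ]; positivity
  have hθ1 : θ ≤ 1 := by rw [hθ, div_le_one hp]; exact hu2
  have hθe : θ * (2 ^ (k + 1) * |v|) = |u| := by rw [hθ]; exact div_mul_cancel₀ _ hp.ne'
  have key : J μ s u ≤ K ^ (k + 1) * J μ s v := by
    have q : ∀ x : ℝ, J μ s x ≤ K ^ (k + 1) * J μ s v → J μ s (θ * x) ≤ K ^ (k + 1) * J μ s v := fun x hx =>
      (h.rf.mul_le hθ0 hθ1 x).trans ((mul_le_of_le_one_left (h.rf.nn _) hθ1).trans hx)
    rcases abs_cases u with ⟨e1, _⟩ | ⟨e1, _⟩ <;> rcases abs_cases v with ⟨e2, _⟩ | ⟨e2, _⟩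
    · have e3 : u = θ * (2 ^ (k + 1) * v) := by rw [← e2, hθe, e1]
      rw [e3]
      exact q _ (hit _ _)
    · have e3 : u = θ * -(2 ^ (k + 1) * v) := by
        have : -(2 ^ (k + 1) * v) = 2 ^ (k + 1) * |v| := by rw [e2]; ring
        rw [this, hθe, e1]
      rw [e3]
      exact q _ (hit' _ _)
    · have e3 : u = θ * -(2 ^ (k + 1) * v) := by
        have : θ * -(2 ^ (k + 1) * v) = -(θ * (2 ^ (k + 1) * |v|)) := by rw [e2]; ring
        rw [this, hθe, e1]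
        ring
      rw [e3]
      exact q _ (hit' _ _)
    · have e3 : u = θ * (2 ^ (k + 1) * v) := by
        have : θ * (2 ^ (k + 1) * v) = -(θ * (2 ^ (k + 1) * |v|)) := by rw [e2]; ring
        rw [this, hθe, e1]
        ring
      rw [e3]
      exact q _ (hit _ _)
  have hKk : K ^ (k + 1) ≤ M * R ^ M := by
    have e1 : K ^ (k + 1) = K * ((2 : ℝ) ^ k) ^ b := by
      have e2 : K ^ k = ((2 : ℝ) ^ k) ^ b := by
        rw [← Real.rpow_natCast (2 : ℝ) k, ← Real.rpow_mul (by norm_num), mul_comm (k : ℝ) b, Real.rpow_mul (by norm_num), h2b,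
          Real.rpow_natCast]
      rw [pow_succ, e2]
      ring
    have e3 : ((2 : ℝ) ^ k) ^ b ≤ K * R ^ b := by
      calc ((2 : ℝ) ^ k) ^ b ≤ (2 * R) ^ b := Real.rpow_le_rpow (by positivity) hk2 hb0
        _ = K * R ^ b := by rw [Real.mul_rpow (by norm_num) hR0.le, h2b]
    have e4 : R ^ b ≤ R ^ M := Real.rpow_le_rpow_of_exponent_le hR hMb
    calc K ^ (k + 1) = K * ((2 : ℝ) ^ k) ^ b := e1
      _ ≤ K * (K * R ^ b) := mul_le_mul_of_nonneg_left e3 hK0.le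
      _ = K * K * R ^ b := by ring
      _ ≤ M * R ^ M := mul_le_mul hMK e4 (by positivity) (by linarith)
  calc m * J μ s u ≤ m * (K ^ (k + 1) * J μ s v) := mul_le_mul_of_nonneg_left key hm0.le
    _ = K ^ (k + 1) * EE μ s m := by rw [hJv]; field_simp
    _ ≤ M * R ^ M * EE μ s m := mul_le_mul_of_nonneg_right hKk hE.le

/-- **The cost of the displacements of at most `R` widths**, start `0`. -/
theorem p2p_tail (h : In μ s c C n₀) : ∃ K A a g : ℝ, 1 ≤ K ∧ 0 < A ∧ 0 < a ∧ 0 < g ∧ g ≤ 1 ∧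
    ∀ m : ℕ, 1 ≤ m → ∀ y : ℤ, 0 ≤ y → y ≤ m → ∀ R : ℝ, 1 ≤ R → |(y : ℝ) - sl μ s * m| ≤ R * wd μ s m →
    (law μ).real {η | K * R ^ K * EE μ s m ≤ X μ s η 0 m y} ≤ A * Real.exp (-(a * R ^ g)) := by
  obtain ⟨K₀, hK₀, hJ⟩ := J_cone h
  obtain ⟨C₁, A, a, g, hC₁, hA, ha, hg, hg1, hU⟩ := unlucky_all h
  have hK1 : 1 ≤ C₁ + C₁ * K₀ + 1 + K₀ := by nlinarith
  refine ⟨C₁ + C₁ * K₀ + 1 + K₀, A, a, g, hK1, hA, ha, hg, hg1, fun m hm y hy0 hy1 R hR hy => ?_⟩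
  obtain ⟨K, hK⟩ : ∃ K : ℝ, K = C₁ + C₁ * K₀ + 1 + K₀ := ⟨_, rfl⟩
  rw [← hK] at hK1 ⊢
  have hm0 : (0 : ℝ) < m := by exact_mod_cast hm
  have hR0 : 0 < R := by linarith
  have hE : 0 < EE μ s m := EE_pos m
  refine (measureReal_mono (fun η hη => ?_) (measure_ne_top _ _)).trans (hU m hm y hy0 hy1 R hR0.le)
  rw [Set.mem_ofPred_eq] at hη ⊢
  refine le_trans ?_ hη
  have h2 : |((y : ℝ) - sl μ s * m) / m| ≤ R * vA 1 μ s m := by
    rw [abs_div, abs_of_pos hm0, div_le_iff₀ hm0]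
    unfold wd at hy
    linarith
  have h3 := hJ m hm R _ hR h2
  have h4 : (1 : ℝ) ≤ R ^ K := Real.one_le_rpow hR (by linarith)
  have h5 : R ^ K₀ ≤ R ^ K := Real.rpow_le_rpow_of_exponent_le hR (by rw [hK]; nlinarith)
  have h6 : R ≤ R ^ K := by
    calc R = R ^ (1 : ℝ) := (Real.rpow_one R).symm
      _ ≤ R ^ K := Real.rpow_le_rpow_of_exponent_le hR hK1
  have h7 : C₁ * (EE μ s m + m * J μ s (((y : ℝ) - sl μ s * m) / m)) + R * EE μ s m ≤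
      (C₁ + C₁ * K₀ * R ^ K₀ + R) * EE μ s m := by nlinarith [mul_le_mul_of_nonneg_left h3 hC₁.le]
  refine h7.trans (mul_le_mul_of_nonneg_right ?_ hE.le)
  have h8 : C₁ * K₀ * R ^ K₀ ≤ C₁ * K₀ * R ^ K := mul_le_mul_of_nonneg_left h5 (by positivity)
  have h9 : C₁ ≤ C₁ * R ^ K := le_mul_of_one_le_right hC₁.le h4
  rw [hK] at h4 h6 h8 h9 ⊢
  have h10 : 0 ≤ K₀ * R ^ (C₁ + C₁ * K₀ + 1 + K₀) := by positivity
  linarith

end Pool.Agent.W_7d29a1_HZ.Z74
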