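import Pool.Agent.W_7d29a1_HS.Reg
import Pool.Agent.W_7d29a1_H.RateH
import Pool.Agent.W_7d29a1_H.LamH2
import Pool.Agent.W_7d29a1_HZ.Z21_Def

/-!
STORM Z AT EVERY TILT, Lemma NS: the numbers. The rate function at comparable slopes and the force which belongs to a slope. (port of
`W_7d29a1_Z21.Num` of helper21, helper83)
-/

set_option autoImplicit false

namespace Pool.Agent.W_7d29a1_HZ.Z21

open MeasureTheory ProbabilityTheory Filter Topology
open Pool.Agent.W_7d29a1_F Pool.Agent.W_7d29a1_h4g Pool.Agent.W_7d29a1_H Pool.Agent.W_7d29a1_HS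

variable {μ : Measure ℝ} [IsProbabilityMeasure μ] {s c C : ℝ} {n₀ : ℕ}

/-- The rate function is positive away from `0`, linearly. -/
theorem J_jj83 (h : In μ s c C n₀) {r : ℝ} (hr : 0 < r) : ∃ j : ℝ, 0 < j ∧ ∀ x : ℝ, r ≤ |x| → j * |x| ≤ J μ s x := by
  obtain ⟨H, δ, hD⟩ := h.dir
  obtain ⟨j, hj, h1⟩ := hD.strict r hr
  exact ⟨j, hj, fun x hx => h1 s (Set.mem_singleton s) x hx⟩

theorem J_pos83 (h : In μ s c C n₀) {x : ℝ} (hx : x ≠ 0) : 0 < J μ s x := by
  obtain ⟨j, hj, h1⟩ := J_jj83 h (abs_pos.2 hx)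
  have h2 := abs_pos.2 hx
  exact lt_of_lt_of_le (mul_pos hj h2) (h1 x le_rfl)

/-- The rate function grows at most like a power, at all slopes. -/
theorem J_up83 (h : In μ s c C n₀) : ∃ K : ℝ, 1 ≤ K ∧ ∀ v x : ℝ, 1 ≤ x → |x * v| ≤ 1 →
    J μ s (x * v) ≤ K * x ^ K * J μ s v := by
  obtain ⟨a, K, ha, hK, hreg⟩ := J_reg h
  obtain ⟨b, hb⟩ : ∃ b : ℝ, b = min a 1 := ⟨_, rfl⟩
  have hb0 : 0 < b := by rw [hb]; exact lt_min ha one_pos
  have hba : b ≤ a := hb ▸ min_le_left _ _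
  obtain ⟨j, hj, hjj⟩ := J_jj83 h hb0
  obtain ⟨M, hM⟩ : ∃ M : ℝ, M = max 1 (1 / (j * b)) := ⟨_, rfl⟩
  have hM1 : 1 ≤ M := hM ▸ le_max_left _ _
  have hMb : 1 ≤ M * (j * b) := by
    have : 1 / (j * b) ≤ M := hM ▸ le_max_right _ _
    rwa [div_le_iff₀ (by positivity)] at this
  have hKM : K ≤ M * K := le_mul_of_one_le_left (by linarith) hM1
  refine ⟨M * K, hK.trans hKM, fun v x hx hxv => ?_⟩
  have hx0 : 0 < x := by linarith
  have hK0 : 0 < K := by linarith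
  have hM0 : 0 < M := by linarith
  have hJv : 0 ≤ J μ s v := J_nonneg h.em h.nd s v
  have hpw : x ^ K ≤ x ^ (M * K) := Real.rpow_le_rpow_of_exponent_le hx hKM
  have hfin : M * (K * x ^ K * J μ s v) ≤ M * K * x ^ (M * K) * J μ s v := by
    calc M * (K * x ^ K * J μ s v) = (M * K * J μ s v) * x ^ K := by ring
      _ ≤ (M * K * J μ s v) * x ^ (M * K) := mul_le_mul_of_nonneg_left hpw (by positivity)
      _ = _ := by ring
  rcases le_or_gt |x * v| b with h1 | h1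
  · refine (hreg v x hx (h1.trans hba)).2.trans (le_trans ?_ hfin)
    exact le_mul_of_one_le_left (by positivity) hM1
  · have h2 : J μ s (x * v) ≤ 1 := (J_le_abs h.em h.nd s _).trans hxv
    rcases le_or_gt b |v| with h3 | h3
    · have h4 : j * b ≤ J μ s v := (mul_le_mul_of_nonneg_left h3 hj.le).trans (hjj v h3)
      calc J μ s (x * v) ≤ 1 := h2
        _ ≤ M * (j * b) := hMb
        _ ≤ M * J μ s v := mul_le_mul_of_nonneg_left h4 hM0.le
        _ = M * (1 * 1 * J μ s v) := by ring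
        _ ≤ M * (K * x ^ K * J μ s v) := by
            refine mul_le_mul_of_nonneg_left (mul_le_mul_of_nonneg_right ?_ hJv) hM0.le
            exact mul_le_mul hK (Real.one_le_rpow hx hK0.le) zero_le_one hK0.le
        _ ≤ _ := hfin
    · have hv : v ≠ 0 := by
        rintro rfl
        rw [mul_zero, abs_zero] at h1
        linarith
      have hv0 : 0 < |v| := abs_pos.2 hv
      have h5 : |b / |v| * v| = b := by
        rw [abs_mul, abs_div, abs_abs, abs_of_pos hb0, div_mul_cancel₀ _ hv0.ne']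
      have h6 := (hreg v (b / |v|) ((one_le_div hv0).2 h3.le) (by rw [h5]; exact hba)).2
      have h7 : j * b ≤ J μ s (b / |v| * v) := by
        have := hjj (b / |v| * v) (by rw [h5])
        rwa [h5] at this
      have h8 : b / |v| ≤ x := by
        rw [div_le_iff₀ hv0]
        rw [abs_mul, abs_of_pos hx0] at h1
        exact h1.le
      have h9 : (b / |v|) ^ K ≤ x ^ K := Real.rpow_le_rpow (by positivity) h8 hK0.le
      calc J μ s (x * v) ≤ 1 := h2
        _ ≤ M * (j * b) := hMb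
        _ ≤ M * (K * (b / |v|) ^ K * J μ s v) := mul_le_mul_of_nonneg_left (h7.trans h6) hM0.le
        _ ≤ M * (K * x ^ K * J μ s v) := by
            refine mul_le_mul_of_nonneg_left (mul_le_mul_of_nonneg_right ?_ hJv) hM0.le
            exact mul_le_mul_of_nonneg_left h9 hK0.le
        _ ≤ _ := hfin

/-- The two sides are comparable. -/
theorem J_sym83 (h : In μ s c C n₀) : ∃ D : ℝ, 1 ≤ D ∧ ∀ x : ℝ, |x| ≤ 1 → J μ s (-x) ≤ D * J μ s x := by
  obtain ⟨D, δ, hD, hδ, hs⟩ := h.sym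
  obtain ⟨j, hj, hjj⟩ := J_jj83 h hδ
  refine ⟨max D (1 / j), hD.trans (le_max_left _ _), fun x _ => ?_⟩
  have hJ := J_nonneg h.em h.nd s x
  rcases le_or_gt |x| δ with h1 | h1
  · exact ((hs x h1).2).trans (mul_le_mul_of_nonneg_right (le_max_left _ _) hJ)
  · have h2 : J μ s (-x) ≤ |x| := by
      have := J_le_abs h.em h.nd s (-x)
      rwa [abs_neg] at this
    have h3 := hjj x h1.le
    have h4 : |x| ≤ 1 / j * J μ s x := by
      rw [div_mul_eq_mul_div, one_mul, le_div_iff₀ hj]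
      linarith
    exact (h2.trans h4).trans (mul_le_mul_of_nonneg_right (le_max_right _ _) hJ)

/-- The rate function at comparable slopes, on either side. -/
theorem J_cmp83 (h : In μ s c C n₀) : ∃ K : ℝ, 1 ≤ K ∧ ∀ u v x : ℝ, 1 ≤ x → |v| ≤ x * |u| → |v| ≤ 1 →
    J μ s v ≤ K * x ^ K * J μ s u := by
  obtain ⟨K, hK, hup⟩ := J_up83 h
  obtain ⟨D, hD, hsym⟩ := J_sym83 h
  have hKD : K ≤ D * K := le_mul_of_one_le_left (by linarith) hD
  refine ⟨D * K, hK.trans hKD, fun u v x hx hvu hv => ?_⟩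
  have hx0 : 0 < x := by linarith
  have hK0 : 0 < K := by linarith
  have hD0 : 0 < D := by linarith
  have hJu := J_nonneg h.em h.nd s u
  have hxK : 1 ≤ x ^ K := Real.one_le_rpow hx hK0.le
  have key : ∀ t : ℝ, 0 ≤ t → t ≤ x → |t * u| ≤ 1 → J μ s (t * u) ≤ K * x ^ K * J μ s u := by
    intro t ht htx htu
    rcases le_total t 1 with h1 | h1
    · refine (h.rf.mul_le ht h1 u).trans (mul_le_mul_of_nonneg_right ?_ hJu)
      calc t ≤ 1 * 1 := by linarith
        _ ≤ K * x ^ K := mul_le_mul hK hxK zero_le_one hK0.le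
    · refine (hup u t h1 htu).trans ?_
      exact mul_le_mul_of_nonneg_right (mul_le_mul_of_nonneg_left (Real.rpow_le_rpow ht htx hK0.le) hK0.le) hJu
  have hpw : x ^ K ≤ x ^ (D * K) := Real.rpow_le_rpow_of_exponent_le hx hKD
  have hfin : D * (K * x ^ K * J μ s u) ≤ D * K * x ^ (D * K) * J μ s u := by
    calc D * (K * x ^ K * J μ s u) = (D * K * J μ s u) * x ^ K := by ring
      _ ≤ (D * K * J μ s u) * x ^ (D * K) := mul_le_mul_of_nonneg_left hpw (by positivity)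
      _ = _ := by ring
  rcases eq_or_ne u 0 with hu | hu
  · rw [hu, abs_zero, mul_zero] at hvu
    have hv0 : v = 0 := abs_nonpos_iff.1 hvu
    rw [hv0, hu, J_zero h.em h.nd, mul_zero]
  · have hu0 := abs_pos.2 hu
    obtain ⟨t, ht⟩ : ∃ t : ℝ, t = |v| / |u| := ⟨_, rfl⟩
    have ht0 : 0 ≤ t := by rw [ht]; positivity
    have htx : t ≤ x := by
      rw [ht, div_le_iff₀ hu0]
      exact hvu
    have htu : |t * u| = |v| := by rw [abs_mul, abs_of_nonneg ht0, ht, div_mul_cancel₀ _ hu0.ne']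
    have hk := key t ht0 htx (by rw [htu]; exact hv)
    have hk0 : 0 ≤ K * x ^ K * J μ s u := by positivity
    rcases abs_eq_abs.1 htu.symm with h1 | h1
    · rw [h1]
      exact (hk.trans (le_mul_of_one_le_left hk0 hD)).trans hfin
    · rw [h1]
      exact ((hsym (t * u) (by rw [htu]; exact hv)).trans (mul_le_mul_of_nonneg_left hk hD0.le)).trans hfin

/-- The rate function is superlinear at `0`, uniformly in the slope. -/
theorem J_lo21 (h : In μ s c C n₀) {ε : ℝ} (hε : 0 < ε) : ∃ κ : ℝ, 0 < κ ∧ κ ≤ 1 / 2 ∧ ∀ v : ℝ, 0 < v →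
    v ≤ 1 → J μ s (κ * v) ≤ ε * κ * J μ s v := by
  obtain ⟨a, K, ha, hK, hreg⟩ := J_reg h
  obtain ⟨b, hb⟩ : ∃ b : ℝ, b = min a 1 := ⟨_, rfl⟩
  have hb0 : 0 < b := by rw [hb]; exact lt_min ha one_pos
  have hba : b ≤ a := hb ▸ min_le_left _ _
  have hb1 : b ≤ 1 := hb ▸ min_le_right _ _
  have key : ∀ δ : ℝ, 0 < δ → ∃ κ : ℝ, 0 < κ ∧ κ ≤ 1 / 2 ∧ ∀ v : ℝ, 0 < v → v ≤ b → J μ s (κ * v) ≤ δ * κ * J μ s v := by
    intro δ hδ
    obtain ⟨κ, hκ⟩ : ∃ κ : ℝ, κ = min (1 / 2) ((a * δ) ^ (1 / a)) := ⟨_, rfl⟩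
    have hκ0 : 0 < κ := by rw [hκ]; positivity
    have hκh : κ ≤ 1 / 2 := hκ ▸ min_le_left _ _
    refine ⟨κ, hκ0, hκh, fun v hv hvb => ?_⟩
    have e0 : 1 / κ * (κ * v) = v := by
      rw [← mul_assoc, one_div, inv_mul_cancel₀ hκ0.ne', one_mul]
    have h1 := (hreg (κ * v) (1 / κ) ((one_le_div hκ0).2 (by linarith)) (by
      rw [e0, abs_of_pos hv]
      exact hvb.trans hba)).1
    rw [e0, one_div] at h1
    have h2 : κ ^ a ≤ a * δ := by
      have h3 : κ ≤ (a * δ) ^ (1 / a) := hκ ▸ min_le_right _ _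
      calc κ ^ a ≤ ((a * δ) ^ (1 / a)) ^ a := Real.rpow_le_rpow hκ0.le h3 ha.le
        _ = a * δ := by
          rw [← Real.rpow_mul (by positivity), one_div, inv_mul_cancel₀ ha.ne', Real.rpow_one]
    have h4 : (κ⁻¹) ^ (1 + a) = (κ * κ ^ a)⁻¹ := by
      rw [Real.inv_rpow hκ0.le, Real.rpow_add hκ0, Real.rpow_one]
    rw [h4] at h1
    have h5 : 0 < κ * κ ^ a := by positivity
    have h6 : a * J μ s (κ * v) ≤ J μ s v * (κ * κ ^ a) := by
      have := mul_le_mul_of_nonneg_right h1 h5.le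
      have e : a * (κ * κ ^ a)⁻¹ * J μ s (κ * v) * (κ * κ ^ a) = a * J μ s (κ * v) := by
        field_simp
      rw [e] at this
      exact this
    have hJv : 0 ≤ J μ s v := J_nonneg h.em h.nd s v
    have h7 : J μ s v * (κ * κ ^ a) ≤ J μ s v * (κ * (a * δ)) :=
      mul_le_mul_of_nonneg_left (mul_le_mul_of_nonneg_left h2 hκ0.le) hJv
    have h8 : a * J μ s (κ * v) ≤ a * (δ * κ * J μ s v) := by
      calc a * J μ s (κ * v) ≤ J μ s v * (κ * (a * δ)) := h6.trans h7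
        _ = a * (δ * κ * J μ s v) := by ring
    exact le_of_mul_le_mul_left h8 ha
  obtain ⟨κ, hκ0, hκh, hκ⟩ := key (b * ε) (by positivity)
  refine ⟨κ * b, by positivity, (mul_le_mul hκh hb1 hb0.le (by norm_num)).trans (by norm_num), fun v hv hv1 => ?_⟩
  have hbv : b * v ≤ b := mul_le_of_le_one_right hb0.le hv1
  have h1 := hκ (b * v) (by positivity) hbv
  have h2 : J μ s (b * v) ≤ J μ s v := h.J_mono (by positivity) (mul_le_of_le_one_left hv.le hb1)
  have e : κ * b * v = κ * (b * v) := by ring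
  rw [e]
  calc J μ s (κ * (b * v)) ≤ b * ε * κ * J μ s (b * v) := h1
    _ ≤ b * ε * κ * J μ s v := mul_le_mul_of_nonneg_left h2 (by positivity)
    _ = ε * (κ * b) * J μ s v := by ring

theorem th_pos21 (h : In μ s c C n₀) {g v : ℝ} (hg0 : 0 < g) (hv : 0 < v) : 0 < th21 μ s g v := by
  have hJv : 0 < J μ s v := J_pos83 h hv.ne'
  unfold th21
  positivity

omit [IsProbabilityMeasure μ] in
theorem th_mul21 {g v : ℝ} (hv : 0 < v) : th21 μ s g v * v = g * J μ s v := by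
  unfold th21
  rw [div_mul_cancel₀ _ hv.ne']

/-- The force is at most `g`. -/
theorem th_le21 (h : In μ s c C n₀) {g v : ℝ} (hg0 : 0 < g) (hv : 0 < v) : th21 μ s g v ≤ g := by
  have hJle : J μ s v ≤ v := by
    have := J_le_abs h.em h.nd s v
    rwa [abs_of_pos hv] at this
  unfold th21
  rw [div_le_iff₀ hv]
  exact mul_le_mul_of_nonneg_left hJle hg0.le

/-- The force `g J(v) / v`: upper bound of the gain. -/
theorem ex_le21 (h : In μ s c C n₀) {g v : ℝ} (hg0 : 0 < g) (hg1 : g < 1) (hv : 0 < v) :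
    ex μ s (th21 μ s g v) ≤ g * J μ s v := by
  have hJv : 0 < J μ s v := J_pos83 h hv.ne'
  obtain ⟨t, ht⟩ : ∃ t : ℝ, t = th21 μ s g v := ⟨_, rfl⟩
  rw [← ht]
  have ht0 : 0 < t := ht ▸ th_pos21 h hg0 hv
  have htv : t * v = g * J μ s v := ht ▸ th_mul21 hv
  have ht1 : t ≤ 1 := (ht ▸ th_le21 h hg0 hv : t ≤ g).trans hg1.le
  obtain ⟨u, hu⟩ : ∃ u : ℝ, u = sl μ (s + t) - sl μ s := ⟨_, rfl⟩
  have h1 := ex_le_sl h.em h.nd s t
  rw [← hu] at h1
  rcases le_or_gt u v with h2 | h2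
  · rw [← htv]
    exact h1.trans (mul_le_mul_of_nonneg_left h2 ht0.le)
  · exfalso
    have h3 := J_at' h.em h.nd s (r := t) (by rw [abs_of_pos ht0]; exact ht1)
    rw [← hu] at h3
    have h4 := ex_nonneg h.em h.nd s t
    have h5 := h.rf.le_mul (t := u / v) ((one_le_div hv).2 h2.le) v
    rw [div_mul_cancel₀ _ hv.ne'] at h5
    have h6 : u / v * J μ s v ≤ t * u := h5.trans (by linarith)
    have h7 : t * u = u / v * (g * J μ s v) := by
      rw [← htv]
      field_simp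
    rw [h7] at h6
    have h8 : 0 < u / v := div_pos (hv.trans h2) hv
    have h9 := le_of_mul_le_mul_left h6 h8
    have h10 : g * J μ s v < 1 * J μ s v := mul_lt_mul_of_pos_right hg1 hJv
    linarith

/-- The force of a slope. -/
theorem tilt21 (h : In μ s c C n₀) {g : ℝ} (hg0 : 0 < g) (hg1 : g < 1) :
    ∃ κ : ℝ, 0 < κ ∧ κ ≤ 1 ∧ ∀ v : ℝ, 0 < v → v ≤ 1 →
      0 < th21 μ s g v ∧ th21 μ s g v * v = g * J μ s v ∧ ex μ s (th21 μ s g v) ≤ g * J μ s v ∧
      κ * J μ s v ≤ ex μ s (th21 μ s g v) ∧ κ * (th21 μ s g v * v) ≤ ex μ s (th21 μ s g v) := by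
  obtain ⟨κ, hκ0, hκh, hκ⟩ := J_lo21 h (ε := g / 2) (by positivity)
  have hgk : 0 < g * κ / 2 := by positivity
  refine ⟨min (g * κ / 2) (κ / 2), lt_min hgk (by positivity), (min_le_right _ _).trans (by linarith), fun v hv hv1 => ?_⟩
  have hJv : 0 < J μ s v := J_pos83 h hv.ne'
  obtain ⟨t, ht⟩ : ∃ t : ℝ, t = th21 μ s g v := ⟨_, rfl⟩
  have ht0 : 0 < t := ht ▸ th_pos21 h hg0 hv
  have htv : t * v = g * J μ s v := ht ▸ th_mul21 hv
  have ht1 : t ≤ 1 := (ht ▸ th_le21 h hg0 hv : t ≤ g).trans hg1.le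
  have hlo : g * κ / 2 * J μ s v ≤ ex μ s t := by
    have h1 := le_J h.em h.nd s (κ * v) (r := t) (by rw [abs_of_pos ht0]; exact ht1)
    have h2 := hκ v hv hv1
    have h3 : t * (κ * v) = κ * (g * J μ s v) := by rw [← htv]; ring
    rw [h3] at h1
    have h4 : g / 2 * κ * J μ s v = κ * (g * J μ s v) - g * κ / 2 * J μ s v := by ring
    rw [h4] at h2
    linarith
  have hle := ex_le21 h hg0 hg1 hv
  rw [← ht] at hle ⊢
  refine ⟨ht0, htv, hle, ?_, ?_⟩
  · exact (mul_le_mul_of_nonneg_right (min_le_left _ _) hJv.le).trans hlo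
  · rw [htv]
    refine (mul_le_mul_of_nonneg_right (min_le_right _ _) (by positivity)).trans ?_
    refine le_trans (le_of_eq (by ring)) hlo

/-- The scale of a small slope. -/
theorem scale21 (h : In μ s c C n₀) (n₁ : ℕ) : ∃ v₀ : ℝ, 0 < v₀ ∧ v₀ ≤ 1 ∧ ∀ v : ℝ, 0 < v → v ≤ v₀ →
    ∃ r : ℕ, n₁ ≤ r ∧ 1 ≤ r ∧ vr 1 μ s r ≤ v ∧ v ≤ 2 * vr 1 μ s r ∧ EE μ s r ≤ r * J μ s v ∧
      r * J μ s v ≤ 2 * EE μ s r := by
  classical
  obtain ⟨n₃, hn₃⟩ : ∃ n₃ : ℕ, n₃ = max n₁ 2 := ⟨_, rfl⟩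
  have h31 : n₁ ≤ n₃ := hn₃ ▸ le_max_left _ _
  have h32 : 2 ≤ n₃ := hn₃ ▸ le_max_right _ _
  have hv3 : 0 < vr 1 μ s n₃ := h.vr_pos (by omega)
  refine ⟨min (vr 1 μ s n₃) 1, lt_min hv3 one_pos, min_le_right _ _, fun v hv hvv => ?_⟩
  have hv3' : v ≤ vr 1 μ s n₃ := hvv.trans (min_le_left _ _)
  have hJv : 0 < J μ s v := J_pos83 h hv.ne'
  obtain ⟨N, hN⟩ := rate85 h.em {s} (J μ s v / 2) (by positivity)
  have hN' : ∀ n : ℕ, N ≤ n → EE μ s n ≤ J μ s v / 2 * n := fun n hn => hN s (Set.mem_singleton s) n hn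
  have hex : ∃ k : ℕ, ∀ n : ℕ, k ≤ n → EE μ s n < n * J μ s v := by
    refine ⟨max N 1, fun n hn => ?_⟩
    have h1 := hN' n ((le_max_left _ _).trans hn)
    have h2 : (1 : ℝ) ≤ n := by exact_mod_cast (le_max_right _ _).trans hn
    have h3 : 0 < J μ s v / 2 * n := by positivity
    have h4 : (n : ℝ) * J μ s v = 2 * (J μ s v / 2 * n) := by ring
    linarith
  obtain ⟨k, hk, hmin⟩ : ∃ k : ℕ, (∀ n : ℕ, k ≤ n → EE μ s n < n * J μ s v) ∧
      ∀ j < k, ¬ ∀ n : ℕ, j ≤ n → EE μ s n < n * J μ s v :=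
    ⟨Nat.find hex, Nat.find_spec hex, fun j hj => Nat.find_min hex hj⟩
  have hn3R : (0 : ℝ) < n₃ := by exact_mod_cast (by omega : 0 < n₃)
  have hkn : n₃ < k := by
    by_contra hcon
    push Not at hcon
    have h1 := hk n₃ hcon
    have h2 : J μ s v ≤ EE μ s n₃ / n₃ := by
      rw [← h.J_vr]
      exact h.J_mono hv.le hv3'
    rw [le_div_iff₀ hn3R] at h2
    linarith
  obtain ⟨m, rfl⟩ : ∃ m : ℕ, k = m + 1 := ⟨k - 1, by omega⟩
  have hm2 : 2 ≤ m := by omega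
  have hmR : (2 : ℝ) ≤ m := by exact_mod_cast hm2
  have hm : (m : ℝ) * J μ s v ≤ EE μ s m := by
    have h1 := hmin m (by omega)
    push Not at h1
    obtain ⟨n, hn1, hn2⟩ := h1
    rcases Nat.lt_or_ge m n with h2 | h2
    · exact absurd (hk n (by omega)) (not_lt.2 hn2)
    · have : n = m := by omega
      rw [this] at hn2
      exact hn2
  have hr := hk (m + 1) le_rfl
  have hEm := EE_pos (μ := μ) (s := s) m
  have hE : EE μ s m ≤ EE μ s (m + 1) := EE_mono (by omega)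
  have hJ2 : 2 * J μ s v ≤ EE μ s m := (mul_le_mul_of_nonneg_right hmR hJv.le).trans hm
  have e1 : ((m + 1 : ℕ) : ℝ) = (m : ℝ) + 1 := by push_cast; ring
  rw [e1] at hr
  have hr0 : (0 : ℝ) < (m : ℝ) + 1 := by linarith
  have hvr := h.J_vr (m + 1)
  rw [e1] at hvr
  have hlt : EE μ s (m + 1) / ((m : ℝ) + 1) < J μ s v := by
    rw [div_lt_iff₀ hr0]
    linarith
  refine ⟨m + 1, by omega, by omega, ?_, ?_, ?_, ?_⟩
  · by_contra hcon
    push Not at hcon
    have h1 := h.J_mono hv.le hcon.le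
    rw [hvr] at h1
    linarith
  · by_contra hcon
    push Not at hcon
    have h0 := h.vr_nonneg (m + 1)
    have h1 := h.J_mono (by positivity) hcon.le
    have h2 := h.rf.le_mul (t := 2) one_le_two (vr 1 μ s (m + 1))
    rw [hvr] at h2
    have h3 : 2 * EE μ s (m + 1) ≤ ((m : ℝ) + 1) * J μ s v := by
      have h4 : 2 * (EE μ s (m + 1) / ((m : ℝ) + 1)) ≤ J μ s v := h2.trans h1
      rw [← mul_div_assoc, div_le_iff₀ hr0] at h4
      linarith
    have h5 : ((m : ℝ) + 1) * J μ s v = m * J μ s v + J μ s v := by ring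
    linarith
  · rw [e1]
    exact hr.le
  · rw [e1]
    have h5 : ((m : ℝ) + 1) * J μ s v = m * J μ s v + J μ s v := by ring
    linarith

/-- The pair (force, scale) is admissible. -/
theorem adm21 (h : In μ s c C n₀) {bv g v : ℝ} {r : ℕ} (hb : 0 < bv) (hvr : bv * vA 1 μ s r ≤ vr 1 μ s r) (hg0 : 0 < g)
    (hv : 0 < v) (h1 : vr 1 μ s r ≤ v) (h2 : v ≤ 2 * vr 1 μ s r)
    (h3 : EE μ s r ≤ r * J μ s v) (h4 : r * J μ s v ≤ 2 * EE μ s r) :
    g / 2 * EE μ s r ≤ th21 μ s g v * wd μ s r ∧ th21 μ s g v * wd μ s r ≤ 2 * g / bv * EE μ s r := by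
  have hr0 : (0 : ℝ) ≤ r := Nat.cast_nonneg r
  have htv : th21 μ s g v * v = g * J μ s v := th_mul21 hv
  have ht0 : 0 < th21 μ s g v := th_pos21 h hg0 hv
  have hle := h.vr_le r
  unfold wd
  constructor
  · calc g / 2 * EE μ s r ≤ g / 2 * (r * J μ s v) := mul_le_mul_of_nonneg_left h3 (by positivity)
      _ = (th21 μ s g v * v) * r / 2 := by rw [htv]; ring
      _ = th21 μ s g v * (v * r) / 2 := by ring
      _ ≤ th21 μ s g v * ((2 * vA 1 μ s r) * r) / 2 := by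
        have := mul_le_mul_of_nonneg_left (mul_le_mul_of_nonneg_right (h2.trans (show 2 * vr 1 μ s r ≤ 2 * vA 1 μ s r by
          linarith)) hr0) ht0.le
        linarith
      _ = _ := by ring
  · have h5 : vA 1 μ s r ≤ v / bv := by
      rw [le_div_iff₀ hb, mul_comm]
      exact hvr.trans h1
    calc th21 μ s g v * (r * vA 1 μ s r) ≤ th21 μ s g v * (r * (v / bv)) :=
        mul_le_mul_of_nonneg_left (mul_le_mul_of_nonneg_left h5 hr0) ht0.le
      _ = (th21 μ s g v * v) * r / bv := by ring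
      _ = g / bv * (r * J μ s v) := by rw [htv]; ring
      _ ≤ g / bv * (2 * EE μ s r) := mul_le_mul_of_nonneg_left h4 (by positivity)
      _ = _ := by ring

theorem J_slope83 (h : In μ s c C n₀) {u v : ℝ} (hu : 0 < u) (huv : u ≤ v) : J μ s u * v ≤ J μ s v * u := by
  have h1 := h.rf.le_mul (t := v / u) ((one_le_div hu).2 huv) u
  rw [div_mul_cancel₀ _ hu.ne', div_mul_eq_mul_div, div_le_iff₀ hu] at h1
  linarith

theorem Jt_mono21 (h : In μ s c C n₀) {v₀ u v : ℝ} (hv₀ : 0 < v₀) (hu : 0 ≤ u) (huv : u ≤ v) :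
    Jt21 μ s v₀ u ≤ Jt21 μ s v₀ v := by
  have hJ0 : 0 < J μ s v₀ := J_pos83 h hv₀.ne'
  unfold Jt21
  rcases le_or_gt v v₀ with h1 | h1
  · rw [if_pos (huv.trans h1), if_pos h1]
    exact h.J_mono hu huv
  · rw [if_neg (not_le.2 h1)]
    rcases le_or_gt u v₀ with h2 | h2
    · rw [if_pos h2]
      have h3 : J μ s u ≤ J μ s v₀ := h.J_mono hu h2
      have h4 : J μ s v₀ / v₀ * v₀ ≤ J μ s v₀ / v₀ * v := mul_le_mul_of_nonneg_left h1.le (by positivity)
      rw [div_mul_cancel₀ _ hv₀.ne'] at h4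
      exact h3.trans h4
    · rw [if_neg (not_le.2 h2)]
      exact mul_le_mul_of_nonneg_left huv (by positivity)

/-- The force of the slope `min v v₀` times a slope `u ≥ v` is at most `g Jt u`. -/
theorem Jt_ge21 (h : In μ s c C n₀) {v₀ v u g : ℝ} (hv₀ : 0 < v₀) (hv : 0 < v) (hvu : v ≤ u) (hg : 0 < g) :
    th21 μ s g (min v v₀) * u ≤ g * Jt21 μ s v₀ u := by
  have hw0 : 0 < min v v₀ := lt_min hv hv₀
  have hu0 : 0 < u := hv.trans_le hvu
  have key : J μ s (min v v₀) * u ≤ Jt21 μ s v₀ u * min v v₀ := by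
    unfold Jt21
    rcases le_or_gt u v₀ with h1 | h1
    · rw [if_pos h1]
      exact J_slope83 h hw0 ((min_le_left _ _).trans hvu)
    · rw [if_neg (not_le.2 h1)]
      have h2 := J_slope83 h hw0 (min_le_right v v₀)
      have h3 : J μ s v₀ / v₀ * u * min v v₀ = (J μ s v₀ * min v v₀) * u / v₀ := by ring
      rw [h3, le_div_iff₀ hv₀]
      calc J μ s (min v v₀) * u * v₀ = (J μ s (min v v₀) * v₀) * u := by ring
        _ ≤ (J μ s v₀ * min v v₀) * u := mul_le_mul_of_nonneg_right h2 hu0.le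
  unfold th21
  rw [div_mul_eq_mul_div, div_le_iff₀ hw0, mul_assoc, mul_assoc]
  exact mul_le_mul_of_nonneg_left key hg.le

theorem Jt_ge' (h : In μ s c C n₀) {v₀ v : ℝ} (hv₀ : 0 < v₀) : J μ s (min v v₀) ≤ Jt21 μ s v₀ v := by
  unfold Jt21
  rcases le_or_gt v v₀ with h1 | h1
  · rw [if_pos h1, min_eq_left h1]
  · rw [if_neg (not_le.2 h1), min_eq_right h1.le]
    have hJ0 : 0 < J μ s v₀ := J_pos83 h hv₀.ne'
    have h4 : J μ s v₀ / v₀ * v₀ ≤ J μ s v₀ / v₀ * v := mul_le_mul_of_nonneg_left h1.le (by positivity)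
    rwa [div_mul_cancel₀ _ hv₀.ne'] at h4

/-- The continuation is comparable with the rate function. -/
theorem Jt_cv83 (h : In μ s c C n₀) {v₀ : ℝ} (hv₀ : 0 < v₀) (hv₀1 : v₀ ≤ 1) : ∃ cv : ℝ, 0 < cv ∧ cv ≤ 1 ∧
    ∀ v : ℝ, 0 ≤ v → v ≤ 1 → cv * J μ s v ≤ J μ s (min v v₀) := by
  have hJ1 : 0 < J μ s 1 := J_pos83 h one_ne_zero
  have hJv₀ : 0 < J μ s v₀ := J_pos83 h hv₀.ne'
  have hcv1 : J μ s v₀ / J μ s 1 ≤ 1 := by
    rw [div_le_one hJ1]
    exact h.J_mono hv₀.le hv₀1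
  refine ⟨J μ s v₀ / J μ s 1, by positivity, hcv1, fun v hv hv1 => ?_⟩
  have hJv : 0 ≤ J μ s v := J_nonneg h.em h.nd s v
  rcases le_total v v₀ with h1 | h1
  · rw [min_eq_left h1]
    exact mul_le_of_le_one_left hJv hcv1
  · rw [min_eq_right h1, div_mul_eq_mul_div, div_le_iff₀ hJ1]
    exact mul_le_mul_of_nonneg_left (h.J_mono hv hv1) hJv₀.le

end Pool.Agent.W_7d29a1_HZ.Z21
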