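import Pool.Agent.W_7d29a1_HZ.Act12

/-!
STORM Z AT ONE TILT, STP: the choice of one zone in each group of `l` zones, the pattern of the scale `R`, the translation of the kernels of the scale
`R`. (helper22)
-/

set_option autoImplicit false

namespace Pool.Agent.W_7d29a1_HZ.Z22

open MeasureTheory Finset
open Pool.Agent.W_7d29a1_F Pool.Agent.W_7d29a1_X Pool.Agent.W_7d29a1_HZ Pool.Agent.W_7d29a1_HZ.A12

noncomputable section

variable {μ : Measure ℝ} {s : ℝ}

/-! ### Sums over the blocks -/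

theorem sum_blocks {M : Type*} [AddCommMonoid M] (n l : ℕ) (f : ℕ → M) :
    ∑ j : Fin n, ∑ i : Fin l, f (i + l * j) = ∑ b ∈ range (n * l), f b := by
  rw [← Fin.sum_univ_eq_sum_range, ← Fintype.sum_prod_type', ← Equiv.sum_comp (finProdFinEquiv (m := n) (n := l))]
  rfl

/-- The amplitudes `a` in the chosen zones. -/
def cho {n l : ℕ} (a : ℤ) (β : Fin n → Fin l) (b : ℕ) : ℤ :=
  if h : b / l < n then (if b % l = (β ⟨b / l, h⟩ : ℕ) then a else 0) else 0

theorem cho_block {n l : ℕ} (a : ℤ) (β : Fin n → Fin l) (j : Fin n) (i : Fin l) :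
    cho a β (i + l * j) = if i = β j then a else 0 := by
  have hl : 0 < l := lt_of_le_of_lt (Nat.zero_le _) i.2
  have h1 : ((i : ℕ) + l * j) / l = j := by
    rw [Nat.add_mul_div_left _ _ hl, Nat.div_eq_of_lt i.2, zero_add]
  have h2 : ((i : ℕ) + l * j) % l = i := by
    rw [Nat.add_mul_mod_self_left, Nat.mod_eq_of_lt i.2]
  unfold cho
  rw [dif_pos (by rw [h1]; exact j.2)]
  have h3 : (⟨((i : ℕ) + l * j) / l, by rw [h1]; exact j.2⟩ : Fin n) = j := Fin.ext h1
  rw [h2, h3]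
  by_cases h : i = β j
  · rw [if_pos h, if_pos (by rw [h])]
  · rw [if_neg h, if_neg (fun h' => h (Fin.ext h'))]

theorem cho_ge {n l : ℕ} (a : ℤ) (β : Fin n → Fin l) {b : ℕ} (hb : n * l ≤ b) : cho a β b = 0 := by
  unfold cho
  rcases Nat.eq_zero_or_pos l with rfl | hl
  · split_ifs with h1 h2
    · exact absurd (β ⟨b / 0, h1⟩).2 (Nat.not_lt_zero _)
    · rfl
    · rfl
  · rw [dif_neg]
    rw [not_lt, Nat.le_div_iff_mul_le hl]
    exact hb

theorem cho_values {n l : ℕ} (a : ℤ) (β : Fin n → Fin l) (b : ℕ) : cho a β b = a ∨ cho a β b = 0 := by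
  unfold cho
  split_ifs
  · exact Or.inl rfl
  · exact Or.inr rfl
  · exact Or.inr rfl

theorem neg_cho {n l : ℕ} (a : ℤ) (β : Fin n → Fin l) : -cho a β = cho (-a) β := by
  funext b
  simp only [Pi.neg_apply]
  unfold cho
  split_ifs
  · rfl
  · rw [neg_zero]
  · rw [neg_zero]

/-- Sum over the zones of a function of the amplitude which vanishes at the amplitude zero. -/
theorem sum_cho {M : Type*} [AddCommMonoid M] {n l : ℕ} (a : ℤ) (β : Fin n → Fin l) (f : ℕ → ℤ → M) (hf : ∀ b, f b 0 = 0) :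
    ∑ b ∈ range (n * l), f b (cho a β b) = ∑ j : Fin n, f (β j + l * j) a := by
  rw [← sum_blocks n l fun b => f b (cho a β b)]
  refine sum_congr rfl fun j _ => ?_
  rw [sum_eq_single (β j)]
  · rw [cho_block, if_pos rfl]
  · intro i _ hi
    rw [cho_block, if_neg hi, hf]
  · intro h
    exact absurd (mem_univ _) h

/-- The amplitude `a` in all the zones `b < B`. -/
def full (a : ℤ) (B b : ℕ) : ℤ := if b < B then a else 0

theorem full_ge (a : ℤ) {B b : ℕ} (hb : B ≤ b) : full a B b = 0 := by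
  unfold full
  rw [if_neg (not_lt.2 hb)]

theorem full_lt (a : ℤ) {B b : ℕ} (hb : b < B) : full a B b = a := by
  unfold full
  rw [if_pos hb]

/-! ### The pattern of the scale `R` -/

/-- The total shift of the pattern. -/
theorem sv_pat_total (t τ : ℕ) {I : Finset ℕ} (hI : I ⊆ range t) {V : ℕ → ℤ} {B N : ℕ} (hV : ∀ b, B ≤ b → V b = 0)
    (hN : τ + 2 * t * B ≤ N) : sv (pat t τ I V) 0 N = I.card * ∑ b ∈ range B, V b := by
  have hI2 : I ⊆ range (2 * t) := hI.trans (range_subset_range.2 (by omega))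
  have hza : za t τ B = τ + 2 * t * B := rfl
  rw [sv_split _ (Nat.zero_le _) (show za t τ B ≤ N by omega), sv_pat t τ hI2]
  rw [sv_eq_zero (v := pat t τ I V) (a := za t τ B), add_zero]
  intro k h1 h2
  unfold pat
  split_ifs with h
  · have hj := mem_range.1 (hI h.2)
    refine hV _ ?_
    rw [Nat.le_div_iff_mul_le (by omega)]
    have h5 : B * (2 * t) = 2 * t * B := by ring
    omega
  · rfl

/-- The zones which are used end before `τ + 2 t B`. -/
theorem pat_ne_zero {t τ : ℕ} {I : Finset ℕ} (hI : I ⊆ range t) {V : ℕ → ℤ} {B : ℕ} (hV : ∀ b, B ≤ b → V b = 0) {k : ℕ}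
    (hk : pat t τ I V k ≠ 0) : τ ≤ k ∧ k < τ + 2 * t * B := by
  unfold pat at hk
  split_ifs at hk with h
  · have hj := mem_range.1 (hI h.2)
    refine ⟨h.1, ?_⟩
    have hB : (k - τ) / (2 * t) < B := by
      by_contra hcon
      exact hk (hV _ (not_lt.1 hcon))
    rw [Nat.div_lt_iff_lt_mul (by omega)] at hB
    have h5 : B * (2 * t) = 2 * t * B := by ring
    omega
  · exact absurd rfl hk

/-- The times of the chosen shears. -/
def bigI (R t τ : ℕ) (I : Finset ℕ) (V : ℕ → ℤ) : Finset ℕ := (Core R).filter fun k => pat t τ I V k ≠ 0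

theorem bigI_sub (R t τ : ℕ) (I : Finset ℕ) (V : ℕ → ℤ) : bigI R t τ I V ⊆ Core R := filter_subset _ _

theorem mem_bigI {R t τ : ℕ} {I : Finset ℕ} (hI : I ⊆ range t) {V : ℕ → ℤ} {B : ℕ} (hV : ∀ b, B ≤ b → V b = 0)
    (h1 : R / 4 ≤ τ) (h2 : τ + 2 * t * B ≤ 3 * R / 4) {k : ℕ} : k ∈ bigI R t τ I V ↔ pat t τ I V k ≠ 0 := by
  unfold bigI
  rw [mem_filter]
  refine ⟨fun h => h.2, fun h => ⟨?_, h⟩⟩
  have h3 := pat_ne_zero hI hV h
  unfold Core
  rw [mem_Ico]
  omega

theorem pat_bigI {R t τ : ℕ} {I : Finset ℕ} (hI : I ⊆ range t) {V : ℕ → ℤ} {B : ℕ} (hV : ∀ b, B ≤ b → V b = 0)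
    (hV1 : ∀ b, V b = 1 ∨ V b = 0) (h1 : R / 4 ≤ τ) (h2 : τ + 2 * t * B ≤ 3 * R / 4) {k : ℕ} (hk : k < 2 * R) :
    pat R 0 (bigI R t τ I V) (fun _ => 1) k = pat t τ I V k := by
  have h3 : k % (2 * R) = k := Nat.mod_eq_of_lt hk
  have h4 : pat R 0 (bigI R t τ I V) (fun _ => 1) k = if k ∈ bigI R t τ I V then 1 else 0 := by
    unfold pat
    rw [Nat.sub_zero, h3]
    by_cases h : k ∈ bigI R t τ I V
    · rw [if_pos ⟨Nat.zero_le _, h⟩, if_pos h]
    · rw [if_neg fun h' => h h'.2, if_neg h]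
  rw [h4]
  by_cases h : k ∈ bigI R t τ I V
  · rw [if_pos h]
    rw [mem_bigI hI hV h1 h2] at h
    unfold pat at h ⊢
    split_ifs at h ⊢ with h5
    · rcases hV1 ((k - τ) / (2 * t)) with h6 | h6
      · exact h6.symm
      · exact absurd h6 h
    · exact absurd rfl h
  · rw [if_neg h]
    rw [mem_bigI hI hV h1 h2, not_not] at h
    exact h.symm

theorem card_bigI {R t τ n l : ℕ} {I : Finset ℕ} (hI : I ⊆ range t) (β : Fin n → Fin l) (h1 : R / 4 ≤ τ)
    (h2 : τ + 2 * t * (n * l) ≤ 3 * R / 4) : (bigI R t τ I (cho 1 β)).card = n * I.card := by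
  have hR : 3 * R / 4 ≤ R := by omega
  have e1 : ((bigI R t τ I (cho 1 β)).card : ℤ) = sv (pat t τ I (cho 1 β)) 0 R := by
    have e2 : sv (pat t τ I (cho 1 β)) 0 R = ∑ k ∈ range R, if k ∈ bigI R t τ I (cho 1 β) then (1 : ℤ) else 0 := by
      unfold sv
      rw [← range_eq_Ico]
      refine sum_congr rfl fun k hk => ?_
      rw [mem_range] at hk
      rw [← pat_bigI hI (fun b hb => cho_ge 1 β hb) (cho_values 1 β) h1 h2 (show k < 2 * R by omega)]
      unfold pat
      rw [Nat.sub_zero, Nat.mod_eq_of_lt (show k < 2 * R by omega)]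
      by_cases h : k ∈ bigI R t τ I (cho 1 β)
      · rw [if_pos ⟨Nat.zero_le _, h⟩, if_pos h]
      · rw [if_neg fun h' => h h'.2, if_neg h]
    rw [e2, ← sum_filter, filter_mem_eq_inter, sum_const, inter_eq_right.2, nsmul_eq_mul, mul_one]
    intro k hk
    have := bigI_sub _ _ _ _ _ hk
    unfold Core at this
    rw [mem_Ico] at this
    rw [mem_range]
    omega
  have e3 : sv (pat t τ I (cho 1 β)) 0 R = I.card * ∑ b ∈ range (n * l), cho 1 β b :=
    sv_pat_total t τ hI (fun b hb => cho_ge 1 β hb) (by omega)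
  have e4 : ∑ b ∈ range (n * l), cho 1 β b = n := by
    rw [sum_cho (M := ℤ) 1 β (fun _ a => a) fun _ => rfl]
    simp
  rw [e3, e4] at e1
  have : ((bigI R t τ I (cho 1 β)).card : ℤ) = ((n * I.card : ℕ) : ℤ) := by
    rw [e1]
    push_cast
    ring
  exact_mod_cast this

/-! ### The kernels of the scale `R` -/

/-- A kernel which crosses all the zones, in the frame of the sheared environment. -/
theorem fk_cross {v : ℕ → ℤ} (w : Env) {u u' : ℕ} (huu : u ≤ u') (hv : ∀ k, k < u → v k = 0) (y : ℤ) :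
    fk μ s v w u u' 0 y = fk μ s 0 (shr 0 v w) u u' 0 (y + sv v 0 u') := by
  rw [fk_shr 0 v w (Nat.zero_le u) huu, zero_add, sv_eq_zero (v := v) (a := 0) (i := u) fun k _ hk => hv k hk, sub_zero,
    add_sub_cancel_right]

theorem pat_shift (t τ u : ℕ) (hu : u ≤ τ) (I : Finset ℕ) (V : ℕ → ℤ) : (fun k => pat t τ I V (u + k)) = pat t (τ - u) I V := by
  funext k
  unfold pat
  have e : u + k - τ = k - (τ - u) := by omega
  rw [e]
  by_cases h : τ ≤ u + k
  · have h' : τ - u ≤ k := by omega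
    simp only [h, h', true_and]
  · have h' : ¬ (τ - u ≤ k) := by omega
    simp only [h, h', false_and, if_false]

/-- Translation of a kernel to the time zero. -/
theorem fk_sys (t τ : ℕ) (I : Finset ℕ) (V : ℕ → ℤ) (w : Env) {u u' : ℕ} (hu : u ≤ τ) (huu : u ≤ u') (y : ℤ) :
    fk μ s (pat t τ I V) w u u' 0 y = fk μ s (pat t (τ - u) I V) (sh ((u : ℤ), 0) w) 0 (u' - u) 0 y := by
  have h := fk_time (μ := μ) (s := s) (pat t τ I V) w u 0 (u' - u) 0 y
  rw [add_zero, show u + (u' - u) = u' by omega, pat_shift t τ u hu] at h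
  exact h

theorem fk_sys_zero (w : Env) {u u' : ℕ} (huu : u ≤ u') (y : ℤ) :
    fk μ s 0 w u u' 0 y = fk μ s 0 (sh ((u : ℤ), 0) w) 0 (u' - u) 0 y := by
  have h := fk_time (μ := μ) (s := s) 0 w u 0 (u' - u) 0 y
  rw [add_zero, show u + (u' - u) = u' by omega] at h
  exact h

/-- Translation of a zone. -/
theorem fb_sys (t τ : ℕ) (I : Finset ℕ) (w : Env) {u : ℕ} (hu : u ≤ τ) (b : ℕ) (a : ℤ) (X : ℕ → ℤ) :
    fb μ s t (τ - u) I (sh ((u : ℤ), 0) w) b a X = fb μ s t τ I w b a fun k => X (k - u) := by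
  have e1 : za t τ b = u + za t (τ - u) b := by unfold za; omega
  have e2 : zb t τ b = u + zb t (τ - u) b := by unfold zb; omega
  unfold fb
  rw [e1, e2, fk_time, pat_shift t τ u hu]
  congr 2
  · omega
  · omega

/-- The sheared environment of a translated system. -/
theorem shr_sys {v : ℕ → ℤ} (w : Env) {u : ℕ} (hv : ∀ k, k < u → v k = 0) {p : Pt} (hp : 0 ≤ p.1) :
    shr 0 (fun k => v (u + k)) (sh ((u : ℤ), 0) w) p = sh ((u : ℤ), 0) (shr 0 v w) p := by
  obtain ⟨i, z⟩ := p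
  lift i to ℕ using hp
  have e1 : sh ((u : ℤ), 0) (shr 0 v w) ((i : ℤ), z) = shr 0 v w (((u + i : ℕ) : ℤ), z) := by
    unfold sh
    congr 1
    refine Prod.ext ?_ ?_
    · show (i : ℤ) + (u : ℤ) = ((u + i : ℕ) : ℤ)
      push_cast
      ring
    · show z + 0 = z
      rw [add_zero]
  have e2 : sv v 0 (u + i) = sv (fun k => v (u + k)) 0 i := by
    rw [sv_split v (Nat.zero_le u) (Nat.le_add_right u i), sv_eq_zero (v := v) (a := 0) (i := u) fun k _ hk => hv k hk, zero_add]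
    unfold sv
    rw [sum_Ico_eq_sum_range, sum_Ico_eq_sum_range, Nat.add_sub_cancel_left]
    refine sum_congr (by rw [Nat.sub_zero]) fun k _ => ?_
    rw [Nat.zero_add]
  rw [e1, shr_apply, shr_apply, e2]
  unfold sh
  congr 1
  refine Prod.ext ?_ ?_
  · show (i : ℤ) + (u : ℤ) = ((u + i : ℕ) : ℤ)
    push_cast
    ring
  · show z - _ + 0 = z - _
    rw [add_zero]

end

end Pool.Agent.W_7d29a1_HZ.Z22
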