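import Pool.Agent.W_7d29a1_HS.Rec
import Pool.Agent.W_7d29a1_HL.Cor

/-!
STORM Z at every tilt (model: `W_7d29a1_Z22.ConeTail`): the cost of a displacement `(n, y)` with `|y - sl n| ≤ R w_n + 1`, `R ≥ 1`
(wide cone), is at most `K R ^ κ u E_n`, except
with probability `A R ^ κ exp (- b u ^ γ)`: the displacement is cut in `N ≤ C R ^ κ` pieces whose slopes are in the narrow cone of
their scale (`vA_pow`), each piece has the tail `unlucky_exp`. Small times: the trivial bound. (helper7)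
-/

set_option autoImplicit false

namespace Pool.Agent.W_7d29a1_HZ.Z22

open MeasureTheory ProbabilityTheory Filter Topology
open Pool.Agent.W_7d29a1_F Pool.Agent.W_7d29a1_h4g Pool.Agent.W_7d29a1_H Pool.Agent.W_7d29a1_HS

noncomputable section

/-- The position at the time `i` of the straight chain from `0` to `(n, y)`. -/
def px (n : ℕ) (y : ℤ) (i : ℕ) : ℤ := y * i / n

theorem px_zero (n : ℕ) (y : ℤ) : px n y 0 = 0 := by simp [px]

theorem px_self {n : ℕ} (hn : 1 ≤ n) (y : ℤ) : px n y n = y := by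
  unfold px
  exact Int.mul_ediv_cancel y (by exact_mod_cast (by omega : n ≠ 0))

theorem px_mono {n : ℕ} {y : ℤ} (hn : 1 ≤ n) (h0 : 0 ≤ y) {i j : ℕ} (hij : i ≤ j) : px n y i ≤ px n y j := by
  unfold px
  refine Int.ediv_le_ediv (by exact_mod_cast (by omega : 0 < n)) ?_
  have : (i : ℤ) ≤ j := by exact_mod_cast hij
  exact mul_le_mul_of_nonneg_left this h0

theorem px_lip {n : ℕ} {y : ℤ} (hn : 1 ≤ n) (h1 : y ≤ n) {i j : ℕ} (hij : i ≤ j) : px n y j - px n y i ≤ ((j - i : ℕ) : ℤ) := by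
  unfold px
  have hn0 : (0 : ℤ) < n := by exact_mod_cast (by omega : 0 < n)
  have h2 : y * j ≤ y * i + n * ((j - i : ℕ) : ℤ) := by
    rw [Nat.cast_sub hij]
    have : (i : ℤ) ≤ j := by exact_mod_cast hij
    nlinarith
  have h3 := Int.ediv_le_ediv hn0 h2
  rw [Int.add_mul_ediv_left _ _ hn0.ne'] at h3
  linarith

theorem px_real {n : ℕ} {y : ℤ} (hn : 1 ≤ n) (i : ℕ) :
    ((px n y i : ℤ) : ℝ) ≤ (y : ℝ) * i / n ∧ (y : ℝ) * i / n < (px n y i : ℝ) + 1 := by
  have hn0 : (0 : ℤ) < n := by exact_mod_cast (by omega : 0 < n)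
  have hnR : (0 : ℝ) < n := by exact_mod_cast hn0
  unfold px
  constructor
  · rw [le_div_iff₀ hnR]
    have h := Int.ediv_mul_le (y * i) hn0.ne'
    exact_mod_cast h
  · rw [div_lt_iff₀ hnR]
    have h := Int.lt_ediv_add_one_mul_self (y * i) hn0
    exact_mod_cast h

/-- The slope of a piece. -/
theorem px_slope {n : ℕ} {y : ℤ} (hn : 1 ≤ n) {σ v : ℝ} (hv : |(y : ℝ) - σ * n| ≤ v * n) {i j : ℕ} (hij : i ≤ j) :
    |((px n y j - px n y i : ℤ) : ℝ) - σ * ((j - i : ℕ) : ℝ)| ≤ v * ((j - i : ℕ) : ℝ) + 1 := by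
  have hnR : (0 : ℝ) < n := by exact_mod_cast (by omega : 0 < n)
  obtain ⟨a1, a2⟩ := px_real (y := y) hn i
  obtain ⟨b1, b2⟩ := px_real (y := y) hn j
  have hij' : (0 : ℝ) ≤ (j : ℝ) - i := by
    have : (i : ℝ) ≤ j := by exact_mod_cast hij
    linarith
  have e1 : (y : ℝ) * j / n - (y : ℝ) * i / n = σ * ((j : ℝ) - i) + ((y : ℝ) - σ * n) / n * ((j : ℝ) - i) := by
    field_simp
    ring
  have e2 : |((y : ℝ) - σ * n) / n * ((j : ℝ) - i)| ≤ v * ((j : ℝ) - i) := by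
    rw [abs_mul, abs_of_nonneg hij', abs_div, abs_of_pos hnR]
    refine mul_le_mul_of_nonneg_right ?_ hij'
    rw [div_le_iff₀ hnR]
    exact hv
  have e3 := abs_le.1 e2
  rw [Nat.cast_sub hij, Int.cast_sub, abs_le]
  constructor <;> linarith

variable {μ : Measure ℝ}

/-- The cost of the chain is at most the sum of the positive parts of the costs of the pieces. -/
theorem chain_le {s : ℝ} {n : ℕ} (x : ℕ → ℤ) (hx0 : x 0 = 0)
    (hx : ∀ i j : ℕ, i ≤ j → j ≤ n → 0 ≤ x j - x i ∧ x j - x i ≤ ((j - i : ℕ) : ℤ)) (τ : ℕ → ℕ) (hτ0 : τ 0 = 0)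
    (hτ : ∀ k, τ k ≤ τ (k + 1)) (hτt : ∀ k, τ k ≤ n) (a : Pt) (η : Env) (k : ℕ) :
    X μ s η a (τ k) (x (τ k)) ≤ ∑ i ∈ Finset.range k,
      max (X μ s η (a.1 + τ i, a.2 + x (τ i)) (τ (i + 1) - τ i) (x (τ (i + 1)) - x (τ i))) 0 := by
  induction k with
  | zero =>
    rw [hτ0, hx0, Finset.sum_range_zero]
    simp [X, W, WR, Zr]
  | succ k ih =>
    rw [Finset.sum_range_succ]
    have h1 := hx 0 (τ k) (Nat.zero_le _) (hτt k)
    have h2 := hx (τ k) (τ (k + 1)) (hτ k) (hτt (k + 1))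
    rw [hx0, Nat.sub_zero] at h1
    have h3 := X_add_le (μ := μ) (s := s) η a (m := τ k) (n := τ (k + 1) - τ k) (k := x (τ k))
      (y := x (τ (k + 1)) - x (τ k)) (by linarith [h1.1]) (by linarith [h1.2]) h2.1 h2.2
    have h4 : τ k + (τ (k + 1) - τ k) = τ (k + 1) := by have := hτ k; omega
    have h5 : x (τ k) + (x (τ (k + 1)) - x (τ k)) = x (τ (k + 1)) := by ring
    rw [h4, h5] at h3
    exact h3.trans (add_le_add ih (le_max_left _ _))

variable [IsProbabilityMeasure μ] {s c C : ℝ} {n₀ : ℕ}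

/-- Pieces of time at most `m` with slopes in the narrow cone: `N` pieces, `N m ≥ n`. -/
theorem chain_tail {n m N : ℕ} (hn : 1 ≤ n) (hm : 1 ≤ m) (hN : (N - 1) * m < n) (hNn : n ≤ N * m) {y : ℤ} (h0 : 0 ≤ y)
    (h1 : y ≤ n) {v : ℝ} (hv : |(y : ℝ) - sl μ s * n| ≤ v * n) {t p : ℝ} (ht : 0 < t)
    (hp : ∀ (k : ℕ) (z : ℤ), 1 ≤ k → k ≤ m → 0 ≤ z → z ≤ k → |(z : ℝ) - sl μ s * k| ≤ v * k + 1 →
      (law μ).real {η | t ≤ X μ s η 0 k z} ≤ p) :
    (law μ).real {η | N * t ≤ X μ s η 0 n y} ≤ N * p := by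
  have hN1 : 1 ≤ N := by
    rcases Nat.eq_zero_or_pos N with h | h
    · rw [h, zero_mul] at hNn
      omega
    · exact h
  have hx : ∀ i j : ℕ, i ≤ j → j ≤ n → 0 ≤ px n y j - px n y i ∧ px n y j - px n y i ≤ ((j - i : ℕ) : ℤ) :=
    fun i j hij _ => ⟨by linarith [px_mono hn h0 hij], px_lip hn h1 hij⟩
  obtain ⟨τ, hτ⟩ : ∃ τ : ℕ → ℕ, ∀ k, τ k = min (k * m) n := ⟨_, fun _ => rfl⟩
  have hτ0 : τ 0 = 0 := by rw [hτ]; simp
  have hτm : ∀ k, τ k ≤ τ (k + 1) := fun k => by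
    rw [hτ, hτ]
    exact min_le_min_right n (Nat.mul_le_mul_right m (Nat.le_succ k))
  have hτn : ∀ k, τ k ≤ n := fun k => by rw [hτ]; exact min_le_right _ _
  have hτN : τ N = n := by rw [hτ]; exact min_eq_right hNn
  have hd1 : ∀ k, k < N → 1 ≤ τ (k + 1) - τ k := by
    intro k hk
    have h2 : k * m ≤ (N - 1) * m := Nat.mul_le_mul_right m (by omega)
    have h3 : (k + 1) * m = k * m + m := by ring
    rw [hτ, hτ]
    omega
  have hd2 : ∀ k, τ (k + 1) - τ k ≤ m := by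
    intro k
    have h3 : (k + 1) * m = k * m + m := by ring
    rw [hτ, hτ]
    omega
  have hsub : {η : Env | N * t ≤ X μ s η 0 n y} ⊆ ⋃ i ∈ Finset.range N,
      {η : Env | t ≤ X μ s η ((0 : Pt).1 + τ i, (0 : Pt).2 + px n y (τ i)) (τ (i + 1) - τ i)
        (px n y (τ (i + 1)) - px n y (τ i))} := by
    intro η hη
    rw [Set.mem_ofPred_eq] at hη
    have h2 := chain_le (μ := μ) (s := s) (px n y) (px_zero n y) hx τ hτ0 hτm hτn 0 η N
    rw [hτN, px_self hn] at h2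
    by_contra hcon
    simp only [Set.mem_iUnion, not_exists, Set.mem_ofPred_eq, not_le] at hcon
    have h3 : ∑ i ∈ Finset.range N, max (X μ s η ((0 : Pt).1 + τ i, (0 : Pt).2 + px n y (τ i)) (τ (i + 1) - τ i)
        (px n y (τ (i + 1)) - px n y (τ i))) 0 < ∑ _i ∈ Finset.range N, t := by
      refine Finset.sum_lt_sum_of_nonempty ⟨0, Finset.mem_range.2 hN1⟩ fun i hi => ?_
      exact max_lt (hcon i hi) ht
    rw [Finset.sum_const, Finset.card_range, nsmul_eq_mul] at h3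
    linarith
  refine (measureReal_mono hsub (measure_ne_top _ _)).trans ((measureReal_biUnion_finset_le _ _).trans ?_)
  have h4 : ∀ i ∈ Finset.range N, (law μ).real {η : Env | t ≤ X μ s η ((0 : Pt).1 + τ i, (0 : Pt).2 + px n y (τ i))
      (τ (i + 1) - τ i) (px n y (τ (i + 1)) - px n y (τ i))} ≤ p := by
    intro i hi
    rw [tail_sh]
    have h5 := hx (τ i) (τ (i + 1)) (hτm i) (hτn _)
    refine hp _ _ (hd1 i (Finset.mem_range.1 hi)) (hd2 i) h5.1 h5.2 ?_
    exact px_slope hn hv (hτm i)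
  refine (Finset.sum_le_sum h4).trans ?_
  rw [Finset.sum_const, Finset.card_range, nsmul_eq_mul]

/-- **THE COST IN THE WIDE CONE.** -/
theorem cone_tail (h : In μ s c C n₀) : ∃ A K κ b γ : ℝ, 0 < A ∧ 1 ≤ K ∧ 0 < κ ∧ 0 < b ∧ 0 < γ ∧ γ ≤ 1 ∧
    ∀ n : ℕ, 1 ≤ n → ∀ R : ℝ, 1 ≤ R → ∀ y : ℤ, 0 ≤ y → y ≤ n → |(y : ℝ) - sl μ s * n| ≤ R * wd μ s n + 1 → ∀ u : ℝ, 1 ≤ u →
      (law μ).real {η | K * R ^ κ * u * EE μ s n ≤ X μ s η 0 n y} ≤ A * R ^ κ * Real.exp (-(b * u ^ γ)) := by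
  have hc0 := h.c0
  have hc1 := h.c1
  obtain ⟨A, c', γ, hA, hc', hγ, hγ1, hU⟩ := unlucky_exp h
  obtain ⟨a, K, n₁, ha, _, hK1, hn₁, hv'⟩ := Pool.Agent.W_7d29a1_HL.vA_pow h
  have hK : 0 < K := by linarith
  have hv : ∀ m n : ℕ, n₁ ≤ m → m ≤ n → vA 1 μ s n ≤ K * ((m : ℝ) / n) ^ a * vA 1 μ s m := by
    intro m n hm hmn
    have h1 := hv' m n hm hmn
    have hm0 : (0 : ℝ) < m := by exact_mod_cast (by omega : 0 < m)
    have hn0 : (0 : ℝ) < n := by exact_mod_cast (by omega : 0 < n)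
    have h2 : ((n : ℝ) / m) ^ a * ((m : ℝ) / n) ^ a = 1 := by
      rw [← Real.mul_rpow (by positivity) (by positivity)]
      have : (n : ℝ) / m * (m / n) = 1 := by field_simp
      rw [this, Real.one_rpow]
    have h3 : 0 < ((m : ℝ) / n) ^ a := by positivity
    calc vA 1 μ s n = vA 1 μ s n * (((n : ℝ) / m) ^ a * ((m : ℝ) / n) ^ a) := by rw [h2, mul_one]
      _ = vA 1 μ s n * ((n : ℝ) / m) ^ a * ((m : ℝ) / n) ^ a := by ring
      _ ≤ K * vA 1 μ s m * ((m : ℝ) / n) ^ a := mul_le_mul_of_nonneg_right h1 h3.le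
      _ = K * ((m : ℝ) / n) ^ a * vA 1 μ s m := by ring
  clear hv'
  obtain ⟨C₁, hC₁, htriv⟩ := triv h.em s
  obtain ⟨n₂, hw⟩ := (tendsto_atTop.1 (wd_tendsto h) 1).exists_forall_of_atTop
  -- the number of pieces
  obtain ⟨D, hD⟩ : ∃ D : ℝ, D = max 1 (64 * K / c) := ⟨_, rfl⟩
  have hD1 : 1 ≤ D := by rw [hD]; exact le_max_left _ _
  have hD2 : 64 * K / c ≤ D := by rw [hD]; exact le_max_right _ _
  have hκ : 0 < 1 / a := by positivity
  obtain ⟨Q₀, hQ₀⟩ : ∃ Q₀ : ℝ, Q₀ = D ^ (1 / a) := ⟨_, rfl⟩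
  have hQ₀1 : 1 ≤ Q₀ := by rw [hQ₀]; exact Real.one_le_rpow hD1 hκ.le
  obtain ⟨M, hM⟩ : ∃ M : ℝ, M = 2 * ((n₁ : ℝ) + n₂ + 1) := ⟨_, rfl⟩
  have hM2 : 2 ≤ M := by rw [hM]; have := Nat.cast_nonneg (α := ℝ) n₁; have := Nat.cast_nonneg (α := ℝ) n₂; linarith
  obtain ⟨K₃, hK₃⟩ : ∃ K₃ : ℝ, K₃ = 3 + C₁ * M + 2 * c' := ⟨_, rfl⟩
  have hCM : 0 < C₁ * M := by positivity
  have hK₃3 : 3 ≤ K₃ := by
    rw [hK₃]
    linarith
  refine ⟨3 * (A + 1) * Q₀, K₃ * Q₀, 1 / a, c', γ, by positivity, ?_, hκ, hc', hγ, hγ1, fun n hn R hR y h0 h1 hy u hu => ?_⟩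
  · exact one_le_mul_of_one_le_of_one_le (by linarith) hQ₀1
  obtain ⟨Q, hQ⟩ : ∃ Q : ℝ, Q = Q₀ * R ^ (1 / a) := ⟨_, rfl⟩
  have hRκ : 1 ≤ R ^ (1 / a) := Real.one_le_rpow hR hκ.le
  have hQ1 : 1 ≤ Q := by rw [hQ]; exact one_le_mul_of_one_le_of_one_le hQ₀1 hRκ
  have hQa : Q ^ a = D * R := by
    rw [hQ, hQ₀, Real.mul_rpow (by positivity) (by positivity), ← Real.rpow_mul (by positivity), ← Real.rpow_mul (by positivity),
      one_div, inv_mul_cancel₀ ha.ne', Real.rpow_one, Real.rpow_one]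
  have hnR : (1 : ℝ) ≤ n := by exact_mod_cast hn
  have hn0 : (0 : ℝ) < n := by linarith
  have hug : 0 ≤ u ^ γ := by positivity
  have hE1 := one_le_EE (μ := μ) (s := s) n
  have eK : K₃ * Q₀ * R ^ (1 / a) * u * EE μ s n = K₃ * Q * u * EE μ s n := by rw [hQ]; ring
  have eA : 3 * (A + 1) * Q₀ * R ^ (1 / a) * Real.exp (-(c' * u ^ γ)) = 3 * (A + 1) * Q * Real.exp (-(c' * u ^ γ)) := by
    rw [hQ]; ring
  rw [eK, eA]
  by_cases hbig : M * Q ≤ n
  · -- many scales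
    have hQn : 1 ≤ (n : ℝ) / Q := by
      rw [le_div_iff₀ (by linarith)]
      have h2 : 1 * Q ≤ M * Q := mul_le_mul_of_nonneg_right (by linarith) (by linarith)
      linarith
    obtain ⟨m, hm⟩ : ∃ m : ℕ, m = ⌊(n : ℝ) / Q⌋₊ := ⟨_, rfl⟩
    have hm1 : (m : ℝ) ≤ n / Q := by rw [hm]; exact Nat.floor_le (by positivity)
    have hm2 : (n : ℝ) / Q < m + 1 := by rw [hm]; exact Nat.lt_floor_add_one _
    have hMQ : M ≤ (n : ℝ) / Q := by
      rw [le_div_iff₀ (by linarith)]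
      exact hbig
    have hmn1 : n₁ + n₂ + 1 ≤ m := by
      have h2 : (n₁ : ℝ) + n₂ + 1 < m + 1 := by
        have h3 : (n₁ : ℝ) + n₂ + 1 ≤ M := by
          rw [hM]
          have := Nat.cast_nonneg (α := ℝ) n₁
          have := Nat.cast_nonneg (α := ℝ) n₂
          linarith
        linarith
      have h3 : n₁ + n₂ + 1 < m + 1 := by exact_mod_cast h2
      omega
    have hm0 : 1 ≤ m := by omega
    have hmR : (1 : ℝ) ≤ m := by exact_mod_cast hm0
    have hmQ : (m : ℝ) * Q ≤ n := by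
      rw [le_div_iff₀ (by linarith)] at hm1
      exact hm1
    have hmn : m ≤ n := by
      have : (m : ℝ) ≤ n := by
        have h2 : (m : ℝ) * 1 ≤ m * Q := mul_le_mul_of_nonneg_left hQ1 (by linarith)
        linarith
      exact_mod_cast this
    -- the slope
    have hva := hv m n (by omega) hmn
    have hvm := h.vA_nonneg m
    have hvn := h.vA_nonneg n
    have hratio : ((m : ℝ) / n) ^ a ≤ 1 / (D * R) := by
      rw [← hQa, one_div, ← Real.inv_rpow (by linarith)]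
      refine Real.rpow_le_rpow (by positivity) ?_ ha.le
      rw [inv_eq_one_div, div_le_div_iff₀ hn0 (by linarith)]
      linarith
    have hslope : ∀ k : ℕ, 1 ≤ k → k ≤ m → 2 * R * vA 1 μ s n ≤ c / 16 * vA 1 μ s k := by
      intro k hk hkm
      have h2 := vA_le_two h hk hkm
      have h3 : vA 1 μ s n ≤ K * (1 / (D * R)) * (2 * vA 1 μ s k) := by
        refine hva.trans ?_
        refine mul_le_mul ?_ h2 hvm (by positivity)
        exact mul_le_mul_of_nonneg_left hratio hK.le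
      have h4 : K ≤ c / 64 * D := by
        rw [div_le_iff₀ hc0] at hD2
        linarith
      have hvk := h.vA_nonneg k
      have h5 : 2 * R * (K * (1 / (D * R)) * (2 * vA 1 μ s k)) = 4 * K / D * vA 1 μ s k := by
        field_simp
        ring
      have h6 : 4 * K / D ≤ c / 16 := by
        rw [div_le_iff₀ (by linarith)]
        linarith
      calc 2 * R * vA 1 μ s n ≤ 2 * R * (K * (1 / (D * R)) * (2 * vA 1 μ s k)) := mul_le_mul_of_nonneg_left h3 (by linarith)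
        _ = 4 * K / D * vA 1 μ s k := h5
        _ ≤ c / 16 * vA 1 μ s k := mul_le_mul_of_nonneg_right h6 hvk
    have hwn := hw n (by omega)
    have hyv : |(y : ℝ) - sl μ s * n| ≤ 2 * R * vA 1 μ s n * n := by
      have e1 : wd μ s n = n * vA 1 μ s n := rfl
      refine hy.trans ?_
      have e2 : 2 * R * vA 1 μ s n * n = 2 * (R * wd μ s n) := by rw [e1]; ring
      rw [e2]
      have e3 := one_le_mul_of_one_le_of_one_le hR hwn
      linarith
    -- the number of pieces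
    obtain ⟨N, hN⟩ : ∃ N : ℕ, N = (n - 1) / m + 1 := ⟨_, rfl⟩
    have hN1 : (N - 1) * m < n := by
      have := Nat.div_mul_le_self (n - 1) m
      rw [hN]
      simp only [Nat.add_sub_cancel]
      omega
    have hN2 : n ≤ N * m := by
      have := Nat.lt_div_mul_add (a := n - 1) (b := m) (by omega)
      rw [hN, add_mul, one_mul]
      omega
    have hN3 : (N : ℝ) ≤ 3 * Q := by
      have h2 : ((N - 1 : ℕ) : ℝ) * m < n := by exact_mod_cast hN1
      have h3 : ((N - 1 : ℕ) : ℝ) = N - 1 := by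
        rw [Nat.cast_sub (by rw [hN]; exact Nat.le_add_left 1 _)]
        simp
      rw [h3] at h2
      have h4 : (n : ℝ) < 2 * Q * m := by
        have h5 : (n : ℝ) / Q < 2 * m := by linarith
        rw [div_lt_iff₀ (by linarith)] at h5
        linarith
      have h6 : ((N : ℝ) - 1) * m < 2 * Q * m := h2.trans h4
      have h7 : (N : ℝ) - 1 < 2 * Q := lt_of_mul_lt_mul_right h6 (by linarith)
      linarith
    have hu0 : 0 < u * EE μ s n := by positivity
    have hmain := chain_tail (μ := μ) (t := u * EE μ s n) (p := A * Real.exp (-(c' * u ^ γ))) hn hm0 hN1 hN2 h0 h1 hyv hu0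
      (fun k z hk hkm hz0 hz1 hz => by
        refine le_trans (measureReal_mono (fun η hη => ?_) (measure_ne_top _ _)) (hU k hk z hz0 hz1 (hz.trans ?_) u (by linarith))
        · rw [Set.mem_ofPred_eq] at hη ⊢
          refine le_trans ?_ hη
          exact mul_le_mul_of_nonneg_left (EE_mono (hkm.trans hmn)) (by linarith)
        · have := hslope k hk hkm
          have hk0 : (0 : ℝ) ≤ k := Nat.cast_nonneg k
          have h9 := mul_le_mul_of_nonneg_right this hk0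
          linarith)
    refine le_trans (measureReal_mono (fun η hη => ?_) (measure_ne_top _ _)) (hmain.trans ?_)
    · rw [Set.mem_ofPred_eq] at hη ⊢
      refine le_trans ?_ hη
      have h2 : (N : ℝ) ≤ K₃ * Q := hN3.trans (mul_le_mul_of_nonneg_right hK₃3 (by linarith))
      calc (N : ℝ) * (u * EE μ s n) ≤ K₃ * Q * (u * EE μ s n) := mul_le_mul_of_nonneg_right h2 hu0.le
        _ = K₃ * Q * u * EE μ s n := by ring
    · have h2 : 0 < Real.exp (-(c' * u ^ γ)) := Real.exp_pos _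
      calc (N : ℝ) * (A * Real.exp (-(c' * u ^ γ))) ≤ 3 * Q * (A * Real.exp (-(c' * u ^ γ))) :=
            mul_le_mul_of_nonneg_right hN3 (by positivity)
        _ ≤ 3 * (A + 1) * Q * Real.exp (-(c' * u ^ γ)) := by
            have : 0 ≤ 3 * Q * Real.exp (-(c' * u ^ γ)) := by positivity
            linarith
  · -- small times
    push Not at hbig
    have hs : C₁ * n ≤ K₃ * Q * u := by
      have h2 : C₁ * n ≤ C₁ * (M * Q) := mul_le_mul_of_nonneg_left hbig.le hC₁.le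
      have h3 : C₁ * M ≤ K₃ := by rw [hK₃]; linarith
      have h4 : C₁ * M * Q ≤ K₃ * Q := mul_le_mul_of_nonneg_right h3 (by linarith)
      have h5 : 0 ≤ K₃ * Q := by positivity
      have h6 : K₃ * Q * 1 ≤ K₃ * Q * u := mul_le_mul_of_nonneg_left hu h5
      linarith
    have h2 := htriv n y (K₃ * Q * u) (EE μ s n) h0 h1 hE1 hs
    refine h2.trans ?_
    have h3 : Real.exp (-(1 / 2 * (K₃ * Q * u))) ≤ Real.exp (-(c' * u ^ γ)) := by
      refine Real.exp_le_exp.2 (neg_le_neg ?_)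
      have h4 : u ^ γ ≤ u := by
        calc u ^ γ ≤ u ^ (1 : ℝ) := Real.rpow_le_rpow_of_exponent_le hu hγ1
          _ = u := Real.rpow_one u
      have h5 : 2 * c' ≤ K₃ * Q := by
        have h6 : 2 * c' ≤ K₃ := by
          rw [hK₃]
          linarith
        have h7 : K₃ * 1 ≤ K₃ * Q := mul_le_mul_of_nonneg_left hQ1 (by linarith)
        linarith
      have h7 : c' * u ^ γ ≤ c' * u := mul_le_mul_of_nonneg_left h4 hc'.le
      have h8 : 2 * c' * u ≤ K₃ * Q * u := mul_le_mul_of_nonneg_right h5 (by linarith)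
      linarith
    refine h3.trans ?_
    have h6 : 1 ≤ 3 * (A + 1) * Q := one_le_mul_of_one_le_of_one_le (by linarith) hQ1
    have h7 := mul_le_mul_of_nonneg_right h6 (Real.exp_pos (-(c' * u ^ γ))).le
    linarith

end

end Pool.Agent.W_7d29a1_HZ.Z22
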