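import Pool.Agent.W_7d29a1_HZ.Act12
import Pool.Agent.W_7d29a1_Z.PthB
import Pool.Agent.W_7d29a1_Z.Bri
import Pool.Agent.W_7d29a1_Z.Shr
import Pool.Agent.W_7d29a1_Z79.SkelQ

/-!
STORM Z AT ONE TILT, (RC) in the names of `Defs.lean`: the sheared weight of a set of paths, for a list of pieces `Q` which contains all the shears.
(helper22, with `skelQ` of helper79)
-/

set_option autoImplicit false

namespace Pool.Agent.W_7d29a1_HZ.Z22

open MeasureTheory Finset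
open Pool.Agent.W_7d29a1_H (sl)
open Pool.Agent.W_7d29a1_Z (Kf Kf_shK_zero W_eq_Kf shK shK_apply Kf_eq79 ps_eq79 ps_pos pw_eq79 pw_pth)
open Pool.Agent.W_7d29a1_F Pool.Agent.W_7d29a1_X Pool.Agent.W_7d29a1_HZ Pool.Agent.W_7d29a1_HZ.A12

noncomputable section

variable {μ : Measure ℝ} {s : ℝ}

/-- The cumulated jumps of the frame. -/
def dj (v : ℕ → ℤ) : ℕ → ℤ := fun t => -sv v 0 t

/-- The kernel of the sheared model as a kernel of pieces. -/
theorem W_shr_Kf (v : ℕ → ℤ) (η : Env) {a b : ℕ} (hab : a ≤ b) (x y : ℤ) :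
    W μ s (shr a v η) ((a : ℤ), x) (b - a) (y - x + sv v a b) = Kf μ s (dj v) η a x b y := by
  have h1 := Kf_shK_zero (μ := μ) (s := s) (dj v) η a x b y
  have h2 := W_eq_Kf (μ := μ) (s := s) (shK (dj v) η) a (x - dj v a) (b - a) (y - x + sv v a b)
  have e1 : a + (b - a) = b := by omega
  have e2 : x - dj v a + (y - x + sv v a b) = y - dj v b := by
    unfold dj
    rw [sv_split v (Nat.zero_le a) hab]
    ring
  rw [e1, e2] at h2
  rw [h1, ← h2]
  refine W_cong _ (fun m _ z => ?_) _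
  show shr a v η ((a : ℤ) + ((m : ℤ) + 1), x + z) = shK (dj v) η ((a : ℤ) + ((m : ℤ) + 1), x - dj v a + z)
  have e3 : (a : ℤ) + ((m : ℤ) + 1) = ((a + (m + 1) : ℕ) : ℤ) := by push_cast; ring
  rw [e3, shr_apply, shK_apply]
  congr 2
  unfold dj
  rw [sv_split v (Nat.zero_le a) (show a ≤ a + (m + 1) by omega)]
  ring

theorem fk_eq_Kf (v : ℕ → ℤ) (η : Env) {a b : ℕ} (hab : a ≤ b) (x y : ℤ) :
    fk μ s v η a b x y = Real.log (Kf μ s (dj v) η a x b y) := by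
  unfold fk
  rw [W_shr_Kf v η hab]

theorem fk_zero_eq_Kf (η : Env) {a b : ℕ} (hab : a ≤ b) (x y : ℤ) :
    fk μ s 0 η a b x y = Real.log (Kf μ s 0 η a x b y) := by
  rw [fk_eq_Kf 0 η hab]
  have : dj 0 = 0 := by
    funext t
    show -sv 0 0 t = 0
    rw [sv_zero, neg_zero]
  rw [this]

/-- The pieces in the form of `SkelQ.lean`. -/
theorem pcQ_of {v : ℕ → ℤ} {a b : ℕ} {J : Finset ℕ} {Q : Finset (ℕ × ℕ)} (hQ : Pcs v a b J Q) (η : Env) :
    Pool.Agent.W_7d29a1_Z79.PcQ (0 : ℕ → ℤ) (dj v) η η a b Q := by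
  refine ⟨hQ.sub, hQ.dis, fun k h1 h2 h3 => ?_⟩
  refine ⟨?_, fun z => rfl⟩
  have hv : v k = 0 := by
    by_contra hne
    obtain ⟨q, hq, hq'⟩ := hQ.cov k h1 h2 hne
    exact h3 q hq hq'
  show (0 : ℤ) - 0 = -sv v 0 (k + 1) - -sv v 0 k
  rw [sv_succ v (Nat.zero_le k), hv]
  ring

/-- **The sheared weight of a set of paths.** -/
theorem jen_le {N : ℕ} {y : ℤ} {v : ℕ → ℤ} {J : Finset ℕ} {Q : Finset (ℕ × ℕ)} (hQ : Pcs v 0 N J Q) (η : Env)
    (T : Finset (Finset ℕ)) (hT : ∀ S ∈ T, S ⊆ range N ∧ pos S N = y)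
    (hpos : ∀ S ∈ T, ∀ q ∈ Q, 0 ≤ pos S q.2 - pos S q.1 + sv v q.1 q.2 ∧
      pos S q.2 - pos S q.1 + sv v q.1 q.2 ≤ ((q.2 - q.1 : ℕ) : ℤ)) :
    ∑ S ∈ T, gp μ s η N y S * Real.exp (Xd μ s v Q η (pos S)) ≤ W μ s (shr 0 v η) 0 N (y + sv v 0 N) / W μ s η 0 N y := by
  classical
  have hkey := Pool.Agent.W_7d29a1_Z79.skelQ (h := s) (c := lam μ s) (d := 0) (d' := dj v) (η := η) (η' := η) 0 y (Nat.zero_le N)
    (pcQ_of hQ η)
  have hW : W μ s (shr 0 v η) 0 N (y + sv v 0 N) = Kf μ s (dj v) η 0 0 N y := by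
    have h := W_shr_Kf (μ := μ) (s := s) v η (Nat.zero_le N) 0 y
    rw [Nat.sub_zero, sub_zero] at h
    exact h
  have hK : Pool.Agent.W_7d29a1_Z79.Kn s (lam μ s) (dj v) η 0 0 N y = Kf μ s (dj v) η 0 0 N y :=
    (Kf_eq79 (dj v) η (Nat.zero_le N) 0 y).symm
  rw [hK, ← hW] at hkey
  have hD : 0 ≤ W μ s η 0 N y := W_nonneg η 0 N y
  -- each path
  have hterm : ∀ S ∈ T, gp μ s η N y S * Real.exp (Xd μ s v Q η (pos S)) =
      (Pool.Agent.W_7d29a1_Z79.wt s (lam μ s) (0 : ℕ → ℤ) η 0 0 N S *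
        ∏ q ∈ Q, Pool.Agent.W_7d29a1_Z79.rq s (lam μ s) (0 : ℕ → ℤ) η (dj v) η q (Pool.Agent.W_7d29a1_Z79.ps (0 : ℕ → ℤ) 0 0 S)) /
        W μ s η 0 N y := by
    intro S hS
    obtain ⟨hS1, hS2⟩ := hT S hS
    have hps : ∀ t, Pool.Agent.W_7d29a1_Z79.ps (0 : ℕ → ℤ) 0 0 S t = pos S t := fun t => by
      rw [← ps_eq79, ps_pos]
    have e1 : Pool.Agent.W_7d29a1_Z79.wt s (lam μ s) (0 : ℕ → ℤ) η 0 0 N S = pth μ s η N S := by
      rw [← pw_eq79 0 η (Nat.zero_le N), pw_pth]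
    have e2 : ∏ q ∈ Q, Pool.Agent.W_7d29a1_Z79.rq s (lam μ s) (0 : ℕ → ℤ) η (dj v) η q
        (Pool.Agent.W_7d29a1_Z79.ps (0 : ℕ → ℤ) 0 0 S) = Real.exp (Xd μ s v Q η (pos S)) := by
      unfold Xd
      rw [Real.exp_sum]
      refine prod_congr rfl fun q hq => ?_
      have h12 := (hQ.sub q hq).2.1
      unfold Pool.Agent.W_7d29a1_Z79.rq
      rw [hps, hps, ← Kf_eq79 (dj v) η h12, ← Kf_eq79 0 η h12, Real.exp_sub, fk_eq_Kf v η h12, fk_zero_eq_Kf η h12]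
      have p1 : 0 < Kf μ s (dj v) η q.1 (pos S q.1) q.2 (pos S q.2) := by
        rw [← W_shr_Kf v η h12]
        exact W_pos _ _ (hpos S hS q hq).1 (hpos S hS q hq).2
      have p2 : 0 < Kf μ s 0 η q.1 (pos S q.1) q.2 (pos S q.2) := by
        have h := Pool.Agent.W_7d29a1_Z79.Kn_pos_path (h := s) (c := lam μ s) (d := (0 : ℕ → ℤ)) (η := η) (x := pos S q.1)
          (i := q.1) (j := q.2) S
        rw [← Kf_eq79 0 η h12] at h
        have e3 : Pool.Agent.W_7d29a1_Z79.ps (0 : ℕ → ℤ) (pos S q.1) q.1 S q.2 = pos S q.2 := by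
          have h4 := Pool.Agent.W_7d29a1_Z79.ps_split (d := (0 : ℕ → ℤ)) (x := 0) (Nat.zero_le q.1) h12 S
          rw [hps, hps] at h4
          exact h4.symm
        rw [e3] at h
        exact h
      rw [Real.exp_log p1, Real.exp_log p2]
    rw [e1, e2]
    unfold gp
    rw [if_pos hS2]
    ring
  rw [sum_congr rfl hterm, ← sum_div]
  refine div_le_div_of_nonneg_right (le_trans ?_ hkey) hD
  refine sum_le_sum_of_subset_of_nonneg ?_ ?_
  · intro S hS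
    rw [mem_filter, mem_powerset]
    refine ⟨?_, ?_⟩
    · rw [← range_eq_Ico]
      exact (hT S hS).1
    · rw [← ps_eq79, ps_pos]
      exact (hT S hS).2
  · intro S _ _
    exact mul_nonneg (Pool.Agent.W_7d29a1_Z79.wt_pos _ _ _ _).le
      (prod_nonneg fun q _ => Pool.Agent.W_7d29a1_Z79.rq_nonneg _ _)

/-- Logarithmic form. -/
theorem log_jen_le {N : ℕ} {y : ℤ} (h0 : 0 ≤ y) (h1 : y ≤ N) {v : ℕ → ℤ} {J : Finset ℕ} {Q : Finset (ℕ × ℕ)} (hQ : Pcs v 0 N J Q)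
    (η : Env) (T : Finset (Finset ℕ)) (hne : T.Nonempty) (hT : ∀ S ∈ T, S ⊆ range N ∧ pos S N = y)
    (hpos : ∀ S ∈ T, ∀ q ∈ Q, 0 ≤ pos S q.2 - pos S q.1 + sv v q.1 q.2 ∧
      pos S q.2 - pos S q.1 + sv v q.1 q.2 ≤ ((q.2 - q.1 : ℕ) : ℤ)) :
    Real.log (∑ S ∈ T, gp μ s η N y S * Real.exp (Xd μ s v Q η (pos S))) ≤ fk μ s v η 0 N 0 y - fk μ s 0 η 0 N 0 y := by
  have h2 := jen_le (μ := μ) (s := s) hQ η T hT hpos
  have hD : 0 < W μ s η 0 N y := W_pos η 0 h0 h1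
  have hg : ∀ S ∈ T, 0 < gp μ s η N y S := by
    intro S hS
    unfold gp
    rw [if_pos (hT S hS).2]
    refine div_pos ?_ hD
    unfold pth
    exact mul_pos (Real.exp_pos _) (prod_pos fun _ _ => Real.exp_pos _)
  have h3 : 0 < ∑ S ∈ T, gp μ s η N y S * Real.exp (Xd μ s v Q η (pos S)) :=
    sum_pos (fun S hS => mul_pos (hg S hS) (Real.exp_pos _)) hne
  have h4 : 0 < W μ s (shr 0 v η) 0 N (y + sv v 0 N) := by
    rcases (W_nonneg (μ := μ) (s := s) (shr 0 v η) 0 N (y + sv v 0 N)).eq_or_lt with h | h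
    · rw [← h, zero_div] at h2
      linarith
    · exact h
  have h5 := Real.log_le_log h3 h2
  rw [Real.log_div h4.ne' hD.ne'] at h5
  have e1 : fk μ s v η 0 N 0 y = Real.log (W μ s (shr 0 v η) 0 N (y + sv v 0 N)) := by
    unfold fk
    rw [Nat.sub_zero, sub_zero]
    rfl
  have e2 : fk μ s 0 η 0 N 0 y = Real.log (W μ s η 0 N y) := by
    rw [fk_zero, Nat.sub_zero, sub_zero]
    rfl
  rw [e1, e2]
  exact h5

/-! ### The zones -/

/-- The list of the zones `0, .., B - 1`. -/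
def zns (t τ B : ℕ) : Finset (ℕ × ℕ) := (range B).image fun b => (za t τ b, zb t τ b)

theorem pcs_zns {t τ B N : ℕ} {I : Finset ℕ} (hI : I ⊆ range t) {V : ℕ → ℤ} (hV : ∀ b, B ≤ b → V b = 0)
    (hN : ∀ b < B, zb t τ b ≤ N) : Pcs (pat t τ I V) 0 N ∅ (zns t τ B) := by
  have hmem : ∀ q ∈ zns t τ B, ∃ b < B, q = (za t τ b, zb t τ b) := by
    intro q hq
    unfold zns at hq
    rw [mem_image] at hq
    obtain ⟨b, hb, rfl⟩ := hq
    exact ⟨b, mem_range.1 hb, rfl⟩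
  refine ⟨fun q hq => ?_, fun q hq r hr hne => ?_, fun k _ _ hk => ?_, fun i hi => absurd hi (notMem_empty i)⟩
  · obtain ⟨b, hb, rfl⟩ := hmem q hq
    exact ⟨Nat.zero_le _, by show za t τ b ≤ zb t τ b; rw [zb_eq]; omega, hN b hb⟩
  · obtain ⟨b, hb, rfl⟩ := hmem q hq
    obtain ⟨b', hb', rfl⟩ := hmem r hr
    rcases lt_trichotomy b b' with h | h | h
    · exact Or.inl (zb_le_za h)
    · exact absurd (by rw [h]) hne
    · exact Or.inr (zb_le_za h)
  · unfold pat at hk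
    split_ifs at hk with h
    · have hj := mem_range.1 (hI h.2)
      have hB : (k - τ) / (2 * t) < B := by
        by_contra hcon
        exact hk (hV _ (not_lt.1 hcon))
      refine ⟨(za t τ ((k - τ) / (2 * t)), zb t τ ((k - τ) / (2 * t))), ?_, ?_, ?_⟩
      · unfold zns
        exact mem_image_of_mem _ (mem_range.2 hB)
      · show za t τ ((k - τ) / (2 * t)) ≤ k
        unfold za
        have := Nat.mul_div_le (k - τ) (2 * t)
        omega
      · show k < zb t τ ((k - τ) / (2 * t))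
        unfold zb
        have := Nat.div_add_mod (k - τ) (2 * t)
        omega
    · exact absurd rfl hk

theorem fb_zero_eq_fk (t τ : ℕ) (I : Finset ℕ) (η : Env) (b : ℕ) (X : ℕ → ℤ) :
    fb μ s t τ I η b 0 X = fk μ s 0 η (za t τ b) (zb t τ b) (X (za t τ b)) (X (zb t τ b)) := by
  have h := fb_eq_fk (μ := μ) (s := s) t τ I 0 η b X
  rw [pat_zero] at h
  exact h

theorem Xd_zns {t τ B : ℕ} (ht : 0 < t) (I : Finset ℕ) (V : ℕ → ℤ) (η : Env) (X : ℕ → ℤ) :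
    Xd μ s (pat t τ I V) (zns t τ B) η X = ∑ b ∈ range B, (fb μ s t τ I η b (V b) X - fb μ s t τ I η b 0 X) := by
  unfold Xd zns
  rw [sum_image]
  · refine sum_congr rfl fun b _ => ?_
    rw [fb_eq_fk, fb_zero_eq_fk]
  · intro b _ b' _ h
    have h1 : za t τ b = za t τ b' := (Prod.ext_iff.1 h).1
    unfold za at h1
    have h2 : 2 * t * b = 2 * t * b' := by omega
    exact Nat.eq_of_mul_eq_mul_left (by omega) h2

/-- The positivity of the kernels, from the cone. -/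
theorem zone_pos_of_cone {t τ : ℕ} {I : Finset ℕ} {b : ℕ} {w : ℝ} {V : ℕ → ℤ} {S : Finset ℕ}
    (hc : |((pos S (zb t τ b) : ℝ) - pos S (za t τ b)) - sl μ s * t| ≤ w)
    (hw : w + (I.card : ℝ) * |(V b : ℝ)| ≤ min (sl μ s) (1 - sl μ s) * t) :
    0 ≤ pos S (zb t τ b) - pos S (za t τ b) + I.card * V b ∧
      pos S (zb t τ b) - pos S (za t τ b) + I.card * V b ≤ t := by
  have h1 : |(I.card : ℝ) * (V b : ℝ)| ≤ (I.card : ℝ) * |(V b : ℝ)| := by
    rw [abs_mul, abs_of_nonneg (Nat.cast_nonneg _)]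
  have hl := hw.trans (mul_le_mul_of_nonneg_right (min_le_left _ _) (Nat.cast_nonneg (α := ℝ) t))
  have hr := hw.trans (mul_le_mul_of_nonneg_right (min_le_right _ _) (Nat.cast_nonneg (α := ℝ) t))
  rw [abs_le] at hc h1
  constructor
  · have : (0 : ℝ) ≤ ((pos S (zb t τ b) - pos S (za t τ b) + I.card * V b : ℤ) : ℝ) := by
      push_cast
      linarith [hc.1, h1.1]
    exact_mod_cast this
  · have : ((pos S (zb t τ b) - pos S (za t τ b) + I.card * V b : ℤ) : ℝ) ≤ ((t : ℤ) : ℝ) := by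
      push_cast
      linarith [hc.2, h1.2]
    exact_mod_cast this

/-- **(RC), one sided, the zones `0, .., B - 1`, shears of the amplitudes `V`.** -/
theorem fk_jen {N : ℕ} {y : ℤ} (h0 : 0 ≤ y) (h1 : y ≤ N) {t τ B : ℕ} (ht : 0 < t) {I : Finset ℕ} (hI : I ⊆ range t)
    {V : ℕ → ℤ} (hV : ∀ b, B ≤ b → V b = 0) (hN : ∀ b < B, zb t τ b ≤ N) (η : Env) (T : Finset (Finset ℕ)) (hne : T.Nonempty)
    (hT : ∀ S ∈ T, S ⊆ range N ∧ pos S N = y)
    (hpos : ∀ S ∈ T, ∀ b < B, 0 ≤ pos S (zb t τ b) - pos S (za t τ b) + I.card * V b ∧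
      pos S (zb t τ b) - pos S (za t τ b) + I.card * V b ≤ t) :
    Real.log (∑ S ∈ T, gp μ s η N y S *
      Real.exp (∑ b ∈ range B, (fb μ s t τ I η b (V b) (pos S) - fb μ s t τ I η b 0 (pos S)))) ≤
      fk μ s (pat t τ I V) η 0 N 0 y - fk μ s 0 η 0 N 0 y := by
  have key := log_jen_le (μ := μ) (s := s) h0 h1 (pcs_zns hI hV hN) η T hne hT fun S hS q hq => by
    unfold zns at hq
    rw [mem_image] at hq
    obtain ⟨b, hb, rfl⟩ := hq
    have h := hpos S hS b (mem_range.1 hb)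
    show 0 ≤ pos S (zb t τ b) - pos S (za t τ b) + sv (pat t τ I V) (za t τ b) (zb t τ b) ∧
      pos S (zb t τ b) - pos S (za t τ b) + sv (pat t τ I V) (za t τ b) (zb t τ b) ≤ ((zb t τ b - za t τ b : ℕ) : ℤ)
    rw [sv_pat_zone t τ hI, show zb t τ b - za t τ b = t by rw [zb_eq]; omega]
    exact h
  simp only [Xd_zns ht] at key
  exact key

/-- The kernel of the sheared environment, sheared back. -/
theorem fk_back (v : ℕ → ℤ) (η : Env) (N : ℕ) (y : ℤ) :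
    fk μ s (-v) (shr 0 v η) 0 N 0 (y + sv v 0 N) = fk μ s 0 η 0 N 0 y := by
  rw [fk_shr (-v) v η (Nat.zero_le 0) (Nat.zero_le N), neg_add_cancel, sv_self, sub_zero, add_sub_cancel_right]

theorem fk_back' (v : ℕ → ℤ) (η : Env) (N : ℕ) (y : ℤ) :
    fk μ s 0 (shr 0 v η) 0 N 0 (y + sv v 0 N) = fk μ s v η 0 N 0 y := by
  rw [fk_shr 0 v η (Nat.zero_le 0) (Nat.zero_le N), zero_add, sv_self, sub_zero, add_sub_cancel_right]

theorem pat_neg (t τ : ℕ) (I : Finset ℕ) (V : ℕ → ℤ) : pat t τ I (-V) = -pat t τ I V := by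
  funext k
  simp only [pat, Pi.neg_apply]
  split_ifs
  · rfl
  · rw [neg_zero]

/-- **(RC), the way back**: the paths of the sheared environment `shr 0 (pat t τ I V) η`, their zones in the frame of `η`. -/
theorem fk_jen_back {N : ℕ} {y : ℤ} {t τ B : ℕ} (ht : 0 < t) {I : Finset ℕ} (hI : I ⊆ range t)
    {V : ℕ → ℤ} (h0 : 0 ≤ y + sv (pat t τ I V) 0 N) (h1 : y + sv (pat t τ I V) 0 N ≤ N)
    (hV : ∀ b, B ≤ b → V b = 0) (hN : ∀ b < B, zb t τ b ≤ N) (η : Env) (T : Finset (Finset ℕ)) (hne : T.Nonempty)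
    (hT : ∀ S ∈ T, S ⊆ range N ∧ pos S N = y + sv (pat t τ I V) 0 N)
    (hpos : ∀ S ∈ T, ∀ b < B, 0 ≤ pos S (zb t τ b) - pos S (za t τ b) - I.card * V b ∧
      pos S (zb t τ b) - pos S (za t τ b) - I.card * V b ≤ t) :
    Real.log (∑ S ∈ T, gp μ s (shr 0 (pat t τ I V) η) N (y + sv (pat t τ I V) 0 N) S *
      Real.exp (∑ b ∈ range B, (fb μ s t τ I η b 0 (px (pat t τ I V) S) - fb μ s t τ I η b (V b) (px (pat t τ I V) S)))) ≤
      -(fk μ s (pat t τ I V) η 0 N 0 y - fk μ s 0 η 0 N 0 y) := by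
  have key := fk_jen (μ := μ) (s := s) h0 h1 ht hI (V := -V) (fun b hb => by rw [Pi.neg_apply, hV b hb, neg_zero]) hN
    (shr 0 (pat t τ I V) η) T hne hT fun S hS b hb => by
      have h := hpos S hS b hb
      rw [Pi.neg_apply, mul_neg, ← sub_eq_add_neg]
      exact h
  have e : ∀ (S : Finset ℕ) (b : ℕ), fb μ s t τ I (shr 0 (pat t τ I V) η) b ((-V) b) (pos S) -
      fb μ s t τ I (shr 0 (pat t τ I V) η) b 0 (pos S) =
      fb μ s t τ I η b 0 (px (pat t τ I V) S) - fb μ s t τ I η b (V b) (px (pat t τ I V) S) := by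
    intro S b
    rw [fb_shr, fb_shr, Pi.neg_apply, neg_add_cancel, zero_add]
  simp only [e] at key
  rw [pat_neg, fk_back, fk_back'] at key
  rw [neg_sub]
  exact key

end

end Pool.Agent.W_7d29a1_HZ.Z22
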