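import Pool.Agent.W_7d29a1_HZ.Z22_ConeTail
import Pool.Agent.W_7d29a1_HS.MomE

/-!
STORM Z at every tilt, (RC) (model: `W_7d29a1_Z22.TopU`), the top bound: a kernel in the cone costs at most `K R ^ κ u E_n`, and in any other environment with the law `law μ`,
between any two other points at the same distance of time, the logarithm of the kernel is at most `u E_n`. (helper7)
-/

set_option autoImplicit false

namespace Pool.Agent.W_7d29a1_HZ.Z22

open MeasureTheory ProbabilityTheory Filter Topology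
open Pool.Agent.W_7d29a1_F Pool.Agent.W_7d29a1_h4g Pool.Agent.W_7d29a1_H Pool.Agent.W_7d29a1_HS

noncomputable section

variable {μ : Measure ℝ} [IsProbabilityMeasure μ] {s c C : ℝ} {n₀ : ℕ}

/-- Translation of the upper tail of the luck. -/
theorem tail_V_sh (a : Pt) (n : ℕ) (t : ℝ) :
    (law μ).real {η | t ≤ V μ s η a n} = (law μ).real {η | t ≤ V μ s η 0 n} := by
  have hm : Measurable fun η : Env => V μ s η 0 n := measurable_V 0 n
  have h1 : {η : Env | t ≤ V μ s η a n} = {η : Env | sh a η ∈ {ξ : Env | t ≤ V μ s ξ 0 n}} := by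
    ext η
    simp only [Set.mem_ofPred_eq, V_sh, zero_add]
  rw [h1]
  exact real_sh a (measurableSet_le measurable_const hm)

/-- **Both tails**: the cost in the wide cone from `a`, and the luck from `a`, in an environment `T η` with the law `law μ`. -/
theorem both_tails (h : In μ s c C n₀) : ∃ A K κ b γ : ℝ, 0 < A ∧ 1 ≤ K ∧ 0 < κ ∧ 0 < b ∧ 0 < γ ∧ γ ≤ 1 ∧
    ∀ n : ℕ, 1 ≤ n → ∀ R : ℝ, 1 ≤ R → ∀ u : ℝ, 1 ≤ u →
      (∀ (a : Pt) (y : ℤ), 0 ≤ y → y ≤ n → |(y : ℝ) - sl μ s * n| ≤ R * wd μ s n + 1 →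
        (law μ).real {η | W μ s η a n y ≤ Real.exp (-(K * R ^ κ * u * EE μ s n))} ≤ A * R ^ κ * Real.exp (-(b * u ^ γ))) ∧
      ∀ (a : Pt), (law μ).real {η | Real.exp (u * EE μ s n) ≤ Real.exp (V μ s η a n)} ≤ A * R ^ κ * Real.exp (-(b * u ^ γ)) := by
  obtain ⟨A, K, κ, b, γ, hA, hK, hκ, hb, hγ, hγ1, hX⟩ := cone_tail h
  obtain ⟨A', b', hA', hb', hV⟩ := upper_V_exp h
  refine ⟨A + A', K, κ, min b b', γ, by positivity, hK, hκ, lt_min hb hb', hγ, hγ1, fun n hn R hR u hu => ?_⟩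
  have hug : 0 ≤ u ^ γ := by positivity
  have hug1 : u ^ γ ≤ u := by
    calc u ^ γ ≤ u ^ (1 : ℝ) := Real.rpow_le_rpow_of_exponent_le hu hγ1
      _ = u := Real.rpow_one u
  have hRκ : 1 ≤ R ^ κ := Real.one_le_rpow hR hκ.le
  have he := Real.exp_pos (-(min b b' * u ^ γ))
  have he0 : 0 ≤ R ^ κ * Real.exp (-(min b b' * u ^ γ)) := by positivity
  constructor
  · intro a y h0 h1 hy
    have h2 : {η : Env | W μ s η a n y ≤ Real.exp (-(K * R ^ κ * u * EE μ s n))} ⊆
        {η : Env | K * R ^ κ * u * EE μ s n ≤ X μ s η a n y} := by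
      intro η hη
      rw [Set.mem_ofPred_eq] at hη ⊢
      unfold X
      have h3 := Real.log_le_log (W_pos η a h0 h1) hη
      rw [Real.log_exp] at h3
      linarith
    refine (measureReal_mono h2 (measure_ne_top _ _)).trans ?_
    rw [tail_sh]
    refine (hX n hn R hR y h0 h1 hy u hu).trans ?_
    have h4 : Real.exp (-(b * u ^ γ)) ≤ Real.exp (-(min b b' * u ^ γ)) :=
      Real.exp_le_exp.2 (neg_le_neg (mul_le_mul_of_nonneg_right (min_le_left _ _) hug))
    have h5 : A * R ^ κ * Real.exp (-(b * u ^ γ)) ≤ A * R ^ κ * Real.exp (-(min b b' * u ^ γ)) :=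
      mul_le_mul_of_nonneg_left h4 (by positivity)
    have h6 : 0 ≤ A' * (R ^ κ * Real.exp (-(min b b' * u ^ γ))) := mul_nonneg hA'.le he0
    linarith
  · intro a
    have h2 : {η : Env | Real.exp (u * EE μ s n) ≤ Real.exp (V μ s η a n)} = {η : Env | u * EE μ s n ≤ V μ s η a n} := by
      ext η
      simp only [Set.mem_ofPred_eq, Real.exp_le_exp]
    rw [h2, tail_V_sh]
    refine (hV n hn u (by linarith)).trans ?_
    have h4 : Real.exp (-(b' * u)) ≤ Real.exp (-(min b b' * u ^ γ)) := by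
      refine Real.exp_le_exp.2 (neg_le_neg ?_)
      calc min b b' * u ^ γ ≤ b' * u ^ γ := mul_le_mul_of_nonneg_right (min_le_right _ _) hug
        _ ≤ b' * u := mul_le_mul_of_nonneg_left hug1 hb'.le
    have h5 : A' * Real.exp (-(b' * u)) ≤ A' * Real.exp (-(min b b' * u ^ γ)) := mul_le_mul_of_nonneg_left h4 hA'.le
    have h6 : A' * Real.exp (-(min b b' * u ^ γ)) ≤ A' * (R ^ κ * Real.exp (-(min b b' * u ^ γ))) := by
      refine mul_le_mul_of_nonneg_left ?_ hA'.le
      nlinarith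
    nlinarith [mul_nonneg hA.le he0]

/-- The kernel is at most the exponential of the luck. -/
theorem W_le_exp_V (η : Env) (a : Pt) (n : ℕ) (y : ℤ) : W μ s η a n y ≤ Real.exp (V μ s η a n) := by
  by_cases hy : 0 ≤ y ∧ y ≤ n
  · have h1 := neg_X_le_V (μ := μ) (s := s) η a hy.1 hy.2
    unfold X at h1
    rw [neg_neg] at h1
    calc W μ s η a n y = Real.exp (Real.log (W μ s η a n y)) := (Real.exp_log (W_pos η a hy.1 hy.2)).symm
      _ ≤ _ := Real.exp_le_exp.2 h1
  · rw [W_eq_zero η a hy]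
    exact (Real.exp_pos _).le

/-- **The top bound (U)**: in another environment `T η` of the same law, between any points `a'`, `a' + (n, y')`, the kernel is at most
`exp U` times the kernel in the environment `η` from `a` to `a + (n, y)`, `U = 2 K R ^ κ u E_n`. -/
theorem top_tail (h : In μ s c C n₀) : ∃ A K κ b γ : ℝ, 0 < A ∧ 1 ≤ K ∧ 0 < κ ∧ 0 < b ∧ 0 < γ ∧ γ ≤ 1 ∧
    ∀ (T : Env → Env), MeasurePreserving T (law μ) (law μ) → ∀ n : ℕ, 1 ≤ n → ∀ R : ℝ, 1 ≤ R → ∀ u : ℝ, 1 ≤ u →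
      ∀ (a a' : Pt) (y : ℤ), 0 ≤ y → y ≤ n → |(y : ℝ) - sl μ s * n| ≤ R * wd μ s n + 1 →
        (law μ).real {η | ∃ y' : ℤ, Real.exp (K * R ^ κ * u * EE μ s n) * W μ s η a n y < W μ s (T η) a' n y'} ≤
          A * R ^ κ * Real.exp (-(b * u ^ γ)) := by
  obtain ⟨A, K, κ, b, γ, hA, hK, hκ, hb, hγ, hγ1, hbt⟩ := both_tails h
  refine ⟨2 * A, 2 * K, κ, b, γ, by positivity, by linarith, hκ, hb, hγ, hγ1,
    fun T hT n hn R hR u hu a a' y h0 h1 hy => ?_⟩
  obtain ⟨g1, g2⟩ := hbt n hn R hR u hu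
  have hRκ : 1 ≤ R ^ κ := Real.one_le_rpow hR hκ.le
  have hE1 := one_le_EE (μ := μ) (s := s) n
  have hm : MeasurableSet {η : Env | Real.exp (u * EE μ s n) ≤ Real.exp (V μ s η a' n)} :=
    measurableSet_le measurable_const (Real.measurable_exp.comp (measurable_V a' n))
  have hsub : {η : Env | ∃ y' : ℤ, Real.exp (2 * K * R ^ κ * u * EE μ s n) * W μ s η a n y < W μ s (T η) a' n y'} ⊆
      {η : Env | W μ s η a n y ≤ Real.exp (-(K * R ^ κ * u * EE μ s n))} ∪
      T ⁻¹' {η : Env | Real.exp (u * EE μ s n) ≤ Real.exp (V μ s η a' n)} := by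
    rintro η ⟨y', hy'⟩
    by_contra hcon
    rw [Set.mem_union, not_or, Set.mem_preimage, Set.mem_ofPred_eq, Set.mem_ofPred_eq, not_le, not_le] at hcon
    obtain ⟨k1, k2⟩ := hcon
    have h2 := W_le_exp_V (μ := μ) (s := s) (T η) a' n y'
    have h3 : Real.exp (K * R ^ κ * u * EE μ s n) ≤ Real.exp (2 * K * R ^ κ * u * EE μ s n) * W μ s η a n y := by
      have h4 : Real.exp (K * R ^ κ * u * EE μ s n) =
          Real.exp (2 * K * R ^ κ * u * EE μ s n) * Real.exp (-(K * R ^ κ * u * EE μ s n)) := by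
        rw [← Real.exp_add]
        congr 1
        ring
      rw [h4]
      exact mul_le_mul_of_nonneg_left k1.le (Real.exp_pos _).le
    have h5 : Real.exp (u * EE μ s n) ≤ Real.exp (K * R ^ κ * u * EE μ s n) := by
      refine Real.exp_le_exp.2 ?_
      have h6 : 1 ≤ K * R ^ κ := by nlinarith
      have h7 : 0 ≤ u * EE μ s n := by positivity
      nlinarith
    linarith
  refine (measureReal_mono hsub (measure_ne_top _ _)).trans ((measureReal_union_le _ _).trans ?_)
  have h8 : (law μ).real (T ⁻¹' {η : Env | Real.exp (u * EE μ s n) ≤ Real.exp (V μ s η a' n)}) =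
      (law μ).real {η : Env | Real.exp (u * EE μ s n) ≤ Real.exp (V μ s η a' n)} := by
    unfold Measure.real
    rw [hT.measure_preimage hm.nullMeasurableSet]
  rw [h8]
  have h9 := g1 a y h0 h1 hy
  have h10 := g2 a'
  linarith

end

end Pool.Agent.W_7d29a1_HZ.Z22
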