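import Pool.Agent.W_7d29a1_Z37.CellD

/-!
STORM Z (MP_7d29a1_pr), (DL) with cells, at every tilt `s`: a cell is regular if four legs and two partition functions are (crossing of
paths). (helper37)
-/

namespace Pool.Agent.W_7d29a1_HZ.Z37

open Finset Pool.Agent.W_7d29a1_F Pool.Agent.W_7d29a1_Z Pool.Agent.W_7d29a1_Z37

noncomputable section

variable {μ : MeasureTheory.Measure ℝ} {s : ℝ}

theorem KP_eq_WR (R : Set Pt) (η : Env) (t1 n : ℕ) (x y : ℤ) :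
    KP μ s 0 (PR R) η t1 x (t1 + n) y = WR μ s R η (((t1 : ℤ), x) : Pt) n (y - x) := by
  rw [WR_eq_Kc, add_sub_cancel]
  rfl

theorem KP_eq_WR' (R : Set Pt) (η : Env) {t1 t2 : ℕ} (h : t1 ≤ t2) (x y : ℤ) :
    KP μ s 0 (PR R) η t1 x t2 y = WR μ s R η (((t1 : ℤ), x) : Pt) (t2 - t1) (y - x) := by
  obtain ⟨n, rfl⟩ := Nat.exists_eq_add_of_le h
  rw [KP_eq_WR, Nat.add_sub_cancel_left]

/-- Crossing of paths. -/
theorem KP_tp2 (R : Set Pt) (η : Env) {t1 t2 : ℕ} (h : t1 ≤ t2) (x x' y y' : ℤ) (hx : x ≤ x') (hy : y ≤ y') :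
    KP μ s 0 (PR R) η t1 x t2 y' * KP μ s 0 (PR R) η t1 x' t2 y ≤
      KP μ s 0 (PR R) η t1 x t2 y * KP μ s 0 (PR R) η t1 x' t2 y' := by
  rw [KP_eq_WR' R η h, KP_eq_WR' R η h, KP_eq_WR' R η h, KP_eq_WR' R η h]
  have h1 := Zr_tp2 R η t1 x x' (t2 - t1) y y' hx hy
  unfold WR
  obtain ⟨c, hc⟩ : ∃ c : ℤ → ℝ, c = fun z : ℤ => Real.exp (s * (z : ℝ) - ((t2 - t1 : ℕ) : ℝ) * lam μ s) := ⟨_, rfl⟩
  have e : ∀ z : ℤ, Real.exp (s * (z : ℝ) - ((t2 - t1 : ℕ) : ℝ) * lam μ s) = c z := fun z => by rw [hc]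
  have hcc : c (y' - x) * c (y - x') = c (y - x) * c (y' - x') := by
    rw [hc]
    dsimp only
    rw [← Real.exp_add, ← Real.exp_add]
    congr 1
    push_cast
    ring
  have hc0 : 0 ≤ c (y - x) * c (y' - x') := by
    rw [hc]
    positivity
  rw [e, e, e, e]
  have h2 := mul_le_mul_of_nonneg_left h1 hc0
  calc _ = (c (y' - x) * c (y - x')) * _ := mul_mul_mul_comm _ _ _ _
    _ = _ := by rw [hcc]
    _ ≤ _ := h2
    _ = _ := by ring

/-- From two extreme starts to all starts between them: the kernels with a fixed intermediate point. -/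
theorem leg_left (R : Set Pt) (η : Env) {t0 t1 t3 : ℕ} (h01 : t0 ≤ t1) (h13 : t1 ≤ t3) {um up b : ℤ} {A : ℝ}
    (hm : Real.exp (-A) ≤ KP μ s 0 (PR R) η t0 um t1 b) (hp : Real.exp (-A) ≤ KP μ s 0 (PR R) η t0 up t1 b)
    {u : ℤ} (hu1 : um ≤ u) (hu2 : u ≤ up) (v : ℤ) :
    KP μ s 0 (PR R) η t0 u t3 v ≤ Real.exp A * KP μ s 0 (PR R) η t0 u t1 b *
      (KP μ s 0 (PR R) η t0 um t3 v + KP μ s 0 (PR R) η t0 up t3 v) := by
  have hpos : 0 < Real.exp A := Real.exp_pos A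
  have hee : Real.exp A * Real.exp (-A) = 1 := by rw [← Real.exp_add, add_neg_cancel, Real.exp_zero]
  have hk : ∀ x m, 0 ≤ KP μ s 0 (PR R) η t0 x t1 m := fun x m => KP_nonneg _ _ _ _ _ _ _
  have key : ∀ m, KP μ s 0 (PR R) η t0 u t1 m ≤ Real.exp A * KP μ s 0 (PR R) η t0 u t1 b *
      (KP μ s 0 (PR R) η t0 um t1 m + KP μ s 0 (PR R) η t0 up t1 m) := by
    intro m
    rcases le_total m b with hmb | hmb
    · have h1 := KP_tp2 (μ := μ) (s := s) R η h01 um u m b hu1 hmb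
      have h2 : Real.exp (-A) * KP μ s 0 (PR R) η t0 u t1 m ≤
          KP μ s 0 (PR R) η t0 um t1 m * KP μ s 0 (PR R) η t0 u t1 b :=
        (mul_le_mul_of_nonneg_right hm (hk _ _)).trans h1
      have h3 := mul_le_mul_of_nonneg_left h2 hpos.le
      rw [← mul_assoc, hee, one_mul] at h3
      refine h3.trans ?_
      have h4 : 0 ≤ Real.exp A * KP μ s 0 (PR R) η t0 u t1 b * KP μ s 0 (PR R) η t0 up t1 m :=
        mul_nonneg (mul_nonneg hpos.le (hk _ _)) (hk _ _)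
      linarith
    · have h1 := KP_tp2 (μ := μ) (s := s) R η h01 u up b m hu2 hmb
      have h2 : KP μ s 0 (PR R) η t0 u t1 m * Real.exp (-A) ≤
          KP μ s 0 (PR R) η t0 u t1 b * KP μ s 0 (PR R) η t0 up t1 m :=
        (mul_le_mul_of_nonneg_left hp (hk _ _)).trans h1
      have h3 := mul_le_mul_of_nonneg_left h2 hpos.le
      have h5 : Real.exp A * (KP μ s 0 (PR R) η t0 u t1 m * Real.exp (-A)) = KP μ s 0 (PR R) η t0 u t1 m := by
        rw [mul_comm (KP μ s 0 (PR R) η t0 u t1 m), ← mul_assoc, hee, one_mul]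
      rw [h5] at h3
      refine h3.trans ?_
      have h4 : 0 ≤ Real.exp A * KP μ s 0 (PR R) η t0 u t1 b * KP μ s 0 (PR R) η t0 um t1 m :=
        mul_nonneg (mul_nonneg hpos.le (hk _ _)) (hk _ _)
      linarith
  have hc : 0 ≤ Real.exp A * KP μ s 0 (PR R) η t0 u t1 b := mul_nonneg hpos.le (hk _ _)
  rw [KP_sum 0 (PR R) η u v h01 h13]
  have h6 : ∑ m ∈ Rng 0 t0 u t1, KP μ s 0 (PR R) η t0 u t1 m * KP μ s 0 (PR R) η t1 m t3 v ≤
      ∑ m ∈ Rng 0 t0 u t1, Real.exp A * KP μ s 0 (PR R) η t0 u t1 b *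
        (KP μ s 0 (PR R) η t0 um t1 m * KP μ s 0 (PR R) η t1 m t3 v +
          KP μ s 0 (PR R) η t0 up t1 m * KP μ s 0 (PR R) η t1 m t3 v) := by
    refine sum_le_sum fun m _ => ?_
    have h7 := mul_le_mul_of_nonneg_right (key m) (KP_nonneg (μ := μ) (s := s) 0 (PR R) η t1 m t3 v)
    refine h7.trans (le_of_eq ?_)
    ring
  refine h6.trans ?_
  rw [← mul_sum, sum_add_distrib]
  exact mul_le_mul_of_nonneg_left (add_le_add (KP_sum_le 0 (PR R) η um v h01 h13 _)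
    (KP_sum_le 0 (PR R) η up v h01 h13 _)) hc

/-- From two extreme ends to all ends between them. -/
theorem leg_right (R : Set Pt) (η : Env) {t0 t2 t3 : ℕ} (h02 : t0 ≤ t2) (h23 : t2 ≤ t3) {vm vp e : ℤ} {A : ℝ}
    (hm : Real.exp (-A) ≤ KP μ s 0 (PR R) η t2 e t3 vm) (hp : Real.exp (-A) ≤ KP μ s 0 (PR R) η t2 e t3 vp)
    {v : ℤ} (hv1 : vm ≤ v) (hv2 : v ≤ vp) (u : ℤ) :
    KP μ s 0 (PR R) η t0 u t3 v ≤ Real.exp A * KP μ s 0 (PR R) η t2 e t3 v *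
      (KP μ s 0 (PR R) η t0 u t3 vm + KP μ s 0 (PR R) η t0 u t3 vp) := by
  have hpos : 0 < Real.exp A := Real.exp_pos A
  have hee : Real.exp A * Real.exp (-A) = 1 := by rw [← Real.exp_add, add_neg_cancel, Real.exp_zero]
  have hk : ∀ x m, 0 ≤ KP μ s 0 (PR R) η t2 x t3 m := fun x m => KP_nonneg _ _ _ _ _ _ _
  have key : ∀ m, KP μ s 0 (PR R) η t2 m t3 v ≤ Real.exp A * KP μ s 0 (PR R) η t2 e t3 v *
      (KP μ s 0 (PR R) η t2 m t3 vm + KP μ s 0 (PR R) η t2 m t3 vp) := by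
    intro m
    rcases le_total m e with hmb | hmb
    · have h1 := KP_tp2 (μ := μ) (s := s) R η h23 m e vm v hmb hv1
      have h2 : KP μ s 0 (PR R) η t2 m t3 v * Real.exp (-A) ≤
          KP μ s 0 (PR R) η t2 m t3 vm * KP μ s 0 (PR R) η t2 e t3 v :=
        (mul_le_mul_of_nonneg_left hm (hk _ _)).trans h1
      have h3 := mul_le_mul_of_nonneg_left h2 hpos.le
      have h5 : Real.exp A * (KP μ s 0 (PR R) η t2 m t3 v * Real.exp (-A)) = KP μ s 0 (PR R) η t2 m t3 v := by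
        rw [mul_comm (KP μ s 0 (PR R) η t2 m t3 v), ← mul_assoc, hee, one_mul]
      rw [h5] at h3
      refine h3.trans ?_
      have h4 : 0 ≤ Real.exp A * KP μ s 0 (PR R) η t2 e t3 v * KP μ s 0 (PR R) η t2 m t3 vp :=
        mul_nonneg (mul_nonneg hpos.le (hk _ _)) (hk _ _)
      linarith
    · have h1 := KP_tp2 (μ := μ) (s := s) R η h23 e m v vp hmb hv2
      have h2 : Real.exp (-A) * KP μ s 0 (PR R) η t2 m t3 v ≤
          KP μ s 0 (PR R) η t2 e t3 v * KP μ s 0 (PR R) η t2 m t3 vp :=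
        (mul_le_mul_of_nonneg_right hp (hk _ _)).trans h1
      have h3 := mul_le_mul_of_nonneg_left h2 hpos.le
      rw [← mul_assoc, hee, one_mul] at h3
      refine h3.trans ?_
      have h4 : 0 ≤ Real.exp A * KP μ s 0 (PR R) η t2 e t3 v * KP μ s 0 (PR R) η t2 m t3 vm :=
        mul_nonneg (mul_nonneg hpos.le (hk _ _)) (hk _ _)
      linarith
  have hc : 0 ≤ Real.exp A * KP μ s 0 (PR R) η t2 e t3 v := mul_nonneg hpos.le (hk _ _)
  rw [KP_sum 0 (PR R) η u v h02 h23]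
  have h6 : ∑ m ∈ Rng 0 t0 u t2, KP μ s 0 (PR R) η t0 u t2 m * KP μ s 0 (PR R) η t2 m t3 v ≤
      ∑ m ∈ Rng 0 t0 u t2, Real.exp A * KP μ s 0 (PR R) η t2 e t3 v *
        (KP μ s 0 (PR R) η t0 u t2 m * KP μ s 0 (PR R) η t2 m t3 vm +
          KP μ s 0 (PR R) η t0 u t2 m * KP μ s 0 (PR R) η t2 m t3 vp) := by
    refine sum_le_sum fun m _ => ?_
    have h7 := mul_le_mul_of_nonneg_left (key m) (KP_nonneg (μ := μ) (s := s) 0 (PR R) η t0 u t2 m)
    refine h7.trans (le_of_eq ?_)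
    ring
  refine h6.trans ?_
  rw [← mul_sum, sum_add_distrib]
  exact mul_le_mul_of_nonneg_left (add_le_add (KP_sum_le 0 (PR R) η u vm h02 h23 _)
    (KP_sum_le 0 (PR R) η u vp h02 h23 _)) hc

/-- **A regular cell**: four legs at least `e ^ (-A)`, the kernels of the layer between the extreme points at most `e ^ A'`. -/
theorem reg_of (R : Set Pt) {c : Cel} (h01 : c.t0 ≤ c.t1) (h12 : c.t1 ≤ c.t2) (h23 : c.t2 ≤ c.t3) {η : Env}
    {um up vm vp : ℤ} {A A' : ℝ} (hU : ∀ p ∈ c.U, (um ≤ p.1 ∧ p.1 ≤ up) ∧ vm ≤ p.2 ∧ p.2 ≤ vp)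
    (h1 : Real.exp (-A) ≤ KP μ s 0 (PR R) η c.t0 um c.t1 c.b) (h2 : Real.exp (-A) ≤ KP μ s 0 (PR R) η c.t0 up c.t1 c.b)
    (h3 : Real.exp (-A) ≤ KP μ s 0 (PR R) η c.t2 c.e c.t3 vm) (h4 : Real.exp (-A) ≤ KP μ s 0 (PR R) η c.t2 c.e c.t3 vp)
    (h5 : ∀ v, KP μ s 0 (PR R) η c.t0 um c.t3 v ≤ Real.exp A') (h6 : ∀ v, KP μ s 0 (PR R) η c.t0 up c.t3 v ≤ Real.exp A') :
    η ∈ c.Reg μ s 0 (PR R) (2 * A + A' + 2) := by
  intro p hp
  obtain ⟨⟨hu1, hu2⟩, hv1, hv2⟩ := hU p hp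
  have hk : ∀ t x t' m, 0 ≤ KP μ s 0 (PR R) η t x t' m := fun t x t' m => KP_nonneg _ _ _ _ _ _ _
  have e1 := leg_left R η h01 (h12.trans h23) h1 h2 hu1 hu2 p.2
  have e2 := leg_right R η (h01.trans h12) h23 h3 h4 hv1 hv2 um
  have e3 := leg_right R η (h01.trans h12) h23 h3 h4 hv1 hv2 up
  have hA : 0 < Real.exp A := Real.exp_pos A
  have hb1 : KP μ s 0 (PR R) η c.t0 um c.t3 p.2 ≤ Real.exp A * KP μ s 0 (PR R) η c.t2 c.e c.t3 p.2 * (2 * Real.exp A') := by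
    refine e2.trans (mul_le_mul_of_nonneg_left ?_ (mul_nonneg hA.le (hk _ _ _ _)))
    have := h5 vm
    have := h5 vp
    linarith
  have hb2 : KP μ s 0 (PR R) η c.t0 up c.t3 p.2 ≤ Real.exp A * KP μ s 0 (PR R) η c.t2 c.e c.t3 p.2 * (2 * Real.exp A') := by
    refine e3.trans (mul_le_mul_of_nonneg_left ?_ (mul_nonneg hA.le (hk _ _ _ _)))
    have := h6 vm
    have := h6 vp
    linarith
  have h7 : KP μ s 0 (PR R) η c.t0 p.1 c.t3 p.2 ≤ Real.exp A * KP μ s 0 (PR R) η c.t0 p.1 c.t1 c.b *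
      (4 * Real.exp A' * (Real.exp A * KP μ s 0 (PR R) η c.t2 c.e c.t3 p.2)) := by
    refine e1.trans (mul_le_mul_of_nonneg_left ?_ (mul_nonneg hA.le (hk _ _ _ _)))
    linarith
  refine h7.trans ?_
  have h8 : (4 : ℝ) ≤ Real.exp 2 := by
    have h9 : (2 : ℝ) ≤ Real.exp 1 := by
      have := Real.add_one_le_exp (1 : ℝ)
      linarith
    have h10 : Real.exp 2 = Real.exp 1 * Real.exp 1 := by
      rw [← Real.exp_add]
      norm_num
    rw [h10]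
    nlinarith
  have h9 : Real.exp (2 * A + A' + 2) = Real.exp A * Real.exp A * Real.exp A' * Real.exp 2 := by
    rw [← Real.exp_add, ← Real.exp_add, ← Real.exp_add]
    congr 1
    ring
  rw [h9]
  have h10 : 0 ≤ Real.exp A * Real.exp A * Real.exp A' * (KP μ s 0 (PR R) η c.t0 p.1 c.t1 c.b *
      KP μ s 0 (PR R) η c.t2 c.e c.t3 p.2) := by
    have := hk c.t0 p.1 c.t1 c.b
    have := hk c.t2 c.e c.t3 p.2
    positivity
  have h11 := mul_le_mul_of_nonneg_right h8 h10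
  refine le_trans (le_of_eq ?_) (h11.trans (le_of_eq ?_))
  · ring
  · ring

end

end Pool.Agent.W_7d29a1_HZ.Z37
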