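import Pool.Agent.W_7d29a1_Z46.MainZ
import Pool.Agent.W_7d29a1_HS.Main3
import Pool.Agent.W_7d29a1_HE.Ei

/-!
STORM Z AT EVERY TILT (MP_7d29a1_pr): superdiffusivity of the polymer with the force `h` around the line of its velocity on the
probability space of the problem, from the growth of the width `wd μ (2 * h)` (model: `W_7d29a1_Z46.MainZ`, `MainZF`). (helper71)
-/

set_option autoImplicit false

namespace Pool.Agent.W_7d29a1_HZ.Z46

open MeasureTheory ProbabilityTheory Filter Topology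
open Pool.Agent.W_7d29a1_F Pool.Agent.W_7d29a1_h4g Pool.Agent.W_7d29a1_H Pool.Agent.W_7d29a1_HS
open Pool.Agent.W_7d29a1_h47 (Lam LamN map_toEnv EM_of Nondeg_of walk energy endMGF forceP forceE tendsto_logZ log_endMGF)
open Pool.Agent.W_7d29a1_SR (toF mp_toF)

section nu

variable {Ω : Type*} [MeasurableSpace Ω] {P : Measure Ω} [IsProbabilityMeasure P] {ω : ℕ × ℤ → Ω → ℝ} {β : ℝ}

/-- A lower bound of the wandering exponent with the force `h`: the tubes of radius `n ^ b` are not typical for infinitely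
many `n`. -/
theorem nuH_ge (hmeas : ∀ p, Measurable (ω p)) {h v b : ℝ}
    (hs : ∀ ε : ℝ, 0 < ε → ∃ᶠ n : ℕ in atTop, ∫ x, forceP β h (fun p => ω p x) n (bal n v ((n : ℝ) ^ b)) ∂P ≤ ε) :
    b ≤ nuH P β h v ω := by
  unfold nuH
  refine le_csInf ⟨2, two_pos, ?_⟩ ?_
  · have h1 : ∀ᶠ n : ℕ in atTop, ∀ x : Ω, forceP β h (fun p => ω p x) n (bal n v ((n : ℝ) ^ (2 : ℝ))) = 1 := by
      obtain ⟨N, hN⟩ := exists_nat_ge (1 + |v|)
      filter_upwards [eventually_ge_atTop (max N 1)] with n hn x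
      have hn1 : (1 : ℝ) ≤ n := by exact_mod_cast (le_max_right N 1).trans hn
      have hnN : 1 + |v| ≤ n := hN.trans (by exact_mod_cast (le_max_left N 1).trans hn)
      have e : bal n v ((n : ℝ) ^ (2 : ℝ)) = Set.univ := by
        refine Set.eq_univ_of_forall fun s => (mx_le_iff v s _).1 ((mx_le v s).trans ?_)
        rw [Real.rpow_two, sq]
        exact mul_le_mul_of_nonneg_right hnN (by linarith)
      rw [e]
      exact forceP_univ β h (fun p => ω p x) n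
    have h2 : ∀ x : Ω, liminf (fun n : ℕ => forceP β h (fun p => ω p x) n (bal n v ((n : ℝ) ^ (2 : ℝ)))) atTop = 1 := by
      intro x
      have h3 : (fun n : ℕ => forceP β h (fun p => ω p x) n (bal n v ((n : ℝ) ^ (2 : ℝ)))) =ᶠ[atTop] fun _ => (1 : ℝ) :=
        h1.mono fun n hn => hn x
      rw [liminf_congr h3, liminf_const]
    show ∫ x, liminf (fun n : ℕ => forceP β h (fun p => ω p x) n (bal n v ((n : ℝ) ^ (2 : ℝ)))) atTop ∂P = 1
    simp only [h2, integral_const, probReal_univ, one_smul]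
  · rintro a ⟨ha0, ha⟩
    by_contra hab
    push Not at hab
    have h2 := Pool.Agent.W_7d29a1_Z46.liminf_zero (P := P)
      (g := fun (n : ℕ) x => forceP β h (fun p => ω p x) n (bal n v ((n : ℝ) ^ a)))
      (fun n => forceP_meas hmeas β h n _) (fun n x => forceP_nonneg _ _ _ _ _) (fun n x => forceP_le_one _ _ _ _ _)
      fun ε hε => by
        refine ((hs ε hε).and_eventually (eventually_ge_atTop 1)).mono fun n hn => ?_
        refine le_trans (integral_mono (forceP_integrable hmeas β h n _) (forceP_integrable hmeas β h n _) fun x => ?_) hn.1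
        refine forceP_mono _ _ _ _ (bal_mono n v ?_)
        exact Real.rpow_le_rpow_of_exponent_le (by exact_mod_cast hn.2) hab.le
    rw [integral_congr_ae h2, integral_zero] at ha
    exact zero_ne_one ha

end nu

variable {μ : Measure ℝ} [IsProbabilityMeasure μ] {h c C : ℝ} {n₀ : ℕ}
variable {Ω : Type*} [MeasurableSpace Ω] {P : Measure Ω} [IsProbabilityMeasure P] {ω : ℕ × ℤ → Ω → ℝ} {β : ℝ}

/-- The end point is spread at the scales at which the width is large. -/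
theorem ev_Z (hI : In μ (2 * h) c C n₀) (hmeas : ∀ p, Measurable (ω p))
    (hmp : MeasurePreserving (fun x => toF β fun p => ω p x) P (law μ)) {a : ℝ} (ha : 0 < a) :
    (∀ᶠ n : ℕ in atTop, (n : ℝ) ^ (1 / 2 + a) ≤ wd μ (2 * h) n → (n : ℝ) ^ (1 + a / 2) ≤
      ∫ x, forceE β h (fun p => ω p x) n (fun s => ((walk s n : ℝ) - vel μ h * n) ^ 2) ∂P) ∧
    ∀ ε : ℝ, 0 < ε → ∀ᶠ n : ℕ in atTop, (n : ℝ) ^ (1 / 2 + a) ≤ wd μ (2 * h) n →
      ∫ x, forceP β h (fun p => ω p x) n {s | |(walk s n : ℝ) - vel μ h * n| ≤ (n : ℝ) ^ (1 / 2 + a / 2)} ∂P ≤ ε := by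
  obtain ⟨a₁, A₁, b, B, -, -, hb, hB, n₁, hn₁, hsc⟩ := scales (P := P) (β := β) (ω := ω) hI hmp
  obtain ⟨b', hb', n₂, hM⟩ := Pool.Agent.W_7d29a1_HE.endM_P (P := P) (ω := ω) (β := β) hI hmeas hmp 2
  refine ⟨?_, fun ε hε => ?_⟩
  · filter_upwards [eventually_ge_atTop n₁, eventually_ge_atTop n₂, eventually_ge_atTop 1,
      ev_absorb (b := 1 + 2 * a) (b' := 1 + a / 2) (K := b' * b ^ 2) (by positivity) (by linarith)] with n g2 g3 g5 g4 g1
    obtain ⟨-, -, s1, -, -⟩ := hsc n g2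
    have hn0 : (0 : ℝ) < n := by exact_mod_cast g5
    have h2 := hM n g3
    have h3 : (fun s : Fin n → Bool => |(walk s n : ℝ) - vel μ h * n| ^ 2) =
        fun s => ((walk s n : ℝ) - vel μ h * n) ^ 2 := by
      funext s
      exact sq_abs _
    rw [h3] at h2
    refine le_trans ?_ h2
    have h4 : 0 ≤ b * (n : ℝ) ^ (1 / 2 + a) := by positivity
    have h5 : b * (n : ℝ) ^ (1 / 2 + a) ≤ wth P β h ω (fun v => J μ (2 * h) (v / 2)) n :=
      (mul_le_mul_of_nonneg_left g1 hb.le).trans s1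
    calc (n : ℝ) ^ (1 + a / 2) ≤ b' * b ^ 2 * (n : ℝ) ^ (1 + 2 * a) := g4
      _ = b' * (b * (n : ℝ) ^ (1 / 2 + a)) ^ 2 := by
          rw [mul_pow, ← Real.rpow_natCast ((n : ℝ) ^ (1 / 2 + a)), ← Real.rpow_mul hn0.le]
          have e : (1 / 2 + a) * ((2 : ℕ) : ℝ) = 1 + 2 * a := by
            push_cast
            ring
          rw [e]
          ring
      _ ≤ _ := mul_le_mul_of_nonneg_left (pow_le_pow_left₀ h4 h5 2) hb'.le
  · obtain ⟨c₁, hc₁, n₃, hE⟩ := Pool.Agent.W_7d29a1_HE.endS_P (P := P) (ω := ω) (β := β) hI hmeas hmp hε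
    filter_upwards [eventually_ge_atTop n₁, eventually_ge_atTop n₃,
      ev_absorb (b := 1 / 2 + a) (b' := 1 / 2 + a / 2) (K := c₁ * b) (by positivity) (by linarith)] with n g2 g3 g4 g1
    obtain ⟨-, -, s1, -, -⟩ := hsc n g2
    have h2 : (n : ℝ) ^ (1 / 2 + a / 2) ≤ c₁ * wth P β h ω (fun v => J μ (2 * h) (v / 2)) n := by
      calc (n : ℝ) ^ (1 / 2 + a / 2) ≤ c₁ * b * (n : ℝ) ^ (1 / 2 + a) := g4
        _ ≤ c₁ * b * wd μ (2 * h) n := mul_le_mul_of_nonneg_left g1 (by positivity)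
        _ = c₁ * (b * wd μ (2 * h) n) := by ring
        _ ≤ _ := mul_le_mul_of_nonneg_left s1 hc₁.le
    exact le_trans (integral_mono (forceP_integrable hmeas β h n _) (forceP_integrable hmeas β h n _)
      fun x => forceP_mono _ _ _ _ fun s hs => le_trans hs h2) (hE n g3)

/-- Superdiffusivity from the growth of the width, at one force and in one environment law. -/
theorem core_Z (hI : In μ (2 * h) c C n₀) (hmeas : ∀ p, Measurable (ω p))
    (hmp : MeasurePreserving (fun x => toF β fun p => ω p x) P (law μ))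
    (hw : ∃ a : ℝ, 0 < a ∧ ∀ᶠ n : ℕ in atTop, (n : ℝ) ^ (1 / 2 + a) ≤ wd μ (2 * h) n) :
    ∃ c' : ℝ, 0 < c' ∧
      (∀ᶠ n : ℕ in atTop, (n : ℝ) ^ (1 + c') ≤
        ∫ x, forceE β h (fun p => ω p x) n (fun s => ((walk s n : ℝ) - vel μ h * n) ^ 2) ∂P) ∧
      Tendsto (fun n : ℕ => ∫ x, forceP β h (fun p => ω p x) n
        {s | |(walk s n : ℝ) - vel μ h * n| ≤ (n : ℝ) ^ (1 / 2 + c')} ∂P) atTop (𝓝 0) ∧
      1 / 2 + c' ≤ nuH P β h (vel μ h) ω := by
  obtain ⟨a, ha, hwa⟩ := hw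
  obtain ⟨h1, h2⟩ := ev_Z (P := P) (ω := ω) (β := β) hI hmeas hmp ha
  refine ⟨a / 2, by positivity, ?_, ?_, nuH_ge hmeas fun ε hε => Eventually.frequently ?_⟩
  · filter_upwards [hwa, h1] with n g1 g2 using g2 g1
  · rw [Metric.tendsto_atTop']
    intro ε hε
    have h3 : ∀ᶠ n : ℕ in atTop, |∫ x, forceP β h (fun p => ω p x) n
        {s | |(walk s n : ℝ) - vel μ h * n| ≤ (n : ℝ) ^ (1 / 2 + a / 2)} ∂P| < ε := by
      filter_upwards [hwa, h2 (ε / 2) (by positivity)] with n g1 g2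
      rw [abs_of_nonneg (integral_nonneg fun x => forceP_nonneg _ _ _ _ _)]
      have := g2 g1
      linarith
    obtain ⟨N, hN⟩ := eventually_atTop.1 h3
    exact ⟨N, fun n hn => by
      rw [Real.dist_eq, sub_zero]
      exact hN n (le_of_lt hn)⟩
  · filter_upwards [hwa, h2 ε hε] with n g1 g2
    refine le_trans (integral_mono (forceP_integrable hmeas β h n _) (forceP_integrable hmeas β h n _) fun x =>
      forceP_mono _ _ _ _ fun s hs => ?_) (g2 g1)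
    exact hs n le_rfl

/-- Superdiffusivity along the scales at which the width is large, at one force and in one environment law. -/
theorem core_ZF (hI : In μ (2 * h) c C n₀) (hmeas : ∀ p, Measurable (ω p))
    (hmp : MeasurePreserving (fun x => toF β fun p => ω p x) P (law μ))
    (hw : ∃ a : ℝ, 0 < a ∧ ∃ᶠ n : ℕ in atTop, (n : ℝ) ^ (1 / 2 + a) ≤ wd μ (2 * h) n) :
    ∃ c' : ℝ, 0 < c' ∧ 1 / 2 + c' ≤ nuH P β h (vel μ h) ω ∧ ∀ ε : ℝ, 0 < ε → ∃ᶠ n : ℕ in atTop,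
      (n : ℝ) ^ (1 + c') ≤ ∫ x, forceE β h (fun p => ω p x) n (fun s => ((walk s n : ℝ) - vel μ h * n) ^ 2) ∂P ∧
      ∫ x, forceP β h (fun p => ω p x) n {s | |(walk s n : ℝ) - vel μ h * n| ≤ (n : ℝ) ^ (1 / 2 + c')} ∂P ≤ ε := by
  obtain ⟨a, ha, hwa⟩ := hw
  obtain ⟨h1, h2⟩ := ev_Z (P := P) (ω := ω) (β := β) hI hmeas hmp ha
  refine ⟨a / 2, by positivity, nuH_ge hmeas fun ε hε => ?_, fun ε hε => ?_⟩
  · refine (hwa.and_eventually (h2 ε hε)).mono fun n hn => ?_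
    refine le_trans (integral_mono (forceP_integrable hmeas β h n _) (forceP_integrable hmeas β h n _) fun x =>
      forceP_mono _ _ _ _ fun s hs => ?_) (hn.2 hn.1)
    exact hs n le_rfl
  · exact (hwa.and_eventually (h1.and (h2 ε hε))).mono fun n hn => ⟨hn.2.1 hn.1, hn.2.2 hn.1⟩

section space

variable (P) (ω)

/-- The law of the environment of the problem. -/
theorem law_of (hmeas : ∀ p, Measurable (ω p)) (hindep : iIndepFun ω P)
    (hident : ∀ p q, IdentDistrib (ω p) (ω q) P P) (hnc : ¬ ∃ c : ℝ, ∀ᵐ x ∂P, ω (0, 0) x = c)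
    (hexp : ∀ b : ℝ, Integrable (fun x => Real.exp (b * ω (0, 0) x)) P) {β : ℝ} (hβ : 0 < β) :
    ∃ (μ : Measure ℝ) (_ : IsProbabilityMeasure μ), Pool.Agent.W_7d29a1_h47.EM μ ∧ Pool.Agent.W_7d29a1_h47.Nondeg μ ∧
      MeasurePreserving (fun x => toF β fun p => ω p x) P (law μ) ∧
      ∀ lam : ℝ → ℝ, (∀ h, ∀ᵐ x ∂P, Tendsto (fun n : ℕ => Real.log (endMGF β h (fun p => ω p x) n) / n) atTop (𝓝 (lam h))) →
        ∀ h, vel μ h = deriv lam h := by
  obtain ⟨μ, hμdef⟩ : ∃ μ : Measure ℝ, μ = P.map fun x => β * ω (0, 0) x := ⟨_, rfl⟩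
  have hm0 : Measurable fun x => β * ω (0, 0) x := (hmeas _).const_mul β
  have hprob : IsProbabilityMeasure μ := by
    rw [hμdef]
    exact Measure.isProbabilityMeasure_map hm0.aemeasurable
  have hμ : Pool.Agent.W_7d29a1_h47.EM μ := by
    rw [hμdef]
    exact EM_of (hmeas _) hexp β
  have hnd : Pool.Agent.W_7d29a1_h47.Nondeg μ := by
    rw [hμdef]
    exact Nondeg_of (hmeas _) hnc hβ
  have hmpE := map_toEnv hmeas hindep hident β
  rw [← hμdef] at hmpE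
  have hmp := mp_toF hmeas hindep hident β
  rw [← hμdef] at hmp
  refine ⟨μ, hprob, hμ, hnd, hmp, fun lam h4 h => ?_⟩
  have hid : lam = LamN μ := by
    funext h
    have g1 := hmpE.quasiMeasurePreserving.ae (tendsto_logZ hμ h)
    have g2 := hmpE.quasiMeasurePreserving.ae (tendsto_logZ hμ 0)
    obtain ⟨x, hx1, hx2, hx3⟩ := (g1.and (g2.and (h4 h))).exists
    refine tendsto_nhds_unique hx3 ((hx1.sub hx2).congr fun n => ?_)
    rw [log_endMGF, sub_div]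
  rw [vel_eq hμ hnd, hid]
  have : LamN μ = fun x => Lam μ x - Lam μ 0 := rfl
  rw [this, deriv_sub_const]

/-- **SUPERDIFFUSIVITY AT EVERY FORCE** on the probability space of the problem, from the growth of the widths. -/
theorem main_Z
    (hZ : ∀ (μ : Measure ℝ) [IsProbabilityMeasure μ], Pool.Agent.W_7d29a1_h47.EM μ → Pool.Agent.W_7d29a1_h47.Nondeg μ →
      ∀ s : ℝ, (∃ (c C : ℝ) (n₀ : ℕ), In μ s c C n₀) ∧
        ∃ a : ℝ, 0 < a ∧ ∀ᶠ n : ℕ in atTop, (n : ℝ) ^ (1 / 2 + a) ≤ wd μ s n)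
    (hmeas : ∀ p, Measurable (ω p)) (hindep : iIndepFun ω P)
    (hident : ∀ p q, IdentDistrib (ω p) (ω q) P P) (hnc : ¬ ∃ c : ℝ, ∀ᵐ x ∂P, ω (0, 0) x = c)
    (hexp : ∀ b : ℝ, Integrable (fun x => Real.exp (b * ω (0, 0) x)) P) {β : ℝ} (hβ : 0 < β) :
    ∃ lam : ℝ → ℝ, Differentiable ℝ lam ∧
      (∀ h, ∀ᵐ x ∂P, Tendsto (fun n : ℕ => Real.log (endMGF β h (fun p => ω p x) n) / n) atTop (𝓝 (lam h))) ∧
      ∀ h : ℝ, ∃ c : ℝ, 0 < c ∧
        (∀ᶠ n : ℕ in atTop, (n : ℝ) ^ (1 + c) ≤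
          ∫ x, forceE β h (fun p => ω p x) n (fun s => ((walk s n : ℝ) - deriv lam h * n) ^ 2) ∂P) ∧
        Tendsto (fun n : ℕ => ∫ x, forceP β h (fun p => ω p x) n
          {s | |(walk s n : ℝ) - deriv lam h * n| ≤ (n : ℝ) ^ (1 / 2 + c)} ∂P) atTop (𝓝 0) ∧
        1 / 2 + c ≤ nuH P β h (deriv lam h) ω := by
  obtain ⟨⟨lam, J', -, hdiff, -, -, -, h4, -, h6, h7, -, -, -⟩, -⟩ :=
    Pool.Agent.W_7d29a1_F.main_FV P ω hmeas hindep hident hnc hexp hβ
  obtain ⟨μ, hprob, hμ, hnd, hmp, hvel⟩ := law_of P ω hmeas hindep hident hnc hexp hβ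
  refine ⟨lam, hdiff, h4, fun h => ?_⟩
  obtain ⟨⟨c₀, C₀, n₀, hI⟩, hw⟩ := hZ μ hμ hnd (2 * h)
  rw [← hvel lam h4 h]
  exact core_Z hI hmeas hmp hw

/-- **The headline at every force, lattice version**: infinitely many scales. -/
theorem main_ZF
    (hZ : ∀ (μ : Measure ℝ) [IsProbabilityMeasure μ], Pool.Agent.W_7d29a1_h47.EM μ → Pool.Agent.W_7d29a1_h47.Nondeg μ →
      ∀ s : ℝ, (∃ (c C : ℝ) (n₀ : ℕ), In μ s c C n₀) ∧
        ∃ a : ℝ, 0 < a ∧ ∃ᶠ n : ℕ in atTop, (n : ℝ) ^ (1 / 2 + a) ≤ wd μ s n)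
    (hmeas : ∀ p, Measurable (ω p)) (hindep : iIndepFun ω P)
    (hident : ∀ p q, IdentDistrib (ω p) (ω q) P P) (hnc : ¬ ∃ c : ℝ, ∀ᵐ x ∂P, ω (0, 0) x = c)
    (hexp : ∀ b : ℝ, Integrable (fun x => Real.exp (b * ω (0, 0) x)) P) {β : ℝ} (hβ : 0 < β) :
    ∃ lam : ℝ → ℝ, Differentiable ℝ lam ∧
      (∀ h, ∀ᵐ x ∂P, Tendsto (fun n : ℕ => Real.log (endMGF β h (fun p => ω p x) n) / n) atTop (𝓝 (lam h))) ∧
      ∀ h : ℝ, ∃ c : ℝ, 0 < c ∧ 1 / 2 + c ≤ nuH P β h (deriv lam h) ω ∧ ∀ ε : ℝ, 0 < ε → ∃ᶠ n : ℕ in atTop,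
        (n : ℝ) ^ (1 + c) ≤
          ∫ x, forceE β h (fun p => ω p x) n (fun s => ((walk s n : ℝ) - deriv lam h * n) ^ 2) ∂P ∧
        ∫ x, forceP β h (fun p => ω p x) n {s | |(walk s n : ℝ) - deriv lam h * n| ≤ (n : ℝ) ^ (1 / 2 + c)} ∂P ≤ ε := by
  obtain ⟨⟨lam, J', -, hdiff, -, -, -, h4, -, h6, h7, -, -, -⟩, -⟩ :=
    Pool.Agent.W_7d29a1_F.main_FV P ω hmeas hindep hident hnc hexp hβ
  obtain ⟨μ, hprob, hμ, hnd, hmp, hvel⟩ := law_of P ω hmeas hindep hident hnc hexp hβ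
  refine ⟨lam, hdiff, h4, fun h => ?_⟩
  obtain ⟨⟨c₀, C₀, n₀, hI⟩, hw⟩ := hZ μ hμ hnd (2 * h)
  rw [← hvel lam h4 h]
  exact core_ZF hI hmeas hmp hw

end space

end Pool.Agent.W_7d29a1_HZ.Z46
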