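import Pool.Agent.W_7d29a1_HZ.Z46_MainZ

/-!
STORM Z, SECOND STOREY, AT EVERY FORCE, on the probability space of the problem: from `n ^ (1 / 4 + a) E_n ≤ w_n` for all large `n`,
`n ^ (1 / 2 + c) Var log Z_n (h) ≤ E E_n^h (S_n - v n) ^ 2` and `χ (h) + 1 / 4 + c ≤ ν (h)`.
-/

set_option autoImplicit false

namespace Pool.Agent.W_7d29a1_HZ.Z57

open MeasureTheory ProbabilityTheory Filter Topology
open Pool.Agent.W_7d29a1_F Pool.Agent.W_7d29a1_h4g Pool.Agent.W_7d29a1_H Pool.Agent.W_7d29a1_HS Pool.Agent.W_7d29a1_HZ.Z46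
open Pool.Agent.W_7d29a1_h47 (walk energy endMGF forceP forceE)
open Pool.Agent.W_7d29a1_SR (toF)

variable {μ : Measure ℝ} [IsProbabilityMeasure μ] {h c C : ℝ} {n₀ : ℕ}
variable {Ω : Type*} [MeasurableSpace Ω] {P : Measure Ω} [IsProbabilityMeasure P] {ω : ℕ × ℤ → Ω → ℝ} {β : ℝ}

theorem core_Q (hI : In μ (2 * h) c C n₀) (hmeas : ∀ p, Measurable (ω p))
    (hmp : MeasurePreserving (fun x => toF β fun p => ω p x) P (law μ))
    (hw : ∃ a : ℝ, 0 < a ∧ ∀ᶠ n : ℕ in atTop, (n : ℝ) ^ (1 / 4 + a) * EE μ (2 * h) n ≤ wd μ (2 * h) n) :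
    ∃ c' : ℝ, 0 < c' ∧
      (∀ᶠ n : ℕ in atTop, (n : ℝ) ^ (1 / 2 + c') * Var[fun x => Real.log (parZ β h (fun p => ω p x) n); P] ≤
        ∫ x, forceE β h (fun p => ω p x) n (fun s => ((walk s n : ℝ) - vel μ h * n) ^ 2) ∂P) ∧
      chiH P β h ω + 1 / 4 + c' ≤ nuH P β h (vel μ h) ω := by
  obtain ⟨a, ha, hwa⟩ := hw
  obtain ⟨a₁, A₁, b, B, ha₁, hA₁, hb, hB, n₁, hn₁, hsc⟩ := scales (P := P) (β := β) (ω := ω) hI hmp
  obtain ⟨b', hb', n₂, hM⟩ := Pool.Agent.W_7d29a1_HE.endM_P (P := P) (ω := ω) (β := β) hI hmeas hmp 2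
  -- the comparison of the width with the standard deviation
  have hW : ∀ᶠ n : ℕ in atTop, (n : ℝ) ^ (1 / 4 + a / 2) * sgm P β h ω n ≤ wth P β h ω (fun v => J μ (2 * h) (v / 2)) n := by
    filter_upwards [hwa, eventually_ge_atTop n₁,
      ev_absorb (b := 1 / 4 + a) (b' := 1 / 4 + a / 2) (K := b / A₁) (by positivity) (by linarith)] with n g1 g2 g3
    obtain ⟨-, s2, s1, -, -⟩ := hsc n g2
    have hE0 : 0 ≤ EE μ (2 * h) n := le_trans zero_le_one (Pool.Agent.W_7d29a1_H.one_le_EE (μ := μ) (s := 2 * h) n)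
    calc (n : ℝ) ^ (1 / 4 + a / 2) * sgm P β h ω n ≤ (n : ℝ) ^ (1 / 4 + a / 2) * (A₁ * EE μ (2 * h) n) :=
          mul_le_mul_of_nonneg_left s2 (by positivity)
      _ ≤ b / A₁ * (n : ℝ) ^ (1 / 4 + a) * (A₁ * EE μ (2 * h) n) := mul_le_mul_of_nonneg_right g3 (by positivity)
      _ = b * ((n : ℝ) ^ (1 / 4 + a) * EE μ (2 * h) n) := by field_simp
      _ ≤ b * wd μ (2 * h) n := mul_le_mul_of_nonneg_left g1 hb.le
      _ ≤ _ := s1
  have hvar : ∀ n, Var[fun x => Real.log (parZ β h (fun p => ω p x) n); P] = sgm P β h ω n ^ 2 := fun n => by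
    unfold sgm
    rw [Real.sq_sqrt (variance_nonneg _ _)]
  have hsg0 : ∀ n, 0 ≤ sgm P β h ω n := fun n => Real.sqrt_nonneg _
  refine ⟨a / 4, by positivity, ?_, ?_⟩
  · filter_upwards [hW, eventually_ge_atTop n₂, eventually_ge_atTop 1,
      ev_absorb (b := 1 / 2 + a) (b' := 1 / 2 + a / 4) (K := b') hb' (by linarith)] with n g1 g2 g3 g4
    have hn0 : (0 : ℝ) < n := by exact_mod_cast g3
    have h2 := hM n g2
    have h3 : (fun s : Fin n → Bool => |(walk s n : ℝ) - vel μ h * n| ^ 2) =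
        fun s => ((walk s n : ℝ) - vel μ h * n) ^ 2 := by
      funext s
      exact sq_abs _
    rw [h3] at h2
    refine le_trans ?_ h2
    rw [hvar]
    have h4 : 0 ≤ (n : ℝ) ^ (1 / 4 + a / 2) * sgm P β h ω n := mul_nonneg (by positivity) (hsg0 n)
    calc (n : ℝ) ^ (1 / 2 + a / 4) * sgm P β h ω n ^ 2 ≤ b' * (n : ℝ) ^ (1 / 2 + a) * sgm P β h ω n ^ 2 :=
          mul_le_mul_of_nonneg_right g4 (sq_nonneg _)
      _ = b' * ((n : ℝ) ^ (1 / 4 + a / 2) * sgm P β h ω n) ^ 2 := by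
          rw [mul_pow, ← Real.rpow_natCast ((n : ℝ) ^ (1 / 4 + a / 2)), ← Real.rpow_mul hn0.le]
          have e : (1 / 4 + a / 2) * ((2 : ℕ) : ℝ) = 1 / 2 + a := by
            push_cast
            ring
          rw [e]
          ring
      _ ≤ _ := mul_le_mul_of_nonneg_left (pow_le_pow_left₀ h4 g1 2) hb'.le
  · -- the exponents
    have key : ∀ x : ℝ, 0 < x → (∀ᶠ n : ℕ in atTop, (n : ℝ) ^ (2 * x) ≤ Var[fun y => Real.log (parZ β h (fun p => ω p y) n); P]) →
        x + 1 / 4 + a / 4 ≤ nuH P β h (vel μ h) ω := by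
      intro x hx hxv
      refine nuH_ge hmeas fun ε hε => Eventually.frequently ?_
      obtain ⟨c₂, hc₂, n₃, hE⟩ := Pool.Agent.W_7d29a1_HE.endS_P (P := P) (ω := ω) (β := β) hI hmeas hmp hε
      filter_upwards [hW, hxv, eventually_ge_atTop n₃, eventually_ge_atTop 1,
        ev_absorb (b := x + 1 / 4 + a / 2) (b' := x + 1 / 4 + a / 4) (K := c₂) hc₂ (by linarith)] with n g1 g2 g3 g4 g5
      have hn0 : (0 : ℝ) < n := by exact_mod_cast g4
      have k1 : (n : ℝ) ^ x ≤ sgm P β h ω n := by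
        rw [hvar] at g2
        have e : (n : ℝ) ^ (2 * x) = ((n : ℝ) ^ x) ^ 2 := by
          rw [← Real.rpow_natCast ((n : ℝ) ^ x), ← Real.rpow_mul hn0.le]
          congr 1
          push_cast
          ring
        rw [e] at g2
        exact (pow_le_pow_iff_left₀ (by positivity) (hsg0 n) (by norm_num)).1 g2
      have k2 : (n : ℝ) ^ (x + 1 / 4 + a / 2) ≤ wth P β h ω (fun v => J μ (2 * h) (v / 2)) n := by
        refine le_trans ?_ g1
        calc (n : ℝ) ^ (x + 1 / 4 + a / 2) = (n : ℝ) ^ (1 / 4 + a / 2) * (n : ℝ) ^ x := by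
              rw [← Real.rpow_add hn0]
              congr 1
              ring
          _ ≤ _ := mul_le_mul_of_nonneg_left k1 (by positivity)
      refine le_trans (integral_mono (forceP_integrable hmeas β h n _) (forceP_integrable hmeas β h n _) fun y =>
        forceP_mono _ _ _ _ fun s hs => ?_) (hE n g3)
      refine (hs n le_rfl).trans (g5.trans ?_)
      exact mul_le_mul_of_nonneg_left k2 hc₂.le
    by_cases hne : {x : ℝ | 0 < x ∧ ∀ᶠ n : ℕ in atTop, (n : ℝ) ^ (2 * x) ≤ Var[fun y => Real.log (parZ β h (fun p => ω p y) n); P]}.Nonempty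
    · have h1 : chiH P β h ω ≤ nuH P β h (vel μ h) ω - 1 / 4 - a / 4 := by
        unfold chiH
        refine csSup_le hne fun x hx => ?_
        have := key x hx.1 hx.2
        linarith
      linarith
    · rw [Set.not_nonempty_iff_eq_empty] at hne
      have h1 : chiH P β h ω = 0 := by
        unfold chiH
        rw [hne, Real.sSup_empty]
      rw [h1]
      -- `w_n ≥ n ^ (1 / 4 + a)` as the unit is at least one
      have h2 : ∀ᶠ n : ℕ in atTop, (n : ℝ) ^ (1 / 4 + a / 2) ≤ wth P β h ω (fun v => J μ (2 * h) (v / 2)) n := by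
        filter_upwards [hwa, eventually_ge_atTop n₁,
          ev_absorb (b := 1 / 4 + a) (b' := 1 / 4 + a / 2) (K := b) hb (by linarith)] with n g1 g2 g3
        obtain ⟨-, -, s1, -, -⟩ := hsc n g2
        have hE1 : 1 ≤ EE μ (2 * h) n := Pool.Agent.W_7d29a1_H.one_le_EE (μ := μ) (s := 2 * h) n
        refine g3.trans (le_trans ?_ s1)
        refine mul_le_mul_of_nonneg_left (le_trans ?_ g1) hb.le
        exact le_mul_of_one_le_right (by positivity) hE1
      have h3 : 1 / 4 + a / 4 ≤ nuH P β h (vel μ h) ω := by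
        refine nuH_ge hmeas fun ε hε => Eventually.frequently ?_
        obtain ⟨c₂, hc₂, n₃, hE⟩ := Pool.Agent.W_7d29a1_HE.endS_P (P := P) (ω := ω) (β := β) hI hmeas hmp hε
        filter_upwards [h2, eventually_ge_atTop n₃,
          ev_absorb (b := 1 / 4 + a / 2) (b' := 1 / 4 + a / 4) (K := c₂) hc₂ (by linarith)] with n g1 g3 g5
        refine le_trans (integral_mono (forceP_integrable hmeas β h n _) (forceP_integrable hmeas β h n _) fun y =>
          forceP_mono _ _ _ _ fun s hs => ?_) (hE n g3)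
        refine (hs n le_rfl).trans (g5.trans ?_)
        exact mul_le_mul_of_nonneg_left g1 hc₂.le
      linarith

end Pool.Agent.W_7d29a1_HZ.Z57
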