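import Pool.Agent.W_7d29a1_HZ.Z57_WireE
import Pool.Agent.W_7d29a1_Z57.AlgE57d
import Pool.Agent.W_7d29a1_HN.NPMain
/-!
STORM Z, SECOND STOREY: the end. From the kernels of the scale `R` with the tie rate `1 / E` (`OkayQ`) and the base of the windows:
`w_n / w_m ≥ (n / m) ^ (1 / 2 + c')` and `(w_n / w_m) ^ (3 / 2) ≥ (n / m) ^ (1 / 2 + c') E_n / E_m` for `n ≥ m ^ (1 + η)`.
-/

set_option autoImplicit false

namespace Pool.Agent.W_7d29a1_HZ.Z57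

open MeasureTheory ProbabilityTheory Filter Topology Finset
open Pool.Agent.W_7d29a1_F Pool.Agent.W_7d29a1_X Pool.Agent.W_7d29a1_h4g Pool.Agent.W_7d29a1_H Pool.Agent.W_7d29a1_HZ
open Pool.Agent.W_7d29a1_HS (In wd)
open Pool.Agent.W_7d29a1_Z57 (IfaceE endE)
open Pool.Agent.W_7d29a1_HZ.StpK (OkayQ)
open scoped ENNReal

variable {μ : Measure ℝ} {s : ℝ}

/-- The base of the interface (one dislocation of the size of the width costs the unit). -/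
def BaseE (μ : Measure ℝ) (s : ℝ) : Prop :=
  ∀ κ e : ℝ, 0 < κ → 0 < e → ∃ c : ℝ, 0 < c ∧ ∃ a₀ : ℕ, ∀ a Λ x : ℕ, a₀ ≤ a → κ * a ≤ Λ → Λ ≤ a → x ≤ Λ →
    AdmE μ s c a Λ (a + x) 1 ((2 : ℝ) ^ (e * Λ) * EE' μ s (2 ^ a))

variable [IsProbabilityMeasure μ] {c₁ C₁ : ℝ} {n₀ : ℕ}

theorem iface_wire (h : In μ s c₁ C₁ n₀) (hO : OkayQ μ s fun t => (EE' μ s t)⁻¹) (hB : BaseE μ s) :
    IfaceE (wd' μ s) (EE' μ s) (AdmE μ s) :=
  ⟨fun _ hc hA hG => AdmE_mono hc hA hG, hB, step_wire h hO, top_wire h⟩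

/-- The regularity of the scales in the form of the closing theorem. -/
theorem reg_wire (h : In μ s c₁ C₁ n₀) : ∃ (n₁ : ℕ) (C c : ℝ), 1 ≤ n₁ ∧ 1 ≤ C ∧ 0 < c ∧
    (∀ m n : ℕ, n₁ ≤ m → m ≤ n → wd' μ s m ≤ C * wd' μ s n ∧ wd' μ s n ≤ C * ((n : ℝ) / m) * wd' μ s m) ∧
    (∀ m n : ℕ, n₁ ≤ m → m ≤ n → EE' μ s m ≤ C * EE' μ s n ∧ EE' μ s n ≤ C * ((n : ℝ) / m) * EE' μ s m) ∧
    (∀ m n : ℕ, n₁ ≤ m → m ≤ n → c * ((n : ℝ) / m) ^ c * wd' μ s m ≤ wd' μ s n) ∧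
    (∀ m n : ℕ, n₁ ≤ m → m ≤ n → wd' μ s n ≤ C * ((n : ℝ) / m) ^ (1 - c) * wd' μ s m) ∧
    (∀ m n : ℕ, n₁ ≤ m → m ≤ n → c * ((n : ℝ) / m) ^ (1 + c) * (wd' μ s m * EE' μ s m ^ 2) ≤ wd' μ s n * EE' μ s n ^ 2) := by
  obtain ⟨a, K, ha, ha1, hK, hw⟩ := wd'_pow h
  obtain ⟨b, K', hb, hb1, hK', hE⟩ := EE'_pow h
  obtain ⟨c', hc', n₂, hn₂, hnp⟩ := Pool.Agent.W_7d29a1_HN.np_main h
  obtain ⟨n₁, hn₁⟩ := wd'_eq h
  obtain ⟨C, hC⟩ : ∃ C : ℝ, C = max K K' := ⟨_, rfl⟩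
  have hCK : K ≤ C := by rw [hC]; exact le_max_left _ _
  have hCK' : K' ≤ C := by rw [hC]; exact le_max_right _ _
  obtain ⟨c, hc⟩ : ∃ c : ℝ, c = min (min a K⁻¹) c' := ⟨_, rfl⟩
  have hK0 : 0 < K := by linarith
  have hc0 : 0 < c := by rw [hc]; exact lt_min (lt_min ha (by positivity)) hc'
  have hca : c ≤ a := by rw [hc]; exact (min_le_left _ _).trans (min_le_left _ _)
  have hcK : c ≤ K⁻¹ := by rw [hc]; exact (min_le_left _ _).trans (min_le_right _ _)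
  have hcc : c ≤ c' := by rw [hc]; exact min_le_right _ _
  have hw0 : ∀ m, 0 < wd' μ s m := fun m => lt_of_lt_of_le one_pos (wd'_one m)
  have hE0 : ∀ m, 0 < EE' μ s m := fun m => lt_of_lt_of_le one_pos (EE'_one m)
  have hr : ∀ m n : ℕ, 1 ≤ m → m ≤ n → (1 : ℝ) ≤ (n : ℝ) / m := by
    intro m n hm hmn
    have : (0 : ℝ) < m := by exact_mod_cast hm
    rw [le_div_iff₀ this, one_mul]
    exact_mod_cast hmn
  refine ⟨n₁ + n₂ + 1, C, c, by omega, by linarith, hc0, ?_, ?_, ?_, ?_, ?_⟩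
  · intro m n hm hmn
    have hm1 : 1 ≤ m := by omega
    obtain ⟨h1, h2, h3⟩ := hw m n hm1 hmn
    refine ⟨h1.trans (mul_le_mul_of_nonneg_right hCK (hw0 n).le), h3.trans ?_⟩
    refine mul_le_mul_of_nonneg_right ?_ (hw0 m).le
    have h4 : ((n : ℝ) / m) ^ (1 - a) ≤ (n : ℝ) / m := by
      calc ((n : ℝ) / m) ^ (1 - a) ≤ ((n : ℝ) / m) ^ (1 : ℝ) := Real.rpow_le_rpow_of_exponent_le (hr m n hm1 hmn) (by linarith)
        _ = _ := Real.rpow_one _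
    exact mul_le_mul hCK h4 (by positivity) (by linarith)
  · intro m n hm hmn
    have hm1 : 1 ≤ m := by omega
    obtain ⟨h1, h2, h3⟩ := hE m n hm1 hmn
    refine ⟨h1.trans (mul_le_mul_of_nonneg_right hCK' (hE0 n).le), h3.trans ?_⟩
    refine mul_le_mul_of_nonneg_right ?_ (hE0 m).le
    have h5 := hr m n hm1 hmn
    have h4 : Real.sqrt ((n : ℝ) / m) ≤ (n : ℝ) / m := by
      rw [Real.sqrt_le_left (by linarith)]
      nlinarith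
    exact mul_le_mul hCK' h4 (Real.sqrt_nonneg _) (by linarith)
  · intro m n hm hmn
    have hm1 : 1 ≤ m := by omega
    obtain ⟨h1, h2, h3⟩ := hw m n hm1 hmn
    refine le_trans ?_ h2
    refine mul_le_mul_of_nonneg_right ?_ (hw0 m).le
    exact mul_le_mul hcK (Real.rpow_le_rpow_of_exponent_le (hr m n hm1 hmn) hca) (by positivity) (by positivity)
  · intro m n hm hmn
    have hm1 : 1 ≤ m := by omega
    obtain ⟨h1, h2, h3⟩ := hw m n hm1 hmn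
    refine h3.trans ?_
    refine mul_le_mul_of_nonneg_right ?_ (hw0 m).le
    exact mul_le_mul hCK (Real.rpow_le_rpow_of_exponent_le (hr m n hm1 hmn) (by linarith)) (by positivity) (by linarith)
  · intro m n hm hmn
    have hm1 : 1 ≤ m := by omega
    have hmR : (0 : ℝ) < m := by exact_mod_cast hm1
    have hnR : (0 : ℝ) < n := by exact_mod_cast (hm1.trans hmn)
    have h4 := hnp m n (by omega) hmn
    unfold Pool.Agent.W_7d29a1_HN.bn at h4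
    rw [le_div_iff₀ hnR] at h4
    obtain ⟨e1, e2, -⟩ := hn₁ m (by omega)
    obtain ⟨e3, e4, -⟩ := hn₁ n (by omega)
    rw [e1, e2, e3, e4]
    have h5 : c' * ((n : ℝ) / m) ^ (1 + c') * (wd μ s m * EE μ s m ^ 2) ≤ wd μ s n * EE μ s n ^ 2 := by
      refine le_trans (le_of_eq ?_) h4
      rw [Real.rpow_add (by positivity), Real.rpow_one]
      field_simp
    refine le_trans ?_ h5
    refine mul_le_mul_of_nonneg_right ?_ ?_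
    · exact mul_le_mul hcc (Real.rpow_le_rpow_of_exponent_le (hr m n hm1 hmn) (by linarith)) (by positivity) hc'.le
    · rw [← e1, ← e2]
      have := (hw0 m).le
      positivity

/-- **THE SECOND STOREY, CONDITIONAL END.** -/
theorem secondE (h : In μ s c₁ C₁ n₀) (hO : OkayQ μ s fun t => (EE' μ s t)⁻¹) (hB : BaseE μ s) :
    ∃ c' : ℝ, 0 < c' ∧ ∀ η : ℝ, 0 < η → ∃ m₀ : ℕ, ∀ m n : ℕ, m₀ ≤ m → (m : ℝ) ^ (1 + η) ≤ n →
      ((n : ℝ) / m) ^ (1 / 2 + c') * wd' μ s m ≤ wd' μ s n ∧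
        ((n : ℝ) / m) ^ (1 / 2 + c') * (EE' μ s n / EE' μ s m) ≤ (wd' μ s n / wd' μ s m) ^ (3 / 2 : ℝ) := by
  obtain ⟨n₁, C, c, -, hC, hc, h1, h2, h3, h4, h5⟩ := reg_wire h
  exact endE (iface_wire h hO hB) (fun n => lt_of_lt_of_le one_pos (wd'_one n))
    (fun n => lt_of_lt_of_le one_pos (EE'_one n)) hC hc h1 h2 h3 h4 h5

/-- From a fixed start: `n ^ (1 / 2 + c') ≤ w_n` and `n ^ (1 / 2 + c') E_n ≤ w_n ^ (3 / 2)` for all large `n`. -/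
theorem ev_of {w E : ℕ → ℝ} (hw : ∀ n, 1 ≤ w n) (hE : ∀ n, 1 ≤ E n) {c' : ℝ} (hc' : 0 < c')
    (H : ∀ η : ℝ, 0 < η → ∃ m₀ : ℕ, ∀ m n : ℕ, m₀ ≤ m → (m : ℝ) ^ (1 + η) ≤ n →
      ((n : ℝ) / m) ^ (1 / 2 + c') * w m ≤ w n ∧ ((n : ℝ) / m) ^ (1 / 2 + c') * (E n / E m) ≤ (w n / w m) ^ (3 / 2 : ℝ)) :
    ∀ᶠ n : ℕ in atTop, (n : ℝ) ^ (1 / 2 + c' / 2) ≤ w n ∧ (n : ℝ) ^ (1 / 2 + c' / 2) * E n ≤ w n ^ (3 / 2 : ℝ) := by
  obtain ⟨m₀, h⟩ := H 1 one_pos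
  obtain ⟨m, hm⟩ : ∃ m : ℕ, m = m₀ + 1 := ⟨_, rfl⟩
  have hm1 : (1 : ℝ) ≤ m := by
    have : 1 ≤ m := by omega
    exact_mod_cast this
  have hm0 : (0 : ℝ) < m := by linarith
  have t1 : Tendsto (fun n : ℕ => (n : ℝ) ^ (c' / 2)) atTop atTop :=
    (tendsto_rpow_atTop (by positivity)).comp tendsto_natCast_atTop_atTop
  filter_upwards [tendsto_natCast_atTop_atTop.eventually_ge_atTop ((m : ℝ) ^ (1 + 1 : ℝ)),
    t1.eventually_ge_atTop ((m : ℝ) ^ (1 / 2 + c') * E m)] with n h1 h2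
  obtain ⟨k1, k2⟩ := h m n (by omega) h1
  have hn0 : (0 : ℝ) < n := lt_of_lt_of_le (Real.rpow_pos_of_pos hm0 _) h1
  have hmp : 0 < (m : ℝ) ^ (1 / 2 + c') := Real.rpow_pos_of_pos hm0 _
  have e1 : ((n : ℝ) / m) ^ (1 / 2 + c') = (n : ℝ) ^ (1 / 2 + c' / 2) * (n : ℝ) ^ (c' / 2) / (m : ℝ) ^ (1 / 2 + c') := by
    rw [Real.div_rpow hn0.le hm0.le, ← Real.rpow_add hn0]
    congr 2
    ring
  have hN0 : 0 < (n : ℝ) ^ (1 / 2 + c' / 2) := Real.rpow_pos_of_pos hn0 _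
  have hEm := hE m
  have hwm := hw m
  -- `(n / m) ^ (1 / 2 + c') ≥ n ^ (1 / 2 + c' / 2) E_m`
  have e2 : (n : ℝ) ^ (1 / 2 + c' / 2) * E m ≤ ((n : ℝ) / m) ^ (1 / 2 + c') := by
    rw [e1, le_div_iff₀ hmp]
    calc (n : ℝ) ^ (1 / 2 + c' / 2) * E m * (m : ℝ) ^ (1 / 2 + c') = (n : ℝ) ^ (1 / 2 + c' / 2) * ((m : ℝ) ^ (1 / 2 + c') * E m) := by ring
      _ ≤ _ := mul_le_mul_of_nonneg_left h2 hN0.le
  constructor
  · have h3 : (n : ℝ) ^ (1 / 2 + c' / 2) ≤ ((n : ℝ) / m) ^ (1 / 2 + c') := by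
      refine le_trans ?_ e2
      exact le_mul_of_one_le_right hN0.le hEm
    refine le_trans ?_ k1
    calc (n : ℝ) ^ (1 / 2 + c' / 2) ≤ ((n : ℝ) / m) ^ (1 / 2 + c') := h3
      _ ≤ _ := le_mul_of_one_le_right (by positivity) hwm
  · have hEn : 0 < E n := lt_of_lt_of_le one_pos (hE n)
    have hEm0 : 0 < E m := lt_of_lt_of_le one_pos hEm
    have hwn : 0 < w n := lt_of_lt_of_le one_pos (hw n)
    have h3 : (w n / w m) ^ (3 / 2 : ℝ) ≤ w n ^ (3 / 2 : ℝ) := by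
      refine Real.rpow_le_rpow (by positivity) ?_ (by norm_num)
      exact div_le_self hwn.le hwm
    refine le_trans ?_ (k2.trans h3)
    calc (n : ℝ) ^ (1 / 2 + c' / 2) * E n = (n : ℝ) ^ (1 / 2 + c' / 2) * E m * (E n / E m) := by field_simp
      _ ≤ _ := mul_le_mul_of_nonneg_right e2 (by positivity)

/-- **THE SECOND STOREY, for all large `n`.** -/
theorem secondE_ev (h : In μ s c₁ C₁ n₀) (hO : OkayQ μ s fun t => (EE' μ s t)⁻¹) (hB : BaseE μ s) :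
    ∃ c' : ℝ, 0 < c' ∧ ∀ᶠ n : ℕ in atTop, (n : ℝ) ^ (1 / 2 + c') ≤ wd μ s n ∧ (n : ℝ) ^ (1 / 2 + c') * EE μ s n ≤ wd μ s n ^ (3 / 2 : ℝ) := by
  obtain ⟨c', hc', H⟩ := secondE h hO hB
  obtain ⟨n₁, hn₁⟩ := wd'_eq h
  refine ⟨c' / 2, by positivity, ?_⟩
  filter_upwards [ev_of wd'_one EE'_one hc' H, eventually_ge_atTop n₁] with n h1 h2
  obtain ⟨e1, e2, -⟩ := hn₁ n h2
  rw [e1, e2] at h1
  exact h1

end Pool.Agent.W_7d29a1_HZ.Z57
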