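import Pool.Agent.W_7d29a1_Z57.AlgE57e
import Pool.Agent.W_7d29a1_HZ.Z57_FinE
/-!
STORM Z, SECOND STOREY: `n ^ (1 / 4 + c) E_n ≤ w_n` for all large `n`, and on the probability space of the problem
`n ^ (1 / 2 + c) Var log Z_n ≤ E E_n S_n ^ 2` and `χ + 1 / 4 + c ≤ ν`.
-/

set_option autoImplicit false

namespace Pool.Agent.W_7d29a1_HZ.Z57

open MeasureTheory ProbabilityTheory Filter Topology Finset
open Pool.Agent.W_7d29a1_F Pool.Agent.W_7d29a1_X Pool.Agent.W_7d29a1_h4g Pool.Agent.W_7d29a1_H Pool.Agent.W_7d29a1_HZ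
open Pool.Agent.W_7d29a1_HS (In wd)
open Pool.Agent.W_7d29a1_Z57 (endQ)
open Pool.Agent.W_7d29a1_HZ.StpK (OkayQ)
open scoped ENNReal

variable {μ : Measure ℝ} {s : ℝ}

/-- The power superconcentration of the unit, from every scale. -/
def SupC (μ : Measure ℝ) (s : ℝ) : Prop :=
  ∃ (C e : ℝ) (n₁ : ℕ), 0 < C ∧ 0 < e ∧ e ≤ 1 ∧ 1 ≤ n₁ ∧ ∀ m n : ℕ, n₁ ≤ m → m ≤ n →
    EE μ s n ^ 2 ≤ C * ((n : ℝ) / m) ^ (1 - e) * EE μ s m ^ 2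

variable [IsProbabilityMeasure μ] {c₁ C₁ : ℝ} {n₀ : ℕ}

/-- **THE SECOND STOREY WITH THE SUPERCONCENTRATION.** -/
theorem secondQ (h : In μ s c₁ C₁ n₀) (hO : OkayQ μ s fun t => (EE' μ s t)⁻¹) (hB : BaseE μ s) (hS : SupC μ s) :
    ∃ c' : ℝ, 0 < c' ∧ ∀ η : ℝ, 0 < η → ∃ m₀ : ℕ, ∀ m n : ℕ, m₀ ≤ m → (m : ℝ) ^ (1 + η) ≤ n →
      ((n : ℝ) / m) ^ (1 / 4 + c') * (EE' μ s n / EE' μ s m) ≤ wd' μ s n / wd' μ s m := by
  obtain ⟨n₁, C, c, hn₁1, hC, hc, h1, h2, h3, h4, h5⟩ := reg_wire h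
  obtain ⟨D, e, n₂, hD, he, he1, hn₂1, h6⟩ := hS
  obtain ⟨n₃, hn₃⟩ := wd'_eq h
  obtain ⟨c₂, hc₂⟩ : ∃ c₂ : ℝ, c₂ = min c e := ⟨_, rfl⟩
  have hc₂0 : 0 < c₂ := by rw [hc₂]; exact lt_min hc he
  have hcc : c₂ ≤ c := by rw [hc₂]; exact min_le_left _ _
  have hce : c₂ ≤ e := by rw [hc₂]; exact min_le_right _ _
  obtain ⟨C₂, hC₂⟩ : ∃ C₂ : ℝ, C₂ = max C (D + 1) := ⟨_, rfl⟩
  have hCC : C ≤ C₂ := by rw [hC₂]; exact le_max_left _ _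
  have hDC : D + 1 ≤ C₂ := by rw [hC₂]; exact le_max_right _ _
  have hC₂1 : 1 ≤ C₂ := hC.trans hCC
  have hw0 : ∀ m, 0 < wd' μ s m := fun m => lt_of_lt_of_le one_pos (wd'_one m)
  have hE0 : ∀ m, 0 < EE' μ s m := fun m => lt_of_lt_of_le one_pos (EE'_one m)
  have hr : ∀ m n : ℕ, 1 ≤ m → m ≤ n → (1 : ℝ) ≤ (n : ℝ) / m := by
    intro m n hm hmn
    have : (0 : ℝ) < m := by exact_mod_cast hm
    rw [le_div_iff₀ this, one_mul]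
    exact_mod_cast hmn
  have hr0 : ∀ m n : ℕ, 1 ≤ m → m ≤ n → (0 : ℝ) < (n : ℝ) / m := fun m n hm hmn =>
    lt_of_lt_of_le one_pos (hr m n hm hmn)
  refine endQ (iface_wire h hO hB) (n₁ := n₁ + n₂ + n₃) hw0 hE0 hC₂1 hc₂0 ?_ ?_ ?_ ?_ ?_
  · intro m n hm hmn
    obtain ⟨k1, k2⟩ := h1 m n (by omega) hmn
    refine ⟨k1.trans (mul_le_mul_of_nonneg_right hCC (hw0 n).le), k2.trans (mul_le_mul_of_nonneg_right ?_ (hw0 m).le)⟩
    exact mul_le_mul_of_nonneg_right hCC (hr0 m n (by omega) hmn).le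
  · intro m n hm hmn
    obtain ⟨k1, k2⟩ := h2 m n (by omega) hmn
    refine ⟨k1.trans (mul_le_mul_of_nonneg_right hCC (hE0 n).le), k2.trans (mul_le_mul_of_nonneg_right ?_ (hE0 m).le)⟩
    exact mul_le_mul_of_nonneg_right hCC (hr0 m n (by omega) hmn).le
  · intro m n hm hmn
    refine le_trans ?_ (h3 m n (by omega) hmn)
    refine mul_le_mul_of_nonneg_right ?_ (hw0 m).le
    exact mul_le_mul hcc (Real.rpow_le_rpow_of_exponent_le (hr m n (by omega) hmn) hcc)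
      (Real.rpow_nonneg (hr0 m n (by omega) hmn).le _) hc.le
  · intro m n hm hmn
    have hm1 : 1 ≤ m := by omega
    have k1 := h6 m n (by omega) hmn
    obtain ⟨-, e2, -⟩ := hn₃ m (by omega)
    obtain ⟨-, e4, -⟩ := hn₃ n (by omega)
    rw [← e2, ← e4] at k1
    have hq := hr m n hm1 hmn
    have hq0 := hr0 m n hm1 hmn
    have k2 : ((n : ℝ) / m) ^ (1 - e) ≤ ((n : ℝ) / m) ^ (1 - c₂) := Real.rpow_le_rpow_of_exponent_le hq (by linarith)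
    have k3 : (C₂ * ((n : ℝ) / m) ^ ((1 - c₂) / 2) * EE' μ s m) ^ 2 = C₂ ^ 2 * ((n : ℝ) / m) ^ (1 - c₂) * EE' μ s m ^ 2 := by
      rw [mul_pow, mul_pow, ← Real.rpow_natCast (((n : ℝ) / m) ^ ((1 - c₂) / 2)), ← Real.rpow_mul hq0.le]
      congr 3
      push_cast
      ring
    have k4 : D ≤ C₂ ^ 2 := by nlinarith
    have k5 : EE' μ s n ^ 2 ≤ (C₂ * ((n : ℝ) / m) ^ ((1 - c₂) / 2) * EE' μ s m) ^ 2 := by
      rw [k3]
      refine k1.trans (mul_le_mul_of_nonneg_right ?_ (sq_nonneg _))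
      exact mul_le_mul k4 k2 (Real.rpow_nonneg hq0.le _) (by positivity)
    exact (pow_le_pow_iff_left₀ (hE0 n).le (by have := (hE0 m).le; positivity) (by norm_num)).1 k5
  · intro m n hm hmn
    refine le_trans ?_ (h5 m n (by omega) hmn)
    refine mul_le_mul_of_nonneg_right ?_ (by have := (hw0 m).le; positivity)
    exact mul_le_mul hcc (Real.rpow_le_rpow_of_exponent_le (hr m n (by omega) hmn) (by linarith))
      (Real.rpow_nonneg (hr0 m n (by omega) hmn).le _) hc.le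

/-- From a fixed start: `n ^ (1 / 4 + c') E_n ≤ w_n` for all large `n`. -/
theorem evQ_of {w E : ℕ → ℝ} (hw : ∀ n, 1 ≤ w n) (hE : ∀ n, 1 ≤ E n) {c' : ℝ} (hc' : 0 < c')
    (H : ∀ η : ℝ, 0 < η → ∃ m₀ : ℕ, ∀ m n : ℕ, m₀ ≤ m → (m : ℝ) ^ (1 + η) ≤ n →
      ((n : ℝ) / m) ^ (1 / 4 + c') * (E n / E m) ≤ w n / w m) :
    ∀ᶠ n : ℕ in atTop, (n : ℝ) ^ (1 / 4 + c' / 2) * E n ≤ w n := by
  obtain ⟨m₀, h⟩ := H 1 one_pos
  obtain ⟨m, hm⟩ : ∃ m : ℕ, m = m₀ + 1 := ⟨_, rfl⟩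
  have hm1 : (1 : ℝ) ≤ m := by
    have : 1 ≤ m := by omega
    exact_mod_cast this
  have hm0 : (0 : ℝ) < m := by linarith
  have t1 : Tendsto (fun n : ℕ => (n : ℝ) ^ (c' / 2)) atTop atTop :=
    (tendsto_rpow_atTop (by positivity)).comp tendsto_natCast_atTop_atTop
  filter_upwards [tendsto_natCast_atTop_atTop.eventually_ge_atTop ((m : ℝ) ^ (1 + 1 : ℝ)),
    t1.eventually_ge_atTop ((m : ℝ) ^ (1 / 4 + c') * E m)] with n h1 h2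
  have k1 := h m n (by omega) h1
  have hn0 : (0 : ℝ) < n := lt_of_lt_of_le (Real.rpow_pos_of_pos hm0 _) h1
  have hmp : 0 < (m : ℝ) ^ (1 / 4 + c') := Real.rpow_pos_of_pos hm0 _
  have e1 : ((n : ℝ) / m) ^ (1 / 4 + c') = (n : ℝ) ^ (1 / 4 + c' / 2) * (n : ℝ) ^ (c' / 2) / (m : ℝ) ^ (1 / 4 + c') := by
    rw [Real.div_rpow hn0.le hm0.le, ← Real.rpow_add hn0]
    congr 2
    ring
  have hN0 : 0 < (n : ℝ) ^ (1 / 4 + c' / 2) := Real.rpow_pos_of_pos hn0 _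
  have hEm := hE m
  have hwm := hw m
  have hEm0 : 0 < E m := lt_of_lt_of_le one_pos hEm
  have hEn : 0 < E n := lt_of_lt_of_le one_pos (hE n)
  have hwn : 0 < w n := lt_of_lt_of_le one_pos (hw n)
  have e2 : (n : ℝ) ^ (1 / 4 + c' / 2) * E m ≤ ((n : ℝ) / m) ^ (1 / 4 + c') := by
    rw [e1, le_div_iff₀ hmp]
    calc (n : ℝ) ^ (1 / 4 + c' / 2) * E m * (m : ℝ) ^ (1 / 4 + c') = (n : ℝ) ^ (1 / 4 + c' / 2) * ((m : ℝ) ^ (1 / 4 + c') * E m) := by ring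
      _ ≤ _ := mul_le_mul_of_nonneg_left h2 hN0.le
  have h3 : w n / w m ≤ w n := div_le_self hwn.le hwm
  refine le_trans ?_ (k1.trans h3)
  calc (n : ℝ) ^ (1 / 4 + c' / 2) * E n = (n : ℝ) ^ (1 / 4 + c' / 2) * E m * (E n / E m) := by field_simp
    _ ≤ _ := mul_le_mul_of_nonneg_right e2 (by positivity)

/-- **THE SECOND STOREY WITH THE SUPERCONCENTRATION, for all large `n`.** -/
theorem secondQ_ev (h : In μ s c₁ C₁ n₀) (hO : OkayQ μ s fun t => (EE' μ s t)⁻¹) (hB : BaseE μ s) (hS : SupC μ s) :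
    ∃ a : ℝ, 0 < a ∧ ∀ᶠ n : ℕ in atTop, (n : ℝ) ^ (1 / 2 + a) ≤ wd μ s n ∧ (n : ℝ) ^ (1 / 2 + a) * EE μ s n ≤ wd μ s n ^ (3 / 2 : ℝ) ∧
      (n : ℝ) ^ (1 / 4 + a) * EE μ s n ≤ wd μ s n := by
  obtain ⟨c', hc', H⟩ := secondQ h hO hB hS
  obtain ⟨c₂, hc₂, H2⟩ := secondE_ev h hO hB
  obtain ⟨n₁, hn₁⟩ := wd'_eq h
  obtain ⟨a, ha⟩ : ∃ a : ℝ, a = min (c' / 2) c₂ := ⟨_, rfl⟩
  have ha0 : 0 < a := by rw [ha]; exact lt_min (by positivity) hc₂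
  have ha1 : a ≤ c' / 2 := by rw [ha]; exact min_le_left _ _
  have ha2 : a ≤ c₂ := by rw [ha]; exact min_le_right _ _
  refine ⟨a, ha0, ?_⟩
  filter_upwards [evQ_of wd'_one EE'_one hc' H, H2, eventually_ge_atTop n₁, eventually_ge_atTop 1] with n h1 h2 h3 h4
  obtain ⟨e1, e2, -⟩ := hn₁ n h3
  rw [e1, e2] at h1
  have hn1 : (1 : ℝ) ≤ n := by exact_mod_cast h4
  have hE : 0 ≤ EE μ s n := by
    rw [← e2]
    exact le_trans zero_le_one (EE'_one n)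
  have p1 : (n : ℝ) ^ (1 / 2 + a) ≤ (n : ℝ) ^ (1 / 2 + c₂) := Real.rpow_le_rpow_of_exponent_le hn1 (by linarith)
  have p2 : (n : ℝ) ^ (1 / 4 + a) ≤ (n : ℝ) ^ (1 / 4 + c' / 2) := Real.rpow_le_rpow_of_exponent_le hn1 (by linarith)
  exact ⟨p1.trans h2.1, (mul_le_mul_of_nonneg_right p1 hE).trans h2.2, (mul_le_mul_of_nonneg_right p2 hE).trans h1⟩

end Pool.Agent.W_7d29a1_HZ.Z57
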