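import Pool.Agent.W_7d29a1_HZ.Z86_ProdOf
import Pool.Agent.W_7d29a1_HZ.Z10_OkA

/-!
STORM Z AT ONE TILT, second storey, helper86 (port: helper51): from price and production of the near ties at the rate `1 / E`
(`PriceX μ s (qE μ s)`) to `OkayQ`.
-/

set_option autoImplicit false

namespace Pool.Agent.W_7d29a1_HZ.Z86.GX

open MeasureTheory ProbabilityTheory Filter Topology Finset
open Pool.Agent.W_7d29a1_F Pool.Agent.W_7d29a1_X Pool.Agent.W_7d29a1_h4g Pool.Agent.W_7d29a1_H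
open Pool.Agent.W_7d29a1_HS (In wd)
open Pool.Agent.W_7d29a1_HZ
open Pool.Agent.W_7d29a1_HZ.StpK (OkayQ)
open scoped ENNReal

variable {μ : Measure ℝ} {s : ℝ} [IsProbabilityMeasure μ] {c C : ℝ} {n₀ : ℕ}

/-- All the kernels of the next scale are okay, at the rate `q` of the near ties `NX`. -/
theorem okayX (h : In μ s c C n₀) {q : ℕ → ℝ} {K : ℝ} (hq : QOK q K) (hP : PriceX μ s q) : OkayQ μ s q :=
  Pool.Agent.W_7d29a1_HZ.Z10.okayQ_of h (fun n hn => (hq.pos n hn).le) (fun ε hε => ns h ε hε) (innS_of h hq hP)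

/-- The rate `1 / E`. -/
theorem okayE (h : In μ s c C n₀) (hP : PriceX μ s (qE μ s)) : OkayQ μ s fun t => (EE' μ s t)⁻¹ := by
  obtain ⟨K, _, hQ⟩ := QOK_qE h
  exact okayX h hQ hP

end Pool.Agent.W_7d29a1_HZ.Z86.GX
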