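import Pool.Agent.W_7d29a1_HZ.Z86_PrE86
import Pool.Agent.W_7d29a1_HZ.Z86_OkE86

/-!
STORM Z AT ONE TILT, second storey: all the kernels of the next scale are okay at the rate `1 / E`, without hypotheses. (helper51)
-/

set_option autoImplicit false

namespace Pool.Agent.W_7d29a1_HZ.Z86.GX

open MeasureTheory ProbabilityTheory Filter Topology Finset
open Pool.Agent.W_7d29a1_HS (In wd)
open Pool.Agent.W_7d29a1_HZ
open Pool.Agent.W_7d29a1_HZ.StpK (OkayQ)

variable {μ : Measure ℝ} {s : ℝ} [IsProbabilityMeasure μ] {c C : ℝ} {n₀ : ℕ}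

/-- **`OkayQ` at the rate `1 / E`, at every tilt.** -/
theorem okayE_all (h : In μ s c C n₀) : OkayQ μ s fun t => (EE' μ s t)⁻¹ := okayE h (priceX_qE h)

end Pool.Agent.W_7d29a1_HZ.Z86.GX
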