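import Pool.Agent.W_7d29a1_HZ.Z95_BaseW
import Pool.Agent.W_7d29a1_HZ.Z57_FinE
import Pool.Agent.W_7d29a1_HZ.NS

/-!
STORM Z at every tilt (MP_7d29a1_pr), second storey: the base `BaseE` of the interface (model: `W_7d29a1_Z95.BaseE`). (helper95)
-/

set_option autoImplicit false

namespace Pool.Agent.W_7d29a1_HZ.Z95

open MeasureTheory Pool.Agent.W_7d29a1_F Pool.Agent.W_7d29a1_X Pool.Agent.W_7d29a1_HZ
open Pool.Agent.W_7d29a1_HS (In)

variable {μ : Measure ℝ} {s : ℝ} [IsProbabilityMeasure μ] {c C : ℝ} {n₀ : ℕ}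

/-- `BaseE` from the statement of NS. -/
theorem baseE_of (h : In μ s c C n₀) (hns : Pool.Agent.W_7d29a1_HZ.Z74.NSs μ s) : Pool.Agent.W_7d29a1_HZ.Z57.BaseE μ s :=
  base_bunch h hns

/-- **`BaseE` at every tilt.** -/
theorem baseE (h : In μ s c C n₀) : Pool.Agent.W_7d29a1_HZ.Z57.BaseE μ s :=
  baseE_of h fun ε hε => ns h ε hε

end Pool.Agent.W_7d29a1_HZ.Z95
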