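import Pool.Agent.W_7d29a1_HZ.Z57_QRel
import Pool.Agent.W_7d29a1_HZ.Z86_OkAll
import Pool.Agent.W_7d29a1_HZ.Z95_BaseE
import Pool.Agent.W_7d29a1_HX.XA_Leaves
import Pool.Agent.W_7d29a1_HS.InAll

/-!
STORM Z, SECOND STOREY, AT EVERY TILT, WITHOUT HYPOTHESES: the three relative inequalities in the form `QRel` of `W_7d29a1_HM`
(`headQ`) and the window theorem W* (`winStar`).
-/

set_option autoImplicit false

namespace Pool.Agent.W_7d29a1_HZ.Z57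

open MeasureTheory ProbabilityTheory Filter Topology Finset
open Pool.Agent.W_7d29a1_F Pool.Agent.W_7d29a1_X Pool.Agent.W_7d29a1_h4g Pool.Agent.W_7d29a1_H Pool.Agent.W_7d29a1_HZ
open Pool.Agent.W_7d29a1_HS (In wd in_tilt)
open Pool.Agent.W_7d29a1_Z57 (Win)
open Pool.Agent.W_7d29a1_HM (QRel)
open Pool.Agent.W_7d29a1_h47 (EM Nondeg)

variable {μ : Measure ℝ} [IsProbabilityMeasure μ]

/-- **The second storey at every tilt**: `w_n ≥ n^{1/2+a}`, `n^{1/2+a} E_n ≤ w_n^{3/2}` and `n^{1/4+a} E_n ≤ w_n` in the relative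
form `QRel`. -/
theorem headQ (hμ : EM μ) (hnd : Nondeg μ) (s : ℝ) : ∃ a : ℝ, 0 < a ∧ QRel (wd μ s) (EE μ s) a := by
  obtain ⟨c, C, n₀, h⟩ := in_tilt hμ hnd s
  exact qrel_of h (Z86.GX.okayE_all h) (Z95.baseE h) (W_7d29a1_HX.XA.super_tilt_two h)

/-- **W\* at every tilt**: every long almost linear window with the slopes `ν ≥ β`, `χ` has `2 χ ≤ ν + δ` or `χ ≤ 2 ν - 1 + δ`. -/
theorem winStar (hμ : EM μ) (hnd : Nondeg μ) (s : ℝ) {δ β : ℝ} (hδ : 0 < δ) (hδ1 : δ ≤ 1) (hβ : 0 < β) :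
    ∃ ε : ℝ, 0 < ε ∧ ∀ κ : ℝ, 0 < κ →
      ∃ a₀ : ℕ, ∀ a Λ : ℕ, a₀ ≤ a → κ * a ≤ Λ → Λ ≤ a → ∀ ν χ : ℝ, Win (wd' μ s) (EE' μ s) ε a Λ ν χ → β ≤ ν →
        2 * χ < ν + δ ∨ χ < 2 * ν - 1 + δ := by
  obtain ⟨c, C, n₀, h⟩ := in_tilt hμ hnd s
  exact winStar_of h (Z86.GX.okayE_all h) (Z95.baseE h) hδ hδ1 hβ

end Pool.Agent.W_7d29a1_HZ.Z57
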