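import Pool.Agent.W_7d29a1_HS.Reg

/-!
STORM Z, SECOND STOREY, AT EVERY TILT: the rate function near the velocity. If `n ^ (1 / 2 + a) ≤ w_n` and
`n ^ (1 / 2 + a) E_n ≤ w_n ^ (3 / 2)` for all large `n`, then `J (x) ≤ K |x| ^ (3 / 2 + 2 a)` near `0`.
-/

set_option autoImplicit false

namespace Pool.Agent.W_7d29a1_HZ.Z57

open MeasureTheory ProbabilityTheory Filter Topology Set
open Pool.Agent.W_7d29a1_F Pool.Agent.W_7d29a1_h4g Pool.Agent.W_7d29a1_H Pool.Agent.W_7d29a1_HS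

variable {μ : Measure ℝ} {s : ℝ} [IsProbabilityMeasure μ] {c C : ℝ} {n₀ : ℕ}

/-- The rate function near `0`. -/
theorem J_upper (h : In μ s c C n₀) {a : ℝ} (ha : 0 < a)
    (H : ∀ᶠ n : ℕ in atTop, (n : ℝ) ^ (1 / 2 + a) ≤ wd μ s n ∧ (n : ℝ) ^ (1 / 2 + a) * EE μ s n ≤ wd μ s n ^ (3 / 2 : ℝ)) :
    ∃ K v₀ : ℝ, 0 < K ∧ 0 < v₀ ∧ v₀ ≤ 1 / 2 ∧ ∀ v : ℝ, |v| ≤ v₀ → J μ s v ≤ K * |v| ^ (3 / 2 + 2 * a) := by
  obtain ⟨b, k, hb, hk, n₁, hn₁, hw⟩ := wd_ratio h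
  obtain ⟨n₂, hH⟩ := eventually_atTop.1 H
  obtain ⟨aj, A, n₃, haj, hA, hn₃, hJ⟩ := J_wd h one_pos
  obtain ⟨N, hN⟩ : ∃ N : ℕ, N = n₁ + n₂ + n₃ + 1 := ⟨_, rfl⟩
  have hvp : ∀ n, 1 ≤ n → 0 < vA 1 μ s n := fun n hn => h.vA_pos hn
  refine ⟨A * (2 / k) ^ (3 / 2 + 2 * a), min (vA 1 μ s N) (1 / 2), by positivity, lt_min (hvp N (by omega)) (by norm_num),
    min_le_right _ _, fun v hv => ?_⟩
  have hvN : |v| ≤ vA 1 μ s N := hv.trans (min_le_left _ _)
  rcases eq_or_lt_of_le (abs_nonneg v) with h0 | h0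
  · have hv0 : v = 0 := abs_eq_zero.1 h0.symm
    have h1 := h.rf.mul_le (t := 0) le_rfl zero_le_one 0
    rw [mul_zero, zero_mul] at h1
    rw [hv0, abs_zero, Real.zero_rpow (by positivity), mul_zero]
    exact h1
  -- the scale
  have hex : ∃ m : ℕ, vA 1 μ s (N + m) < |v| := by
    have h1 := (h.tv.eventually (gt_mem_nhds h0)).and (eventually_ge_atTop N)
    obtain ⟨m, hm1, hm2⟩ := h1.exists
    exact ⟨m - N, by rw [Nat.add_sub_cancel' hm2]; exact hm1⟩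
  classical
  obtain ⟨m, hm, hmin⟩ : ∃ m : ℕ, vA 1 μ s (N + m) < |v| ∧ ∀ j < m, ¬ vA 1 μ s (N + j) < |v| :=
    ⟨Nat.find hex, Nat.find_spec hex, fun j hj => Nat.find_min hex hj⟩
  have hm0 : m ≠ 0 := by
    rintro rfl
    rw [add_zero] at hm
    linarith
  obtain ⟨j, rfl⟩ : ∃ j, m = j + 1 := ⟨m - 1, by omega⟩
  have hj := not_lt.1 (hmin j (by omega))
  obtain ⟨n, hn⟩ : ∃ n : ℕ, n = N + j := ⟨_, rfl⟩
  rw [← hn] at hj
  have hn' : N + (j + 1) = n + 1 := by omega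
  rw [hn'] at hm
  have hnN : N ≤ n := by omega
  have hn0 : (0 : ℝ) < n := by
    have : 0 < n := by omega
    exact_mod_cast this
  have hn1 : (1 : ℝ) ≤ n := by
    have : 1 ≤ n := by omega
    exact_mod_cast this
  obtain ⟨g1, g2⟩ := hH n (by omega)
  have hvn := hvp n (by omega)
  -- the widths of `n` and `n + 1`
  have hwd : ∀ i, wd μ s i = i * vA 1 μ s i := fun i => rfl
  have h3 : k * wd μ s n ≤ wd μ s (n + 1) := by
    have h4 := hw n (n + 1) (by omega) (by omega)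
    refine le_trans ?_ h4
    have h5 : (1 : ℝ) ≤ (((n + 1 : ℕ) : ℝ) / n) ^ b := by
      refine Real.one_le_rpow ?_ hb.le
      rw [le_div_iff₀ hn0, one_mul]
      push_cast
      linarith
    have h6 : 0 ≤ wd μ s n := by
      rw [hwd]
      exact mul_nonneg hn0.le hvn.le
    calc k * wd μ s n = k * 1 * wd μ s n := by ring
      _ ≤ k * (((n + 1 : ℕ) : ℝ) / n) ^ b * wd μ s n :=
        mul_le_mul_of_nonneg_right (mul_le_mul_of_nonneg_left h5 hk.le) h6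
  have h7 : vA 1 μ s n ≤ 2 / k * |v| := by
    rw [hwd, hwd] at h3
    have h8 : k * vA 1 μ s n ≤ 2 * vA 1 μ s (n + 1) := by
      have h9 : k * (n * vA 1 μ s n) ≤ 2 * n * vA 1 μ s (n + 1) := by
        refine h3.trans (mul_le_mul_of_nonneg_right ?_ (hvp (n + 1) (by omega)).le)
        push_cast
        linarith
      have h10 : k * vA 1 μ s n * n ≤ 2 * vA 1 μ s (n + 1) * n := by linarith
      exact le_of_mul_le_mul_right h10 hn0
    rw [div_mul_eq_mul_div, le_div_iff₀ hk]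
    linarith
  obtain ⟨u, hu⟩ : ∃ u : ℝ, u = vA 1 μ s n := ⟨_, rfl⟩
  have hu0 : 0 < u := by rw [hu]; exact hvn
  rw [← hu] at h7 hj
  -- the cost at the scale `n`
  have h11 : J μ s v ≤ A * (EE μ s n / n) := by
    have e1 : v = |v| / u * (u * v / |v|) := by
      field_simp
    have e2 : abs (u * v / |v|) = 1 * vA 1 μ s n := by
      rw [abs_div, abs_mul, abs_abs, abs_of_pos hu0, mul_div_cancel_right₀ _ h0.ne', hu, one_mul]
    have h12 := (hJ n (by omega) _ e2).2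
    have h13 := h.rf.mul_le (t := |v| / u) (by positivity) (by rw [div_le_one hu0]; exact hj) (u * v / |v|)
    rw [← e1] at h13
    have h14 : J μ s (u * v / |v|) ≤ A * (EE μ s n / n) := by
      rw [mul_div_assoc', le_div_iff₀ hn0]
      linarith
    have h15 : 0 ≤ J μ s (u * v / |v|) := h.rf.nn _
    have h16 : |v| / u * J μ s (u * v / |v|) ≤ 1 * J μ s (u * v / |v|) :=
      mul_le_mul_of_nonneg_right (by rw [div_le_one hu0]; exact hj) h15
    linarith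
  have hwu : wd μ s n = u * n := by rw [hu, hwd]; ring
  rw [hwu] at g1 g2
  have h14 : EE μ s n / n ≤ u ^ (3 / 2 : ℝ) * (n : ℝ) ^ (-a) := by
    have e1 : (u * n) ^ (3 / 2 : ℝ) = (u ^ (3 / 2 : ℝ) * (n : ℝ) ^ (-a)) * ((n : ℝ) ^ (1 / 2 + a) * n) := by
      rw [Real.mul_rpow hu0.le hn0.le]
      have e2 : (n : ℝ) ^ (3 / 2 : ℝ) = (n : ℝ) ^ (-a) * ((n : ℝ) ^ (1 / 2 + a) * n) := by
        nth_rewrite 4 [← Real.rpow_one (n : ℝ)]
        rw [← Real.rpow_add hn0, ← Real.rpow_add hn0]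
        congr 1
        ring
      rw [e2]
      ring
    rw [e1] at g2
    have h15 : EE μ s n / n * ((n : ℝ) ^ (1 / 2 + a) * n) ≤ (u ^ (3 / 2 : ℝ) * (n : ℝ) ^ (-a)) * ((n : ℝ) ^ (1 / 2 + a) * n) := by
      refine le_trans (le_of_eq ?_) g2
      field_simp
    exact le_of_mul_le_mul_right h15 (mul_pos (Real.rpow_pos_of_pos hn0 _) hn0)
  -- `n ^ (- 1 / 2) ≤ u`
  have h16 : (n : ℝ) ^ (-(1 / 2) : ℝ) ≤ u := by
    have e1 : (n : ℝ) ^ (-(1 / 2) : ℝ) = (n : ℝ) ^ (1 / 2 : ℝ) / n := by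
      rw [eq_div_iff hn0.ne']
      nth_rewrite 2 [← Real.rpow_one (n : ℝ)]
      rw [← Real.rpow_add hn0]
      norm_num
    rw [e1, div_le_iff₀ hn0]
    exact (Real.rpow_le_rpow_of_exponent_le hn1 (by linarith)).trans g1
  have h17 : (n : ℝ) ^ (-a) ≤ u ^ (2 * a) := by
    have h18 := Real.rpow_le_rpow (Real.rpow_nonneg hn0.le _) h16 (show 0 ≤ 2 * a by positivity)
    rw [← Real.rpow_mul hn0.le] at h18
    refine le_trans (le_of_eq ?_) h18
    congr 1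
    ring
  have h19 : EE μ s n / n ≤ u ^ (3 / 2 + 2 * a) := by
    rw [Real.rpow_add hu0]
    exact h14.trans (mul_le_mul_of_nonneg_left h17 (Real.rpow_nonneg hu0.le _))
  refine h11.trans ?_
  rw [mul_assoc]
  refine mul_le_mul_of_nonneg_left (h19.trans ?_) hA.le
  rw [← Real.mul_rpow (by positivity) (abs_nonneg v)]
  exact Real.rpow_le_rpow hu0.le h7 (by positivity)

/-- The free energy near the force, from the rate function near the velocity: `lam (h + r) - lam (h) - r v ≥ k |r| ^ p`. -/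
theorem lam_lower {lam J : ℝ → ℝ} {K v₀ b h v : ℝ} (hK : 0 < K) (hv₀ : 0 < v₀) (hb : 0 < b) (hv : |v| + v₀ < 1)
    (hL : ∀ u, |u| < 1 → IsLUB (Set.range fun h' => h' * u - lam h') (J u)) (h0 : J v = h * v - lam h)
    (hJ : ∀ u, |u| ≤ v₀ → J (v + u) - J v - h * u ≤ K * |u| ^ (3 / 2 + b)) :
    ∃ k r₀ : ℝ, 0 < k ∧ 0 < r₀ ∧ ∀ r : ℝ, |r| ≤ r₀ → k * |r| ^ (1 + 1 / (1 / 2 + b)) ≤ lam (h + r) - lam h - r * v := by
  have hp : 0 < 1 / 2 + b := by positivity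
  refine ⟨1 / 2 * (1 / (2 * K)) ^ (1 / (1 / 2 + b)), 2 * K * v₀ ^ (1 / 2 + b), by positivity, by positivity, fun r hr => ?_⟩
  obtain ⟨y, hy⟩ : ∃ y : ℝ, y = (|r| / (2 * K)) ^ (1 / (1 / 2 + b)) := ⟨_, rfl⟩
  have hq0 : 0 ≤ |r| / (2 * K) := by positivity
  have hy0 : 0 ≤ y := by rw [hy]; positivity
  have hyp : y ^ (1 / 2 + b) = |r| / (2 * K) := by
    rw [hy, ← Real.rpow_mul hq0, one_div_mul_cancel hp.ne', Real.rpow_one]
  have hyv : y ≤ v₀ := by
    have h1 : |r| / (2 * K) ≤ v₀ ^ (1 / 2 + b) := by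
      rw [div_le_iff₀ (by positivity)]
      linarith
    rw [hy]
    calc (|r| / (2 * K)) ^ (1 / (1 / 2 + b)) ≤ (v₀ ^ (1 / 2 + b)) ^ (1 / (1 / 2 + b)) :=
          Real.rpow_le_rpow hq0 h1 (by positivity)
      _ = v₀ := by rw [← Real.rpow_mul hv₀.le, mul_one_div_cancel hp.ne', Real.rpow_one]
  -- the displacement of the sign of `r`
  obtain ⟨u, hu, hru⟩ : ∃ u : ℝ, |u| = y ∧ r * u = |r| * y := by
    rcases le_total 0 r with h1 | h1
    · exact ⟨y, abs_of_nonneg hy0, by rw [abs_of_nonneg h1]⟩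
    · exact ⟨-y, by rw [abs_neg, abs_of_nonneg hy0], by rw [abs_of_nonpos h1]; ring⟩
  have hvu : |v + u| < 1 := by
    have := abs_add_le v u
    rw [hu] at this
    linarith
  have h1 : (h + r) * (v + u) - lam (h + r) ≤ J (v + u) := (hL _ hvu).1 (Set.mem_range_self (h + r))
  have h2 := hJ u (by rw [hu]; exact hyv)
  rw [hu] at h2
  have e1 : y ^ (3 / 2 + b) = y * (|r| / (2 * K)) := by
    rcases eq_or_lt_of_le hy0 with h3 | h3
    · rw [← h3, Real.zero_rpow (by positivity), zero_mul]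
    · have e2 : (3 / 2 + b : ℝ) = 1 + (1 / 2 + b) := by ring
      rw [e2, Real.rpow_add h3, Real.rpow_one, hyp]
  rw [e1] at h2
  have e3 : K * (y * (|r| / (2 * K))) = 1 / 2 * (|r| * y) := by field_simp
  rw [e3] at h2
  have e4 : 1 / 2 * (1 / (2 * K)) ^ (1 / (1 / 2 + b)) * |r| ^ (1 + 1 / (1 / 2 + b)) = 1 / 2 * (|r| * y) := by
    rcases eq_or_lt_of_le (abs_nonneg r) with h3 | h3
    · rw [← h3, Real.zero_rpow (by positivity)]
      ring
    · rw [hy, Real.rpow_add h3, Real.rpow_one, div_eq_mul_one_div |r| (2 * K), Real.mul_rpow h3.le (by positivity)]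
      ring
  rw [e4]
  rw [h0] at h2
  nlinarith

end Pool.Agent.W_7d29a1_HZ.Z57
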