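import Pool.Agent.W_7d29a1_HM.QRel
import Pool.Agent.W_7d29a1_Z57.AlgE57b
import Pool.Agent.W_7d29a1_HZ.Z57_FinQ

/-!
STORM Z, SECOND STOREY, AT EVERY TILT: the three relative inequalities in the form `QRel` of `W_7d29a1_HM`, and the window theorem W*
(every long almost linear window with the slopes `ν`, `χ` has `2 χ ≤ ν + δ` or `χ ≤ 2 ν - 1 + δ`), from the okay kernels and the base.
-/

set_option autoImplicit false

namespace Pool.Agent.W_7d29a1_HZ.Z57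

open MeasureTheory ProbabilityTheory Filter Topology Finset
open Pool.Agent.W_7d29a1_F Pool.Agent.W_7d29a1_X Pool.Agent.W_7d29a1_h4g Pool.Agent.W_7d29a1_H Pool.Agent.W_7d29a1_HZ
open Pool.Agent.W_7d29a1_HS (In wd)
open Pool.Agent.W_7d29a1_Z57 (Win winE)
open Pool.Agent.W_7d29a1_HZ.StpK (OkayQ)
open Pool.Agent.W_7d29a1_HM (QRel)

variable {μ : Measure ℝ} {s : ℝ} [IsProbabilityMeasure μ] {c₁ C₁ : ℝ} {n₀ : ℕ}

/-- **THE SECOND STOREY between two lengths**, for the width and the unit themselves. -/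
theorem qrel_of (h : In μ s c₁ C₁ n₀) (hO : OkayQ μ s fun t => (EE' μ s t)⁻¹) (hB : BaseE μ s) (hS : SupC μ s) :
    ∃ a : ℝ, 0 < a ∧ QRel (wd μ s) (EE μ s) a := by
  obtain ⟨c', hc', H⟩ := secondQ h hO hB hS
  obtain ⟨c₂, hc₂, H2⟩ := secondE h hO hB
  obtain ⟨n₁, hn₁⟩ := wd'_eq h
  obtain ⟨a, ha⟩ : ∃ a : ℝ, a = min c' c₂ := ⟨_, rfl⟩
  have ha0 : 0 < a := by rw [ha]; exact lt_min hc' hc₂
  have ha1 : a ≤ c' := by rw [ha]; exact min_le_left _ _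
  have ha2 : a ≤ c₂ := by rw [ha]; exact min_le_right _ _
  refine ⟨a, ha0, fun η hη => ?_⟩
  obtain ⟨m₁, h1⟩ := H η hη
  obtain ⟨m₂, h2⟩ := H2 η hη
  refine ⟨m₁ + m₂ + n₁ + 1, fun m n hm hmn => ?_⟩
  have hm1 : (1 : ℝ) ≤ m := by
    have : 1 ≤ m := by omega
    exact_mod_cast this
  have hm0 : (0 : ℝ) < m := by linarith
  have hmn' : (m : ℝ) ≤ n := by
    refine le_trans ?_ hmn
    calc (m : ℝ) = (m : ℝ) ^ (1 : ℝ) := (Real.rpow_one _).symm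
      _ ≤ (m : ℝ) ^ (1 + η) := Real.rpow_le_rpow_of_exponent_le hm1 (by linarith)
  have hmn1 : m ≤ n := by exact_mod_cast hmn'
  have hr : (1 : ℝ) ≤ (n : ℝ) / m := by
    rw [le_div_iff₀ hm0, one_mul]
    exact hmn'
  obtain ⟨e1, e2, -⟩ := hn₁ m (by omega)
  obtain ⟨e3, e4, -⟩ := hn₁ n (by omega)
  have k1 := h1 m n (by omega) hmn
  obtain ⟨k2, k3⟩ := h2 m n (by omega) hmn
  have hwm : 0 < wd' μ s m := lt_of_lt_of_le one_pos (wd'_one m)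
  have hEm : 0 < EE' μ s m := lt_of_lt_of_le one_pos (EE'_one m)
  have hEn : 0 < EE' μ s n := lt_of_lt_of_le one_pos (EE'_one n)
  have p1 : ((n : ℝ) / m) ^ (1 / 2 + a) ≤ ((n : ℝ) / m) ^ (1 / 2 + c₂) :=
    Real.rpow_le_rpow_of_exponent_le hr (by linarith)
  have p2 : ((n : ℝ) / m) ^ (1 / 4 + a) ≤ ((n : ℝ) / m) ^ (1 / 4 + c') :=
    Real.rpow_le_rpow_of_exponent_le hr (by linarith)
  have hq : 0 ≤ EE' μ s n / EE' μ s m := by positivity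
  rw [← e1, ← e2, ← e3, ← e4]
  refine ⟨?_, (mul_le_mul_of_nonneg_right p1 hq).trans k3, (mul_le_mul_of_nonneg_right p2 hq).trans k1⟩
  rw [le_div_iff₀ hwm]
  exact (mul_le_mul_of_nonneg_right p1 hwm.le).trans k2

/-- **W***: the window theorem of the second storey. -/
theorem winStar_of (h : In μ s c₁ C₁ n₀) (hO : OkayQ μ s fun t => (EE' μ s t)⁻¹) (hB : BaseE μ s) {δ β : ℝ} (hδ : 0 < δ)
    (hδ1 : δ ≤ 1) (hβ : 0 < β) : ∃ ε : ℝ, 0 < ε ∧ ∀ κ : ℝ, 0 < κ →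
    ∃ a₀ : ℕ, ∀ a Λ : ℕ, a₀ ≤ a → κ * a ≤ Λ → Λ ≤ a → ∀ ν χ : ℝ, Win (wd' μ s) (EE' μ s) ε a Λ ν χ → β ≤ ν →
      2 * χ < ν + δ ∨ χ < 2 * ν - 1 + δ :=
  winE (iface_wire h hO hB) hδ hδ1 hβ

end Pool.Agent.W_7d29a1_HZ.Z57
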