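import Pool.Agent.W_7d29a1_HZ.Z94_TiltA
/-!
STORM Z at every tilt (MP_7d29a1_pr), window version: the total variation of the displacements of the layers of length `r`, tilted.
`Zt M η a` = sum over the paths of `M r` steps from `a` of the weight times `exp (h * sum over the layers of |displacement - sl r|)`.
Its moment of the order `1 / (C EE r)` is at most `K ^ M`. (helper59)
-/

set_option autoImplicit false

namespace Pool.Agent.W_7d29a1_HZ.Z59

open MeasureTheory ProbabilityTheory Filter Topology Finset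
open Pool.Agent.W_7d29a1_F Pool.Agent.W_7d29a1_h4g Pool.Agent.W_7d29a1_H Pool.Agent.W_7d29a1_HS
open Pool.Agent.W_7d29a1_G20 (Bk Mom Bk_dom Dom Bk_dep le_Bk sh_dep_rows mom_conv cells_W geom_abs)

noncomputable section

variable {μ : Measure ℝ} {s : ℝ} {h : ℝ} {r : ℕ}

/-- The partition function of `M` layers with the tilted total variation. -/
def Zt (μ : Measure ℝ) (s h : ℝ) (r : ℕ) : ℕ → Env → Pt → ℝ
  | 0 => fun _ _ => 1
  | M + 1 => fun η a => ∑ y ∈ Icc (0 : ℤ) r,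
    W μ s η a r y * (Real.exp (h * |(y : ℝ) - sl μ s * r|) * Zt μ s h r M η (a + ((r : ℤ), y)))

/-- The largest value over the starting points of the cell `[0, w)`. -/
def Zc (μ : Measure ℝ) (s h : ℝ) (r w M : ℕ) (η : Env) : ℝ := ⨆ i : Fin w, Zt μ s h r M η (0, (i : ℤ))

theorem Zt_nonneg : ∀ (M : ℕ) (η : Env) (a : Pt), 0 ≤ Zt μ s h r M η a
  | 0, _, _ => zero_le_one
  | M + 1, _, _ => Finset.sum_nonneg fun _ _ => mul_nonneg (W_nonneg _ _ _ _) (mul_nonneg (Real.exp_nonneg _) (Zt_nonneg M _ _))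

theorem Zt_pos : ∀ (M : ℕ) (η : Env) (a : Pt), 0 < Zt μ s h r M η a
  | 0, _, _ => zero_lt_one
  | M + 1, η, a => by
    have h1 : ∀ y ∈ Icc (0 : ℤ) r, 0 < W μ s η a r y * (Real.exp (h * |(y : ℝ) - sl μ s * r|) * Zt μ s h r M η (a + ((r : ℤ), y))) :=
      fun y hy => mul_pos (W_pos η a (Finset.mem_Icc.1 hy).1 (Finset.mem_Icc.1 hy).2) (mul_pos (Real.exp_pos _) (Zt_pos M _ _))
    exact Finset.sum_pos h1 ⟨0, Finset.mem_Icc.2 ⟨le_rfl, by positivity⟩⟩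

theorem Zt_sh : ∀ (M : ℕ) (b : Pt) (η : Env) (a : Pt), Zt μ s h r M (sh b η) a = Zt μ s h r M η (a + b)
  | 0, _, _, _ => rfl
  | M + 1, b, η, a => by
    show ∑ y ∈ Icc (0 : ℤ) r, _ = ∑ y ∈ Icc (0 : ℤ) r, _
    refine Finset.sum_congr rfl fun y _ => ?_
    rw [W_sh, Zt_sh M b η, add_right_comm]

variable [IsProbabilityMeasure μ]

theorem Zt_dom : ∀ (M : ℕ) (a : Pt), Dom fun η => Zt μ s h r M η a
  | 0, _ => Dom.const zero_le_one
  | M + 1, a => by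
    exact Dom.sum _ fun y _ => (Dom.W a r y).mul ((Dom.const (Real.exp_nonneg _)).mul (Zt_dom M _))

omit [IsProbabilityMeasure μ] in
theorem Zt_dep : ∀ (M : ℕ) (t x : ℤ), DependsOn (fun η => Zt μ s h r M η (t, x)) (rows t (t + (M * r : ℕ)))
  | 0, _, _ => fun _ _ _ => rfl
  | M + 1, t, x => by
    intro η η' hh
    show ∑ y ∈ Icc (0 : ℤ) r, _ = ∑ y ∈ Icc (0 : ℤ) r, _
    refine Finset.sum_congr rfl fun y _ => ?_
    have e1 : W μ s η (t, x) r y = W μ s η' (t, x) r y := by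
      refine W_dep (μ := μ) (s := s) (t, x) r y fun p hp => hh p ?_
      obtain ⟨h1, h2, -⟩ := hp
      refine ⟨h1, ?_⟩
      dsimp only at h2
      push_cast
      nlinarith
    have e2 : Zt μ s h r M η ((t, x) + ((r : ℤ), y)) = Zt μ s h r M η' ((t, x) + ((r : ℤ), y)) := by
      refine Zt_dep M (t + r) (x + y) fun p hp => hh p ?_
      obtain ⟨h1, h2⟩ := hp
      constructor
      · have : (0 : ℤ) ≤ r := by positivity
        linarith
      · push_cast at h2 ⊢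
        linarith
    rw [e1, e2]

theorem Zc_dom {w : ℕ} (hw : 0 < w) (M : ℕ) : Dom (Zc μ s h r w M) :=
  Dom.iSup hw fun _ => Zt_dom _ _

theorem Zc_dep (w M : ℕ) : DependsOn (Zc μ s h r w M) (rows 0 (M * r : ℕ)) := by
  intro η η' hh
  unfold Zc
  refine iSup_congr fun i => ?_
  have := Zt_dep (μ := μ) (s := s) (h := h) (r := r) M 0 ((i : ℕ) : ℤ)
  rw [zero_add] at this
  exact this hh

omit [IsProbabilityMeasure μ] in
theorem le_Zc_sh {w : ℕ} (M : ℕ) (η : Env) (t x : ℤ) (i : ℕ) (hi : i < w) :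
    Zt μ s h r M η (t, x + i) ≤ Zc μ s h r w M (sh (t, x) η) := by
  have h1 : Zt μ s h r M η (t, x + i) = Zt μ s h r M (sh (t, x) η) (0, (i : ℤ)) := by
    rw [Zt_sh]
    congr 1
    exact Prod.ext (by simp) (by simp [add_comm])
  rw [h1]
  exact le_ciSup (f := fun i : Fin w => Zt μ s h r M (sh (t, x) η) (0, (i : ℤ))) (Set.finite_range _).bddAbove ⟨i, hi⟩

/-- Composition. -/
theorem Zc_conv (hh : 0 ≤ h) {w : ℕ} (hw : 0 < w) (M J : ℕ) (hJ1 : md μ s r ≤ J * w)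
    (hJ2 : (r : ℤ) ≤ md μ s r + J * w) (η : Env) :
    Zc μ s h r w (M + 1) η ≤ ∑ j ∈ Icc (-(J : ℤ)) J,
      (Real.exp (h * w) ^ (j.natAbs + 2) * Bk μ s w r (md μ s r) j η) * Zc μ s h r w M (sh ((r : ℤ), md μ s r + j * w) η) := by
  have : Nonempty (Fin w) := ⟨⟨0, hw⟩⟩
  refine ciSup_le fun i => ?_
  obtain ⟨i, hi⟩ := i
  obtain ⟨g, hg⟩ : ∃ g : ℤ → ℝ, g = fun x : ℤ => Real.exp (h * |(x : ℝ) - i - sl μ s * r|) * Zt μ s h r M η ((r : ℤ), x) := ⟨_, rfl⟩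
  have hg0 : ∀ x, 0 ≤ g x := fun x => by
    rw [hg]
    exact mul_nonneg (Real.exp_pos _).le (Zt_nonneg _ _ _)
  have h1 : Zt μ s h r (M + 1) η (0, (i : ℤ)) = ∑ y ∈ Icc (0 : ℤ) r, W μ s η (0, (i : ℤ)) r y * g (i + y) := by
    rw [hg]
    show ∑ y ∈ Icc (0 : ℤ) r, _ = _
    refine Finset.sum_congr rfl fun y _ => ?_
    have e1 : ((0 : ℤ), (i : ℤ)) + ((r : ℤ), y) = ((r : ℤ), (i : ℤ) + y) := Prod.ext (by simp) rfl
    rw [e1]
    push_cast
    rw [add_sub_cancel_left]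
  have hgB : ∀ j : ℤ, ∀ l ∈ range w, g (md μ s r + j * w + l) ≤
      Real.exp (h * w) ^ (j.natAbs + 2) * Zc μ s h r w M (sh ((r : ℤ), md μ s r + j * w) η) := by
    intro j l hl
    have hl' := Finset.mem_range.1 hl
    rw [hg]
    refine mul_le_mul ?_ (le_Zc_sh M η r (md μ s r + j * w) l hl') (Zt_nonneg _ _ _) (by positivity)
    rw [← Real.exp_nat_mul]
    refine Real.exp_le_exp.2 ?_
    have hw1 : (1 : ℝ) ≤ w := by exact_mod_cast hw
    have hiR : (i : ℝ) + 1 ≤ w := by exact_mod_cast hi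
    have hi0 : (0 : ℝ) ≤ i := Nat.cast_nonneg i
    have hlR : (l : ℝ) + 1 ≤ w := by exact_mod_cast hl'
    have hl0 : (0 : ℝ) ≤ l := Nat.cast_nonneg l
    have hD1 : ((md μ s r : ℤ) : ℝ) ≤ sl μ s * r := md_le r
    have hD2 : sl μ s * (r : ℝ) - 1 ≤ ((md μ s r : ℤ) : ℝ) := by
      have := lt_md (μ := μ) (s := s) r
      linarith
    have hk : ((j.natAbs : ℕ) : ℝ) = |(j : ℝ)| := by
      rw [← Int.cast_natCast, Int.natCast_natAbs, Int.cast_abs]
    have h2 : |((md μ s r + j * w + l : ℤ) : ℝ) - i - sl μ s * r| ≤ (|(j : ℝ)| + 2) * w := by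
      have h3 : |(j : ℝ) * w| = |(j : ℝ)| * w := by rw [abs_mul, abs_of_nonneg (by linarith : (0 : ℝ) ≤ w)]
      have h4 := abs_le.1 (le_of_eq h3)
      push_cast
      rw [abs_le]
      constructor <;> nlinarith [h4.1, h4.2]
    push_cast
    rw [hk]
    push_cast at h2
    have := mul_le_mul_of_nonneg_left h2 hh
    linarith
  have h3 := cells_W (μ := μ) (s := s) hw r (md μ s r) J hJ1 hJ2 η i hi g hg0
  show Zt μ s h r (M + 1) η (0, (i : ℤ)) ≤ _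
  rw [h1]
  refine h3.trans (Finset.sum_le_sum fun j _ => ?_)
  have h2 : ∑ l ∈ range w, W μ s η (0, (i : ℤ)) r (md μ s r + j * w + l - i) * g (md μ s r + j * w + l) ≤
      ∑ l ∈ range w, W μ s η (0, (i : ℤ)) r (md μ s r + j * w + l - i) *
      (Real.exp (h * w) ^ (j.natAbs + 2) * Zc μ s h r w M (sh ((r : ℤ), md μ s r + j * w) η)) :=
    Finset.sum_le_sum fun l hl => mul_le_mul_of_nonneg_left (hgB j l hl) (W_nonneg _ _ _ _)
  refine h2.trans ?_
  rw [← Finset.sum_mul]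
  have h5 := le_Bk (μ := μ) (s := s) r (md μ s r) j η i hi
  have h6 : 0 ≤ Real.exp (h * w) ^ (j.natAbs + 2) * Zc μ s h r w M (sh ((r : ℤ), md μ s r + j * w) η) :=
    mul_nonneg (by positivity) ((Zc_dom (μ := μ) hw _).nonneg _)
  calc _ ≤ Bk μ s w r (md μ s r) j η * (Real.exp (h * w) ^ (j.natAbs + 2) * Zc μ s h r w M (sh ((r : ℤ), md μ s r + j * w) η)) :=
        mul_le_mul_of_nonneg_right h5 h6
    _ = _ := by ring

theorem Zc_iter {c₀ C₀ : ℝ} {n₀ : ℕ} (hI : In μ s c₀ C₀ n₀) (hh : 0 ≤ h) {θ : ℝ} (hθ : 0 < θ) (hθ1 : θ ≤ 1) {w : ℕ} (hw : 0 < w)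
    {C' ρ : ℝ} (hC : 1 ≤ C') (h0 : 0 < ρ) (h1 : ρ < 1) (hF : Mom μ s θ w r (md μ s r) C' ρ)
    (hhw : Real.exp (h * w * θ) ≤ 1 / ρ) (M : ℕ) :
    ∫ η, Zc μ s h r w M η ^ θ ∂(law μ) ≤ (C' / ρ ^ 2 * (2 / (1 - ρ))) ^ M := by
  induction M with
  | zero =>
    have : Nonempty (Fin w) := ⟨⟨0, hw⟩⟩
    have e1 : ∀ η : Env, Zc μ s h r w 0 η = 1 := fun η => by
      unfold Zc Zt
      exact ciSup_const
    simp [e1]
  | succ M ih =>
    have hL0 : (0 : ℤ) ≤ r := by positivity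
    have hw1 : (1 : ℤ) ≤ w := by exact_mod_cast hw
    have hμ := hI.em
    have hd0 := hI.md_nonneg r
    have hd1 := hI.md_le_nat r
    have hJ1 : md μ s r ≤ (r : ℕ) * w := by nlinarith
    have hJ2 : ((r : ℕ) : ℤ) ≤ md μ s r + (r : ℕ) * w := by nlinarith
    have hA : ∀ j : ℤ, Dom fun η => Real.exp (h * w) ^ (j.natAbs + 2) * Bk μ s w r (md μ s r) j η := fun j =>
      (Dom.const (by positivity)).mul (Bk_dom hw _ _ _)
    have h2 := mom_conv (μ := μ) hμ hθ hθ1 (Icc (-(r : ℤ)) r)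
      (fun j η => Real.exp (h * w) ^ (j.natAbs + 2) * Bk μ s w r (md μ s r) j η) (fun _ => Zc μ s h r w M)
      (fun j => md μ s r + j * w) r (M * r) (fun j _ => hA j) (fun _ _ => Zc_dom hw _)
      (fun j _ η η' hd => by
        have := Bk_dep (μ := μ) (s := s) w r (md μ s r) j hd
        simp only [this]) (fun _ _ => Zc_dep _ _) (Zc_dom (r := r) (h := h) hw (M + 1))
      (Zc_conv hh hw M r hJ1 hJ2)
    refine h2.trans ?_
    rw [← Finset.sum_mul]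
    have h3 : ∀ j ∈ Icc (-(r : ℤ)) r, ∫ η, (Real.exp (h * w) ^ (j.natAbs + 2) * Bk μ s w r (md μ s r) j η) ^ θ ∂(law μ) ≤
        C' / ρ ^ 2 * ρ ^ j.natAbs := by
      intro j _
      have e1 : ∀ η : Env, (Real.exp (h * w) ^ (j.natAbs + 2) * Bk μ s w r (md μ s r) j η) ^ θ =
          Real.exp (h * w * θ) ^ (j.natAbs + 2) * Bk μ s w r (md μ s r) j η ^ θ := fun η => by
        rw [Real.mul_rpow (by positivity) ((Bk_dom (μ := μ) hw _ _ _).nonneg η)]
        congr 1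
        rw [← Real.exp_nat_mul, ← Real.exp_mul, ← Real.exp_nat_mul]
        congr 1
        ring
      simp only [e1]
      rw [integral_const_mul]
      have h4 : Real.exp (h * w * θ) ^ (j.natAbs + 2) ≤ (1 / ρ) ^ (j.natAbs + 2) := pow_le_pow_left₀ (Real.exp_nonneg _) hhw _
      have h5 : 0 ≤ ∫ η, Bk μ s w r (md μ s r) j η ^ θ ∂(law μ) :=
        integral_nonneg fun η => Real.rpow_nonneg ((Bk_dom (μ := μ) hw _ _ _).nonneg η) _
      calc _ ≤ (1 / ρ) ^ (j.natAbs + 2) * (C' * ρ ^ (3 * j.natAbs)) :=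
            mul_le_mul h4 (hF j) h5 (by positivity)
        _ = C' / ρ ^ 2 * (ρ ^ (2 * j.natAbs)) := by
            have e2 : ρ ^ (3 * j.natAbs) = ρ ^ (2 * j.natAbs) * ρ ^ j.natAbs := by
              rw [← pow_add]
              congr 1
              ring
            rw [e2, div_pow, one_pow, pow_add]
            field_simp
        _ ≤ _ := by
            refine mul_le_mul_of_nonneg_left ?_ (by positivity)
            exact pow_le_pow_of_le_one h0.le h1.le (by omega)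
    have hK0 : 0 ≤ C' / ρ ^ 2 := by positivity
    have h4 : ∑ j ∈ Icc (-(r : ℤ)) r, ∫ η, (Real.exp (h * w) ^ (j.natAbs + 2) * Bk μ s w r (md μ s r) j η) ^ θ ∂(law μ) ≤
        C' / ρ ^ 2 * (2 / (1 - ρ)) := by
      refine (Finset.sum_le_sum h3).trans ?_
      rw [← Finset.mul_sum]
      exact mul_le_mul_of_nonneg_left (geom_abs h0.le h1 r) hK0
    have h5 : 0 ≤ ∫ η, Zc μ s h r w M η ^ θ ∂(law μ) :=
      integral_nonneg fun η => Real.rpow_nonneg ((Zc_dom (μ := μ) hw _).nonneg η) _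
    have h6 : 0 ≤ C' / ρ ^ 2 * (2 / (1 - ρ)) := by
      have : 0 < 1 - ρ := by linarith
      positivity
    calc _ ≤ C' / ρ ^ 2 * (2 / (1 - ρ)) * (C' / ρ ^ 2 * (2 / (1 - ρ))) ^ M := mul_le_mul h4 ih h5 h6
      _ = _ := by ring

/-- **The moment of the tilted total variation.** -/
theorem tv_mom {c C : ℝ} {n₀ : ℕ} (hI : In μ s c C n₀) : ∃ K κ : ℝ, 1 ≤ K ∧ 0 < κ ∧ ∃ n₁ : ℕ, 1 ≤ n₁ ∧ ∀ r, n₁ ≤ r → 4 ≤ wd μ s r ∧
    ∀ (M : ℕ) (a : Pt), ∫ η, Real.exp (1 / (C * EE μ s r) * Real.log (Zt μ s (κ * EE μ s r / wd μ s r) r M η a)) ∂(law μ) ≤ K ^ M := by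
  obtain ⟨n₁, hn0, hn1, hM⟩ := Pool.Agent.W_7d29a1_HZ.Z94.tb_Mom hI
  have hC0 : 0 < C := lt_of_lt_of_le one_pos hI.C1
  have hc0 : 0 < c / 2 := by have := hI.c0; linarith
  obtain ⟨ρ, hρ⟩ : ∃ ρ : ℝ, ρ = Real.exp (-(c / 2 / (6 * C))) := ⟨_, rfl⟩
  have hρ0 : 0 < ρ := by rw [hρ]; exact Real.exp_pos _
  have hρ1 : ρ < 1 := by
    rw [hρ, Real.exp_lt_one_iff]
    have : 0 < c / 2 / (6 * C) := by positivity
    linarith
  have hC' : 1 ≤ 2 * C * Real.exp (c / 2 / (2 * C)) := by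
    have h1 : 1 ≤ Real.exp (c / 2 / (2 * C)) := Real.one_le_exp (by positivity)
    have h2 := hI.C1
    nlinarith
  obtain ⟨C', hC'd⟩ : ∃ C' : ℝ, C' = 2 * C * Real.exp (c / 2 / (2 * C)) := ⟨_, rfl⟩
  have hK1 : 1 ≤ C' / ρ ^ 2 * (2 / (1 - ρ)) := by
    have h1 := Pool.Agent.W_7d29a1_G20.one_le_two_div hρ0.le hρ1
    have h2 : 1 ≤ C' / ρ ^ 2 := by
      rw [le_div_iff₀ (by positivity), one_mul]
      have : ρ ^ 2 ≤ 1 := pow_le_one₀ hρ0.le hρ1.le
      rw [← hC'd] at hC'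
      linarith
    nlinarith
  refine ⟨C' / ρ ^ 2 * (2 / (1 - ρ)), c / 12, hK1, by linarith, n₁, hn1, fun r hr => ?_⟩
  obtain ⟨hw4, hwp, hMo'⟩ := hM r hr
  refine ⟨hw4, fun M a => ?_⟩
  have hMo := hMo' 0 (by
    rw [abs_zero, zero_mul]
    have := one_le_EE (μ := μ) (s := s) r
    positivity)
  rw [add_zero, ← hC'd, ← hρ] at hMo
  have hE1 : 1 ≤ EE μ s r := one_le_EE r
  have hE0 : 0 < EE μ s r := by linarith
  have hCE : 1 ≤ C * EE μ s r := one_le_mul_of_one_le_of_one_le hI.C1 hE1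
  have hw0 : 0 < wd μ s r := by linarith
  obtain ⟨θ, hθ⟩ : ∃ θ : ℝ, θ = 1 / (C * EE μ s r) := ⟨_, rfl⟩
  have hθ0 : 0 < θ := by rw [hθ]; positivity
  have hθ1 : θ ≤ 1 := by
    rw [hθ, div_le_one (by linarith)]
    exact hCE
  obtain ⟨w, hwd⟩ : ∃ w : ℕ, w = ⌊wd μ s r⌋₊ := ⟨_, rfl⟩
  rw [← hθ] at hMo ⊢
  rw [← hwd] at hMo hwp
  have hw1 : (w : ℝ) ≤ wd μ s r := by rw [hwd]; exact Nat.floor_le (by linarith)
  obtain ⟨h, hh⟩ : ∃ h : ℝ, h = c / 12 * EE μ s r / wd μ s r := ⟨_, rfl⟩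
  have hh0 : 0 ≤ h := by
    rw [hh]
    have : 0 < c := hI.c0
    positivity
  rw [← hh]
  have hhw : Real.exp (h * w * θ) ≤ 1 / ρ := by
    have e1 : 1 / ρ = Real.exp (c / 2 / (6 * C)) := by
      rw [hρ, Real.exp_neg, one_div, inv_inv]
    rw [e1]
    refine Real.exp_le_exp.2 ?_
    have h2 : h * w ≤ c / 12 * EE μ s r := by
      calc h * w ≤ h * wd μ s r := mul_le_mul_of_nonneg_left hw1 hh0
        _ = _ := by rw [hh]; field_simp
    calc h * w * θ ≤ c / 12 * EE μ s r * θ := mul_le_mul_of_nonneg_right h2 hθ0.le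
      _ = _ := by rw [hθ]; field_simp; ring
  have h1 := Zc_iter (μ := μ) (s := s) (h := h) (r := r) hI hh0 hθ0 hθ1 hwp (hC'd ▸ hC') hρ0 hρ1 hMo hhw M
  refine le_trans ?_ h1
  have e1 : ∫ η, Real.exp (θ * Real.log (Zt μ s h r M η a)) ∂(law μ) =
      ∫ η, Real.exp (θ * Real.log (Zt μ s h r M η 0)) ∂(law μ) := by
    have h2 := Pool.Agent.W_7d29a1_G20.sh_integral (μ := μ) (g := fun η => Real.exp (θ * Real.log (Zt μ s h r M η 0)))
      (((Zt_dom (μ := μ) (s := s) (h := h) (r := r) M 0).meas.log.const_mul θ).exp) a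
    rw [← h2]
    refine integral_congr_ae (Eventually.of_forall fun η => ?_)
    show _ = Real.exp (θ * Real.log (Zt μ s h r M (sh a η) 0))
    rw [Zt_sh, zero_add]
  rw [e1]
  refine integral_mono_ae ?_ ((Zc_dom (μ := μ) (s := s) (h := h) (r := r) hwp M).rpow_int hI.em hθ0.le) ?_
  · have h2 := (Zt_dom (μ := μ) (s := s) (h := h) (r := r) M 0).rpow_int hI.em hθ0.le
    refine h2.congr (Eventually.of_forall fun η => ?_)
    show Zt μ s h r M η 0 ^ θ = Real.exp (θ * Real.log (Zt μ s h r M η 0))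
    rw [Real.rpow_def_of_pos (Zt_pos M η 0), mul_comm]
  · refine Eventually.of_forall fun η => ?_
    show Real.exp (θ * Real.log (Zt μ s h r M η 0)) ≤ Zc μ s h r w M η ^ θ
    rw [mul_comm, ← Real.rpow_def_of_pos (Zt_pos M η 0)]
    refine Real.rpow_le_rpow (Zt_nonneg _ _ _) ?_ hθ0.le
    exact le_ciSup (f := fun i : Fin w => Zt μ s h r M η (0, (i : ℤ))) (Set.finite_range _).bddAbove ⟨0, hwp⟩

end

end Pool.Agent.W_7d29a1_HZ.Z59
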