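import Pool.Agent.W_7d29a1_HZ.Z74_Box
/-!
MP_7d29a1_pr, STORM Z at every tilt (model: `W_7d29a1_Z74.RespBK`): the response of a kernel to one jump is at most `(K R ^ K + R) EE r + log 2`, if the kernels of the duration
`r` are regular and the window of `r` steps after (or before) the jump has a displacement at distance at most `D` from `sl μ s * r` with
the probability at least `1 / 2`. (helper85, after helper74)
-/

set_option autoImplicit false

namespace Pool.Agent.W_7d29a1_HZ.Z74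

open MeasureTheory ProbabilityTheory Filter Topology
open Pool.Agent.W_7d29a1_F hiding W_pos W_nonneg W_add
open Pool.Agent.W_7d29a1_h4g Pool.Agent.W_7d29a1_H
open Pool.Agent.W_7d29a1_HS Pool.Agent.W_7d29a1_Z74

noncomputable section

/-- The displacements at distance at most `D` from the centre. -/
def Cn (μ : Measure ℝ) (s : ℝ) (r : ℕ) (D : ℝ) (k : ℤ) : Prop := |(k : ℝ) - sl μ s * r| ≤ D

instance (μ : Measure ℝ) (s : ℝ) (r : ℕ) (D : ℝ) : DecidablePred (Cn μ s r D) := fun _ => Classical.dec _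

variable {μ : Measure ℝ} {s : ℝ}

/-- The comparison of two kernels. -/
theorem ker_ratio {K R : ℝ} {H r : ℕ} {η : Env} (hη : η ∈ BK μ s K R H r) {D : ℝ} {a a' : Pt} (ha : a ∈ bx H) (ha' : a' ∈ bx H)
    {k k' : ℤ} (hk : Cn μ s r D k) (h1 : D + |((k' - k : ℤ) : ℝ)| ≤ R * wd μ s r) (h2 : D + |((k' - k : ℤ) : ℝ)| ≤ min (sl μ s) (1 - sl μ s) * r) :
    W μ s η a r k ≤ Real.exp ((K * R ^ K + R) * EE μ s r) * W μ s η a' r k' := by
  unfold Cn at hk
  have h3 : |(k' : ℝ) - sl μ s * r| ≤ D + |((k' - k : ℤ) : ℝ)| := by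
    have e : (k' : ℝ) - sl μ s * r = ((k : ℝ) - sl μ s * r) + ((k' - k : ℤ) : ℝ) := by push_cast; ring
    rw [e]
    exact (abs_add_le _ _).trans (by linarith)
  have hr0 : (0 : ℝ) ≤ r := Nat.cast_nonneg r
  have g1 := mul_le_mul_of_nonneg_right (min_le_left (sl μ s) (1 - sl μ s)) hr0
  have g2 := mul_le_mul_of_nonneg_right (min_le_right (sl μ s) (1 - sl μ s)) hr0
  have h4 := abs_le.1 (h3.trans h2)
  have h5 : 0 ≤ k' := by
    have : (0 : ℝ) ≤ k' := by linarith
    exact_mod_cast this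
  have h6 : k' ≤ r := by
    have : (k' : ℝ) ≤ r := by linarith
    exact_mod_cast this
  have h7 := (hη a' ha' k').2 h5 h6 (h3.trans h1)
  have h8 := (hη a ha k).1
  calc W μ s η a r k ≤ Real.exp (R * EE μ s r) := h8
    _ = Real.exp ((K * R ^ K + R) * EE μ s r) * Real.exp (-(K * R ^ K * EE μ s r)) := by
      rw [← Real.exp_add]
      congr 1
      ring
    _ ≤ _ := mul_le_mul_of_nonneg_left h7 (Real.exp_pos _).le

/-- **The response of one jump**, window after it. -/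
theorem respBK_after {K R : ℝ} {H r : ℕ} {η : Env} (hη : η ∈ BK μ s K R H r) {D : ℝ} {a : Pt} {m n : ℕ} {j j' y : ℤ}
    (hb1 : |a.1| + m ≤ H) (hb2 : |a.2| + m + |j| ≤ H) (hb3 : |a.2| + m + |j'| ≤ H)
    (h1 : D + |((j - j' : ℤ) : ℝ)| ≤ R * wd μ s r) (h2 : D + |((j - j' : ℤ) : ℝ)| ≤ min (sl μ s) (1 - sl μ s) * r)
    (hh : ZJ μ s η a m (r + n) j y ≤ 2 * ZA μ s η a m r n j y (Cn μ s r D)) :
    ZJ μ s η a m (r + n) j y ≤ 2 * Real.exp ((K * R ^ K + R) * EE μ s r) * ZJ μ s η a m (r + n) j' y := by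
  refine resp_after η a m r n j j' y (Cn μ s r D) (fun z hz b _ hG => ?_) hh
  rw [Finset.mem_Icc] at hz
  have e : b - z - j' - (b - z - j) = j - j' := by ring
  have t1 := abs_add_le a.2 (z + j)
  have t2 := abs_add_le z j
  have t3 := abs_add_le a.2 (z + j')
  have t4 := abs_add_le z j'
  have t5 : |z| = z := abs_of_nonneg hz.1
  have t6 := abs_add_le a.1 (m : ℤ)
  have t7 : |(m : ℤ)| = m := abs_of_nonneg (Int.natCast_nonneg m)
  refine ker_ratio hη (mem_bx.2 ⟨?_, ?_⟩) (mem_bx.2 ⟨?_, ?_⟩) hG (by rw [e]; exact h1) (by rw [e]; exact h2)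
  · simp only
    linarith
  · simp only
    rw [add_assoc]
    linarith
  · simp only
    linarith
  · simp only
    rw [add_assoc]
    linarith

/-- **The response of one jump**, window before it. -/
theorem respBK_before {K R : ℝ} {H r : ℕ} {η : Env} (hη : η ∈ BK μ s K R H r) {D : ℝ} {a : Pt} {m n : ℕ} {j j' y : ℤ}
    (hb1 : |a.1| + m ≤ H) (hb2 : |a.2| + m ≤ H)
    (h1 : D + |((j - j' : ℤ) : ℝ)| ≤ R * wd μ s r) (h2 : D + |((j - j' : ℤ) : ℝ)| ≤ min (sl μ s) (1 - sl μ s) * r)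
    (hh : ZJ μ s η a (m + r) n j y ≤ 2 * ZB μ s η a m r n j y (Cn μ s r D)) :
    ZJ μ s η a (m + r) n j y ≤ 2 * Real.exp ((K * R ^ K + R) * EE μ s r) * ZJ μ s η a (m + r) n j' y := by
  refine resp_before η a m r n j j' y (Cn μ s r D) (fun z hz b _ hG => ?_) hh
  rw [Finset.mem_Icc] at hz
  have e : b - z - j' - (b - z - j) = j - j' := by ring
  have t1 := abs_add_le a.2 z
  have t5 : |z| = z := abs_of_nonneg hz.1
  have t6 := abs_add_le a.1 (m : ℤ)
  have t7 : |(m : ℤ)| = m := abs_of_nonneg (Int.natCast_nonneg m)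
  have hbx : ((a.1 + m, a.2 + z) : Pt) ∈ bx H := mem_bx.2 ⟨by simp only; linarith, by simp only; linarith⟩
  exact ker_ratio hη hbx hbx hG (by rw [e]; exact h1) (by rw [e]; exact h2)

end

end Pool.Agent.W_7d29a1_HZ.Z74
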