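import Pool.Agent.W_7d29a1_HZ.Z74_P1M
/-!
MP_7d29a1_pr, STORM Z at every tilt, leaf UR (model: `W_7d29a1_Z74.URDet`): the deterministic part. (helper85, after helper74)
-/

set_option autoImplicit false

namespace Pool.Agent.W_7d29a1_HZ.Z74

open Pool.Agent.W_7d29a1_F hiding W_pos W_nonneg W_add
open Finset MeasureTheory Pool.Agent.W_7d29a1_X Pool.Agent.W_7d29a1_HZ Pool.Agent.W_7d29a1_h4g Pool.Agent.W_7d29a1_H
open Pool.Agent.W_7d29a1_Z74
open Pool.Agent.W_7d29a1_HS (In wd)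
open scoped ENNReal

noncomputable section

variable {μ : MeasureTheory.Measure ℝ} {s : ℝ}

theorem measurable_ZA (a : Pt) (m r n : ℕ) (y : ℤ) (G : ℤ → Prop) [DecidablePred G] :
    Measurable fun η : Env => ZA μ s η a m r n 0 y G := by
  unfold ZA
  refine Finset.measurable_sum _ fun z _ => Finset.measurable_sum _ fun b _ => ?_
  split_ifs
  · exact ((measurable_W _ _ _).mul (measurable_W _ _ _)).mul (measurable_W _ _ _)
  · exact measurable_const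

theorem measurableSet_BadW (m r n : ℕ) (y : ℤ) (D : ℝ) : MeasurableSet (BadW μ s m r n y D) := by
  unfold BadW
  have h : MeasurableSet {η : Env | W μ s η 0 (m + r + n) y ≤ 2 * ZA μ s η 0 m r n 0 y (Cn μ s r D)} :=
    measurableSet_le (measurable_W (μ := μ) (s := s) 0 (m + r + n) y) (measurable_const.mul (measurable_ZA 0 m r n y (Cn μ s r D)))
  exact h.compl

/-- The two windows of the kernels from `(u, 0)` with the jump at the time `u + m` (window after it). -/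
def EA (μ : MeasureTheory.Measure ℝ) (s : ℝ) (j : ℤ) (D : ℝ) (u m r n : ℕ) (y : ℤ) : Set Env :=
  {η | sh ((u : ℤ), 0) η ∈ BadW μ s m r n y D ∨ sh ((u : ℤ), 0) (shj ((u : ℤ) + m) (-j) η) ∈ BadW μ s m r n (y + j) D}

/-- The same, window before the jump at the time `u + m + r`. -/
def EB (μ : MeasureTheory.Measure ℝ) (s : ℝ) (j : ℤ) (D : ℝ) (u m r n : ℕ) (y : ℤ) : Set Env :=
  {η | sh ((u : ℤ), 0) η ∈ BadW μ s m r n y D ∨ sh ((u : ℤ), 0) (shj ((u : ℤ) + (m + r : ℕ)) (-j) η) ∈ BadW μ s m r n (y + j) D}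

theorem law_two [IsProbabilityMeasure μ] {T : Env → Env} (hT : MeasurePreserving T (law μ) (law μ)) (u m r n : ℕ) (y y' : ℤ) (D : ℝ)
    {p : ℝ≥0∞} (h0 : 0 ≤ y) (h1 : y ≤ ((m + r + n : ℕ) : ℤ)) (h0' : 0 ≤ y') (h1' : y' ≤ ((m + r + n : ℕ) : ℤ))
    (hp : P1 μ s (m + r + n) y (fun _ S => ¬ Cn μ s r D (pos S (m + r) - pos S m)) ≤ p)
    (hp' : P1 μ s (m + r + n) y' (fun _ S => ¬ Cn μ s r D (pos S (m + r) - pos S m)) ≤ p) :
    law μ {η | sh ((u : ℤ), 0) η ∈ BadW μ s m r n y D ∨ sh ((u : ℤ), 0) (T η) ∈ BadW μ s m r n y' D} ≤ 4 * p := by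
  have e1 : law μ {η | sh ((u : ℤ), 0) η ∈ BadW μ s m r n y D} ≤ 2 * p := by
    have h := (mp_sh (μ := μ) ((u : ℤ), 0)).measure_preimage (measurableSet_BadW (μ := μ) (s := s) m r n y D).nullMeasurableSet
    refine le_trans (le_of_eq h) ((law_BadW m r n y D h0 h1).trans ?_)
    gcongr
  have e2 : law μ {η | sh ((u : ℤ), 0) (T η) ∈ BadW μ s m r n y' D} ≤ 2 * p := by
    have h := ((mp_sh (μ := μ) ((u : ℤ), 0)).comp hT).measure_preimage (measurableSet_BadW (μ := μ) (s := s) m r n y' D).nullMeasurableSet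
    refine le_trans (le_of_eq h) ((law_BadW m r n y' D h0' h1').trans ?_)
    gcongr
  have e3 : {η | sh ((u : ℤ), 0) η ∈ BadW μ s m r n y D ∨ sh ((u : ℤ), 0) (T η) ∈ BadW μ s m r n y' D} ⊆
      {η | sh ((u : ℤ), 0) η ∈ BadW μ s m r n y D} ∪ {η | sh ((u : ℤ), 0) (T η) ∈ BadW μ s m r n y' D} := fun η hη => hη
  refine (measure_mono e3).trans ((measure_union_le _ _).trans ((add_le_add e1 e2).trans (le_of_eq ?_)))
  rw [← add_mul]
  norm_num

theorem not_BadW {m r n : ℕ} {y : ℤ} {D : ℝ} {η : Env} {u : ℕ} (h : sh ((u : ℤ), 0) η ∉ BadW μ s m r n y D) :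
    W μ s η ((u : ℤ), 0) (m + r + n) y ≤ 2 * ZA μ s η ((u : ℤ), 0) m r n 0 y (Cn μ s r D) := by
  unfold BadW at h
  rw [Set.mem_ofPred_eq, not_not, ZA_sh, W_sh, zero_add] at h
  exact h

theorem abs_log_le {x x' M : ℝ} (hx : 0 < x) (h1 : x ≤ 2 * Real.exp M * x') (h2 : x' ≤ 2 * Real.exp M * x) :
    |Real.log x' - Real.log x| ≤ M + Real.log 2 := by
  have hx' : 0 < x' := by
    have h3 : 0 < 2 * Real.exp M * x' := hx.trans_le h1
    exact (mul_pos_iff_of_pos_left (by positivity)).1 h3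
  have e1 : Real.log x ≤ Real.log 2 + M + Real.log x' := by
    have := Real.log_le_log hx h1
    rwa [Real.log_mul (by positivity) hx'.ne', Real.log_mul (by norm_num) (Real.exp_pos _).ne', Real.log_exp] at this
  have e2 : Real.log x' ≤ Real.log 2 + M + Real.log x := by
    have := Real.log_le_log hx' h2
    rwa [Real.log_mul (by positivity) hx.ne', Real.log_mul (by norm_num) (Real.exp_pos _).ne', Real.log_exp] at this
  rw [abs_le]
  constructor <;> linarith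

/-- Window after the jump. -/
theorem det_after {K R : ℝ} {H r : ℕ} {η : Env} (hη : η ∈ BK μ s K R H r) {D : ℝ} {u m n : ℕ} {j y : ℤ}
    (hH : (u : ℤ) + m + |j| ≤ H) (h1 : D + |(j : ℝ)| ≤ R * wd μ s r) (h2 : D + |(j : ℝ)| ≤ min (sl μ s) (1 - sl μ s) * r)
    (h0 : 0 ≤ y) (hy : y ≤ ((m + r + n : ℕ) : ℤ)) (hE : η ∉ EA μ s j D u m r n y) :
    |Real.log (ZJ μ s η ((u : ℤ), 0) m (r + n) (-j) y) - Real.log (ZJ μ s η ((u : ℤ), 0) m (r + n) 0 y)| ≤
      (K * R ^ K + R) * EE μ s r + Real.log 2 := by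
  unfold EA at hE
  rw [Set.mem_ofPred_eq, not_or] at hE
  obtain ⟨g1, g2⟩ := hE
  have g1 := not_BadW g1
  have g2 := not_BadW g2
  have hu : |((u : ℤ))| = u := abs_of_nonneg (Int.natCast_nonneg u)
  have q1 : ZJ μ s η ((u : ℤ), 0) m (r + n) 0 y ≤ 2 * ZA μ s η ((u : ℤ), 0) m r n 0 y (Cn μ s r D) := by
    rw [ZJ_zero, ← add_assoc]
    exact g1
  have q2 : ZJ μ s η ((u : ℤ), 0) m (r + n) (-j) y ≤ 2 * ZA μ s η ((u : ℤ), 0) m r n (-j) y (Cn μ s r D) := by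
    rw [ZJ_shj, ZA_shj, sub_neg_eq_add, ← add_assoc m]
    exact g2
  have hj0 := abs_nonneg j
  have b1 : |(((u : ℤ), (0 : ℤ)) : Pt).1| + m ≤ H := by simp only; rw [hu]; omega
  have b2 : |(((u : ℤ), (0 : ℤ)) : Pt).2| + m + |(0 : ℤ)| ≤ H := by simp only [abs_zero]; omega
  have b3 : |(((u : ℤ), (0 : ℤ)) : Pt).2| + m + |(-j : ℤ)| ≤ H := by simp only [abs_zero, abs_neg]; omega
  have e1 : |((0 - -j : ℤ) : ℝ)| = |(j : ℝ)| := by push_cast; congr 1; ring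
  have e2 : |((-j - 0 : ℤ) : ℝ)| = |(j : ℝ)| := by push_cast; rw [sub_zero, abs_neg]
  have r1 := respBK_after hη (a := ((u : ℤ), 0)) (m := m) (n := n) (j := 0) (j' := -j) (y := y) b1 b2 b3
    (by rw [e1]; exact h1) (by rw [e1]; exact h2) q1
  have r2 := respBK_after hη (a := ((u : ℤ), 0)) (m := m) (n := n) (j := -j) (j' := 0) (y := y) b1 b3 b2
    (by rw [e2]; exact h1) (by rw [e2]; exact h2) q2
  refine abs_log_le ?_ r1 r2
  rw [ZJ_zero, ← add_assoc]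
  exact W_pos η _ h0 hy

/-- Window before the jump. -/
theorem det_before {K R : ℝ} {H r : ℕ} {η : Env} (hη : η ∈ BK μ s K R H r) {D : ℝ} {u m n : ℕ} {j y : ℤ}
    (hH : (u : ℤ) + m + |j| ≤ H) (h1 : D + |(j : ℝ)| ≤ R * wd μ s r) (h2 : D + |(j : ℝ)| ≤ min (sl μ s) (1 - sl μ s) * r)
    (h0 : 0 ≤ y) (hy : y ≤ ((m + r + n : ℕ) : ℤ)) (hE : η ∉ EB μ s j D u m r n y) :
    |Real.log (ZJ μ s η ((u : ℤ), 0) (m + r) n (-j) y) - Real.log (ZJ μ s η ((u : ℤ), 0) (m + r) n 0 y)| ≤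
      (K * R ^ K + R) * EE μ s r + Real.log 2 := by
  unfold EB at hE
  rw [Set.mem_ofPred_eq, not_or] at hE
  obtain ⟨g1, g2⟩ := hE
  have g1 := not_BadW g1
  have g2 := not_BadW g2
  have hu : |((u : ℤ))| = u := abs_of_nonneg (Int.natCast_nonneg u)
  have q1 : ZJ μ s η ((u : ℤ), 0) (m + r) n 0 y ≤ 2 * ZB μ s η ((u : ℤ), 0) m r n 0 y (Cn μ s r D) := by
    rw [ZJ_zero, ZB_eq_ZA]
    exact g1
  have q2 : ZJ μ s η ((u : ℤ), 0) (m + r) n (-j) y ≤ 2 * ZB μ s η ((u : ℤ), 0) m r n (-j) y (Cn μ s r D) := by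
    rw [ZJ_shj, ZB_shj, sub_neg_eq_add]
    exact g2
  have hj0 := abs_nonneg j
  have b1 : |(((u : ℤ), (0 : ℤ)) : Pt).1| + m ≤ H := by simp only; rw [hu]; omega
  have b2 : |(((u : ℤ), (0 : ℤ)) : Pt).2| + m ≤ H := by simp only [abs_zero]; omega
  have e1 : |((0 - -j : ℤ) : ℝ)| = |(j : ℝ)| := by push_cast; congr 1; ring
  have e2 : |((-j - 0 : ℤ) : ℝ)| = |(j : ℝ)| := by push_cast; rw [sub_zero, abs_neg]
  have r1 := respBK_before hη (a := ((u : ℤ), 0)) (m := m) (n := n) (j := 0) (j' := -j) (y := y) b1 b2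
    (by rw [e1]; exact h1) (by rw [e1]; exact h2) q1
  have r2 := respBK_before hη (a := ((u : ℤ), 0)) (m := m) (n := n) (j := -j) (j' := 0) (y := y) b1 b2
    (by rw [e2]; exact h1) (by rw [e2]; exact h2) q2
  refine abs_log_le ?_ r1 r2
  rw [ZJ_zero]
  exact W_pos η _ h0 hy

/-- **The response of the pattern with one time**, deterministic form: the kernel `[u, u']`, displacement `y`. -/
theorem det_one {K R : ℝ} {H r : ℕ} {η : Env} (hη : η ∈ BK μ s K R H r) {D : ℝ} {t k₀ u u' : ℕ} {j y : ℤ} (hk : k₀ < t)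
    (hut : u' ≤ t) (hH : (t : ℤ) + |j| ≤ H) (h1 : D + |(j : ℝ)| ≤ R * wd μ s r) (h2 : D + |(j : ℝ)| ≤ min (sl μ s) (1 - sl μ s) * r)
    (h0 : 0 ≤ y) (hy : y ≤ ((u' - u : ℕ) : ℤ)) (hM : 0 ≤ (K * R ^ K + R) * EE μ s r) (hr : 2 * r ≤ u' - u)
    (hA : u ≤ k₀ → k₀ + r ≤ u' → η ∉ EA μ s j D u (k₀ - u) r (u' - (k₀ + r)) y)
    (hB : u + r ≤ k₀ → k₀ ≤ u' → η ∉ EB μ s j D u (k₀ - r - u) r (u' - k₀) y) :
    |fk μ s (pat t 0 {k₀} fun _ => j) η u u' 0 y - fk μ s 0 η u u' 0 y| ≤ (K * R ^ K + R) * EE μ s r + Real.log 2 := by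
  have hl2 : 0 ≤ Real.log 2 := Real.log_nonneg (by norm_num)
  by_cases hin : u ≤ k₀ ∧ k₀ < u'
  · obtain ⟨hu, hu'⟩ := hin
    rw [fk_one hk j η hu hu' hut 0 y, fk_zero, sub_zero]
    have e0 : W μ s η ((u : ℤ), 0) (u' - u) y = ZJ μ s η ((u : ℤ), 0) (k₀ - u) (u' - k₀) 0 y := by
      rw [ZJ_zero]
      congr 1
      omega
    rw [e0]
    rcases le_or_gt (k₀ + r) u' with hc | hc
    · have hE := hA hu hc
      have e1 : u' - k₀ = r + (u' - (k₀ + r)) := by omega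
      rw [e1]
      refine det_after hη (by omega) h1 h2 h0 ?_ hE
      have e2 : k₀ - u + r + (u' - (k₀ + r)) = u' - u := by omega
      rw [e2]
      exact hy
    · have hc' : u + r ≤ k₀ := by omega
      have hE := hB hc' hu'.le
      have e1 : k₀ - u = k₀ - r - u + r := by omega
      rw [e1]
      refine det_before hη (by omega) h1 h2 h0 ?_ hE
      have e2 : k₀ - r - u + r + (u' - k₀) = u' - u := by omega
      rw [e2]
      exact hy
  · rw [fk_out hk j η (by omega) hut 0 y, sub_self, abs_zero]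
    linarith

end

end Pool.Agent.W_7d29a1_HZ.Z74
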