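import Pool.Agent.W_7d29a1_HZ.Z74_URQ

/-!
MP_7d29a1_pr, STORM Z at every tilt, leaf UR, window version (model: `W_7d29a1_Z74.URWQ`): the bad events of the response of one
dislocation by `j`, window of the length `r`. (helper82, after helper74)
-/

set_option autoImplicit false

namespace Pool.Agent.W_7d29a1_HZ.Z74

open Pool.Agent.W_7d29a1_F hiding W_pos W_nonneg W_add
open Finset MeasureTheory Filter Topology Pool.Agent.W_7d29a1_X Pool.Agent.W_7d29a1_HZ Pool.Agent.W_7d29a1_h4g Pool.Agent.W_7d29a1_H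
open Pool.Agent.W_7d29a1_HS (In wd wd_lower wd_tendsto)
open Pool.Agent.W_7d29a1_Z74
open scoped ENNReal

noncomputable section

variable {μ : Measure ℝ} {s : ℝ}

open scoped Classical in
/-- The bad events. -/
def QJ (μ : Measure ℝ) (s : ℝ) (j : ℤ) (t k₀ r : ℕ) (D w : ℝ) (u u' : ℕ) (y : ℤ) : Set Env :=
  (if u ≤ k₀ ∧ k₀ + r ≤ u' ∧ Adm μ s t w u u' y then EA μ s j D u (k₀ - u) r (u' - (k₀ + r)) y else ∅) ∪
    (if u + r ≤ k₀ ∧ k₀ ≤ u' ∧ Adm μ s t w u u' y then EB μ s j D u (k₀ - r - u) r (u' - k₀) y else ∅)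

/-- The probability of one bad event. -/
theorem law_QJ [IsProbabilityMeasure μ] {j : ℤ} {t k₀ r : ℕ} {D w κ δ p : ℝ} (hr : 1 ≤ r) (hD : D = (t : ℝ) ^ κ * wd' μ s r)
    (hns : ∀ N : ℕ, t ≤ 16 * N → N ≤ t → ∀ y : ℤ, 0 ≤ y → y ≤ N → |(y : ℝ) - sl μ s * N| ≤ (t : ℝ) ^ δ * wd' μ s N →
      P1 μ s N y (fun _ S => ¬ ∀ i n : ℕ, 1 ≤ n → i + n ≤ N →
        |((pos S (i + n) - pos S i : ℤ) : ℝ) - sl μ s * n| ≤ (t : ℝ) ^ κ * wd' μ s n) ≤ ENNReal.ofReal p)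
    (hw1 : ∀ N : ℕ, t ≤ 16 * N → N ≤ t → w + |(j : ℝ)| ≤ (t : ℝ) ^ δ * wd' μ s N) (hm : 0 ≤ min (sl μ s) (1 - sl μ s))
    (hw2 : w + |(j : ℝ)| ≤ min (sl μ s) (1 - sl μ s) * (t / 16))
    (u u' : ℕ) (y : ℤ) : law μ (QJ μ s j t k₀ r D w u u' y) ≤ 8 * ENNReal.ofReal p := by
  have hj := abs_nonneg (j : ℝ)
  have hj1 := neg_abs_le (j : ℝ)
  have hj2 := le_abs_self (j : ℝ)
  have key : ∀ m n : ℕ, Adm μ s t w u u' y → m + r + n = u' - u →
      0 ≤ y ∧ y ≤ ((m + r + n : ℕ) : ℤ) ∧ 0 ≤ y + j ∧ y + j ≤ ((m + r + n : ℕ) : ℤ) ∧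
      P1 μ s (m + r + n) y (fun _ S => ¬ Cn μ s r D (pos S (m + r) - pos S m)) ≤ ENNReal.ofReal p ∧
      P1 μ s (m + r + n) (y + j) (fun _ S => ¬ Cn μ s r D (pos S (m + r) - pos S m)) ≤ ENNReal.ofReal p := by
    intro m n hA hN
    obtain ⟨a1, a2, a3, a4⟩ := hA
    rw [hN]
    have hNr : ((u' - u : ℕ) : ℝ) = (u' : ℝ) - u := by
      rw [Nat.cast_sub a2]
    rw [← hNr] at a4
    have hNt : (t : ℝ) / 16 ≤ ((u' - u : ℕ) : ℝ) := by
      rw [div_le_iff₀ (by norm_num)]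
      have : (t : ℝ) ≤ 16 * ((u' - u : ℕ) : ℝ) := by exact_mod_cast a1
      linarith
    have a5 := abs_le.1 a4
    have hN0 : (0 : ℝ) ≤ ((u' - u : ℕ) : ℝ) := Nat.cast_nonneg _
    have g1 := mul_le_mul_of_nonneg_right (min_le_left (sl μ s) (1 - sl μ s)) hN0
    have g2 := mul_le_mul_of_nonneg_right (min_le_right (sl μ s) (1 - sl μ s)) hN0
    have g3 := mul_le_mul_of_nonneg_left hNt hm
    have b1 : 0 ≤ y := by
      have : (0 : ℝ) ≤ y := by linarith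
      exact_mod_cast this
    have b1' : y ≤ ((u' - u : ℕ) : ℤ) := by
      have : (y : ℝ) ≤ ((u' - u : ℕ) : ℝ) := by linarith
      exact_mod_cast this
    have b2 : 0 ≤ y + j := by
      have : (0 : ℝ) ≤ y + j := by linarith
      exact_mod_cast this
    have b2' : y + j ≤ ((u' - u : ℕ) : ℤ) := by
      have : (y : ℝ) + j ≤ ((u' - u : ℕ) : ℝ) := by linarith
      exact_mod_cast this
    have c1 := hw1 (u' - u) a1 (by omega)
    have c2 : |((y + j : ℤ) : ℝ) - sl μ s * ((u' - u : ℕ) : ℝ)| ≤ (t : ℝ) ^ δ * wd' μ s (u' - u) := by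
      rw [abs_le]
      push_cast
      constructor <;> linarith
    have c3 : |(y : ℝ) - sl μ s * ((u' - u : ℕ) : ℝ)| ≤ (t : ℝ) ^ δ * wd' μ s (u' - u) := by
      rw [abs_le]
      constructor <;> linarith
    have mono : ∀ S : Finset ℕ, (¬ Cn μ s r D (pos S (m + r) - pos S m)) → ¬ ∀ i n : ℕ, 1 ≤ n → i + n ≤ u' - u →
        |((pos S (i + n) - pos S i : ℤ) : ℝ) - sl μ s * n| ≤ (t : ℝ) ^ κ * wd' μ s n := by
      intro S h1 h2
      refine h1 ?_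
      unfold Cn
      have h3 := h2 m r hr (by omega)
      rw [← hD] at h3
      exact h3
    refine ⟨b1, b1', b2, b2', ?_, ?_⟩
    · exact (P1_le_of _ _ mono).trans (hns _ a1 (by omega) y b1 b1' c3)
    · exact (P1_le_of _ _ mono).trans (hns _ a1 (by omega) (y + j) b2 b2' c2)
  classical
  unfold QJ
  refine (measure_union_le _ _).trans ?_
  have e1 : law μ (if u ≤ k₀ ∧ k₀ + r ≤ u' ∧ Adm μ s t w u u' y then EA μ s j D u (k₀ - u) r (u' - (k₀ + r)) y else ∅) ≤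
      4 * ENNReal.ofReal p := by
    split_ifs with hc
    · obtain ⟨h1, h2, hA⟩ := hc
      obtain ⟨d1, d2, d3, d4, d5, d6⟩ := key (k₀ - u) (u' - (k₀ + r)) hA (by omega)
      exact law_two (mp_shj _ _) u (k₀ - u) r (u' - (k₀ + r)) y (y + j) D d1 d2 d3 d4 d5 d6
    · rw [measure_empty]
      exact zero_le
  have e2 : law μ (if u + r ≤ k₀ ∧ k₀ ≤ u' ∧ Adm μ s t w u u' y then EB μ s j D u (k₀ - r - u) r (u' - k₀) y else ∅) ≤
      4 * ENNReal.ofReal p := by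
    split_ifs with hc
    · obtain ⟨h1, h2, hA⟩ := hc
      obtain ⟨d1, d2, d3, d4, d5, d6⟩ := key (k₀ - r - u) (u' - k₀) hA (by omega)
      exact law_two (mp_shj _ _) u (k₀ - r - u) r (u' - k₀) y (y + j) D d1 d2 d3 d4 d5 d6
    · rw [measure_empty]
      exact zero_le
  refine (add_le_add e1 e2).trans (le_of_eq ?_)
  rw [← add_mul]
  norm_num

/-- The inclusion. -/
theorem rspJ_subset {j : ℤ} {K R : ℝ} {H r t k₀ : ℕ} {D w A : ℝ} (hk : k₀ < t) (hH : (t : ℤ) + |j| ≤ H)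
    (h1 : D + |(j : ℝ)| ≤ R * wd μ s r) (h2 : D + |(j : ℝ)| ≤ min (sl μ s) (1 - sl μ s) * r)
    (hM : 0 ≤ (K * R ^ K + R) * EE μ s r) (hr : 32 * r ≤ t) (hm : 0 ≤ min (sl μ s) (1 - sl μ s))
    (hw2 : w + |(j : ℝ)| ≤ min (sl μ s) (1 - sl μ s) * (t / 16)) (hA : (K * R ^ K + R) * EE μ s r + Real.log 2 ≤ A) :
    {η | ∃ u u' : ℕ, t ≤ 16 * (u' - u) ∧ u ≤ u' ∧ u' ≤ t ∧ ∃ y : ℤ, |(y : ℝ) - sl μ s * ((u' : ℝ) - u)| ≤ w ∧
      A < |fk μ s (pat t 0 {k₀} fun _ => j) η u u' 0 y - fk μ s 0 η u u' 0 y|} ⊆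
    (BK μ s K R H r)ᶜ ∪ ⋃ u ∈ range (t + 1), ⋃ u' ∈ range (t + 1), ⋃ y ∈ Icc (0 : ℤ) t, QJ μ s j t k₀ r D w u u' y := by
  rintro η ⟨u, u', a1, a2, a3, y, a4, a5⟩
  by_contra hc
  rw [Set.mem_union, not_or, Set.notMem_compl_iff] at hc
  obtain ⟨hη, hc⟩ := hc
  have hj := abs_nonneg (j : ℝ)
  have hNr : ((u' - u : ℕ) : ℝ) = (u' : ℝ) - u := by
    rw [Nat.cast_sub a2]
  have hNt : (t : ℝ) / 16 ≤ ((u' - u : ℕ) : ℝ) := by
    rw [div_le_iff₀ (by norm_num)]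
    have : (t : ℝ) ≤ 16 * ((u' - u : ℕ) : ℝ) := by exact_mod_cast a1
    linarith
  have a6 := abs_le.1 a4
  rw [← hNr] at a6
  have hN0 : (0 : ℝ) ≤ ((u' - u : ℕ) : ℝ) := Nat.cast_nonneg _
  have g1 := mul_le_mul_of_nonneg_right (min_le_left (sl μ s) (1 - sl μ s)) hN0
  have g2 := mul_le_mul_of_nonneg_right (min_le_right (sl μ s) (1 - sl μ s)) hN0
  have g3 := mul_le_mul_of_nonneg_left hNt hm
  have b1 : 0 ≤ y := by
    have : (0 : ℝ) ≤ y := by linarith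
    exact_mod_cast this
  have b2 : y ≤ ((u' - u : ℕ) : ℤ) := by
    have : (y : ℝ) ≤ ((u' - u : ℕ) : ℝ) := by linarith
    exact_mod_cast this
  have hQ : η ∉ QJ μ s j t k₀ r D w u u' y := by
    intro hq
    refine hc ?_
    simp only [Set.mem_iUnion]
    exact ⟨u, mem_range.2 (by omega), u', mem_range.2 (by omega), y, mem_Icc.2 ⟨b1, by omega⟩, hq⟩
  unfold QJ at hQ
  rw [Set.mem_union, not_or] at hQ
  obtain ⟨hQ1, hQ2⟩ := hQ
  have hadm : Adm μ s t w u u' y := ⟨a1, a2, a3, a4⟩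
  have key := det_one (μ := μ) hη (D := D) (t := t) (k₀ := k₀) (u := u) (u' := u') (j := j) (y := y) hk a3
    hH h1 h2 b1 b2 hM (by omega)
    (fun g1 g2 => by rw [if_pos ⟨g1, g2, hadm⟩] at hQ1; exact hQ1)
    (fun g1 g2 => by rw [if_pos ⟨g1, g2, hadm⟩] at hQ2; exact hQ2)
  linarith

/-- The union of the bad events. -/
theorem union_QJ {j : ℤ} {t k₀ r : ℕ} {D w p : ℝ} (_hp : 0 ≤ p)
    (hk0 : ∀ (u u' : ℕ) (y : ℤ), law μ (QJ μ s j t k₀ r D w u u' y) ≤ 8 * ENNReal.ofReal p) :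
    law μ (⋃ u ∈ range (t + 1), ⋃ u' ∈ range (t + 1), ⋃ y ∈ Icc (0 : ℤ) t, QJ μ s j t k₀ r D w u u' y) ≤
      ENNReal.ofReal (((t : ℝ) + 1) ^ 3 * (8 * p)) := by
  have k1 : law μ (⋃ u ∈ range (t + 1), ⋃ u' ∈ range (t + 1), ⋃ y ∈ Icc (0 : ℤ) t, QJ μ s j t k₀ r D w u u' y) ≤
      ∑ u ∈ range (t + 1), ∑ u' ∈ range (t + 1), ∑ y ∈ Icc (0 : ℤ) t, 8 * ENNReal.ofReal p := by
    refine (measure_biUnion_finset_le _ _).trans (sum_le_sum fun u _ => ?_)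
    refine (measure_biUnion_finset_le _ _).trans (sum_le_sum fun u' _ => ?_)
    exact (measure_biUnion_finset_le _ _).trans (sum_le_sum fun y _ => hk0 u u' y)
  refine k1.trans (le_of_eq ?_)
  rw [sum_const, sum_const, sum_const, card_range, Int.card_Icc]
  have e5 : ((t : ℤ) + 1 - 0).toNat = t + 1 := by omega
  rw [e5, smul_smul, smul_smul, nsmul_eq_mul]
  rw [ENNReal.ofReal_mul (by positivity), ENNReal.ofReal_mul (by norm_num)]
  have e6 : ENNReal.ofReal (((t : ℝ) + 1) ^ 3) = (((t + 1) * (t + 1) * (t + 1) : ℕ) : ℝ≥0∞) := by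
    rw [← ENNReal.ofReal_natCast]
    congr 1
    push_cast
    ring
  have e7 : ENNReal.ofReal 8 = 8 := by norm_num
  rw [e6, e7, mul_assoc (t + 1)]

end

end Pool.Agent.W_7d29a1_HZ.Z74
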