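import Pool.Agent.W_7d29a1_HZ.Z82_Core
import Pool.Agent.W_7d29a1_Z82.Pair

/-!
STORM Z AT EVERY TILT (MP_7d29a1_pr), leaf Z2: the fresh tube lemma for pairs of paths (model: `W_7d29a1_Z82.Pair`,
helper82; port: helper65). The Gibbs weights `Gp` of the paths with fixed end points and the quotients `WR / W` do not depend on
the tilt; only the units and the lower bound of the kernel do.
-/

set_option autoImplicit false

namespace Pool.Agent.W_7d29a1_HZ.Z82

open MeasureTheory ProbabilityTheory Filter Topology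
open Pool.Agent.W_7d29a1_F Pool.Agent.W_7d29a1_h4g Pool.Agent.W_7d29a1_H Pool.Agent.W_7d29a1_L
open Pool.Agent.W_7d29a1_HS Pool.Agent.W_7d29a1_HR
open Pool.Agent.W_7d29a1_Z82 (rsh Rt measurable_rsh Gp Gp_nonneg Gp_sum_le measurable_Gp ps Gp_anti close close_le)

noncomputable section

variable {μ : Measure ℝ} {s : ℝ}

/-- The quotient of two weights with the same end points does not depend on the tilt. -/
theorem quot_tilt (s s' : ℝ) (R R' : Set Pt) (η : Env) (a : Pt) (n : ℕ) (y : ℤ) :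
    WR μ s R η a n y / WR μ s R' η a n y = WR μ s' R η a n y / WR μ s' R' η a n y := by
  unfold WR
  rw [mul_div_mul_left _ _ (Real.exp_ne_zero _), mul_div_mul_left _ _ (Real.exp_ne_zero _)]

variable [IsProbabilityMeasure μ] {c C : ℝ} {n₀ : ℕ}

open Classical in
/-- **The fresh tube lemma** for pairs of paths. -/
theorem pair (h : In μ s c C n₀) : ∃ κ a : ℝ, 0 < κ ∧ 0 < a ∧ ∃ J n₁ : ℕ, ∀ r l ρ : ℕ, n₁ ≤ r → 2 ^ J * r ≤ l →
    ((2 * ρ + 1 : ℕ) : ℝ) ≤ c * wd μ s r → ∀ (M t k N : ℕ) (φ : ℤ → ℤ) (y y' : ℤ) (Q : Finset (ℤ × ℤ)),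
    ∫ η, ∑ S ∈ (Finset.range N).powerset, Gp μ η N y S *
      ∑ S' ∈ (Finset.range (t + M * l + k)).powerset, Gp μ (rsh φ η) (t + M * l + k) y' S' *
        (if close φ ρ t (M * l) Q S S' then 1 else 0) ∂(law μ) ≤
    Q.card * (Real.exp (-(a * M)) + Real.exp (-(κ * (M * EE μ s l) / 2))) +
      (law μ).real {η | ∃ q ∈ Q, W μ s η ((t : ℤ), q.1) (M * l) q.2 < Real.exp (-(κ * (M * EE μ s l) / 2))} := by
  obtain ⟨κ, a, hκ, ha, J, n₁, hcore⟩ := core h
  refine ⟨κ, a, hκ, ha, J, n₁, fun r l ρ hr hrl hw M t k N φ y y' Q => ?_⟩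
  have h1 := hcore r l ρ hr hrl hw M t φ (Finset.range N).powerset ps (fun S η => Gp μ η N y S) Q
    (fun S _ => measurable_Gp N y S) (fun S _ η => Gp_nonneg η N y S) (fun η => Gp_sum_le η N y)
    (fun S _ η η' h2 h3 => Gp_anti N y S h2 h3)
  refine le_trans ?_ h1
  have hclose : ∀ (η : Env) (S : Finset ℕ), ∑ S' ∈ (Finset.range (t + M * l + k)).powerset,
      Gp μ (rsh φ η) (t + M * l + k) y' S' * (if close φ ρ t (M * l) Q S S' then (1 : ℝ) else 0) ≤
      min 1 (∑ q ∈ Q.filter (fun q => |q.1 - φ t - ps S t| ≤ ρ),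
        WR μ s (Rt φ (ps S) ρ) (rsh φ η) ((t : ℤ), q.1) (M * l) q.2 / W μ s (rsh φ η) ((t : ℤ), q.1) (M * l) q.2) := by
    intro η S
    have h2 := close_le (μ := μ) (rsh φ η) φ ρ t (M * l) k Q y' S
    refine h2.trans (le_of_eq ?_)
    congr 1
    refine Finset.sum_congr rfl fun q _ => ?_
    unfold W
    exact quot_tilt 0 s _ _ _ _ _ _
  have hm : ∀ S : Finset ℕ, Measurable fun η : Env => ∑ S' ∈ (Finset.range (t + M * l + k)).powerset,
      Gp μ (rsh φ η) (t + M * l + k) y' S' * (if close φ ρ t (M * l) Q S S' then (1 : ℝ) else 0) := fun S =>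
    Finset.measurable_sum _ fun S' _ => ((measurable_Gp _ y' S').comp (measurable_rsh φ)).mul_const _
  have hm2 : ∀ S : Finset ℕ, Measurable fun η : Env => min 1 (∑ q ∈ Q.filter (fun q => |q.1 - φ t - ps S t| ≤ ρ),
      WR μ s (Rt φ (ps S) ρ) (rsh φ η) ((t : ℤ), q.1) (M * l) q.2 / W μ s (rsh φ η) ((t : ℤ), q.1) (M * l) q.2) := fun S =>
    measurable_const.min (Finset.measurable_sum _ fun q _ => ((measurable_WR _ _ _ _).comp (measurable_rsh φ)).div
      ((measurable_W _ _ _).comp (measurable_rsh φ)))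
  have hb : ∀ (g : Finset ℕ → Env → ℝ), (∀ S, Measurable (g S)) → (∀ S η, 0 ≤ g S η ∧ g S η ≤ 1) →
      Integrable (fun η => ∑ S ∈ (Finset.range N).powerset, Gp μ η N y S * g S η) (law μ) := by
    intro g hg hg1
    refine Integrable.of_bound (Finset.measurable_sum _ fun S _ => (measurable_Gp N y S).mul (hg S)).aestronglyMeasurable 1
      (Filter.Eventually.of_forall fun η => ?_)
    have h2 : 0 ≤ ∑ S ∈ (Finset.range N).powerset, Gp μ η N y S * g S η :=
      Finset.sum_nonneg fun S _ => mul_nonneg (Gp_nonneg _ _ _ _) (hg1 S η).1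
    have h3 : ∑ S ∈ (Finset.range N).powerset, Gp μ η N y S * g S η ≤ 1 := by
      refine le_trans (Finset.sum_le_sum fun S _ => ?_) (Gp_sum_le (μ := μ) η N y)
      have := mul_le_mul_of_nonneg_left (hg1 S η).2 (Gp_nonneg (μ := μ) η N y S)
      linarith
    rw [Real.norm_eq_abs, abs_of_nonneg h2]
    exact h3
  refine integral_mono (hb _ hm fun S η => ?_) (hb _ hm2 fun S η => ?_) fun η => ?_
  · refine ⟨Finset.sum_nonneg fun S' _ => mul_nonneg (Gp_nonneg _ _ _ _) (by split_ifs <;> norm_num), ?_⟩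
    exact (hclose η S).trans (min_le_left _ _)
  · exact ⟨le_min zero_le_one (Finset.sum_nonneg fun q _ => div_nonneg (WR_nonneg _ _ _ _ _) (W_nonneg _ _ _ _)),
      min_le_left _ _⟩
  · exact Finset.sum_le_sum fun S _ => mul_le_mul_of_nonneg_left (hclose η S) (Gp_nonneg _ _ _ _)

end

end Pool.Agent.W_7d29a1_HZ.Z82
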