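import Pool.Agent.W_7d29a1_HZ.Z82_Fresh
import Pool.Agent.W_7d29a1_HR.Low2

/-!
STORM Z AT EVERY TILT (MP_7d29a1_pr), leaf Z2, part (b): the kernels of the paths which stay in a tube around a given
shape and do not touch it (model: `W_7d29a1_Z82.Tube`, helper82; port: helper65).
-/

set_option autoImplicit false

namespace Pool.Agent.W_7d29a1_HZ.Z82

open MeasureTheory ProbabilityTheory Filter Topology
open Pool.Agent.W_7d29a1_F Pool.Agent.W_7d29a1_h4g Pool.Agent.W_7d29a1_H Pool.Agent.W_7d29a1_L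
open Pool.Agent.W_7d29a1_HS Pool.Agent.W_7d29a1_HR
open Pool.Agent.W_7d29a1_HL (cS WR_off WR_zero')
open Pool.Agent.W_7d29a1_h48 (WR_mono_env)

noncomputable section

variable {μ : Measure ℝ} {s : ℝ}

theorem cS_zero [IsProbabilityMeasure μ] (R : Set Pt) (η : Env) (a : Pt) : cS μ s R η a 0 = 1 := by
  unfold cS
  rw [Nat.cast_zero, Finset.Icc_self, Finset.sum_singleton, WR_zero']
  have : Zr R η a 0 0 = 1 := by
    show (if (0 : ℤ) = 0 then (1 : ℝ) else 0) = 1
    rw [if_pos rfl]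
  rw [this]
  simp

/-- The weight of a tube is at most the product of the soft maxima of its cells. -/
theorem tube_det [IsProbabilityMeasure μ] (R : Set Pt) (η : Env) (l w : ℕ) (hl : 1 ≤ l) : ∀ (k : ℕ) (t : ℤ) (y : ℕ → ℤ)
    (x : ℤ), x ∈ Finset.Ico (y 0) (y 0 + w) →
    (∀ j : ℕ, 1 ≤ j → j < k → ∀ u : ℤ, ((t + j * l, u) : Pt) ∈ R → u ∈ Finset.Ico (y j) (y j + w)) →
    cS μ s R η (t, x) (k * l) ≤ Real.exp (∑ j ∈ Finset.range k, sm μ s η (Finset.Ico (y j) (y j + w)) (t + j * l) l) := by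
  intro k
  induction k with
  | zero =>
    intro t y x _ _
    rw [Nat.zero_mul, cS_zero, Finset.range_zero, Finset.sum_empty, Real.exp_zero]
  | succ k ih =>
    intro t y x hx hR
    have e1 : (k + 1) * l = l + k * l := by ring
    rw [e1, Finset.sum_range_succ']
    have h1 : ∀ u : ℤ, ((t + l, u) : Pt) ∈ R → cS μ s R η (t + l, u) (k * l) ≤
        Real.exp (-(-∑ j ∈ Finset.range k, sm μ s η (Finset.Ico (y (j + 1)) (y (j + 1) + w)) (t + (j + 1 : ℕ) * l) l)) := by
      intro u hu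
      rw [neg_neg]
      rcases Nat.eq_zero_or_pos k with h0 | h0
      · subst h0
        rw [Nat.zero_mul, cS_zero, Finset.range_zero, Finset.sum_empty, Real.exp_zero]
      · have h2 := ih (t + l) (fun j => y (j + 1)) u (by
          have h3 := hR 1 le_rfl (by omega) u (by
            rw [Nat.cast_one, one_mul]
            exact hu)
          exact h3) (fun j hj1 hj2 u' hu' => by
          refine hR (j + 1) (by omega) (by omega) u' ?_
          have e2 : t + ((j + 1 : ℕ) : ℤ) * l = t + l + j * l := by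
            push_cast
            ring
          rw [e2]
          exact hu')
        refine h2.trans (le_of_eq ?_)
        congr 1
        refine Finset.sum_congr rfl fun j _ => ?_
        have e2 : t + ((j + 1 : ℕ) : ℤ) * l = t + l + j * l := by
          push_cast
          ring
        rw [e2]
    have h3 := cS_step (μ := μ) (s := s) η (t := t) (x := x) (m := l) (n := k * l) hl
      (A := -sm μ s η (Finset.Ico (y 0) (y 0 + w)) t l) (by
        rw [neg_neg]
        exact V_le_sm η t l hx) h1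
    refine h3.trans (le_of_eq ?_)
    congr 1
    have e3 : t + ((0 : ℕ) : ℤ) * l = t := by
      rw [Nat.cast_zero, zero_mul, add_zero]
    rw [e3]
    ring

theorem WR_le_cS [IsProbabilityMeasure μ] (R : Set Pt) (η : Env) (a : Pt) (n : ℕ) (z : ℤ) : WR μ s R η a n z ≤ cS μ s R η a n := by
  unfold cS
  by_cases hz : z ∈ Finset.Icc (0 : ℤ) n
  · exact Finset.single_le_sum (f := fun z => WR μ s R η a n z) (fun _ _ => WR_nonneg _ _ _ _ _) hz
  · rw [WR_off R η a fun h => hz (Finset.mem_Icc.2 h)]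
    exact Finset.sum_nonneg fun _ _ => WR_nonneg _ _ _ _ _

variable [IsProbabilityMeasure μ] {c C : ℝ} {n₀ : ℕ}

/-- The paths which visit given cells at the times `t + j l` have a small weight. -/
theorem tube_prob (h : In μ s c C n₀) : ∃ κ a : ℝ, 0 < κ ∧ 0 < a ∧ ∃ J n₁ : ℕ, ∀ r l w : ℕ, n₁ ≤ r → 2 ^ J * r ≤ l →
    1 ≤ w → (w : ℝ) ≤ c * wd μ s r → ∀ (M : ℕ) (t : ℤ) (y : ℕ → ℤ) (R : Set Pt) (x z : ℤ),
    x ∈ Finset.Ico (y 0) (y 0 + w) →
    (∀ j : ℕ, 1 ≤ j → j < M → ∀ u : ℤ, ((t + j * l, u) : Pt) ∈ R → u ∈ Finset.Ico (y j) (y j + w)) →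
    (law μ).real {η | Real.exp (-(κ * (M * EE μ s l))) ≤ WR μ s R η (t, x) (M * l) z} ≤ Real.exp (-(a * M)) := by
  obtain ⟨κ, a, hκ, ha, J, n₁, hf⟩ := fresh_shape h
  refine ⟨κ, a, hκ, ha, J, n₁ + 1, fun r l w hr hrl hw1 hw M t y R x z hx hR => ?_⟩
  refine (measureReal_mono ?_ (measure_ne_top _ _)).trans (hf r l w (by omega) hrl hw1 hw M t y)
  intro η hη
  rw [Set.mem_ofPred_eq] at hη ⊢
  have hl : 1 ≤ l := by
    have : 1 * r ≤ 2 ^ J * r := Nat.mul_le_mul_right r Nat.one_le_two_pow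
    omega
  have h1 := tube_det (μ := μ) (s := s) R η l w hl M t y x hx hR
  have h2 := hη.trans ((WR_le_cS R η (t, x) (M * l) z).trans h1)
  exact Real.exp_le_exp.1 h2

end

end Pool.Agent.W_7d29a1_HZ.Z82
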