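import Pool.Agent.W_7d29a1_HZ.TieQ
import Pool.Agent.W_7d29a1_HZ.Z86_Num86

/-!
STORM Z, helper86: the input `TieIn` of `Z/OneS.lean` from the hypothesis `TIE μ s q` and the numbers of the windows.
-/

set_option autoImplicit false

namespace Pool.Agent.W_7d29a1_HZ.Z86

open MeasureTheory ProbabilityTheory Filter Topology Finset
open Pool.Agent.W_7d29a1_F Pool.Agent.W_7d29a1_X Pool.Agent.W_7d29a1_h4g Pool.Agent.W_7d29a1_H
open Pool.Agent.W_7d29a1_HZ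
open scoped ENNReal

variable {μ : Measure ℝ} {s : ℝ}

theorem QOK_one {q : ℕ → ℝ} {K : ℝ} (hq : QOK q K) : 1 ≤ K := by
  have h1 := hq.anti 1 1 le_rfl le_rfl
  have h2 := hq.pos 1 le_rfl
  by_contra hcon
  push Not at hcon
  have : K * q 1 < 1 * q 1 := mul_lt_mul_of_pos_right hcon h2
  linarith

/-- The rate at the window against the rate at the zone. -/
theorem rate_cmp {q : ℕ → ℝ} {K : ℝ} (hq : QOK q K) {t n : ℕ} (ht : 1 ≤ t) (hn : 1 ≤ n) {X : ℝ} (hX : 1 ≤ X)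
    (h : (t : ℝ) ≤ X * n) : q n ≤ K * X * q t := by
  have hK := QOK_one hq
  have hqt := hq.pos t ht
  rcases le_total t n with htn | htn
  · refine (hq.anti t n ht htn).trans ?_
    refine mul_le_mul_of_nonneg_right ?_ hqt.le
    exact le_mul_of_one_le_right (by linarith) hX
  · refine (hq.low n t hn htn).trans ?_
    have hnR : (0 : ℝ) < n := by exact_mod_cast hn
    refine mul_le_mul_of_nonneg_right (mul_le_mul_of_nonneg_left ?_ (by linarith)) hqt.le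
    rw [div_le_iff₀ hnR]
    exact h

theorem tieIn_of_TIE [IsProbabilityMeasure μ] {q : ℕ → ℝ} {K : ℝ} (hq : QOK q K) (hT : TIE μ s q) {ε θ : ℝ} (hε : 0 < ε)
    (hθ : 0 < θ) : ∃ ε₃ δ c : ℝ, 0 < ε₃ ∧ 0 < δ ∧ 0 < c ∧ ∃ L₀ : ℕ, ∀ L : ℕ, L₀ ≤ L → ∀ N t : ℕ, L ≤ 16 * N → N ≤ L →
      (L : ℝ) ^ θ ≤ t → ∀ y : ℤ, 0 ≤ y → y ≤ N → |(y : ℝ) - sl μ s * N| ≤ ((L : ℝ) ^ δ * wd' μ s N) →
      ∀ (ε₂ ε₄ : ℝ) (n1 : ℕ → ℕ) (e0 E τ k0 : ℕ), 0 ≤ ε₂ → ε₄ ≤ ε₃ → Nm μ s L N t ε₂ ε₄ n1 e0 E →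
      ∀ b : ℕ, ∀ W ∈ Wd N t τ k0 n1 e0 E b, ∀ H : ℕ, ∀ M : ℝ, 1 ≤ M → ∀ F : Env → Finset ℕ → Prop, Ms F →
      OffRows W.2.2 F → P1 μ s N y (fun η S => F η S ∧ NTW μ s N H W.2.1 W.2.2 (2 ^ W.1) (2 ^ (W.1 + 3)) M η S) ≤
        ENNReal.ofReal ((L : ℝ) ^ ε * q t * M) * P1 μ s N y F + ENNReal.ofReal (Real.exp (-(L : ℝ) ^ c)) := by
  set ε' : ℝ := min (ε / 4) (θ / 2) with hε'
  have hε'0 : 0 < ε' := lt_min (by positivity) (by positivity)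
  obtain ⟨δ, c, hδ, hc, L₀, hmain⟩ := hT ε' hε'0
  set ε₃ : ℝ := min (min δ (ε / 4)) (θ / 2) with hε₃
  have hε₃0 : 0 < ε₃ := lt_min (lt_min hδ (by positivity)) (by positivity)
  obtain ⟨L1, hL1⟩ := ev_const 512 hδ
  obtain ⟨L2, hL2⟩ := ev_const K (show 0 < ε / 4 by positivity)
  refine ⟨ε₃, δ, c, hε₃0, hδ, hc, L₀ + L1 + L2 + 2, ?_⟩
  intro L hL N t hLN hNL htL y hy0 hyN hcone ε₂ ε₄ n1 e0 E τ k0 hε₂ hε₄ hnm b W hW H M hM F hF hoff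
  have hL1 := hL1 L (by omega)
  have hL2 := hL2 L (by omega)
  have hL0 : (1 : ℝ) ≤ L := by exact_mod_cast (show 1 ≤ L by omega)
  have hLp : (0 : ℝ) < L := by linarith
  obtain ⟨he0, heE, hW0, hj, hJ, hcard⟩ := mem_Wd.1 hW
  have hspan := Wd0_span hW0
  have hn := hnm.n1_pos W.1 he0 heE
  have hnN := hnm.n1_le W.1
  have hnR : (1 : ℝ) ≤ n1 W.1 := by exact_mod_cast hn
  have htp : (0 : ℝ) < t := lt_of_lt_of_le (Real.rpow_pos_of_pos hLp _) htL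
  have ht1 : 1 ≤ t := by
    rcases Nat.eq_zero_or_pos t with h | h
    · rw [h, Nat.cast_zero] at htp
      exact absurd htp (lt_irrefl _)
    · exact h
  have hx1 : (L : ℝ) ^ ε₄ ≤ (L : ℝ) ^ δ :=
    Real.rpow_le_rpow_of_exponent_le hL0 (hε₄.trans ((min_le_left _ _).trans (min_le_left _ _)))
  have hx2 : (L : ℝ) ^ ε₄ ≤ (L : ℝ) ^ (ε / 4) :=
    Real.rpow_le_rpow_of_exponent_le hL0 (hε₄.trans ((min_le_left _ _).trans (min_le_right _ _)))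
  have hx3 : (L : ℝ) ^ ε₄ ≤ (L : ℝ) ^ (θ / 2) :=
    Real.rpow_le_rpow_of_exponent_le hL0 (hε₄.trans (min_le_right _ _))
  have htn := hnm.n1_ge W.1 he0 heE
  have hn2 : (L : ℝ) ^ (θ / 2) ≤ n1 W.1 := by
    have h1 : (L : ℝ) ^ (θ / 2) * (L : ℝ) ^ (θ / 2) ≤ (L : ℝ) ^ (θ / 2) * n1 W.1 := by
      rw [← Real.rpow_add hLp]
      calc (L : ℝ) ^ (θ / 2 + θ / 2) = (L : ℝ) ^ θ := by
            congr 1
            ring
        _ ≤ t := htL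
        _ ≤ (L : ℝ) ^ ε₄ * n1 W.1 := htn
        _ ≤ _ := by gcongr
    exact le_of_mul_le_mul_left h1 (Real.rpow_pos_of_pos hLp _)
  have hLε' : (L : ℝ) ^ ε' ≤ n1 W.1 :=
    (Real.rpow_le_rpow_of_exponent_le hL0 (min_le_right _ _)).trans hn2
  have hwn := wd'_one_le (μ := μ) (s := s) (n1 W.1)
  have h512 : (n1 W.1 : ℝ) ≤ (L : ℝ) ^ δ * W.2.2.card := by
    have h1 : ((n1 W.1 : ℕ) : ℝ) ≤ ((512 * W.2.2.card : ℕ) : ℝ) := by exact_mod_cast hcard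
    push_cast at h1
    exact h1.trans (mul_le_mul_of_nonneg_right hL1 (Nat.cast_nonneg _))
  have hwdg : wd' μ s (n1 W.1) ≤ (L : ℝ) ^ δ * ((2 ^ W.1 : ℕ) : ℝ) := by
    have h1 := hnm.n1_wd W.1 he0 heE (n1 W.1) hn le_rfl
    have h2 : 1 ≤ (L : ℝ) ^ ε₂ := Real.one_le_rpow hL0 hε₂
    have h3 : wd' μ s (n1 W.1) ≤ (L : ℝ) ^ ε₂ * wd' μ s (n1 W.1) := le_mul_of_one_le_left (by linarith) h2
    have h4 : (2 : ℝ) ^ W.1 ≤ (L : ℝ) ^ δ * 2 ^ W.1 := le_mul_of_one_le_left (by positivity) (by linarith)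
    push_cast
    linarith
  have hww : (((2 ^ (W.1 + 3) : ℕ)) : ℝ) ≤ (L : ℝ) ^ δ * wd' μ s (n1 W.1) := by
    have h1 := hnm.top W.1 he0 heE
    push_cast
    exact h1.trans (mul_le_mul_of_nonneg_right hx1 (by linarith))
  have hwL : 2 ^ (W.1 + 3) ≤ L := (Nat.pow_le_pow_right (by norm_num) (by omega)).trans hnm.E_le
  refine (hmain L (by omega) N hLN hNL y hy0 hyN hcone H (n1 W.1) W.2.1 W.2.2
    (fun i hi => ⟨(hJ i hi).1, (hJ i hi).2, (hspan i hi).1, (hspan i hi).2⟩) ((hJ _ hj).2.le) (hnN.trans hNL) hLε' h512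
    (2 ^ W.1) (2 ^ (W.1 + 3)) Nat.one_le_two_pow Nat.one_le_two_pow hwL hwdg hww M hM F hF hoff).trans ?_
  refine add_le_add (mul_le_mul_left (ENNReal.ofReal_le_ofReal ?_) _) le_rfl
  have hqn : q (n1 W.1) ≤ K * (L : ℝ) ^ (ε / 4) * q t := by
    refine rate_cmp hq ht1 hn (Real.one_le_rpow hL0 (by positivity)) (htn.trans ?_)
    gcongr
  have hqt := hq.pos t ht1
  have hε'4 : (L : ℝ) ^ ε' ≤ (L : ℝ) ^ (ε / 4) := Real.rpow_le_rpow_of_exponent_le hL0 (min_le_left _ _)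
  have hK := QOK_one hq
  calc (L : ℝ) ^ ε' * M * q (n1 W.1) ≤ (L : ℝ) ^ (ε / 4) * M * (K * (L : ℝ) ^ (ε / 4) * q t) := by
        have := (hq.pos (n1 W.1) hn).le
        gcongr
    _ ≤ (L : ℝ) ^ (ε / 4) * M * ((L : ℝ) ^ (ε / 4) * (L : ℝ) ^ (ε / 4) * q t) := by gcongr
    _ = (L : ℝ) ^ (ε / 4 + ε / 4 + ε / 4) * q t * M := by
        rw [Real.rpow_add hLp, Real.rpow_add hLp]
        ring
    _ ≤ (L : ℝ) ^ ε * q t * M := by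
        have : (L : ℝ) ^ (ε / 4 + ε / 4 + ε / 4) ≤ (L : ℝ) ^ ε := Real.rpow_le_rpow_of_exponent_le hL0 (by linarith)
        gcongr

end Pool.Agent.W_7d29a1_HZ.Z86
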