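import Pool.Agent.W_7d29a1_HL.Strip
import Pool.Agent.W_7d29a1_HL.LuckSide
import Pool.Agent.W_7d29a1_HZ.PB
/-!
STORM Z, SECOND STOREY (MP_7d29a1_pr), every tilt: the legs and the luck of a cell: (L1) a displacement of the order of the width costs a bounded
number of units in a strip of the order of the width, with probability near one; (L2) it gains any number of units with positive
probability. (helper59)
-/

set_option autoImplicit false

namespace Pool.Agent.W_7d29a1_HZ.ZE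

open MeasureTheory ProbabilityTheory Filter Topology Finset
open Pool.Agent.W_7d29a1_F Pool.Agent.W_7d29a1_h4g Pool.Agent.W_7d29a1_H
open Pool.Agent.W_7d29a1_HS (In wd St cf md tubeIn_of wd_tendsto)
open Pool.Agent.W_7d29a1_HZ (wd' EE')

noncomputable section

variable {μ : Measure ℝ} {s : ℝ} [IsProbabilityMeasure μ] {c C : ℝ} {n₀ : ℕ}

/-- A lane of any slope near `sl μ s`: `q` blocks of duration `τ`. -/
theorem lane_bd (h : In μ s c C n₀) : ∃ R C' : ℝ, 0 ≤ R ∧ 0 < C' ∧ ∃ n₁ : ℕ, ∀ τ, n₁ ≤ τ → ∀ (q : ℕ) (a : Pt) (k : ℤ) (S : Set Pt),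
    0 ≤ k → k ≤ ((q * τ : ℕ) : ℤ) → |(k : ℝ) / ((q * τ : ℕ) : ℝ) * τ - sl μ s * τ| + 1 ≤ c * wd μ s τ →
    (∀ p : Pt, a.1 < p.1 → p.1 ≤ a.1 + (q * τ : ℕ) →
      |((p.2 - a.2 : ℤ) : ℝ) - (k : ℝ) / ((q * τ : ℕ) : ℝ) * ((p.1 - a.1 : ℤ) : ℝ)| ≤ R * wd μ s τ + 2 → p ∈ S) → 1 ≤ q →
    (∀ η, 0 < WR μ s S η a (q * τ) k) ∧ ∀ b : ℝ, 0 < b →
      (law μ).real {η | WR μ s S η a (q * τ) k < Real.exp (-(b * EE μ s τ))} ≤ q * C' / b := by
  obtain ⟨R, C', n₁, hR, hT⟩ := tubeIn_of h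
  have hc0 := h.c0
  refine ⟨R, max C' 1, hR, by positivity, max n₁ 1, fun τ hτ q a k S hk0 hk1 hk hS hq => ?_⟩
  have hτ1 : n₁ ≤ τ := (le_max_left _ _).trans hτ
  have hτ3 : 1 ≤ τ := (le_max_right _ _).trans hτ
  have hE := EE_pos (μ := μ) (s := s) τ
  have hqτ : (0 : ℝ) < ((q * τ : ℕ) : ℝ) := by
    have : 0 < q * τ := Nat.mul_pos hq hτ3
    exact_mod_cast this
  obtain ⟨v, hv⟩ : ∃ v : ℝ, v = (k : ℝ) / ((q * τ : ℕ) : ℝ) := ⟨_, rfl⟩
  rw [← hv] at hk hS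
  have hv0 : 0 ≤ v := by
    rw [hv]
    have : (0 : ℝ) ≤ k := by exact_mod_cast hk0
    positivity
  have hv1 : v ≤ 1 := by
    rw [hv, div_le_one hqτ]
    exact_mod_cast hk1
  have hK := Pool.Agent.W_7d29a1_HS.lane_mean (μ := μ) h.em s a (c := v) (D := R * wd μ s τ) (K := max C' 1 * EE μ s τ) hτ3
    hv0 hv1 (fun z hz0 hz1 hz => by
      have h1 := hT τ hτ1 z hz0 hz1 (by
        have h2 : (z : ℝ) - sl μ s * τ = ((z : ℝ) - v * τ) + (v * τ - sl μ s * τ) := by ring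
        rw [h2]
        refine (abs_add_le _ _).trans ?_
        linarith)
      exact ⟨h1.1, h1.2.trans (mul_le_mul_of_nonneg_right (le_max_left _ _) hE.le)⟩) q
  have hbp : Pool.Agent.W_7d29a1_HS.bp v τ q = k := by
    unfold Pool.Agent.W_7d29a1_HS.bp
    rw [hv, div_mul_cancel₀ _ hqτ.ne']
    exact Int.floor_intCast k
  rw [hbp] at hK
  obtain ⟨Tb, hTb⟩ : ∃ Tb : Set Pt, Tb = Pool.Agent.W_7d29a1_g.Tube a v (R * wd μ s τ + 2) := ⟨_, rfl⟩
  rw [← hTb] at hK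
  have hle : ∀ η, WR μ s Tb η a (q * τ) k ≤ WR μ s S η a (q * τ) k := by
    intro η
    refine Pool.Agent.W_7d29a1_HS.WR_mono_on η a _ _ fun p hp hp1 hp2 => hS p hp1 hp2 ?_
    rw [hTb] at hp
    exact hp
  refine ⟨fun η => (hK.1 η).trans_le (hle η), fun b hb => ?_⟩
  have hp := hK.2
  unfold Pool.Agent.W_7d29a1_HS.pR at hp
  have hWs : ∀ η, WR μ s {p : Pt | p + a ∈ Tb} (sh a η) 0 (q * τ) k = WR μ s Tb η a (q * τ) k := by
    intro η
    have h1 := WR_sh (μ := μ) (s := s) Tb η 0 a (q * τ) k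
    rw [zero_add] at h1
    exact h1
  have hzr : 0 < Zr {p : Pt | p + a ∈ Tb} (sh a fun _ => 0) 0 (q * τ) k := by
    have h1 := hK.1 fun _ => 0
    rw [← hWs] at h1
    unfold WR at h1
    exact (mul_pos_iff_of_pos_left (Real.exp_pos _)).1 h1
  have hpath : Pool.Agent.W_7d29a1_g.HasPath {p : Pt | p + a ∈ Tb} 0 (q * τ) k :=
    Pool.Agent.W_7d29a1_h57g.hasPath_of_pos _ _ hzr
  have hI : Integrable (fun η => max (-Real.log (WR μ s Tb η a (q * τ) k)) 0) (law μ) := by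
    have h1 : Sub fun η => Real.log (WR μ s Tb η a (q * τ) k) := by
      have h2 := (hpath.sub (μ := μ) (s := s)).comp_sh a
      refine (congrArg Pool.Agent.W_7d29a1_F.Sub (funext fun η => ?_)).mp h2
      rw [hWs]
    exact (h1.neg.max (Sub.const 0)).integrable h.em
  have h3 := mul_meas_ge_le_integral_of_nonneg (μ := law μ)
    (f := fun η => max (-Real.log (WR μ s Tb η a (q * τ) k)) 0)
    (ae_of_all _ fun η => le_max_right _ _) hI (b * EE μ s τ)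
  have h4 : b * EE μ s τ * (law μ).real {η | b * EE μ s τ ≤ max (-Real.log (WR μ s Tb η a (q * τ) k)) 0} ≤
      q * (max C' 1 * EE μ s τ) := by
    refine le_trans ?_ hp
    simpa [Measure.real] using h3
  have h5 : (law μ).real {η | WR μ s S η a (q * τ) k < Real.exp (-(b * EE μ s τ))} ≤
      (law μ).real {η | b * EE μ s τ ≤ max (-Real.log (WR μ s Tb η a (q * τ) k)) 0} := by
    refine measureReal_mono (fun η hη => ?_) (measure_ne_top _ _)
    rw [Set.mem_ofPred_eq] at hη ⊢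
    refine le_max_of_le_left ?_
    have h6 := (hle η).trans_lt hη
    have h7 := Real.log_lt_log (hK.1 η) h6
    rw [Real.log_exp] at h7
    linarith
  rw [le_div_iff₀ hb]
  have h6 : (law μ).real {η | WR μ s S η a (q * τ) k < Real.exp (-(b * EE μ s τ))} * b * EE μ s τ ≤
      q * max C' 1 * EE μ s τ := by
    have h7 := mul_le_mul_of_nonneg_left h5 (mul_pos hb hE).le
    calc _ = b * EE μ s τ * (law μ).real {η | WR μ s S η a (q * τ) k < Real.exp (-(b * EE μ s τ))} := by ring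
      _ ≤ _ := h7
      _ ≤ _ := h4
      _ = _ := by ring
  exact le_of_mul_le_mul_right h6 hE

/-- (L1) The legs. -/
theorem leg (h : In μ s c C n₀) : ∀ q C₃ : ℝ, 0 < q → 1 ≤ C₃ → ∃ A R : ℝ, 1 ≤ A ∧ 1 ≤ R ∧ ∃ n₁ : ℕ, ∀ i : ℕ, n₁ ≤ 2 ^ i →
    ∀ (a : Pt) (k : ℤ), |(k : ℝ) - sl μ s * (2 ^ i : ℕ)| ≤ C₃ * wd' μ s (2 ^ i) →
      (law μ).real {η | WR μ s (St μ s (R * wd' μ s (2 ^ i)) a) η a (2 ^ i) k < Real.exp (-(A * EE' μ s (2 ^ i)))} ≤ q := by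
  intro q C₃ hq hC₃
  obtain ⟨R, C', hR, hC', n₁, hl⟩ := lane_bd h
  obtain ⟨a, K, ha, ha1, hK, hw⟩ := Pool.Agent.W_7d29a1_HZ.wd'_pow h
  obtain ⟨a₂, K₂, ha₂, ha₂1, hK₂, hE⟩ := Pool.Agent.W_7d29a1_HZ.EE'_pow h
  obtain ⟨n₂, hn₂⟩ := Pool.Agent.W_7d29a1_HZ.wd'_eq h
  have hc0 := h.c0
  -- the number of blocks
  obtain ⟨j, hj⟩ : ∃ j : ℕ, 2 * C₃ * K / c ≤ ((2 : ℝ) ^ j) ^ a := by
    have h1 : Tendsto (fun j : ℕ => ((2 : ℝ) ^ j) ^ a) atTop atTop :=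
      (tendsto_rpow_atTop ha).comp (tendsto_pow_atTop_atTop_of_one_lt (by norm_num))
    exact (h1.eventually_ge_atTop _).exists
  obtain ⟨d₀, hd₀⟩ : ∃ d₀ : ℝ, d₀ = min (sl μ s) (1 - sl μ s) := ⟨_, rfl⟩
  have hd₀0 : 0 < d₀ := by
    rw [hd₀]
    have h1 := h.sl_pos
    have h2 := h.sl_lt
    exact lt_min h1 (by linarith)
  obtain ⟨n₃, hn₃⟩ : ∃ n₃ : ℕ, ∀ n : ℕ, n₃ ≤ n → C₃ * K * wd' μ s 1 / d₀ ≤ (n : ℝ) ^ a := by
    have h1 : Tendsto (fun n : ℕ => (n : ℝ) ^ a) atTop atTop := (tendsto_rpow_atTop ha).comp tendsto_natCast_atTop_atTop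
    exact eventually_atTop.1 (h1.eventually_ge_atTop _)
  obtain ⟨n₄, hn₄⟩ := eventually_atTop.1 ((wd_tendsto h).eventually_ge_atTop (2 / c))
  obtain ⟨b, hb⟩ : ∃ b : ℝ, b = 2 ^ j * C' / q := ⟨_, rfl⟩
  have hb0 : 0 < b := by rw [hb]; positivity
  refine ⟨max 1 (b * K₂), R * K + 2 + C₃, le_max_left _ _, by nlinarith, 2 ^ j * (n₁ + n₂ + n₃ + n₄ + 1), fun i hi x k hk => ?_⟩
  have hji : j ≤ i := by
    have h1 : 2 ^ j ≤ 2 ^ i := le_trans (Nat.le_mul_of_pos_right _ (by omega)) hi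
    exact (Nat.pow_le_pow_iff_right (by norm_num)).1 h1
  obtain ⟨τ, hτ⟩ : ∃ τ : ℕ, τ = 2 ^ (i - j) := ⟨_, rfl⟩
  have hqτ : 2 ^ j * τ = 2 ^ i := by
    rw [hτ, ← pow_add]
    congr 1
    omega
  have hτN : n₁ + n₂ + n₃ + n₄ + 1 ≤ τ := by
    rw [← hqτ] at hi
    exact Nat.le_of_mul_le_mul_left hi (by positivity)
  obtain ⟨n, hn⟩ : ∃ n : ℕ, n = 2 ^ i := ⟨_, rfl⟩
  rw [← hn] at hqτ hk ⊢
  have hτ1 : 1 ≤ τ := by omega
  have hτn : τ ≤ n := by
    rw [← hqτ]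
    exact Nat.le_mul_of_pos_left _ (by positivity)
  have hn1 : 1 ≤ n := hτ1.trans hτn
  have hnR : (0 : ℝ) < n := by exact_mod_cast hn1
  have hτR : (0 : ℝ) < τ := by exact_mod_cast hτ1
  have h2j : (0 : ℝ) < 2 ^ j := by positivity
  have hqτR : (2 : ℝ) ^ j * τ = n := by exact_mod_cast hqτ
  have hratio : (n : ℝ) / τ = 2 ^ j := by
    rw [← hqτR]
    field_simp
  have hww1 : 1 ≤ wd' μ s n := le_max_left _ _
  obtain ⟨w1, w2, w3⟩ := hw τ n hτ1 hτn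
  rw [hratio] at w3
  obtain ⟨w1', w2', w3'⟩ := hw 1 n le_rfl hn1
  obtain ⟨e1, e2, e3⟩ := hn₂ τ (by omega)
  -- the cone
  have hcone : C₃ * wd' μ s n ≤ d₀ * n := by
    have h1 := hn₃ n (by omega)
    rw [div_le_iff₀ hd₀0] at h1
    rw [Nat.cast_one, div_one] at w3'
    have h2 : (n : ℝ) ^ (1 - a) * (n : ℝ) ^ a = n := by
      rw [← Real.rpow_add hnR]
      simp
    have h3 : 0 ≤ (n : ℝ) ^ (1 - a) := by positivity
    calc C₃ * wd' μ s n ≤ C₃ * (K * (n : ℝ) ^ (1 - a) * wd' μ s 1) := by gcongr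
      _ = (n : ℝ) ^ (1 - a) * (C₃ * K * wd' μ s 1) := by ring
      _ ≤ (n : ℝ) ^ (1 - a) * ((n : ℝ) ^ a * d₀) := mul_le_mul_of_nonneg_left h1 h3
      _ = d₀ * ((n : ℝ) ^ (1 - a) * (n : ℝ) ^ a) := by ring
      _ = d₀ * n := by rw [h2]
  have hkk := abs_le.1 (hk.trans hcone)
  have hda : d₀ * n ≤ sl μ s * n := mul_le_mul_of_nonneg_right (by rw [hd₀]; exact min_le_left _ _) hnR.le
  have hdb : d₀ * n ≤ (1 - sl μ s) * n := mul_le_mul_of_nonneg_right (by rw [hd₀]; exact min_le_right _ _) hnR.le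
  have hk0 : 0 ≤ k := by
    have h1 : (0 : ℝ) ≤ k := by linarith [hkk.1]
    exact_mod_cast h1
  have hk1 : k ≤ (n : ℤ) := by
    have h1 : (k : ℝ) ≤ n := by linarith [hkk.2]
    exact_mod_cast h1
  -- the slope
  have hsl : |(k : ℝ) / (n : ℝ) * τ - sl μ s * τ| + 1 ≤ c * wd μ s τ := by
    have h1 : (k : ℝ) / (n : ℝ) * τ - sl μ s * τ = ((k : ℝ) - sl μ s * n) / 2 ^ j := by
      rw [← hqτR]
      field_simp
    rw [h1, abs_div, abs_of_pos h2j]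
    have h2 : |(k : ℝ) - sl μ s * n| / 2 ^ j ≤ c / 2 * wd μ s τ := by
      rw [div_le_iff₀ (by positivity)]
      refine hk.trans ?_
      have h3 : 2 * C₃ * K ≤ c * ((2 : ℝ) ^ j) ^ a := by
        rw [div_le_iff₀ hc0] at hj
        linarith
      have h4 : ((2 : ℝ) ^ j) ^ (1 - a) * ((2 : ℝ) ^ j) ^ a = 2 ^ j := by
        rw [← Real.rpow_add h2j]
        simp
      have h5 : 0 ≤ ((2 : ℝ) ^ j) ^ (1 - a) := by positivity
      have h6 : 0 ≤ wd' μ s τ := zero_le_one.trans (le_max_left _ _)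
      calc C₃ * wd' μ s n ≤ C₃ * (K * ((2 : ℝ) ^ j) ^ (1 - a) * wd' μ s τ) := by gcongr
        _ = ((2 : ℝ) ^ j) ^ (1 - a) * wd' μ s τ * (2 * C₃ * K) / 2 := by ring
        _ ≤ ((2 : ℝ) ^ j) ^ (1 - a) * wd' μ s τ * (c * ((2 : ℝ) ^ j) ^ a) / 2 := by
            have := mul_le_mul_of_nonneg_left h3 (show 0 ≤ ((2 : ℝ) ^ j) ^ (1 - a) * wd' μ s τ by positivity)
            linarith
        _ = (((2 : ℝ) ^ j) ^ (1 - a) * ((2 : ℝ) ^ j) ^ a) * (c * wd' μ s τ) / 2 := by ring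
        _ = c / 2 * wd μ s τ * 2 ^ j := by rw [h4, e1]; ring
    have h7 := hn₄ τ (by omega)
    rw [div_le_iff₀ hc0] at h7
    linarith
  have hmain := hl τ (by omega) (2 ^ j) x k (St μ s ((R * K + 2 + C₃) * wd' μ s n) x) hk0 (by rw [hqτ]; exact hk1)
    (by rw [hqτ]; exact hsl) (by
      intro p hp1 hp2 hp
      rw [hqτ] at hp hp2
      show |((p.2 - x.2 : ℤ) : ℝ) - sl μ s * ((p.1 - x.1 : ℤ) : ℝ)| ≤ (R * K + 2 + C₃) * wd' μ s n
      have hs0 : (0 : ℝ) ≤ ((p.1 - x.1 : ℤ) : ℝ) := by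
        have : 0 ≤ p.1 - x.1 := by omega
        exact_mod_cast this
      have hs1 : ((p.1 - x.1 : ℤ) : ℝ) ≤ n := by
        have : p.1 - x.1 ≤ (n : ℤ) := by omega
        exact_mod_cast this
      have h1 : ((p.2 - x.2 : ℤ) : ℝ) - sl μ s * ((p.1 - x.1 : ℤ) : ℝ) =
          (((p.2 - x.2 : ℤ) : ℝ) - (k : ℝ) / (n : ℝ) * ((p.1 - x.1 : ℤ) : ℝ)) +
            ((k : ℝ) - sl μ s * n) * (((p.1 - x.1 : ℤ) : ℝ) / n) := by
        field_simp
        ring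
      rw [h1]
      refine (abs_add_le _ _).trans ?_
      rw [abs_mul ((k : ℝ) - sl μ s * n), abs_of_nonneg (show 0 ≤ ((p.1 - x.1 : ℤ) : ℝ) / n by positivity)]
      have h2 : |(k : ℝ) - sl μ s * n| * (((p.1 - x.1 : ℤ) : ℝ) / n) ≤ (C₃ * wd' μ s n) * 1 :=
        mul_le_mul hk ((div_le_one hnR).2 hs1) (by positivity) (by positivity)
      have h3 : wd μ s τ ≤ K * wd' μ s n := by rw [← e1]; exact w1
      have h4 := mul_le_mul_of_nonneg_left h3 hR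
      nlinarith) Nat.one_le_two_pow
  rw [hqτ] at hmain
  refine le_trans (measureReal_mono (fun η hη => ?_) (measure_ne_top _ _)) ((hmain.2 b hb0).trans ?_)
  · rw [Set.mem_ofPred_eq] at hη ⊢
    refine hη.trans_le (Real.exp_le_exp.2 (neg_le_neg ?_))
    have h1 : EE μ s τ ≤ K₂ * EE' μ s n := by
      rw [← e2]
      exact (hE τ n hτ1 hτn).1
    have hE0 : 0 ≤ EE' μ s n := zero_le_one.trans (le_max_left _ _)
    calc b * EE μ s τ ≤ b * (K₂ * EE' μ s n) := mul_le_mul_of_nonneg_left h1 hb0.le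
      _ = b * K₂ * EE' μ s n := by ring
      _ ≤ max 1 (b * K₂) * EE' μ s n := mul_le_mul_of_nonneg_right (le_max_right _ _) hE0
  · rw [hb]
    push_cast
    have : (2 : ℝ) ^ j * C' / (2 ^ j * C' / q) = q := by field_simp
    exact this.le

/-- Some good event of the first family is followed by an independent good event. -/
theorem first_good {U V : Set Pt} (hUV : Disjoint U V) (q : ℝ) (E B : ℤ → Set Env) (hE : ∀ y, MeasurableSet (E y))
    (hB : ∀ y, MeasurableSet (B y)) (dE : ∀ (y : ℤ) (η η' : Env), (∀ p ∈ U, η p = η' p) → (η ∈ E y ↔ η' ∈ E y))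
    (dB : ∀ (y : ℤ) (η η' : Env), (∀ p ∈ V, η p = η' p) → (η ∈ B y ↔ η' ∈ B y)) (s : Finset ℤ)
    (hq : ∀ y ∈ s, (E y).Nonempty → q ≤ (law μ).real (B y)) : ∀ F : Set Env, MeasurableSet F →
      (∀ η η' : Env, (∀ p ∈ U, η p = η' p) → (η ∈ F ↔ η' ∈ F)) →
      q * (law μ).real (F ∩ ⋃ y ∈ s, E y) ≤ (law μ).real (F ∩ ⋃ y ∈ s, (E y ∩ B y)) := by
  classical
  induction s using Finset.induction_on with
  | empty =>
    intro F _ _
    simp
  | insert z s hz ih =>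
    intro F hF dF
    have hEB : ∀ t : Finset ℤ, MeasurableSet (⋃ y ∈ t, (E y ∩ B y)) := fun t => t.measurableSet_biUnion fun y _ => (hE y).inter (hB y)
    have hEE : ∀ t : Finset ℤ, MeasurableSet (⋃ y ∈ t, E y) := fun t => t.measurableSet_biUnion fun y _ => hE y
    have ih' := ih (fun y hy => hq y (Finset.mem_insert_of_mem hy)) (F ∩ (E z)ᶜ) (hF.inter (hE z).compl) (fun η η' h => by
      rw [Set.mem_inter_iff, Set.mem_inter_iff, Set.mem_compl_iff, Set.mem_compl_iff, dF η η' h, dE z η η' h])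
    have h1 : F ∩ ⋃ y ∈ insert z s, E y = (F ∩ E z) ∪ ((F ∩ (E z)ᶜ) ∩ ⋃ y ∈ s, E y) := by
      rw [Finset.set_biUnion_insert]
      ext η
      simp only [Set.mem_inter_iff, Set.mem_union, Set.mem_compl_iff]
      tauto
    have h2 : (F ∩ E z ∩ B z) ∪ ((F ∩ (E z)ᶜ) ∩ ⋃ y ∈ s, (E y ∩ B y)) ⊆ F ∩ ⋃ y ∈ insert z s, (E y ∩ B y) := by
      rw [Finset.set_biUnion_insert]
      rintro η (⟨⟨h3, h4⟩, h5⟩ | ⟨⟨h3, -⟩, h4⟩)
      · exact ⟨h3, Or.inl ⟨h4, h5⟩⟩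
      · exact ⟨h3, Or.inr h4⟩
    have h3 : Disjoint (F ∩ E z ∩ B z) ((F ∩ (E z)ᶜ) ∩ ⋃ y ∈ s, (E y ∩ B y)) := by
      rw [Set.disjoint_left]
      rintro η ⟨⟨-, h4⟩, -⟩ ⟨⟨-, h5⟩, -⟩
      exact h5 h4
    have h4 : (law μ).real (F ∩ ⋃ y ∈ insert z s, E y) ≤ (law μ).real (F ∩ E z) + (law μ).real ((F ∩ (E z)ᶜ) ∩ ⋃ y ∈ s, E y) := by
      rw [h1]
      exact measureReal_union_le _ _
    have h5 : (law μ).real (F ∩ E z ∩ B z) + (law μ).real ((F ∩ (E z)ᶜ) ∩ ⋃ y ∈ s, (E y ∩ B y)) ≤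
        (law μ).real (F ∩ ⋃ y ∈ insert z s, (E y ∩ B y)) := by
      rw [← measureReal_union h3 ((hF.inter (hE z).compl).inter (hEB s))]
      exact measureReal_mono h2 (measure_ne_top _ _)
    have h6 : q * (law μ).real (F ∩ E z) ≤ (law μ).real (F ∩ E z ∩ B z) := by
      rw [Pool.Agent.W_7d29a1_HL.real_inter_indep (hF.inter (hE z)) (hB z) (S := U) (S' := V) (fun η η' h => by
        rw [Set.mem_inter_iff, Set.mem_inter_iff, dF η η' h, dE z η η' h]) (dB z) hUV]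
      by_cases hne : (E z).Nonempty
      · have h7 := hq z (Finset.mem_insert_self _ _) hne
        have h8 : 0 ≤ (law μ).real (F ∩ E z) := measureReal_nonneg
        nlinarith
      · rw [Set.not_nonempty_iff_eq_empty.1 hne]
        simp
    by_cases hq0 : 0 ≤ q
    · have h7 := mul_le_mul_of_nonneg_left h4 hq0
      linarith
    · have h7 : q * (law μ).real (F ∩ ⋃ y ∈ insert z s, E y) ≤ 0 :=
        mul_nonpos_of_nonpos_of_nonneg (not_le.1 hq0).le measureReal_nonneg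
      exact h7.trans measureReal_nonneg

theorem WR_end {s : ℝ} (R : Set Pt) (η : Env) (a : Pt) {n : ℕ} (hn : 1 ≤ n) {y : ℤ} (h : ((a.1 + n, a.2 + y) : Pt) ∉ R) :
    WR μ s R η a n y = 0 := by
  obtain ⟨m, rfl⟩ : ∃ m, n = m + 1 := ⟨n - 1, by omega⟩
  unfold WR
  have h1 : Zr R η a (m + 1) y = 0 := by
    show R.indicator (fun p => Real.exp (η p)) (a.1 + ((m : ℤ) + 1), a.2 + y) * (Zr R η a m y + Zr R η a m (y - 1)) = 0
    rw [Set.indicator_of_notMem, zero_mul]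
    intro h2
    apply h
    push_cast
    exact h2
  rw [h1, mul_zero]

/-- (L2) The luck, for every end point `k` within two sites of the line of slope `sl μ s`. -/
theorem luck (h : In μ s c C n₀) : ∃ Rc : ℝ, 1 ≤ Rc ∧ ∀ K : ℝ, ∃ p : ℝ, 0 < p ∧ ∃ n₁ : ℕ, ∀ i : ℕ, n₁ ≤ 2 ^ i →
    ∀ (a : Pt) (k : ℤ), |(k : ℝ) - sl μ s * (2 * 2 ^ i : ℕ)| ≤ 2 → p ≤ (law μ).real {η | Real.exp (K * EE' μ s (2 ^ i)) ≤
      WR μ s (St μ s (Rc * wd' μ s (2 ^ i)) a) η a (2 * 2 ^ i) k} := by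
  obtain ⟨R₁, hR₁, hst⟩ := Pool.Agent.W_7d29a1_HL.strip h
  obtain ⟨A, R, hA, hR, n₁, hleg⟩ := leg h (1 / 2) (R₁ + 2) (by norm_num) (by linarith)
  obtain ⟨n₂, hn₂⟩ := Pool.Agent.W_7d29a1_HZ.wd'_eq h
  have hC1 := h.C1
  refine ⟨R + R₁, by linarith, fun K => ?_⟩
  obtain ⟨K₀, hK₀⟩ : ∃ K₀ : ℝ, K₀ = max K 0 := ⟨_, rfl⟩
  have hKK : K ≤ K₀ := by rw [hK₀]; exact le_max_left _ _
  have hK0 : 0 ≤ K₀ := by rw [hK₀]; exact le_max_right _ _
  obtain ⟨p, hp, n₃, hn₃⟩ := hst (K₀ + A + C + 2)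
  refine ⟨1 / 2 * p, by positivity, max n₁ (max n₂ n₃) + 1, fun i hi a k hk => ?_⟩
  have hi1 : n₁ ≤ 2 ^ i := by
    have := le_max_left n₁ (max n₂ n₃)
    omega
  have hi2 : n₂ ≤ 2 ^ i := by
    have := (le_max_left n₂ n₃).trans (le_max_right n₁ (max n₂ n₃))
    omega
  have hi3 : n₃ ≤ 2 ^ i := by
    have := (le_max_right n₂ n₃).trans (le_max_right n₁ (max n₂ n₃))
    omega
  obtain ⟨n, hn⟩ : ∃ n : ℕ, n = 2 ^ i := ⟨_, rfl⟩
  have hlg := hleg i hi1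
  rw [← hn] at hlg hi2 hi3 hk ⊢
  have hn1 : 1 ≤ n := by rw [hn]; exact Nat.one_le_two_pow
  obtain ⟨e1, e2, -⟩ := hn₂ n hi2
  rw [e2]
  have hE1 : 1 ≤ EE μ s n := one_le_EE n
  have hnR : (1 : ℝ) ≤ n := by exact_mod_cast hn1
  have hw1 : 1 ≤ wd' μ s n := le_max_left _ _
  have hw0 : 0 ≤ wd' μ s n := zero_le_one.trans hw1
  have hlog : Real.log (n + 1) ≤ (C + 1) * EE μ s n := by
    have h1 := h.lg n hn1
    have h2 : Real.log (n + 1) ≤ Real.log (2 * n) := Real.log_le_log (by linarith) (by linarith)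
    rw [Real.log_mul (by norm_num) (by linarith)] at h2
    have h3 : Real.log 2 ≤ 1 := by
      have := Real.log_two_lt_d9
      linarith
    nlinarith
  obtain ⟨E, hEd⟩ : ∃ E : ℤ → Set Env, E = fun y => {η | Real.exp ((K₀ + A) * EE μ s n) ≤ WR μ s (St μ s (R₁ * wd μ s n) a) η a n y} :=
    ⟨_, rfl⟩
  obtain ⟨B, hBd⟩ : ∃ B : ℤ → Set Env, B = fun y => {η | Real.exp (-(A * EE' μ s n)) ≤
      WR μ s (St μ s (R * wd' μ s n) (a.1 + n, a.2 + y)) η (a.1 + n, a.2 + y) n (k - y)} := ⟨_, rfl⟩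
  have hEm : ∀ y, MeasurableSet (E y) := fun y => by
    rw [hEd]
    exact measurableSet_le measurable_const (measurable_WR _ _ _ _)
  have hBm : ∀ y, MeasurableSet (B y) := fun y => by
    rw [hBd]
    exact measurableSet_le measurable_const (measurable_WR _ _ _ _)
  have hUV : Disjoint (rows a.1 (a.1 + n)) (rows (a.1 + n) (a.1 + n + n)) := by
    rw [Set.disjoint_left]
    intro q h1 h2
    have h3 := h1.2
    have h4 := h2.1
    omega
  have dE : ∀ (y : ℤ) (η η' : Env), (∀ p ∈ rows a.1 (a.1 + n), η p = η' p) → (η ∈ E y ↔ η' ∈ E y) := by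
    intro y η η' hh
    have h1 := WR_dep (μ := μ) (s := s) (St μ s (R₁ * wd μ s n) a) a n y (fun p hp => hh p ⟨hp.1.1, hp.1.2.1⟩)
    dsimp only at h1
    rw [hEd]
    simp only [Set.mem_ofPred_eq]
    rw [h1]
  have dB : ∀ (y : ℤ) (η η' : Env), (∀ p ∈ rows (a.1 + n) (a.1 + n + n), η p = η' p) → (η ∈ B y ↔ η' ∈ B y) := by
    intro y η η' hh
    have h1 := WR_dep (μ := μ) (s := s) (St μ s (R * wd' μ s n) (a.1 + n, a.2 + y)) (a.1 + n, a.2 + y) n (k - y)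
      (fun p hp => hh p ⟨hp.1.1, hp.1.2.1⟩)
    dsimp only at h1
    rw [hBd]
    simp only [Set.mem_ofPred_eq]
    rw [h1]
  have hend : ∀ (y : ℤ) (η : Env), η ∈ E y → |(y : ℝ) - sl μ s * n| ≤ (R₁ * wd' μ s n) := by
    intro y η hη
    by_contra hcon
    have h1 : WR μ s (St μ s (R₁ * wd μ s n) a) η a n y = 0 := WR_end _ η a hn1 fun h2 => hcon (by
      have h3 : |((a.2 + y - a.2 : ℤ) : ℝ) - sl μ s * ((a.1 + (n : ℤ) - a.1 : ℤ) : ℝ)| ≤ R₁ * wd μ s n := h2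
      rw [e1]
      rw [add_sub_cancel_left, add_sub_cancel_left, Int.cast_natCast] at h3
      exact h3)
    rw [hEd] at hη
    have h2 : Real.exp ((K₀ + A) * EE μ s n) ≤ WR μ s (St μ s (R₁ * wd μ s n) a) η a n y := hη
    rw [h1] at h2
    exact absurd h2 (not_le.2 (Real.exp_pos _))
  have hneB : ∀ y ∈ Icc (0 : ℤ) n, (E y).Nonempty → 1 / 2 ≤ (law μ).real (B y) := by
    rintro y hy ⟨η, hη⟩
    have h1 := hlg (a.1 + n, a.2 + y) (k - y) (by
      have h2 := hend y η hη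
      push_cast at hk ⊢
      rw [abs_le] at h2 hk ⊢
      constructor <;> nlinarith)
    have h2 : (B y)ᶜ = {η | WR μ s (St μ s (R * wd' μ s n) (a.1 + n, a.2 + y)) η (a.1 + n, a.2 + y) n (k - y) <
        Real.exp (-(A * EE' μ s n))} := by
      rw [hBd]
      ext η
      simp only [Set.mem_compl_iff, Set.mem_ofPred_eq, not_le]
    rw [← h2, measureReal_compl (hBm y), probReal_univ] at h1
    linarith
  have hmain := first_good (μ := μ) hUV (1 / 2) E B hEm hBm dE dB (Icc (0 : ℤ) n) hneB Set.univ MeasurableSet.univ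
    (fun _ _ _ => Iff.rfl)
  rw [Set.univ_inter, Set.univ_inter] at hmain
  have hp' : p ≤ (law μ).real (⋃ y ∈ Icc (0 : ℤ) n, E y) := by
    refine (hn₃ n hi3 a).trans (measureReal_mono (fun η hη => ?_) (measure_ne_top _ _))
    by_contra hcon
    rw [Set.mem_iUnion₂] at hcon
    push Not at hcon
    have h1 : cf μ s (R₁ * wd μ s n) η a n ≤ (n + 1) * Real.exp ((K₀ + A) * EE μ s n) := by
      unfold cf
      have h2 : ∀ y ∈ Icc (0 : ℤ) n, WR μ s (St μ s (R₁ * wd μ s n) a) η a n y ≤ Real.exp ((K₀ + A) * EE μ s n) := fun y hy => by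
        have h3 := hcon y hy
        rw [hEd] at h3
        exact (not_le.1 h3).le
      refine (Finset.sum_le_sum h2).trans (le_of_eq ?_)
      rw [Finset.sum_const, Int.card_Icc, nsmul_eq_mul]
      have h4 : ((n : ℤ) + 1 - 0).toNat = n + 1 := by omega
      rw [h4]
      push_cast
      ring
    have h2 : (K₀ + A + C + 2) * EE μ s n ≤ Real.log (cf μ s (R₁ * wd μ s n) η a n) := hη
    have h3 : 0 < Real.log (cf μ s (R₁ * wd μ s n) η a n) := by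
      refine lt_of_lt_of_le ?_ h2
      have : 0 < K₀ + A + C + 2 := by linarith
      positivity
    have h4 : 0 < cf μ s (R₁ * wd μ s n) η a n := by
      by_contra h5
      have h6 : cf μ s (R₁ * wd μ s n) η a n = 0 :=
        le_antisymm (not_lt.1 h5) (Finset.sum_nonneg fun _ _ => WR_nonneg _ _ _ _ _)
      rw [h6, Real.log_zero] at h3
      exact lt_irrefl _ h3
    have h5 := Real.log_le_log h4 h1
    rw [Real.log_mul (by positivity) (Real.exp_pos _).ne', Real.log_exp] at h5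
    have e3 : (K₀ + A + C + 2) * EE μ s n = (C + 1) * EE μ s n + (K₀ + A) * EE μ s n + EE μ s n := by ring
    linarith
  have hsub : (⋃ y ∈ Icc (0 : ℤ) n, (E y ∩ B y)) ⊆ {η | Real.exp (K * EE μ s n) ≤
      WR μ s (St μ s ((R + R₁) * wd' μ s n) a) η a (2 * n) k} := by
    intro η hη
    rw [Set.mem_iUnion₂] at hη
    obtain ⟨y, hy, hyE, hyB⟩ := hη
    have hnd := hend y η hyE
    rw [hEd] at hyE
    rw [hBd] at hyB
    have h1 : Real.exp ((K₀ + A) * EE μ s n) ≤ WR μ s (St μ s ((R + R₁) * wd' μ s n) a) η a n y := by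
      have h1' : Real.exp ((K₀ + A) * EE μ s n) ≤ WR μ s (St μ s (R₁ * wd μ s n) a) η a n y := hyE
      refine h1'.trans (Pool.Agent.W_7d29a1_HS.WR_mono_on η a _ _ fun p hp _ _ => ?_)
      have h2 : |((p.2 - a.2 : ℤ) : ℝ) - sl μ s * ((p.1 - a.1 : ℤ) : ℝ)| ≤ R₁ * wd μ s n := hp
      show |((p.2 - a.2 : ℤ) : ℝ) - sl μ s * ((p.1 - a.1 : ℤ) : ℝ)| ≤ (R + R₁) * wd' μ s n
      rw [← e1] at h2
      refine h2.trans ?_
      nlinarith
    have h2 : Real.exp (-(A * EE μ s n)) ≤ WR μ s (St μ s ((R + R₁) * wd' μ s n) a) η (a.1 + n, a.2 + y) n (k - y) := by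
      have h2' : Real.exp (-(A * EE' μ s n)) ≤
        WR μ s (St μ s (R * wd' μ s n) (a.1 + n, a.2 + y)) η (a.1 + n, a.2 + y) n (k - y) := hyB
      rw [e2] at h2'
      refine h2'.trans (Pool.Agent.W_7d29a1_HS.WR_mono_on η _ _ _ fun p hp _ _ => ?_)
      have h3 : |((p.2 - (a.2 + y) : ℤ) : ℝ) - sl μ s * ((p.1 - (a.1 + (n : ℤ)) : ℤ) : ℝ)| ≤ R * wd' μ s n := hp
      show |((p.2 - a.2 : ℤ) : ℝ) - sl μ s * ((p.1 - a.1 : ℤ) : ℝ)| ≤ (R + R₁) * wd' μ s n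
      have h4 : ((p.2 - a.2 : ℤ) : ℝ) - sl μ s * ((p.1 - a.1 : ℤ) : ℝ) =
        (((p.2 - (a.2 + y) : ℤ) : ℝ) - sl μ s * ((p.1 - (a.1 + (n : ℤ)) : ℤ) : ℝ)) + ((y : ℝ) - sl μ s * n) := by
        push_cast
        ring
      rw [h4]
      refine (abs_add_le _ _).trans ?_
      linarith
    show Real.exp (K * EE μ s n) ≤ WR μ s (St μ s ((R + R₁) * wd' μ s n) a) η a (2 * n) k
    rw [two_mul, WR_add]
    refine le_trans ?_ (Finset.single_le_sum (f := fun k' : ℤ => WR μ s (St μ s ((R + R₁) * wd' μ s n) a) η a n k' *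
      WR μ s (St μ s ((R + R₁) * wd' μ s n) a) η (a.1 + n, a.2 + k') n (k - k'))
      (fun k _ => mul_nonneg (WR_nonneg _ _ _ _ _) (WR_nonneg _ _ _ _ _)) hy)
    refine le_trans ?_ (mul_le_mul h1 h2 (Real.exp_nonneg _) (WR_nonneg _ _ _ _ _))
    rw [← Real.exp_add]
    refine Real.exp_le_exp.2 ?_
    nlinarith
  have := measureReal_mono (μ := law μ) hsub (measure_ne_top _ _)
  linarith

end

end Pool.Agent.W_7d29a1_HZ.ZE
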