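import Pool.Agent.W_7d29a1_HZ.Z94_TiltB
import Pool.Agent.W_7d29a1_G.SecA3
import Pool.Agent.W_7d29a1_F.Bridge2

/-!
MP_7d29a1_pr, STORM Z, Lemma NS (1), TILT LLN: convergence of the means of the tilted free energies, beyond the scale `r` of the tilt.
-/

set_option autoImplicit false

namespace Pool.Agent.W_7d29a1_HZ.Z94

open MeasureTheory ProbabilityTheory Filter Topology
open Pool.Agent.W_7d29a1_F Pool.Agent.W_7d29a1_h4g Pool.Agent.W_7d29a1_H Pool.Agent.W_7d29a1_HS

noncomputable section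

variable {μ : Measure ℝ} [IsProbabilityMeasure μ]

/-- (T2a) the log-Laplace transforms of the tilted free energies, at the tilts `|t| wd r ≤ (c / 2) EE r`. -/
def PsiT (μ : Measure ℝ) (s c C q K : ℝ) (n₁ : ℕ) : Prop := ∀ r : ℕ, n₁ ≤ r → ∀ t : ℝ, |t| * wd μ s r ≤ c / 2 * EE μ s r →
  ∀ n j : ℕ, Real.log (∫ η, Real.exp (1 / (C * EE μ s r * 2 ^ j) * V μ (s + t) η 0 n) ∂(law μ)) ≤
    1 / (C * EE μ s r * 2 ^ j) * ∫ η, V μ (s + t) η 0 n ∂(law μ) + K * (q / 2) ^ j * (((n / r : ℕ) : ℝ) + 1)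

/-- The deficit of the mean (at the tilt `t`, not at `s + t`). -/
def bt (μ : Measure ℝ) (t : ℝ) (n : ℕ) : ℝ := -∫ η, V μ t η 0 n ∂(law μ)

theorem bt_nonneg (hμ : Pool.Agent.W_7d29a1_h47.EM μ) (t : ℝ) (n : ℕ) : 0 ≤ bt μ t n := by
  have := integral_V_nonpos (μ := μ) hμ t n
  unfold bt
  linarith

/-- The deficits are `o(n)`. -/
theorem bt_tendsto (hμ : Pool.Agent.W_7d29a1_h47.EM μ) (t : ℝ) : Tendsto (fun n : ℕ => bt μ t n / n) atTop (𝓝 0) := by
  have h1 := Pool.Agent.W_7d29a1_h47.tendsto_a (μ := μ) hμ (t / 2)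
  have h2 : Tendsto (fun n : ℕ => Pool.Agent.W_7d29a1_h47.Lam μ (t / 2) - Pool.Agent.W_7d29a1_h47.a μ (t / 2) n / n) atTop
      (𝓝 (Pool.Agent.W_7d29a1_h47.Lam μ (t / 2) - Pool.Agent.W_7d29a1_h47.Lam μ (t / 2))) := tendsto_const_nhds.sub h1
  rw [sub_self] at h2
  refine h2.congr' ?_
  filter_upwards [eventually_ge_atTop 1] with n hn
  have hn0 : (n : ℝ) ≠ 0 := by
    have : 0 < n := by omega
    positivity
  unfold bt
  rw [integral_V_eq hμ]
  field_simp
  ring

/-- One step: the free energy of duration `m + n` against the largest free energy of the last part. -/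
theorem bt_step (hμ : Pool.Agent.W_7d29a1_h47.EM μ) (t : ℝ) (m n : ℕ) {θ L : ℝ} (hθ : 0 < θ)
    (hL : Real.log (∫ η, Real.exp (θ * V μ t η 0 n) ∂(law μ)) ≤ L) :
    bt μ t m ≤ bt μ t (m + n) + (Real.log (m + 1) + L) / θ := by
  obtain ⟨M, hM⟩ : ∃ M : ℝ, M = ∫ η, Real.exp (θ * V μ t η 0 n) ∂(law μ) := ⟨_, rfl⟩
  have hI : ∀ a : Pt, Integrable (fun η => Real.exp (θ * V μ t η a n)) (law μ) := fun a =>
    ((Sub_V (μ := μ) (s := t) a n).const_mul θ).exp_int hμ
  have hM0 : 0 < M := by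
    rw [hM]
    exact integral_exp_pos (hI 0)
  have hMa : ∀ a : Pt, ∫ η, Real.exp (θ * V μ t η a n) ∂(law μ) = M := by
    intro a
    have h1 := Pool.Agent.W_7d29a1_G20.sh_integral (μ := μ) (g := fun η => Real.exp (θ * V μ t η 0 n))
      (Real.measurable_exp.comp ((measurable_V 0 n).const_mul θ)) a
    rw [hM, ← h1]
    refine integral_congr_ae (Eventually.of_forall fun η => ?_)
    show _ = Real.exp (θ * V μ t (sh a η) 0 n)
    rw [V_sh, zero_add]
  obtain ⟨A, hA⟩ : ∃ A : ℝ, A = ((m : ℝ) + 1) * M := ⟨_, rfl⟩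
  have hA0 : 0 < A := by
    rw [hA]
    positivity
  obtain ⟨B, hB⟩ : ∃ B : Env → ℝ, B = fun η => (Real.log A - 1 + (∑ y ∈ Finset.Icc (0 : ℤ) m,
    Real.exp (θ * V μ t η ((m : ℤ), y) n)) / A) / θ := ⟨_, rfl⟩
  have hpt : ∀ η, V μ t η 0 (m + n) ≤ V μ t η 0 m + B η := by
    intro η
    rw [← Real.exp_le_exp, Real.exp_add, exp_V_add, exp_V]
    unfold WS
    rw [Finset.sum_mul]
    refine Finset.sum_le_sum fun y hy => mul_le_mul_of_nonneg_left (Real.exp_le_exp.2 ?_) (W_nonneg _ _ _ _)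
    have e1 : ((0 : Pt).1 + (m : ℤ), (0 : Pt).2 + y) = ((m : ℤ), y) := by simp
    rw [e1, hB]
    show _ ≤ (Real.log A - 1 + (∑ y ∈ Finset.Icc (0 : ℤ) m, Real.exp (θ * V μ t η ((m : ℤ), y) n)) / A) / θ
    rw [le_div_iff₀ hθ]
    have h1 : Real.exp (θ * V μ t η ((m : ℤ), y) n) ≤ ∑ y ∈ Finset.Icc (0 : ℤ) m, Real.exp (θ * V μ t η ((m : ℤ), y) n) :=
      Finset.single_le_sum (f := fun y : ℤ => Real.exp (θ * V μ t η ((m : ℤ), y) n)) (fun _ _ => (Real.exp_pos _).le) hy
    have h2 := Real.add_one_le_exp (θ * V μ t η ((m : ℤ), y) n - Real.log A)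
    rw [Real.exp_sub, Real.exp_log hA0] at h2
    have h3 := div_le_div_of_nonneg_right h1 hA0.le
    linarith
  have hBint : Integrable B (law μ) := by
    rw [hB]
    refine Integrable.div_const ?_ _
    refine (integrable_const _).add (Integrable.div_const ?_ _)
    exact integrable_finsetSum _ fun y _ => hI _
  have hBval : ∫ η, B η ∂(law μ) = Real.log A / θ := by
    rw [hB]
    rw [integral_div, integral_add (integrable_const _) ((integrable_finsetSum _ fun y _ => hI _).div_const _),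
      integral_div, integral_finsetSum _ fun y _ => hI _]
    simp only [hMa, Finset.sum_const, Int.card_Icc, nsmul_eq_mul, integral_const, probReal_univ, smul_eq_mul, one_mul]
    have e1 : (((m : ℤ) + 1 - 0).toNat : ℝ) = (m : ℝ) + 1 := by
      have : ((m : ℤ) + 1 - 0).toNat = m + 1 := by omega
      rw [this]
      push_cast
      ring
    rw [e1, ← hA, div_self hA0.ne']
    ring
  have h1 : ∫ η, V μ t η 0 (m + n) ∂(law μ) ≤ ∫ η, (V μ t η 0 m + B η) ∂(law μ) :=
    integral_mono ((Sub_V 0 (m + n)).integrable hμ) (((Sub_V 0 m).integrable hμ).add hBint) hpt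
  rw [integral_add ((Sub_V 0 m).integrable hμ) hBint, hBval] at h1
  have h2 : Real.log A ≤ Real.log (m + 1) + L := by
    rw [hA, Real.log_mul (by positivity) hM0.ne']
    rw [← hM] at hL
    linarith
  have h3 := div_le_div_of_nonneg_right h2 hθ.le
  unfold bt
  linarith

/-- `k` steps. -/
theorem bt_mul (hμ : Pool.Agent.W_7d29a1_h47.EM μ) (t : ℝ) (k n : ℕ) (_hk : 1 ≤ k) {θ L : ℝ} (hθ : 0 < θ)
    (hL : Real.log (∫ η, Real.exp (θ * V μ t η 0 n) ∂(law μ)) ≤ -(θ * bt μ t n) + L) :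
    k * bt μ t n ≤ bt μ t (k * n) + k * ((Real.log (k * n + 1) + L) / θ) := by
  have hlog : ∀ i : ℕ, i ≤ k → Real.log ((i * n : ℕ) + 1) ≤ Real.log (k * n + 1) := by
    intro i hi
    refine Real.log_le_log (by positivity) ?_
    have : i * n ≤ k * n := Nat.mul_le_mul_right n hi
    have h1 : ((i * n : ℕ) : ℝ) ≤ k * n := by exact_mod_cast this
    linarith
  have key : ∀ i : ℕ, i ≤ k → i * bt μ t n ≤ bt μ t (i * n) + i * ((Real.log (k * n + 1) + L) / θ) := by
    intro i
    induction i with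
    | zero =>
      intro _
      have := bt_nonneg (μ := μ) hμ t (0 * n)
      simp only [Nat.cast_zero, zero_mul, add_zero] at this ⊢
      exact this
    | succ i ih =>
      intro hi
      have h1 := ih (by omega)
      have h2 := bt_step (μ := μ) hμ t (i * n) n hθ hL
      have h3 := hlog i (by omega)
      have h4 : (Real.log ((i * n : ℕ) + 1) + (-(θ * bt μ t n) + L)) / θ ≤ -bt μ t n + (Real.log (k * n + 1) + L) / θ := by
        have e1 : -bt μ t n + (Real.log (k * n + 1) + L) / θ = (Real.log (k * n + 1) + (-(θ * bt μ t n) + L)) / θ := by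
          field_simp
          ring
        rw [e1]
        exact div_le_div_of_nonneg_right (by linarith) hθ.le
      have e2 : (i + 1) * n = i * n + n := by ring
      rw [e2]
      push_cast at h2 h4 ⊢
      linarith
  exact key k le_rfl

end

end Pool.Agent.W_7d29a1_HZ.Z94
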