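import Pool.Agent.W_7d29a1_HZ.Z94_TiltC

/-!
MP_7d29a1_pr, STORM Z, Lemma NS (1), TILT LLN: the iteration `N → N ^ 2` and the convergence of the means.
-/

set_option autoImplicit false

namespace Pool.Agent.W_7d29a1_HZ.Z94

open MeasureTheory ProbabilityTheory Filter Topology
open Pool.Agent.W_7d29a1_F Pool.Agent.W_7d29a1_h4g Pool.Agent.W_7d29a1_H Pool.Agent.W_7d29a1_HS

noncomputable section

/-- The iteration `N → N ^ 2`. -/
theorem iter_sq {β : ℕ → ℝ} (hβ : Tendsto β atTop (𝓝 0)) {P K q r : ℝ} (hP : 0 ≤ P) (hK : 0 ≤ K) (hq0 : 0 ≤ q) (hq1 : q < 1)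
    (hr : 0 ≤ r) {N0 : ℕ} (h8 : 8 ≤ N0)
    (hstep : ∀ N : ℕ, N0 ≤ N → ∀ j : ℕ, β N ≤ β (N * N) + P * (K * q ^ j + 2 ^ j * (r * Real.log (N + 1) / N)))
    {N : ℕ} (hN : N0 ≤ N) (j : ℕ) :
    β N ≤ P * (K * (q ^ j / (1 - q)) + 2 ^ (j + 1) * (r * Real.log (N + 1) / N)) := by
  have hq : 0 < 1 - q := by linarith
  have key : ∀ (i N : ℕ), N0 ≤ N → ∀ j : ℕ,
      β N ≤ β (N ^ 2 ^ i) + P * (K * (q ^ j / (1 - q)) + 2 ^ (j + 1) * (r * Real.log (N + 1) / N)) := by
    intro i
    induction i with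
    | zero =>
      intro N hN j
      have hx : 0 ≤ r * Real.log (N + 1) / N := by
        have h0 : (0 : ℝ) ≤ N := Nat.cast_nonneg N
        have : 0 ≤ Real.log (N + 1) := Real.log_nonneg (by linarith)
        positivity
      have : 0 ≤ P * (K * (q ^ j / (1 - q)) + 2 ^ (j + 1) * (r * Real.log (N + 1) / N)) := by positivity
      simp only [pow_zero, pow_one]
      linarith
    | succ i ih =>
      intro N hN j
      have hN8 : (8 : ℝ) ≤ N := by exact_mod_cast h8.trans hN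
      have hN0 : (0 : ℝ) < N := by linarith
      have hNN : N0 ≤ N * N := by
        have : N * 1 ≤ N * N := Nat.mul_le_mul_left N (by omega)
        omega
      have h1 := hstep N hN j
      have h2 := ih (N * N) hNN (j + 1)
      have e1 : (N * N) ^ 2 ^ i = N ^ 2 ^ (i + 1) := by
        rw [← sq, ← pow_mul, pow_succ]
        ring_nf
      rw [e1] at h2
      have hl : Real.log (((N * N : ℕ) : ℝ) + 1) ≤ 2 * Real.log (N + 1) := by
        have e2 : 2 * Real.log (N + 1) = Real.log ((N + 1) ^ 2) := by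
          rw [Real.log_pow]
          push_cast
          ring
        rw [e2]
        refine Real.log_le_log (by positivity) ?_
        push_cast
        nlinarith
      have hl0 : 0 ≤ Real.log ((N : ℝ) + 1) := Real.log_nonneg (by linarith)
      have hx : r * Real.log (((N * N : ℕ) : ℝ) + 1) / ((N * N : ℕ) : ℝ) ≤ r * Real.log (N + 1) / N / 4 := by
        have hNNp : (0 : ℝ) < ((N * N : ℕ) : ℝ) := by
          push_cast
          positivity
        rw [div_div, div_le_div_iff₀ hNNp (by positivity)]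
        have h3 := mul_le_mul_of_nonneg_left hl hr
        have h5 : r * Real.log (((N * N : ℕ) : ℝ) + 1) * (N * 4) ≤ r * (2 * Real.log (N + 1)) * (N * 4) :=
          mul_le_mul_of_nonneg_right h3 (by positivity)
        refine h5.trans ?_
        push_cast
        have h4 : 0 ≤ r * Real.log (N + 1) * N := by positivity
        nlinarith
      have e3 : K * (q ^ j / (1 - q)) = K * q ^ j + K * (q ^ (j + 1) / (1 - q)) := by
        field_simp
        ring
      have h6 : (2 : ℝ) ^ (j + 1 + 1) * (r * Real.log (((N * N : ℕ) : ℝ) + 1) / ((N * N : ℕ) : ℝ)) ≤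
          2 ^ j * (r * Real.log (N + 1) / N) := by
        calc (2 : ℝ) ^ (j + 1 + 1) * (r * Real.log (((N * N : ℕ) : ℝ) + 1) / ((N * N : ℕ) : ℝ))
            ≤ 2 ^ (j + 1 + 1) * (r * Real.log (N + 1) / N / 4) := mul_le_mul_of_nonneg_left hx (by positivity)
          _ = _ := by ring
      have h7 : K * q ^ j + 2 ^ j * (r * Real.log (N + 1) / N) + (K * (q ^ (j + 1) / (1 - q)) +
          2 ^ (j + 1 + 1) * (r * Real.log (((N * N : ℕ) : ℝ) + 1) / ((N * N : ℕ) : ℝ))) ≤
          K * (q ^ j / (1 - q)) + 2 ^ (j + 1) * (r * Real.log (N + 1) / N) := by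
        rw [e3]
        have e4 : (2 : ℝ) ^ (j + 1) * (r * Real.log (N + 1) / N) = 2 * (2 ^ j * (r * Real.log (N + 1) / N)) := by ring
        rw [e4]
        linarith
      have h8' := mul_le_mul_of_nonneg_left h7 hP
      rw [mul_add] at h8'
      linarith
  have ht : Tendsto (fun i : ℕ => β (N ^ 2 ^ i)) atTop (𝓝 0) := by
    refine hβ.comp ?_
    have hN1 : 1 < N := by omega
    exact (tendsto_pow_atTop_atTop_of_one_lt hN1).comp (tendsto_pow_atTop_atTop_of_one_lt (by norm_num))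
  have ht2 := ht.add_const (P * (K * (q ^ j / (1 - q)) + 2 ^ (j + 1) * (r * Real.log (N + 1) / N)))
  rw [zero_add] at ht2
  exact ge_of_tendsto' ht2 fun i => key i N hN j

variable {μ : Measure ℝ} [IsProbabilityMeasure μ] {s c C : ℝ} {n₀ : ℕ}

/-- (T3) the means are close to their limit beyond the scale of the tilt. -/
theorem mean_conv (h : In μ s c C n₀) {q K : ℝ} {n₁ : ℕ} (hq0 : 0 < q) (hq1 : q < 1) (hK : 0 ≤ K) (hT : PsiT μ s c C q K n₁)
    {d c1 : ℝ} (hd : 0 < d) (hc1 : 0 < c1) : ∃ Q : ℝ, 2 ≤ Q ∧ ∃ n₂ : ℕ, ∀ r : ℕ, n₂ ≤ r → ∀ t : ℝ,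
    c1 * EE μ s r ≤ |t| * wd μ s r → |t| * wd μ s r ≤ c / 2 * EE μ s r → ∀ n : ℕ, Q * (r * Real.log (n + 1)) ≤ n →
      bt μ (s + t) n ≤ d * (n * ex μ s t) := by
  obtain ⟨κ, hκ, n₃, hLL⟩ := LL_low h hc1
  have hC1 := h.C1
  have hC0 : 0 < C := by linarith
  obtain ⟨j, hj⟩ : ∃ j : ℕ, 2 * C * (K * (q ^ j / (1 - q))) ≤ d * κ / 2 := by
    have h1 : Tendsto (fun j : ℕ => 2 * C * (K * (q ^ j / (1 - q)))) atTop (𝓝 (2 * C * (K * (0 / (1 - q))))) :=
      (((tendsto_pow_atTop_nhds_zero_of_lt_one hq0.le hq1).div_const _).const_mul K).const_mul _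
    rw [zero_div, mul_zero, mul_zero] at h1
    obtain ⟨j, hj⟩ := (h1.eventually (eventually_lt_nhds (show (0 : ℝ) < d * κ / 2 by positivity))).exists
    exact ⟨j, hj.le⟩
  obtain ⟨Q, hQ⟩ : ∃ Q : ℝ, Q = max 2 (2 * C * 2 ^ (j + 1) / (d * κ / 2)) := ⟨_, rfl⟩
  have hQ2 : 2 ≤ Q := hQ ▸ le_max_left _ _
  have hQ3 : 2 * C * 2 ^ (j + 1) / (d * κ / 2) ≤ Q := hQ ▸ le_max_right _ _
  refine ⟨Q, hQ2, max (max n₁ n₃) 8, fun r hr t ht1 ht2 n hn => ?_⟩
  have hr8 : 8 ≤ r := (le_max_right _ _).trans hr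
  have hrn1 : n₁ ≤ r := (le_max_left _ _).trans ((le_max_left _ _).trans hr)
  have hrn3 : n₃ ≤ r := (le_max_right _ _).trans ((le_max_left _ _).trans hr)
  have hr0 : (0 : ℝ) < r := by
    have : 0 < r := by omega
    exact_mod_cast this
  have hE0 : 0 < EE μ s r := EE_pos r
  rcases Nat.eq_zero_or_pos n with hn0 | hn0
  · subst hn0
    unfold bt
    simp only [V_zero, integral_zero, neg_zero, Nat.cast_zero, zero_mul, mul_zero, le_refl]
  have hnR : (0 : ℝ) < n := by exact_mod_cast hn0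
  have hl0 : Real.log 2 ≤ Real.log (n + 1) := by
    refine Real.log_le_log (by norm_num) ?_
    have : (1 : ℝ) ≤ n := by exact_mod_cast hn0
    linarith
  have hl2 : 1 / 2 < Real.log 2 := by
    have := Real.log_two_gt_d9
    linarith
  have hrn : r ≤ n := by
    have h1 : (r : ℝ) ≤ n := by
      have h2 : (r : ℝ) * (1 / 2) ≤ r * Real.log (n + 1) := mul_le_mul_of_nonneg_left (by linarith) hr0.le
      have h3 : 2 * ((r : ℝ) * (1 / 2)) ≤ Q * (r * Real.log (n + 1)) := by
        have : 0 ≤ (r : ℝ) * (1 / 2) := by positivity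
        nlinarith
      linarith
    exact_mod_cast h1
  have hbt := bt_tendsto (μ := μ) h.em (s + t)
  have hstep : ∀ N : ℕ, r ≤ N → ∀ i : ℕ, (fun n : ℕ => bt μ (s + t) n / n) N ≤ (fun n : ℕ => bt μ (s + t) n / n) (N * N) +
      (2 * C * EE μ s r / r) * (K * q ^ i + 2 ^ i * (r * Real.log (N + 1) / N)) := by
    intro N hN i
    have hNR : (0 : ℝ) < N := by
      have : 0 < N := by omega
      exact_mod_cast this
    have hN1 : 1 ≤ N := by omega
    have h1 := hT r hrn1 t ht2 N i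
    obtain ⟨θ, hθ⟩ : ∃ θ : ℝ, θ = 1 / (C * EE μ s r * 2 ^ i) := ⟨_, rfl⟩
    have hθ0 : 0 < θ := by rw [hθ]; positivity
    rw [← hθ] at h1
    have h2 : Real.log (∫ η, Real.exp (θ * V μ (s + t) η 0 N) ∂(law μ)) ≤ -(θ * bt μ (s + t) N) +
        K * (q / 2) ^ i * (((N / r : ℕ) : ℝ) + 1) := by
      unfold bt
      linarith
    have h3 := bt_mul h.em (s + t) N N hN1 hθ0 h2
    have hdiv : ((N / r : ℕ) : ℝ) + 1 ≤ 2 * (N / r) := by
      have h4 : ((N / r : ℕ) : ℝ) ≤ (N : ℝ) / r := Nat.cast_div_le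
      have h5 : (1 : ℝ) ≤ (N : ℝ) / r := by
        rw [one_le_div hr0]
        exact_mod_cast hN
      linarith
    have hlog : Real.log ((N : ℝ) * N + 1) ≤ 2 * Real.log (N + 1) := by
      have e2 : 2 * Real.log ((N : ℝ) + 1) = Real.log (((N : ℝ) + 1) ^ 2) := by
        rw [Real.log_pow]
        push_cast
        ring
      rw [e2]
      refine Real.log_le_log (by positivity) ?_
      nlinarith
    have h6 : (Real.log ((N : ℝ) * N + 1) + K * (q / 2) ^ i * (((N / r : ℕ) : ℝ) + 1)) / θ ≤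
        N * ((2 * C * EE μ s r / r) * (K * q ^ i + 2 ^ i * (r * Real.log (N + 1) / N))) := by
      have e1 : 1 / θ = C * EE μ s r * 2 ^ i := by
        rw [hθ, one_div_one_div]
      have h7 : Real.log ((N : ℝ) * N + 1) + K * (q / 2) ^ i * (((N / r : ℕ) : ℝ) + 1) ≤
          2 * Real.log (N + 1) + K * (q / 2) ^ i * (2 * (N / r)) :=
        add_le_add hlog (mul_le_mul_of_nonneg_left hdiv (by positivity))
      calc (Real.log ((N : ℝ) * N + 1) + K * (q / 2) ^ i * (((N / r : ℕ) : ℝ) + 1)) / θ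
          ≤ (2 * Real.log (N + 1) + K * (q / 2) ^ i * (2 * (N / r))) / θ := div_le_div_of_nonneg_right h7 hθ0.le
        _ = (2 * Real.log (N + 1) + K * (q / 2) ^ i * (2 * (N / r))) * (1 / θ) := by ring
        _ = (2 * Real.log (N + 1) + K * (q / 2) ^ i * (2 * (N / r))) * (C * EE μ s r * 2 ^ i) := by rw [e1]
        _ = _ := by
          rw [div_pow]
          field_simp
          ring
    have h8 : (N : ℝ) * bt μ (s + t) N ≤ bt μ (s + t) (N * N) + N * (N * ((2 * C * EE μ s r / r) * (K * q ^ i + 2 ^ i * (r * Real.log (N + 1) / N)))) :=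
      h3.trans (by
        have := mul_le_mul_of_nonneg_left h6 hNR.le
        linarith)
    show bt μ (s + t) N / N ≤ bt μ (s + t) (N * N) / ((N * N : ℕ) : ℝ) + _
    have e5 : bt μ (s + t) N / N = (N * bt μ (s + t) N) / ((N : ℝ) * N) := by
      field_simp
    rw [e5]
    push_cast
    have e6 : bt μ (s + t) (N * N) / ((N : ℝ) * N) + 2 * C * EE μ s r / r * (K * q ^ i + 2 ^ i * (r * Real.log (N + 1) / N)) =
        (bt μ (s + t) (N * N) + N * (N * ((2 * C * EE μ s r / r) * (K * q ^ i + 2 ^ i * (r * Real.log (N + 1) / N))))) / ((N : ℝ) * N) := by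
      field_simp
    rw [e6]
    exact div_le_div_of_nonneg_right h8 (by positivity)
  have hfin := iter_sq hbt (P := 2 * C * EE μ s r / r) (by positivity) hK hq0.le hq1 hr0.le hr8 hstep hrn j
  have hκL := hLL r hrn3 t ht1
  -- the two errors
  have hx : r * Real.log (n + 1) / n ≤ 1 / Q := by
    rw [div_le_div_iff₀ hnR (by linarith)]
    linarith
  have h1 : 2 * C * (2 ^ (j + 1) * (r * Real.log (n + 1) / n)) ≤ d * κ / 2 := by
    have h2 : 2 * C * (2 ^ (j + 1) * (r * Real.log (n + 1) / n)) ≤ 2 * C * (2 ^ (j + 1) * (1 / Q)) :=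
      mul_le_mul_of_nonneg_left (mul_le_mul_of_nonneg_left hx (by positivity)) (by positivity)
    refine h2.trans ?_
    have hQ0 : 0 < Q := by linarith
    have h3 : 2 * C * (2 ^ (j + 1) * (1 / Q)) = 2 * C * 2 ^ (j + 1) / Q := by ring
    rw [h3, div_le_iff₀ hQ0]
    rw [div_le_iff₀ (by positivity)] at hQ3
    linarith
  have h2 : 2 * C * EE μ s r / r * (K * (q ^ j / (1 - q)) + 2 ^ (j + 1) * (r * Real.log (n + 1) / n)) ≤ d * κ * (EE μ s r / r) := by
    have e1 : 2 * C * EE μ s r / r * (K * (q ^ j / (1 - q)) + 2 ^ (j + 1) * (r * Real.log (n + 1) / n)) =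
        (2 * C * (K * (q ^ j / (1 - q))) + 2 * C * (2 ^ (j + 1) * (r * Real.log (n + 1) / n))) * (EE μ s r / r) := by ring
    rw [e1]
    exact mul_le_mul_of_nonneg_right (by linarith) (by positivity)
  have h3 : bt μ (s + t) n / n ≤ d * κ * (EE μ s r / r) := hfin.trans h2
  have h4 : κ * (EE μ s r / r) ≤ ex μ s t := by
    have : κ * (EE μ s r / r) = κ * EE μ s r / r := by ring
    rw [this, div_le_iff₀ hr0]
    linarith
  have h5 : bt μ (s + t) n / n ≤ d * ex μ s t := by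
    have := mul_le_mul_of_nonneg_left h4 hd.le
    linarith
  rw [div_le_iff₀ hnR] at h5
  linarith

end

end Pool.Agent.W_7d29a1_HZ.Z94
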