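import Pool.Agent.W_7d29a1_HZ.Z94_TiltE

/-!
MP_7d29a1_pr, STORM Z, Lemma NS (1), TILT LLN: truncations in one slab.
-/

set_option autoImplicit false

namespace Pool.Agent.W_7d29a1_HZ.Z94

open MeasureTheory ProbabilityTheory Filter Topology
open Pool.Agent.W_7d29a1_F Pool.Agent.W_7d29a1_h4g Pool.Agent.W_7d29a1_H Pool.Agent.W_7d29a1_HS

noncomputable section

variable {μ : Measure ℝ} [IsProbabilityMeasure μ] {s c C : ℝ} {n₀ : ℕ}

/-- The probability that a truncation occurs in one slab. -/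
theorem bad_slab (h : In μ s c C n₀) {c1 : ℝ} (hc1 : 0 < c1) : ∃ A a γ : ℝ, 0 < A ∧ 0 < a ∧ 0 < γ ∧ ∃ n₁ : ℕ, ∀ r : ℕ, n₁ ≤ r →
    ∀ t : ℝ, c1 * EE μ s r ≤ |t| * wd μ s r → |t| * wd μ s r ≤ c / 2 * EE μ s r → ∀ m m' : ℕ, r ≤ m → m ≤ m' → m' ≤ 2 * m →
      ∀ Λ : ℝ, 8 ≤ Λ → ∀ b : Pt,
        (law μ).real {η | V μ (s + t) η b m' < -(Λ * (m * ex μ s t))} ≤ A * Real.exp (-(a * Λ ^ γ)) := by
  obtain ⟨κ, hκ, n₂, hLL⟩ := LL_low h hc1
  obtain ⟨A, c', γ, hA, hc', hγ, -, hU⟩ := unlucky_exp h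
  obtain ⟨c₃, hc₃, n₃, hwd⟩ := wd_ge h
  obtain ⟨n₄, hn₄⟩ := eventually_atTop.1 (h.tE.eventually_ge_atTop (c / (4 * c₃ * κ)))
  have hc0 := h.c0
  refine ⟨A, c' * (κ / 8) ^ γ, γ, hA, by positivity, hγ, max (max n₂ n₃) (max n₄ 1), fun r hr t ht1 ht2 m m' hrm hmm hm2 Λ hΛ b => ?_⟩
  have hr1 : 1 ≤ r := (le_max_right _ _).trans ((le_max_right _ _).trans hr)
  have hrn2 : n₂ ≤ r := (le_max_left _ _).trans ((le_max_left _ _).trans hr)
  have hrn3 : n₃ ≤ r := (le_max_right _ _).trans ((le_max_left _ _).trans hr)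
  have hrn4 : n₄ ≤ r := (le_max_left _ _).trans ((le_max_right _ _).trans hr)
  have hr0 : (0 : ℝ) < r := by exact_mod_cast hr1
  have hm1 : 1 ≤ m := hr1.trans hrm
  have hm0 : (0 : ℝ) < m := by exact_mod_cast hm1
  have hm'1 : 1 ≤ m' := hm1.trans hmm
  have hE0 : 0 < EE μ s r := EE_pos r
  have hκL := hLL r hrn2 t ht1
  have hLL0 : 0 < ex μ s t := by
    have h1 : 0 < (r : ℝ) * ex μ s t := lt_of_lt_of_le (by positivity) hκL
    exact (mul_pos_iff_of_pos_left hr0).1 h1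
  have hmr : (1 : ℝ) ≤ m / r := by
    rw [one_le_div hr0]
    exact_mod_cast hrm
  -- `m LL` against the unit
  have hmL : κ * ((m / r) * EE μ s r) ≤ m * ex μ s t := by
    have h1 := mul_le_mul_of_nonneg_left hκL (show (0 : ℝ) ≤ m / r by positivity)
    have e1 : (m : ℝ) / r * (r * ex μ s t) = m * ex μ s t := by
      field_simp
    rw [e1] at h1
    linarith
  have hmL0 : 0 < m * ex μ s t := by positivity
  -- `|t| / 2 ≤ m LL`
  have htL : |t| / 2 ≤ m * ex μ s t := by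
    have h1 := hwd r hrn3
    have h2 : |t| * (c₃ * EE μ s r) ≤ c / 2 * EE μ s r := (mul_le_mul_of_nonneg_left h1 (abs_nonneg t)).trans ht2
    have h3 : |t| * c₃ ≤ c / 2 := by
      have h4 : |t| * c₃ * EE μ s r ≤ c / 2 * EE μ s r := by linarith
      exact le_of_mul_le_mul_right h4 hE0
    have h5 : c / (4 * c₃ * κ) ≤ EE μ s r := hn₄ r hrn4
    have h6 : c / 4 ≤ κ * EE μ s r * c₃ := by
      rw [div_le_iff₀ (by positivity)] at h5
      linarith
    have h7 : κ * EE μ s r ≤ m * ex μ s t := by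
      refine le_trans ?_ hmL
      have : EE μ s r ≤ (m / r) * EE μ s r := le_mul_of_one_le_left hE0.le hmr
      exact mul_le_mul_of_nonneg_left this hκ.le
    have h8 : |t| / 2 * c₃ ≤ κ * EE μ s r * c₃ := by linarith
    exact (le_of_mul_le_mul_right h8 hc₃).trans h7
  -- the unit of the slab
  have hEm : κ * EE μ s m' ≤ 4 * (m * ex μ s t) := by
    have h1 : EE μ s m' ≤ (((m' / r : ℕ) : ℝ) + 1) * EE μ s r := by
      have h2 : m' ≤ (m' / r + 1) * r := by
        have h1 := Nat.lt_mul_div_succ m' (by omega : 0 < r)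
        rw [mul_comm]
        exact h1.le
      have h3 := EE_mul (μ := μ) h.em s r (k := m' / r + 1) (Nat.le_add_left 1 _)
      push_cast at h3
      exact (EE_mono h2).trans h3
    have h2 : ((m' / r : ℕ) : ℝ) + 1 ≤ 4 * (m / r) := by
      have h3 : ((m' / r : ℕ) : ℝ) ≤ (m' : ℝ) / r := Nat.cast_div_le
      have h4 : (m' : ℝ) / r ≤ 2 * (m / r) := by
        rw [← mul_div_assoc]
        refine div_le_div_of_nonneg_right ?_ hr0.le
        exact_mod_cast hm2
      linarith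
    have h3 : EE μ s m' ≤ 4 * (m / r) * EE μ s r := h1.trans (mul_le_mul_of_nonneg_right h2 hE0.le)
    have h4 := mul_le_mul_of_nonneg_left h3 hκ.le
    linarith
  have hEm0 : 0 < EE μ s m' := EE_pos m'
  obtain ⟨u, hu⟩ : ∃ u : ℝ, u = κ / 8 * Λ := ⟨_, rfl⟩
  have hu0 : 0 ≤ u := by
    rw [hu]
    positivity
  have hsub : {η | V μ (s + t) η 0 m' < -(Λ * (m * ex μ s t))} ⊆ {η | u * EE μ s m' ≤ X μ s η 0 m' (md μ s m')} := by
    intro η hη
    have h1 : V μ (s + t) η 0 m' < -(Λ * (m * ex μ s t)) := hη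
    have h2 := V_tilt_ge h t η m'
    show u * EE μ s m' ≤ X μ s η 0 m' (md μ s m')
    have h3 : (m' : ℝ) * ex μ s t ≤ 2 * (m * ex μ s t) := by
      have : (m' : ℝ) ≤ 2 * m := by exact_mod_cast hm2
      have h4 := mul_le_mul_of_nonneg_right this hLL0.le
      linarith
    have h4 : u * EE μ s m' ≤ Λ * (m * ex μ s t) / 2 := by
      rw [hu]
      have := mul_le_mul_of_nonneg_left hEm (show (0 : ℝ) ≤ Λ / 8 by linarith)
      linarith
    have h5 : 8 * (m * ex μ s t) ≤ Λ * (m * ex μ s t) := mul_le_mul_of_nonneg_right hΛ hmL0.le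
    linarith
  have hsh : (law μ).real {η | V μ (s + t) η b m' < -(Λ * (m * ex μ s t))} = (law μ).real {η | V μ (s + t) η 0 m' < -(Λ * (m * ex μ s t))} := by
    have hmeas : MeasurableSet {η : Env | V μ (s + t) η 0 m' < -(Λ * (m * ex μ s t))} :=
      measurableSet_lt (measurable_V 0 m') measurable_const
    rw [← real_sh (μ := μ) b hmeas]
    congr 1
    ext η
    show V μ (s + t) η b m' < _ ↔ V μ (s + t) (sh b η) 0 m' < _
    rw [V_sh, zero_add]
  rw [hsh]
  have hvp := h.vA_pos hm'1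
  have hcone : |((md μ s m' : ℤ) : ℝ) - sl μ s * m'| ≤ c / 16 * vA 1 μ s m' * m' + 1 := by
    have h6 : 0 ≤ c / 16 * vA 1 μ s m' * m' := by positivity
    have h7 := md_abs (μ := μ) (s := s) m'
    linarith
  have h1 := hU m' hm'1 (md μ s m') (h.md_nonneg m') (h.md_le_nat m') hcone u hu0
  refine (measureReal_mono hsub).trans (h1.trans (le_of_eq ?_))
  rw [hu, Real.mul_rpow (by positivity) (by linarith)]
  ring_nf

end

end Pool.Agent.W_7d29a1_HZ.Z94
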