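import Mathlib

/-!
MP_7d29a1_pr, STORM Z, Lemma NS (1), TILT LLN: numbers for the lower tail (T4).
-/

set_option autoImplicit false

namespace Pool.Agent.W_7d29a1_HZ.Z94

/-- The exponent of the moment of one slab. -/
theorem slab_num {θ Λ Λ' δ B κ m l r L E b N J : ℝ} (hθ : θ = 1 / Λ') (hΛ' : Λ' = Λ * (m * L)) (hΛ : 8 ≤ Λ) (hδ0 : 0 < δ)
    (hδ1 : 12 * δ ≤ 1) (hB : 0 < B) (hκ : 0 < κ) (hm0 : 0 < m) (hr0 : 0 < r) (hL : 0 < L) (hE : 0 < E) (hl1 : m ≤ l) (hl2 : l ≤ 2 * m)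
    (hb0 : 0 ≤ b) (hb : b ≤ δ * (l * L)) (hκL : κ * E ≤ r * L) (hB2 : 4 * B / (κ ^ 2 * δ) * r ≤ m) (hN : N ≤ 2 * (l / r))
    (hs : J ≤ B * N * E ^ 2 + b ^ 2) : θ * b + θ ^ 2 * J ≤ θ * (3 * δ * (l * L)) := by
  have hl0 : 0 < l := by linarith
  have hmL0 : 0 < m * L := by positivity
  have hlL0 : 0 < l * L := by positivity
  have hΛ0 : 0 < Λ' := by
    rw [hΛ']
    positivity
  have hθ0 : 0 < θ := by
    rw [hθ]
    positivity
  have hθΛ : θ * Λ' = 1 := by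
    rw [hθ]
    field_simp
  have hlL : l * L ≤ Λ' := by
    rw [hΛ']
    have h1 := mul_le_mul_of_nonneg_right hl2 hL.le
    have h2 : 8 * (m * L) ≤ Λ * (m * L) := mul_le_mul_of_nonneg_right hΛ hmL0.le
    linarith
  have h1 : θ ^ 2 * b ^ 2 ≤ θ * b := by
    have h2 : θ * b ≤ 1 := by
      have h3 : b ≤ Λ' := by
        have : δ * (l * L) ≤ 1 * (l * L) := mul_le_mul_of_nonneg_right (by linarith) hlL0.le
        linarith
      calc θ * b ≤ θ * Λ' := mul_le_mul_of_nonneg_left h3 hθ0.le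
        _ = 1 := hθΛ
    have h4 : 0 ≤ θ * b := by positivity
    calc θ ^ 2 * b ^ 2 = θ * b * (θ * b) := by ring
      _ ≤ θ * b * 1 := mul_le_mul_of_nonneg_left h2 h4
      _ = _ := mul_one _
  have h2 : θ ^ 2 * (B * N * E ^ 2) ≤ θ * (δ * (l * L)) := by
    have h3 : B * N * E ^ 2 ≤ B * (2 * (l / r)) * E ^ 2 :=
      mul_le_mul_of_nonneg_right (mul_le_mul_of_nonneg_left hN hB.le) (by positivity)
    have h4 : θ * (B * (2 * (l / r)) * E ^ 2) ≤ δ * (l * L) := by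
      -- multiply by `Λ'`
      rw [hθ, one_div, inv_mul_le_iff₀ hΛ0]
      -- `κ EE r ≤ r LL`
      have h5 : κ ^ 2 * E ^ 2 ≤ r ^ 2 * L ^ 2 := by
        have := mul_self_le_mul_self (by positivity) hκL
        calc κ ^ 2 * E ^ 2 = κ * E * (κ * E) := by ring
          _ ≤ r * L * (r * L) := this
          _ = _ := by ring
      have h6 : 4 * B * r ≤ κ ^ 2 * δ * m := by
        have h7 : 4 * B / (κ ^ 2 * δ) * r * (κ ^ 2 * δ) ≤ m * (κ ^ 2 * δ) := mul_le_mul_of_nonneg_right hB2 (by positivity)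
        have e7 : 4 * B / (κ ^ 2 * δ) * r * (κ ^ 2 * δ) = 4 * B * r := by
          field_simp
        rw [e7] at h7
        linarith
      have h8 : B * (2 * (l / r)) * E ^ 2 ≤ 1 / 2 * (δ * (l * L) * (m * L)) := by
        have e9 : B * (2 * (l / r)) * E ^ 2 = (2 * B * E ^ 2 / r) * l := by ring
        rw [e9]
        have h9 : 2 * B * E ^ 2 / r ≤ 1 / 2 * (δ * L * (m * L)) := by
          rw [div_le_iff₀ hr0]
          have h10 : 4 * B * r * (E ^ 2 * κ ^ 2) ≤ κ ^ 2 * δ * m * (r ^ 2 * L ^ 2) :=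
            mul_le_mul h6 (by linarith) (by positivity) (by positivity)
          have h11 : (4 * B * E ^ 2) * (r * κ ^ 2) ≤ (δ * L * (m * L) * r) * (r * κ ^ 2) := by
            calc (4 * B * E ^ 2) * (r * κ ^ 2) = 4 * B * r * (E ^ 2 * κ ^ 2) := by ring
              _ ≤ κ ^ 2 * δ * m * (r ^ 2 * L ^ 2) := h10
              _ = _ := by ring
          have h12 := le_of_mul_le_mul_right h11 (by positivity)
          linarith
        calc (2 * B * E ^ 2 / r) * l ≤ (1 / 2 * (δ * L * (m * L))) * l := mul_le_mul_of_nonneg_right h9 hl0.le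
          _ = _ := by ring
      have h13 : 1 / 2 * (δ * (l * L) * (m * L)) ≤ Λ' * (δ * (l * L)) := by
        rw [hΛ']
        have h14 : 0 ≤ δ * (l * L) * (m * L) := by positivity
        have h17 := mul_le_mul_of_nonneg_right (show (1 / 2 : ℝ) ≤ Λ by linarith) h14
        linarith
      linarith
    have h15 := mul_le_mul_of_nonneg_left h3 (show (0 : ℝ) ≤ θ ^ 2 by positivity)
    have h16 := mul_le_mul_of_nonneg_left h4 hθ0.le
    calc θ ^ 2 * (B * N * E ^ 2) ≤ θ ^ 2 * (B * (2 * (l / r)) * E ^ 2) := h15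
      _ = θ * (θ * (B * (2 * (l / r)) * E ^ 2)) := by ring
      _ ≤ _ := h16
  have h3 := mul_le_mul_of_nonneg_left hs (show (0 : ℝ) ≤ θ ^ 2 by positivity)
  have h4 := mul_le_mul_of_nonneg_left hb hθ0.le
  linarith

/-- The last exponent. -/
theorem last_num {θ Λ Λ' δ d m n L x : ℝ} (hθ : θ = 1 / Λ') (hΛ' : Λ' = Λ * (m * L)) (hΛ : 8 ≤ Λ) (hδd : 12 * δ ≤ d) (hd : 0 < d)
    (hm0 : 0 < m) (hn0 : 0 ≤ n) (hL : 0 < L) (hx : x = d * (n * L)) : θ * (3 * δ * (n * L)) + -(θ * x) ≤ -(d * n / (2 * m * Λ)) := by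
  have hΛ0 : 0 < Λ' := by
    rw [hΛ']
    positivity
  have hθ0 : 0 < θ := by
    rw [hθ]
    positivity
  have hnL0 : 0 ≤ n * L := by positivity
  have hΛp : 0 < Λ := by linarith
  have e1 : d * n / (2 * m * Λ) = θ * (d / 2 * (n * L)) := by
    rw [hθ, hΛ']
    field_simp
  rw [e1, hx]
  have h5 : 3 * δ * (n * L) ≤ d / 2 * (n * L) := mul_le_mul_of_nonneg_right (by linarith) hnL0
  have h6 := mul_le_mul_of_nonneg_left h5 hθ0.le
  linarith

end Pool.Agent.W_7d29a1_HZ.Z94
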