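import Pool.Agent.W_7d29a1_HS.ExitS
import Pool.Agent.W_7d29a1_HZ.PB
/-!
STORM Z at every tilt, second storey (MP_7d29a1_pr): CONFINED LOWER BOUNDS at one scale, all starts of the box, outside an event of the
probability `exp (- L ^ c)`: the paths from `a` to `a + (m, y)`, `m ≤ h`, which stay within `L ^ e wd' h` of the line of the slope
`sl μ s` weigh at least `exp (- L ^ ε EE' h)`. (helper9; the case `s = 0` is `W_7d29a1_Z9.Conf9`. Distances in sites.)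
-/

set_option autoImplicit false

namespace Pool.Agent.W_7d29a1_HZ.Z9

open MeasureTheory ProbabilityTheory Filter Topology Finset
open Pool.Agent.W_7d29a1_F Pool.Agent.W_7d29a1_h4g Pool.Agent.W_7d29a1_H Pool.Agent.W_7d29a1_L
open Pool.Agent.W_7d29a1_h95g Pool.Agent.W_7d29a1_X
open Pool.Agent.W_7d29a1_HS (In wd)
open Pool.Agent.W_7d29a1_HZ (wd' EE' PBox)

noncomputable section

/-- The tilted lucks of all starts of the box, all lengths at most `n`, are at most `b`, for the tilts `t` and `- t`. -/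
def TBx (μ : Measure ℝ) (s : ℝ) (L n : ℕ) (t b : ℝ) (η : Env) : Prop :=
  ∀ i m : ℕ, i + m ≤ L → m ≤ n → ∀ x : ℤ, |x| ≤ 2 * L →
    T μ s (sl μ s) t η ((i : ℤ), x) m ≤ b ∧ T μ s (sl μ s) (-t) η ((i : ℤ), x) m ≤ b

theorem W_le_T {μ : Measure ℝ} {s v h : ℝ} (η : Env) (a : Pt) (n : ℕ) (y : ℤ) :
    W μ s η a n y ≤ Real.exp (T μ s v h η a n - h * ((y : ℝ) - v * n)) := by
  by_cases hy : 0 ≤ y ∧ y ≤ n
  · have h1 := exp_T (μ := μ) (s := s) (v := v) (h := h) η a n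
    have h2 : W μ s η a n y * Real.exp (h * ((y : ℝ) - v * n)) ≤ Real.exp (T μ s v h η a n) := by
      rw [h1]
      exact Finset.single_le_sum (f := fun y : ℤ => W μ s η a n y * Real.exp (h * ((y : ℝ) - v * n)))
        (fun y _ => mul_nonneg (W_nonneg _ _ _ _) (Real.exp_nonneg _)) (Finset.mem_Icc.2 hy)
    rw [Real.exp_sub, le_div_iff₀ (Real.exp_pos _)]
    exact h2
  · rw [W_eq_zero η a hy]
    exact (Real.exp_pos _).le

theorem WR_mul_le9 {μ : Measure ℝ} {s : ℝ} (R : Set Pt) (η : Env) (a : Pt) (m n : ℕ) {k : ℤ} (y : ℤ) (h0 : 0 ≤ k) (h1 : k ≤ m) :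
    WR μ s R η a m k * WR μ s R η (a.1 + m, a.2 + k) n y ≤ WR μ s R η a (m + n) (k + y) := by
  rw [WR_add R η a m n (k + y)]
  have h := Finset.single_le_sum (f := fun k' : ℤ => WR μ s R η a m k' *
    WR μ s R η (a.1 + m, a.2 + k') n (k + y - k')) (fun k' _ => mul_nonneg (WR_nonneg _ _ _ _ _) (WR_nonneg _ _ _ _ _))
    (Finset.mem_Icc.2 ⟨h0, h1⟩)
  simpa using h

theorem Zr_mono_on9 {R R' : Set Pt} (η : Env) (a : Pt) (n : ℕ) (y : ℤ)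
    (h : ∀ p ∈ R, a.1 < p.1 → p.1 ≤ a.1 + n → p ∈ R') : Zr R η a n y ≤ Zr R' η a n y := by
  induction n generalizing y with
  | zero => rfl
  | succ n ih =>
    have ih' := fun y => ih y fun p hp h1 h2 => h p hp h1 (by push_cast; linarith)
    show R.indicator (fun p => Real.exp (η p)) (a.1 + (n + 1), a.2 + y) * (Zr R η a n y + Zr R η a n (y - 1)) ≤
      R'.indicator (fun p => Real.exp (η p)) (a.1 + (n + 1), a.2 + y) * (Zr R' η a n y + Zr R' η a n (y - 1))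
    have h1 : R.indicator (fun p => Real.exp (η p)) (a.1 + ((n : ℤ) + 1), a.2 + y) ≤
        R'.indicator (fun p => Real.exp (η p)) (a.1 + ((n : ℤ) + 1), a.2 + y) := by
      by_cases hR : ((a.1 + ((n : ℤ) + 1), a.2 + y) : Pt) ∈ R
      · have hR' := h _ hR (by show a.1 < a.1 + ((n : ℤ) + 1); omega)
          (by show a.1 + ((n : ℤ) + 1) ≤ a.1 + ((n + 1 : ℕ) : ℤ); push_cast; omega)
        rw [Set.indicator_of_mem hR, Set.indicator_of_mem hR']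
      · rw [Set.indicator_of_notMem hR]
        exact Set.indicator_nonneg (fun _ _ => (Real.exp_pos _).le) _
    refine mul_le_mul h1 (add_le_add (ih' y) (ih' (y - 1))) (add_nonneg (Zr_nonneg _ _ _ _ _) (Zr_nonneg _ _ _ _ _))
      (Set.indicator_nonneg (fun _ _ => (Real.exp_pos _).le) _)

theorem WR_mono_on9 {μ : Measure ℝ} {s : ℝ} {R R' : Set Pt} (η : Env) (a : Pt) (n : ℕ) (y : ℤ)
    (h : ∀ p ∈ R, a.1 < p.1 → p.1 ≤ a.1 + n → p ∈ R') : WR μ s R η a n y ≤ WR μ s R' η a n y := by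
  unfold WR
  exact mul_le_mul_of_nonneg_left (Zr_mono_on9 η a n y h) (Real.exp_pos _).le

/-- The strip of the slope `sl μ s` and the half width `B` around the site `a`. -/
def Sb (μ : Measure ℝ) (s B : ℝ) (a : Pt) : Set Pt := {p | |((p.2 : ℝ) - (a.2 : ℝ)) - sl μ s * ((p.1 : ℝ) - (a.1 : ℝ))| ≤ B}

variable {μ : Measure ℝ} {s : ℝ}

/-- THE DETERMINISTIC PART: the paths from `(i, x)` which leave the strip of the half width `K`. -/
theorem conf_det [IsProbabilityMeasure μ] (hs : 0 ≤ sl μ s ∧ sl μ s ≤ 1) {L n K m i : ℕ} {t b B : ℝ} (ht : 0 ≤ t) (hK : 1 ≤ K)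
    {η : Env} {x y : ℤ} (him : i + m ≤ L) (hm : m ≤ n) (hx : |x| + m ≤ 2 * L) (hT : TBx μ s L n t b η)
    (hB : ∀ j l : ℕ, j + l ≤ L → l ≤ n → ∀ u : ℤ, |u| ≤ 2 * L → ∀ z : ℤ, 0 ≤ z → z ≤ l → W μ s η ((j : ℤ), u) l z ≤ Real.exp B) :
    W μ s η ((i : ℤ), x) m y ≤ WR μ s (Sb μ s K ((i : ℤ), x)) η ((i : ℤ), x) m y + 2 * m * Real.exp (b + B - t * (K - 1)) := by
  obtain ⟨v, hv⟩ : ∃ v : ℝ, v = sl μ s := ⟨_, rfl⟩
  rw [← hv] at hs
  obtain ⟨hv0, hv1⟩ := hs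
  obtain ⟨lp, hlp⟩ : ∃ lp : ℤ → ℤ, lp = fun t : ℤ => ⌊v * (t : ℝ)⌋ + (K : ℤ) := ⟨_, rfl⟩
  obtain ⟨lm, hlm⟩ : ∃ lm : ℤ → ℤ, lm = fun t : ℤ => ⌊v * (t : ℝ)⌋ - (K : ℤ) := ⟨_, rfl⟩
  have hfm : ∀ t : ℤ, ⌊v * (t : ℝ)⌋ ≤ ⌊v * ((t + 1 : ℤ) : ℝ)⌋ ∧ ⌊v * ((t + 1 : ℤ) : ℝ)⌋ ≤ ⌊v * (t : ℝ)⌋ + 1 := by
    intro t
    constructor
    · refine Int.floor_le_floor ?_
      push_cast
      linarith
    · rw [← Int.floor_add_one]
      refine Int.floor_le_floor ?_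
      push_cast
      linarith
  have hp : IsLine lp := ⟨fun t => by rw [hlp]; dsimp only; linarith [(hfm t).1],
    fun t => by rw [hlp]; dsimp only; linarith [(hfm t).2]⟩
  have hm' : IsLine lm := ⟨fun t => by rw [hlm]; dsimp only; linarith [(hfm t).1],
    fun t => by rw [hlm]; dsimp only; linarith [(hfm t).2]⟩
  have hf0 : ⌊v * ((0 : ℤ) : ℝ)⌋ = 0 := by simp
  have hp0 : 0 < lp 0 := by rw [hlp]; dsimp only; rw [hf0]; omega
  have hm0 : lm 0 < 0 := by rw [hlm]; dsimp only; rw [hf0]; omega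
  have hfl : ∀ t : ℤ, v * (t : ℝ) - 1 ≤ ((⌊v * (t : ℝ)⌋ : ℤ) : ℝ) ∧ ((⌊v * (t : ℝ)⌋ : ℤ) : ℝ) ≤ v * (t : ℝ) :=
    fun t => ⟨(Int.sub_one_lt_floor _).le, Int.floor_le _⟩
  have hpR : ∀ t : ℤ, v * (t : ℝ) + (K - 1) ≤ (lp t : ℝ) := by
    intro t
    have := hfl t
    rw [hlp]
    push_cast
    linarith
  have hmR : ∀ t : ℤ, (lm t : ℝ) ≤ v * (t : ℝ) - K := by
    intro t
    have := hfl t
    rw [hlm]
    push_cast
    linarith
  obtain ⟨a, ha⟩ : ∃ a : Pt, a = ((i : ℤ), x) := ⟨_, rfl⟩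
  -- bound of one term
  have hterm : ∀ (l : ℤ → ℤ) (σ : ℝ), (σ = 1 ∨ σ = -1) → (∀ k : ℕ, (K : ℝ) - 1 ≤
      σ * ((l ((k + 1 : ℕ) : ℤ) : ℝ) - v * ((k + 1 : ℕ) : ℝ))) → ∀ k ∈ range m,
      W μ s (sh a η) 0 (k + 1) (l ((k + 1 : ℕ) : ℤ)) *
        W μ s (sh a η) (((k + 1 : ℕ) : ℤ), l ((k + 1 : ℕ) : ℤ)) (m - (k + 1)) (y - l ((k + 1 : ℕ) : ℤ)) ≤
      Real.exp (b + B - t * (K - 1)) := by
    intro l σ hσ hl k hk
    rw [Finset.mem_range] at hk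
    obtain ⟨z, hz⟩ : ∃ z : ℤ, z = l ((k + 1 : ℕ) : ℤ) := ⟨_, rfl⟩
    have hlk := hl k
    rw [← hz] at hlk ⊢
    by_cases hz0 : 0 ≤ z ∧ z ≤ ((k + 1 : ℕ) : ℤ)
    · have e1 : W μ s (sh a η) 0 (k + 1) z = W μ s η ((i : ℤ), x) (k + 1) z := by
        rw [W_sh, zero_add, ha]
      have e2 : W μ s (sh a η) (((k + 1 : ℕ) : ℤ), z) (m - (k + 1)) (y - z) =
          W μ s η (((i + (k + 1) : ℕ) : ℤ), x + z) (m - (k + 1)) (y - z) := by
        rw [W_sh, ha]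
        congr 1
        refine Prod.ext ?_ ?_
        · show ((k + 1 : ℕ) : ℤ) + (i : ℤ) = ((i + (k + 1) : ℕ) : ℤ)
          push_cast
          ring
        · show z + x = x + z
          ring
      rw [e1, e2]
      have hx' := abs_le.1 (le_refl |x|)
      have h3 : W μ s η (((i + (k + 1) : ℕ) : ℤ), x + z) (m - (k + 1)) (y - z) ≤ Real.exp B := by
        by_cases hyz : 0 ≤ y - z ∧ y - z ≤ ((m - (k + 1) : ℕ) : ℤ)
        · refine hB (i + (k + 1)) (m - (k + 1)) (by omega) (by omega) (x + z) ?_ (y - z) hyz.1 hyz.2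
          rw [abs_le]
          have h5 := hz0.2
          push_cast at h5
          constructor
          · omega
          · omega
        · rw [W_eq_zero η _ hyz]
          exact (Real.exp_pos _).le
      have hTk := hT i (k + 1) (by omega) (by omega) x (by omega)
      rw [← hv] at hTk
      have h4 : W μ s η ((i : ℤ), x) (k + 1) z ≤ Real.exp (b - t * (K - 1)) := by
        rcases hσ with rfl | rfl
        · refine (W_le_T (μ := μ) (s := s) (v := v) (h := t) η ((i : ℤ), x) (k + 1) z).trans (Real.exp_le_exp.2 ?_)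
          have h5 : t * (K - 1) ≤ t * ((z : ℝ) - v * ((k + 1 : ℕ) : ℝ)) :=
            mul_le_mul_of_nonneg_left (by linarith) ht
          linarith [hTk.1]
        · refine (W_le_T (μ := μ) (s := s) (v := v) (h := -t) η ((i : ℤ), x) (k + 1) z).trans (Real.exp_le_exp.2 ?_)
          have h5 : t * (K - 1) ≤ t * (-1 * ((z : ℝ) - v * ((k + 1 : ℕ) : ℝ))) :=
            mul_le_mul_of_nonneg_left hlk ht
          linarith [hTk.2]
      calc _ ≤ Real.exp (b - t * (K - 1)) * Real.exp B := mul_le_mul h4 h3 (W_nonneg _ _ _ _) (Real.exp_nonneg _)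
        _ = Real.exp (b + B - t * (K - 1)) := by rw [← Real.exp_add]; congr 1; ring
    · rw [W_eq_zero (sh a η) 0 hz0, zero_mul]
      exact (Real.exp_pos _).le
  have hsp := tube_split (μ := μ) (s := s) hm' hp hm0 hp0 (sh a η) m y
  have q1 := Finset.sum_le_sum (hterm lp 1 (Or.inl rfl) fun k => by
    have hx := hpR ((k + 1 : ℕ) : ℤ)
    have hcast : ((((k + 1 : ℕ) : ℤ)) : ℝ) = ((k + 1 : ℕ) : ℝ) := by push_cast; ring
    rw [hcast] at hx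
    linarith)
  have q2 := Finset.sum_le_sum (hterm lm (-1) (Or.inr rfl) fun k => by
    have hx := hmR ((k + 1 : ℕ) : ℤ)
    have hcast : ((((k + 1 : ℕ) : ℤ)) : ℝ) = ((k + 1 : ℕ) : ℝ) := by push_cast; ring
    rw [hcast] at hx
    linarith)
  rw [Finset.sum_const, Finset.card_range, nsmul_eq_mul] at q1 q2
  have e0 : W μ s (sh a η) 0 m y = W μ s η ((i : ℤ), x) m y := by rw [W_sh, zero_add, ha]
  have hreg : WR μ s (Tb lm lp) (sh a η) 0 m y ≤ WR μ s (Sb μ s K ((i : ℤ), x)) η ((i : ℤ), x) m y := by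
    have e3 := WR_sh (μ := μ) (s := s) (Sb μ s K ((i : ℤ), x)) η 0 a m y
    rw [zero_add, ha] at e3
    rw [← e3, ha]
    refine WR_mono_on9 (μ := μ) (s := s) (sh ((i : ℤ), x) η) 0 m y ?_
    rintro ⟨t', x'⟩ hp' _ _
    obtain ⟨h1, h2⟩ := hp'
    have e1 : lp t' = ⌊v * (t' : ℝ)⌋ + (K : ℤ) := by rw [hlp]
    have e2 : lm t' = ⌊v * (t' : ℝ)⌋ - (K : ℤ) := by rw [hlm]
    change lm t' < x' at h1
    change x' < lp t' at h2
    rw [e2] at h1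
    rw [e1] at h2
    have h3 : x' ≤ ⌊v * (t' : ℝ)⌋ + (K : ℤ) := h2.le
    have h4 : ⌊v * (t' : ℝ)⌋ - (K : ℤ) + 1 ≤ x' := h1
    have h3' : (x' : ℝ) ≤ (⌊v * (t' : ℝ)⌋ : ℝ) + K := by exact_mod_cast h3
    have h4' : (⌊v * (t' : ℝ)⌋ : ℝ) - K + 1 ≤ (x' : ℝ) := by exact_mod_cast h4
    have h5 := hfl t'
    show |(((x' + x : ℤ) : ℝ) - (x : ℝ)) - sl μ s * (((t' + (i : ℤ) : ℤ) : ℝ) - (((i : ℤ)) : ℝ))| ≤ K
    rw [← hv]
    push_cast
    rw [abs_le]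
    constructor <;> linarith
  rw [e0] at hsp
  linarith

theorem WR_off9 (R : Set Pt) (η : Env) (a : Pt) {n : ℕ} {y : ℤ} (h : ¬ (0 ≤ y ∧ y ≤ n)) : WR μ s R η a n y = 0 := by
  have h1 : WR μ s R η a n y ≤ W μ s η a n y := by
    unfold W WR
    exact mul_le_mul_of_nonneg_left (Zr_mono (Set.subset_univ _) η a n y) (Real.exp_pos _).le
  rw [W_eq_zero η a h] at h1
  exact le_antisymm h1 (WR_nonneg _ _ _ _ _)

/-- HALVING: from the confined lower bounds of the durations in `[n, 2 n]` to the durations in `[2 ^ j n, 2 ^ (j + 1) n]`. -/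
theorem halve (hs : 0 ≤ sl μ s ∧ sl μ s ≤ 1) {η : Env} {L n : ℕ} {A Δ B0 : ℝ} (hΔ : 0 ≤ Δ) (hB0 : 0 ≤ B0)
    (hbase : ∀ i m : ℕ, n ≤ m → m ≤ 2 * n → i + m ≤ L → ∀ x : ℤ, |x| + m ≤ 2 * L → ∀ y : ℤ, |(y : ℝ) - sl μ s * m| ≤ Δ + 1 →
      Real.exp (-A) ≤ WR μ s (Sb μ s B0 ((i : ℤ), x)) η ((i : ℤ), x) m y) :
    ∀ j i m : ℕ, 2 ^ j * n ≤ m → m ≤ 2 ^ (j + 1) * n → i + m ≤ L → ∀ x : ℤ, |x| + m ≤ 2 * L → ∀ y : ℤ,
      |(y : ℝ) - sl μ s * m| ≤ 2 ^ j * Δ + 1 →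
      Real.exp (-(2 ^ j * A)) ≤ WR μ s (Sb μ s (B0 + (2 ^ j - 1) * Δ + j) ((i : ℤ), x)) η ((i : ℤ), x) m y := by
  obtain ⟨hv0, hv1⟩ := hs
  intro j
  induction j with
  | zero =>
    intro i m h1 h2 h3 x hx y hy
    have h := hbase i m (by omega) (by omega) h3 x hx y (by simpa using hy)
    simpa using h
  | succ j ih =>
    intro i m h1 h2 h3 x hx y hy
    have e1 : 2 ^ (j + 1) * n = 2 * (2 ^ j * n) := by ring
    have e2 : 2 ^ (j + 1 + 1) * n = 2 * (2 * (2 ^ j * n)) := by ring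
    obtain ⟨P, hP⟩ : ∃ P : ℕ, P = 2 ^ j * n := ⟨_, rfl⟩
    rw [e1, ← hP] at h1
    rw [e2, ← hP] at h2
    have e3 : 2 ^ (j + 1) * n = 2 * P := by rw [e1, ← hP]
    obtain ⟨m₁, hm₁⟩ : ∃ m₁ : ℕ, m₁ = m / 2 := ⟨_, rfl⟩
    obtain ⟨m₂, hm₂⟩ : ∃ m₂ : ℕ, m₂ = m - m / 2 := ⟨_, rfl⟩
    obtain ⟨y₁, hy₁⟩ : ∃ y₁ : ℤ, y₁ = y / 2 := ⟨_, rfl⟩
    have hmm : m₁ + m₂ = m := by omega
    have hmR : (m₁ : ℝ) + m₂ = m := by exact_mod_cast hmm
    -- the real inequalities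
    have a1 : 2 * m₁ ≤ m := by omega
    have a2 : m ≤ 2 * m₁ + 1 := by omega
    have a3 : 2 * y₁ ≤ y := by omega
    have a4 : y ≤ 2 * y₁ + 1 := by omega
    have b1 : 2 * (m₁ : ℝ) ≤ m := by exact_mod_cast a1
    have b2 : (m : ℝ) ≤ 2 * m₁ + 1 := by exact_mod_cast a2
    have b3 : 2 * (y₁ : ℝ) ≤ y := by exact_mod_cast a3
    have b4 : (y : ℝ) ≤ 2 * y₁ + 1 := by exact_mod_cast a4
    have c1 : sl μ s * (2 * (m₁ : ℝ)) ≤ sl μ s * m := mul_le_mul_of_nonneg_left b1 hv0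
    have c2 : sl μ s * m ≤ sl μ s * (2 * (m₁ : ℝ)) + 1 := by
      have := mul_le_mul_of_nonneg_left b2 hv0
      linarith
    have c3 : sl μ s * (m₁ : ℝ) + sl μ s * m₂ = sl μ s * m := by rw [← mul_add, hmR]
    have hp : (2 : ℝ) ^ (j + 1) = 2 * 2 ^ j := by ring
    rw [hp] at hy
    rw [abs_le] at hy
    have d1 : |(y₁ : ℝ) - sl μ s * m₁| ≤ 2 ^ j * Δ + 1 := by
      rw [abs_le]
      constructor <;> linarith [hy.1, hy.2]
    have d2 : |((y - y₁ : ℤ) : ℝ) - sl μ s * m₂| ≤ 2 ^ j * Δ + 1 := by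
      push_cast
      rw [abs_le]
      constructor <;> linarith [hy.1, hy.2]
    have w1 := ih i m₁ (by omega) (by omega) (by omega) x (by omega) y₁ d1
    have hin : 0 ≤ y₁ ∧ y₁ ≤ m₁ := by
      by_contra hcon
      rw [WR_off9 _ η _ hcon] at w1
      exact absurd w1 (not_le.2 (Real.exp_pos _))
    have w2 := ih (i + m₁) m₂ (by omega) (by omega) (by omega) (x + y₁) (by
      have h5 : |x + y₁| ≤ |x| + |y₁| := abs_add_le x y₁
      rw [abs_of_nonneg hin.1] at h5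
      omega) (y - y₁) d2
    obtain ⟨Bj, hBj⟩ : ∃ Bj : ℝ, Bj = B0 + (2 ^ j - 1) * Δ + j := ⟨_, rfl⟩
    have hB1 : B0 + (2 ^ (j + 1) - 1) * Δ + ((j + 1 : ℕ) : ℝ) = Bj + (2 ^ j * Δ + 1) := by
      rw [hBj, hp]
      push_cast
      ring
    have hpos : (0 : ℝ) ≤ 2 ^ j * Δ + 1 := by positivity
    rw [hB1]
    rw [← hBj] at w1 w2
    have v1 : Real.exp (-(2 ^ j * A)) ≤ WR μ s (Sb μ s (Bj + (2 ^ j * Δ + 1)) ((i : ℤ), x)) η ((i : ℤ), x) m₁ y₁ := by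
      refine w1.trans (WR_mono_on9 η _ m₁ y₁ ?_)
      intro p hp' _ _
      have hp'' : |((p.2 : ℝ) - (x : ℝ)) - sl μ s * ((p.1 : ℝ) - ((i : ℤ) : ℝ))| ≤ Bj := hp'
      show |((p.2 : ℝ) - (x : ℝ)) - sl μ s * ((p.1 : ℝ) - ((i : ℤ) : ℝ))| ≤ Bj + (2 ^ j * Δ + 1)
      linarith
    have v2 : Real.exp (-(2 ^ j * A)) ≤ WR μ s (Sb μ s (Bj + (2 ^ j * Δ + 1)) ((i : ℤ), x)) η
        ((((i : ℤ), x) : Pt).1 + m₁, (((i : ℤ), x) : Pt).2 + y₁) m₂ (y - y₁) := by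
      have e4 : (((((i : ℤ), x) : Pt).1 + (m₁ : ℤ), (((i : ℤ), x) : Pt).2 + y₁) : Pt) = (((i + m₁ : ℕ) : ℤ), x + y₁) := by
        refine Prod.ext ?_ rfl
        show (i : ℤ) + m₁ = ((i + m₁ : ℕ) : ℤ)
        push_cast
        ring
      rw [e4]
      refine w2.trans (WR_mono_on9 η _ m₂ _ ?_)
      intro p hp' _ _
      have hp'' : |((p.2 : ℝ) - ((x + y₁ : ℤ) : ℝ)) - sl μ s * ((p.1 : ℝ) - (((i + m₁ : ℕ) : ℤ) : ℝ))| ≤ Bj := hp'
      show |((p.2 : ℝ) - (x : ℝ)) - sl μ s * ((p.1 : ℝ) - ((i : ℤ) : ℝ))| ≤ Bj + (2 ^ j * Δ + 1)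
      push_cast at hp'' ⊢
      have e5 : ((p.2 : ℝ) - (x : ℝ)) - sl μ s * ((p.1 : ℝ) - (i : ℝ)) =
          (((p.2 : ℝ) - ((x : ℝ) + y₁)) - sl μ s * ((p.1 : ℝ) - ((i : ℝ) + m₁))) + ((y₁ : ℝ) - sl μ s * m₁) := by ring
      rw [e5]
      exact (abs_add_le _ _).trans (add_le_add hp'' d1)
    have h6 := WR_mul_le9 (μ := μ) (s := s) (Sb μ s (Bj + (2 ^ j * Δ + 1)) ((i : ℤ), x)) η ((i : ℤ), x) m₁ m₂ (k := y₁) (y - y₁)
      hin.1 hin.2
    rw [hmm, add_sub_cancel] at h6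
    refine le_trans ?_ h6
    have e5 : Real.exp (-(2 ^ (j + 1) * A)) = Real.exp (-(2 ^ j * A)) * Real.exp (-(2 ^ j * A)) := by
      rw [← Real.exp_add]
      congr 1
      ring
    rw [e5]
    exact mul_le_mul v1 v2 (Real.exp_nonneg _) (WR_nonneg _ _ _ _ _)

end

end Pool.Agent.W_7d29a1_HZ.Z9
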