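import Pool.Agent.W_7d29a1_HZ.ZE_Defs
import Pool.Agent.W_7d29a1_HZ.Z15_NTs
import Pool.Agent.W_7d29a1_HZ.Z17_Swap17
/-!
STORM Z AT ONE TILT `s`, SECOND STOREY (MP_7d29a1_pr): the localised step at the scale `2 ^ i` for the class `clE i i₁`, from the outputs of the
pieces Cell, Det, Tou (structure `StepIn`). (Model: `W_7d29a1_ZE.Step`, helper15; port: helper78)
-/

set_option autoImplicit false

namespace Pool.Agent.W_7d29a1_HZ.ZE

open MeasureTheory ProbabilityTheory Filter Topology Finset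
open Pool.Agent.W_7d29a1_F Pool.Agent.W_7d29a1_X Pool.Agent.W_7d29a1_H Pool.Agent.W_7d29a1_HZ
open Pool.Agent.W_7d29a1_HS (In wd md)
open Pool.Agent.W_7d29a1_HZ.Z15
open Pool.Agent.W_7d29a1_Z15 (Cls AdC Own PC aC)
open Pool.Agent.W_7d29a1_ZE (Win Br cAnd mid Ce al)
open scoped ENNReal

noncomputable section

variable {μ : Measure ℝ} {s : ℝ}

/-! ### Brackets -/

theorem V_J_ne {V : Win} {L : ℕ} (h : V.Ok L) : V.J.Nonempty := by
  obtain ⟨T, hT⟩ := h.ne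
  refine ⟨T + 1, mem_biUnion.2 ⟨T, hT, mem_Ioc.2 ⟨Nat.lt_succ_self T, ?_⟩⟩⟩
  have := Nat.one_le_two_pow (n := V.a)
  omega

theorem mem_Br {V : Win} {b : ℕ × ℕ} : b ∈ Br V ↔ b.1 ≤ V.N ∧ b.2 ≤ V.N ∧ b.2 ≤ b.1 + V.H ∧ ∀ i ∈ V.J, b.1 < i ∧ i < b.2 := by
  unfold Br
  rw [mem_filter, mem_product, mem_range, mem_range]
  constructor
  · rintro ⟨⟨h1, h2⟩, h3, h4⟩
    exact ⟨by omega, by omega, h3, h4⟩
  · rintro ⟨h1, h2, h3, h4⟩
    exact ⟨⟨by omega, by omega⟩, h3, h4⟩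

theorem Br_ok {V : Win} {L : ℕ} (h : V.Ok L) : ∀ b ∈ Br V, b.1 ≤ b.2 ∧ b.2 ≤ V.N := by
  intro b hb
  rw [mem_Br] at hb
  obtain ⟨i, hi⟩ := V_J_ne h
  have := hb.2.2.2 i hi
  exact ⟨by omega, hb.2.1⟩

theorem own_clL (V : Win) : Own (clL μ s V) (Br V) (InL μ s V.sg V.J V.Y) := by
  intro S hS b hb
  rw [mem_Br] at hb
  exact (W_7d29a1_HZ.Z17.inL_iff hb.2.2.2 S).1 hS

theorem card_Br_le (V : Win) : #(Br V) ≤ (V.N + 1) ^ 2 := by
  unfold Br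
  refine (card_filter_le _ _).trans ?_
  rw [card_product, card_range, sq]

/-! ### The classes at the different scales -/

theorem clE_mono {V : Win} {L : ℕ} {e C : ℝ} {i j i₁ : ℕ} (h : i ≤ j) {a : ℕ} {x : ℤ} {b : ℕ} {g : Finset ℕ}
    (hg : clE μ s V L e C i i₁ a x b g) : clE μ s V L e C j i₁ a x b g :=
  ⟨hg.1, fun k hk hk1 => hg.2 k (h.trans hk) hk1⟩

/-- The probability of the near tie of the class `clE i i₁`. -/
def NE (μ : Measure ℝ) (s : ℝ) (V : Win) (L : ℕ) (e C : ℝ) (i₁ : ℕ) (A : Env → Finset ℕ → Prop) (i : ℕ) (M : ℝ) : ℝ :=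
  NM μ s V.N V.y (InL μ s V.sg V.J V.Y) (clE μ s V L e C i i₁) (clL μ s V) (Br V) A M

theorem NE_eq (V : Win) (L : ℕ) (e C : ℝ) (i₁ : ℕ) (A : Env → Finset ℕ → Prop) (i : ℕ) (M : ℝ) :
    NE μ s V L e C i₁ A i M = (P1 μ s V.N V.y (fun η S => A η S ∧ NTE μ s V L e C i i₁ M η S)).toReal := rfl

theorem NE_nonneg [IsProbabilityMeasure μ] (V : Win) (L : ℕ) (e C : ℝ) (i₁ : ℕ) (A : Env → Finset ℕ → Prop) (i : ℕ) (M : ℝ) :
    0 ≤ NE μ s V L e C i₁ A i M := NM_nonneg _ _ _ _ _ _ _ _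

theorem NE_mono [IsProbabilityMeasure μ] {V : Win} {L : ℕ} (h : V.Ok L) (e C : ℝ) (i₁ : ℕ) (A : Env → Finset ℕ → Prop) {i j : ℕ}
    (hij : i ≤ j) {M M' : ℝ} (hM : M ≤ M') : NE μ s V L e C i₁ A i M ≤ NE μ s V L e C i₁ A j M' :=
  NM_mono h.y0 h.yN _ (fun _ _ _ _ hg => clE_mono hij hg) _ _ hM

theorem NE_le [IsProbabilityMeasure μ] {V : Win} {L : ℕ} (h : V.Ok L) (e C : ℝ) (i₁ : ℕ) (A : Env → Finset ℕ → Prop) (i : ℕ) (M : ℝ) :
    NE μ s V L e C i₁ A i M ≤ (P1 μ s V.N V.y (fun η S => A η S ∧ InL μ s V.sg V.J V.Y S)).toReal :=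
  NM_le h.y0 h.yN _ _ _ _ _ _

/-! ### The inputs -/

/-- The inputs of the step at the scale `2 ^ i`: cells, sites `T`, kernels `K`, out kernels `o`, rest `q`, the part `F0` of `log r`
which does not see the cell, good environments `E`; `x = L ^ ε₂`, `δ = exp (- L ^ c)`. -/
def StepIn (μ : Measure ℝ) (s : ℝ) (V : Win) (L : ℕ) (e C : ℝ) (i i₁ : ℕ) (A : Env → Finset ℕ → Prop) (x δ : ℝ) : Prop :=
  ∃ (Z : Finset Ce) (p t : ℝ) (T : Ce → Finset Pt) (K : Ce → Env → ℝ) (o q F0 : Finset ℕ → Ce → Env → ℝ) (E : Set Env),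
    W_7d29a1_Z59.Dlr μ (PC V.N V.y (InL μ s V.sg V.J V.Y) (clE μ s V L e C i i₁) (Br V)) Z p t T K (aC A) (wC μ s V.N) (ZC μ s V.N V.y)
      (fun S => rE μ s V L e C i i₁ S) o q ∧
    (∀ S ∈ PC V.N V.y (InL μ s V.sg V.J V.Y) (clE μ s V L e C i i₁) (Br V), ∀ z ∈ Z, Measurable (F0 S z)) ∧
    (∀ S ∈ PC V.N V.y (InL μ s V.sg V.J V.Y) (clE μ s V L e C i i₁) (Br V), ∀ z ∈ Z, DependsOn (F0 S z) ((T z : Set Pt)ᶜ)) ∧
    (∀ S ∈ PC V.N V.y (InL μ s V.sg V.J V.Y) (clE μ s V L e C i i₁) (Br V), ∀ z ∈ Z, ∀ g,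
      F0 S z g ≤ Real.log (rE μ s V L e C i i₁ S g)) ∧
    MeasurableSet E ∧ (law μ).real Eᶜ ≤ δ ∧ x⁻¹ ≤ p ∧
    (#Z : ℝ) ≤ x * ((V.nJ : ℝ) / 2 ^ i * ((V.w : ℝ) / wd' μ s (2 ^ i) + 1)) ∧
    (∀ g ∈ E, ∀ S ∈ PC V.N V.y (InL μ s V.sg V.J V.Y) (clE μ s V L e C i i₁) (Br V), ∀ M : ℝ, EE' μ s (2 ^ i) ≤ M →
      |Real.log (rE μ s V L e C i i₁ S g)| ≤ M → x⁻¹ * ((V.nJ : ℝ) / 2 ^ i) * EE' μ s (2 ^ i) ≤
        ∑ z ∈ Z, min (Real.log (W_7d29a1_Z59.rsh t K (fun S => rE μ s V L e C i i₁ S) o S z g) -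
          Real.log (rE μ s V L e C i i₁ S g)) M) ∧
    (∀ g ∈ E, ∀ S ∈ PC V.N V.y (InL μ s V.sg V.J V.Y) (clE μ s V L e C i i₁) (Br V), ∀ z ∈ Z,
      Real.log (rE μ s V L e C i i₁ S g) - F0 S z g ≤ x * EE' μ s (2 ^ i)) ∧
    (∀ g ∈ E, ∀ S ∈ PC V.N V.y (InL μ s V.sg V.J V.Y) (clE μ s V L e C i i₁) (Br V),
      ∑ z ∈ Z, (Real.log (rE μ s V L e C i i₁ S g) - F0 S z g) ≤ x * ((V.nJ : ℝ) / 2 ^ i) * EE' μ s (2 ^ i))

theorem one_le_EE' (n : ℕ) : 1 ≤ EE' μ s n := le_max_left _ _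

theorem one_le_wd' (n : ℕ) : 1 ≤ wd' μ s n := le_max_left _ _

/-- **The step at the scale `2 ^ i`.** `n` = number of layers, `s = √(x n W)` a bound of the root of the number of cells,
`M' = n E / s` the gain in units of the root of the number of cells. -/
theorem stepE [IsProbabilityMeasure μ] {V : Win} {L : ℕ} (hV : V.Ok L) {e C : ℝ} {i i₁ : ℕ} {A : Env → Finset ℕ → Prop}
    (hA : Ms A) {x δ : ℝ} (hx : 1 ≤ x) (hin : StepIn μ s V L e C i i₁ A x δ) {n W M : ℝ} (hn : n = (V.nJ : ℝ) / 2 ^ i) (hn0 : 0 < n)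
    (hW : W = (V.w : ℝ) / wd' μ s (2 ^ i) + 1) (hW0 : 0 < W) (hM : EE' μ s (2 ^ i) ≤ M) :
    NE μ s V L e C i₁ A i M ≤ 5 * x ^ 4 * (M / (n * EE' μ s (2 ^ i) / √(x * n * W))) *
      NE μ s V L e C i₁ A i (4 * (n * EE' μ s (2 ^ i) / √(x * n * W)) + 2 * (x * M) + Real.log #(Br V)) +
      ((4 * x ^ 3 * (M / (n * EE' μ s (2 ^ i))) * (√(x * n * W) * Real.exp (1 - x) + x * n * W * δ) + δ) +
        #(Br V) * Real.exp (-(x * M))) := by
  obtain ⟨Z, p, t, T, K, o, q, F0, E, hD, F0m, F0d, F0l, hE, hδ, hp, hZ, hGa, hdet, hRi⟩ := hin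
  obtain ⟨En, hEn⟩ : ∃ En, En = EE' μ s (2 ^ i) := ⟨_, rfl⟩
  rw [← hEn] at hM hGa hdet hRi ⊢
  have hE1 : 1 ≤ En := hEn ▸ one_le_EE' _
  rw [← hn] at hZ hGa hRi
  rw [← hW] at hZ
  have hx0 : 0 < x := by linarith
  have hp0 : 0 < p := hD.p0
  have hδ0 : 0 ≤ δ := measureReal_nonneg.trans hδ
  have hxnW : 0 < x * n * W := by positivity
  obtain ⟨sn, hs⟩ : ∃ sn, sn = √(x * n * W) := ⟨_, rfl⟩
  have hs0 : 0 < sn := by rw [hs]; exact Real.sqrt_pos.2 hxnW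
  have hss : sn * sn = x * n * W := by rw [hs]; exact Real.mul_self_sqrt hxnW.le
  have hZ' : (#Z : ℝ) ≤ sn * sn := by rw [hss]; exact hZ.trans (le_of_eq (by ring))
  have hZs : Real.sqrt #Z ≤ sn := by
    rw [Real.sqrt_le_left hs0.le, sq]
    exact hZ'
  rw [← hs]
  obtain ⟨M', hM'⟩ : ∃ M', M' = n * En / sn := ⟨_, rfl⟩
  rw [← hM']
  have hM'0 : 0 < M' := by rw [hM']; positivity
  have hM0 : 0 < M := by linarith
  have hMx : En ≤ x * M := hM.trans (le_mul_of_one_le_left hM0.le hx)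
  have hxM : 0 < x * M := by positivity
  have hst := stepC (μ := μ) (N := V.N) (y := V.y) (F := InL μ s V.sg V.J V.Y) (C := clE μ s V L e C i i₁) (D := clL μ s V) (B := Br V) hA hD
    F0m F0d F0l (M := x * M) (M' := M') hxM hM'0 hE (Ga := x⁻¹ * n * En) (Ri := x * n * En) (by positivity)
    (fun g hg S hS hr => hGa g hg S hS (x * M) hMx hr)
    (fun g hg S hS _ z hz => (hdet g hg S hS z hz).trans (mul_le_mul_of_nonneg_left hM hx0.le)) (by positivity)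
    (fun g hg S hS _ => (sum_le_sum fun z _ => min_le_left _ _).trans (hRi g hg S hS)) x hx0.le
  have hp1 : 1 / p ≤ x := by
    rw [div_le_iff₀ hp0]
    have := mul_le_mul_of_nonneg_left hp hx0.le
    rw [mul_inv_cancel₀ hx0.ne'] at this
    linarith
  have hp00 : 0 ≤ 1 / p := by positivity
  have hRM : x * n * En / (4 * M') = x * sn / 4 := by
    rw [hM']
    field_simp
  rw [hRM] at hst
  have hc1 : 4 * (x * M) / (x⁻¹ * n * En) = 4 * x ^ 2 * (M / (n * En)) := by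
    field_simp
  rw [hc1] at hst
  have hMn : 0 ≤ M / (n * En) := by positivity
  obtain ⟨κ, hκ⟩ : ∃ κ, κ = 4 * x ^ 2 * (M / (n * En)) * ((1 / p) * (Real.sqrt #Z * x + x * sn / 4)) := ⟨_, rfl⟩
  obtain ⟨er, her⟩ : ∃ er, er = 4 * x ^ 2 * (M / (n * En)) * ((1 / p) * (Real.sqrt #Z * Real.exp (1 - x) + #Z * (law μ).real Eᶜ)) +
    (law μ).real Eᶜ := ⟨_, rfl⟩
  rw [← hκ, ← her] at hst
  have hκ0 : 0 ≤ κ := by rw [hκ]; positivity
  have hfin := stepN (μ := μ) hV.y0 hV.yN (C := clE μ s V L e C i i₁) (Br_ok hV) (own_clL V) (A := A) (M := M) (le_mul_of_one_le_left hM0.le hx) hκ0 hst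
  have hκ1 : κ ≤ 5 * x ^ 4 * (M / M') := by
    have e1 : (1 / p) * (Real.sqrt #Z * x + x * sn / 4) ≤ x * (sn * x + x * sn / 4) := by
      refine mul_le_mul hp1 ?_ (by positivity) hx0.le
      have := mul_le_mul_of_nonneg_right hZs hx0.le
      linarith
    have e2 := mul_le_mul_of_nonneg_left e1 (show 0 ≤ 4 * x ^ 2 * (M / (n * En)) by positivity)
    rw [hκ]
    refine e2.trans (le_of_eq ?_)
    rw [hM']
    field_simp
    ring
  have her1 : er ≤ 4 * x ^ 3 * (M / (n * En)) * (sn * Real.exp (1 - x) + x * n * W * δ) + δ := by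
    have e1 : Real.sqrt #Z * Real.exp (1 - x) + #Z * (law μ).real Eᶜ ≤ sn * Real.exp (1 - x) + x * n * W * δ := by
      refine add_le_add (mul_le_mul_of_nonneg_right hZs (Real.exp_pos _).le) ?_
      rw [← hss]
      exact mul_le_mul hZ' hδ measureReal_nonneg (by positivity)
    have e0 : 0 ≤ Real.sqrt #Z * Real.exp (1 - x) + #Z * (law μ).real Eᶜ := by positivity
    have e2 := mul_le_mul hp1 e1 e0 hx0.le
    have e3 := mul_le_mul_of_nonneg_left e2 (show 0 ≤ 4 * x ^ 2 * (M / (n * En)) by positivity)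
    rw [her]
    refine add_le_add (e3.trans (le_of_eq ?_)) hδ
    ring
  have hNE0 := NE_nonneg (μ := μ) (s := s) V L e C i₁ A i (4 * M' + 2 * (x * M) + Real.log #(Br V))
  have e4 := mul_le_mul_of_nonneg_right hκ1 hNE0
  unfold NE at e4 ⊢
  linarith

end

end Pool.Agent.W_7d29a1_HZ.ZE
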