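import Pool.Agent.W_7d29a1_HZ.ZE_F0
import Pool.Agent.W_7d29a1_HZ.ZE_Step
import Pool.Agent.W_7d29a1_HZ.Z37_CellD
import Pool.Agent.W_7d29a1_Z37.CellE

/-!
STORM Z AT ONE TILT `s`, SECOND STOREY (MP_7d29a1_pr), piece Cell: the cells of the window as cells of `W_7d29a1_Z37`, the data `Dlr` of
the localised step. (helper37)
-/

set_option autoImplicit false

namespace Pool.Agent.W_7d29a1_HZ.ZE

open MeasureTheory ProbabilityTheory Filter Topology Finset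
open Pool.Agent.W_7d29a1_F Pool.Agent.W_7d29a1_X Pool.Agent.W_7d29a1_H Pool.Agent.W_7d29a1_HZ Pool.Agent.W_7d29a1_Z37
open Pool.Agent.W_7d29a1_HS (In wd md)
open Pool.Agent.W_7d29a1_Z (ps pw pcs Kf Kc Reg sJ mem_sJ mem_pcs exists_of_mem_sJ Kc_meas)
open Pool.Agent.W_7d29a1_Z15 (Cls AdC Own PC aC)
open Pool.Agent.W_7d29a1_HZ.Z15 (kC rC NTc wC ZC mkDlr)
open Pool.Agent.W_7d29a1_ZE (Win Br cAnd mid Ce al mem_J br_le br_ne al_le ndOut mid_sub)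

noncomputable section

variable {μ : Measure ℝ} {s : ℝ}

/-- The half range of the displacements of the pairs of a cell. -/
def w4 (μ : Measure ℝ) (s C : ℝ) (i : ℕ) : ℕ := ⌈4 * (C * wd' μ s (2 ^ i))⌉₊

open scoped Classical in
/-- The pairs of nodes of the cell. -/
def Uc (μ : Measure ℝ) (s : ℝ) (V : Win) (L : ℕ) (e C : ℝ) (i Dh : ℕ) (z : Ce) : Finset (ℤ × ℤ) :=
  ((Ico ((Dh : ℤ) * z.2.2) (Dh * (z.2.2 + 1))) ×ˢ
    (Icc ((Dh : ℤ) * z.2.2 + md μ s (2 ^ i) - w4 μ s C i) (Dh * (z.2.2 + 1) + md μ s (2 ^ i) + w4 μ s C i))).filter fun p =>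
      Pr μ s V L e i (al i z) p.1 p.2

/-- The cell `z` of the scale `2 ^ i` with the column width `Dh`. -/
def ce (μ : Measure ℝ) (s : ℝ) (V : Win) (L : ℕ) (e C : ℝ) (i Dh : ℕ) (z : Ce) : Cel where
  t0 := al i z
  t1 := al i z + 2 ^ i / 4
  t2 := al i z + 3 * 2 ^ i / 4
  t3 := al i z + 2 ^ i
  b := Dh * z.2.2 + (Dh / 2 : ℕ) + md μ s (2 ^ i / 4)
  e := Dh * z.2.2 + (Dh / 2 : ℕ) + md μ s (2 ^ i / 4) + md μ s (2 ^ i / 2)
  Y := col μ s (al i z) Dh z.2.2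
  U := Uc μ s V L e C i Dh z

/-- The condition at each time. -/
def PV (μ : Measure ℝ) (s : ℝ) (V : Win) : ℕ → ℤ → Prop := PR (Rr μ s V.sg V.J V.Y V.w)

/-- The condition on the nodes. -/
def PhV (μ : Measure ℝ) (s : ℝ) (V : Win) (L : ℕ) (e C : ℝ) (i i₁ : ℕ) : (ℕ → ℤ) → Prop :=
  fun u => ∀ j, i ≤ j → j ≤ i₁ → ∀ T ∈ V.Iv, Nod μ s V L e C j T u

/-- The denominator. -/
def denV (μ : Measure ℝ) (s : ℝ) (V : Win) : ℕ × ℕ → ℤ → ℤ → Env → ℝ :=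
  fun b x y η => Kc μ s 0 (clL μ s V b.1 x b.2) η b.1 x b.2 y

theorem rE_eq (V : Win) (L : ℕ) (e C : ℝ) (i i₁ : ℕ) (S : Finset ℕ) (η : Env) :
    rE μ s V L e C i i₁ S η = rR μ s 0 0 (PV μ s V) (PhV μ s V L e C i i₁) (Br V) (denV μ s V) 0 0 S η := by
  unfold rE rC rR kC denV
  refine sum_congr rfl fun b _ => ?_
  rw [W_7d29a1_Z17.pos_eq_ps, W_7d29a1_Z17.pos_eq_ps]
  rfl

open scoped Classical in
/-- The sites of all the cells. -/
def DV (μ : Measure ℝ) (s : ℝ) (V : Win) (i Dh : ℕ) (t : ℕ) : Finset ℤ :=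
  (Zc μ s V i Dh).biUnion fun z => if t ∈ mid (al i z) (2 ^ i) then col μ s (al i z) Dh z.2.2 t else ∅

theorem mem_DV {V : Win} {i Dh : ℕ} {t : ℕ} {x : ℤ} :
    x ∈ DV μ s V i Dh t ↔ ∃ z ∈ Zc μ s V i Dh, (((t : ℤ), x) : Pt) ∈ Tz μ s i Dh z := by
  classical
  unfold DV
  rw [mem_biUnion]
  refine exists_congr fun z => and_congr_right fun _ => ?_
  rw [mem_Tz]
  split_ifs with h <;> simp [h]

theorem tz_sub {V : Win} (hsg : V.sg = 1 ∨ V.sg = -1) {i Dh : ℕ} (hi : i ≤ V.a) {z : Ce} (hz : z ∈ Zc μ s V i Dh) :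
    Tz μ s i Dh z ⊆ sJ V.J (DV μ s V i Dh) := by
  intro p hp
  obtain ⟨t, -, x, -, rfl⟩ := exists_of_mem_sJ hp
  exact mem_sJ.2 ⟨(tz_strip hsg hi hz hp).1, mem_DV.2 ⟨z, hz, hp⟩⟩

/-- The cells are disjoint. -/
theorem tz_disj {V : Win} {L : ℕ} (hV : V.Ok L) {i D : ℕ} (hi : i ≤ V.a) (hD : 0 < D) {z z' : Ce} (hz : z ∈ Zc μ s V i D)
    (hz' : z' ∈ Zc μ s V i D) (hne : z ≠ z') : Disjoint (Tz μ s i D z) (Tz μ s i D z') := by
  rw [disjoint_left]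
  intro p hp hp'
  obtain ⟨t, -, x, -, rfl⟩ := exists_of_mem_sJ hp
  rw [mem_Tz] at hp hp'
  obtain ⟨h1, h2⟩ := zc_mem hz
  obtain ⟨h1', h2'⟩ := zc_mem hz'
  have h3 := mid_sub hp.1
  have h3' := mid_sub hp'.1
  have h4 := al_le hi h2
  have h4' := al_le hi h2'
  have hT : z.1 = z'.1 := by
    by_contra hT
    rcases hV.sep z.1 h1 z'.1 h1' hT with h | h <;> omega
  have hp2 : 0 < 2 ^ i := Nat.pos_of_ne_zero (by positivity)
  have hk : z.2.1 = z'.2.1 := by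
    unfold al at h3 h3'
    rw [← hT] at h3'
    by_contra hk
    rcases Nat.lt_or_gt_of_ne hk with h | h
    · have := Nat.mul_le_mul_right (2 ^ i) h
      rw [Nat.succ_mul] at this
      omega
    · have := Nat.mul_le_mul_right (2 ^ i) h
      rw [Nat.succ_mul] at this
      omega
  have hal : al i z = al i z' := by
    unfold al
    rw [hT, hk]
  have h5 := mem_col.1 hp.2
  have h6 := mem_col.1 hp'.2
  rw [← hal] at h6
  have hDZ : (0 : ℤ) < D := by exact_mod_cast hD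
  have hq : z.2.2 = z'.2.2 := by
    by_contra hq
    rcases lt_or_gt_of_ne hq with h | h
    · have : (D : ℤ) * (z.2.2 + 1) ≤ D * z'.2.2 := mul_le_mul_of_nonneg_left (by omega) hDZ.le
      linarith [h5.2, h6.1]
    · have : (D : ℤ) * (z'.2.2 + 1) ≤ D * z.2.2 := mul_le_mul_of_nonneg_left (by omega) hDZ.le
      linarith [h5.1, h6.2]
  exact hne (Prod.ext hT (Prod.ext hk hq))

theorem denV_dep {V : Win} (hsg : V.sg = 1 ∨ V.sg = -1) {i Dh : ℕ} (hi : i ≤ V.a) (b : ℕ × ℕ) (x y : ℤ) :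
    DependsOn (denV μ s V b x y) ((sJ V.J (DV μ s V i Dh) : Set Pt)ᶜ) := by
  intro η η' hη
  unfold denV
  refine Kc_off (T := (sJ V.J (DV μ s V i Dh) : Set Pt)) (fun g _ hC t ht hT => ?_) fun q hq => hη q hq
  rw [Finset.mem_coe, mem_sJ] at hT
  obtain ⟨z, hz, hT2⟩ := mem_DV.1 hT.2
  have h1 := tz_strip hsg hi hz hT2
  have h2 := hC t ht
  unfold Lr at h2
  simp only [Set.mem_ofPred_eq, Int.toNat_natCast] at h2
  have h3 := h2 h1.1
  omega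

theorem phV_blind {V : Win} {L : ℕ} (hV : V.Ok L) {e C : ℝ} {i i₁ : ℕ} (hi₁ : i₁ ≤ V.a) (hi : i ≤ i₁) {z : Ce} (hz : z.1 ∈ V.Iv)
    (hk : z.2.1 < 2 ^ (V.a - i)) : Blind (PhV μ s V L e C i i₁) (al i z) (al i z + 2 ^ i) := by
  intro f g hfg
  have hn := ndOut hV hi₁ hi hz hk
  refine forall_congr' fun j => forall_congr' fun hj => forall_congr' fun hj' => forall₂_congr fun T hT => ?_
  exact Nod.iff_congr fun k hk' => hfg _ (hn j hj hj' T hT k hk')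

/-- The data of (DL) with cells. -/
theorem cdat {V : Win} {L : ℕ} (hV : V.Ok L) {e C : ℝ} {i i₁ Dh : ℕ} (hi₁ : i₁ ≤ V.a) (hi : i ≤ i₁) (hDh : 0 < Dh)
    {t p : ℝ} (hp : 0 < p)
    (hpr : ∀ z ∈ Zc μ s V i Dh, (law μ).real {η | Real.exp t ≤ (ce μ s V L e C i Dh z).K μ s 0 η} = p) :
    CDat μ s 0 0 (PV μ s V) (PhV μ s V L e C i i₁) (Br V) (denV μ s V) 0 0 0 0 V.J (DV μ s V i Dh) (fun _ _ => 0) (Zc μ s V i Dh)
      (ce μ s V L e C i Dh) t p := by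
  classical
  constructor
  · refine ⟨∅, ?_⟩
    rw [mem_pcs]
    simp [ps]
  · intro z hz
    obtain ⟨h1, h2⟩ := zc_mem hz
    refine ⟨?_, ?_, ?_, ?_⟩
    · exact Nat.le_add_right _ _
    · show al i z + 2 ^ i / 4 ≤ al i z + 3 * 2 ^ i / 4
      omega
    · show al i z + 3 * 2 ^ i / 4 ≤ al i z + 2 ^ i
      omega
    · intro t ht y hy
      have h3 : (((t : ℤ), y) : Pt) ∈ Tz μ s i Dh z := mem_Tz.2 ⟨ht, hy⟩
      have h4 := tz_strip hV.sgn (hi.trans hi₁) hz h3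
      show (((t : ℤ), y) : Pt) ∈ Rr μ s V.sg V.J V.Y V.w
      exact fun _ => h4.2
  · intro z hz b hb
    obtain ⟨h1, h2⟩ := zc_mem hz
    have h3 := (br_le hb).2.2 z.1 h1
    have h4 := al_le (hi.trans hi₁) h2
    show b.1 ≤ al i z ∧ al i z + 2 ^ i ≤ b.2
    omega
  · intro z hz
    obtain ⟨h1, h2⟩ := zc_mem hz
    exact phV_blind hV hi₁ hi h1 h2
  · intro z hz
    exact tz_sub hV.sgn (hi.trans hi₁) hz
  · intro z hz z' hz' hne
    exact tz_disj hV (hi.trans hi₁) hDh hz hz' hne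
  · exact hp
  · exact hpr
  · exact fun b _ x y => Kc_meas _ _ _ _ _ _
  · exact fun b _ x y => Kc_pos_or _ _ _ _ _ _
  · exact fun b _ x y => denV_dep hV.sgn (hi.trans hi₁) b x y
  · exact fun _ _ => le_rfl
  · exact fun _ _ => zero_le_one
  · exact fun _ => measurable_const
  · exact fun _ _ _ _ => rfl
  · exact fun _ _ _ _ => rfl

/-- The outer weight of the cell. -/
def oE (μ : Measure ℝ) (s : ℝ) (V : Win) (L : ℕ) (e C : ℝ) (i i₁ Dh : ℕ) (S : Finset ℕ) (z : Ce) (η : Env) : ℝ :=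
  rO μ s 0 0 (PV μ s V) (PhV μ s V L e C i i₁) (Br V) (denV μ s V) 0 0 (ce μ s V L e C i Dh z) S η

/-- The rest. -/
def qE (μ : Measure ℝ) (s : ℝ) (V : Win) (L : ℕ) (e C : ℝ) (i i₁ Dh : ℕ) (S : Finset ℕ) (z : Ce) (η : Env) : ℝ :=
  rQ μ s 0 0 (PV μ s V) (PhV μ s V L e C i i₁) (Br V) (denV μ s V) 0 0 (ce μ s V L e C i Dh z) S η

/-- The kernel of the cell. -/
def kE (μ : Measure ℝ) (s : ℝ) (V : Win) (L : ℕ) (e C : ℝ) (i Dh : ℕ) (z : Ce) (η : Env) : ℝ := (ce μ s V L e C i Dh z).K μ s 0 η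

/-- A path left of the line avoids the cells. -/
theorem inL_avoid {V : Win} (hsg : V.sg = 1 ∨ V.sg = -1) {i D : ℕ} (hi : i ≤ V.a) {z : Ce} (hz : z ∈ Zc μ s V i D) {S : Finset ℕ} (hS : InL μ s V.sg V.J V.Y S)
    {p : Pt} (hp : p ∈ Tz μ s i D z) {t : ℕ} (ht : p.1 = t) : pos S t ≠ p.2 := by
  intro h
  have h0 : p = (((t : ℤ), pos S t) : Pt) := Prod.ext ht h.symm
  rw [h0] at hp
  have h1 := tz_strip hsg hi hz hp
  have h2 := hS t h1.1
  omega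

/-- **The data `Dlr` of the localised step.** -/
theorem dlrE [IsProbabilityMeasure μ] {V : Win} {L : ℕ} (hV : V.Ok L) {e C : ℝ} {i i₁ Dh : ℕ} (hi₁ : i₁ ≤ V.a) (hi : i ≤ i₁)
    (hDh : 0 < Dh) {A : Env → Finset ℕ → Prop} (hA : Ms A) (hoff : OffRows V.J A) {t p : ℝ} (hp : 0 < p)
    (hpr : ∀ z ∈ Zc μ s V i Dh, (law μ).real {η | Real.exp t ≤ kE μ s V L e C i Dh z η} = p) :
    W_7d29a1_Z59.Dlr μ (PC V.N V.y (InL μ s V.sg V.J V.Y) (clE μ s V L e C i i₁) (Br V)) (Zc μ s V i Dh) p t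
      (Tz μ s i Dh) (kE μ s V L e C i Dh) (aC A) (wC μ s V.N) (ZC μ s V.N V.y)
      (fun S => rE μ s V L e C i i₁ S) (oE μ s V L e C i i₁ Dh) (qE μ s V L e C i i₁ Dh) := by
  have hC := cdat hV hi₁ hi hDh hp hpr
  have hia := hi.trans hi₁
  refine mkDlr (D := clL μ s V) hV.y0 hV.yN (Br_ok hV) (own_L V) hA hoff hp ?_ ?_ ?_ ?_ ?_ ?_ ?_ ?_ ?_ ?_ ?_ ?_
  · exact fun z hz z' hz' hne => tz_disj hV hia hDh hz hz' hne
  · intro z _
    unfold kE Cel.K Kcell KP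
    exact Kc_meas _ _ _ _ _ _
  · intro z _ η η' hh
    exact Kcell_env 0 _ _ _ _ _ fun v hv => hh v hv
  · intro z _ η η' hh
    unfold kE Cel.K Kcell KP
    exact Kc_mono 0 _ _ _ _ _ hh
  · exact hpr
  · intro z hz p hp
    obtain ⟨t, -, x, -, rfl⟩ := exists_of_mem_sJ hp
    refine ⟨?_, ?_⟩
    · show (0 : ℤ) ≤ (t : ℤ)
      positivity
    · show ((t : ℤ)).toNat ∈ V.J
      rw [Int.toNat_natCast]
      exact (tz_strip hV.sgn hia hz hp).1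
  · exact fun S hS z hz p hp t ht => inL_avoid hV.sgn hia hz hS hp ht
  · intro S _ z _
    exact Finset.measurable_sum _ fun b _ => (Oc_meas 0 _ _ _ _ _ _ _).div (Kc_meas _ _ _ _ _ _)
  · exact fun S _ z _ η => hC.rO_nonneg _ S η
  · intro S _ z hz η η' hh
    refine sum_congr rfl fun b hb => ?_
    have e1 : denV μ s V b (ps 0 0 0 S b.1) (ps 0 0 0 S b.2) η = denV μ s V b (ps 0 0 0 S b.1) (ps 0 0 0 S b.2) η' :=
      denV_dep hV.sgn hia b _ _ fun v hv => hh v fun hv' => hv (tz_sub hV.sgn hia hz hv')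
    rw [e1, Oc_env 0 (PV μ s V) _ (hC.ok z hz) (fun v hv => hh v hv)]
  · intro S _ z hz η η' h1 h2
    refine sum_le_sum fun b hb => ?_
    have e1 : denV μ s V b (ps 0 0 0 S b.1) (ps 0 0 0 S b.2) η = denV μ s V b (ps 0 0 0 S b.1) (ps 0 0 0 S b.2) η' :=
      denV_dep hV.sgn hia b _ _ fun v hv => h2 v fun hv' => hv (tz_sub hV.sgn hia hz hv')
    rw [e1]
    exact div_le_div_of_nonneg_right (Kc_mono 0 _ _ _ _ _ h1) (hC.den_nonneg hb _ _ _)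
  · intro S _ z hz η
    have h1 := rE_eq (μ := μ) (s := s) V L e C i i₁ S η
    have h2 := hC.rR_eq hz S η
    unfold rE at h1
    rw [h1, h2]
    rfl

end

end Pool.Agent.W_7d29a1_HZ.ZE
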