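import Pool.Agent.W_7d29a1_HZ.ZE_Cell

/-!
STORM Z AT ONE TILT `s`, SECOND STOREY (MP_7d29a1_pr), piece Cell: the good event of a cell (four legs, two partition functions); a good
cell is regular. (helper37)
-/

set_option autoImplicit false

namespace Pool.Agent.W_7d29a1_HZ.ZE

open MeasureTheory ProbabilityTheory Filter Topology Finset
open Pool.Agent.W_7d29a1_F Pool.Agent.W_7d29a1_X Pool.Agent.W_7d29a1_H Pool.Agent.W_7d29a1_HZ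
open Pool.Agent.W_7d29a1_Z37 (Cel KP PR Kc_mono_class)
open Pool.Agent.W_7d29a1_HZ.Z37 (KP_eq_WR reg_of)
open Pool.Agent.W_7d29a1_HS (In wd md St)
open Pool.Agent.W_7d29a1_Z (ps Kc Kf Kc_le_Kf W_eq_Kf)
open Pool.Agent.W_7d29a1_ZE (Win Br cAnd mid Ce al)

noncomputable section

variable {μ : Measure ℝ} {s : ℝ}

/-- The leg of the duration `n` from `a` with the displacement `k` inside the tube of the half width `R wd' n` is at least `e ^ (-A)`. -/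
def Lg (μ : Measure ℝ) (s R A : ℝ) (n : ℕ) (a : Pt) (k : ℤ) : Set Env :=
  {η | Real.exp (-A) ≤ WR μ s (St μ s (R * wd' μ s n) a) η a n k}

/-- The first point of the cell. -/
def bE (μ : Measure ℝ) (s : ℝ) (i Dh : ℕ) (q : ℤ) : ℤ := Dh * q + (Dh / 2 : ℕ) + md μ s (2 ^ i / 4)

/-- The last point of the cell. -/
def fE (μ : Measure ℝ) (s : ℝ) (i Dh : ℕ) (q : ℤ) : ℤ := Dh * q + (Dh / 2 : ℕ) + md μ s (2 ^ i / 4) + md μ s (2 ^ i / 2)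

/-- The extreme end points. -/
def vM (μ : Measure ℝ) (s C : ℝ) (i Dh : ℕ) (q : ℤ) : ℤ := (Dh : ℤ) * q + md μ s (2 ^ i) - w4 μ s C i

/-- The extreme end points. -/
def vP (μ : Measure ℝ) (s C : ℝ) (i Dh : ℕ) (q : ℤ) : ℤ := (Dh : ℤ) * (q + 1) + md μ s (2 ^ i) + w4 μ s C i

/-- The cell `q` of the layer `[α, α + 2 ^ i]` is good: four legs, two partition functions. -/
def GC (μ : Measure ℝ) (s C R A A' : ℝ) (i Dh α : ℕ) (q : ℤ) : Set Env :=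
  (Lg μ s R A (2 ^ i / 4) ((α : ℤ), (Dh : ℤ) * q) (bE μ s i Dh q - (Dh : ℤ) * q) ∩
    Lg μ s R A (2 ^ i / 4) ((α : ℤ), (Dh : ℤ) * (q + 1)) (bE μ s i Dh q - (Dh : ℤ) * (q + 1))) ∩
  (Lg μ s R A (2 ^ i / 4) (((α + 3 * 2 ^ i / 4 : ℕ) : ℤ), fE μ s i Dh q) (vM μ s C i Dh q - fE μ s i Dh q) ∩
    Lg μ s R A (2 ^ i / 4) (((α + 3 * 2 ^ i / 4 : ℕ) : ℤ), fE μ s i Dh q) (vP μ s C i Dh q - fE μ s i Dh q)) ∩
  ({η | V μ s η ((α : ℤ), (Dh : ℤ) * q) (2 ^ i) ≤ A'} ∩ {η | V μ s η ((α : ℤ), (Dh : ℤ) * (q + 1)) (2 ^ i) ≤ A'})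

/-- The integer line. -/
theorem md_bd (n : ℕ) : sl μ s * n - 1 ≤ (md μ s n : ℝ) ∧ (md μ s n : ℝ) ≤ sl μ s * n := by
  unfold md
  have h1 := Int.floor_le (sl μ s * (n : ℝ))
  have h2 := (Int.sub_one_lt_floor (sl μ s * (n : ℝ))).le
  exact ⟨h2, h1⟩

/-- A tube inside the strip. -/
theorem leg_in {R R' : Set Pt} {η : Env} {t1 t2 n : ℕ} {x y : ℤ} {A : ℝ} (hn : t2 = t1 + n)
    (h : Real.exp (-A) ≤ WR μ s R η (((t1 : ℤ), x) : Pt) n (y - x))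
    (hR : ∀ p : Pt, (t1 : ℤ) < p.1 → p ∈ R → p ∈ R') : Real.exp (-A) ≤ KP μ s 0 (PR R') η t1 x t2 y := by
  rw [hn]
  rw [← KP_eq_WR] at h
  refine h.trans (Kc_mono_class _ _ _ _ _ _ fun S hS t ht => ?_)
  rw [mem_Ioc] at ht
  exact hR _ (by
    show ((t1 : ℕ) : ℤ) < ((t : ℕ) : ℤ)
    exact_mod_cast ht.1) (hS t (mem_Ioc.2 ht))

/-- The kernels of a region are at most the partition function. -/
theorem KP_le_V (R : Set Pt) (η : Env) (t1 n : ℕ) (x y : ℤ) :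
    KP μ s 0 (PR R) η t1 x (t1 + n) y ≤ Real.exp (V μ s η (((t1 : ℤ), x) : Pt) n) := by
  have h1 : KP μ s 0 (PR R) η t1 x (t1 + n) y ≤ Kf μ s 0 η t1 x (t1 + n) y := Kc_le_Kf _ _ _ _ _ _ _
  have h2 := W_eq_Kf (μ := μ) (s := s) η t1 x n (y - x)
  rw [add_sub_cancel] at h2
  rw [← h2] at h1
  refine h1.trans ?_
  rw [exp_V]
  unfold WS
  by_cases hy : 0 ≤ y - x ∧ y - x ≤ n
  · exact single_le_sum (f := fun y : ℤ => W μ s η (((t1 : ℤ), x) : Pt) n y) (fun y _ => W_nonneg _ _ _ _) (mem_Icc.2 hy)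
  · rw [W_eq_zero η _ hy]
    exact sum_nonneg fun y _ => W_nonneg _ _ _ _

/-- **A good cell is regular.** -/
theorem reg_GC {V : Win} (hsg : V.sg = 1 ∨ V.sg = -1) {L : ℕ} {e C R A A' : ℝ} {i Dh : ℕ} (hi : 3 ≤ i)
    (hwl : Dh + 3 + R * wd' μ s (2 ^ i / 4) < (L : ℝ) ^ (2 * e) * wd' μ s (2 ^ i)) {z : Ce} {η : Env}
    (hη : η ∈ GC μ s C R A A' i Dh (al i z) z.2.2) :
    η ∈ (ce μ s V L e C i Dh z).Reg μ s 0 (PV μ s V) (2 * A + A' + 2) := by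
  classical
  by_cases hU : (Uc μ s V L e C i Dh z).Nonempty
  swap
  · intro p hp
    exact absurd ⟨p, hp⟩ hU
  obtain ⟨⟨u0, v0⟩, hp0⟩ := hU
  unfold Uc at hp0
  rw [mem_filter, mem_product, mem_Ico, mem_Icc] at hp0
  obtain ⟨⟨⟨hu1, hu2⟩, -⟩, hPr⟩ := hp0
  simp only at hu1 hu2 hPr
  have hw0 := hPr.w0
  have hw1 := hPr.w1
  obtain ⟨m, hm⟩ : ∃ m : ℕ, 2 ^ i = 8 * m := ⟨2 ^ (i - 3), by
    have : (8 : ℕ) = 2 ^ 3 := by norm_num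
    rw [this, ← pow_add]
    congr 1
    omega⟩
  obtain ⟨⟨⟨h1, h2⟩, h3, h4⟩, h5, h6⟩ := hη
  obtain ⟨α, hα⟩ : ∃ α, α = al i z := ⟨_, rfl⟩
  obtain ⟨q, hq⟩ : ∃ q, q = z.2.2 := ⟨_, rfl⟩
  rw [← hα, ← hq] at h1 h2 h3 h4 h5 h6
  rw [← hα] at hw0 hw1
  rw [← hq] at hu1 hu2
  have hu1R : (Dh : ℝ) * q ≤ u0 := by exact_mod_cast hu1
  have hu2R : (u0 : ℝ) ≤ Dh * (q + 1) := by exact_mod_cast hu2.le
  have hDh0 : (0 : ℝ) ≤ Dh := Nat.cast_nonneg _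
  obtain ⟨v, hv⟩ : ∃ v : ℝ, v = sl μ s := ⟨_, rfl⟩
  have hmα := md_bd (μ := μ) (s := s) α
  rw [← hv] at hmα
  -- tubes around a point near `u0` are in the strip
  have tube : ∀ (t0 : ℕ) (x : ℤ), |((x : ℝ) - v * t0) - ((u0 : ℝ) - v * α)| ≤ Dh + 2 → ∀ p : Pt,
      (t0 : ℤ) < p.1 → p ∈ St μ s (R * wd' μ s (2 ^ i / 4)) ((t0 : ℤ), x) → p ∈ Rr μ s V.sg V.J V.Y V.w := by
    intro t0 x hx p hp1 hp _
    have h7 : |((p.2 : ℝ) - x) - v * ((p.1 : ℝ) - t0)| ≤ R * wd' μ s (2 ^ i / 4) := by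
      have := hp
      unfold St tb at this
      rw [← hv] at this
      simpa using this
    obtain ⟨t, ht⟩ : ∃ t : ℕ, t = p.1.toNat := ⟨_, rfl⟩
    have htZ : (t : ℤ) = p.1 := by
      rw [ht]
      exact Int.toNat_of_nonneg (by omega)
    have htR : (p.1 : ℝ) = t := by
      rw [← htZ]
      exact Int.cast_natCast t
    have hmt := md_bd (μ := μ) (s := s) t
    rw [← hv] at hmt
    rw [htR] at h7
    rw [← ht]
    have h7' := abs_le.1 h7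
    have hx' := abs_le.1 hx
    have h9 : -((L : ℝ) ^ (2 * e) * wd' μ s (2 ^ i)) < ((p.2 : ℝ) - md μ s t) - ((u0 : ℝ) - md μ s α) ∧
        ((p.2 : ℝ) - md μ s t) - ((u0 : ℝ) - md μ s α) < (L : ℝ) ^ (2 * e) * wd' μ s (2 ^ i) := by
      constructor
      · linarith [h7'.1, hx'.1, hmt.1, hmt.2, hmα.1, hmα.2]
      · linarith [h7'.2, hx'.2, hmt.1, hmt.2, hmα.1, hmα.2]
    rcases hsg with h | h
    · rw [h] at hw0 hw1 ⊢
      push_cast at hw0 hw1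
      constructor
      · have : (V.Y : ℝ) < 1 * ((p.2 : ℝ) - md μ s t) := by linarith [h9.1]
        exact_mod_cast this
      · have : 1 * ((p.2 : ℝ) - md μ s t) ≤ (V.Y : ℝ) + V.w := by linarith [h9.2]
        exact_mod_cast this
    · rw [h] at hw0 hw1 ⊢
      push_cast at hw0 hw1
      constructor
      · have : (V.Y : ℝ) < -1 * ((p.2 : ℝ) - md μ s t) := by linarith [h9.2]
        exact_mod_cast this
      · have : -1 * ((p.2 : ℝ) - md μ s t) ≤ (V.Y : ℝ) + V.w := by linarith [h9.1]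
        exact_mod_cast this
  have hb2 : 2 ^ i / 2 = 4 * m := by omega
  have hb4 : 2 ^ i / 4 = 2 * m := by omega
  have hb34 : 3 * 2 ^ i / 4 = 6 * m := by omega
  have x1 : |((((Dh : ℤ) * q : ℤ) : ℝ) - v * α) - ((u0 : ℝ) - v * α)| ≤ Dh + 2 := by
    push_cast
    rw [abs_le]
    constructor <;> linarith
  have x2 : |((((Dh : ℤ) * (q + 1) : ℤ) : ℝ) - v * α) - ((u0 : ℝ) - v * α)| ≤ Dh + 2 := by
    push_cast
    rw [abs_le]
    constructor <;> linarith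
  have hhalf : (((Dh / 2 : ℕ) : ℕ) : ℝ) ≤ Dh / 2 := by
    have : Dh / 2 * 2 ≤ Dh := Nat.div_mul_le_self Dh 2
    have h' : ((Dh / 2 : ℕ) : ℝ) * 2 ≤ Dh := by exact_mod_cast this
    linarith
  have hhalf0 : (0 : ℝ) ≤ ((Dh / 2 : ℕ) : ℝ) := Nat.cast_nonneg _
  have hcast : (((Dh : ℤ) / 2 : ℤ) : ℝ) = ((Dh / 2 : ℕ) : ℝ) := by
    have : ((Dh : ℤ) / 2 : ℤ) = ((Dh / 2 : ℕ) : ℤ) := by push_cast; rfl
    rw [this, Int.cast_natCast]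
  have x3 : |(((fE μ s i Dh q : ℤ) : ℝ) - v * ((α + 3 * 2 ^ i / 4 : ℕ) : ℝ)) - ((u0 : ℝ) - v * α)| ≤ Dh + 2 := by
    have m1 := md_bd (μ := μ) (s := s) (2 * m)
    have m2 := md_bd (μ := μ) (s := s) (4 * m)
    rw [← hv] at m1 m2
    unfold fE
    rw [hb2, hb4, hb34]
    push_cast at m1 m2 ⊢
    rw [hcast, abs_le]
    constructor
    · linarith [m1.1, m1.2, m2.1, m2.2]
    · linarith [m1.1, m1.2, m2.1, m2.2]
  have t1 := tube α _ x1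
  have t2 := tube α _ x2
  have t3 := tube (α + 3 * 2 ^ i / 4) _ x3
  have g1 := leg_in (R' := Rr μ s V.sg V.J V.Y V.w) (t2 := α + 2 ^ i / 4) rfl h1 t1
  have g2 := leg_in (R' := Rr μ s V.sg V.J V.Y V.w) (t2 := α + 2 ^ i / 4) rfl h2 t2
  have g3 := leg_in (R' := Rr μ s V.sg V.J V.Y V.w) (t2 := α + 2 ^ i) (by omega) h3 t3
  have g4 := leg_in (R' := Rr μ s V.sg V.J V.Y V.w) (t2 := α + 2 ^ i) (by omega) h4 t3
  refine reg_of (Rr μ s V.sg V.J V.Y V.w) (c := ce μ s V L e C i Dh z) (um := (Dh : ℤ) * q) (up := (Dh : ℤ) * (q + 1))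
    (vm := vM μ s C i Dh q) (vp := vP μ s C i Dh q) ?_ ?_ ?_ ?_ ?_ ?_ ?_ ?_ ?_ ?_
  · show al i z ≤ al i z + 2 ^ i / 4
    exact Nat.le_add_right _ _
  · show al i z + 2 ^ i / 4 ≤ al i z + 3 * 2 ^ i / 4
    omega
  · show al i z + 3 * 2 ^ i / 4 ≤ al i z + 2 ^ i
    omega
  · intro p hp
    have hp' : p ∈ Uc μ s V L e C i Dh z := hp
    unfold Uc at hp'
    rw [mem_filter, mem_product, mem_Ico, mem_Icc, ← hq] at hp'
    obtain ⟨⟨⟨a1, a2⟩, a3, a4⟩, -⟩ := hp'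
    unfold vM vP
    exact ⟨⟨a1, a2.le⟩, a3, a4⟩
  · show Real.exp (-A) ≤ KP μ s 0 (PR (Rr μ s V.sg V.J V.Y V.w)) η (al i z) ((Dh : ℤ) * q) (al i z + 2 ^ i / 4)
      (Dh * z.2.2 + (Dh / 2 : ℕ) + md μ s (2 ^ i / 4))
    rw [← hα, ← hq]
    exact g1
  · show Real.exp (-A) ≤ KP μ s 0 (PR (Rr μ s V.sg V.J V.Y V.w)) η (al i z) ((Dh : ℤ) * (q + 1)) (al i z + 2 ^ i / 4)
      (Dh * z.2.2 + (Dh / 2 : ℕ) + md μ s (2 ^ i / 4))
    rw [← hα, ← hq]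
    exact g2
  · show Real.exp (-A) ≤ KP μ s 0 (PR (Rr μ s V.sg V.J V.Y V.w)) η (al i z + 3 * 2 ^ i / 4)
      (Dh * z.2.2 + (Dh / 2 : ℕ) + md μ s (2 ^ i / 4) + md μ s (2 ^ i / 2)) (al i z + 2 ^ i) (vM μ s C i Dh q)
    rw [← hα, ← hq]
    exact g3
  · show Real.exp (-A) ≤ KP μ s 0 (PR (Rr μ s V.sg V.J V.Y V.w)) η (al i z + 3 * 2 ^ i / 4)
      (Dh * z.2.2 + (Dh / 2 : ℕ) + md μ s (2 ^ i / 4) + md μ s (2 ^ i / 2)) (al i z + 2 ^ i) (vP μ s C i Dh q)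
    rw [← hα, ← hq]
    exact g4
  · intro v
    show KP μ s 0 (PR (Rr μ s V.sg V.J V.Y V.w)) η (al i z) ((Dh : ℤ) * q) (al i z + 2 ^ i) v ≤ Real.exp A'
    rw [← hα]
    exact (KP_le_V _ η α (2 ^ i) _ v).trans (Real.exp_le_exp.2 h5)
  · intro v
    show KP μ s 0 (PR (Rr μ s V.sg V.J V.Y V.w)) η (al i z) ((Dh : ℤ) * (q + 1)) (al i z + 2 ^ i) v ≤ Real.exp A'
    rw [← hα]
    exact (KP_le_V _ η α (2 ^ i) _ v).trans (Real.exp_le_exp.2 h6)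

theorem Lg_meas (R A : ℝ) (n : ℕ) (a : Pt) (k : ℤ) : MeasurableSet (Lg μ s R A n a k) :=
  measurableSet_le measurable_const (measurable_WR _ _ _ _)

theorem Lg_dep (R A : ℝ) (n : ℕ) (a : Pt) (k : ℤ) {η η' : Env} (h : ∀ p ∈ rows a.1 (a.1 + n), η p = η' p) :
    η ∈ Lg μ s R A n a k ↔ η' ∈ Lg μ s R A n a k := by
  have h1 : WR μ s (St μ s (R * wd' μ s n) a) η a n k = WR μ s (St μ s (R * wd' μ s n) a) η' a n k := by
    refine WR_dep (μ := μ) (s := s) (St μ s (R * wd' μ s n) a) a n k fun p hp => h p ?_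
    exact ⟨hp.1.1, hp.1.2.1⟩
  unfold Lg
  show Real.exp (-A) ≤ _ ↔ Real.exp (-A) ≤ _
  rw [h1]

theorem GC_meas (C R A A' : ℝ) (i Dh α : ℕ) (q : ℤ) : MeasurableSet (GC μ s C R A A' i Dh α q) :=
  ((((Lg_meas _ _ _ _ _).inter (Lg_meas _ _ _ _ _)).inter ((Lg_meas _ _ _ _ _).inter (Lg_meas _ _ _ _ _)))).inter
    ((measurableSet_le (measurable_V _ _) measurable_const).inter (measurableSet_le (measurable_V _ _) measurable_const))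

theorem GC_dep (C R A A' : ℝ) {i : ℕ} (hi : 3 ≤ i) (Dh α : ℕ) (q : ℤ) {η η' : Env}
    (h : ∀ p ∈ rows (α : ℤ) (α + 2 ^ i), η p = η' p) : η ∈ GC μ s C R A A' i Dh α q ↔ η' ∈ GC μ s C R A A' i Dh α q := by
  obtain ⟨m, hm⟩ : ∃ m : ℕ, 2 ^ i = 8 * m := ⟨2 ^ (i - 3), by
    have : (8 : ℕ) = 2 ^ 3 := by norm_num
    rw [this, ← pow_add]
    congr 1
    omega⟩
  have hmZ : (2 : ℤ) ^ i = 8 * m := by exact_mod_cast hm
  have hb4 : 2 ^ i / 4 = 2 * m := by omega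
  have hb34 : 3 * 2 ^ i / 4 = 6 * m := by omega
  have r1 : ∀ x : ℤ, ∀ p ∈ rows ((((α : ℤ), x) : Pt)).1 (((((α : ℤ), x) : Pt)).1 + (2 ^ i / 4 : ℕ)), η p = η' p := by
    intro x p hp
    refine h p ⟨hp.1, ?_⟩
    have := hp.2
    rw [hb4] at this
    push_cast at this
    rw [hmZ]
    have hm0 : (0 : ℤ) ≤ m := by positivity
    have this' : p.1 ≤ (α : ℤ) + 2 * m := this
    linarith
  have r2 : ∀ x : ℤ, ∀ p ∈ rows (((((α + 3 * 2 ^ i / 4 : ℕ) : ℤ), x) : Pt)).1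
      ((((((α + 3 * 2 ^ i / 4 : ℕ) : ℤ), x) : Pt)).1 + (2 ^ i / 4 : ℕ)), η p = η' p := by
    intro x p hp
    have e1 := hp.1
    have e2 := hp.2
    rw [hb34] at e1 e2
    rw [hb4] at e2
    push_cast at e1 e2
    have hm0 : (0 : ℤ) ≤ m := by positivity
    have e1' : (α : ℤ) + 6 * m < p.1 := e1
    have e2' : p.1 ≤ (α : ℤ) + 6 * m + 2 * m := e2
    refine h p ⟨by linarith, ?_⟩
    rw [hmZ]
    linarith
  have r3 : ∀ x : ℤ, V μ s η (((α : ℤ), x) : Pt) (2 ^ i) = V μ s η' (((α : ℤ), x) : Pt) (2 ^ i) := by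
    intro x
    refine V_dep_rows (μ := μ) (s := s) (((α : ℤ), x) : Pt) (2 ^ i) fun p hp => h p ?_
    have := hp
    push_cast at this
    exact this
  unfold GC
  refine and_congr (and_congr (and_congr (Lg_dep _ _ _ _ _ (r1 _)) (Lg_dep _ _ _ _ _ (r1 _)))
    (and_congr (Lg_dep _ _ _ _ _ (r2 _)) (Lg_dep _ _ _ _ _ (r2 _)))) (and_congr ?_ ?_)
  · show V μ s η _ _ ≤ _ ↔ V μ s η' _ _ ≤ _
    rw [r3]
  · show V μ s η _ _ ≤ _ ↔ V μ s η' _ _ ≤ _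
    rw [r3]

end

end Pool.Agent.W_7d29a1_HZ.ZE
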