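import Pool.Agent.W_7d29a1_HZ.ZE_Defs
import Pool.Agent.W_7d29a1_Z59.REGb
import Pool.Agent.W_7d29a1_HS.Scale
/-!
STORM Z AT ONE TILT, SECOND STOREY (MP_7d29a1_pr): every sequence of nodes of bounded total variation meets few irregular cells. `B i α q` = the
column `q` of the layer `[α, α + 2 ^ i]` is irregular: an event of the rows of the layer, of small probability. (helper59)
-/

set_option autoImplicit false

namespace Pool.Agent.W_7d29a1_HZ.ZE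

open MeasureTheory ProbabilityTheory Filter Topology Finset
open Pool.Agent.W_7d29a1_F Pool.Agent.W_7d29a1_X Pool.Agent.W_7d29a1_H Pool.Agent.W_7d29a1_HZ
open Pool.Agent.W_7d29a1_HS (In wd md)
open scoped ENNReal

noncomputable section

variable {μ : Measure ℝ} {s : ℝ}

open scoped Classical in
/-- The layers at which the nodes `u` meet an irregular cell (`x / D` is the column of `x` at the start of the layer, in sites). -/
def irr (B : ℕ → ℕ → ℤ → Set Env) (D : ℕ → ℕ) (a i T : ℕ) (u : ℕ → ℤ) (η : Env) : Finset ℕ :=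
  (range (2 ^ (a - i))).filter fun k => η ∈ B i (T + k * 2 ^ i) (u (T + k * 2 ^ i) / (D i : ℤ))

theorem ediv_add_ediv {D a b : ℤ} (hD : 0 < D) : (a + b) / D = a / D + b / D ∨ (a + b) / D = a / D + b / D + 1 := by
  have h1 := Int.mul_ediv_self_le (x := a) hD.ne'
  have h2 := Int.lt_mul_ediv_self_add (x := a) hD
  have h3 := Int.mul_ediv_self_le (x := b) hD.ne'
  have h4 := Int.lt_mul_ediv_self_add (x := b) hD
  have h5 := Int.mul_ediv_self_le (x := a + b) hD.ne'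
  have h6 := Int.lt_mul_ediv_self_add (x := a + b) hD
  have h7 : D * ((a + b) / D - a / D - b / D) < D * 2 := by
    rw [mul_sub, mul_sub]
    linarith
  have h8 : D * (-1) < D * ((a + b) / D - a / D - b / D) := by
    rw [mul_sub, mul_sub]
    linarith
  have h9 := lt_of_mul_lt_mul_left h7 hD.le
  have h10 := lt_of_mul_lt_mul_left h8 hD.le
  omega

theorem abs_ediv_sub {D a b : ℤ} (hD : 0 < D) : |((b / D - a / D : ℤ) : ℝ)| ≤ |(b : ℝ) - a| / D + 1 := by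
  have hDR : (0 : ℝ) < D := by exact_mod_cast hD
  have h1 : (D : ℝ) * (a / D : ℤ) ≤ a := by exact_mod_cast Int.mul_ediv_self_le (x := a) hD.ne'
  have h2 : (a : ℝ) ≤ D * (a / D : ℤ) + D := by exact_mod_cast (Int.lt_mul_ediv_self_add (x := a) hD).le
  have h3 : (D : ℝ) * (b / D : ℤ) ≤ b := by exact_mod_cast Int.mul_ediv_self_le (x := b) hD.ne'
  have h4 : (b : ℝ) ≤ D * (b / D : ℤ) + D := by exact_mod_cast (Int.lt_mul_ediv_self_add (x := b) hD).le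
  have h5 : |(b : ℝ) - a| / D + 1 = (|(b : ℝ) - a| + D) / D := by field_simp
  rw [h5, le_div_iff₀ hDR, Int.cast_sub]
  have h6 := neg_abs_le ((b : ℝ) - a)
  have h7 := le_abs_self ((b : ℝ) - a)
  have h8 : |((b / D : ℤ) : ℝ) - ((a / D : ℤ) : ℝ)| * D = |D * ((b / D : ℤ) : ℝ) - D * ((a / D : ℤ) : ℝ)| := by
    rw [← mul_sub, abs_mul, abs_of_pos hDR, mul_comm]
  rw [h8, abs_le]
  constructor <;> linarith

/-- The number of the irregular cells met, for one interval, one scale and one column of the start. -/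
theorem reg_one [IsProbabilityMeasure μ] {C : ℝ} {D : ℕ → ℕ} {B : ℕ → ℕ → ℤ → Set Env} (hD : ∀ i, wd' μ s (2 ^ i) ≤ D i)
    (mB : ∀ i α q, MeasurableSet (B i α q))
    (dB : ∀ (i α : ℕ) (q : ℤ) (η η' : Env), (∀ x ∈ rows (α : ℤ) (α + 2 ^ i), η x = η' x) → (η ∈ B i α q ↔ η' ∈ B i α q))
    (hB : ∀ i α q, (law μ).real (B i α q) ≤ (Real.exp (-(max C 0 + 2 + 1)) / 8) ^ 4 / 2) (a i T : ℕ) (g₀ : ℤ) :
    (law μ).real {η | ∃ u : ℕ → ℤ, u T / (D i : ℤ) = g₀ ∧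
      ∑ k ∈ range (2 ^ (a - i)), |((u (T + (k + 1) * 2 ^ i) : ℝ) - u (T + k * 2 ^ i)) - sl μ s * (2 ^ i : ℕ)| ≤
        C * wd' μ s (2 ^ i) * (2 ^ (a - i) : ℕ) ∧
      ((2 ^ (a - i) : ℕ) : ℝ) / 4 ≤ (irr B D a i T u η).card} ≤ Real.exp (-((2 ^ (a - i) : ℕ) : ℝ)) := by
  classical
  obtain ⟨V, hV⟩ : ∃ V : ℝ, V = max C 0 + 2 := ⟨_, rfl⟩
  obtain ⟨p, hp⟩ : ∃ p : ℝ, p = (Real.exp (-(V + 1)) / 8) ^ 4 := ⟨_, rfl⟩
  rw [← hV, ← hp] at hB
  have hV0 : 0 < V := by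
    have := le_max_right C 0
    rw [hV]
    linarith
  have hp0 : 0 < p := by rw [hp]; positivity
  have hp1 : p ≤ 1 := by
    rw [hp]
    have h1 : Real.exp (-(V + 1)) ≤ 1 := Real.exp_le_one_iff.2 (by linarith)
    exact pow_le_one₀ (by positivity) (by linarith)
  have hw1 : 1 ≤ wd' μ s (2 ^ i) := le_max_left _ _
  have hD1 : (1 : ℝ) ≤ D i := hw1.trans (hD i)
  have hDZ : (0 : ℤ) < D i := by
    have : (0 : ℝ) < D i := by linarith
    exact_mod_cast this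
  obtain ⟨sq, hsq⟩ : ∃ sq : ℕ → ℤ, sq = fun k : ℕ => md μ s (k * 2 ^ i) / (D i : ℤ) := ⟨_, rfl⟩
  obtain ⟨B', hB'⟩ : ∃ B' : ℕ → ℤ → Set Env, B' = fun k g => B i (T + k * 2 ^ i) (g + sq k) ∪ B i (T + k * 2 ^ i) (g + sq k + 1) :=
    ⟨_, rfl⟩
  have hmain := Pool.Agent.W_7d29a1_Z59.regb (μ := μ) (h := 2 ^ i) (T₀ := (T : ℤ)) (B := B') (V := V) (p := p)
    (fun k g => by rw [hB']; exact (mB _ _ _).union (mB _ _ _))
    (fun k g η η' hh => by
      have hh' : ∀ x ∈ rows ((T + k * 2 ^ i : ℕ) : ℤ) (((T + k * 2 ^ i : ℕ) : ℤ) + 2 ^ i), η x = η' x := fun x hx => hh x (by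
        refine ⟨?_, ?_⟩
        · have := hx.1
          push_cast at this ⊢
          exact this
        · have := hx.2
          push_cast at this ⊢
          linarith)
      rw [hB']
      simp only [Set.mem_union]
      rw [dB i _ _ η η' hh', dB i _ _ η η' hh'])
    hp0 hp1 hp.le (fun k g => by
      rw [hB']
      refine (measureReal_union_le _ _).trans ?_
      have h1 := hB i (T + k * 2 ^ i) (g + sq k)
      have h2 := hB i (T + k * 2 ^ i) (g + sq k + 1)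
      linarith)
    (2 ^ (a - i)) ⌈V * (2 ^ (a - i) : ℕ)⌉₊ g₀
  refine le_trans (measureReal_mono ?_ (measure_ne_top _ _)) hmain
  rintro η ⟨u, hu0, htv, hcard⟩
  obtain ⟨g, hg⟩ : ∃ g : ℕ → ℤ, g = fun k : ℕ => (u (T + k * 2 ^ i) - md μ s (k * 2 ^ i)) / (D i : ℤ) := ⟨_, rfl⟩
  have hsum : ∑ k ∈ range (2 ^ (a - i)), |((g (k + 1) - g k : ℤ) : ℝ)| ≤ V * (2 ^ (a - i) : ℕ) := by
    have h1 : ∀ k ∈ range (2 ^ (a - i)), |((g (k + 1) - g k : ℤ) : ℝ)| ≤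
        |((u (T + (k + 1) * 2 ^ i) : ℝ) - u (T + k * 2 ^ i)) - sl μ s * (2 ^ i : ℕ)| / wd' μ s (2 ^ i) + 2 := fun k _ => by
      rw [hg]
      refine (abs_ediv_sub hDZ).trans ?_
      obtain ⟨X, hX⟩ : ∃ X : ℝ, X = ((u (T + (k + 1) * 2 ^ i) : ℝ) - u (T + k * 2 ^ i)) - sl μ s * (2 ^ i : ℕ) := ⟨_, rfl⟩
      obtain ⟨Dr, hDr⟩ : ∃ Dr : ℝ, Dr = ((D i : ℤ) : ℝ) := ⟨_, rfl⟩
      have hDr1 : 1 ≤ Dr := by
        rw [hDr, Int.cast_natCast]
        exact hD1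
      have hDrw : wd' μ s (2 ^ i) ≤ Dr := by
        rw [hDr, Int.cast_natCast]
        exact hD i
      have e1 : |((u (T + (k + 1) * 2 ^ i) - md μ s ((k + 1) * 2 ^ i) : ℤ) : ℝ) -
          ((u (T + k * 2 ^ i) - md μ s (k * 2 ^ i) : ℤ) : ℝ)| ≤ |X| + 1 := by
        have m1 := Pool.Agent.W_7d29a1_HS.md_le (μ := μ) (s := s) ((k + 1) * 2 ^ i)
        have m2 := Pool.Agent.W_7d29a1_HS.lt_md (μ := μ) (s := s) ((k + 1) * 2 ^ i)
        have m3 := Pool.Agent.W_7d29a1_HS.md_le (μ := μ) (s := s) (k * 2 ^ i)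
        have m4 := Pool.Agent.W_7d29a1_HS.lt_md (μ := μ) (s := s) (k * 2 ^ i)
        have e2 : sl μ s * (((k + 1) * 2 ^ i : ℕ) : ℝ) = sl μ s * ((k * 2 ^ i : ℕ) : ℝ) + sl μ s * ((2 ^ i : ℕ) : ℝ) := by
          push_cast
          ring
        rw [e2] at m1 m2
        have h7 := neg_abs_le X
        have h8 := le_abs_self X
        rw [Int.cast_sub, Int.cast_sub, abs_le]
        constructor <;> linarith
      rw [← hX, ← hDr]
      have h2 : |X| / Dr ≤ |X| / wd' μ s (2 ^ i) := div_le_div_of_nonneg_left (abs_nonneg _) (by linarith) hDrw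
      have h3 : (|X| + 1) / Dr ≤ |X| / Dr + 1 := by
        rw [add_div]
        have : 1 / Dr ≤ 1 := by
          rw [div_le_one (by linarith)]
          exact hDr1
        linarith
      have h4 := div_le_div_of_nonneg_right e1 (by linarith : (0 : ℝ) ≤ Dr)
      linarith
    refine (Finset.sum_le_sum h1).trans ?_
    rw [Finset.sum_add_distrib, ← Finset.sum_div, Finset.sum_const, card_range, nsmul_eq_mul]
    have h3 : (∑ k ∈ range (2 ^ (a - i)), |((u (T + (k + 1) * 2 ^ i) : ℝ) - u (T + k * 2 ^ i)) - sl μ s * (2 ^ i : ℕ)|) /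
        wd' μ s (2 ^ i) ≤ max C 0 * (2 ^ (a - i) : ℕ) := by
      rw [div_le_iff₀ (by linarith)]
      refine htv.trans ?_
      have h4 : C * (wd' μ s (2 ^ i) * (2 ^ (a - i) : ℕ)) ≤ max C 0 * (wd' μ s (2 ^ i) * (2 ^ (a - i) : ℕ)) :=
        mul_le_mul_of_nonneg_right (le_max_left _ _) (by positivity)
      calc C * wd' μ s (2 ^ i) * (2 ^ (a - i) : ℕ) = C * (wd' μ s (2 ^ i) * (2 ^ (a - i) : ℕ)) := by ring
        _ ≤ max C 0 * (wd' μ s (2 ^ i) * (2 ^ (a - i) : ℕ)) := h4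
        _ = _ := by ring
    rw [hV]
    linarith
  refine ⟨g, ?_, fun k hk => ?_, hsum, ?_⟩
  · rw [hg, ← hu0]
    simp [Pool.Agent.W_7d29a1_HS.md_zero]
  · have h1 : |((g (k + 1) - g k : ℤ) : ℝ)| ≤ V * (2 ^ (a - i) : ℕ) :=
      (Finset.single_le_sum (f := fun k => |((g (k + 1) - g k : ℤ) : ℝ)|) (fun _ _ => abs_nonneg _) (Finset.mem_range.2 hk)).trans hsum
    have h2 := h1.trans (Nat.le_ceil _)
    exact_mod_cast h2
  · refine hcard.trans ?_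
    have h1 : ((irr B D a i T u η).card : ℝ) = ∑ k ∈ irr B D a i T u η, (B' k (g k)).indicator (fun _ => (1 : ℝ)) η := by
      rw [Finset.sum_congr rfl (g := fun _ => (1 : ℝ)), Finset.sum_const, nsmul_eq_mul, mul_one]
      intro k hk
      have hk' := (Finset.mem_filter.1 hk).2
      refine Set.indicator_of_mem ?_ _
      rw [hB']
      have h2 := ediv_add_ediv (D := (D i : ℤ)) (a := u (T + k * 2 ^ i) - md μ s (k * 2 ^ i)) (b := md μ s (k * 2 ^ i)) hDZ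
      rw [sub_add_cancel] at h2
      rcases h2 with h2 | h2
      · left
        rw [h2] at hk'
        rw [hg, hsq]
        exact hk'
      · right
        rw [h2] at hk'
        rw [hg, hsq]
        exact hk'
    rw [h1]
    exact Finset.sum_le_sum_of_subset_of_nonneg (Finset.filter_subset _ _) fun _ _ _ => Set.indicator_nonneg (fun _ _ => zero_le_one) η

/-- Polynomial factors are absorbed. -/
theorem absorbE (C : ℝ) (k : ℕ) {a : ℝ} (ha : 0 < a) : ∀ᶠ L : ℕ in atTop, C * (L : ℝ) ^ k * Real.exp (-(L : ℝ) ^ a) ≤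
    Real.exp (-(L : ℝ) ^ (a / 2)) := by
  have h1 : Tendsto (fun L : ℕ => (L : ℝ) ^ (a / 2)) atTop atTop := (tendsto_rpow_atTop (by positivity)).comp tendsto_natCast_atTop_atTop
  obtain ⟨m, hm⟩ := exists_nat_ge ((k : ℝ) / (a / 2))
  have h2 := (Real.tendsto_pow_mul_exp_neg_atTop_nhds_zero m).comp h1
  have h3 : ∀ᶠ L : ℕ in atTop, |C| * (((L : ℝ) ^ (a / 2)) ^ m * Real.exp (-(L : ℝ) ^ (a / 2))) ≤ 1 := by
    have h4 := h2.const_mul |C|
    rw [mul_zero] at h4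
    exact (h4.eventually_le_const one_pos)
  filter_upwards [h3, h1.eventually_ge_atTop 2, eventually_ge_atTop 1] with L h5 h6 h7
  have hL : (1 : ℝ) ≤ L := by exact_mod_cast h7
  have hL0 : (0 : ℝ) < L := by linarith
  have e1 : (L : ℝ) ^ a = (L : ℝ) ^ (a / 2) * (L : ℝ) ^ (a / 2) := by
    rw [← Real.rpow_add hL0]
    congr 1
    ring
  have e2 : (L : ℝ) ^ k ≤ ((L : ℝ) ^ (a / 2)) ^ m := by
    rw [← Real.rpow_natCast, ← Real.rpow_natCast, ← Real.rpow_mul hL0.le]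
    refine Real.rpow_le_rpow_of_exponent_le hL ?_
    rw [div_le_iff₀ (by positivity)] at hm
    linarith
  have e3 : Real.exp (-(L : ℝ) ^ a) ≤ Real.exp (-(L : ℝ) ^ (a / 2)) * Real.exp (-(L : ℝ) ^ (a / 2)) := by
    rw [← Real.exp_add, e1]
    refine Real.exp_le_exp.2 ?_
    nlinarith
  have hk : 0 ≤ (L : ℝ) ^ k := by positivity
  calc C * (L : ℝ) ^ k * Real.exp (-(L : ℝ) ^ a) ≤ |C| * (L : ℝ) ^ k * Real.exp (-(L : ℝ) ^ a) :=
        mul_le_mul_of_nonneg_right (mul_le_mul_of_nonneg_right (le_abs_self C) hk) (Real.exp_nonneg _)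
    _ ≤ |C| * ((L : ℝ) ^ (a / 2)) ^ m * (Real.exp (-(L : ℝ) ^ (a / 2)) * Real.exp (-(L : ℝ) ^ (a / 2))) :=
        mul_le_mul (mul_le_mul_of_nonneg_left e2 (abs_nonneg C)) e3 (Real.exp_nonneg _) (by positivity)
    _ = |C| * (((L : ℝ) ^ (a / 2)) ^ m * Real.exp (-(L : ℝ) ^ (a / 2))) * Real.exp (-(L : ℝ) ^ (a / 2)) := by ring
    _ ≤ 1 * Real.exp (-(L : ℝ) ^ (a / 2)) := mul_le_mul_of_nonneg_right h5 (Real.exp_nonneg _)
    _ = _ := one_mul _

/-- **(REG) Outside an event of probability `exp (- L ^ c)` all node sequences with the total variation of the class `clE` meet fewer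
than a quarter of irregular cells, in all intervals of rows and at all scales with at least `L ^ e₁` layers.** -/
theorem regE [IsProbabilityMeasure μ] (s C : ℝ) : ∃ p : ℝ, 0 < p ∧ ∀ e₁ : ℝ, 0 < e₁ → ∃ c : ℝ, 0 < c ∧ ∃ L₀ : ℕ, ∀ L : ℕ, L₀ ≤ L →
    ∀ (D : ℕ → ℕ) (B : ℕ → ℕ → ℤ → Set Env), (∀ i, wd' μ s (2 ^ i) ≤ D i) → (∀ i α q, MeasurableSet (B i α q)) →
    (∀ (i α : ℕ) (q : ℤ) (η η' : Env), (∀ x ∈ rows (α : ℤ) (α + 2 ^ i), η x = η' x) → (η ∈ B i α q ↔ η' ∈ B i α q)) →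
    (∀ i α q, (law μ).real (B i α q) ≤ p) →
    law μ {η | ∃ a i T : ℕ, ∃ u : ℕ → ℤ, T + 2 ^ a ≤ L ∧ i ≤ a ∧ (L : ℝ) ^ e₁ ≤ (2 ^ (a - i) : ℕ) ∧ |u T| ≤ 2 * L ∧
      ∑ k ∈ range (2 ^ (a - i)), |((u (T + (k + 1) * 2 ^ i) : ℝ) - u (T + k * 2 ^ i)) - sl μ s * (2 ^ i : ℕ)| ≤
        C * wd' μ s (2 ^ i) * (2 ^ (a - i) : ℕ) ∧
      ((2 ^ (a - i) : ℕ) : ℝ) / 4 ≤ (irr B D a i T u η).card} ≤ ENNReal.ofReal (Real.exp (-(L : ℝ) ^ c)) := by
  refine ⟨(Real.exp (-(max C 0 + 2 + 1)) / 8) ^ 4 / 2, by positivity, fun e₁ he₁ => ⟨e₁ / 2, by positivity, ?_⟩⟩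
  obtain ⟨L₀, hL₀⟩ := eventually_atTop.1 ((absorbE 72 4 he₁).and (eventually_ge_atTop 1))
  refine ⟨L₀, fun L hL D B hD mB dB hB => ?_⟩
  obtain ⟨hab, hL1⟩ := hL₀ L hL
  have hLR : (1 : ℝ) ≤ L := by exact_mod_cast hL1
  obtain ⟨P, hP⟩ : ∃ P : ℕ → ℕ → ℕ → ℤ → Set Env, P = fun a i T g₀ => {η | (L : ℝ) ^ e₁ ≤ (2 ^ (a - i) : ℕ) ∧
      ∃ u : ℕ → ℤ, u T / (D i : ℤ) = g₀ ∧
      ∑ k ∈ range (2 ^ (a - i)), |((u (T + (k + 1) * 2 ^ i) : ℝ) - u (T + k * 2 ^ i)) - sl μ s * (2 ^ i : ℕ)| ≤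
        C * wd' μ s (2 ^ i) * (2 ^ (a - i) : ℕ) ∧
      ((2 ^ (a - i) : ℕ) : ℝ) / 4 ≤ (irr B D a i T u η).card} := ⟨_, rfl⟩
  obtain ⟨I, hI⟩ : ∃ I : Finset (ℕ × ℕ × ℕ × ℤ), I = (range (L + 1)) ×ˢ ((range (L + 1)) ×ˢ ((range (L + 1)) ×ˢ
    (Icc (-(4 * (L : ℤ))) (4 * L)))) := ⟨_, rfl⟩
  have hone : ∀ x ∈ I, law μ (P x.1 x.2.1 x.2.2.1 x.2.2.2) ≤ ENNReal.ofReal (Real.exp (-(L : ℝ) ^ e₁)) := by
    rintro ⟨a, i, T, g₀⟩ -
    dsimp only
    by_cases h1 : (L : ℝ) ^ e₁ ≤ (2 ^ (a - i) : ℕ)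
    · rw [← ofReal_measureReal]
      refine ENNReal.ofReal_le_ofReal ?_
      have h2 := reg_one (μ := μ) hD mB dB hB a i T g₀
      refine le_trans (measureReal_mono ?_ (measure_ne_top _ _)) (h2.trans (Real.exp_le_exp.2 (neg_le_neg h1)))
      intro η hη
      rw [hP] at hη
      exact hη.2
    · have h2 : P a i T g₀ = ∅ := by
        rw [hP]
        refine Set.eq_empty_of_forall_notMem fun η hη => h1 hη.1
      rw [h2, measure_empty]
      exact bot_le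
  have hsub : {η | ∃ a i T : ℕ, ∃ u : ℕ → ℤ, T + 2 ^ a ≤ L ∧ i ≤ a ∧ (L : ℝ) ^ e₁ ≤ (2 ^ (a - i) : ℕ) ∧ |u T| ≤ 2 * L ∧
      ∑ k ∈ range (2 ^ (a - i)), |((u (T + (k + 1) * 2 ^ i) : ℝ) - u (T + k * 2 ^ i)) - sl μ s * (2 ^ i : ℕ)| ≤
        C * wd' μ s (2 ^ i) * (2 ^ (a - i) : ℕ) ∧
      ((2 ^ (a - i) : ℕ) : ℝ) / 4 ≤ (irr B D a i T u η).card} ⊆ ⋃ x ∈ I, P x.1 x.2.1 x.2.2.1 x.2.2.2 := by
    rintro η ⟨a, i, T, u, h1, h2, h3, h4, h5, h6⟩
    refine Set.mem_iUnion₂.2 ⟨(a, i, T, u T / (D i : ℤ)), ?_, ?_⟩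
    · have h7 : a < 2 ^ a := Nat.lt_two_pow_self
      have h8 : |u T / (D i : ℤ)| ≤ 4 * (L : ℤ) := by
        refine (Int.abs_ediv_le_abs _ _).trans ?_
        linarith
      have h9 := abs_le.1 h8
      rw [hI, Finset.mem_product, Finset.mem_product, Finset.mem_product, Finset.mem_range, Finset.mem_range, Finset.mem_range,
        Finset.mem_Icc]
      exact ⟨by dsimp only; omega, by dsimp only; omega, by dsimp only; omega, h9⟩
    · rw [hP]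
      exact ⟨h3, u, rfl, h5, h6⟩
  refine (measure_mono hsub).trans ((measure_biUnion_finset_le _ _).trans ((Finset.sum_le_sum hone).trans ?_))
  rw [Finset.sum_const, nsmul_eq_mul, ← ENNReal.ofReal_natCast, ← ENNReal.ofReal_mul (by positivity)]
  refine ENNReal.ofReal_le_ofReal (le_trans (mul_le_mul_of_nonneg_right ?_ (Real.exp_nonneg _)) hab)
  have h1 : I.card = (L + 1) * ((L + 1) * ((L + 1) * (8 * L + 1))) := by
    rw [hI, Finset.card_product, Finset.card_product, Finset.card_product, Finset.card_range, Int.card_Icc]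
    congr 4
    omega
  rw [h1]
  push_cast
  have h2 : (L : ℝ) + 1 ≤ 2 * L := by linarith
  have h3 : (8 : ℝ) * L + 1 ≤ 9 * L := by linarith
  calc ((L : ℝ) + 1) * (((L : ℝ) + 1) * (((L : ℝ) + 1) * (8 * L + 1))) ≤ (2 * L) * ((2 * L) * ((2 * L) * (9 * L))) := by
        gcongr
    _ = 72 * (L : ℝ) ^ 4 := by ring

end

end Pool.Agent.W_7d29a1_HZ.ZE
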