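import Pool.Agent.W_7d29a1_HZ.Z15_NTs
import Pool.Agent.W_7d29a1_ZE.LayB

/-!
STORM Z AT ONE TILT `s`, SECOND STOREY (MP_7d29a1_pr): near ties of the natural size (`q = 1 / E`). Definitions (the case `s = 0` is
`W_7d29a1_ZE.Defs`; there positions in the frame are `2 x - t`, here `x - md μ s t`, in sites).

A WINDOW `V` consists of intervals of pure rows `Ioc T (T + 2 ^ a)`, `T ∈ Iv`, and a strip of width `w` behind the line `Y` (as in
`Rr`). At the scale `h = 2 ^ i` the interval `T` has `2 ^ (a - i)` LAYERS `[T + k h, T + (k + 1) h]`; the NODES of a path are its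
positions at the times `T + k h`. The class `clE i₀ i₁` of competitors: all rows of the window in the strip, and the conditions `Nod`
on the nodes at all the scales `2 ^ i`, `i₀ ≤ i ≤ i₁`. Fewer conditions if `i₀` grows. The constants which do not depend on the tilt are those of
`W_7d29a1_ZE`: `Win`, `Win.J`, `Win.nJ`, `Win.Ok`, `Br`, `cAnd`, `mid`, `Ce`, `al`. (helper18)
-/

set_option autoImplicit false

namespace Pool.Agent.W_7d29a1_HZ.ZE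

open MeasureTheory ProbabilityTheory Filter Topology Finset
open Pool.Agent.W_7d29a1_F Pool.Agent.W_7d29a1_X Pool.Agent.W_7d29a1_H Pool.Agent.W_7d29a1_HZ
open Pool.Agent.W_7d29a1_HS (In wd md)
open Pool.Agent.W_7d29a1_Z (ps pw pcs Kf Kc Reg sJ)
open Pool.Agent.W_7d29a1_Z15 (Cls AdC)
open Pool.Agent.W_7d29a1_HZ.Z15 (kC rC NTc)
open Pool.Agent.W_7d29a1_ZE (Win Br cAnd mid Ce al)
open scoped ENNReal

noncomputable section

/-- The conditions on the nodes `u (T + k h)` at the scale `h = 2 ^ i` in the interval `T`. -/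
structure Nod (μ : Measure ℝ) (s : ℝ) (V : Win) (L : ℕ) (e C : ℝ) (i T : ℕ) (u : ℕ → ℤ) : Prop where
  step : ∀ k < 2 ^ (V.a - i), |((u (T + (k + 1) * 2 ^ i) : ℝ) - u (T + k * 2 ^ i)) - sl μ s * (2 ^ i : ℕ)| ≤
    (L : ℝ) ^ e * wd' μ s (2 ^ i)
  tv : ∑ k ∈ range (2 ^ (V.a - i)), |((u (T + (k + 1) * 2 ^ i) : ℝ) - u (T + k * 2 ^ i)) - sl μ s * (2 ^ i : ℕ)| ≤
    C * wd' μ s (2 ^ i) * (2 ^ (V.a - i) : ℕ)
  wall : ∀ k ≤ 2 ^ (V.a - i),
    (V.Y : ℝ) + (L : ℝ) ^ (2 * e) * wd' μ s (2 ^ i) ≤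
      V.sg * ((u (T + k * 2 ^ i) : ℝ) - md μ s (T + k * 2 ^ i)) ∧
    V.sg * ((u (T + k * 2 ^ i) : ℝ) - md μ s (T + k * 2 ^ i)) ≤
      V.Y + V.w - (L : ℝ) ^ (2 * e) * wd' μ s (2 ^ i)

/-- The class of the competitors (start time, start position, end time, piece). -/
def clE (μ : Measure ℝ) (s : ℝ) (V : Win) (L : ℕ) (e C : ℝ) (i₀ i₁ : ℕ) : Cls := fun a x b g =>
  Reg (Rr μ s V.sg V.J V.Y V.w) 0 a x b g ∧ ∀ i, i₀ ≤ i → i ≤ i₁ → ∀ T ∈ V.Iv, Nod μ s V L e C i T (ps 0 a x g)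

/-- The class of the pieces left of the line. -/
def clL (μ : Measure ℝ) (s : ℝ) (V : Win) : Cls := fun a x b g => Reg (Lr μ s V.sg V.J V.Y) 0 a x b g

/-- The ratio `r_S`: the sum over the brackets of the kernel of the class divided by the kernel left of the line. -/
def rE (μ : Measure ℝ) (s : ℝ) (V : Win) (L : ℕ) (e C : ℝ) (i₀ i₁ : ℕ) (S : Finset ℕ) (η : Env) : ℝ :=
  rC μ s (clE μ s V L e C i₀ i₁) (clL μ s V) (Br V) S η

/-- The part of the ratio carried by the competitors with the further condition `Φ`. -/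
def rP (μ : Measure ℝ) (s : ℝ) (V : Win) (L : ℕ) (e C : ℝ) (i₀ i₁ : ℕ) (Φ : Cls) (S : Finset ℕ) (η : Env) : ℝ :=
  rC μ s (cAnd (clE μ s V L e C i₀ i₁) Φ) (clL μ s V) (Br V) S η

/-- NEAR TIE of the depth `M` for the class. -/
def NTE (μ : Measure ℝ) (s : ℝ) (V : Win) (L : ℕ) (e C : ℝ) (i₀ i₁ : ℕ) (M : ℝ) (η : Env) (S : Finset ℕ) : Prop :=
  InL μ s V.sg V.J V.Y S ∧ NTc μ s (clE μ s V L e C i₀ i₁) (clL μ s V) (Br V) M η S

/-! ### Cells -/

/-- The columns: the positions `x` at the time `t` with `D q ≤ x - md μ s (t - α) < D (q + 1)` (all translates of one another). -/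
def col (μ : Measure ℝ) (s : ℝ) (α D : ℕ) (q : ℤ) (t : ℕ) : Finset ℤ :=
  Ico ((D : ℤ) * q + md μ s (t - α)) ((D : ℤ) * (q + 1) + md μ s (t - α))

theorem mem_col {μ : Measure ℝ} {s : ℝ} {α D : ℕ} {q : ℤ} {t : ℕ} {x : ℤ} :
    x ∈ col μ s α D q t ↔ (D : ℤ) * q ≤ x - md μ s (t - α) ∧ x - md μ s (t - α) < (D : ℤ) * (q + 1) := by
  unfold col
  rw [mem_Ico]
  generalize (D : ℤ) * q = A
  generalize (D : ℤ) * (q + 1) = B
  omega

/-- The sites of the cell `q` of the layer. -/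
def box (μ : Measure ℝ) (s : ℝ) (α h D : ℕ) (q : ℤ) : Finset Pt := sJ (mid α h) (col μ s α D q)

/-- The sites of a cell at the scale `2 ^ i`. -/
def Tz (μ : Measure ℝ) (s : ℝ) (i D : ℕ) (z : Ce) : Finset Pt := box μ s (al i z) (2 ^ i) D z.2.2

open scoped Classical in
/-- The cells of the window at the scale `2 ^ i`: all the columns inside the strip. -/
def Zc (μ : Measure ℝ) (s : ℝ) (V : Win) (i D : ℕ) : Finset Ce :=
  (V.Iv ×ˢ (range (2 ^ (V.a - i)) ×ˢ Icc (-(2 * (V.N : ℤ) + |V.Y| + V.w)) (2 * (V.N : ℤ) + |V.Y| + V.w))).filter fun z =>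
    ∀ v : ℤ, (D : ℤ) * z.2.2 ≤ v → v < (D : ℤ) * (z.2.2 + 1) →
      V.Y + 1 < V.sg * (v - md μ s (al i z)) ∧ V.sg * (v - md μ s (al i z)) + 1 ≤ V.Y + V.w

/-- The piece avoids the sites of the cell. -/
def AvZ (μ : Measure ℝ) (s : ℝ) (i D : ℕ) (z : Ce) : Cls :=
  fun a x _ g => ∀ t ∈ mid (al i z) (2 ^ i), ps 0 a x g t ∉ col μ s (al i z) D z.2.2 t

/-- The piece visits the cell. -/
def ToZ (μ : Measure ℝ) (s : ℝ) (i D : ℕ) (z : Ce) : Cls := fun a x b g => ¬ AvZ μ s i D z a x b g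

/-! ### One layer -/

/-- The kernel of one layer `[α, α + h]` from `u` to `u'`: all the rows in the strip. -/
def kL (μ : Measure ℝ) (s : ℝ) (V : Win) (η : Env) (α h : ℕ) (u u' : ℤ) : ℝ :=
  Kc μ s 0 (Reg (Rr μ s V.sg V.J V.Y V.w) 0 α u (α + h)) η α u (α + h) u'

/-- The same with a further condition on the piece. -/
def kLP (μ : Measure ℝ) (s : ℝ) (V : Win) (Φ : ℤ → Finset ℕ → Prop) (η : Env) (α h : ℕ) (u u' : ℤ) : ℝ :=
  Kc μ s 0 (fun g => Reg (Rr μ s V.sg V.J V.Y V.w) 0 α u (α + h) g ∧ Φ u g) η α u (α + h) u'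

/-- The pairs of nodes which occur in the class, at the start `α` of a layer of the scale `2 ^ i`. -/
structure Pr (μ : Measure ℝ) (s : ℝ) (V : Win) (L : ℕ) (e : ℝ) (i α : ℕ) (u u' : ℤ) : Prop where
  step : |((u' : ℝ) - u) - sl μ s * (2 ^ i : ℕ)| ≤ (L : ℝ) ^ e * wd' μ s (2 ^ i)
  w0 : (V.Y : ℝ) + (L : ℝ) ^ (2 * e) * wd' μ s (2 ^ i) ≤ V.sg * ((u : ℝ) - md μ s α)
  w1 : V.sg * ((u : ℝ) - md μ s α) ≤ V.Y + V.w - (L : ℝ) ^ (2 * e) * wd' μ s (2 ^ i)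
  w0' : (V.Y : ℝ) + (L : ℝ) ^ (2 * e) * wd' μ s (2 ^ i) ≤ V.sg * ((u' : ℝ) - md μ s (α + 2 ^ i))
  w1' : V.sg * ((u' : ℝ) - md μ s (α + 2 ^ i)) ≤ V.Y + V.w - (L : ℝ) ^ (2 * e) * wd' μ s (2 ^ i)

end

end Pool.Agent.W_7d29a1_HZ.ZE
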