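import Pool.Agent.W_7d29a1_HZ.ZE_Defs
import Pool.Agent.W_7d29a1_HZ.ZE_DepD
import Pool.Agent.W_7d29a1_ZE.DepE

/-!
STORM Z AT ONE TILT, SECOND STOREY: from a pair of paths to the near tie `NTE` of the class. (Port of `W_7d29a1_ZE.DepE` of helper36;
`Win.JJ`, `mem_JJ`, `J_sub_JJ`, `node_JJ` do not depend on the tilt.) (helper30)
-/

set_option autoImplicit false

namespace Pool.Agent.W_7d29a1_HZ.ZE

open MeasureTheory ProbabilityTheory Finset
open Pool.Agent.W_7d29a1_F Pool.Agent.W_7d29a1_X Pool.Agent.W_7d29a1_H Pool.Agent.W_7d29a1_HZ Pool.Agent.W_7d29a1_HZ.Z36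
open Pool.Agent.W_7d29a1_HS (In wd md)
open Pool.Agent.W_7d29a1_Z (ps pw pcs Kf Kc Reg sJ)
open Pool.Agent.W_7d29a1_Z15 (Cls AdC)
open Pool.Agent.W_7d29a1_Z36 (LocC)
open Pool.Agent.W_7d29a1_HZ.Z15 (kC rC NTc)
open Pool.Agent.W_7d29a1_ZE (Win Br cAnd mid Ce al mem_JJ J_sub_JJ node_JJ)
open scoped ENNReal

noncomputable section

variable {μ : Measure ℝ} {s : ℝ}

/-- The left class as a condition on the positions. -/
def cL (μ : Measure ℝ) (s : ℝ) (V : Win) (u : ℕ → ℤ) : Prop := ∀ t ∈ V.J, V.sg * (u t - md μ s t) ≤ V.Y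

/-- The class of the competitors as a condition on the positions. -/
def cE (μ : Measure ℝ) (s : ℝ) (V : Win) (L : ℕ) (e C : ℝ) (i₀ i₁ : ℕ) (u : ℕ → ℤ) : Prop :=
  (∀ t ∈ V.J, V.Y < V.sg * (u t - md μ s t) ∧ V.sg * (u t - md μ s t) ≤ V.Y + V.w) ∧
    ∀ i, i₀ ≤ i → i ≤ i₁ → ∀ T ∈ V.Iv, Nod μ s V L e C i T u

theorem locL (V : Win) : LocC V.JJ (cL μ s V) := by
  intro p p' h
  unfold cL
  refine forall₂_congr fun t ht => ?_
  rw [h t (J_sub_JJ V ht)]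

theorem Nod.congr {V : Win} {L : ℕ} {e C : ℝ} {i T : ℕ} {p p' : ℕ → ℤ} (hi : i ≤ V.a) (hT : T ∈ V.Iv)
    (h : ∀ t ∈ V.JJ, p t = p' t) (hN : Nod μ s V L e C i T p) : Nod μ s V L e C i T p' := by
  have h1 : ∀ k, k ≤ 2 ^ (V.a - i) → p (T + k * 2 ^ i) = p' (T + k * 2 ^ i) := fun k hk => h _ (node_JJ hi hT hk)
  refine ⟨fun k hk => ?_, ?_, fun k hk => ?_⟩
  · rw [← h1 (k + 1) hk, ← h1 k hk.le]
    exact hN.step k hk
  · have e1 : ∑ k ∈ range (2 ^ (V.a - i)), |((p' (T + (k + 1) * 2 ^ i) : ℝ) - p' (T + k * 2 ^ i)) - sl μ s * (2 ^ i : ℕ)| =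
        ∑ k ∈ range (2 ^ (V.a - i)), |((p (T + (k + 1) * 2 ^ i) : ℝ) - p (T + k * 2 ^ i)) - sl μ s * (2 ^ i : ℕ)| := by
      refine sum_congr rfl fun k hk => ?_
      rw [mem_range] at hk
      rw [← h1 (k + 1) hk, ← h1 k hk.le]
    rw [e1]
    exact hN.tv
  · rw [← h1 k hk]
    exact hN.wall k hk

theorem locE (V : Win) (L : ℕ) (e C : ℝ) (i₀ : ℕ) {i₁ : ℕ} (hi : i₁ ≤ V.a) : LocC V.JJ (cE μ s V L e C i₀ i₁) := by
  intro p p' h
  unfold cE
  refine and_congr (forall₂_congr fun t ht => ?_) ?_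
  · rw [h t (J_sub_JJ V ht)]
  · constructor
    · intro hN i h0 h1 T hT
      exact (hN i h0 h1 T hT).congr (h1.trans hi) hT h
    · intro hN i h0 h1 T hT
      exact (hN i h0 h1 T hT).congr (h1.trans hi) hT fun t ht => (h t ht).symm

/-- The kernel of the class between two points of a path. -/
theorem kC_clE (V : Win) (L : ℕ) (e C : ℝ) (i₀ i₁ : ℕ) (S : Finset ℕ) {a b : ℕ} (hJ : ∀ i ∈ V.J, a < i ∧ i < b) (η : Env) :
    kC μ s (clE μ s V L e C i₀ i₁) S (a, b) η = kk μ s (cE μ s V L e C i₀ i₁) η a b (pos S) := by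
  classical
  unfold kC kk Kc
  refine sum_congr ?_ fun _ _ => rfl
  ext g
  rw [mem_filter, mem_filter]
  refine and_congr_right fun _ => ?_
  unfold clE cE Reg Rr
  refine and_congr_left fun _ => ?_
  constructor
  · intro h t ht
    have h1 := h t (mem_Ioc.2 ⟨(hJ t ht).1, (hJ t ht).2.le⟩)
    simpa using h1 (by simpa using ht)
  · intro h t _ htJ
    simpa using h t (by simpa using htJ)

theorem kC_clL (V : Win) (S : Finset ℕ) {a b : ℕ} (hJ : ∀ i ∈ V.J, a < i ∧ i < b) (η : Env) :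
    kC μ s (clL μ s V) S (a, b) η = kk μ s (cL μ s V) η a b (pos S) := by
  classical
  unfold kC kk Kc
  refine sum_congr ?_ fun _ _ => rfl
  ext g
  rw [mem_filter, mem_filter]
  refine and_congr_right fun _ => ?_
  unfold clL cL Reg Lr
  constructor
  · intro h t ht
    have h1 := h t (mem_Ioc.2 ⟨(hJ t ht).1, (hJ t ht).2.le⟩)
    simpa using h1 (by simpa using ht)
  · intro h t _ htJ
    simpa using h t (by simpa using htJ)

/-- **From a pair of paths to the near tie of the class**: `S'` is left of the line, `S` (in the frame of `S'`) is in the class,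
both meet at the times `a`, `b` around the window. -/
theorem nte_of_pair {V : Win} {L : ℕ} {e C : ℝ} {i₀ i₁ : ℕ} {v : ℕ → ℤ} {a b : ℕ} (hab : (a, b) ∈ Br V)
    {Q : Finset (ℕ × ℕ)} {lm M : ℝ} {η : Env} {S S' : Finset ℕ}
    (hnb : ¬ BadC μ s v a b Q (cL μ s V) (cE μ s V L e C i₀ i₁) lm η S S')
    (ha : pos S a = px v S' a) (hb : pos S b = px v S' b) (hL : InL μ s V.sg V.J V.Y S')
    (hR : cE μ s V L e C i₀ i₁ fun t => pos S t + sv v 0 t) (hc1 : ConeQ v Q (pos S)) (hc2 : ConeQ v Q (px v S'))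
    (hM : 3 * lm + (Xd μ s v Q η (px v S') - Xd μ s v Q η (pos S)) ≤ M) :
    NTE μ s V L e C i₀ i₁ M (shr 0 v η) S' := by
  have hJ : ∀ i ∈ V.J, a < i ∧ i < b := by
    unfold Br at hab
    exact (mem_filter.1 hab).2.2
  refine ⟨hL, (a, b), hab, ?_⟩
  rw [kC_clE V L e C i₀ i₁ S' hJ, kC_clL V S' hJ]
  have h1 : ¬ kk μ s (cE μ s V L e C i₀ i₁) (shr 0 v η) a b (pos S') <
      Real.exp (Xd μ s v Q η (pos S) - Xd μ s v Q η (px v S') - 3 * lm) * kk μ s (cL μ s V) (shr 0 v η) a b (pos S') :=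
    fun h => hnb ⟨ha, hb, hL, hR, hc1, hc2, h⟩
  refine le_trans ?_ (not_lt.1 h1)
  exact mul_le_mul_of_nonneg_right (Real.exp_le_exp.2 (by linarith)) (kk_nonneg _ _ _ _ _)

end

end Pool.Agent.W_7d29a1_HZ.ZE
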