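import Pool.Agent.W_7d29a1_HZ.ZE_F0
import Pool.Agent.W_7d29a1_HZ.Z9_ConfD9
/-!
STORM Z at every tilt, second storey (MP_7d29a1_pr): DETOURS. In every layer of the window, between any two nodes of the class, every
column can be avoided at the cost `L ^ ε₂ EE' h`, outside an event of the probability `exp (- L ^ c)`: the path goes to the level `Zt`
beside the column in the first quarter, follows it for the middle half, and goes to the second node in the last quarter. (helper9; the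
case `s = 0` is `W_7d29a1_ZE.Det`)
-/

set_option autoImplicit false

namespace Pool.Agent.W_7d29a1_HZ.ZE

open MeasureTheory ProbabilityTheory Filter Topology Finset
open Pool.Agent.W_7d29a1_F Pool.Agent.W_7d29a1_X Pool.Agent.W_7d29a1_H Pool.Agent.W_7d29a1_HZ
open Pool.Agent.W_7d29a1_HS (In wd md)
open Pool.Agent.W_7d29a1_Z (ps Kc Reg Kc_nonneg WR_eq_Kc)
open Pool.Agent.W_7d29a1_ZE (Win mid mid_sub)
open Pool.Agent.W_7d29a1_HZ.Z9 (Sb CBox WR_mul_le9 WR_mono_on9 WR_off9 ev_ge conf9)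
open scoped ENNReal

noncomputable section

variable {μ : Measure ℝ} {s : ℝ}

/-- The absolute lower bound of the weights of the paths which avoid a column. -/
def LowD (μ : Measure ℝ) (s : ℝ) (V : Win) (L : ℕ) (e : ℝ) (i D : ℕ) (ct : ℝ) (η : Env) : Prop :=
  ∀ T ∈ V.Iv, ∀ k < 2 ^ (V.a - i), ∀ u u' : ℤ, Pr μ s V L e i (T + k * 2 ^ i) u u' → ∀ q : ℤ,
    Real.exp (-ct) ≤ kLP μ s V (AvL μ s (T + k * 2 ^ i) (2 ^ i) D q) η (T + k * 2 ^ i) (2 ^ i) u u'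

/-- The region of the layer without the column. -/
def Rq (μ : Measure ℝ) (s : ℝ) (V : Win) (α h D : ℕ) (q : ℤ) : Set Pt :=
  {p : Pt | (V.Y < V.sg * (p.2 - md μ s p.1.toNat) ∧ V.sg * (p.2 - md μ s p.1.toNat) ≤ V.Y + V.w) ∧
    ∀ t : ℕ, (t : ℤ) = p.1 → t ∈ mid α h → p.2 ∉ col μ s α D q t}

theorem rq_le (V : Win) (η : Env) (α h D : ℕ) (q u u' : ℤ) :
    WR μ s (Rq μ s V α h D q) η ((α : ℤ), u) h (u' - u) ≤ kLP μ s V (AvL μ s α h D q) η α h u u' := by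
  have h1 := WR_eq_Kc (μ := μ) (s := s) (Rq μ s V α h D q) η α u h (u' - u)
  rw [add_sub_cancel] at h1
  rw [h1]
  unfold kLP
  refine Kc_mono_cl (fun g hg => ⟨fun t ht hJ => (hg t ht).1, fun t ht => ?_⟩) _ _ _ _ _
  have h2 := mid_sub ht
  exact (hg t (mem_Ioc.2 h2)).2 t rfl ht

theorem kL_le (V : Win) (η : Env) (α h : ℕ) (u u' : ℤ) : kL μ s V η α h u u' ≤ W μ s η ((α : ℤ), u) h (u' - u) := by
  have h1 := WR_eq_Kc (μ := μ) (s := s) (Rr μ s V.sg V.J V.Y V.w) η α u h (u' - u)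
  rw [add_sub_cancel] at h1
  unfold kL
  rw [← h1]
  exact WR_mono_on9 (μ := μ) (s := s) η _ h _ fun p _ _ _ => Set.mem_univ p

theorem kLP_le_kL (V : Win) (Φ : ℤ → Finset ℕ → Prop) (η : Env) (α h : ℕ) (u u' : ℤ) :
    kLP μ s V Φ η α h u u' ≤ kL μ s V η α h u u' := by
  unfold kLP kL
  exact Kc_mono_cl (fun g hg => hg.1) _ _ _ _ _

theorem md_fl (m : ℕ) : sl μ s * m - 1 ≤ (md μ s m : ℝ) ∧ (md μ s m : ℝ) ≤ sl μ s * m :=
  ⟨(Int.sub_one_lt_floor _).le, Int.floor_le _⟩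

theorem md_box (hs : 0 ≤ sl μ s ∧ sl μ s ≤ 1) (m : ℕ) : 0 ≤ md μ s m ∧ md μ s m ≤ m := by
  have hm : (0 : ℝ) ≤ m := Nat.cast_nonneg m
  refine ⟨Int.floor_nonneg.2 (mul_nonneg hs.1 hm), ?_⟩
  have h1 : (md μ s m : ℝ) ≤ m := (md_fl m).2.trans (mul_le_of_le_one_left hm hs.2)
  exact_mod_cast h1

/-- THE DETERMINISTIC PART: three confined legs. -/
theorem det_legs (hs : 0 ≤ sl μ s ∧ sl μ s ≤ 1) {V : Win} {L i D r : ℕ} {e A C₇ : ℝ} {η : Env} {s₀ : ℤ} (hr : 2 ^ i = 4 * r)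
    (hr1 : 1 ≤ r) {α : ℕ}
    (hαL : α + 2 ^ i ≤ L) {u u' q : ℤ} (hp : Pr μ s V L e i α u u') (hu : |u - s₀| + (2 ^ i : ℕ) ≤ 2 * L)
    (hsg : V.sg = 1 ∨ V.sg = -1) (hC₇ : 0 ≤ C₇) {Dv : ℝ} {B : ℕ} (hB : C₇ * wd' μ s (2 ^ i) + 2 ≤ B)
    (hDv : (L : ℝ) ^ e * wd' μ s (2 ^ i) + D + B + 1 ≤ Dv)
    (hT : C₇ * wd' μ s (2 ^ i) + 2 * Dv + 2 < (L : ℝ) ^ (2 * e) * wd' μ s (2 ^ i))
    (hleg : ∀ Dv' : ℝ, 0 ≤ Dv' → Dv' ≤ Dv → ∀ t m : ℕ, 2 ^ i ≤ 4 * m → 2 * m ≤ 2 ^ i → t + m ≤ L → ∀ x : ℤ,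
      |x - s₀| + m ≤ 2 * L → ∀ y : ℤ, |(y : ℝ) - sl μ s * m| ≤ Dv' + 1 →
        Real.exp (-A) ≤ WR μ s (Sb μ s (C₇ * wd' μ s (2 ^ i) + Dv') ((t : ℤ), x)) η ((t : ℤ), x) m y) :
    Real.exp (-(3 * A)) ≤ kLP μ s V (AvL μ s α (2 ^ i) D q) η α (2 ^ i) u u' := by
  refine le_trans ?_ (rq_le V η α (2 ^ i) D q u u')
  have hw0 : 0 ≤ wd' μ s (2 ^ i) := zero_le_one.trans (le_max_left _ _)
  have hW0 : 0 ≤ C₇ * wd' μ s (2 ^ i) := mul_nonneg hC₇ hw0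
  obtain ⟨G, hG⟩ : ∃ G : ℝ, G = C₇ * wd' μ s (2 ^ i) := ⟨_, rfl⟩
  obtain ⟨F, hF⟩ : ∃ F : ℝ, F = (L : ℝ) ^ e * wd' μ s (2 ^ i) := ⟨_, rfl⟩
  have hF0 : 0 ≤ F := by rw [hF]; positivity
  rw [← hG] at hB hT hW0
  rw [← hF] at hDv
  have hD0 : (0 : ℝ) ≤ D := Nat.cast_nonneg D
  have hBR : (0 : ℝ) ≤ B := Nat.cast_nonneg B
  have hDv0 : 0 ≤ Dv := by linarith
  obtain ⟨hst, hw1, hw2, -, -⟩ := hp
  rw [← hF] at hst
  obtain ⟨F2, hF2⟩ : ∃ F2 : ℝ, F2 = (L : ℝ) ^ (2 * e) * wd' μ s (2 ^ i) := ⟨_, rfl⟩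
  rw [← hF2] at hw1 hw2 hT
  -- the level
  obtain ⟨Zt, hZ1, hZ2⟩ : ∃ Zt : ℤ, |Zt - u| ≤ (D : ℤ) + B ∧
      (Zt ≤ (D : ℤ) * q - B ∨ (D : ℤ) * (q + 1) + B ≤ Zt) := by
    have e0 : (D : ℤ) * (q + 1) = D * q + D := by ring
    by_cases c1 : u ≤ (D : ℤ) * q - B
    · exact ⟨u, by rw [sub_self, abs_zero]; positivity, Or.inl c1⟩
    · by_cases c2 : (D : ℤ) * (q + 1) + B ≤ u
      · exact ⟨u, by rw [sub_self, abs_zero]; positivity, Or.inr c2⟩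
      · by_cases c3 : (D : ℤ) * (q + 1) + B - u ≤ (D : ℤ) + B
        · refine ⟨(D : ℤ) * (q + 1) + B, ?_, Or.inr le_rfl⟩
          rw [abs_le]
          constructor <;> omega
        · refine ⟨(D : ℤ) * q - B, ?_, Or.inl le_rfl⟩
          rw [abs_le]
          constructor <;> omega
  obtain ⟨v, hv⟩ : ∃ v : ℤ, v = Zt + md μ s r := ⟨_, rfl⟩
  obtain ⟨y₂, hy₂⟩ : ∃ y₂ : ℤ, y₂ = md μ s (2 * r) := ⟨_, rfl⟩
  obtain ⟨ρ, hρ⟩ : ∃ ρ : ℝ, ρ = sl μ s * r := ⟨_, rfl⟩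
  have hm1 := md_fl (μ := μ) (s := s) r
  have hm2 := md_fl (μ := μ) (s := s) (2 * r)
  have e2r : sl μ s * ((2 * r : ℕ) : ℝ) = 2 * ρ := by
    rw [hρ]
    push_cast
    ring
  rw [← hρ] at hm1
  rw [e2r, ← hy₂] at hm2
  have hvR : (v : ℝ) = Zt + md μ s r := by exact_mod_cast hv
  have hZR : |(Zt : ℝ) - u| ≤ D + B := by exact_mod_cast hZ1
  rw [abs_le] at hZR
  have hdev : |((v : ℝ) - u) - ρ| ≤ D + B + 1 := by
    rw [abs_le]
    constructor <;> linarith [hZR.1, hZR.2, hm1.1, hm1.2]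
  have hrR : sl μ s * ((2 ^ i : ℕ) : ℝ) = 4 * ρ := by
    rw [hr, hρ]
    push_cast
    ring
  rw [hrR] at hst
  rw [abs_le] at hst hdev
  -- the three legs
  have l1 := hleg Dv hDv0 le_rfl α r (by omega) (by omega) (by omega) u (by omega) (v - u) (by
    push_cast
    rw [← hρ, abs_le]
    constructor <;> linarith [hdev.1, hdev.2])
  have i1 : 0 ≤ v - u ∧ v - u ≤ r := by
    by_contra hcon
    rw [WR_off9 _ η _ hcon] at l1
    exact absurd l1 (not_le.2 (Real.exp_pos _))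
  have l2 := hleg 0 le_rfl hDv0 (α + r) (2 * r) (by omega) (by omega) (by omega) v (by
    have h5 : |v - s₀| ≤ |u - s₀| + |v - u| := by
      have := abs_add_le (u - s₀) (v - u)
      have e1 : u - s₀ + (v - u) = v - s₀ := by ring
      rwa [e1] at this
    rw [abs_of_nonneg i1.1] at h5
    omega) y₂ (by
    rw [e2r, abs_le]
    constructor <;> linarith [hm2.1, hm2.2])
  have i2 : 0 ≤ y₂ ∧ y₂ ≤ ((2 * r : ℕ) : ℤ) := by
    rw [hy₂]
    exact md_box hs _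
  have l3 := hleg Dv hDv0 le_rfl (α + 3 * r) r (by omega) (by omega) (by omega) (v + y₂) (by
    have h5 : |v + y₂ - s₀| ≤ |u - s₀| + |v + y₂ - u| := by
      have := abs_add_le (u - s₀) (v + y₂ - u)
      have e1 : u - s₀ + (v + y₂ - u) = v + y₂ - s₀ := by ring
      rwa [e1] at this
    rw [abs_of_nonneg (show 0 ≤ v + y₂ - u by omega)] at h5
    omega) (u' - (v + y₂)) (by
    push_cast
    rw [← hρ, abs_le]
    constructor <;> linarith [hdev.1, hdev.2, hst.1, hst.2, hm2.1, hm2.2])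
  -- the regions
  rw [← hG] at l1 l2 l3
  rw [add_zero] at l2
  have hmα := md_fl (μ := μ) (s := s) α
  -- a site near the line from the start is in the strip
  have hstrip : ∀ p : Pt, (α : ℤ) < p.1 → |((p.2 : ℝ) - u) - sl μ s * ((p.1 : ℝ) - α)| ≤ G + 2 * Dv + 1 →
      V.Y < V.sg * (p.2 - md μ s p.1.toNat) ∧ V.sg * (p.2 - md μ s p.1.toNat) ≤ V.Y + V.w := by
    intro p hp1 hp'
    obtain ⟨t, ht⟩ : ∃ t : ℕ, (t : ℤ) = p.1 := ⟨p.1.toNat, by omega⟩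
    have ht2 : p.1.toNat = t := by omega
    have htR : (p.1 : ℝ) = t := by rw [← ht]; push_cast; ring
    rw [ht2]
    rw [htR] at hp'
    have hmt := md_fl (μ := μ) (s := s) t
    have e3 : sl μ s * ((t : ℝ) - α) = sl μ s * t - sl μ s * α := by ring
    rw [e3, abs_le] at hp'
    have hR : (V.Y : ℝ) < V.sg * ((p.2 : ℝ) - md μ s t) ∧ V.sg * ((p.2 : ℝ) - md μ s t) ≤ V.Y + V.w := by
      rcases hsg with h1 | h1
      · rw [h1] at hw1 hw2 ⊢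
        push_cast at hw1 hw2 ⊢
        rw [one_mul] at hw1 hw2 ⊢
        constructor <;> linarith [hp'.1, hp'.2, hmt.1, hmt.2, hmα.1, hmα.2]
      · rw [h1] at hw1 hw2 ⊢
        push_cast at hw1 hw2 ⊢
        rw [neg_one_mul] at hw1 hw2 ⊢
        constructor <;> linarith [hp'.1, hp'.2, hmt.1, hmt.2, hmα.1, hmα.2]
    exact ⟨by exact_mod_cast hR.1, by exact_mod_cast hR.2⟩
  have hmid : ∀ t : ℕ, t ∈ mid α (2 ^ i) → α + r < t ∧ t ≤ α + 3 * r := by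
    intro t ht
    unfold mid at ht
    rw [mem_Ioc, hr] at ht
    have e1 : 4 * r / 4 = r := by omega
    have e2 : 3 * (4 * r) / 4 = 3 * r := by omega
    rw [e1, e2] at ht
    exact ht
  have m1 : Real.exp (-A) ≤ WR μ s (Rq μ s V α (2 ^ i) D q) η ((α : ℤ), u) r (v - u) := by
    refine l1.trans (WR_mono_on9 η _ r _ ?_)
    intro p hp' hp1 hp2
    have h6 : |((p.2 : ℝ) - (u : ℝ)) - sl μ s * ((p.1 : ℝ) - (((α : ℕ) : ℤ) : ℝ))| ≤ G + Dv := hp'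
    rw [Int.cast_natCast] at h6
    refine ⟨hstrip p hp1 (by linarith), fun t ht htm => ?_⟩
    have h7 := hmid t htm
    have h8 : p.1 ≤ (α : ℤ) + r := hp2
    omega
  have m2 : Real.exp (-A) ≤ WR μ s (Rq μ s V α (2 ^ i) D q) η (((α : ℤ), u).1 + (r : ℤ), ((α : ℤ), u).2 + (v - u)) (2 * r) y₂ := by
    have e4 : ((((α : ℤ), u) : Pt).1 + (r : ℤ), (((α : ℤ), u) : Pt).2 + (v - u)) = (((α + r : ℕ) : ℤ), v) := by
      refine Prod.ext ?_ ?_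
      · show (α : ℤ) + r = ((α + r : ℕ) : ℤ)
        push_cast
        ring
      · show u + (v - u) = v
        ring
    rw [e4]
    refine l2.trans (WR_mono_on9 η _ (2 * r) _ ?_)
    intro p hp' hp1 hp2
    have h6 : |((p.2 : ℝ) - (v : ℝ)) - sl μ s * ((p.1 : ℝ) - (((α + r : ℕ) : ℤ) : ℝ))| ≤ G := hp'
    push_cast at h6
    have e5 : ((p.2 : ℝ) - v) - sl μ s * ((p.1 : ℝ) - (α + r)) = ((p.2 : ℝ) - v) - sl μ s * ((p.1 : ℝ) - α) + ρ := by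
      rw [hρ]
      ring
    rw [e5, abs_le] at h6
    have hp1' : ((α + r : ℕ) : ℤ) < p.1 := hp1
    refine ⟨hstrip p (by push_cast at hp1'; omega) ?_, fun t ht htm hcol => ?_⟩
    · rw [abs_le]
      constructor <;> linarith [h6.1, h6.2, hdev.1, hdev.2]
    · rw [mem_col] at hcol
      obtain ⟨c1, c2⟩ := hcol
      have htα : α ≤ t := by
        have := hmid t htm
        omega
      have htR : (p.1 : ℝ) = t := by rw [← ht]; push_cast; ring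
      have hmt := md_fl (μ := μ) (s := s) (t - α)
      have e6 : sl μ s * ((t - α : ℕ) : ℝ) = sl μ s * ((p.1 : ℝ) - α) := by
        rw [Nat.cast_sub htα, htR]
      rw [e6] at hmt
      have c1R : (D : ℝ) * q ≤ (p.2 : ℝ) - md μ s (t - α) := by exact_mod_cast c1
      have c2R : (p.2 : ℝ) - md μ s (t - α) < (D : ℝ) * (q + 1) := by exact_mod_cast c2
      rcases hZ2 with h9 | h9
      · have h9R : (Zt : ℝ) ≤ (D : ℝ) * q - B := by exact_mod_cast h9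
        linarith [h6.1, h6.2, hm1.1, hm1.2, hmt.1, hmt.2]
      · have h9R : (D : ℝ) * (q + 1) + B ≤ Zt := by exact_mod_cast h9
        linarith [h6.1, h6.2, hm1.1, hm1.2, hmt.1, hmt.2]
  have m3 : Real.exp (-A) ≤ WR μ s (Rq μ s V α (2 ^ i) D q) η (((α : ℤ), u).1 + ((r + 2 * r : ℕ) : ℤ), ((α : ℤ), u).2 + (v - u + y₂)) r
      (u' - (v + y₂)) := by
    have e4 : ((((α : ℤ), u) : Pt).1 + ((r + 2 * r : ℕ) : ℤ), (((α : ℤ), u) : Pt).2 + (v - u + y₂)) =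
        (((α + 3 * r : ℕ) : ℤ), v + y₂) := by
      refine Prod.ext ?_ ?_
      · show (α : ℤ) + ((r + 2 * r : ℕ) : ℤ) = ((α + 3 * r : ℕ) : ℤ)
        push_cast
        ring
      · show u + (v - u + y₂) = v + y₂
        ring
    rw [e4]
    refine l3.trans (WR_mono_on9 η _ r _ ?_)
    intro p hp' hp1 hp2
    have h6 : |((p.2 : ℝ) - ((v + y₂ : ℤ) : ℝ)) - sl μ s * ((p.1 : ℝ) - (((α + 3 * r : ℕ) : ℤ) : ℝ))| ≤ G + Dv := hp'
    push_cast at h6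
    have e5 : ((p.2 : ℝ) - (v + y₂)) - sl μ s * ((p.1 : ℝ) - (α + 3 * r)) =
        ((p.2 : ℝ) - (v + y₂)) - sl μ s * ((p.1 : ℝ) - α) + 3 * ρ := by
      rw [hρ]
      ring
    rw [e5, abs_le] at h6
    have h8 : ((α + 3 * r : ℕ) : ℤ) < p.1 := hp1
    push_cast at h8
    refine ⟨hstrip p (by omega) ?_, fun t ht htm => ?_⟩
    · rw [abs_le]
      constructor <;> linarith [h6.1, h6.2, hdev.1, hdev.2, hm2.1, hm2.2]
    · have h7 := hmid t htm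
      omega
  have j1 := WR_mul_le9 (μ := μ) (s := s) (Rq μ s V α (2 ^ i) D q) η ((α : ℤ), u) r (2 * r) (k := v - u) y₂ i1.1 i1.2
  have j2 := WR_mul_le9 (μ := μ) (s := s) (Rq μ s V α (2 ^ i) D q) η ((α : ℤ), u) (r + 2 * r) r (k := v - u + y₂) (u' - (v + y₂))
    (by omega) (by push_cast at i2 ⊢; omega)
  have e5 : r + 2 * r + r = 2 ^ i := by omega
  have e6 : v - u + y₂ + (u' - (v + y₂)) = u' - u := by ring
  rw [e5, e6] at j2
  refine le_trans ?_ j2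
  have e7 : Real.exp (-(3 * A)) = (Real.exp (-A) * Real.exp (-A)) * Real.exp (-A) := by
    rw [← Real.exp_add, ← Real.exp_add]
    congr 1
    ring
  rw [e7]
  have j3 : Real.exp (-A) * Real.exp (-A) ≤ WR μ s (Rq μ s V α (2 ^ i) D q) η ((α : ℤ), u) (r + 2 * r) (v - u + y₂) :=
    (mul_le_mul m1 m2 (Real.exp_nonneg _) (Pool.Agent.W_7d29a1_F.WR_nonneg _ _ _ _ _)).trans j1
  exact mul_le_mul j3 m3 (Real.exp_nonneg _) (Pool.Agent.W_7d29a1_F.WR_nonneg _ _ _ _ _)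

end

end Pool.Agent.W_7d29a1_HZ.ZE
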