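import Pool.Agent.W_7d29a1_HZ.ZE_Defs
/-!
STORM Z, second storey: the decomposition of the kernel of the class at one layer `[α, β]`. The kernel with a further condition on
the piece inside the layer is a sum of outside weights (which do not depend on the condition nor on the environment in the layer) times
kernels of the layer. (helper18)
-/

set_option autoImplicit false

namespace Pool.Agent.W_7d29a1_HZ.ZE

open MeasureTheory ProbabilityTheory Filter Topology Finset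
open Pool.Agent.W_7d29a1_F Pool.Agent.W_7d29a1_X Pool.Agent.W_7d29a1_H Pool.Agent.W_7d29a1_HZ
open Pool.Agent.W_7d29a1_HS (In wd md)
open Pool.Agent.W_7d29a1_Z (union_inter_left ps pw pcs Kf Kc Reg sJ mem_sJ ps_self ps_inter ps_chain ps_union_left ps_union_right sum_pw_cut pw_nonneg pw_pos
  pw_meas pw_env Kc_nonneg Kc_meas mem_pcs)
open Pool.Agent.W_7d29a1_Z15 (Cls AdC Own PC aC)
open Pool.Agent.W_7d29a1_HZ.Z15 (kC rC NTc kC_nonneg kC_pos own_pos rC_nonneg rC_pos rC_meas)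
open Pool.Agent.W_7d29a1_ZE (Win Br cAnd mid Ce al LayC glu NdOut reg_cut mem_J br_le br_ne al_le ndOut mid_sub)
open scoped ENNReal

noncomputable section

variable {μ : Measure ℝ} {s : ℝ}

open scoped Classical in
/-- The weight outside the layer. -/
def outL (μ : Measure ℝ) (s : ℝ) (V : Win) (L : ℕ) (e C : ℝ) (i₀ i₁ : ℕ) (α β : ℕ) (b : ℕ × ℕ) (x y : ℤ) (g1 : Finset ℕ)
    (u' : ℤ) (η : Env) : ℝ :=
  pw μ s 0 η b.1 x α g1 * ∑ g3 ∈ (Ico β b.2).powerset, pw μ s 0 η β u' b.2 g3 *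
    (if ps 0 β u' g3 b.2 = y ∧ Reg (Rr μ s V.sg V.J V.Y V.w) 0 b.1 x α g1 ∧ Reg (Rr μ s V.sg V.J V.Y V.w) 0 β u' b.2 g3 ∧
      ∀ i, i₀ ≤ i → i ≤ i₁ → ∀ T ∈ V.Iv, Nod μ s V L e C i T (glu α β b.1 x g1 u' g3) then (1 : ℝ) else 0)

theorem outL_nonneg (V : Win) (L : ℕ) (e C : ℝ) (i₀ i₁ : ℕ) (α β : ℕ) (b : ℕ × ℕ) (x y : ℤ) (g1 : Finset ℕ)
    (u' : ℤ) (η : Env) : 0 ≤ outL μ s V L e C i₀ i₁ α β b x y g1 u' η := by
  classical
  unfold outL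
  refine mul_nonneg (pw_nonneg _ _ _ _ _ _) (sum_nonneg fun g3 _ => mul_nonneg (pw_nonneg _ _ _ _ _ _) ?_)
  split_ifs
  · exact zero_le_one
  · exact le_rfl

theorem outL_meas (V : Win) (L : ℕ) (e C : ℝ) (i₀ i₁ : ℕ) (α β : ℕ) (b : ℕ × ℕ) (x y : ℤ) (g1 : Finset ℕ)
    (u' : ℤ) : Measurable (outL μ s V L e C i₀ i₁ α β b x y g1 u') := by
  classical
  unfold outL
  exact (pw_meas _ _ _ _ _).mul (Finset.measurable_sum _ fun g3 _ => (pw_meas _ _ _ _ _).mul_const _)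

/-- The weight outside the layer does not depend on the environment at the rows of the layer. -/
theorem outL_dep (V : Win) (L : ℕ) (e C : ℝ) (i₀ i₁ : ℕ) {α β : ℕ} (b : ℕ × ℕ) (x y : ℤ) (g1 : Finset ℕ)
    (u' : ℤ) {η η' : Env} (h : ∀ q : Pt, ¬ ((α : ℤ) < q.1 ∧ q.1 ≤ β) → η q = η' q) :
    outL μ s V L e C i₀ i₁ α β b x y g1 u' η = outL μ s V L e C i₀ i₁ α β b x y g1 u' η' := by
  classical
  unfold outL
  congr 1
  · refine pw_env 0 _ _ _ _ fun t ht => h _ ?_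
    rw [mem_Ioc] at ht
    show ¬ ((α : ℤ) < (t : ℤ) ∧ (t : ℤ) ≤ β)
    omega
  · refine sum_congr rfl fun g3 _ => ?_
    congr 1
    refine pw_env 0 _ _ _ _ fun t ht => h _ ?_
    rw [mem_Ioc] at ht
    show ¬ ((α : ℤ) < (t : ℤ) ∧ (t : ℤ) ≤ β)
    omega

/-- The conditions on the nodes depend only on the nodes. -/
theorem Nod.congr18 {V : Win} {L : ℕ} {e C : ℝ} {i T : ℕ} {u v : ℕ → ℤ}
    (h : ∀ k ≤ 2 ^ (V.a - i), u (T + k * 2 ^ i) = v (T + k * 2 ^ i)) (hu : Nod μ s V L e C i T u) : Nod μ s V L e C i T v := by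
  refine ⟨fun k hk => ?_, ?_, fun k hk => ?_⟩
  · rw [← h k hk.le, ← h (k + 1) hk]
    exact hu.step k hk
  · refine le_trans (le_of_eq (sum_congr rfl fun k hk => ?_)) hu.tv
    rw [mem_range] at hk
    rw [← h k hk.le, ← h (k + 1) hk]
  · rw [← h k hk]
    exact hu.wall k hk

theorem Nod.iff_congr {V : Win} {L : ℕ} {e C : ℝ} {i T : ℕ} {u v : ℕ → ℤ}
    (h : ∀ k ≤ 2 ^ (V.a - i), u (T + k * 2 ^ i) = v (T + k * 2 ^ i)) : Nod μ s V L e C i T u ↔ Nod μ s V L e C i T v :=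
  ⟨fun hu => hu.congr18 h, fun hv => hv.congr18 fun k hk => (h k hk).symm⟩

open scoped Classical in
/-- **Decomposition at one layer.** -/
theorem lay_eq {V : Win} {L : ℕ} {e C : ℝ} {i₀ i₁ α h : ℕ} {b : ℕ × ℕ} (h1 : b.1 ≤ α) (h2 : α + h ≤ b.2)
    (hn : NdOut V i₀ i₁ α (α + h)) (hh : 0 < h) (hT : ∀ T ∈ V.Iv, b.1 ≤ T ∧ T + 2 ^ V.a ≤ b.2) (hi₁ : i₁ ≤ V.a)
    (Φ : ℤ → Finset ℕ → Prop) (S : Finset ℕ) (η : Env) :
    kC μ s (cAnd (clE μ s V L e C i₀ i₁) (LayC α (α + h) Φ)) S b η =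
      ∑ g1 ∈ (Ico b.1 α).powerset, ∑ u' ∈ Icc (ps 0 b.1 (pos S b.1) g1 α) (ps 0 b.1 (pos S b.1) g1 α + h),
        outL μ s V L e C i₀ i₁ α (α + h) b (pos S b.1) (pos S b.2) g1 u' η *
          kLP μ s V Φ η α h (ps 0 b.1 (pos S b.1) g1 α) u' := by
  obtain ⟨x, hx⟩ : ∃ x, x = pos S b.1 := ⟨_, rfl⟩
  obtain ⟨y, hy⟩ : ∃ y, y = pos S b.2 := ⟨_, rfl⟩
  obtain ⟨β, hβ⟩ : ∃ β, β = α + h := ⟨_, rfl⟩
  unfold kC
  rw [← hx, ← hy, ← hβ]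
  rw [← hβ] at h2 hn
  have h3 : α ≤ β := by omega
  -- the sum over all pieces
  have e1 : Kc μ s 0 (cAnd (clE μ s V L e C i₀ i₁) (LayC α β Φ) b.1 x b.2) η b.1 x b.2 y =
      ∑ g ∈ (Ico b.1 b.2).powerset, pw μ s 0 η b.1 x b.2 g *
        (if ps 0 b.1 x g b.2 = y ∧ cAnd (clE μ s V L e C i₀ i₁) (LayC α β Φ) b.1 x b.2 g then (1 : ℝ) else 0) := by
    unfold Kc pcs
    rw [filter_filter, sum_filter]
    refine sum_congr rfl fun g _ => ?_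
    split_ifs <;> simp
  rw [e1, sum_pw_cut 0 η x h1 (h3.trans h2)]
  refine sum_congr rfl fun g1 hg1 => ?_
  rw [mem_powerset] at hg1
  obtain ⟨u, hu⟩ : ∃ u, u = ps 0 b.1 x g1 α := ⟨_, rfl⟩
  rw [← hu, sum_pw_cut 0 η u h3 h2]
  -- the indicator splits
  have key : ∀ g2 ∈ (Ico α β).powerset, ∀ g3 ∈ (Ico β b.2).powerset,
      (if ps 0 b.1 x (g1 ∪ (g2 ∪ g3)) b.2 = y ∧ cAnd (clE μ s V L e C i₀ i₁) (LayC α β Φ) b.1 x b.2 (g1 ∪ (g2 ∪ g3)) then (1 : ℝ)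
        else 0) =
      (if Reg (Rr μ s V.sg V.J V.Y V.w) 0 α u β g2 ∧ Φ u g2 then (1 : ℝ) else 0) *
        (if ps 0 β (ps 0 α u g2 β) g3 b.2 = y ∧ Reg (Rr μ s V.sg V.J V.Y V.w) 0 b.1 x α g1 ∧
          Reg (Rr μ s V.sg V.J V.Y V.w) 0 β (ps 0 α u g2 β) b.2 g3 ∧
          ∀ i, i₀ ≤ i → i ≤ i₁ → ∀ T ∈ V.Iv, Nod μ s V L e C i T (glu α β b.1 x g1 (ps 0 α u g2 β) g3) then (1 : ℝ) else 0) := by
    intro g2 hg2 g3 hg3
    rw [mem_powerset] at hg2 hg3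
    have h23 : g2 ∪ g3 ⊆ Ico α b.2 :=
      union_subset (hg2.trans (Ico_subset_Ico_right h2)) (hg3.trans (Ico_subset_Ico_left h3))
    have p1 : ps 0 b.1 x (g1 ∪ (g2 ∪ g3)) b.2 = ps 0 β (ps 0 α u g2 β) g3 b.2 := by
      rw [ps_union_right 0 x hg1 h23 h1 (h3.trans h2) le_rfl, ← hu, ps_union_right 0 u hg2 hg3 h3 h2 le_rfl]
    have p2 : Reg (Rr μ s V.sg V.J V.Y V.w) 0 b.1 x b.2 (g1 ∪ (g2 ∪ g3)) ↔ Reg (Rr μ s V.sg V.J V.Y V.w) 0 b.1 x α g1 ∧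
        Reg (Rr μ s V.sg V.J V.Y V.w) 0 α u β g2 ∧ Reg (Rr μ s V.sg V.J V.Y V.w) 0 β (ps 0 α u g2 β) b.2 g3 := by
      rw [reg_cut h1 (h3.trans h2) x hg1 h23, ← hu, reg_cut h3 h2 u hg2 hg3]
    have p3 : LayC α β Φ b.1 x b.2 (g1 ∪ (g2 ∪ g3)) ↔ Φ u g2 := by
      unfold LayC
      rw [ps_union_left 0 x hg1 h23 le_rfl, ← hu]
      have : (g1 ∪ (g2 ∪ g3)) ∩ Ico α β = g2 := by
        rw [union_inter_distrib_right, union_inter_left hg2 hg3]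
        have : g1 ∩ Ico α β = ∅ := by
          rw [← disjoint_iff_inter_eq_empty, disjoint_left]
          intro t ht ht'
          have := hg1 ht
          rw [mem_Ico] at this ht'
          omega
        rw [this, empty_union]
      rw [this]
    have p4 : ∀ i, i₀ ≤ i → i ≤ i₁ → ∀ T ∈ V.Iv, (Nod μ s V L e C i T (ps 0 b.1 x (g1 ∪ (g2 ∪ g3))) ↔
        Nod μ s V L e C i T (glu α β b.1 x g1 (ps 0 α u g2 β) g3)) := by
      intro i hi hi' T hTv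
      refine Nod.iff_congr fun k hk => ?_
      have q1 := hn i hi hi' T hTv k hk
      have q2 := hT T hTv
      have q3 : k * 2 ^ i ≤ 2 ^ V.a := by
        calc k * 2 ^ i ≤ 2 ^ (V.a - i) * 2 ^ i := Nat.mul_le_mul_right _ hk
          _ = 2 ^ V.a := by rw [← pow_add]; congr 1; omega
      unfold glu
      rcases q1 with q1 | q1
      · rw [if_pos q1, ps_union_left 0 x hg1 h23 q1]
      · rw [if_neg (by omega), ps_union_right 0 x hg1 h23 h1 (by omega) (by omega), ← hu,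
          ps_union_right 0 u hg2 hg3 h3 q1 (by omega)]
    have hiff : (ps 0 b.1 x (g1 ∪ (g2 ∪ g3)) b.2 = y ∧ cAnd (clE μ s V L e C i₀ i₁) (LayC α β Φ) b.1 x b.2 (g1 ∪ (g2 ∪ g3))) ↔
        ((Reg (Rr μ s V.sg V.J V.Y V.w) 0 α u β g2 ∧ Φ u g2) ∧
        (ps 0 β (ps 0 α u g2 β) g3 b.2 = y ∧ Reg (Rr μ s V.sg V.J V.Y V.w) 0 b.1 x α g1 ∧
          Reg (Rr μ s V.sg V.J V.Y V.w) 0 β (ps 0 α u g2 β) b.2 g3 ∧
          ∀ i, i₀ ≤ i → i ≤ i₁ → ∀ T ∈ V.Iv, Nod μ s V L e C i T (glu α β b.1 x g1 (ps 0 α u g2 β) g3))) := by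
      rw [p1]
      unfold cAnd clE
      rw [p2, p3]
      constructor
      · rintro ⟨a1, ⟨⟨a2, a3, a4⟩, a5⟩, a6⟩
        exact ⟨⟨a3, a6⟩, a1, a2, a4, fun i hi hi' T hTv => (p4 i hi hi' T hTv).1 (a5 i hi hi' T hTv)⟩
      · rintro ⟨⟨a3, a6⟩, a1, a2, a4, a5⟩
        exact ⟨a1, ⟨⟨a2, a3, a4⟩, fun i hi hi' T hTv => (p4 i hi hi' T hTv).2 (a5 i hi hi' T hTv)⟩, a6⟩
    by_cases c1 : Reg (Rr μ s V.sg V.J V.Y V.w) 0 α u β g2 ∧ Φ u g2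
    · rw [if_pos c1, one_mul]
      exact if_congr (hiff.trans (and_iff_right c1)) rfl rfl
    · rw [if_neg c1, zero_mul, if_neg fun hh => c1 (hiff.1 hh).1]
  obtain ⟨G, hG⟩ : ∃ G : ℤ → ℝ, G = fun u' => ∑ g3 ∈ (Ico β b.2).powerset, pw μ s 0 η β u' b.2 g3 *
    (if ps 0 β u' g3 b.2 = y ∧ Reg (Rr μ s V.sg V.J V.Y V.w) 0 b.1 x α g1 ∧ Reg (Rr μ s V.sg V.J V.Y V.w) 0 β u' b.2 g3 ∧
      ∀ i, i₀ ≤ i → i ≤ i₁ → ∀ T ∈ V.Iv, Nod μ s V L e C i T (glu α β b.1 x g1 u' g3) then (1 : ℝ) else 0) := ⟨_, rfl⟩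
  have e2 : ∀ g2 ∈ (Ico α β).powerset, pw μ s 0 η α u β g2 * ∑ g3 ∈ (Ico β b.2).powerset,
      pw μ s 0 η β (ps 0 α u g2 β) b.2 g3 * (if ps 0 b.1 x (g1 ∪ (g2 ∪ g3)) b.2 = y ∧
        cAnd (clE μ s V L e C i₀ i₁) (LayC α β Φ) b.1 x b.2 (g1 ∪ (g2 ∪ g3)) then (1 : ℝ) else 0) =
      pw μ s 0 η α u β g2 * (if Reg (Rr μ s V.sg V.J V.Y V.w) 0 α u β g2 ∧ Φ u g2 then (1 : ℝ) else 0) *
        G (ps 0 α u g2 β) := by
    intro g2 hg2
    rw [hG, mul_assoc]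
    congr 1
    show _ = (if Reg (Rr μ s V.sg V.J V.Y V.w) 0 α u β g2 ∧ Φ u g2 then (1 : ℝ) else 0) *
      ∑ g3 ∈ (Ico β b.2).powerset, pw μ s 0 η β (ps 0 α u g2 β) b.2 g3 * _
    rw [mul_sum]
    refine sum_congr rfl fun g3 hg3 => ?_
    rw [key g2 hg2 g3 hg3]
    ring
  rw [sum_congr rfl e2]
  -- group the middle pieces by the end point
  have hmaps : ∀ g2 ∈ (Ico α β).powerset, ps 0 α u g2 β ∈ Icc u (u + h) := by
    intro g2 hg2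
    rw [mem_powerset] at hg2
    have q1 : ps 0 α u g2 β = u + ((g2 ∩ Ico α β).card : ℤ) := by simp [ps]
    have q2 : (g2 ∩ Ico α β).card ≤ h := by
      refine (card_le_card inter_subset_right).trans ?_
      rw [Nat.card_Ico]
      omega
    rw [mem_Icc, q1]
    constructor
    · have : (0 : ℤ) ≤ ((g2 ∩ Ico α β).card : ℤ) := by positivity
      linarith
    · have : ((g2 ∩ Ico α β).card : ℤ) ≤ h := by exact_mod_cast q2
      linarith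
  rw [← sum_fiberwise_of_maps_to hmaps, mul_sum]
  refine sum_congr rfl fun u' _ => ?_
  have e3 : outL μ s V L e C i₀ i₁ α β b x y g1 u' η = pw μ s 0 η b.1 x α g1 * G u' := by
    rw [hG]
    rfl
  rw [e3, mul_assoc]
  congr 1
  unfold kLP Kc pcs
  rw [filter_filter, mul_sum, sum_filter, sum_filter, ← hβ]
  refine sum_congr rfl fun g2 _ => ?_
  by_cases c1 : ps 0 α u g2 β = u'
  · rw [if_pos c1, c1]
    by_cases c2 : Reg (Rr μ s V.sg V.J V.Y V.w) 0 α u β g2 ∧ Φ u g2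
    · rw [if_pos c2, if_pos ⟨rfl, c2⟩]
      ring
    · rw [if_neg c2, if_neg (fun h => c2 h.2)]
      ring
  · rw [if_neg c1, if_neg (fun h => c1 h.1)]

end

end Pool.Agent.W_7d29a1_HZ.ZE
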