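import Pool.Agent.W_7d29a1_HZ.ZE_Defs
import Pool.Agent.W_7d29a1_HZ.Z59_TVC
/-!
STORM Z AT ONE TILT, SECOND STOREY (MP_7d29a1_pr): the ordinary path has the node conditions `Nod` of the class `clE`. (helper59)
-/

set_option autoImplicit false

namespace Pool.Agent.W_7d29a1_HZ.ZE

open MeasureTheory ProbabilityTheory Filter Topology Finset
open Pool.Agent.W_7d29a1_F Pool.Agent.W_7d29a1_X Pool.Agent.W_7d29a1_H Pool.Agent.W_7d29a1_HZ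
open Pool.Agent.W_7d29a1_HS (In wd md)
open Pool.Agent.W_7d29a1_ZE (Win)
open scoped ENNReal

noncomputable section

variable {μ : Measure ℝ} {s : ℝ}

/-- The total variation of the layers `[T + k 2 ^ i, T + (k + 1) 2 ^ i]`, `k < 2 ^ (a - i)`, of the nodes `u`. -/
def tvN (μ : Measure ℝ) (s : ℝ) (a i T : ℕ) (u : ℕ → ℤ) : ℝ :=
  ∑ k ∈ range (2 ^ (a - i)), |((u (T + (k + 1) * 2 ^ i) : ℝ) - u (T + k * 2 ^ i)) - sl μ s * (2 ^ i : ℕ)|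

theorem tvN_pos (a i T : ℕ) (S : Finset ℕ) :
    tvN μ s a i T (pos S) = Pool.Agent.W_7d29a1_HZ.Z59.tv μ s (2 ^ i) (2 ^ (a - i)) T S := by
  unfold tvN Pool.Agent.W_7d29a1_HZ.Z59.tv
  refine Finset.sum_congr rfl fun k _ => ?_
  have h1 := Pool.Agent.W_7d29a1_HZ.Z59.pos_sub S (a := T + k * 2 ^ i) (b := T + k * 2 ^ i + 2 ^ i) (Nat.le_add_right _ _)
  have h2 : T + (k + 1) * 2 ^ i = T + k * 2 ^ i + 2 ^ i := by ring
  rw [h2]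
  have h3 : ((pos S (T + k * 2 ^ i + 2 ^ i) : ℤ) : ℝ) - pos S (T + k * 2 ^ i) =
      ((S ∩ Ico (T + k * 2 ^ i) (T + k * 2 ^ i + 2 ^ i)).card : ℝ) := by
    rw [← Int.cast_sub, h1]
    simp
  rw [h3]

/-- **(TVC) The ordinary path has the total variation of the class `clE` in all intervals and at all scales `2 ^ i ≥ L ^ e₁` with
`2 ^ (a - i) ≥ L ^ e₁`.** -/
theorem tvE [IsProbabilityMeasure μ] {c C : ℝ} {n₀ : ℕ} (hI : In μ s c C n₀) : ∃ Ct : ℝ, 0 < Ct ∧ ∀ e₁ : ℝ, 0 < e₁ →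
    ∃ ε' c' : ℝ, 0 < ε' ∧ 0 < c' ∧ ∃ L₀ : ℕ, ∀ L : ℕ, L₀ ≤ L → ∀ N : ℕ, N ≤ L → ∀ y : ℤ, 0 ≤ y → y ≤ N →
      P1 μ s N y (fun _ S => NSp μ s L N ε' S ∧ ∃ a i T : ℕ, (L : ℝ) ^ e₁ ≤ (2 ^ i : ℕ) ∧ (L : ℝ) ^ e₁ ≤ (2 ^ (a - i) : ℕ) ∧ i ≤ a ∧
        T + 2 ^ a ≤ N ∧ Ct * wd' μ s (2 ^ i) * (2 ^ (a - i) : ℕ) < tvN μ s a i T (pos S)) ≤
      ENNReal.ofReal (Real.exp (-(L : ℝ) ^ c')) := by
  obtain ⟨Ct, hCt, n₁, hn₁, htv⟩ := Pool.Agent.W_7d29a1_HZ.Z59.tvc (μ := μ) hI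
  refine ⟨Ct, hCt, fun e₁ he₁ => ?_⟩
  obtain ⟨ε', c', hε', hc', L₀, hL₀⟩ := htv e₁ he₁
  have hlim : Tendsto (fun L : ℕ => (L : ℝ) ^ e₁) atTop atTop := (tendsto_rpow_atTop he₁).comp tendsto_natCast_atTop_atTop
  obtain ⟨L₁, hL₁⟩ := eventually_atTop.1 (hlim.eventually_ge_atTop (n₁ : ℝ))
  refine ⟨ε', c', hε', hc', max L₀ L₁, fun L hL N hNL y hy0 hy1 => ?_⟩
  refine le_trans (P1_mono ?_) (hL₀ L ((le_max_left _ _).trans hL) N hNL y hy0 hy1)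
  rintro η S _ ⟨hns, a, i, T, h1, h2, h3, h4, h5⟩
  refine ⟨hns, 2 ^ i, T, 2 ^ (a - i), ?_, h2, ?_, ?_⟩
  · have := (hL₁ L ((le_max_right _ _).trans hL)).trans h1
    exact_mod_cast this
  · rw [← pow_add, Nat.sub_add_cancel h3]
    exact h4
  · rw [tvN_pos] at h5
    have h6 : wd μ s (2 ^ i) ≤ wd' μ s (2 ^ i) := le_max_right _ _
    have h7 : Ct * wd μ s (2 ^ i) * (2 ^ (a - i) : ℕ) ≤ Ct * wd' μ s (2 ^ i) * (2 ^ (a - i) : ℕ) := by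
      gcongr
    linarith

/-- Pure: the node conditions of the ordinary path from `NSp`, the total variation and the distance of the walls. -/
theorem nod_of {V : Win} {L : ℕ} {e e' C : ℝ} {i T : ℕ} {S : Finset ℕ} (hL : 1 ≤ L) (he : e' ≤ e) (hi : i ≤ V.a)
    (hT : T + 2 ^ V.a ≤ V.N) (hns : NSp μ s L V.N e' S) (htv : tvN μ s V.a i T (pos S) ≤ C * wd' μ s (2 ^ i) * (2 ^ (V.a - i) : ℕ))
    (hw : ∀ t, T ≤ t → t ≤ T + 2 ^ V.a → (V.Y : ℝ) + (L : ℝ) ^ (2 * e) * wd' μ s (2 ^ i) ≤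
        V.sg * ((pos S t : ℝ) - md μ s t) ∧
      V.sg * ((pos S t : ℝ) - md μ s t) ≤ V.Y + V.w - (L : ℝ) ^ (2 * e) * wd' μ s (2 ^ i)) :
    Nod μ s V L e C i T (pos S) := by
  have hle : ∀ k ≤ 2 ^ (V.a - i), T + k * 2 ^ i ≤ T + 2 ^ V.a := fun k hk => by
    have h1 : k * 2 ^ i ≤ 2 ^ (V.a - i) * 2 ^ i := Nat.mul_le_mul_right _ hk
    rw [← pow_add, Nat.sub_add_cancel hi] at h1
    omega
  refine ⟨fun k hk => ?_, htv, fun k hk => hw _ (Nat.le_add_right _ _) (hle k hk)⟩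
  have h1 := hle (k + 1) hk
  have h2 : T + (k + 1) * 2 ^ i = T + k * 2 ^ i + 2 ^ i := by ring
  rw [h2] at h1 ⊢
  have h3 := hns (T + k * 2 ^ i) (2 ^ i) Nat.one_le_two_pow (h1.trans hT)
  rw [Int.cast_sub] at h3
  refine h3.trans ?_
  have hLR : (1 : ℝ) ≤ L := by exact_mod_cast hL
  have h4 : (L : ℝ) ^ e' ≤ (L : ℝ) ^ e := Real.rpow_le_rpow_of_exponent_le hLR he
  have h5 : 0 ≤ wd' μ s (2 ^ i) := le_trans zero_le_one (le_max_left _ _)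
  exact mul_le_mul_of_nonneg_right h4 h5

end

end Pool.Agent.W_7d29a1_HZ.ZE
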