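import Pool.Agent.W_7d29a1_HZ.ZE_DepE
import Pool.Agent.W_7d29a1_HZ.ZE_TVC
import Pool.Agent.W_7d29a1_Z37.CellA
import Pool.Agent.W_7d29a1_HZ.Z86_GenX

/-!
STORM Z AT ONE TILT `s`, SECOND STOREY: the windows `V` of the second storey inside the windows `W = (g, j₀, J)` of the lists `Wd`, and the near tie
relation `NXE` (a `GX.NRel`) with its measurability and locality. (helper36)
-/

set_option autoImplicit false

namespace Pool.Agent.W_7d29a1_HZ.ZE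

open MeasureTheory ProbabilityTheory Filter Topology Finset
open Pool.Agent.W_7d29a1_F Pool.Agent.W_7d29a1_X Pool.Agent.W_7d29a1_h4g Pool.Agent.W_7d29a1_H Pool.Agent.W_7d29a1_HZ
open Pool.Agent.W_7d29a1_HS (In wd md)
open Pool.Agent.W_7d29a1_Z (ps pw pcs Kf Kc Reg sJ)
open Pool.Agent.W_7d29a1_HZ.Z86 (Wd mem_Wd Wd0 ell bz lWin mem_lWin)
open Pool.Agent.W_7d29a1_HZ.Z86.GX (WT NRel NOk)
open Pool.Agent.W_7d29a1_Z15 (Cls AdC)
open Pool.Agent.W_7d29a1_HZ.Z15 (kC rC NTc)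
open Pool.Agent.W_7d29a1_ZE (Win Br cAnd mid Ce al mem_JJ J_sub_JJ node_JJ)
open scoped ENNReal

noncomputable section

variable {μ : Measure ℝ} {s : ℝ}

/-! ### The starts of the intervals -/

/-- The starts of the intervals: the multiples `T` of `2 ^ a` with `[T, T + 2 ^ a] ⊆ J`. -/
def stv (N a : ℕ) (J : Finset ℕ) : Finset ℕ := (range N).filter fun T => 2 ^ a ∣ T ∧ Icc T (T + 2 ^ a) ⊆ J

theorem mem_stv {N a : ℕ} {J : Finset ℕ} {T : ℕ} : T ∈ stv N a J ↔ T < N ∧ 2 ^ a ∣ T ∧ Icc T (T + 2 ^ a) ⊆ J := by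
  unfold stv
  rw [mem_filter, mem_range]

/-- The rows of `J` whose distance from the complement of `J` is more than `2 ^ a` are covered. -/
theorem core_card {N a : ℕ} {J : Finset ℕ} (hJ : ∀ i ∈ J, i < N) :
    (J.filter fun i => 2 ^ a ≤ i ∧ Icc (i - 2 ^ a) (i + 2 ^ a) ⊆ J).card ≤ (stv N a J).card * 2 ^ a := by
  classical
  obtain ⟨P, hP⟩ : ∃ P : ℕ, P = 2 ^ a := ⟨_, rfl⟩
  have hP1 : 1 ≤ P := by rw [hP]; exact Nat.one_le_two_pow
  rw [← hP]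
  have hsub : (J.filter fun i => P ≤ i ∧ Icc (i - P) (i + P) ⊆ J) ⊆ (stv N a J).biUnion fun T => Ico T (T + P) := by
    intro i hi
    rw [mem_filter] at hi
    obtain ⟨-, h1, h2⟩ := hi
    have h3 : i / P * P ≤ i := Nat.div_mul_le_self _ _
    have h4 : i < i / P * P + P := Nat.lt_div_mul_add (by omega)
    generalize hT : i / P * P = T at h3 h4
    rw [mem_biUnion]
    refine ⟨T, ?_, by rw [mem_Ico]; omega⟩
    have h5 : Icc T (T + P) ⊆ J := by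
      intro j hj
      rw [mem_Icc] at hj
      exact h2 (by rw [mem_Icc]; omega)
    rw [mem_stv, ← hP]
    refine ⟨hJ T (h5 (by rw [mem_Icc]; omega)), ?_, h5⟩
    rw [← hT]
    exact Dvd.intro_left _ rfl
  refine (card_le_card hsub).trans (card_biUnion_le.trans ?_)
  rw [sum_congr rfl fun T _ => (show (Ico T (T + P)).card = P by rw [Nat.card_Ico]; omega), sum_const, smul_eq_mul]

/-- One block. -/
theorem stv_short {N a x ℓ : ℕ} (hJ : x + ℓ ≤ N) : ℓ ≤ (stv N a (Ico x (x + ℓ))).card * 2 ^ a + 2 * 2 ^ a := by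
  classical
  have h1 := core_card (N := N) (a := a) (J := Ico x (x + ℓ)) fun i hi => by
    rw [mem_Ico] at hi
    omega
  obtain ⟨P, hP⟩ : ∃ P : ℕ, P = 2 ^ a := ⟨_, rfl⟩
  rw [← hP] at h1 ⊢
  have h2 : Ico (x + P) (x + ℓ - P) ⊆ (Ico x (x + ℓ)).filter fun i => P ≤ i ∧ Icc (i - P) (i + P) ⊆ Ico x (x + ℓ) := by
    intro i hi
    rw [mem_Ico] at hi
    rw [mem_filter, mem_Ico]
    refine ⟨by omega, by omega, fun j hj => ?_⟩
    rw [mem_Icc] at hj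
    rw [mem_Ico]
    omega
  have h3 := (card_le_card h2).trans h1
  rw [Nat.card_Ico] at h3
  omega

/-- The long windows. -/
theorem stv_long {N a t τ k0 b n : ℕ} (hJ : ∀ i ∈ lWin t τ k0 b n, i < N) (ht : 1 ≤ t) :
    n / (16 * t) * (t - 1 - 2 * 2 ^ a) ≤ (stv N a (lWin t τ k0 b n)).card * 2 ^ a := by
  classical
  have h1 := core_card (N := N) (a := a) hJ
  obtain ⟨P, hP⟩ : ∃ P : ℕ, P = 2 ^ a := ⟨_, rfl⟩
  rw [← hP] at h1 ⊢
  refine le_trans ?_ h1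
  obtain ⟨f, hf⟩ : ∃ f : ℕ × ℕ → ℕ, f = fun x => zb t τ (bz k0 b + 2 * x.1) + 1 + x.2 := ⟨_, rfl⟩
  have h2 : ((range (n / (16 * t))) ×ˢ (Ico P (t - 1 - P))).image f ⊆
      (lWin t τ k0 b n).filter fun i => P ≤ i ∧ Icc (i - P) (i + P) ⊆ lWin t τ k0 b n := by
    intro i hi
    rw [mem_image] at hi
    obtain ⟨x, hx, rfl⟩ := hi
    rw [mem_product, mem_range, mem_Ico] at hx
    have hmem : ∀ r : ℕ, r < t - 1 → zb t τ (bz k0 b + 2 * x.1) + 1 + r ∈ lWin t τ k0 b n := by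
      intro r hr
      unfold lWin
      rw [mem_image]
      exact ⟨(x.1, r), mem_product.2 ⟨mem_range.2 hx.1, mem_range.2 hr⟩, rfl⟩
    rw [mem_filter, hf]
    dsimp only
    refine ⟨hmem _ (by omega), by omega, fun j hj => ?_⟩
    rw [mem_Icc] at hj
    obtain ⟨r, hr⟩ : ∃ r, j = zb t τ (bz k0 b + 2 * x.1) + 1 + r := ⟨j - (zb t τ (bz k0 b + 2 * x.1) + 1), by omega⟩
    rw [hr]
    exact hmem r (by omega)
  refine le_trans (le_of_eq ?_) (card_le_card h2)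
  rw [card_image_of_injOn, card_product, card_range, Nat.card_Ico]
  · congr 1
    omega
  · intro x hx y hy hxy
    rw [mem_coe, mem_product, mem_range, mem_Ico] at hx hy
    rw [hf] at hxy
    have hxy' : zb t τ (bz k0 b + 2 * x.1) + 1 + x.2 = zb t τ (bz k0 b + 2 * y.1) + 1 + y.2 := hxy
    unfold zb at hxy'
    have hd : 2 * t * (bz k0 b + 2 * x.1) + x.2 = 2 * t * (bz k0 b + 2 * y.1) + y.2 := by omega
    have h1 : x.2 < 2 * t := by omega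
    have h2 : y.2 < 2 * t := by omega
    have e1 : (2 * t * (bz k0 b + 2 * x.1) + x.2) / (2 * t) = bz k0 b + 2 * x.1 := by
      rw [Nat.mul_add_div (by omega), Nat.div_eq_of_lt h1, add_zero]
    have e2 : (2 * t * (bz k0 b + 2 * y.1) + y.2) / (2 * t) = bz k0 b + 2 * y.1 := by
      rw [Nat.mul_add_div (by omega), Nat.div_eq_of_lt h2, add_zero]
    rw [hd, e2] at e1
    have e3 : x.1 = y.1 := by omega
    refine Prod.ext e3 ?_
    rw [e3] at hd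
    omega

/-- **The number of rows of the window of the second storey.** -/
theorem stv_card {N t τ k0 : ℕ} {n1 : ℕ → ℕ} {e0 E b a : ℕ} {W : WT} (hW : W ∈ Wd N t τ k0 n1 e0 E b) (ht : 16 ≤ t)
    (h1 : 2048 * 2 ^ a ≤ n1 W.1) (h2 : 8 * 2 ^ a ≤ t) : n1 W.1 ≤ 1024 * ((stv N a W.2.2).card * 2 ^ a) := by
  obtain ⟨-, -, hW0, -, hJ, hcard⟩ := mem_Wd.1 hW
  have hJ' : ∀ i ∈ W.2.2, i < N := fun i hi => (hJ i hi).2
  generalize hn : n1 W.1 = n at *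
  obtain ⟨P, hP⟩ : ∃ P : ℕ, P = 2 ^ a := ⟨_, rfl⟩
  have hP1 : 1 ≤ P := by rw [hP]; exact Nat.one_le_two_pow
  unfold Wd0 at hW0
  split_ifs at hW0 with hc
  · rw [mem_image] at hW0
    obtain ⟨x, -, hx⟩ := hW0
    have hJe : W.2.2 = Ico (x.1 + min (x.2 * ell t n) (t / 4 - ell t n)) (x.1 + min (x.2 * ell t n) (t / 4 - ell t n) + ell t n) :=
      (congrArg Prod.snd hx).symm
    generalize x.1 + min (x.2 * ell t n) (t / 4 - ell t n) = z at hJe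
    generalize ell t n = ℓ at hJe
    rw [hJe, Nat.card_Ico] at hcard
    have hℓ : 1 ≤ ℓ := by
      have := Nat.one_le_two_pow (n := a)
      omega
    have hzN : z + ℓ ≤ N := by
      have := hJ' (z + ℓ - 1) (by rw [hJe, mem_Ico]; omega)
      omega
    have h3 := stv_short (a := a) hzN
    rw [hJe]
    rw [← hP] at h1 h3 ⊢
    omega
  · rw [mem_singleton] at hW0
    have hJe : W.2.2 = lWin t τ k0 b n := congrArg Prod.snd hW0
    rw [hJe] at hJ'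
    have h3 := stv_long (a := a) hJ' (by omega)
    rw [hJe]
    have hq : 1 ≤ n / (16 * t) := by
      rw [Nat.le_div_iff_mul_le (by omega)]
      omega
    have h4 : n < n / (16 * t) * (16 * t) + 16 * t := Nat.lt_div_mul_add (by omega)
    rw [← hP] at h2 h3 ⊢
    generalize n / (16 * t) = q at *
    generalize (stv N a (lWin t τ k0 b n)).card * P = m at *
    have h5 : q * (t / 2) ≤ q * (t - 1 - 2 * P) := Nat.mul_le_mul_left _ (by omega)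
    have h6 : t ≤ 2 * (t / 2) + 1 := by omega
    have h7 : q * t ≤ q * (2 * (t / 2) + 1) := Nat.mul_le_mul_left _ h6
    have h8 : q * (2 * (t / 2) + 1) = 2 * (q * (t / 2)) + q := by ring
    have h9 : 16 * t ≤ q * (16 * t) := Nat.le_mul_of_pos_left _ hq
    have h10 : q * (16 * t) = 16 * (q * t) := by ring
    have h11 : q * 8 ≤ q * (t / 2) := Nat.mul_le_mul_left _ (by omega)
    omega

/-! ### The window -/

/-- The window of the second storey of `W = (g, j₀, J)`: strip `2 ^ (g + 4)` behind the line `Y`. -/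
def winE (N : ℕ) (y : ℤ) (a : ℕ) (W : WT) (H : ℕ) (sg Y : ℤ) : Win where
  N := N
  y := y
  H := H
  a := a
  Iv := stv N a W.2.2
  sg := sg
  Y := Y
  w := 2 ^ (W.1 + 4)

theorem winE_JJ (N : ℕ) (y : ℤ) (a : ℕ) (W : WT) (H : ℕ) (sg Y : ℤ) : (winE N y a W H sg Y).JJ ⊆ W.2.2 := by
  intro i hi
  obtain ⟨T, hT, h1, h2⟩ := mem_JJ.1 hi
  exact (mem_stv.1 hT).2.2 (mem_Icc.2 ⟨h1, h2⟩)

theorem winE_J (N : ℕ) (y : ℤ) (a : ℕ) (W : WT) (H : ℕ) (sg Y : ℤ) : (winE N y a W H sg Y).J ⊆ W.2.2 :=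
  (J_sub_JJ _).trans (winE_JJ _ _ _ _ _ _ _)

theorem winE_nJ (N : ℕ) (y : ℤ) (a : ℕ) (W : WT) (H : ℕ) (sg Y : ℤ) :
    (winE N y a W H sg Y).nJ = (stv N a W.2.2).card * 2 ^ a := rfl

theorem winE_ok {N L t τ k0 : ℕ} {n1 : ℕ → ℕ} {e0 E b a : ℕ} {W : WT} (hW : W ∈ Wd N t τ k0 n1 e0 E b) (ht : 16 ≤ t)
    (h1 : 2048 * 2 ^ a ≤ n1 W.1) (h2 : 8 * 2 ^ a ≤ t) {y : ℤ} (hy0 : 0 ≤ y) (hyN : y ≤ N) (hNL : N ≤ L) (hE : 2 ^ (E + 4) ≤ L)
    (H : ℕ) {sg : ℤ} (hsg : sg = 1 ∨ sg = -1) (Y : ℤ) : (winE N y a W H sg Y).Ok L := by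
  have h3 := stv_card hW ht h1 h2
  obtain ⟨-, heE, hW0, -, hJ, hcard⟩ := mem_Wd.1 hW
  have hP := Nat.one_le_two_pow (n := a)
  refine ⟨hNL, hy0, hyN, ?_, ?_, ?_, hsg, ?_, ?_⟩
  · show (stv N a W.2.2).Nonempty
    rw [← card_pos]
    by_contra hcon
    have h4 : (stv N a W.2.2).card = 0 := by omega
    rw [h4, zero_mul] at h3
    omega
  · intro T hT
    exact (hJ _ ((mem_stv.1 hT).2.2 (mem_Icc.2 ⟨Nat.le_add_right _ _, le_rfl⟩))).2
  · intro T hT T' hT' hne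
    obtain ⟨m, hm⟩ := (mem_stv.1 hT).2.1
    obtain ⟨m', hm'⟩ := (mem_stv.1 hT').2.1
    show T + 2 ^ a ≤ T' ∨ T' + 2 ^ a ≤ T
    rw [hm, hm']
    rcases Nat.lt_trichotomy m m' with h4 | h4 | h4
    · left
      calc 2 ^ a * m + 2 ^ a = 2 ^ a * (m + 1) := by ring
        _ ≤ 2 ^ a * m' := Nat.mul_le_mul_left _ h4
    · exact absurd (by rw [hm, hm', h4]) hne
    · right
      calc 2 ^ a * m' + 2 ^ a = 2 ^ a * (m' + 1) := by ring
        _ ≤ 2 ^ a * m := Nat.mul_le_mul_left _ h4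
  · show (1 : ℤ) ≤ 2 ^ (W.1 + 4)
    exact_mod_cast Nat.one_le_two_pow
  · show (2 : ℤ) ^ (W.1 + 4) ≤ L
    have h4 : 2 ^ (W.1 + 4) ≤ 2 ^ (E + 4) := Nat.pow_le_pow_right (by norm_num) (by omega)
    exact_mod_cast h4.trans hE

/-! ### The near tie relation -/

/-- The parameters of the classes: `L`, `e`, `C`, the exponent `a` of the intervals, the scales `i₀`, `i₁`. -/
structure Par where
  L : ℕ
  e : ℝ
  C : ℝ
  a : ℕ
  i₀ : ℕ
  i₁ : ℕ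

/-- **The near tie relation of the second storey.** -/
def NXE (μ : Measure ℝ) (s : ℝ) (N : ℕ) (y : ℤ) (p : Par) : NRel := fun W H M η S =>
  ∃ sg Y : ℤ, (sg = 1 ∨ sg = -1) ∧ (((2 ^ W.1 : ℕ)) : ℤ) ∣ Y ∧ |sg * (pos S W.2.1 - md μ s W.2.1) - Y| ≤ ((2 ^ (W.1 + 3) : ℕ) : ℤ) ∧
    (stv N p.a W.2.2).Nonempty ∧ NTE μ s (winE N y p.a W H sg Y) p.L p.e p.C p.i₀ p.i₁ M η S

theorem NTE_ms (V : Win) (L : ℕ) (e C : ℝ) (i₀ i₁ : ℕ) (M : ℝ) : Ms (NTE μ s V L e C i₀ i₁ M) := by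
  intro S
  have h1 : {η : Env | NTE μ s V L e C i₀ i₁ M η S} = ⋃ (_ : InL μ s V.sg V.J V.Y S), ⋃ b ∈ Br V,
      {η : Env | Real.exp (-M) * kC μ s (clL μ s V) S b η ≤ kC μ s (clE μ s V L e C i₀ i₁) S b η} := by
    ext η
    simp only [NTE, NTc, Set.mem_ofPred_eq, Set.mem_iUnion, exists_prop]
  rw [h1]
  refine MeasurableSet.iUnion fun _ => Finset.measurableSet_biUnion _ fun b _ => ?_
  exact measurableSet_le ((Pool.Agent.W_7d29a1_HZ.Z15.kC_meas _ _ _).const_mul _) (Pool.Agent.W_7d29a1_HZ.Z15.kC_meas _ _ _)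

theorem NTE_off {V : Win} {L : ℕ} {e C : ℝ} {i₀ i₁ : ℕ} {M : ℝ} {J' : Finset ℕ} (hJ : V.J.Nonempty)
    (hsep : ∀ i ∈ V.J, ∀ j ∈ J', i + 2 * V.H ≤ j ∨ j + 2 * V.H ≤ i) : OffRows J' (NTE μ s V L e C i₀ i₁ M) := by
  have key : ∀ (η η' : Env) (S : Finset ℕ), (∀ q : Pt, ¬ (0 ≤ q.1 ∧ q.1.toNat ∈ J') → η q = η' q) →
      NTE μ s V L e C i₀ i₁ M η S → NTE μ s V L e C i₀ i₁ M η' S := by
    rintro η η' S h ⟨h1, b, hb, hk⟩
    refine ⟨h1, b, hb, ?_⟩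
    obtain ⟨i, hi⟩ := hJ
    unfold Br at hb
    obtain ⟨-, hbH, hbJ⟩ := mem_filter.1 hb
    have hi' := hbJ i hi
    have hrow : ∀ t ∈ Ioc b.1 b.2, ∀ y : ℤ, η ((t : ℤ), y) = η' ((t : ℤ), y) := by
      intro t ht x
      rw [mem_Ioc] at ht
      apply h
      rintro ⟨h5, h6⟩
      have h7 := hsep i hi _ h6
      simp only [Int.toNat_natCast] at h7
      omega
    unfold kC at hk ⊢
    rw [← Pool.Agent.W_7d29a1_Z37.Kc_rows _ _ _ _ _ _ hrow, ← Pool.Agent.W_7d29a1_Z37.Kc_rows _ _ _ _ _ _ hrow]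
    exact hk
  intro η η' S h
  exact ⟨key η η' S h, key η' η S (fun q hq => (h q hq).symm)⟩

theorem winE_J_ne {N : ℕ} {y : ℤ} {a : ℕ} {W : WT} {H : ℕ} {sg Y : ℤ} (h : (stv N a W.2.2).Nonempty) :
    (winE N y a W H sg Y).J.Nonempty := by
  obtain ⟨T, hT⟩ := h
  refine ⟨T + 1, mem_biUnion.2 ⟨T, hT, mem_Ioc.2 ⟨Nat.lt_succ_self T, ?_⟩⟩⟩
  show T + 1 ≤ T + 2 ^ a
  have := Nat.one_le_two_pow (n := a)
  omega

/-- The near tie relation of the second storey has the properties used in `GenX`. -/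
theorem nok_NXE (N : ℕ) (y : ℤ) (p : Par) : NOk (NXE μ s N y p) where
  ms W H M := by
    intro S
    have h1 : {η : Env | NXE μ s N y p W H M η S} = ⋃ sg : ℤ, ⋃ Y : ℤ, ⋃ (_ : (sg = 1 ∨ sg = -1) ∧ (((2 ^ W.1 : ℕ)) : ℤ) ∣ Y ∧
        |sg * (pos S W.2.1 - md μ s W.2.1) - Y| ≤ ((2 ^ (W.1 + 3) : ℕ) : ℤ) ∧ (stv N p.a W.2.2).Nonempty),
        {η : Env | NTE μ s (winE N y p.a W H sg Y) p.L p.e p.C p.i₀ p.i₁ M η S} := by
      ext η
      simp only [NXE, Set.mem_ofPred_eq, Set.mem_iUnion, exists_prop]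
      constructor
      · rintro ⟨sg, Y, h1, h2, h3, h4, h5⟩
        exact ⟨sg, Y, ⟨h1, h2, h3, h4⟩, h5⟩
      · rintro ⟨sg, Y, ⟨h1, h2, h3, h4⟩, h5⟩
        exact ⟨sg, Y, h1, h2, h3, h4, h5⟩
    rw [h1]
    exact MeasurableSet.iUnion fun sg => MeasurableSet.iUnion fun Y => MeasurableSet.iUnion fun _ => NTE_ms _ _ _ _ _ _ _ S
  off W H M J' _ hsep := by
    intro η η' S h
    unfold NXE
    have h1 : ∀ sg Y : ℤ, (stv N p.a W.2.2).Nonempty → (NTE μ s (winE N y p.a W H sg Y) p.L p.e p.C p.i₀ p.i₁ M η S ↔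
        NTE μ s (winE N y p.a W H sg Y) p.L p.e p.C p.i₀ p.i₁ M η' S) := fun sg Y hne =>
      NTE_off (winE_J_ne hne) (fun i hi j hj => hsep i (winE_J _ _ _ _ _ _ _ hi) j hj) η η' S h
    constructor
    · rintro ⟨sg, Y, h2, h3, h4, h5, h6⟩
      exact ⟨sg, Y, h2, h3, h4, h5, (h1 sg Y h5).1 h6⟩
    · rintro ⟨sg, Y, h2, h3, h4, h5, h6⟩
      exact ⟨sg, Y, h2, h3, h4, h5, (h1 sg Y h5).2 h6⟩

/-! ### Path and numbers -/

/-- The regularity of the path `S` which puts it into the class. -/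
def TVp (μ : Measure ℝ) (s : ℝ) (N : ℕ) (p : Par) (S : Finset ℕ) : Prop :=
  ∀ i, p.i₀ ≤ i → i ≤ p.i₁ → ∀ T, T + 2 ^ p.a ≤ N →
    (∀ k < 2 ^ (p.a - i), |((pos S (T + (k + 1) * 2 ^ i) : ℝ) - pos S (T + k * 2 ^ i)) - sl μ s * (2 ^ i : ℕ)| ≤
      (p.L : ℝ) ^ p.e * wd' μ s (2 ^ i)) ∧
    tvN μ s p.a i T (pos S) ≤ p.C * wd' μ s (2 ^ i) * (2 ^ (p.a - i) : ℕ)

/-- The numbers of the classes against the numbers of the windows. -/
structure POk (μ : Measure ℝ) (s : ℝ) (t : ℕ) (n1 : ℕ → ℕ) (e0 E : ℕ) (p : Par) : Prop where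
  i₁a : p.i₁ ≤ p.a
  at8 : 8 * 2 ^ p.a ≤ t
  an1 : ∀ g, e0 ≤ g → g ≤ E → 2048 * 2 ^ p.a ≤ n1 g
  wall : ∀ g, e0 ≤ g → g ≤ E → ∀ i, p.i₀ ≤ i → i ≤ p.i₁ → 16 * ((p.L : ℝ) ^ (2 * p.e) * wd' μ s (2 ^ i)) ≤ 2 ^ g

end

end Pool.Agent.W_7d29a1_HZ.ZE
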