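import Pool.Agent.W_7d29a1_HZ.ZE_F0
/-!
STORM Z, second storey: the visited columns of one layer, deterministic part. A piece which stays within `Θ` of its start (in the
moving frame, at the rows of the cells) visits at most `2 Θ / D + 2` columns; the pieces which leave have a small kernel.
(helper18)
-/

set_option autoImplicit false

namespace Pool.Agent.W_7d29a1_HZ.ZE

open MeasureTheory ProbabilityTheory Filter Topology Finset
open Pool.Agent.W_7d29a1_F Pool.Agent.W_7d29a1_X Pool.Agent.W_7d29a1_H Pool.Agent.W_7d29a1_HZ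
open Pool.Agent.W_7d29a1_HS (In wd md)
open Pool.Agent.W_7d29a1_Z (union_inter_left ps pw pcs Kf Kc Reg sJ mem_sJ ps_self ps_inter ps_chain ps_union_left ps_union_right
  sum_pw_cut pw_nonneg pw_pos pw_meas pw_env Kc_nonneg Kc_meas mem_pcs W_eq_Kf)
open Pool.Agent.W_7d29a1_Z15 (Cls AdC Own PC aC)
open Pool.Agent.W_7d29a1_HZ.Z15 (kC rC NTc kC_nonneg kC_pos own_pos rC_nonneg rC_pos rC_meas)
open Pool.Agent.W_7d29a1_ZE (Win Br cAnd mid Ce al LayC glu NdOut reg_cut mem_J br_le br_ne al_le ndOut mid_sub)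
open scoped ENNReal

noncomputable section

variable {μ : Measure ℝ} {s : ℝ}

/-- The piece is farther than `Θ` from its start at the time `t`. -/
def FarT (μ : Measure ℝ) (s : ℝ) (α : ℕ) (Θ : ℝ) (t : ℕ) (u : ℤ) (g : Finset ℕ) : Prop :=
  Θ < |((ps 0 α u g t : ℝ) - u) - sl μ s * (t - α : ℕ)|

/-- The piece is farther than `Θ` from its start at some time of the cells. -/
def Far (μ : Measure ℝ) (s : ℝ) (α h : ℕ) (Θ : ℝ) (u : ℤ) (g : Finset ℕ) : Prop := ∃ t ∈ mid α h, FarT μ s α Θ t u g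

/-- The column of the position `x` at the time `t`. -/
def cq (μ : Measure ℝ) (s : ℝ) (α D : ℕ) (t : ℕ) (x : ℤ) : ℤ := (x - md μ s (t - α)) / D

theorem mem_col_iff {α D : ℕ} (hD : 0 < D) {q : ℤ} {t : ℕ} {x : ℤ} : x ∈ col μ s α D q t ↔ q = cq μ s α D t x := by
  rw [mem_col]
  unfold cq
  have hD' : (0 : ℤ) < D := by exact_mod_cast hD
  constructor
  · rintro ⟨h1, h2⟩
    symm
    rw [Int.ediv_eq_iff_of_pos hD']
    constructor
    · linarith [mul_comm (D : ℤ) q]
    · have : (D : ℤ) * (q + 1) = q * D + D := by ring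
      linarith
  · intro h
    rw [eq_comm, Int.ediv_eq_iff_of_pos hD'] at h
    obtain ⟨h1, h2⟩ := h
    constructor
    · linarith [mul_comm (D : ℤ) q]
    · have : (D : ℤ) * (q + 1) = q * D + D := by ring
      linarith

/-- The number of the visited columns is at most the number of rows. -/
theorem card_vis_le {α h D : ℕ} (hD : 0 < D) (u : ℤ) (g : Finset ℕ) (Q : Finset ℤ) [DecidablePred fun q => ¬ AvL μ s α h D q u g] :
    #(Q.filter fun q => ¬ AvL μ s α h D q u g) ≤ h := by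
  have h1 : (Q.filter fun q => ¬ AvL μ s α h D q u g) ⊆ (mid α h).image fun t => cq μ s α D t (ps 0 α u g t) := by
    intro q hq
    rw [mem_filter] at hq
    unfold AvL at hq
    push Not at hq
    obtain ⟨_, t, ht, hx⟩ := hq
    rw [mem_image]
    exact ⟨t, ht, ((mem_col_iff hD).1 hx).symm⟩
  refine (card_le_card h1).trans (card_image_le.trans ?_)
  unfold mid
  rw [Nat.card_Ioc]
  omega

/-- A piece which stays within `Θ` visits few columns. -/
theorem card_vis_near {α h D : ℕ} (hD : 0 < D) {Θ : ℝ} (hΘ : 0 ≤ Θ) {u : ℤ} {g : Finset ℕ} (hg : ¬ Far μ s α h Θ u g)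
    (Q : Finset ℤ) [DecidablePred fun q => ¬ AvL μ s α h D q u g] : (#(Q.filter fun q => ¬ AvL μ s α h D q u g) : ℝ) ≤ 2 * Θ / D + 3 := by
  have hDR : (0 : ℝ) < D := by exact_mod_cast hD
  have hDR1 : (1 : ℝ) ≤ D := by exact_mod_cast hD
  have h1 : (Q.filter fun q => ¬ AvL μ s α h D q u g) ⊆ Icc ⌊((u : ℝ) - Θ) / D⌋ ⌊((u : ℝ) + Θ + 1) / D⌋ := by
    intro q hq
    rw [mem_filter] at hq
    unfold AvL at hq
    push Not at hq
    obtain ⟨_, t, ht, hx⟩ := hq
    rw [mem_col] at hx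
    obtain ⟨h2, h3⟩ := hx
    have h4 : ¬ FarT μ s α Θ t u g := fun h5 => hg ⟨t, ht, h5⟩
    unfold FarT at h4
    rw [not_lt, abs_le] at h4
    have h2' : (D : ℝ) * q ≤ (ps 0 α u g t : ℝ) - md μ s (t - α) := by exact_mod_cast h2
    have h3' : (ps 0 α u g t : ℝ) - md μ s (t - α) < (D : ℝ) * (q + 1) := by exact_mod_cast h3
    have m1 : (md μ s (t - α) : ℝ) ≤ sl μ s * (t - α : ℕ) := Int.floor_le _
    have m2 : sl μ s * (t - α : ℕ) < md μ s (t - α) + 1 := Int.lt_floor_add_one _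
    rw [mem_Icc]
    constructor
    · have : ((u : ℝ) - Θ) / D < q + 1 := by
        rw [div_lt_iff₀ hDR]
        linarith [h4.1]
      have h5 : ((⌊((u : ℝ) - Θ) / D⌋ : ℤ) : ℝ) < (q : ℝ) + 1 := lt_of_le_of_lt (Int.floor_le _) this
      have h6 : (⌊((u : ℝ) - Θ) / D⌋ : ℤ) < q + 1 := by exact_mod_cast h5
      linarith
    · rw [Int.le_floor, le_div_iff₀ hDR]
      linarith [h4.2]
  have h2 : (#(Q.filter fun q => ¬ AvL μ s α h D q u g) : ℝ) ≤ #(Icc ⌊((u : ℝ) - Θ) / D⌋ ⌊((u : ℝ) + Θ + 1) / D⌋) := by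
    exact_mod_cast card_le_card h1
  refine h2.trans ?_
  rw [Int.card_Icc]
  have hab : ((u : ℝ) - Θ) / D ≤ ((u : ℝ) + Θ + 1) / D := by
    refine div_le_div_of_nonneg_right (by linarith) hDR.le
  have h3 : (0 : ℤ) ≤ ⌊((u : ℝ) + Θ + 1) / D⌋ + 1 - ⌊((u : ℝ) - Θ) / D⌋ := by
    have := Int.floor_le_floor hab
    linarith
  have h4 : (((⌊((u : ℝ) + Θ + 1) / D⌋ + 1 - ⌊((u : ℝ) - Θ) / D⌋).toNat : ℕ) : ℝ) =
      ((⌊((u : ℝ) + Θ + 1) / D⌋ + 1 - ⌊((u : ℝ) - Θ) / D⌋ : ℤ) : ℝ) := by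
    exact_mod_cast Int.toNat_of_nonneg h3
  rw [h4]
  push_cast
  have h5 := Int.floor_le (((u : ℝ) + Θ + 1) / D)
  have h6 := Int.lt_floor_add_one (((u : ℝ) - Θ) / D)
  have h7 : ((u : ℝ) + Θ + 1) / D = ((u : ℝ) - Θ) / D + 2 * Θ / D + 1 / D := by
    rw [← add_div, ← add_div]
    congr 1
    ring
  have h8 : 1 / (D : ℝ) ≤ 1 := by
    rw [div_le_one hDR]
    exact hDR1
  linarith

open scoped Classical in
theorem Kc_ite (C : Finset ℕ → Prop) (η : Env) (t1 : ℕ) (x : ℤ) (t2 : ℕ) (y : ℤ) :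
    Kc μ s 0 C η t1 x t2 y = ∑ S ∈ pcs 0 t1 x t2 y, (if C S then pw μ s 0 η t1 x t2 S else 0) := by
  unfold Kc
  rw [sum_filter]

/-- **The visited columns.** -/
theorem sum_vis_le (V : Win) (η : Env) {α h D : ℕ} (hD : 0 < D) {Θ : ℝ} (hΘ : 0 ≤ Θ) (u u' : ℤ) (Q : Finset ℤ) :
    ∑ q ∈ Q, kLP μ s V (fun u g => ¬ AvL μ s α h D q u g) η α h u u' ≤
      (2 * Θ / D + 3) * kL μ s V η α h u u' + h * Kc μ s 0 (fun g => Far μ s α h Θ u g) η α u (α + h) u' := by
  classical
  have hDR : (0 : ℝ) < D := by exact_mod_cast hD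
  have hK : 0 ≤ 2 * Θ / D + 3 := by positivity
  unfold kLP kL
  simp_rw [Kc_ite]
  rw [sum_comm, mul_sum, mul_sum, ← sum_add_distrib]
  refine sum_le_sum fun S _ => ?_
  have hw := pw_nonneg (μ := μ) (s := s) 0 η α u (α + h) S
  by_cases hR : Reg (Rr μ s V.sg V.J V.Y V.w) 0 α u (α + h) S
  · simp only [hR, true_and, if_true]
    rw [← sum_filter, sum_const, nsmul_eq_mul]
    by_cases hF : Far μ s α h Θ u S
    · rw [if_pos hF]
      have h3 := mul_nonneg hK hw
      refine (mul_le_mul_of_nonneg_right (Nat.cast_le (α := ℝ).2 (card_vis_le (α := α) (h := h) hD u S Q)) hw).trans ?_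
      linarith
    · rw [if_neg hF, mul_zero, add_zero]
      exact mul_le_mul_of_nonneg_right (card_vis_near hD hΘ hF Q) hw
  · simp only [hR, false_and, if_false, sum_const_zero, mul_zero, zero_add]
    split_ifs
    · exact mul_nonneg (Nat.cast_nonneg _) hw
    · rw [mul_zero]

/-- The pieces far from their start at one time. -/
theorem farT_le (η : Env) {α h t : ℕ} (h1 : α ≤ t) (h2 : t ≤ α + h) {Θ B1 B2 : ℝ} (hB1 : 0 ≤ B1) (hB2 : 0 ≤ B2) (u u' : ℤ)
    (hb1 : ∀ y : ℤ, 0 ≤ y → y ≤ (t - α : ℕ) → Θ < |(y : ℝ) - sl μ s * (t - α : ℕ)| → W μ s η ((α : ℤ), u) (t - α) y ≤ B1)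
    (hb2 : ∀ y y' : ℤ, 0 ≤ y → y ≤ (t - α : ℕ) → 0 ≤ y' → y' ≤ (α + h - t : ℕ) →
      W μ s η ((t : ℤ), u + y) (α + h - t) y' ≤ B2) :
    Kc μ s 0 (fun g => FarT μ s α Θ t u g) η α u (α + h) u' ≤ (h + 1) * B1 * B2 := by
  classical
  -- cut at the time `t`
  have e1 : Kc μ s 0 (fun g => FarT μ s α Θ t u g) η α u (α + h) u' =
      ∑ g ∈ (Ico α (α + h)).powerset, pw μ s 0 η α u (α + h) g *
        (if ps 0 α u g (α + h) = u' ∧ FarT μ s α Θ t u g then (1 : ℝ) else 0) := by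
    unfold Kc pcs
    rw [filter_filter, sum_filter]
    refine sum_congr rfl fun g _ => ?_
    split_ifs <;> simp
  rw [e1, sum_pw_cut 0 η u h1 h2]
  have e2 : ∀ g ∈ (Ico α t).powerset, pw μ s 0 η α u t g * ∑ g' ∈ (Ico t (α + h)).powerset,
      pw μ s 0 η t (ps 0 α u g t) (α + h) g' *
        (if ps 0 α u (g ∪ g') (α + h) = u' ∧ FarT μ s α Θ t u (g ∪ g') then (1 : ℝ) else 0) ≤
      (if FarT μ s α Θ t u g then pw μ s 0 η α u t g else 0) * B2 := by
    intro g hg
    rw [mem_powerset] at hg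
    have hw := pw_nonneg (μ := μ) (s := s) 0 η α u t g
    have hps : ps 0 α u g t = u + ((g ∩ Ico α t).card : ℤ) := by simp [ps]
    have hcard : (g ∩ Ico α t).card ≤ t - α := by
      refine (card_le_card inter_subset_right).trans ?_
      rw [Nat.card_Ico]
    have hfar : ∀ g' ∈ (Ico t (α + h)).powerset, (FarT μ s α Θ t u (g ∪ g') ↔ FarT μ s α Θ t u g) := by
      intro g' hg'
      rw [mem_powerset] at hg'
      unfold FarT
      rw [ps_union_left 0 u hg hg' le_rfl]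
    by_cases hF : FarT μ s α Θ t u g
    · rw [if_pos hF]
      refine mul_le_mul_of_nonneg_left ?_ hw
      have e3 : ∑ g' ∈ (Ico t (α + h)).powerset, pw μ s 0 η t (ps 0 α u g t) (α + h) g' *
          (if ps 0 α u (g ∪ g') (α + h) = u' ∧ FarT μ s α Θ t u (g ∪ g') then (1 : ℝ) else 0) =
          Kf μ s 0 η t (ps 0 α u g t) (α + h) u' := by
        unfold Kf pcs
        rw [sum_filter]
        refine sum_congr rfl fun g' hg' => ?_
        have hg'' := hg'
        rw [mem_powerset] at hg'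
        rw [ps_union_right 0 u hg hg' h1 h2 le_rfl]
        by_cases hu : ps 0 t (ps 0 α u g t) g' (α + h) = u'
        · rw [if_pos hu, if_pos ⟨hu, (hfar g' hg'').2 hF⟩, mul_one]
        · rw [if_neg hu, if_neg fun hh => hu hh.1, mul_zero]
      rw [e3]
      have e4 : Kf μ s 0 η t (ps 0 α u g t) (α + h) u' = W μ s η ((t : ℤ), ps 0 α u g t) (α + h - t) (u' - ps 0 α u g t) := by
        rw [W_eq_Kf]
        congr 1
        · omega
        · ring
      rw [e4, hps]
      by_cases hr : 0 ≤ u' - (u + ((g ∩ Ico α t).card : ℤ)) ∧ u' - (u + ((g ∩ Ico α t).card : ℤ)) ≤ (α + h - t : ℕ)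
      · exact hb2 _ _ (by positivity) (by exact_mod_cast hcard) hr.1 hr.2
      · rw [W_eq_zero η _ hr]
        exact hB2
    · rw [if_neg hF, zero_mul]
      have e3 : ∑ g' ∈ (Ico t (α + h)).powerset, pw μ s 0 η t (ps 0 α u g t) (α + h) g' *
          (if ps 0 α u (g ∪ g') (α + h) = u' ∧ FarT μ s α Θ t u (g ∪ g') then (1 : ℝ) else 0) = 0 := by
        refine sum_eq_zero fun g' hg' => ?_
        rw [if_neg fun hh => hF ((hfar g' hg').1 hh.2), mul_zero]
      rw [e3, mul_zero]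
  refine (sum_le_sum e2).trans ?_
  rw [← sum_mul]
  refine mul_le_mul_of_nonneg_right ?_ hB2
  -- group by the displacement
  have hmaps : ∀ g ∈ (Ico α t).powerset, ps 0 α u g t ∈ Icc u (u + (t - α : ℕ)) := by
    intro g hg
    rw [mem_powerset] at hg
    have q1 : ps 0 α u g t = u + ((g ∩ Ico α t).card : ℤ) := by simp [ps]
    have q2 : (g ∩ Ico α t).card ≤ t - α := by
      refine (card_le_card inter_subset_right).trans ?_
      rw [Nat.card_Ico]
    rw [mem_Icc, q1]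
    constructor
    · have : (0 : ℤ) ≤ ((g ∩ Ico α t).card : ℤ) := by positivity
      linarith
    · have : ((g ∩ Ico α t).card : ℤ) ≤ (t - α : ℕ) := by exact_mod_cast q2
      linarith
  rw [← sum_fiberwise_of_maps_to hmaps]
  have h3 : ∀ x ∈ Icc u (u + (t - α : ℕ)), ∑ g ∈ (Ico α t).powerset.filter (fun g => ps 0 α u g t = x),
      (if FarT μ s α Θ t u g then pw μ s 0 η α u t g else 0) ≤ B1 := by
    intro x hx
    rw [mem_Icc] at hx
    by_cases hF : Θ < |((x : ℝ) - u) - sl μ s * (t - α : ℕ)|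
    · have e3 : ∑ g ∈ (Ico α t).powerset.filter (fun g => ps 0 α u g t = x),
          (if FarT μ s α Θ t u g then pw μ s 0 η α u t g else 0) ≤ Kf μ s 0 η α u t x := by
        unfold Kf pcs
        refine sum_le_sum fun g _ => ?_
        split_ifs
        · exact le_rfl
        · exact pw_nonneg _ _ _ _ _ _
      refine e3.trans ?_
      have e4 : Kf μ s 0 η α u t x = W μ s η ((α : ℤ), u) (t - α) (x - u) := by
        rw [W_eq_Kf]
        congr 1
        · omega
        · ring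
      rw [e4]
      refine hb1 (x - u) (by linarith) (by linarith) ?_
      rw [Int.cast_sub]
      exact hF
    · have e3 : ∑ g ∈ (Ico α t).powerset.filter (fun g => ps 0 α u g t = x),
          (if FarT μ s α Θ t u g then pw μ s 0 η α u t g else 0) = 0 := by
        refine sum_eq_zero fun g hg => ?_
        rw [mem_filter] at hg
        refine if_neg fun hh => ?_
        unfold FarT at hh
        rw [hg.2] at hh
        exact hF hh
      rw [e3]
      exact hB1
  refine (sum_le_sum h3).trans ?_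
  rw [sum_const, nsmul_eq_mul]
  refine mul_le_mul_of_nonneg_right ?_ hB1
  rw [Int.card_Icc]
  have : (u + ((t - α : ℕ) : ℤ) + 1 - u).toNat = (t - α) + 1 := by omega
  rw [this]
  push_cast
  have h4 : ((t - α : ℕ) : ℝ) ≤ h := by
    have : t - α ≤ h := by omega
    exact_mod_cast this
  linarith

/-- The pieces far from their start at some time of the cells. -/
theorem far_le (η : Env) {α h : ℕ} {Θ B1 B2 : ℝ} (hB1 : 0 ≤ B1) (hB2 : 0 ≤ B2) (u u' : ℤ)
    (hb1 : ∀ t ∈ mid α h, ∀ y : ℤ, 0 ≤ y → y ≤ (t - α : ℕ) → Θ < |(y : ℝ) - sl μ s * (t - α : ℕ)| →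
      W μ s η ((α : ℤ), u) (t - α) y ≤ B1)
    (hb2 : ∀ t ∈ mid α h, ∀ y y' : ℤ, 0 ≤ y → y ≤ (t - α : ℕ) → 0 ≤ y' → y' ≤ (α + h - t : ℕ) →
      W μ s η ((t : ℤ), u + y) (α + h - t) y' ≤ B2) :
    Kc μ s 0 (fun g => Far μ s α h Θ u g) η α u (α + h) u' ≤ h * ((h + 1) * B1 * B2) := by
  classical
  have h1 : Kc μ s 0 (fun g => Far μ s α h Θ u g) η α u (α + h) u' ≤
      ∑ t ∈ mid α h, Kc μ s 0 (fun g => FarT μ s α Θ t u g) η α u (α + h) u' := by
    unfold Kc
    simp_rw [sum_filter]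
    rw [sum_comm]
    refine sum_le_sum fun g _ => ?_
    have hw := pw_nonneg (μ := μ) (s := s) 0 η α u (α + h) g
    by_cases hF : Far μ s α h Θ u g
    · rw [if_pos hF]
      obtain ⟨t, ht, hF'⟩ := hF
      refine le_trans (le_of_eq (if_pos hF').symm) (single_le_sum (f := fun t => if FarT μ s α Θ t u g then
        pw μ s 0 η α u (α + h) g else 0) (fun t _ => ?_) ht)
      split_ifs
      · exact hw
      · exact le_rfl
    · rw [if_neg hF]
      refine sum_nonneg fun t _ => ?_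
      split_ifs
      · exact hw
      · exact le_rfl
  refine h1.trans ((sum_le_sum fun t ht => farT_le η (mid_sub ht).1.le (mid_sub ht).2 hB1 hB2 u u' (hb1 t ht)
    (hb2 t ht)).trans ?_)
  rw [sum_const, nsmul_eq_mul]
  refine mul_le_mul_of_nonneg_right ?_ (by positivity)
  have : (mid α h).card ≤ h := by
    unfold mid
    rw [Nat.card_Ioc]
    omega
  exact_mod_cast this

end

end Pool.Agent.W_7d29a1_HZ.ZE
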