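import Pool.Agent.W_7d29a1_HZ.ZE_TouA
import Pool.Agent.W_7d29a1_HZ.ZE_Off
/-!
STORM Z at one tilt `s`, second storey: the visited columns. If all the weights are small off the cone (`OffC`, for the environment
moved to the strip) and the kernels of the layer between two admissible nodes are not small (`LowE`), the mean number of the visited
columns is at most a small power (`TouE`). (helper18)
-/

set_option autoImplicit false

namespace Pool.Agent.W_7d29a1_HZ.ZE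

open MeasureTheory ProbabilityTheory Filter Topology Finset
open Pool.Agent.W_7d29a1_F Pool.Agent.W_7d29a1_X Pool.Agent.W_7d29a1_H Pool.Agent.W_7d29a1_HZ
open Pool.Agent.W_7d29a1_HS (In wd md)
open Pool.Agent.W_7d29a1_Z (union_inter_left ps pw pcs Kf Kc Reg sJ mem_sJ ps_self ps_inter ps_chain ps_union_left ps_union_right
  sum_pw_cut pw_nonneg pw_pos pw_meas pw_env Kc_nonneg Kc_meas mem_pcs W_eq_Kf)
open Pool.Agent.W_7d29a1_Z15 (Cls AdC Own PC aC)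
open Pool.Agent.W_7d29a1_HZ.Z15 (kC rC NTc kC_nonneg kC_pos own_pos rC_nonneg rC_pos rC_meas)
open Pool.Agent.W_7d29a1_ZE (Win Br cAnd mid Ce al LayC glu NdOut reg_cut mem_J br_le br_ne al_le ndOut mid_sub)
open scoped ENNReal

noncomputable section

variable {μ : Measure ℝ} {s : ℝ}

/-- The kernels of the layers of the scale `2 ^ i` between admissible nodes are at least `exp (- B)`. -/
def LowE (μ : Measure ℝ) (s : ℝ) (V : Win) (L : ℕ) (e : ℝ) (i : ℕ) (B : ℝ) (η : Env) : Prop :=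
  ∀ T ∈ V.Iv, ∀ k < 2 ^ (V.a - i), ∀ u u' : ℤ, Pr μ s V L e i (T + k * 2 ^ i) u u' →
    Real.exp (-B) ≤ kL μ s V η (T + k * 2 ^ i) (2 ^ i) u u'

/-- The position of the strip. -/
def xz (V : Win) : ℤ := V.sg * V.Y

theorem md_mem (h0 : 0 < sl μ s) (h1 : sl μ s < 1) (n : ℕ) : 0 ≤ md μ s n ∧ md μ s n ≤ n := by
  constructor
  · exact Int.floor_nonneg.2 (mul_nonneg h0.le (Nat.cast_nonneg _))
  · have h2 : ((md μ s n : ℤ) : ℝ) ≤ (n : ℝ) := (Int.floor_le _).trans (mul_le_of_le_one_left (Nat.cast_nonneg _) h1.le)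
    exact_mod_cast h2

theorem pr_pos {V : Win} {L : ℕ} (hV : V.Ok L) (h0 : 0 < sl μ s) (h1 : sl μ s < 1) {e : ℝ} {i α n : ℕ} (hα : α + n ≤ L) {y : ℤ}
    (hy0 : 0 ≤ y) (hy1 : y ≤ n) {u u' : ℤ} (h : Pr μ s V L e i α u u') : |u + y - xz V| ≤ 2 * L := by
  have hL0 : (0 : ℝ) ≤ (L : ℝ) ^ (2 * e) * wd' μ s (2 ^ i) :=
    mul_nonneg (Real.rpow_nonneg (Nat.cast_nonneg _) _) (zero_le_one.trans (le_max_left _ _))
  have h3 := h.w0
  have h2 := h.w1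
  have e1 : (V.Y : ℝ) ≤ V.sg * ((u : ℝ) - md μ s α) := by linarith
  have e2 : V.sg * ((u : ℝ) - md μ s α) ≤ V.Y + V.w := by linarith
  have e1' : V.Y ≤ V.sg * (u - md μ s α) := by exact_mod_cast e1
  have e2' : V.sg * (u - md μ s α) ≤ V.Y + V.w := by exact_mod_cast e2
  have hw := hV.wL
  have hw1 := hV.w1
  obtain ⟨m0, m1⟩ := md_mem h0 h1 α
  have hα' : (α : ℤ) + n ≤ L := by exact_mod_cast hα
  unfold xz
  rcases hV.sgn with hs | hs
  · rw [hs] at e1' e2' ⊢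
    rw [abs_le]
    constructor <;> linarith
  · rw [hs] at e1' e2' ⊢
    rw [abs_le]
    constructor <;> linarith

variable [IsProbabilityMeasure μ] {c C : ℝ} {n₀ : ℕ}

/-- **The visited columns.** -/
theorem tou_of (h : In μ s c C n₀) {κ : ℝ} (hκ : 0 < κ) : ∀ e₃ : ℝ, 0 < e₃ → ∃ ε : ℝ, 0 < ε ∧ ∃ L₀ : ℕ, ∀ L : ℕ,
    L₀ ≤ L → ∀ V : Win, V.Ok L → ∀ (e : ℝ) (i D : ℕ), i ≤ V.a → wd' μ s (2 ^ i) ≤ D → ∀ η : Env,
      OffC μ s L ε κ (sh (0, xz V) η) → LowE μ s V L e i ((L : ℝ) ^ ε * EE' μ s (2 ^ i)) η → TouE μ s V L e i D ((L : ℝ) ^ e₃) η := by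
  obtain ⟨a₁, K₁, ha₁, ha₁', hK₁, hE⟩ := EE'_pow h
  obtain ⟨a₂, K₂, ha₂, ha₂', hK₂, hw⟩ := wd'_pow h
  intro e₃ he₃
  obtain ⟨c₁, hc₁⟩ : ∃ c₁ : ℝ, c₁ = κ / (2 * K₁ * K₂) := ⟨_, rfl⟩
  have hc₁0 : 0 < c₁ := by rw [hc₁]; positivity
  have ev1 : ∀ᶠ L : ℕ in atTop, (2 * K₁ + 2) / c₁ ≤ (L : ℝ) ^ (e₃ / 4) :=
    ((tendsto_rpow_atTop (by positivity : 0 < e₃ / 4)).comp tendsto_natCast_atTop_atTop).eventually_ge_atTop _
  have ev2 : ∀ᶠ L : ℕ in atTop, 5 ≤ (L : ℝ) ^ (e₃ / 2) :=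
    ((tendsto_rpow_atTop (by positivity : 0 < e₃ / 2)).comp tendsto_natCast_atTop_atTop).eventually_ge_atTop _
  have ev3 : ∀ᶠ L : ℕ in atTop, 2 * (L : ℝ) ^ (3 : ℝ) * Real.exp (-(1 * (L : ℝ) ^ (e₃ / 4))) ≤ Real.exp (-(L : ℝ) ^ (e₃ / 4 / 2)) :=
    Pool.Agent.W_7d29a1_HZ.Z22.absorb 2 3 one_pos (by positivity)
  obtain ⟨L₁, hL₁⟩ := eventually_atTop.1 ((ev1.and ev2).and ev3)
  refine ⟨e₃ / 4, by positivity, max L₁ 2, fun L hL V hV e i D hi hD η hO hLow => ?_⟩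
  obtain ⟨⟨k1, k2⟩, k3⟩ := hL₁ L ((le_max_left _ _).trans hL)
  have hL2 : 2 ≤ L := (le_max_right _ _).trans hL
  have hLR : (1 : ℝ) ≤ L := by exact_mod_cast (by omega : 1 ≤ L)
  have hL0 : (0 : ℝ) < L := by linarith
  obtain ⟨hh, hhd⟩ : ∃ hh : ℕ, hh = 2 ^ i := ⟨_, rfl⟩
  have hp : 0 < hh := by rw [hhd]; positivity
  have hh1 : 1 ≤ hh := hp
  have hEp : 1 ≤ EE' μ s hh := le_max_left _ _
  have hwp : 1 ≤ wd' μ s hh := le_max_left _ _
  have hDp : 0 < D := by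
    have : (0 : ℝ) < D := lt_of_lt_of_le (lt_of_lt_of_le one_pos hwp) (by rw [hhd]; exact hD)
    exact_mod_cast this
  have hDR : (0 : ℝ) < D := by exact_mod_cast hDp
  intro T hT k hk u u' hpr Q
  obtain ⟨α, hα⟩ : ∃ α, α = T + k * 2 ^ i := ⟨_, rfl⟩
  have hlow := hLow T hT k hk u u' hpr
  rw [← hα] at hpr hlow ⊢
  rw [← hhd] at hD hlow ⊢
  have hαh : α + hh ≤ V.N := by
    have h1 := hV.le T hT
    have h2 := (al_le (z := ((T, k, 0) : Ce)) hi hk).2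
    unfold al at h2
    simp only at h2
    rw [← hα, ← hhd] at h2
    omega
  have hNL := hV.NL
  obtain ⟨hs0, hsl1⟩ := sl_mem h.em h.nd s
  obtain ⟨Θ, hΘd⟩ : ∃ Θ : ℝ, Θ = (L : ℝ) ^ (e₃ / 2) * wd' μ s hh := ⟨_, rfl⟩
  have hΘ : 0 ≤ Θ := by rw [hΘd]; positivity
  -- the positions
  have hx1 : |u - xz V| ≤ 2 * L := by
    have h1 := pr_pos hV hs0 hsl1 (n := 0) (y := 0) (by omega) le_rfl (by simp) hpr
    rwa [add_zero] at h1
  have hshift : ∀ (a : ℕ) (x : ℤ) (n : ℕ) (y : ℤ), W μ s η ((a : ℤ), x) n y =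
      W μ s (sh (0, xz V) η) ((a : ℤ), x - xz V) n y := by
    intro a x n y
    rw [W_sh]
    congr 1
    exact Prod.ext (by simp) (by simp)
  -- the two bounds
  obtain ⟨B1, hB1⟩ : ∃ B1 : ℝ, B1 = Real.exp (K₁ * ((L : ℝ) ^ (e₃ / 4) * EE' μ s hh) - c₁ * ((L : ℝ) ^ (e₃ / 2) * EE' μ s hh)) :=
    ⟨_, rfl⟩
  obtain ⟨B2, hB2⟩ : ∃ B2 : ℝ, B2 = Real.exp (K₁ * ((L : ℝ) ^ (e₃ / 4) * EE' μ s hh)) := ⟨_, rfl⟩
  have hB10 : 0 ≤ B1 := by rw [hB1]; exact (Real.exp_pos _).le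
  have hB20 : 0 ≤ B2 := by rw [hB2]; exact (Real.exp_pos _).le
  have hLε : 0 ≤ (L : ℝ) ^ (e₃ / 4) := Real.rpow_nonneg hL0.le _
  have hb1 : ∀ t ∈ mid α hh, ∀ y : ℤ, 0 ≤ y → y ≤ (t - α : ℕ) → Θ < |(y : ℝ) - sl μ s * (t - α : ℕ)| →
      W μ s η ((α : ℤ), u) (t - α) y ≤ B1 := by
    intro t ht y hy0 hy1 hfar
    have ht1 := mid_sub ht
    unfold mid at ht
    rw [mem_Ioc] at ht
    obtain ⟨r, hs⟩ : ∃ r, r = t - α := ⟨_, rfl⟩
    rw [← hs] at hy1 hfar ⊢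
    have hs1 : 1 ≤ r := by omega
    have hs2 : r ≤ hh := by omega
    have hs4 : hh ≤ 4 * r := by omega
    rw [hshift]
    refine (hO α r (by omega) (u - xz V) hx1 y hy0 hy1).trans ?_
    rw [hB1]
    refine Real.exp_le_exp.2 ?_
    obtain ⟨q1, _, q3⟩ := hE r hh hs1 hs2
    obtain ⟨r1, _, _⟩ := hw r hh hs1 hs2
    have hEs : 1 ≤ EE' μ s r := le_max_left _ _
    have hws : 1 ≤ wd' μ s r := le_max_left _ _
    have hsq : Real.sqrt ((hh : ℝ) / r) ≤ 2 := by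
      have hsR : (0 : ℝ) < r := by exact_mod_cast hs1
      have h4 : (hh : ℝ) / r ≤ 4 := by
        rw [div_le_iff₀ hsR]
        exact_mod_cast hs4
      calc Real.sqrt ((hh : ℝ) / r) ≤ Real.sqrt 4 := Real.sqrt_le_sqrt h4
        _ = 2 := by
          rw [show (4 : ℝ) = 2 ^ 2 by norm_num, Real.sqrt_sq (by norm_num)]
    have q3' : EE' μ s hh ≤ 2 * K₁ * EE' μ s r := by
      refine q3.trans ?_
      have : K₁ * Real.sqrt ((hh : ℝ) / r) ≤ K₁ * 2 := mul_le_mul_of_nonneg_left hsq (by linarith)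
      calc K₁ * Real.sqrt ((hh : ℝ) / r) * EE' μ s r ≤ K₁ * 2 * EE' μ s r := mul_le_mul_of_nonneg_right this (by linarith)
        _ = _ := by ring
    have hratio : EE' μ s hh / (2 * K₁ * K₂ * wd' μ s hh) ≤ EE' μ s r / wd' μ s r := by
      rw [div_le_div_iff₀ (by positivity) (by positivity)]
      calc EE' μ s hh * wd' μ s r ≤ (2 * K₁ * EE' μ s r) * (K₂ * wd' μ s hh) :=
            mul_le_mul q3' r1 (by linarith) (by positivity)
        _ = _ := by ring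
    have h5 : c₁ * ((L : ℝ) ^ (e₃ / 2) * EE' μ s hh) ≤ κ * (EE' μ s r / wd' μ s r) * |(y : ℝ) - sl μ s * r| := by
      have h6 : κ * (EE' μ s hh / (2 * K₁ * K₂ * wd' μ s hh)) ≤ κ * (EE' μ s r / wd' μ s r) :=
        mul_le_mul_of_nonneg_left hratio hκ.le
      have h7 : κ * (EE' μ s hh / (2 * K₁ * K₂ * wd' μ s hh)) * Θ = c₁ * ((L : ℝ) ^ (e₃ / 2) * EE' μ s hh) := by
        rw [hΘd, hc₁]
        field_simp
      rw [← h7]
      exact mul_le_mul h6 hfar.le hΘ (by positivity)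
    have h8 : (L : ℝ) ^ (e₃ / 4) * EE' μ s r ≤ K₁ * ((L : ℝ) ^ (e₃ / 4) * EE' μ s hh) := by
      calc (L : ℝ) ^ (e₃ / 4) * EE' μ s r ≤ (L : ℝ) ^ (e₃ / 4) * (K₁ * EE' μ s hh) := mul_le_mul_of_nonneg_left q1 hLε
        _ = _ := by ring
    linarith
  have hb2 : ∀ t ∈ mid α hh, ∀ y y' : ℤ, 0 ≤ y → y ≤ (t - α : ℕ) → 0 ≤ y' → y' ≤ (α + hh - t : ℕ) →
      W μ s η ((t : ℤ), u + y) (α + hh - t) y' ≤ B2 := by
    intro t ht y y' hy0 hy1 hy0' hy1'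
    have ht1 := mid_sub ht
    unfold mid at ht
    rw [mem_Ioc] at ht
    obtain ⟨r, hs⟩ : ∃ r, r = α + hh - t := ⟨_, rfl⟩
    rw [← hs] at hy1' ⊢
    have hs1 : 1 ≤ r := by omega
    have hs2 : r ≤ hh := by omega
    rw [hshift]
    have hx2 : |u + y - xz V| ≤ 2 * L := pr_pos hV hs0 hsl1 (n := t - α) (by omega) hy0 hy1 hpr
    refine (hO t r (by omega) (u + y - xz V) hx2 y' hy0' hy1').trans ?_
    rw [hB2]
    refine Real.exp_le_exp.2 ?_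
    obtain ⟨q1, _, _⟩ := hE r hh hs1 hs2
    have hEs : 1 ≤ EE' μ s r := le_max_left _ _
    have hws : 1 ≤ wd' μ s r := le_max_left _ _
    have h8 : (L : ℝ) ^ (e₃ / 4) * EE' μ s r ≤ K₁ * ((L : ℝ) ^ (e₃ / 4) * EE' μ s hh) := by
      calc (L : ℝ) ^ (e₃ / 4) * EE' μ s r ≤ (L : ℝ) ^ (e₃ / 4) * (K₁ * EE' μ s hh) := mul_le_mul_of_nonneg_left q1 hLε
        _ = _ := by ring
    have h9 : 0 ≤ κ * (EE' μ s r / wd' μ s r) * |(y' : ℝ) - sl μ s * r| := by positivity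
    linarith
  have hfar := far_le (μ := μ) (s := s) η hB10 hB20 u u' hb1 hb2
  have hsum := sum_vis_le (μ := μ) (s := s) V η (α := α) (h := hh) hDp hΘ u u' Q
  -- the far part is smaller than the kernel
  have hfar2 : (hh : ℝ) * Kc μ s 0 (fun g => Far μ s α hh Θ u g) η α u (α + hh) u' ≤ kL μ s V η α hh u u' := by
    have hhR : (1 : ℝ) ≤ hh := by exact_mod_cast hh1
    have hhL : (hh : ℝ) ≤ L := by
      have : hh ≤ L := by omega
      exact_mod_cast this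
    have h1 : (hh : ℝ) * Kc μ s 0 (fun g => Far μ s α hh Θ u g) η α u (α + hh) u' ≤ 2 * (L : ℝ) ^ (3 : ℝ) * (B1 * B2) := by
      have h2 := mul_le_mul_of_nonneg_left hfar (Nat.cast_nonneg (α := ℝ) hh)
      refine h2.trans ?_
      have h3 : (hh : ℝ) * (hh * ((hh + 1) * B1 * B2)) = (hh * hh * (hh + 1)) * (B1 * B2) := by ring
      rw [h3]
      refine mul_le_mul_of_nonneg_right ?_ (mul_nonneg hB10 hB20)
      have h4 : (L : ℝ) ^ (3 : ℝ) = L * L * L := by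
        rw [show (3 : ℝ) = ((3 : ℕ) : ℝ) by norm_num, Real.rpow_natCast]
        ring
      rw [h4]
      calc (hh : ℝ) * hh * (hh + 1) ≤ L * L * (2 * L) := by
            refine mul_le_mul (mul_le_mul hhL hhL (by linarith) hL0.le) (by linarith) (by linarith) (by positivity)
        _ = 2 * (L * L * L) := by ring
    refine h1.trans (le_trans ?_ hlow)
    obtain ⟨E, hEd⟩ : ∃ E, E = EE' μ s hh := ⟨_, rfl⟩
    obtain ⟨x, hx⟩ : ∃ x : ℝ, x = (L : ℝ) ^ (e₃ / 4) := ⟨_, rfl⟩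
    have hx0 : 1 ≤ x := by rw [hx]; exact Real.one_le_rpow hLR (by positivity)
    have e1 : (L : ℝ) ^ (e₃ / 2) = x * x := by
      rw [hx, ← Real.rpow_add hL0]
      congr 1
      ring
    rw [hB1, hB2, ← Real.exp_add, e1, ← hx, ← hEd]
    rw [← hEd] at hEp
    rw [← hx] at k1 k3
    -- `2 L ^ 3 ≤ exp x`
    have h5 : 2 * (L : ℝ) ^ (3 : ℝ) ≤ Real.exp x := by
      have h6 : Real.exp (-(L : ℝ) ^ (e₃ / 4 / 2)) ≤ 1 := by
        rw [Real.exp_le_one_iff]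
        have := Real.rpow_nonneg hL0.le (e₃ / 4 / 2)
        linarith
      have h7 := k3.trans h6
      rw [one_mul] at h7
      have h8 : 2 * (L : ℝ) ^ (3 : ℝ) = 2 * (L : ℝ) ^ (3 : ℝ) * Real.exp (-x) * Real.exp x := by
        rw [mul_assoc, ← Real.exp_add, neg_add_cancel, Real.exp_zero, mul_one]
      rw [h8]
      calc 2 * (L : ℝ) ^ (3 : ℝ) * Real.exp (-x) * Real.exp x ≤ 1 * Real.exp x :=
            mul_le_mul_of_nonneg_right h7 (Real.exp_pos _).le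
        _ = _ := one_mul _
    refine (mul_le_mul_of_nonneg_right h5 (Real.exp_pos _).le).trans ?_
    rw [← Real.exp_add]
    refine Real.exp_le_exp.2 ?_
    rw [div_le_iff₀ hc₁0] at k1
    have h9 : (2 * K₁ + 2) * (x * E) ≤ x * c₁ * (x * E) := mul_le_mul_of_nonneg_right k1 (by positivity)
    have h10 : x ≤ x * E := le_mul_of_one_le_right (by linarith) hEp
    nlinarith
  refine hsum.trans ?_
  have hk0 := kL_nonneg (μ := μ) (s := s) V η α hh u u'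
  have h1 : 2 * Θ / D ≤ 2 * (L : ℝ) ^ (e₃ / 2) := by
    rw [div_le_iff₀ hDR, hΘd]
    have : (L : ℝ) ^ (e₃ / 2) * wd' μ s hh ≤ (L : ℝ) ^ (e₃ / 2) * D :=
      mul_le_mul_of_nonneg_left hD (Real.rpow_nonneg hL0.le _)
    linarith
  have h2 : 2 * (L : ℝ) ^ (e₃ / 2) + 4 ≤ (L : ℝ) ^ e₃ := by
    have e1 : (L : ℝ) ^ e₃ = (L : ℝ) ^ (e₃ / 2) * (L : ℝ) ^ (e₃ / 2) := by
      rw [← Real.rpow_add hL0]
      congr 1
      ring
    rw [e1]
    nlinarith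
  calc (2 * Θ / D + 3) * kL μ s V η α hh u u' + hh * Kc μ s 0 (fun g => Far μ s α hh Θ u g) η α u (α + hh) u'
      ≤ (2 * (L : ℝ) ^ (e₃ / 2) + 3) * kL μ s V η α hh u u' + kL μ s V η α hh u u' :=
        add_le_add (mul_le_mul_of_nonneg_right (by linarith) hk0) hfar2
    _ = (2 * (L : ℝ) ^ (e₃ / 2) + 4) * kL μ s V η α hh u u' := by ring
    _ ≤ _ := mul_le_mul_of_nonneg_right h2 hk0

end

end Pool.Agent.W_7d29a1_HZ.ZE
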